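import Mathlib

set_option autoImplicit false
open Set

/-! # Convex domains: extents, floor and ceiling -/

namespace Pool.Agent.H5.FM

/-- bounded open convex set containing the origin -/
structure CD (D : Set ℂ) : Prop where
  conv : Convex ℝ D
  op : IsOpen D
  bd : Bornology.IsBounded D
  zero : (0 : ℂ) ∈ D

/-- leftmost abscissa -/
noncomputable def xL (D : Set ℂ) : ℝ := sInf (Complex.re '' D)
/-- rightmost abscissa -/
noncomputable def xR (D : Set ℂ) : ℝ := sSup (Complex.re '' D)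
/-- floor -/
noncomputable def flo (D : Set ℂ) (x : ℝ) : ℝ := sInf {y | (⟨x, y⟩ : ℂ) ∈ closure D}
/-- ceiling -/
noncomputable def cei (D : Set ℂ) (x : ℝ) : ℝ := sSup {y | (⟨x, y⟩ : ℂ) ∈ closure D}

/-- bounded open nonempty order connected sets of reals -/
lemma mem_iff_of_ordConnected {S : Set ℝ} (ho : IsOpen S) (hc : S.OrdConnected)
    (hne : S.Nonempty) (hb : Bornology.IsBounded S) (y : ℝ) : y ∈ S ↔ sInf S < y ∧ y < sSup S := by
  have hbb := hb.bddBelow
  have hba := hb.bddAbove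
  constructor
  · intro hy
    obtain ⟨r, hr, hsub⟩ := Metric.isOpen_iff.1 ho y hy
    constructor
    · have h1 : y - r / 2 ∈ S := hsub (by
        rw [Metric.mem_ball, Real.dist_eq, show y - r / 2 - y = -(r / 2) by ring, abs_neg,
          abs_of_pos (by linarith)]; linarith)
      have := csInf_le hbb h1
      linarith
    · have h1 : y + r / 2 ∈ S := hsub (by
        rw [Metric.mem_ball, Real.dist_eq, show y + r / 2 - y = r / 2 by ring,
          abs_of_pos (by linarith)]; linarith)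
      have := le_csSup hba h1
      linarith
  · rintro ⟨h1, h2⟩
    obtain ⟨u, hu, hu'⟩ := exists_lt_of_csInf_lt hne h1
    obtain ⟨v, hv, hv'⟩ := exists_lt_of_lt_csSup hne h2
    exact hc.out hu hv ⟨hu'.le, hv'.le⟩

namespace CD

variable {D : Set ℂ} (h : CD D)
include h

lemma exists_R : ∃ R > 0, ∀ z ∈ closure D, ‖z‖ ≤ R := by
  obtain ⟨R, hR⟩ := (Metric.isBounded_iff_subset_closedBall (0 : ℂ)).1 h.bd.closure
  refine ⟨max R 1, lt_max_of_lt_right one_pos, fun z hz => ?_⟩
  have := hR hz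
  rw [mem_closedBall_zero_iff] at this
  exact this.trans (le_max_left _ _)

lemma exists_r : ∃ r > 0, ∀ z : ℂ, ‖z‖ < r → z ∈ D := by
  obtain ⟨r, hr, hsub⟩ := Metric.isOpen_iff.1 h.op 0 h.zero
  exact ⟨r, hr, fun z hz => hsub (by rwa [mem_ball_zero_iff])⟩

lemma re_open : IsOpen (Complex.re '' D) := Complex.isOpenMap_re _ h.op

lemma re_conn : (Complex.re '' D).OrdConnected :=
  (h.conv.linear_image Complex.reLm).ordConnected

lemma re_bd : Bornology.IsBounded (Complex.re '' D) := by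
  obtain ⟨R, hR, hR'⟩ := h.exists_R
  rw [Metric.isBounded_iff_subset_closedBall 0]
  refine ⟨R, ?_⟩
  rintro _ ⟨z, hz, rfl⟩
  rw [mem_closedBall_zero_iff, Real.norm_eq_abs]
  exact (Complex.abs_re_le_norm z).trans (hR' z (subset_closure hz))

lemma mem_re (x : ℝ) : x ∈ Complex.re '' D ↔ xL D < x ∧ x < xR D :=
  mem_iff_of_ordConnected h.re_open h.re_conn ⟨_, 0, h.zero, rfl⟩ h.re_bd x

lemma xL_neg : xL D < 0 := ((h.mem_re 0).1 ⟨0, h.zero, rfl⟩).1

lemma xR_pos : 0 < xR D := ((h.mem_re 0).1 ⟨0, h.zero, rfl⟩).2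

lemma re_lt {z : ℂ} (hz : z ∈ D) : xL D < z.re ∧ z.re < xR D := (h.mem_re _).1 ⟨z, hz, rfl⟩

lemma exists_of_lt {x : ℝ} (h1 : xL D < x) (h2 : x < xR D) : ∃ y, (⟨x, y⟩ : ℂ) ∈ D := by
  obtain ⟨z, hz, rfl⟩ := (h.mem_re x).2 ⟨h1, h2⟩
  exact ⟨z.im, hz⟩

lemma compact : IsCompact (closure D) := Metric.isCompact_of_isClosed_isBounded isClosed_closure h.bd.closure

lemma convc : Convex ℝ (closure D) := h.conv.closure

lemma re_closure {z : ℂ} (hz : z ∈ closure D) : xL D ≤ z.re ∧ z.re ≤ xR D := by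
  have hc : IsClosed {z : ℂ | xL D ≤ z.re ∧ z.re ≤ xR D} :=
    (isClosed_le continuous_const Complex.continuous_re).inter
      (isClosed_le Complex.continuous_re continuous_const)
  have hs : D ⊆ {z : ℂ | xL D ≤ z.re ∧ z.re ≤ xR D} := fun w hw =>
    And.intro (h.re_lt hw).1.le (h.re_lt hw).2.le
  exact closure_minimal hs hc hz

lemma exists_closure {x : ℝ} (h1 : xL D ≤ x) (h2 : x ≤ xR D) : ∃ y, (⟨x, y⟩ : ℂ) ∈ closure D := by
  have hc : IsCompact (Complex.re '' closure D) := h.compact.image Complex.continuous_re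
  have hsub : Icc (xL D) (xR D) ⊆ Complex.re '' closure D := by
    have : Ioo (xL D) (xR D) ⊆ Complex.re '' closure D := fun x hx => by
      obtain ⟨y, hy⟩ := h.exists_of_lt hx.1 hx.2
      exact ⟨Complex.mk x y, subset_closure hy, rfl⟩
    have h3 := closure_minimal this hc.isClosed
    rwa [closure_Ioo (by have := h.xL_neg; have := h.xR_pos; linarith)] at h3
  obtain ⟨z, hz, e⟩ := hsub ⟨h1, h2⟩
  exact ⟨z.im, by rw [← e]; exact hz⟩

/-- the section of the closure -/
lemma sec_compact (x : ℝ) : IsCompact {y | (⟨x, y⟩ : ℂ) ∈ closure D} := by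
  have hcont : Continuous fun y : ℝ => (⟨x, y⟩ : ℂ) := by
    have : (fun y : ℝ => (⟨x, y⟩ : ℂ)) = fun y : ℝ => (x : ℂ) + y * Complex.I := by
      funext y; apply Complex.ext <;> simp
    rw [this]; fun_prop
  obtain ⟨R, hR, hR'⟩ := h.exists_R
  apply Metric.isCompact_of_isClosed_isBounded (isClosed_closure.preimage hcont)
  rw [Metric.isBounded_iff_subset_closedBall 0]
  refine ⟨R, fun y hy => ?_⟩
  rw [mem_closedBall_zero_iff, Real.norm_eq_abs]
  exact (Complex.abs_im_le_norm (⟨x, y⟩ : ℂ)).trans (hR' _ hy)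

lemma sec_conn (x : ℝ) : {y | (⟨x, y⟩ : ℂ) ∈ closure D}.OrdConnected := by
  constructor
  intro u hu v hv y hy
  rcases eq_or_lt_of_le (hy.1.trans hy.2) with e | e
  · have : y = u := le_antisymm (by rw [e]; exact hy.2) hy.1
    rw [this]; exact hu
  · have := h.convc hu hv (a := (v - y) / (v - u)) (b := (y - u) / (v - u))
      (div_nonneg (by linarith [hy.2]) (by linarith)) (div_nonneg (by linarith [hy.1]) (by linarith))
      (by rw [← add_div, show v - y + (y - u) = v - u by ring, div_self (by linarith)])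
    have hne : v - u ≠ 0 := by linarith
    show (⟨x, y⟩ : ℂ) ∈ closure D
    convert this using 1
    apply Complex.ext
    · simp only [Complex.add_re, Complex.smul_re, smul_eq_mul]
      field_simp
      ring
    · simp only [Complex.add_im, Complex.smul_im, smul_eq_mul]
      field_simp
      ring

lemma mem_closure_iff {x y : ℝ} (h1 : xL D ≤ x) (h2 : x ≤ xR D) :
    (⟨x, y⟩ : ℂ) ∈ closure D ↔ flo D x ≤ y ∧ y ≤ cei D x := by
  have hc := h.sec_compact x
  have hne : {y | (⟨x, y⟩ : ℂ) ∈ closure D}.Nonempty := h.exists_closure h1 h2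
  constructor
  · intro hy
    exact ⟨csInf_le hc.bddBelow hy, le_csSup hc.bddAbove hy⟩
  · intro hy
    exact (h.sec_conn x).out (hc.sInf_mem hne) (hc.sSup_mem hne) hy

lemma flo_mem {x : ℝ} (h1 : xL D ≤ x) (h2 : x ≤ xR D) : (⟨x, flo D x⟩ : ℂ) ∈ closure D :=
  (h.sec_compact x).sInf_mem (h.exists_closure h1 h2)

lemma cei_mem {x : ℝ} (h1 : xL D ≤ x) (h2 : x ≤ xR D) : (⟨x, cei D x⟩ : ℂ) ∈ closure D :=
  (h.sec_compact x).sSup_mem (h.exists_closure h1 h2)

lemma flo_le_cei {x : ℝ} (h1 : xL D ≤ x) (h2 : x ≤ xR D) : flo D x ≤ cei D x :=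
  ((h.mem_closure_iff h1 h2).1 (h.flo_mem h1 h2)).2

lemma mem_iff {x y : ℝ} : (⟨x, y⟩ : ℂ) ∈ D ↔ (xL D < x ∧ x < xR D) ∧ flo D x < y ∧ y < cei D x := by
  constructor
  · intro hy
    have hx := h.re_lt hy
    simp only at hx
    refine ⟨hx, ?_⟩
    obtain ⟨r, hr, hsub⟩ := Metric.isOpen_iff.1 h.op _ hy
    have key : ∀ t : ℝ, |t| < r → (⟨x, y + t⟩ : ℂ) ∈ closure D := fun t ht => by
      apply subset_closure
      apply hsub
      rw [Metric.mem_ball, dist_eq_norm]
      have : (⟨x, y + t⟩ : ℂ) - ⟨x, y⟩ = t * Complex.I := by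
        apply Complex.ext <;> simp
      rw [this, norm_mul, Complex.norm_I, mul_one, Complex.norm_real]
      exact ht
    have h3 := (h.mem_closure_iff hx.1.le hx.2.le).1 (key (r / 2) (by
      rw [abs_of_pos (by linarith)]; linarith))
    have h4 := (h.mem_closure_iff hx.1.le hx.2.le).1 (key (-(r / 2)) (by
      rw [abs_neg, abs_of_pos (by linarith)]; linarith))
    constructor <;> linarith [h3.2, h4.1]
  · rintro ⟨⟨h1, h2⟩, h3, h4⟩
    obtain ⟨y0, hy0⟩ := h.exists_of_lt h1 h2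
    have hi : (⟨x, y0⟩ : ℂ) ∈ interior D := by rw [h.op.interior_eq]; exact hy0
    have key : ∀ v : ℝ, (⟨x, v⟩ : ℂ) ∈ closure D → ∀ t, 0 < t → t ≤ 1 →
        (⟨x, t * y0 + (1 - t) * v⟩ : ℂ) ∈ D := by
      intro v hv t ht ht'
      have := h.conv.combo_interior_closure_mem_interior hi hv (a := t) (b := 1 - t) ht
        (by linarith) (by ring)
      rw [h.op.interior_eq] at this
      convert this using 1
      apply Complex.ext
      · simp; ring
      · simp
    rcases lt_trichotomy y y0 with e | e | e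
    · have := key (flo D x) (h.flo_mem h1.le h2.le) ((y - flo D x) / (y0 - flo D x))
        (div_pos (by linarith) (by linarith)) (by rw [div_le_one (by linarith)]; linarith)
      convert this using 2
      have : y0 - flo D x ≠ 0 := by linarith
      field_simp
      ring
    · rw [e]; exact hy0
    · have := key (cei D x) (h.cei_mem h1.le h2.le) ((cei D x - y) / (cei D x - y0))
        (div_pos (by linarith) (by linarith)) (by rw [div_le_one (by linarith)]; linarith)
      convert this using 2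
      have : cei D x - y0 ≠ 0 := by linarith
      field_simp
      ring

/-- chords of the floor -/
lemma flo_chord {x x' x'' t : ℝ} (h1 : xL D ≤ x) (h2 : x ≤ xR D) (h1' : xL D ≤ x')
    (h2' : x' ≤ xR D) (ht : 0 ≤ t) (ht' : t ≤ 1) (e : x'' = (1 - t) * x + t * x') :
    flo D x'' ≤ (1 - t) * flo D x + t * flo D x' := by
  have := h.convc (h.flo_mem h1 h2) (h.flo_mem h1' h2') (a := 1 - t) (b := t) (by linarith) ht
    (by ring)
  have e2 : (1 - t) • (⟨x, flo D x⟩ : ℂ) + t • ⟨x', flo D x'⟩ =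
      ⟨x'', (1 - t) * flo D x + t * flo D x'⟩ := by
    rw [e]
    apply Complex.ext <;> simp
  rw [e2] at this
  have hx : xL D ≤ x'' ∧ x'' ≤ xR D := by
    have := h.re_closure this
    simpa using this
  exact ((h.mem_closure_iff hx.1 hx.2).1 this).1

lemma flo_cont : ContinuousOn (flo D) (Icc (xL D) (xR D)) := by
  obtain ⟨R, hR, hR'⟩ := h.exists_R
  have hlt : xL D < xR D := by linarith [h.xL_neg, h.xR_pos]
  have hbd : ∀ x ∈ Icc (xL D) (xR D), |flo D x| ≤ R := fun x hx =>
    (Complex.abs_im_le_norm (⟨x, flo D x⟩ : ℂ)).trans (hR' _ (h.flo_mem hx.1 hx.2))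
  intro x hx
  rw [Metric.continuousWithinAt_iff]
  intro ε hε
  -- lower bound near x
  have hlow : ∃ δ > 0, ∀ x' ∈ Icc (xL D) (xR D), dist x' x < δ → flo D x - ε < flo D x' := by
    set K : Set ℂ := closure D ∩ {z | z.im ≤ flo D x - ε} with hK
    have hKc : IsCompact K := h.compact.inter_right (isClosed_le Complex.continuous_im continuous_const)
    have hKi : IsClosed (Complex.re '' K) := (hKc.image Complex.continuous_re).isClosed
    have hn : x ∉ Complex.re '' K := by
      rintro ⟨z, ⟨hz1, hz2⟩, e⟩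
      have h3 : (⟨x, z.im⟩ : ℂ) ∈ closure D := by rw [← e]; exact hz1
      have h4 := ((h.mem_closure_iff hx.1 hx.2).1 h3).1
      have h5 : z.im ≤ flo D x - ε := hz2
      linarith
    obtain ⟨δ, hδ, hsub⟩ := Metric.isOpen_iff.1 hKi.isOpen_compl x hn
    refine ⟨δ, hδ, fun x' hx' hd => ?_⟩
    by_contra hcon
    exact hsub hd ⟨⟨x', flo D x'⟩, ⟨h.flo_mem hx'.1 hx'.2, not_lt.1 hcon⟩, rfl⟩
  -- upper bound on the right of x
  have hup : ∀ e0 ∈ Icc (xL D) (xR D), e0 ≠ x → ∃ δ > 0, ∀ x' ∈ Icc (xL D) (xR D), dist x' x < δ →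
      (∃ t, 0 ≤ t ∧ t ≤ 1 ∧ x' = (1 - t) * x + t * e0) → flo D x' < flo D x + ε := by
    intro e0 he0 hne
    have hpos : 0 < |e0 - x| := abs_pos.2 (sub_ne_zero.2 hne)
    refine ⟨|e0 - x| * (ε / (2 * R + 1)), by positivity, ?_⟩
    rintro x' hx' hd ⟨t, ht0, ht1, e⟩
    have h3 := h.flo_chord hx.1 hx.2 he0.1 he0.2 ht0 ht1 e
    have h4 : |x' - x| = t * |e0 - x| := by
      rw [e, show (1 - t) * x + t * e0 - x = t * (e0 - x) by ring, abs_mul, abs_of_nonneg ht0]
    rw [Real.dist_eq, h4, mul_comm] at hd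
    have h5 : t < ε / (2 * R + 1) := lt_of_mul_lt_mul_left hd hpos.le
    have h6 := abs_le.1 (hbd x hx)
    have h7 := abs_le.1 (hbd e0 he0)
    have h8 : t * (flo D e0 - flo D x) ≤ t * (2 * R) :=
      mul_le_mul_of_nonneg_left (by linarith) ht0
    have h9 : t * (2 * R) < ε := by
      rw [lt_div_iff₀ (by positivity)] at h5
      nlinarith
    linarith [h3, h8, h9]
  obtain ⟨δ1, hδ1, H1⟩ := hlow
  -- right end
  have hr : ∃ δ > 0, ∀ x' ∈ Icc (xL D) (xR D), dist x' x < δ → flo D x' < flo D x + ε := by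
    have hR2 : ∃ δ > 0, ∀ x' ∈ Icc (xL D) (xR D), x ≤ x' → dist x' x < δ →
        flo D x' < flo D x + ε := by
      rcases eq_or_lt_of_le hx.2 with e | e
      · refine ⟨1, one_pos, fun x' hx' hle _ => ?_⟩
        have : x' = x := le_antisymm (by rw [e]; exact hx'.2) hle
        rw [this]; linarith
      · obtain ⟨δ, hδ, H⟩ := hup (xR D) ⟨hlt.le, le_rfl⟩ (by linarith)
        refine ⟨δ, hδ, fun x' hx' hle hd => H x' hx' hd ⟨(x' - x) / (xR D - x), ?_, ?_, ?_⟩⟩
        · exact div_nonneg (by linarith) (by linarith)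
        · rw [div_le_one (by linarith)]; linarith [hx'.2]
        · have : xR D - x ≠ 0 := by linarith
          field_simp
          ring
    have hL2 : ∃ δ > 0, ∀ x' ∈ Icc (xL D) (xR D), x' ≤ x → dist x' x < δ →
        flo D x' < flo D x + ε := by
      rcases eq_or_lt_of_le hx.1 with e | e
      · refine ⟨1, one_pos, fun x' hx' hle _ => ?_⟩
        have : x' = x := le_antisymm hle (by rw [← e]; exact hx'.1)
        rw [this]; linarith
      · obtain ⟨δ, hδ, H⟩ := hup (xL D) ⟨le_rfl, hlt.le⟩ (by linarith)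
        refine ⟨δ, hδ, fun x' hx' hle hd => H x' hx' hd ⟨(x - x') / (x - xL D), ?_, ?_, ?_⟩⟩
        · exact div_nonneg (by linarith) (by linarith)
        · rw [div_le_one (by linarith)]; linarith [hx'.1]
        · have : x - xL D ≠ 0 := by linarith
          field_simp
          ring
    obtain ⟨δ2, hδ2, H2⟩ := hR2
    obtain ⟨δ3, hδ3, H3⟩ := hL2
    refine ⟨min δ2 δ3, lt_min hδ2 hδ3, fun x' hx' hd => ?_⟩
    rcases le_total x x' with g | g
    · exact H2 x' hx' g (hd.trans_le (min_le_left _ _))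
    · exact H3 x' hx' g (hd.trans_le (min_le_right _ _))
  obtain ⟨δ2, hδ2, H2⟩ := hr
  refine ⟨min δ1 δ2, lt_min hδ1 hδ2, fun x' hx' hd => ?_⟩
  rw [Real.dist_eq, abs_lt]
  have g1 := H1 x' hx' (hd.trans_le (min_le_left _ _))
  have g2 := H2 x' hx' (hd.trans_le (min_le_right _ _))
  constructor <;> linarith

end CD

/-! ### Reflection -/

/-- complex conjugate of a set -/
def cj (D : Set ℂ) : Set ℂ := {z | (starRingEnd ℂ) z ∈ D}

lemma cj_cj (D : Set ℂ) : cj (cj D) = D := by
  ext z; simp [cj]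

lemma CD.cj {D : Set ℂ} (h : CD D) : CD (cj D) where
  conv := by
    intro z hz w hw a b ha hb hab
    have := h.conv hz hw ha hb hab
    show (starRingEnd ℂ) (a • z + b • w) ∈ D
    convert this using 1
    simp
  op := h.op.preimage Complex.continuous_conj
  bd := by
    obtain ⟨R, hR, hR'⟩ := h.exists_R
    rw [Metric.isBounded_iff_subset_closedBall 0]
    refine ⟨R, fun z hz => ?_⟩
    rw [mem_closedBall_zero_iff]
    have := hR' _ (subset_closure (show (starRingEnd ℂ) z ∈ D from hz))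
    simpa using this
  zero := by
    show (starRingEnd ℂ) 0 ∈ D
    simpa using h.zero

lemma closure_cj (D : Set ℂ) : closure (cj D) = cj (closure D) := by
  have e : cj D = Complex.conjCLE ⁻¹' D := by ext z; simp [cj]
  have e2 : cj (closure D) = Complex.conjCLE ⁻¹' closure D := by ext z; simp [cj]
  rw [e, e2]
  exact (Complex.conjCLE.toHomeomorph.preimage_closure D).symm

lemma re_cj (D : Set ℂ) : Complex.re '' cj D = Complex.re '' D := by
  ext x
  constructor
  · rintro ⟨z, hz, rfl⟩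
    exact ⟨(starRingEnd ℂ) z, hz, by simp⟩
  · rintro ⟨z, hz, rfl⟩
    exact ⟨(starRingEnd ℂ) z, by simpa [cj] using hz, by simp⟩

lemma xL_cj (D : Set ℂ) : xL (cj D) = xL D := by unfold xL; rw [re_cj]
lemma xR_cj (D : Set ℂ) : xR (cj D) = xR D := by unfold xR; rw [re_cj]

lemma flo_cj (D : Set ℂ) (x : ℝ) : flo (cj D) x = -cei D x := by
  unfold flo cei
  rw [closure_cj]
  have e : {y : ℝ | (⟨x, y⟩ : ℂ) ∈ cj (closure D)} = -{y : ℝ | (⟨x, y⟩ : ℂ) ∈ closure D} := by
    ext y
    simp only [cj, mem_ofPred_eq, Set.mem_neg]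
    rfl
  rw [e, Real.sInf_def, neg_neg]

lemma cei_cj (D : Set ℂ) (x : ℝ) : cei (cj D) x = -flo D x := by
  have := flo_cj (cj D) x
  rw [cj_cj] at this
  linarith

lemma CD.cei_cont {D : Set ℂ} (h : CD D) : ContinuousOn (cei D) (Icc (xL D) (xR D)) := by
  have h1 := h.cj.flo_cont
  rw [xL_cj, xR_cj] at h1
  have h2 : cei D = fun x => -flo (Pool.Agent.H5.FM.cj D) x := by funext x; rw [flo_cj]; ring
  rw [h2]
  exact h1.neg

end Pool.Agent.H5.FM
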