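import Mathlib
import Pool.Agent.H5.FM.Conv

set_option autoImplicit false
open Set

/-! # Inner and outer profile functions of a convex domain -/

namespace Pool.Agent.H5.FM

/-- the inner domain -/
def sc (η : ℝ) (D : Set ℂ) : Set ℂ := {z | ∃ w ∈ D, z = ((1 - η : ℝ) : ℂ) * w}

/-- the outer domain -/
def th (θ : ℝ) (D : Set ℂ) : Set ℂ := {z | ∃ w ∈ D, |z.re - w.re| < θ ∧ |z.im - w.im| < θ}

/-- ordinates of the points of `K` above `[x0, x1]` -/
def pr (K : Set ℂ) (x0 x1 : ℝ) : Set ℝ := {y | ∃ x, x0 ≤ x ∧ x ≤ x1 ∧ (⟨x, y⟩ : ℂ) ∈ K}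

/-- abscissas of the points of `K` at height in `[y0, y1]` -/
def pc (K : Set ℂ) (y0 y1 : ℝ) : Set ℝ := {x | ∃ y, y0 ≤ y ∧ y ≤ y1 ∧ (⟨x, y⟩ : ℂ) ∈ K}

lemma mk_sub (x y : ℝ) (z : ℂ) : (⟨x, y⟩ : ℂ) - z = ⟨x - z.re, y - z.im⟩ := by
  apply Complex.ext <;> simp

lemma norm_le_two (z : ℂ) {t : ℝ} (h1 : |z.re| ≤ t) (h2 : |z.im| ≤ t) : ‖z‖ ≤ 2 * t := by
  have := Complex.norm_le_abs_re_add_abs_im z
  linarith

variable {D : Set ℂ}

lemma CD.sub_scale (h : CD D) {t : ℝ} (h0 : 0 ≤ t) (h1 : t ≤ 1) {w : ℂ} (hw : w ∈ D) :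
    (t : ℂ) * w ∈ D := by
  have := h.conv hw h.zero (a := t) (b := 1 - t) h0 (by linarith) (by ring)
  simpa using this

lemma CD.sc_sub (h : CD D) {η : ℝ} (h0 : 0 ≤ η) (h1 : η ≤ 1) : sc η D ⊆ D := by
  rintro z ⟨w, hw, rfl⟩
  exact h.sub_scale (by linarith) (by linarith) hw

lemma CD.sub_th (_h : CD D) {θ : ℝ} (h0 : 0 < θ) : D ⊆ th θ D :=
  fun z hz => ⟨z, hz, by simpa using h0, by simpa using h0⟩

/-- points near the smaller copies are in the domain -/
lemma CD.scale_add (h : CD D) {r η : ℝ} (_hr : 0 < r) (hr' : ∀ z : ℂ, ‖z‖ < r → z ∈ D) (h0 : 0 < η)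
    (h1 : η ≤ 1) {w u : ℂ} (hw : w ∈ D) (hu : ‖u‖ < η * r) : ((1 - η : ℝ) : ℂ) * w + u ∈ D := by
  have hu' : ((η⁻¹ : ℝ) : ℂ) * u ∈ D := by
    apply hr'
    rw [norm_mul, Complex.norm_real, Real.norm_eq_abs, abs_of_pos (inv_pos.2 h0)]
    rw [inv_mul_lt_iff₀ h0]
    exact hu
  have := h.conv hw hu' (a := 1 - η) (b := η) (by linarith) h0.le (by ring)
  convert this using 1
  have hne : ((η : ℝ) : ℂ) ≠ 0 := by exact_mod_cast h0.ne'
  rw [Complex.real_smul, Complex.real_smul]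
  push_cast
  field_simp

lemma CD.cd_sc (h : CD D) {η : ℝ} (h0 : 0 ≤ η) (h1 : η < 1) : CD (sc η D) where
  conv := by
    rintro z ⟨w, hw, rfl⟩ z' ⟨w', hw', rfl⟩ a b ha hb hab
    refine ⟨a • w + b • w', h.conv hw hw' ha hb hab, ?_⟩
    rw [Complex.real_smul, Complex.real_smul, Complex.real_smul, Complex.real_smul]
    ring
  op := by
    have hne : ((1 - η : ℝ) : ℂ) ≠ 0 := by exact_mod_cast (show (1 - η : ℝ) ≠ 0 by linarith)
    have e : sc η D = (fun z : ℂ => ((1 - η : ℝ) : ℂ)⁻¹ * z) ⁻¹' D := by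
      ext z
      constructor
      · rintro ⟨w, hw, rfl⟩
        show ((1 - η : ℝ) : ℂ)⁻¹ * (((1 - η : ℝ) : ℂ) * w) ∈ D
        rwa [← mul_assoc, inv_mul_cancel₀ hne, one_mul]
      · intro hz
        exact ⟨_, hz, by show z = _; rw [← mul_assoc, mul_inv_cancel₀ hne, one_mul]⟩
    rw [e]
    exact h.op.preimage (continuous_const.mul continuous_id)
  bd := h.bd.subset (h.sc_sub h0 h1.le)
  zero := ⟨0, h.zero, by simp⟩

lemma CD.cd_th (h : CD D) {θ : ℝ} (h0 : 0 < θ) : CD (th θ D) where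
  conv := by
    rintro z ⟨w, hw, h1, h2⟩ z' ⟨w', hw', h1', h2'⟩ a b ha hb hab
    refine ⟨a • w + b • w', h.conv hw hw' ha hb hab, ?_, ?_⟩
    · have e : (a • z + b • z').re - (a • w + b • w').re = a * (z.re - w.re) + b * (z'.re - w'.re) := by
        simp only [Complex.add_re, Complex.smul_re, smul_eq_mul]; ring
      rw [e]
      have k1 := abs_lt.1 h1
      have k2 := abs_lt.1 h1'
      rw [abs_lt]
      rcases eq_or_lt_of_le ha with ea | ea
      · have : b = 1 := by linarith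
        rw [← ea, this]; constructor <;> linarith
      · constructor <;> nlinarith
    · have e : (a • z + b • z').im - (a • w + b • w').im = a * (z.im - w.im) + b * (z'.im - w'.im) := by
        simp only [Complex.add_im, Complex.smul_im, smul_eq_mul]; ring
      rw [e]
      have k1 := abs_lt.1 h2
      have k2 := abs_lt.1 h2'
      rw [abs_lt]
      rcases eq_or_lt_of_le ha with ea | ea
      · have : b = 1 := by linarith
        rw [← ea, this]; constructor <;> linarith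
      · constructor <;> nlinarith
  op := by
    have e : th θ D = ⋃ w ∈ D, {z : ℂ | |z.re - w.re| < θ ∧ |z.im - w.im| < θ} := by
      ext z
      simp only [th, mem_ofPred_eq, mem_iUnion, exists_prop]
    rw [e]
    apply isOpen_biUnion
    intro w _
    have c1 : Continuous fun z : ℂ => |z.re - w.re| :=
      (Complex.continuous_re.sub continuous_const).abs
    have c2 : Continuous fun z : ℂ => |z.im - w.im| :=
      (Complex.continuous_im.sub continuous_const).abs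
    exact (isOpen_lt c1 continuous_const).inter (isOpen_lt c2 continuous_const)
  bd := by
    obtain ⟨R, hR, hR'⟩ := h.exists_R
    rw [Metric.isBounded_iff_subset_closedBall 0]
    refine ⟨R + 2 * θ, ?_⟩
    rintro z ⟨w, hw, h1, h2⟩
    rw [mem_closedBall_zero_iff]
    have h3 := hR' w (subset_closure hw)
    have h4 : ‖z - w‖ ≤ 2 * θ := norm_le_two _ (by simpa using h1.le) (by simpa using h2.le)
    have := norm_add_le w (z - w)
    rw [add_sub_cancel] at this
    linarith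
  zero := h.sub_th h0 h.zero

section proj

variable {K : Set ℂ} {x0 x1 : ℝ}

lemma CD.pr_open (h : CD K) : IsOpen (pr K x0 x1) := by
  rw [Metric.isOpen_iff]
  rintro y ⟨x, h1, h2, h3⟩
  obtain ⟨r, hr, hsub⟩ := Metric.isOpen_iff.1 h.op _ h3
  refine ⟨r, hr, fun y' hy' => ⟨x, h1, h2, hsub ?_⟩⟩
  rw [Metric.mem_ball, dist_eq_norm, mk_sub]
  have e : (⟨x - x, y' - y⟩ : ℂ) = ((y' - y : ℝ) : ℂ) * Complex.I := by
    apply Complex.ext <;> simp
  rw [show (⟨x - (⟨x, y⟩ : ℂ).re, y' - (⟨x, y⟩ : ℂ).im⟩ : ℂ) = ((y' - y : ℝ) : ℂ) * Complex.I from e,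
    norm_mul, Complex.norm_I, mul_one, Complex.norm_real]
  exact hy'

lemma CD.pr_conn (h : CD K) : (pr K x0 x1).OrdConnected := by
  constructor
  rintro u ⟨a, ha1, ha2, ha3⟩ v ⟨b, hb1, hb2, hb3⟩ y ⟨hy1, hy2⟩
  rcases eq_or_lt_of_le (hy1.trans hy2) with e | e
  · have : y = u := le_antisymm (by rw [e]; exact hy2) hy1
    rw [this]; exact ⟨a, ha1, ha2, ha3⟩
  · set s := (v - y) / (v - u) with hs
    set t := (y - u) / (v - u) with ht
    have hne : v - u ≠ 0 := by linarith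
    have hs0 : 0 ≤ s := div_nonneg (by linarith) (by linarith)
    have ht0 : 0 ≤ t := div_nonneg (by linarith) (by linarith)
    have hst : s + t = 1 := by
      rw [hs, ht, ← add_div, show v - y + (y - u) = v - u by ring, div_self hne]
    have := h.conv ha3 hb3 hs0 ht0 hst
    refine ⟨s * a + t * b, ?_, ?_, ?_⟩
    · have g1 := mul_le_mul_of_nonneg_left ha1 hs0
      have g2 := mul_le_mul_of_nonneg_left hb1 ht0
      have g3 : s * x0 + t * x0 = x0 := by rw [← add_mul, hst, one_mul]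
      linarith
    · have g1 := mul_le_mul_of_nonneg_left ha2 hs0
      have g2 := mul_le_mul_of_nonneg_left hb2 ht0
      have g3 : s * x1 + t * x1 = x1 := by rw [← add_mul, hst, one_mul]
      linarith
    · convert this using 1
      apply Complex.ext
      · simp only [Complex.add_re, Complex.smul_re, smul_eq_mul]
      · simp only [Complex.add_im, Complex.smul_im, smul_eq_mul]
        rw [hs, ht]
        field_simp
        ring

lemma CD.pr_bd (h : CD K) : Bornology.IsBounded (pr K x0 x1) := by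
  obtain ⟨R, hR, hR'⟩ := h.exists_R
  rw [Metric.isBounded_iff_subset_closedBall 0]
  refine ⟨R, ?_⟩
  rintro y ⟨x, h1, h2, h3⟩
  rw [mem_closedBall_zero_iff, Real.norm_eq_abs]
  exact (Complex.abs_im_le_norm (⟨x, y⟩ : ℂ)).trans (hR' _ (subset_closure h3))

lemma CD.mem_pr (h : CD K) (hne : (pr K x0 x1).Nonempty) (y : ℝ) :
    y ∈ pr K x0 x1 ↔ sInf (pr K x0 x1) < y ∧ y < sSup (pr K x0 x1) :=
  mem_iff_of_ordConnected h.pr_open h.pr_conn hne h.pr_bd y

lemma CD.pc_bd (h : CD K) : Bornology.IsBounded (pc K x0 x1) := by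
  obtain ⟨R, hR, hR'⟩ := h.exists_R
  rw [Metric.isBounded_iff_subset_closedBall 0]
  refine ⟨R, ?_⟩
  rintro x ⟨y, h1, h2, h3⟩
  rw [mem_closedBall_zero_iff, Real.norm_eq_abs]
  exact (Complex.abs_re_le_norm (⟨x, y⟩ : ℂ)).trans (hR' _ (subset_closure h3))

end proj

/-! ### Reflections -/

/-- mirror image `x -> -x` -/
def rx (D : Set ℂ) : Set ℂ := {z | -(starRingEnd ℂ) z ∈ D}

lemma mem_rx {x y : ℝ} : (⟨x, y⟩ : ℂ) ∈ rx D ↔ (⟨-x, y⟩ : ℂ) ∈ D := by
  unfold rx
  rw [mem_ofPred_eq]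
  have : -(starRingEnd ℂ) (⟨x, y⟩ : ℂ) = ⟨-x, y⟩ := by apply Complex.ext <;> simp
  rw [this]

lemma mem_cj {x y : ℝ} : (⟨x, y⟩ : ℂ) ∈ cj D ↔ (⟨x, -y⟩ : ℂ) ∈ D := by
  unfold cj
  rw [mem_ofPred_eq]
  have : (starRingEnd ℂ) (⟨x, y⟩ : ℂ) = ⟨x, -y⟩ := by apply Complex.ext <;> simp
  rw [this]

lemma rx_rx (D : Set ℂ) : rx (rx D) = D := by
  ext ⟨x, y⟩; rw [mem_rx, mem_rx, neg_neg]

lemma CD.rx (h : CD D) : CD (rx D) where
  conv := by
    intro z hz w hw a b ha hb hab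
    have := h.conv hz hw ha hb hab
    show -(starRingEnd ℂ) (a • z + b • w) ∈ D
    convert this using 1
    simp
    ring
  op := h.op.preimage Complex.continuous_conj.neg
  bd := by
    obtain ⟨R, hR, hR'⟩ := h.exists_R
    rw [Metric.isBounded_iff_subset_closedBall 0]
    refine ⟨R, fun z hz => ?_⟩
    rw [mem_closedBall_zero_iff]
    have := hR' _ (subset_closure (show -(starRingEnd ℂ) z ∈ D from hz))
    simpa using this
  zero := by
    show -(starRingEnd ℂ) 0 ∈ D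
    simpa using h.zero

lemma sc_cj (η : ℝ) (D : Set ℂ) : sc η (cj D) = cj (sc η D) := by
  ext z
  constructor
  · rintro ⟨w, hw, rfl⟩
    exact ⟨_, hw, by simp⟩
  · rintro ⟨w, hw, e⟩
    refine ⟨(starRingEnd ℂ) w, by simpa [cj] using hw, ?_⟩
    have := congrArg (starRingEnd ℂ) e
    simpa using this

lemma sc_rx (η : ℝ) (D : Set ℂ) : sc η (rx D) = rx (sc η D) := by
  ext z
  constructor
  · rintro ⟨w, hw, rfl⟩
    exact ⟨_, hw, by simp⟩
  · rintro ⟨w, hw, e⟩
    refine ⟨-(starRingEnd ℂ) w, by simpa [rx] using hw, ?_⟩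
    have := congrArg (fun u => -(starRingEnd ℂ) u) e
    simpa using this

lemma th_cj (θ : ℝ) (D : Set ℂ) : th θ (cj D) = cj (th θ D) := by
  ext z
  constructor
  · rintro ⟨w, hw, h1, h2⟩
    refine ⟨_, hw, by simpa using h1, ?_⟩
    have : (((starRingEnd ℂ) z).im - ((starRingEnd ℂ) w).im) = -(z.im - w.im) := by simp; ring
    rw [this, abs_neg]; exact h2
  · rintro ⟨w, hw, h1, h2⟩
    refine ⟨(starRingEnd ℂ) w, by simpa [cj] using hw, by simpa using h1, ?_⟩
    have : (z.im - ((starRingEnd ℂ) w).im) = -(((starRingEnd ℂ) z).im - w.im) := by simp; ring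
    rw [this, abs_neg]; exact h2

lemma th_rx (θ : ℝ) (D : Set ℂ) : th θ (rx D) = rx (th θ D) := by
  ext z
  constructor
  · rintro ⟨w, hw, h1, h2⟩
    refine ⟨_, hw, ?_, ?_⟩
    · have : ((-(starRingEnd ℂ) z).re - (-(starRingEnd ℂ) w).re) = -(z.re - w.re) := by simp; ring
      rw [this, abs_neg]; exact h1
    · simpa using h2
  · rintro ⟨w, hw, h1, h2⟩
    refine ⟨-(starRingEnd ℂ) w, by simpa [rx] using hw, ?_, by simpa using h2⟩
    have : (z.re - (-(starRingEnd ℂ) w).re) = -((-(starRingEnd ℂ) z).re - w.re) := by simp; ring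
    rw [this, abs_neg]; exact h1

/-! ### The profile functions -/

/-- the parameters: mesh `ε`, inner shrinking `η`, outer width `θ` -/
structure Par where
  ε : ℝ
  η : ℝ
  θ : ℝ

variable (q : Par)

noncomputable def lo1 (D : Set ℂ) (i : ℤ) : ℤ :=
  ⌊sInf (pr (sc q.η D) (q.ε * i) (q.ε * (i + 1))) / q.ε⌋ - 1
noncomputable def lo2 (D : Set ℂ) (i : ℤ) : ℤ :=
  ⌊sInf (pr (th q.θ D) (q.ε * i) (q.ε * (i + 1))) / q.ε⌋
noncomputable def up1 (D : Set ℂ) (i : ℤ) : ℤ := -lo1 q (cj D) i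
noncomputable def up2 (D : Set ℂ) (i : ℤ) : ℤ := -lo2 q (cj D) i
/-- right end of the core -/
noncomputable def Bq (D : Set ℂ) : ℤ := ⌈xR (sc q.η D) / q.ε⌉
/-- left end of the core -/
noncomputable def Aq (D : Set ℂ) : ℤ := -Bq q (rx D)
noncomputable def rt2 (D : Set ℂ) (j : ℤ) : ℤ :=
  max (Bq q D + 1) ⌈sSup (pc (th q.θ D) (q.ε * j) (q.ε * (j + 1))) / q.ε⌉
noncomputable def lt2 (D : Set ℂ) (j : ℤ) : ℤ := -rt2 q (rx D) j

end Pool.Agent.H5.FM
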