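import Mathlib
import Pool.Agent.H5.FM.Digi

set_option autoImplicit false
open Set
open scoped Pointwise

/-! # Estimates for the profile functions -/

namespace Pool.Agent.H5.FM

variable {D : Set ℂ}

lemma re_sc (η : ℝ) (D : Set ℂ) : Complex.re '' sc η D = (1 - η) • (Complex.re '' D) := by
  ext x
  rw [Set.mem_smul_set]
  constructor
  · rintro ⟨z, ⟨w, hw, rfl⟩, rfl⟩
    exact ⟨w.re, ⟨w, hw, rfl⟩, by simp⟩
  · rintro ⟨_, ⟨w, hw, rfl⟩, rfl⟩
    exact ⟨_, ⟨w, hw, rfl⟩, by simp⟩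

lemma xR_sc {η : ℝ} (h1 : η ≤ 1) (D : Set ℂ) : xR (sc η D) = (1 - η) * xR D := by
  unfold xR
  rw [re_sc, Real.sSup_smul_of_nonneg (by linarith), smul_eq_mul]

lemma xL_sc {η : ℝ} (h1 : η ≤ 1) (D : Set ℂ) : xL (sc η D) = (1 - η) * xL D := by
  unfold xL
  rw [re_sc, Real.sInf_smul_of_nonneg (by linarith), smul_eq_mul]

lemma xR_rx (D : Set ℂ) : xR (rx D) = -xL D := by
  unfold xR xL
  have e : Complex.re '' rx D = -(Complex.re '' D) := by
    ext x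
    rw [Set.mem_neg]
    constructor
    · rintro ⟨⟨a, b⟩, hz, rfl⟩
      exact ⟨_, mem_rx.1 hz, rfl⟩
    · rintro ⟨⟨a, b⟩, hz, e⟩
      simp only at e
      refine ⟨⟨x, b⟩, mem_rx.2 ?_, rfl⟩
      rw [← e]; exact hz
  rw [e, Real.sInf_def, neg_neg]

lemma xL_rx (D : Set ℂ) : xL (rx D) = -xR D := by
  have := xR_rx (rx D)
  rw [rx_rx] at this
  linarith

lemma cj_rx (D : Set ℂ) : cj (rx D) = rx (cj D) := by
  ext ⟨x, y⟩; rw [mem_cj, mem_rx, mem_rx, mem_cj]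

lemma Bq_cj (q : Par) (D : Set ℂ) : Bq q (cj D) = Bq q D := by
  unfold Bq; rw [sc_cj, xR_cj]

lemma Aq_cj (q : Par) (D : Set ℂ) : Aq q (cj D) = Aq q D := by
  unfold Aq; rw [← cj_rx, Bq_cj]

lemma Aq_eq (q : Par) (D : Set ℂ) : Aq q D = ⌊xL (sc q.η D) / q.ε⌋ := by
  unfold Aq Bq
  rw [sc_rx, xR_rx, neg_div, Int.ceil_neg, neg_neg]

/-- small parameters -/
structure Sml (D : Set ℂ) (R r τ : ℝ) (q : Par) : Prop where
  R0 : 0 < R
  hR : ∀ z ∈ closure D, ‖z‖ ≤ R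
  r0 : 0 < r
  hr : ∀ z : ℂ, ‖z‖ < r → z ∈ D
  ε0 : 0 < q.ε
  η0 : 0 < q.η
  η1 : q.η ≤ 1 / 2
  hθ : q.η * R + 4 * q.ε ≤ q.θ / 2
  hτ : q.θ ≤ τ
  hε : 8 * q.ε ≤ q.η * r

namespace Sml

variable {R r τ : ℝ} {q : Par}

lemma θ0 (s : Sml D R r τ q) : 0 < q.θ := by
  have := s.ε0
  have := s.hθ
  have : 0 < q.η * R := mul_pos s.η0 s.R0
  linarith

lemma εθ (s : Sml D R r τ q) : 8 * q.ε < q.θ := by
  have := s.hθ
  have : 0 < q.η * R := mul_pos s.η0 s.R0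
  linarith

lemma ηR (s : Sml D R r τ q) : q.η * R ≤ q.θ / 2 - 4 * q.ε := by
  have := s.hθ
  linarith

lemma cj (s : Sml D R r τ q) : Sml (cj D) R r τ q where
  R0 := s.R0
  hR := fun z hz => by
    rw [closure_cj] at hz
    have := s.hR _ hz
    simpa using this
  r0 := s.r0
  hr := fun z hz => s.hr _ (by simpa using hz)
  ε0 := s.ε0
  η0 := s.η0
  η1 := s.η1
  hθ := s.hθ
  hτ := s.hτ
  hε := s.hε

lemma rx (s : Sml D R r τ q) : Sml (rx D) R r τ q where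
  R0 := s.R0
  hR := by
    have e : Pool.Agent.H5.FM.rx D ⊆ {z | ‖z‖ ≤ R} := fun z hz => by
      have := s.hR _ (subset_closure (show -(starRingEnd ℂ) z ∈ D from hz))
      simpa using this
    intro z hz
    exact closure_minimal e (isClosed_le continuous_norm continuous_const) hz
  r0 := s.r0
  hr := fun z hz => s.hr _ (by simpa using hz)
  ε0 := s.ε0
  η0 := s.η0
  η1 := s.η1
  hθ := s.hθ
  hτ := s.hτ
  hε := s.hε

variable (h : CD D) (s : Sml D R r τ q)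
include h s

lemma xR_le : xR D ≤ R := by
  have h1 := h.xR_pos
  have h2 := h.xL_neg
  obtain ⟨y, hy⟩ := h.exists_closure (x := xR D) (by linarith) le_rfl
  have := s.hR _ hy
  have h3 := Complex.abs_re_le_norm (⟨xR D, y⟩ : ℂ)
  have h4 := le_abs_self (xR D)
  simp only at h3
  linarith

lemma cd1 : CD (sc q.η D) := h.cd_sc s.η0.le (by linarith [s.η1])

lemma cd2 : CD (th q.θ D) := h.cd_th s.θ0

omit h in
lemma B_ge : (1 - q.η) * xR D ≤ q.ε * Bq q D := by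
  have := Int.le_ceil (xR (sc q.η D) / q.ε)
  rw [xR_sc (by linarith [s.η1])] at this
  rw [div_le_iff₀ s.ε0] at this
  unfold Bq
  rw [xR_sc (by linarith [s.η1])]
  linarith

omit h in
lemma B_lt : q.ε * (Bq q D - 1) < (1 - q.η) * xR D := by
  have := Int.ceil_lt_add_one (xR (sc q.η D) / q.ε)
  rw [xR_sc (by linarith [s.η1])] at this
  have h3 : ((⌈(1 - q.η) * xR D / q.ε⌉ : ℤ) : ℝ) - 1 < (1 - q.η) * xR D / q.ε := by linarith
  rw [lt_div_iff₀ s.ε0] at h3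
  unfold Bq
  rw [xR_sc (by linarith [s.η1])]
  linarith

lemma A_le : q.ε * Aq q D ≤ (1 - q.η) * xL D := by
  have := B_ge s.rx
  rw [xR_rx] at this
  unfold Aq
  push_cast
  linarith

lemma A_gt : (1 - q.η) * xL D < q.ε * (Aq q D + 1) := by
  have := B_lt s.rx
  rw [xR_rx] at this
  unfold Aq
  push_cast
  linarith

lemma A_lt_B : Aq q D < Bq q D := by
  have h1 := A_le h s
  have h2 := B_ge s
  have h3 := h.xR_pos
  have h4 := h.xL_neg
  have h5 := s.ε0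
  have h6 := s.η1
  have h7 : q.ε * (Aq q D : ℝ) < q.ε * (Bq q D : ℝ) := by nlinarith
  exact_mod_cast lt_of_mul_lt_mul_left h7 h5.le

/-- the strip of a core column meets the inner domain -/
lemma exists_x {i : ℤ} (h1 : Aq q D ≤ i) (h2 : i < Bq q D) : ∃ x, q.ε * i < x ∧ x < q.ε * (i + 1) ∧
    (1 - q.η) * xL D < x ∧ x < (1 - q.η) * xR D := by
  have e1 := A_gt h s
  have e2 := B_lt s
  have h5 := s.ε0
  have h6 := s.η1
  have h1' : (Aq q D : ℝ) ≤ i := by exact_mod_cast h1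
  have h2' : (i : ℝ) ≤ Bq q D - 1 := by
    have : i ≤ Bq q D - 1 := by omega
    exact_mod_cast this
  have k1 : q.ε * (Aq q D + 1) ≤ q.ε * (i + 1) := mul_le_mul_of_nonneg_left (by linarith) h5.le
  have k2 : q.ε * i ≤ q.ε * (Bq q D - 1) := mul_le_mul_of_nonneg_left h2' h5.le
  have k3 : q.ε * i < q.ε * (i + 1) := by nlinarith
  have k4 : (1 - q.η) * xL D < (1 - q.η) * xR D := by
    have := h.xR_pos
    have := h.xL_neg
    nlinarith
  obtain ⟨x, hx1, hx2⟩ := exists_between (show max (q.ε * i) ((1 - q.η) * xL D) <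
    min (q.ε * (i + 1)) ((1 - q.η) * xR D) from by
      rw [max_lt_iff, lt_min_iff, lt_min_iff]
      exact ⟨⟨k3, by linarith⟩, by linarith, k4⟩)
  rw [max_lt_iff] at hx1
  rw [lt_min_iff] at hx2
  exact ⟨x, hx1.1, hx2.1, hx1.2, hx2.2⟩

lemma exists_pt {x : ℝ} (h1 : (1 - q.η) * xL D < x) (h2 : x < (1 - q.η) * xR D) :
    ∃ y, (⟨x, y⟩ : ℂ) ∈ sc q.η D := by
  have := (cd1 h s).exists_of_lt (x := x)
  rw [xL_sc (by linarith [s.η1]), xR_sc (by linarith [s.η1])] at this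
  exact this h1 h2

lemma pr1_ne {i : ℤ} (h1 : Aq q D ≤ i) (h2 : i < Bq q D) :
    (pr (sc q.η D) (q.ε * i) (q.ε * (i + 1))).Nonempty := by
  obtain ⟨x, hx1, hx2, hx3, hx4⟩ := exists_x h s h1 h2
  obtain ⟨y, hy⟩ := exists_pt h s hx3 hx4
  exact ⟨y, x, hx1.le, hx2.le, hy⟩

omit h in
lemma lo1_bound (i : ℤ) : q.ε * lo1 q D i + q.ε ≤ sInf (pr (sc q.η D) (q.ε * i) (q.ε * (i + 1))) ∧
    sInf (pr (sc q.η D) (q.ε * i) (q.ε * (i + 1))) < q.ε * lo1 q D i + 2 * q.ε := by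
  unfold lo1
  set I := sInf (pr (sc q.η D) (q.ε * i) (q.ε * (i + 1)))
  have h1 := Int.floor_le (I / q.ε)
  have h2 := Int.lt_floor_add_one (I / q.ε)
  rw [le_div_iff₀ s.ε0] at h1
  rw [div_lt_iff₀ s.ε0] at h2
  push_cast
  constructor <;> linarith

omit h in
lemma lo2_bound (i : ℤ) : q.ε * lo2 q D i ≤ sInf (pr (th q.θ D) (q.ε * i) (q.ε * (i + 1))) ∧
    sInf (pr (th q.θ D) (q.ε * i) (q.ε * (i + 1))) < q.ε * lo2 q D i + q.ε := by
  unfold lo2
  set I := sInf (pr (th q.θ D) (q.ε * i) (q.ε * (i + 1)))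
  have h1 := Int.floor_le (I / q.ε)
  have h2 := Int.lt_floor_add_one (I / q.ε)
  rw [le_div_iff₀ s.ε0] at h1
  rw [div_lt_iff₀ s.ε0] at h2
  constructor <;> linarith

lemma lo1_lt {i : ℤ} {x y : ℝ} (h1 : q.ε * i ≤ x) (h2 : x ≤ q.ε * (i + 1))
    (hy : (⟨x, y⟩ : ℂ) ∈ sc q.η D) : q.ε * lo1 q D i + q.ε < y := by
  have hm : y ∈ pr (sc q.η D) (q.ε * i) (q.ε * (i + 1)) := ⟨x, h1, h2, hy⟩
  have h3 := (((cd1 h s).mem_pr ⟨y, hm⟩ y).1 hm).1
  have := (lo1_bound s (D := D) i).1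
  linarith

lemma lo2_lt {i : ℤ} {x y : ℝ} (h1 : q.ε * i ≤ x) (h2 : x ≤ q.ε * (i + 1))
    (hy : (⟨x, y⟩ : ℂ) ∈ th q.θ D) : q.ε * lo2 q D i < y := by
  have hm : y ∈ pr (th q.θ D) (q.ε * i) (q.ε * (i + 1)) := ⟨x, h1, h2, hy⟩
  have h3 := (((cd2 h s).mem_pr ⟨y, hm⟩ y).1 hm).1
  have := (lo2_bound s (D := D) i).1
  linarith

lemma lt_up1 {i : ℤ} {x y : ℝ} (h1 : q.ε * i ≤ x) (h2 : x ≤ q.ε * (i + 1))
    (hy : (⟨x, y⟩ : ℂ) ∈ sc q.η D) : y < q.ε * up1 q D i - q.ε := by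
  have := lo1_lt h.cj s.cj h1 h2 (y := -y) (by rw [sc_cj, mem_cj, neg_neg]; exact hy)
  unfold up1
  push_cast
  linarith

lemma lt_up2 {i : ℤ} {x y : ℝ} (h1 : q.ε * i ≤ x) (h2 : x ≤ q.ε * (i + 1))
    (hy : (⟨x, y⟩ : ℂ) ∈ th q.θ D) : y < q.ε * up2 q D i := by
  have := lo2_lt h.cj s.cj h1 h2 (y := -y) (by rw [th_cj, mem_cj, neg_neg]; exact hy)
  unfold up2
  push_cast
  linarith

/-- the outer strip infimum is lower by `θ` -/
lemma inf2_le {i i' : ℤ} (hi : i' - 1 ≤ i) (hi' : i ≤ i' + 1) (h1 : Aq q D ≤ i') (h2 : i' < Bq q D) :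
    sInf (pr (th q.θ D) (q.ε * i) (q.ε * (i + 1))) ≤
      sInf (pr (sc q.η D) (q.ε * i') (q.ε * (i' + 1))) - q.θ := by
  have hε := s.ε0
  have hθ := s.θ0
  have hεθ := s.εθ
  have hb2 := ((cd2 h s).pr_bd (x0 := q.ε * i) (x1 := q.ε * (i + 1))).bddBelow
  rw [le_sub_iff_add_le]
  apply le_csInf (pr1_ne h s h1 h2)
  rintro y ⟨x, hx1, hx2, hxy⟩
  apply le_of_forall_pos_sub_le
  intro t ht
  rcases le_or_gt t q.θ with ht' | ht'
  · -- the point `y - (θ - t)`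
    have hD : (⟨x, y⟩ : ℂ) ∈ D := h.sc_sub s.η0.le (by linarith [s.η1]) hxy
    have hi1 : (i' : ℝ) - 1 ≤ i := by exact_mod_cast hi
    have hi2 : (i : ℝ) ≤ i' + 1 := by exact_mod_cast hi'
    obtain ⟨x2, a1, a2, a3⟩ : ∃ x2, q.ε * i ≤ x2 ∧ x2 ≤ q.ε * (i + 1) ∧ |x2 - x| ≤ q.ε := by
      rcases le_total x (q.ε * i) with g | g
      · refine ⟨q.ε * i, le_rfl, by nlinarith, ?_⟩
        rw [abs_of_nonneg (by linarith)]
        nlinarith
      · rcases le_total x (q.ε * (i + 1)) with g' | g'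
        · exact ⟨x, g, g', by rw [sub_self, abs_zero]; exact hε.le⟩
        · refine ⟨q.ε * (i + 1), by nlinarith, le_rfl, ?_⟩
          rw [abs_of_nonpos (by linarith)]
          nlinarith
    have hm : y - (q.θ - t) ∈ pr (th q.θ D) (q.ε * i) (q.ε * (i + 1)) := by
      refine ⟨x2, a1, a2, ⟨x, y⟩, hD, ?_, ?_⟩
      · simp only
        exact lt_of_le_of_lt a3 (by linarith)
      · simp only
        rw [show y - (q.θ - t) - y = -(q.θ - t) by ring, abs_neg, abs_of_nonneg (by linarith)]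
        linarith
    have := csInf_le hb2 hm
    linarith
  · have hD : (⟨x, y⟩ : ℂ) ∈ D := h.sc_sub s.η0.le (by linarith [s.η1]) hxy
    have hi1 : (i' : ℝ) - 1 ≤ i := by exact_mod_cast hi
    have hi2 : (i : ℝ) ≤ i' + 1 := by exact_mod_cast hi'
    obtain ⟨x2, a1, a2, a3⟩ : ∃ x2, q.ε * i ≤ x2 ∧ x2 ≤ q.ε * (i + 1) ∧ |x2 - x| ≤ q.ε := by
      rcases le_total x (q.ε * i) with g | g
      · refine ⟨q.ε * i, le_rfl, by nlinarith, ?_⟩
        rw [abs_of_nonneg (by linarith)]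
        nlinarith
      · rcases le_total x (q.ε * (i + 1)) with g' | g'
        · exact ⟨x, g, g', by rw [sub_self, abs_zero]; exact hε.le⟩
        · refine ⟨q.ε * (i + 1), by nlinarith, le_rfl, ?_⟩
          rw [abs_of_nonpos (by linarith)]
          nlinarith
    have hm : y ∈ pr (th q.θ D) (q.ε * i) (q.ε * (i + 1)) := by
      refine ⟨x2, a1, a2, ⟨x, y⟩, hD, ?_, ?_⟩
      · simp only
        exact lt_of_le_of_lt a3 (by linarith)
      · simp only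
        rw [sub_self, abs_zero]; exact hθ
    have := csInf_le hb2 hm
    linarith

lemma lo2_lt_lo1 {i i' : ℤ} (hi : i' - 1 ≤ i) (hi' : i ≤ i' + 1) (h1 : Aq q D ≤ i')
    (h2 : i' < Bq q D) : lo2 q D i < lo1 q D i' := by
  have h3 := inf2_le h s hi hi' h1 h2
  have h4 := (lo1_bound s (D := D) i').2
  have h5 := (lo2_bound s (D := D) i).1
  have h6 := s.εθ
  have h7 := s.ε0
  have h8 : q.ε * (lo2 q D i : ℝ) < q.ε * (lo1 q D i' : ℝ) := by linarith
  exact_mod_cast lt_of_mul_lt_mul_left h8 h7.le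

lemma up1_lt_up2 {i i' : ℤ} (hi : i' - 1 ≤ i) (hi' : i ≤ i' + 1) (h1 : Aq q D ≤ i')
    (h2 : i' < Bq q D) : up1 q D i' < up2 q D i := by
  have := lo2_lt_lo1 h.cj s.cj hi hi' (by rw [Aq_cj]; exact h1) (by rw [Bq_cj]; exact h2)
  unfold up1 up2
  omega

/-- floor and ceiling of a core column -/
lemma lo1_lt_up1 {i : ℤ} (h1 : Aq q D ≤ i) (h2 : i < Bq q D) : lo1 q D i + 2 < up1 q D i := by
  obtain ⟨y, x, hx1, hx2, hxy⟩ := pr1_ne h s h1 h2
  have h3 := lo1_lt h s hx1 hx2 hxy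
  have h4 := lt_up1 h s hx1 hx2 hxy
  have h7 := s.ε0
  have h8 : q.ε * ((lo1 q D i : ℝ) + 2) < q.ε * (up1 q D i : ℝ) := by linarith
  exact_mod_cast lt_of_mul_lt_mul_left h8 h7.le

lemma overlap {i : ℤ} (h1 : Aq q D ≤ i) (h2 : i + 1 < Bq q D) :
    lo1 q D i + 2 < up1 q D (i + 1) ∧ lo1 q D (i + 1) + 2 < up1 q D i := by
  have e1 := A_gt h s
  have e2 := B_lt s
  have hε := s.ε0
  have h1' : (Aq q D : ℝ) ≤ i := by exact_mod_cast h1
  have h2' : (i : ℝ) + 1 ≤ Bq q D - 1 := by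
    have : i + 1 ≤ Bq q D - 1 := by omega
    exact_mod_cast this
  have k1 : q.ε * (Aq q D + 1) ≤ q.ε * (i + 1) := mul_le_mul_of_nonneg_left (by linarith) hε.le
  have k2 : q.ε * (i + 1) ≤ q.ε * (Bq q D - 1) := mul_le_mul_of_nonneg_left h2' hε.le
  obtain ⟨y, hy⟩ := exists_pt h s (x := q.ε * (i + 1)) (by linarith) (by linarith)
  have k3 : q.ε * i ≤ q.ε * (i + 1) := by nlinarith
  have k4 : q.ε * (i + 1) ≤ q.ε * (((i + 1 : ℤ) : ℝ) + 1) := by push_cast; nlinarith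
  have k5 : q.ε * ((i + 1 : ℤ) : ℝ) ≤ q.ε * (i + 1) := by push_cast; exact le_rfl
  have g1 := lo1_lt h s k3 le_rfl hy
  have g2 := lt_up1 h s k3 le_rfl hy
  have g3 := lo1_lt h s k5 k4 hy
  have g4 := lt_up1 h s k5 k4 hy
  constructor
  · have h8 : q.ε * ((lo1 q D i : ℝ) + 2) < q.ε * (up1 q D (i + 1) : ℝ) := by linarith
    exact_mod_cast lt_of_mul_lt_mul_left h8 hε.le
  · have h8 : q.ε * ((lo1 q D (i + 1) : ℝ) + 2) < q.ε * (up1 q D i : ℝ) := by linarith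
    exact_mod_cast lt_of_mul_lt_mul_left h8 hε.le

/-- the right part of the outer domain is over the rows of the last core column -/
lemma right_row {z : ℂ} (hz : z ∈ th q.θ D) (hx : q.ε * Bq q D ≤ z.re) :
    q.ε * lo2 q D (Bq q D - 1) < z.im ∧ z.im < q.ε * up2 q D (Bq q D - 1) := by
  obtain ⟨w, hw, h1, h2⟩ := hz
  have hlt := h.re_lt hw
  have hB := B_ge s
  have hη := s.ηR
  have hε := s.ε0
  have hR := s.xR_le h
  have hθ := s.θ0
  rw [abs_lt] at h1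
  have hm : (⟨q.ε * Bq q D, z.im⟩ : ℂ) ∈ th q.θ D := by
    refine ⟨w, hw, ?_, h2⟩
    simp only
    rw [abs_lt]
    have : q.η * xR D ≤ q.η * R := mul_le_mul_of_nonneg_left hR s.η0.le
    constructor
    · linarith
    · linarith
  have k1 : q.ε * ((Bq q D - 1 : ℤ) : ℝ) ≤ q.ε * Bq q D := by push_cast; nlinarith
  have k2 : q.ε * Bq q D ≤ q.ε * (((Bq q D - 1 : ℤ) : ℝ) + 1) := by push_cast; linarith
  exact ⟨lo2_lt h s k1 k2 hm, lt_up2 h s k1 k2 hm⟩

omit h s in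
lemma pc_open {K : Set ℂ} (hK : CD K) {y0 y1 x : ℝ} (hx : x ∈ pc K y0 y1) :
    x < sSup (pc K y0 y1) := by
  obtain ⟨y, h1, h2, h3⟩ := hx
  obtain ⟨t, ht, hsub⟩ := Metric.isOpen_iff.1 hK.op _ h3
  have hm : x + t / 2 ∈ pc K y0 y1 := by
    refine ⟨y, h1, h2, hsub ?_⟩
    rw [Metric.mem_ball, dist_eq_norm]
    have e : (⟨x + t / 2, y⟩ : ℂ) - ⟨x, y⟩ = ((t / 2 : ℝ) : ℂ) := by
      apply Complex.ext <;> simp
    rw [e, Complex.norm_real, Real.norm_eq_abs, abs_of_pos (by linarith)]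
    linarith
  have := le_csSup hK.pc_bd.bddAbove hm
  linarith

lemma lt_rt2 {j : ℤ} {x y : ℝ} (h1 : q.ε * j ≤ y) (h2 : y ≤ q.ε * (j + 1))
    (hy : (⟨x, y⟩ : ℂ) ∈ th q.θ D) : x < q.ε * rt2 q D j := by
  have h3 := pc_open (cd2 h s) (x := x) ⟨y, h1, h2, hy⟩
  have h4 := Int.le_ceil (sSup (pc (th q.θ D) (q.ε * j) (q.ε * (j + 1))) / q.ε)
  rw [div_le_iff₀ s.ε0] at h4
  have h5' : ⌈sSup (pc (th q.θ D) (q.ε * j) (q.ε * (j + 1))) / q.ε⌉ ≤ rt2 q D j := by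
    unfold rt2; exact le_max_right _ _
  have h5 : ((⌈sSup (pc (th q.θ D) (q.ε * j) (q.ε * (j + 1))) / q.ε⌉ : ℤ) : ℝ) ≤ (rt2 q D j : ℝ) :=
    Int.cast_le.2 h5'
  have := mul_le_mul_of_nonneg_left h5 s.ε0.le
  linarith

omit h s in
lemma rt2_gt (j : ℤ) : Bq q D < rt2 q D j := by
  unfold rt2
  have := le_max_left (Bq q D + 1) ⌈sSup (pc (th q.θ D) (q.ε * j) (q.ε * (j + 1))) / q.ε⌉
  omega

lemma rt2_le {j : ℤ} (hne : (pc (th q.θ D) (q.ε * j) (q.ε * (j + 1))).Nonempty) :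
    q.ε * rt2 q D j ≤ xR D + q.θ + 2 * q.ε := by
  have hε := s.ε0
  have hθ := s.θ0
  unfold rt2
  rcases max_choice (Bq q D + 1) ⌈sSup (pc (th q.θ D) (q.ε * j) (q.ε * (j + 1))) / q.ε⌉ with e | e
  · rw [e]
    have := B_lt s
    have h3 : (1 - q.η) * xR D ≤ xR D := by
      have := mul_pos s.η0 h.xR_pos
      linarith
    push_cast
    linarith
  · rw [e]
    have h1 := Int.ceil_lt_add_one (sSup (pc (th q.θ D) (q.ε * j) (q.ε * (j + 1))) / q.ε)
    have h2 : sSup (pc (th q.θ D) (q.ε * j) (q.ε * (j + 1))) ≤ xR D + q.θ := by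
      apply csSup_le hne
      rintro x ⟨y, -, -, w, hw, h3, -⟩
      simp only at h3
      have h4 := (h.re_lt hw).2
      have := (abs_lt.1 h3).2
      linarith
    have h3 := mul_lt_mul_of_pos_left h1 hε
    have h4 : q.ε * (sSup (pc (th q.θ D) (q.ε * j) (q.ε * (j + 1))) / q.ε + 1) =
        sSup (pc (th q.θ D) (q.ε * j) (q.ε * (j + 1))) + q.ε := by
      field_simp
    linarith

end Sml

/-- **Closeness of the profile functions to the floor.** -/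
theorem close_flo (h : CD D) {κ : ℝ} (hκ : 0 < κ) : ∃ τ > 0, ∀ (R r : ℝ) (q : Par),
    Sml D R r τ q → ∀ i, Aq q D ≤ i → i < Bq q D → ∀ c, xL D ≤ c → c ≤ xR D →
      |c - q.ε * i| ≤ τ → |q.ε * lo1 q D i - flo D c| ≤ κ ∧ |q.ε * lo2 q D i - flo D c| ≤ κ := by
  obtain ⟨δ, hδ, H⟩ := Metric.uniformContinuousOn_iff.1
    (isCompact_Icc.uniformContinuousOn_of_continuous h.flo_cont) (κ / 4) (by positivity)
  refine ⟨min (δ / 4) (κ / 8), by positivity, ?_⟩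
  intro R r q s i h1 h2 c hc1 hc2 hc
  set τ := min (δ / 4) (κ / 8) with hτ
  have hτ1 : τ ≤ δ / 4 := min_le_left _ _
  have hτ2 : τ ≤ κ / 8 := min_le_right _ _
  have hε := s.ε0
  have hθ := s.θ0
  have hηR := s.ηR
  have hεθ := s.εθ
  have hθτ := s.hτ
  have hη := s.η0
  have hη1 := s.η1
  have hηR0 : 0 < q.η * R := mul_pos s.η0 s.R0
  have hUC : ∀ x, xL D < x → x < xR D → |x - c| < δ → |flo D x - flo D c| < κ / 4 := by
    intro x hx1 hx2 hx
    exact H x ⟨hx1.le, hx2.le⟩ c ⟨hc1, hc2⟩ hx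
  have him : ∀ w ∈ D, |w.im| ≤ R ∧ |w.re| ≤ R := fun w hw =>
    ⟨(Complex.abs_im_le_norm w).trans (s.hR w (subset_closure hw)),
      (Complex.abs_re_le_norm w).trans (s.hR w (subset_closure hw))⟩
  -- lower bound for the inner infimum
  have hi : ∀ x, q.ε * i ≤ x → x ≤ q.ε * (i + 1) → |x - q.ε * i| ≤ q.ε := by
    intro x hx1 hx2
    rw [abs_of_nonneg (by linarith)]; linarith
  set I1 := sInf (pr (sc q.η D) (q.ε * i) (q.ε * (i + 1))) with hI1
  set I2 := sInf (pr (th q.θ D) (q.ε * i) (q.ε * (i + 1))) with hI2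
  have hI21 : I2 ≤ I1 - q.θ := Sml.inf2_le h s (by omega) (by omega) h1 h2
  have hlow1 : flo D c - κ / 4 - q.θ ≤ I1 := by
    apply le_csInf (Sml.pr1_ne h s h1 h2)
    rintro y ⟨x, hx1, hx2, w, hw, e⟩
    have e1 : x = (1 - q.η) * w.re := by
      have := congrArg Complex.re e
      simpa using this
    have e2 : y = (1 - q.η) * w.im := by
      have := congrArg Complex.im e
      simpa using this
    have b1 := him w hw
    have b2 : |q.η * w.re| ≤ q.η * R := by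
      rw [abs_mul, abs_of_pos hη]; exact mul_le_mul_of_nonneg_left b1.2 hη.le
    have b3 : |q.η * w.im| ≤ q.η * R := by
      rw [abs_mul, abs_of_pos hη]; exact mul_le_mul_of_nonneg_left b1.1 hη.le
    have b4 := h.re_lt hw
    have b5 : |w.re - c| < δ := by
      have e3 : w.re - c = q.η * w.re + (x - q.ε * i) + (q.ε * i - c) := by rw [e1]; ring
      have t1 := abs_add_le (q.η * w.re + (x - q.ε * i)) (q.ε * i - c)
      have t2 := abs_add_le (q.η * w.re) (x - q.ε * i)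
      have t3 := hi x hx1 hx2
      have t4 : |q.ε * i - c| ≤ τ := by rw [abs_sub_comm]; exact hc
      rw [e3]
      linarith
    have b6 := hUC w.re b4.1 b4.2 b5
    have b7 : flo D w.re < w.im := ((h.mem_iff (x := w.re) (y := w.im)).1 hw).2.1
    rw [e2]
    have b8 := abs_le.1 b3
    have b9 := abs_lt.1 b6
    have : (1 - q.η) * w.im = w.im - q.η * w.im := by ring
    linarith
  have hup1 : I1 ≤ flo D c + κ / 4 + κ / 8 + q.θ / 2 := by
    obtain ⟨x, hx1, hx2, hx3, hx4⟩ := Sml.exists_x h s h1 h2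
    have hpos : 0 < 1 - q.η := by linarith
    set x' := x / (1 - q.η) with hx'
    have e1 : (1 - q.η) * x' = x := by rw [hx']; field_simp
    have k1 : xL D < x' := by rw [hx', lt_div_iff₀ hpos]; linarith
    have k2 : x' < xR D := by rw [hx', div_lt_iff₀ hpos]; linarith
    obtain ⟨y0, hy0⟩ := h.exists_of_lt k1 k2
    have k3 := (h.mem_iff.1 hy0).2
    obtain ⟨y, hy1, hy2⟩ := exists_between (show flo D x' < min (cei D x') (flo D x' + κ / 8) from by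
      rw [lt_min_iff]; constructor <;> linarith)
    rw [lt_min_iff] at hy2
    have hw : (⟨x', y⟩ : ℂ) ∈ D := h.mem_iff.2 ⟨⟨k1, k2⟩, hy1, hy2.1⟩
    have b1 := him _ hw
    simp only at b1
    have hm : (1 - q.η) * y ∈ pr (sc q.η D) (q.ε * i) (q.ε * (i + 1)) := by
      refine ⟨x, hx1.le, hx2.le, ⟨x', y⟩, hw, ?_⟩
      apply Complex.ext
      · simp [e1]
      · simp
    have h5 := csInf_le ((Sml.cd1 h s).pr_bd (x0 := q.ε * i) (x1 := q.ε * (i + 1))).bddBelow hm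
    have b3 : |q.η * y| ≤ q.η * R := by
      rw [abs_mul, abs_of_pos hη]; exact mul_le_mul_of_nonneg_left b1.1 hη.le
    have b2 : |q.η * x'| ≤ q.η * R := by
      rw [abs_mul, abs_of_pos hη]; exact mul_le_mul_of_nonneg_left b1.2 hη.le
    have b5 : |x' - c| < δ := by
      have e3 : x' - c = q.η * x' + (x - q.ε * i) + (q.ε * i - c) := by rw [← e1]; ring
      have t1 := abs_add_le (q.η * x' + (x - q.ε * i)) (q.ε * i - c)
      have t2 := abs_add_le (q.η * x') (x - q.ε * i)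
      have t3 := hi x hx1.le hx2.le
      have t4 : |q.ε * i - c| ≤ τ := by rw [abs_sub_comm]; exact hc
      rw [e3]
      linarith
    have b6 := abs_lt.1 (hUC x' k1 k2 b5)
    have b8 := abs_le.1 b3
    have : (1 - q.η) * y = y - q.η * y := by ring
    linarith
  have hlow2 : flo D c - κ / 4 - q.θ ≤ I2 := by
    have hne : (pr (th q.θ D) (q.ε * i) (q.ε * (i + 1))).Nonempty := by
      obtain ⟨y, x, a1, a2, a3⟩ := Sml.pr1_ne h s h1 h2
      exact ⟨y, x, a1, a2, h.sub_th hθ (h.sc_sub hη.le (by linarith) a3)⟩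
    apply le_csInf hne
    rintro y ⟨x, hx1, hx2, w, hw, e1, e2⟩
    simp only at e1 e2
    have b4 := h.re_lt hw
    have b5 : |w.re - c| < δ := by
      have e3 : w.re - c = -(x - w.re) + (x - q.ε * i) + (q.ε * i - c) := by ring
      have t1 := abs_add_le (-(x - w.re) + (x - q.ε * i)) (q.ε * i - c)
      have t2 := abs_add_le (-(x - w.re)) (x - q.ε * i)
      rw [abs_neg] at t2
      have t3 := hi x hx1 hx2
      have t4 : |q.ε * i - c| ≤ τ := by rw [abs_sub_comm]; exact hc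
      rw [e3]
      linarith
    have b6 := abs_lt.1 (hUC w.re b4.1 b4.2 b5)
    have b7 : flo D w.re < w.im := ((h.mem_iff (x := w.re) (y := w.im)).1 hw).2.1
    have b8 := abs_lt.1 e2
    linarith
  have g1 := Sml.lo1_bound s (D := D) i
  have g2 := Sml.lo2_bound s (D := D) i
  rw [← hI1] at g1
  rw [← hI2] at g2
  constructor
  · rw [abs_le]; constructor <;> linarith
  · rw [abs_le]; constructor <;> linarith

/-- **Closeness of the profile functions to the ceiling.** -/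
theorem close_cei (h : CD D) {κ : ℝ} (hκ : 0 < κ) : ∃ τ > 0, ∀ (R r : ℝ) (q : Par),
    Sml D R r τ q → ∀ i, Aq q D ≤ i → i < Bq q D → ∀ c, xL D ≤ c → c ≤ xR D →
      |c - q.ε * i| ≤ τ → |q.ε * up1 q D i - cei D c| ≤ κ ∧ |q.ε * up2 q D i - cei D c| ≤ κ := by
  obtain ⟨τ, hτ, H⟩ := close_flo h.cj hκ
  refine ⟨τ, hτ, fun R r q s i h1 h2 c hc1 hc2 hc => ?_⟩
  obtain ⟨g1, g2⟩ := H R r q s.cj i (by rwa [Aq_cj]) (by rwa [Bq_cj]) c (by rwa [xL_cj])
    (by rwa [xR_cj]) hc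
  rw [flo_cj] at g1 g2
  unfold up1 up2
  push_cast
  constructor
  · rw [show q.ε * -(lo1 q (cj D) i : ℝ) - cei D c = -(q.ε * lo1 q (cj D) i - -cei D c) by ring,
      abs_neg]; exact g1
  · rw [show q.ε * -(lo2 q (cj D) i : ℝ) - cei D c = -(q.ε * lo2 q (cj D) i - -cei D c) by ring,
      abs_neg]; exact g2

end Pool.Agent.H5.FM
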