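import Mathlib
import Pool.Agent.H5.FM.Close

set_option autoImplicit false
open Set

/-! # The boundary loop of a convex domain -/

namespace Pool.Agent.H5.FM

variable (D : Set ℂ)

/-- width -/
noncomputable def wd : ℝ := xR D - xL D
/-- length of the right side -/
noncomputable def tr : ℝ := cei D (xR D) - flo D (xR D)
/-- length of the left side -/
noncomputable def tl : ℝ := cei D (xL D) - flo D (xL D)
/-- the period -/
noncomputable def TD : ℝ := 2 * wd D + tr D + tl D

/-- the boundary loop, counterclockwise, from the lower left corner -/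
noncomputable def Gam (s : ℝ) : ℂ :=
  if s ≤ wd D then ⟨xL D + s, flo D (xL D + s)⟩
  else if s ≤ wd D + tr D then ⟨xR D, flo D (xR D) + (s - wd D)⟩
  else if s ≤ 2 * wd D + tr D then ⟨xR D - (s - wd D - tr D), cei D (xR D - (s - wd D - tr D))⟩
  else ⟨xL D, cei D (xL D) - (s - 2 * wd D - tr D)⟩

variable {D}

lemma CD.wd_pos (h : CD D) : 0 < wd D := by
  have := h.xR_pos
  have := h.xL_neg
  unfold wd; linarith

lemma CD.hLR (h : CD D) : xL D < xR D := by
  have := h.xR_pos
  have := h.xL_neg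
  linarith

lemma CD.tr_nonneg (h : CD D) : 0 ≤ tr D := by
  have := h.flo_le_cei h.hLR.le le_rfl
  unfold tr; linarith

lemma CD.tl_nonneg (h : CD D) : 0 ≤ tl D := by
  have := h.flo_le_cei le_rfl h.hLR.le
  unfold tl; linarith

lemma Gam_b {x : ℝ} (h2 : x ≤ xR D) : Gam D (x - xL D) = ⟨x, flo D x⟩ := by
  unfold Gam
  rw [if_pos (by unfold wd; linarith), add_sub_cancel]

lemma Gam_r {y : ℝ} (h1 : flo D (xR D) ≤ y) (h2 : y ≤ cei D (xR D)) :
    Gam D (wd D + (y - flo D (xR D))) = ⟨xR D, y⟩ := by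
  rcases eq_or_lt_of_le h1 with e | e
  · rw [← e, sub_self, add_zero]
    unfold wd
    exact Gam_b le_rfl
  · unfold Gam
    rw [if_neg (by linarith), if_pos (by unfold tr; linarith)]
    congr 1
    ring

lemma Gam_t (h : CD D) {x : ℝ} (h1 : xL D ≤ x) (h2 : x ≤ xR D) :
    Gam D (wd D + tr D + (xR D - x)) = ⟨x, cei D x⟩ := by
  rcases eq_or_lt_of_le h2 with e | e
  · rw [e, sub_self, add_zero]
    have := Gam_r (D := D) (y := cei D (xR D)) (h.flo_le_cei h.hLR.le le_rfl) le_rfl
    exact this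
  · have := h.tr_nonneg
    unfold Gam
    rw [if_neg (by linarith), if_neg (by linarith), if_pos (by unfold wd; linarith)]
    have e3 : xR D - (wd D + tr D + (xR D - x) - wd D - tr D) = x := by ring
    rw [e3]

lemma Gam_l (h : CD D) {y : ℝ} (h2 : y ≤ cei D (xL D)) :
    Gam D (2 * wd D + tr D + (cei D (xL D) - y)) = ⟨xL D, y⟩ := by
  rcases eq_or_lt_of_le h2 with e | e
  · rw [e, sub_self, add_zero]
    have := Gam_t h (x := xL D) le_rfl h.hLR.le
    rw [← this]
    congr 1
    unfold wd; ring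
  · have := h.tr_nonneg
    have := h.wd_pos
    unfold Gam
    rw [if_neg (by linarith), if_neg (by linarith), if_neg (by linarith)]
    congr 1
    ring

/-- the loop runs in the frontier -/
lemma Gam_mem (h : CD D) {s : ℝ} (h0 : 0 ≤ s) (h1 : s ≤ TD D) : Gam D s ∈ closure D := by
  have hw := h.wd_pos
  have ht := h.tr_nonneg
  have hLR := h.hLR
  rcases le_or_gt s (wd D) with g1 | g1
  · have := Gam_b (D := D) (x := xL D + s) (by unfold wd at g1; linarith)
    rw [add_sub_cancel_left] at this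
    rw [this]
    exact h.flo_mem (by linarith) (by unfold wd at g1; linarith)
  · rcases le_or_gt s (wd D + tr D) with g2 | g2
    · have := Gam_r (D := D) (y := flo D (xR D) + (s - wd D)) (by linarith) (by
        unfold tr at g2; linarith)
      rw [add_sub_cancel_left, add_sub_cancel] at this
      rw [this]
      exact (h.mem_closure_iff hLR.le le_rfl).2 ⟨by linarith, by unfold tr at g2; linarith⟩
    · rcases le_or_gt s (2 * wd D + tr D) with g3 | g3
      · have h5 : xL D ≤ xR D - (s - wd D - tr D) := by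
          have : wd D = xR D - xL D := rfl
          linarith
        have := Gam_t h (x := xR D - (s - wd D - tr D)) h5 (by linarith)
        rw [show wd D + tr D + (xR D - (xR D - (s - wd D - tr D))) = s by ring] at this
        rw [this]
        exact h.cei_mem h5 (by linarith)
      · have := Gam_l h (y := cei D (xL D) - (s - 2 * wd D - tr D)) (by linarith)
        rw [show 2 * wd D + tr D + (cei D (xL D) - (cei D (xL D) - (s - 2 * wd D - tr D))) = s by
          ring] at this
        rw [this]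
        have h6 : TD D = 2 * wd D + tr D + tl D := rfl
        have h7 : tl D = cei D (xL D) - flo D (xL D) := rfl
        exact (h.mem_closure_iff le_rfl hLR.le).2 ⟨by linarith, by linarith⟩

/-! ### Labels -/

/-- number of cuts up to `s` -/
noncomputable def cnt (c : Fin 4 → ℝ) (s : ℝ) : ℤ :=
  ((Finset.univ.filter fun k => c k ≤ s).card : ℤ)

lemma cnt_eq {c : Fin 4 → ℝ} (hc : StrictMono c) (s : ℝ) :
    (s < c 0 ∧ cnt c s = 0) ∨ (c 0 ≤ s ∧ s < c 1 ∧ cnt c s = 1) ∨ (c 1 ≤ s ∧ s < c 2 ∧ cnt c s = 2) ∨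
    (c 2 ≤ s ∧ s < c 3 ∧ cnt c s = 3) ∨ (c 3 ≤ s ∧ cnt c s = 4) := by
  have h01 : c 0 < c 1 := hc (by decide)
  have h12 : c 1 < c 2 := hc (by decide)
  have h23 : c 2 < c 3 := hc (by decide)
  have key : cnt c s = (if c 0 ≤ s then 1 else 0) + (if c 1 ≤ s then 1 else 0) +
      (if c 2 ≤ s then 1 else 0) + (if c 3 ≤ s then 1 else 0) := by
    unfold cnt
    rw [Finset.card_filter]
    push_cast
    rw [Fin.sum_univ_four]
  rcases lt_or_ge s (c 0) with g0 | g0
  · left
    rw [key, if_neg (by linarith), if_neg (by linarith), if_neg (by linarith), if_neg (by linarith)]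
    exact ⟨g0, by norm_num⟩
  · right
    rcases lt_or_ge s (c 1) with g1 | g1
    · left
      rw [key, if_pos g0, if_neg (by linarith), if_neg (by linarith), if_neg (by linarith)]
      exact ⟨g0, g1, by norm_num⟩
    · right
      rcases lt_or_ge s (c 2) with g2 | g2
      · left
        rw [key, if_pos g0, if_pos g1, if_neg (by linarith), if_neg (by linarith)]
        exact ⟨g1, g2, by norm_num⟩
      · right
        rcases lt_or_ge s (c 3) with g3 | g3
        · left
          rw [key, if_pos g0, if_pos g1, if_pos g2, if_neg (by linarith)]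
          exact ⟨g2, g3, by norm_num⟩
        · right
          rw [key, if_pos g0, if_pos g1, if_pos g2, if_pos g3]
          exact ⟨g3, by norm_num⟩

lemma cnt_step {c : Fin 4 → ℝ} (hc : StrictMono c) {g s s' : ℝ} (hg : ∀ k : Fin 3, g ≤ c k.succ - c k.castSucc)
    (h1 : s ≤ s') (h2 : s' - s < g) : cnt c s' = cnt c s ∨ cnt c s' = cnt c s + 1 := by
  have g0 : g ≤ c 1 - c 0 := hg 0
  have g1 : g ≤ c 2 - c 1 := hg 1
  have g2 : g ≤ c 3 - c 2 := hg 2
  rcases cnt_eq hc s with ⟨a1, a2⟩ | ⟨a1, a2, a3⟩ | ⟨a1, a2, a3⟩ | ⟨a1, a2, a3⟩ | ⟨a1, a2⟩ <;>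
  rcases cnt_eq hc s' with ⟨b1, b2⟩ | ⟨b1, b2, b3⟩ | ⟨b1, b2, b3⟩ | ⟨b1, b2, b3⟩ | ⟨b1, b2⟩ <;>
  first
  | (left; omega)
  | (right; omega)
  | (exfalso; linarith)

/-- the closed arc of the label `m` -/
def Arc (D : Set ℂ) (c : Fin 4 → ℝ) (m : ℤ) : Set ℂ :=
  Gam D '' {s | (0 ≤ s ∧ s ≤ TD D) ∧ (∀ k : Fin 4, (k : ℤ) < m → c k ≤ s) ∧
    ∀ k : Fin 4, m ≤ (k : ℤ) → s ≤ c k}

lemma mem_Arc {c : Fin 4 → ℝ} (hc : StrictMono c) {s : ℝ} (h0 : 0 ≤ s) (h1 : s ≤ TD D) :
    Gam D s ∈ Arc D c (cnt c s) := by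
  refine ⟨s, ⟨⟨h0, h1⟩, ?_, ?_⟩, rfl⟩
  · intro k hk
    rcases cnt_eq hc s with ⟨a1, a2⟩ | ⟨a1, a2, a3⟩ | ⟨a1, a2, a3⟩ | ⟨a1, a2, a3⟩ | ⟨a1, a2⟩
    · omega
    · have : k ≤ 0 := by rw [Fin.le_def]; simp; omega
      exact (hc.monotone this).trans a1
    · have : k ≤ 1 := by rw [Fin.le_def]; simp; omega
      exact (hc.monotone this).trans a1
    · have : k ≤ 2 := by rw [Fin.le_def]; simp; omega
      exact (hc.monotone this).trans a1
    · have : k ≤ 3 := by rw [Fin.le_def]; simp; omega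
      exact (hc.monotone this).trans a1
  · intro k hk
    rcases cnt_eq hc s with ⟨a1, a2⟩ | ⟨a1, a2, a3⟩ | ⟨a1, a2, a3⟩ | ⟨a1, a2, a3⟩ | ⟨a1, a2⟩
    · exact a1.le.trans (hc.monotone (Fin.zero_le k))
    · have : 1 ≤ k := by rw [Fin.le_def]; simp; omega
      exact a2.le.trans (hc.monotone this)
    · have : 2 ≤ k := by rw [Fin.le_def]; simp; omega
      exact a2.le.trans (hc.monotone this)
    · have : 3 ≤ k := by rw [Fin.le_def]; simp; omega
      exact a2.le.trans (hc.monotone this)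
    · exfalso
      have := k.isLt
      omega

end Pool.Agent.H5.FM
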