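import Mathlib
import Pool.Agent.H5.FM.Gam

set_option autoImplicit false
open Set

/-! # Positions of the columns and rows on the boundary loop -/

namespace Pool.Agent.H5.FM

variable {D : Set ℂ}

lemma Sml.mono {R r τ τ' : ℝ} {q : Par} (s : Sml D R r τ q) (h : τ ≤ τ') : Sml D R r τ' q :=
  { s with hτ := s.hτ.trans h }

/-- fine parameters -/
structure Fine (D : Set ℂ) (R r τ κ : ℝ) (q : Par) : Prop extends Sml D R r τ q where
  κ0 : 0 < κ
  τκ : 4 * τ ≤ κ
  clf : ∀ i, Aq q D ≤ i → i < Bq q D → ∀ c, xL D ≤ c → c ≤ xR D → |c - q.ε * i| ≤ 4 * τ →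
    |q.ε * lo1 q D i - flo D c| ≤ κ ∧ |q.ε * lo2 q D i - flo D c| ≤ κ
  clc : ∀ i, Aq q D ≤ i → i < Bq q D → ∀ c, xL D ≤ c → c ≤ xR D → |c - q.ε * i| ≤ 4 * τ →
    |q.ε * up1 q D i - cei D c| ≤ κ ∧ |q.ε * up2 q D i - cei D c| ≤ κ

theorem exists_fine (h : CD D) {κ : ℝ} (hκ : 0 < κ) : ∃ τ > 0, ∀ (R r : ℝ) (q : Par),
    Sml D R r τ q → Fine D R r τ κ q := by
  obtain ⟨τ1, h1, H1⟩ := close_flo h hκ
  obtain ⟨τ2, h2, H2⟩ := close_cei h hκ
  have hm : 0 < min (min τ1 τ2) κ := lt_min (lt_min h1 h2) hκ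
  have g1 : min (min τ1 τ2) κ ≤ τ1 := (min_le_left _ _).trans (min_le_left _ _)
  have g2 : min (min τ1 τ2) κ ≤ τ2 := (min_le_left _ _).trans (min_le_right _ _)
  have g3 : min (min τ1 τ2) κ ≤ κ := min_le_right _ _
  refine ⟨min (min τ1 τ2) κ / 4, by positivity, fun R r q s => ?_⟩
  refine { s with κ0 := hκ, τκ := by linarith, clf := ?_, clc := ?_ }
  · intro i hi hi' c hc hc' hd
    exact H1 R r q (s.mono (by linarith)) i hi hi' c hc hc' (by linarith)
  · intro i hi hi' c hc hc' hd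
    exact H2 R r q (s.mono (by linarith)) i hi hi' c hc hc' (by linarith)

/-- clamp -/
noncomputable def clp (a b y : ℝ) : ℝ := max a (min b y)

lemma clp_ge (a b y : ℝ) : a ≤ clp a b y := le_max_left _ _
lemma clp_le {a b : ℝ} (h : a ≤ b) (y : ℝ) : clp a b y ≤ b := max_le h (min_le_left _ _)
lemma clp_mono {a b y y' : ℝ} (h : y ≤ y') : clp a b y ≤ clp a b y' :=
  max_le_max le_rfl (min_le_min le_rfl h)

lemma clp_lip {a b y y' : ℝ} (h : y ≤ y') : clp a b y' - clp a b y ≤ y' - y := by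
  unfold clp
  rcases max_choice a (min b y') with e | e <;> rcases min_choice b y' with f | f <;>
  rcases max_choice a (min b y) with e' | e' <;> rcases min_choice b y with f' | f' <;>
  have h1 := le_max_left a (min b y) <;> have h2 := le_max_right a (min b y) <;>
  have h3 := le_max_left a (min b y') <;> have h4 := le_max_right a (min b y') <;>
  have h5 := min_le_left b y <;> have h6 := min_le_right b y <;>
  have h7 := min_le_left b y' <;> have h8 := min_le_right b y' <;>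
  rw [e, e'] at * <;> rw [f] at * <;> rw [f'] at * <;> linarith

lemma clp_near {a b y κ : ℝ} (hκ : 0 ≤ κ) (h1 : a - κ ≤ y) (h2 : y ≤ b + κ) :
    |clp a b y - y| ≤ κ ∨ b < a := by
  rcases lt_or_ge b a with g | g
  · exact Or.inr g
  left
  unfold clp
  rcases le_total b y with g1 | g1
  · rw [min_eq_left g1, max_eq_right g, abs_le]; constructor <;> linarith
  · rw [min_eq_right g1]
    rcases le_total a y with g2 | g2
    · rw [max_eq_right g2, sub_self, abs_zero]; exact hκ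
    · rw [max_eq_left g2, abs_le]; constructor <;> linarith

/-- position of a bottom column -/
noncomputable def sbp (q : Par) (D : Set ℂ) (i : ℤ) : ℝ := q.ε * i - xL D
/-- position of a right row -/
noncomputable def srp (q : Par) (D : Set ℂ) (j : ℤ) : ℝ :=
  wd D + (clp (flo D (xR D)) (cei D (xR D)) (q.ε * j) - flo D (xR D))
/-- position of a top column -/
noncomputable def stp (q : Par) (D : Set ℂ) (i : ℤ) : ℝ := wd D + tr D + (xR D - q.ε * (i + 1))
/-- position of a left row -/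
noncomputable def slp (q : Par) (D : Set ℂ) (j : ℤ) : ℝ :=
  2 * wd D + tr D + (cei D (xL D) - clp (flo D (xL D)) (cei D (xL D)) (q.ε * (j + 1)))

variable {R r τ κ : ℝ} {q : Par}

namespace Sml

variable (h : CD D) (s : Sml D R r τ q)
include h s

lemma r_le_xR : r ≤ xR D := by
  apply le_of_forall_lt
  intro t ht
  rcases le_or_gt t 0 with g | g
  · exact lt_of_le_of_lt g h.xR_pos
  · have := s.hr (t : ℂ) (by rw [Complex.norm_real, Real.norm_eq_abs, abs_of_pos g]; exact ht)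
    simpa using (h.re_lt this).2

lemma r_le_xL : r ≤ -xL D := by
  have := r_le_xR h.rx s.rx
  rwa [xR_rx] at this

lemma xL_ge : -R ≤ xL D := by
  have := xR_le h.rx s.rx
  rw [xR_rx] at this
  linarith

lemma ηr : 8 * q.ε ≤ q.η * xR D ∧ 8 * q.ε ≤ -(q.η * xL D) ∧ q.η * xR D ≤ q.η * R ∧
    -(q.η * xL D) ≤ q.η * R := by
  have h1 := mul_le_mul_of_nonneg_left (r_le_xR h s) s.η0.le
  have h2 := mul_le_mul_of_nonneg_left (r_le_xL h s) s.η0.le
  have h3 := s.hε
  have h4 := mul_le_mul_of_nonneg_left (s.xR_le h) s.η0.le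
  have h5 := mul_le_mul_of_nonneg_left (xL_ge h s) s.η0.le
  refine ⟨by linarith, by linarith, by linarith, by linarith⟩

/-- left ends of the core columns -/
lemma core_gt {i : ℤ} (h1 : Aq q D ≤ i) : xL D + 7 * q.ε < q.ε * i := by
  have e1 := A_gt h s
  have e2 := ηr h s
  have h1' : (Aq q D : ℝ) ≤ i := by exact_mod_cast h1
  have k1 : q.ε * (Aq q D) ≤ q.ε * i := mul_le_mul_of_nonneg_left (by linarith) s.ε0.le
  linarith [e2.2.1]

/-- right ends of the core columns -/
lemma core_lt {i : ℤ} (h1 : i ≤ Bq q D) : q.ε * i < xR D - 7 * q.ε := by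
  have e1 := B_lt s
  have e2 := ηr h s
  have h1' : (i : ℝ) ≤ Bq q D := by exact_mod_cast h1
  have k1 : q.ε * i ≤ q.ε * Bq q D := mul_le_mul_of_nonneg_left (by linarith) s.ε0.le
  linarith [e2.1]

lemma A_near : |xL D - q.ε * Aq q D| ≤ q.η * R := by
  have e1 := A_le h s
  have e2 := core_gt h s (le_refl (Aq q D))
  have e3 := ηr h s
  have := s.ε0
  rw [abs_le]
  constructor <;> linarith [e3.2.2.2]

lemma B_near : |xR D - q.ε * Bq q D| ≤ q.η * R := by
  have e1 := B_ge s
  have e2 := core_lt h s (le_refl (Bq q D))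
  have e3 := ηr h s
  have := s.ε0
  rw [abs_le]
  constructor <;> linarith [e3.2.2.1]

end Sml

namespace Fine

variable (h : CD D) (s : Fine D R r τ κ q)
include h s

lemma ητ : q.η * R + 4 * q.ε ≤ τ / 2 := by
  have := s.hθ
  have := s.hτ
  linarith

lemma B1_near : |xR D - q.ε * ((Bq q D - 1 : ℤ) : ℝ)| ≤ τ := by
  have := s.B_near h
  have := ητ h s
  have := s.ε0
  rw [abs_le] at *
  push_cast
  constructor <;> linarith

lemma flo_B : |q.ε * lo1 q D (Bq q D - 1) - flo D (xR D)| ≤ κ ∧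
    |q.ε * lo2 q D (Bq q D - 1) - flo D (xR D)| ≤ κ := by
  have h1 := B1_near h s
  have h2 := Sml.A_lt_B h s.toSml
  have h3 : 0 ≤ τ := (abs_nonneg _).trans h1
  exact s.clf _ (by omega) (by omega) _ h.hLR.le le_rfl (h1.trans (by linarith))

lemma cei_B : |q.ε * up1 q D (Bq q D - 1) - cei D (xR D)| ≤ κ ∧
    |q.ε * up2 q D (Bq q D - 1) - cei D (xR D)| ≤ κ := by
  have h1 := B1_near h s
  have h2 := Sml.A_lt_B h s.toSml
  have h3 : 0 ≤ τ := (abs_nonneg _).trans h1
  exact s.clc _ (by omega) (by omega) _ h.hLR.le le_rfl (h1.trans (by linarith))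

lemma A1_near : |xL D - q.ε * (Aq q D : ℝ)| ≤ τ := by
  have := s.A_near h
  have := ητ h s
  have := s.ε0
  linarith [s.hτ, s.θ0]

lemma flo_A : |q.ε * lo1 q D (Aq q D) - flo D (xL D)| ≤ κ ∧
    |q.ε * lo2 q D (Aq q D) - flo D (xL D)| ≤ κ := by
  have h1 := A1_near h s
  have h2 := Sml.A_lt_B h s.toSml
  have h3 : 0 ≤ τ := (abs_nonneg _).trans h1
  exact s.clf _ (by omega) (by omega) _ le_rfl h.hLR.le (h1.trans (by linarith))

lemma cei_A : |q.ε * up1 q D (Aq q D) - cei D (xL D)| ≤ κ ∧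
    |q.ε * up2 q D (Aq q D) - cei D (xL D)| ≤ κ := by
  have h1 := A1_near h s
  have h2 := Sml.A_lt_B h s.toSml
  have h3 : 0 ≤ τ := (abs_nonneg _).trans h1
  exact s.clc _ (by omega) (by omega) _ le_rfl h.hLR.le (h1.trans (by linarith))

end Fine

end Pool.Agent.H5.FM
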