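import Mathlib
import Pool.Agent.Q1.M4.Poly

set_option autoImplicit false
open Finset

/-! # Polygons with four profiles

A core of columns `a ≤ i < b` with floor `lo i` and ceiling `up i`, a part on the right of the core with
rows ending at `rt j` (rows of the last column) and a part on the left with rows starting at `lt j`
(rows of the first column). Every set obtained from a convex polyomino by shifting arcs of the boundary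
inwards or outwards has this form. -/

namespace Pool.Agent.H5.FM

open Pool.Agent.H75.Perc (dir dir_cases)
open Pool.Agent.Q1.M4 (Cell Good IsSide nextSide tail head PType)

structure Prof where
  a : ℤ
  b : ℤ
  lo : ℤ → ℤ
  up : ℤ → ℤ
  rt : ℤ → ℤ
  lt : ℤ → ℤ
  hab : a < b
  hlu : ∀ i, a ≤ i → i < b → lo i < up i
  hov1 : ∀ i, a ≤ i → i + 1 < b → lo i < up (i + 1)
  hov2 : ∀ i, a ≤ i → i + 1 < b → lo (i + 1) < up i
  hrt : ∀ j, lo (b - 1) ≤ j → j < up (b - 1) → b ≤ rt j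
  hlt : ∀ j, lo a ≤ j → j < up a → lt j ≤ a

namespace Prof

variable (p : Prof)

/-- first row of the last column -/
def r1 : ℤ := p.lo (p.b - 1)
/-- last row of the last column, plus one -/
def r2 : ℤ := p.up (p.b - 1)
/-- first row of the first column -/
def l1 : ℤ := p.lo p.a
/-- last row of the first column, plus one -/
def l2 : ℤ := p.up p.a

/-- the cells -/
def In (c : Cell) : Prop :=
  ((p.a ≤ c.1 ∧ c.1 < p.b) ∧ p.lo c.1 ≤ c.2 ∧ c.2 < p.up c.1) ∨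
  ((p.b ≤ c.1 ∧ c.1 < p.rt c.2) ∧ p.r1 ≤ c.2 ∧ c.2 < p.r2) ∨
  ((c.1 < p.a ∧ p.lt c.2 ≤ c.1) ∧ p.l1 ≤ c.2 ∧ c.2 < p.l2)

lemma exists_bound (f : ℤ → ℤ) (s t : ℤ) : ∃ B : ℤ, ∀ i, s ≤ i → i < t → |f i| ≤ B := by
  refine ⟨∑ i ∈ Ico s t, |f i|, fun i h1 h2 => ?_⟩
  exact single_le_sum (f := fun i => |f i|) (fun i _ => abs_nonneg _) (mem_Ico.2 ⟨h1, h2⟩)

lemma finite_In : {c : Cell | p.In c}.Finite := by
  obtain ⟨B1, h1⟩ := exists_bound p.lo p.a p.b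
  obtain ⟨B2, h2⟩ := exists_bound p.up p.a p.b
  obtain ⟨B3, h3⟩ := exists_bound p.rt p.r1 p.r2
  obtain ⟨B4, h4⟩ := exists_bound p.lt p.l1 p.l2
  set B := |p.a| + |p.b| + |B1| + |B2| + |B3| + |B4| + |p.r1| + |p.r2| + |p.l1| + |p.l2| with hB
  apply ((Icc (-B) B ×ˢ Icc (-B) B).finite_toSet).subset
  rintro ⟨i, j⟩ hc
  simp only [Set.mem_ofPred_eq, In] at hc
  simp only [coe_product, coe_Icc, Set.mem_prod, Set.mem_Icc]
  have e1 := le_abs_self p.a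
  have e1' := neg_abs_le p.a
  have e2 := le_abs_self p.b
  have e2' := neg_abs_le p.b
  have e3 := le_abs_self B1
  have e4 := le_abs_self B2
  have e5 := le_abs_self B3
  have e6 := le_abs_self B4
  have f1 := le_abs_self p.r1
  have f1' := neg_abs_le p.r1
  have f2 := le_abs_self p.r2
  have f2' := neg_abs_le p.r2
  have f3 := le_abs_self p.l1
  have f3' := neg_abs_le p.l1
  have f4 := le_abs_self p.l2
  have f4' := neg_abs_le p.l2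
  have g1 := abs_nonneg p.a
  have g2 := abs_nonneg p.b
  have g3 := abs_nonneg B1
  have g4 := abs_nonneg B2
  have g5 := abs_nonneg B3
  have g6 := abs_nonneg B4
  have g7 := abs_nonneg p.r1
  have g8 := abs_nonneg p.r2
  have g9 := abs_nonneg p.l1
  have g10 := abs_nonneg p.l2
  rcases hc with ⟨⟨h5, h6⟩, h7, h8⟩ | ⟨⟨h5, h6⟩, h7, h8⟩ | ⟨⟨h5, h6⟩, h7, h8⟩
  · have k1 := abs_le.1 (h1 i h5 h6)
    have k2 := abs_le.1 (h2 i h5 h6)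
    refine ⟨⟨?_, ?_⟩, ?_, ?_⟩ <;> omega
  · have k1 := abs_le.1 (h3 j h7 h8)
    refine ⟨⟨?_, ?_⟩, ?_, ?_⟩ <;> omega
  · have k1 := abs_le.1 (h4 j h7 h8)
    refine ⟨⟨?_, ?_⟩, ?_, ?_⟩ <;> omega

/-- the finite set of cells -/
noncomputable def Q : Finset Cell := p.finite_In.toFinset

lemma mem_Q {c : Cell} : c ∈ p.Q ↔ p.In c := by
  unfold Q
  rw [Set.Finite.mem_toFinset]
  rfl

end Prof

/-- Labels (number of the arc, counted from the lower left corner of the core). -/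
structure LProf extends Prof where
  Lb : ℤ → ℤ
  Lr : ℤ → ℤ
  Lt : ℤ → ℤ
  Ll : ℤ → ℤ
  hb : ∀ i, a ≤ i → i + 1 < b → Lb (i + 1) = Lb i ∨ (Lb (i + 1) = Lb i + 1 ∧ lo (i + 1) ≠ lo i)
  hr : ∀ j, lo (b - 1) ≤ j → j + 1 < up (b - 1) →
    Lr (j + 1) = Lr j ∨ (Lr (j + 1) = Lr j + 1 ∧ rt (j + 1) ≠ rt j)
  ht : ∀ i, a ≤ i → i + 1 < b → Lt i = Lt (i + 1) ∨ (Lt i = Lt (i + 1) + 1 ∧ up i ≠ up (i + 1))
  hl : ∀ j, lo a ≤ j → j + 1 < up a → Ll j = Ll (j + 1) ∨ (Ll j = Ll (j + 1) + 1 ∧ lt j ≠ lt (j + 1))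
  h0 : Lb a = 0
  hbr : Lr (lo (b - 1)) = Lb (b - 1) ∨ Lr (lo (b - 1)) = Lb (b - 1) + 1
  hrt' : Lt (b - 1) = Lr (up (b - 1) - 1) ∨ Lt (b - 1) = Lr (up (b - 1) - 1) + 1
  htl : Ll (up a - 1) = Lt a ∨ Ll (up a - 1) = Lt a + 1
  h4 : Ll (lo a) = 3 ∨ Ll (lo a) = 4

namespace LProf

variable (p : LProf)

/-- The lifted side `s` of the boundary walk carries the label `m`. Outward pieces carry the label
before them, inward pieces the label after them. -/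
inductive Lab : Cell × ℤ → ℤ → Prop
  | b0 (i : ℤ) (h1 : p.a ≤ i) (h2 : i < p.b) : Lab ((i, p.lo i), 0) (p.Lb i)
  | bo (i j : ℤ) (h1 : p.a ≤ i) (h2 : i + 1 < p.b) (h3 : p.lo (i + 1) ≤ j) (h4 : j < p.lo i) :
      Lab ((i + 1, j), -1) (p.Lb i)
  | bi (i j : ℤ) (h1 : p.a ≤ i) (h2 : i + 1 < p.b) (h3 : p.lo i ≤ j) (h4 : j < p.lo (i + 1)) :
      Lab ((i, j), 1) (p.Lb (i + 1))
  | c1 (i : ℤ) (h1 : p.b ≤ i) (h2 : i < p.rt p.r1) : Lab ((i, p.r1), 0) (p.Lb (p.b - 1))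
  | r0 (j : ℤ) (h1 : p.r1 ≤ j) (h2 : j < p.r2) : Lab ((p.rt j - 1, j), 1) (p.Lr j)
  | ro (i j : ℤ) (h1 : p.r1 ≤ j) (h2 : j + 1 < p.r2) (h3 : p.rt j ≤ i) (h4 : i < p.rt (j + 1)) :
      Lab ((i, j + 1), 0) (p.Lr j)
  | ri (i j : ℤ) (h1 : p.r1 ≤ j) (h2 : j + 1 < p.r2) (h3 : p.rt (j + 1) ≤ i) (h4 : i < p.rt j) :
      Lab ((i, j), 2) (p.Lr (j + 1))
  | c2 (i : ℤ) (h1 : p.b ≤ i) (h2 : i < p.rt (p.r2 - 1)) : Lab ((i, p.r2 - 1), 2) (p.Lt (p.b - 1))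
  | t0 (i : ℤ) (h1 : p.a ≤ i) (h2 : i < p.b) : Lab ((i, p.up i - 1), 2) (p.Lt i)
  | tu (i j : ℤ) (h1 : p.a ≤ i) (h2 : i + 1 < p.b) (h3 : p.up (i + 1) ≤ j) (h4 : j < p.up i) :
      Lab ((i, j), 1) (p.Lt (i + 1))
  | ti (i j : ℤ) (h1 : p.a ≤ i) (h2 : i + 1 < p.b) (h3 : p.up i ≤ j) (h4 : j < p.up (i + 1)) :
      Lab ((i + 1, j), 3) (p.Lt i)
  | c3 (i : ℤ) (h1 : p.lt (p.l2 - 1) ≤ i) (h2 : i < p.a) : Lab ((i, p.l2 - 1), 2) (p.Lt p.a)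
  | l0 (j : ℤ) (h1 : p.l1 ≤ j) (h2 : j < p.l2) : Lab ((p.lt j, j), 3) (p.Ll j)
  | lo (i j : ℤ) (h1 : p.l1 ≤ j) (h2 : j + 1 < p.l2) (h3 : p.lt j ≤ i) (h4 : i < p.lt (j + 1)) :
      Lab ((i, j), 2) (p.Ll (j + 1))
  | li (i j : ℤ) (h1 : p.l1 ≤ j) (h2 : j + 1 < p.l2) (h3 : p.lt (j + 1) ≤ i) (h4 : i < p.lt j) :
      Lab ((i, j + 1), 4) (p.Ll j)
  | c4 (i : ℤ) (h1 : p.lt p.l1 ≤ i) (h2 : i < p.a) : Lab ((i, p.l1), 4) 4

end LProf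

/- Targets.
`Prof.good : Good p.Q`.
`LProf.walk` : with `W n = (nextSide p.Q)^[n] ((p.a, p.lo p.a), 0)` there are `N : ℕ` and
`lam : ℕ → ℤ` with `0 < N`, `lam 0 = 0`, `W N = ((p.a, p.lo p.a), 4)`, `lam N = 4`,
`∀ n < N, Lab (W n) (lam n)`, and for `n < N`: `lam (n+1) = lam n`, or `lam (n+1) = lam n + 1` and
`W (n+1) = ((W n).1, (W n).2 + 1)` (a convex corner). -/

end Pool.Agent.H5.FM
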