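import Mathlib
import Pool.Agent.H5.FM.Prof

set_option autoImplicit false
open Finset

/-! # The boundary walk of a polygon with four profiles -/

namespace Pool.Agent.H5.FM

open Pool.Agent.H75.Perc (dir dir_cases)
open Pool.Agent.Q1.M4 (Cell Good IsSide nextSide tail head PType)

section steps

variable {Q : Finset Cell} {i j : ℤ}

lemma nx1 {c : Cell} {k : ℤ} (h : c + dir k + dir (k - 1) ∈ Q) :
    nextSide Q (c, k) = (c + dir k + dir (k - 1), k - 1) := by
  unfold nextSide; rw [if_pos h]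

lemma nx2 {c : Cell} {k : ℤ} (h : c + dir k + dir (k - 1) ∉ Q) (h' : c + dir k ∈ Q) :
    nextSide Q (c, k) = (c + dir k, k) := by
  unfold nextSide; rw [if_neg h, if_pos h']

lemma nx3 {c : Cell} {k : ℤ} (h : c + dir k + dir (k - 1) ∉ Q) (h' : c + dir k ∉ Q) :
    nextSide Q (c, k) = (c, k + 1) := by
  unfold nextSide; rw [if_neg h, if_neg h']

lemma d0 : dir 0 = (1, 0) := by decide
lemma d1 : dir 1 = (0, 1) := by decide
lemma d2 : dir 2 = (-1, 0) := by decide
lemma d3 : dir 3 = (0, -1) := by decide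
lemma d4 : dir 4 = (1, 0) := by decide
lemma dm1 : dir (-1) = (0, -1) := by decide
lemma dm2 : dir (-2) = (-1, 0) := by decide

lemma prr {a b c d : ℤ} (h1 : a = c) (h2 : b = d) : (a, b) = (c, d) := by rw [h1, h2]

lemma a0 : ((i, j) : ℤ × ℤ) + dir 0 = (i + 1, j) := by rw [d0]; exact prr rfl (by simp)
lemma a1 : ((i, j) : ℤ × ℤ) + dir 1 = (i, j + 1) := by rw [d1]; exact prr (by simp) rfl
lemma a2 : ((i, j) : ℤ × ℤ) + dir 2 = (i - 1, j) := by rw [d2]; exact prr rfl (by simp)
lemma a3 : ((i, j) : ℤ × ℤ) + dir 3 = (i, j - 1) := by rw [d3]; exact prr (by simp) rfl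
lemma a4 : ((i, j) : ℤ × ℤ) + dir 4 = (i + 1, j) := by rw [d4]; exact prr rfl (by simp)
lemma am1 : ((i, j) : ℤ × ℤ) + dir (-1) = (i, j - 1) := by rw [dm1]; exact prr (by simp) rfl
lemma am2 : ((i, j) : ℤ × ℤ) + dir (-2) = (i - 1, j) := by rw [dm2]; exact prr rfl (by simp)

lemma E1 (h : (i + 1, j - 1) ∈ Q) : nextSide Q ((i, j), 0) = ((i + 1, j - 1), -1) := by
  have := nx1 (Q := Q) (c := (i, j)) (k := 0) (by rw [a0, show (0 : ℤ) - 1 = -1 by rfl, am1]; exact h)
  rwa [a0, show (0 : ℤ) - 1 = -1 by rfl, am1] at this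

lemma E2 (h : (i + 1, j - 1) ∉ Q) (h' : (i + 1, j) ∈ Q) :
    nextSide Q ((i, j), 0) = ((i + 1, j), 0) := by
  have := nx2 (Q := Q) (c := (i, j)) (k := 0) (by rw [a0, show (0 : ℤ) - 1 = -1 by rfl, am1]; exact h)
    (by rw [a0]; exact h')
  rwa [a0] at this

lemma E3 (h : (i + 1, j - 1) ∉ Q) (h' : (i + 1, j) ∉ Q) :
    nextSide Q ((i, j), 0) = ((i, j), 1) :=
  nx3 (Q := Q) (c := (i, j)) (k := 0) (by rw [a0, show (0 : ℤ) - 1 = -1 by rfl, am1]; exact h)
    (by rw [a0]; exact h')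

lemma N1 (h : (i + 1, j + 1) ∈ Q) : nextSide Q ((i, j), 1) = ((i + 1, j + 1), 0) := by
  have := nx1 (Q := Q) (c := (i, j)) (k := 1) (by rw [a1, show (1 : ℤ) - 1 = 0 by rfl, a0]; exact h)
  rwa [a1, show (1 : ℤ) - 1 = 0 by rfl, a0] at this

lemma N2 (h : (i + 1, j + 1) ∉ Q) (h' : (i, j + 1) ∈ Q) :
    nextSide Q ((i, j), 1) = ((i, j + 1), 1) := by
  have := nx2 (Q := Q) (c := (i, j)) (k := 1) (by rw [a1, show (1 : ℤ) - 1 = 0 by rfl, a0]; exact h)
    (by rw [a1]; exact h')
  rwa [a1] at this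

lemma N3 (h : (i + 1, j + 1) ∉ Q) (h' : (i, j + 1) ∉ Q) :
    nextSide Q ((i, j), 1) = ((i, j), 2) :=
  nx3 (Q := Q) (c := (i, j)) (k := 1) (by rw [a1, show (1 : ℤ) - 1 = 0 by rfl, a0]; exact h)
    (by rw [a1]; exact h')

lemma W1 (h : (i - 1, j + 1) ∈ Q) : nextSide Q ((i, j), 2) = ((i - 1, j + 1), 1) := by
  have := nx1 (Q := Q) (c := (i, j)) (k := 2) (by rw [a2, show (2 : ℤ) - 1 = 1 by rfl, a1]; exact h)
  rwa [a2, show (2 : ℤ) - 1 = 1 by rfl, a1] at this

lemma W2 (h : (i - 1, j + 1) ∉ Q) (h' : (i - 1, j) ∈ Q) :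
    nextSide Q ((i, j), 2) = ((i - 1, j), 2) := by
  have := nx2 (Q := Q) (c := (i, j)) (k := 2) (by rw [a2, show (2 : ℤ) - 1 = 1 by rfl, a1]; exact h)
    (by rw [a2]; exact h')
  rwa [a2] at this

lemma W3 (h : (i - 1, j + 1) ∉ Q) (h' : (i - 1, j) ∉ Q) :
    nextSide Q ((i, j), 2) = ((i, j), 3) :=
  nx3 (Q := Q) (c := (i, j)) (k := 2) (by rw [a2, show (2 : ℤ) - 1 = 1 by rfl, a1]; exact h)
    (by rw [a2]; exact h')

lemma S1 (h : (i - 1, j - 1) ∈ Q) : nextSide Q ((i, j), 3) = ((i - 1, j - 1), 2) := by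
  have := nx1 (Q := Q) (c := (i, j)) (k := 3) (by rw [a3, show (3 : ℤ) - 1 = 2 by rfl, a2]; exact h)
  rwa [a3, show (3 : ℤ) - 1 = 2 by rfl, a2] at this

lemma S2 (h : (i - 1, j - 1) ∉ Q) (h' : (i, j - 1) ∈ Q) :
    nextSide Q ((i, j), 3) = ((i, j - 1), 3) := by
  have := nx2 (Q := Q) (c := (i, j)) (k := 3) (by rw [a3, show (3 : ℤ) - 1 = 2 by rfl, a2]; exact h)
    (by rw [a3]; exact h')
  rwa [a3] at this

lemma S3 (h : (i - 1, j - 1) ∉ Q) (h' : (i, j - 1) ∉ Q) :
    nextSide Q ((i, j), 3) = ((i, j), 4) :=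
  nx3 (Q := Q) (c := (i, j)) (k := 3) (by rw [a3, show (3 : ℤ) - 1 = 2 by rfl, a2]; exact h)
    (by rw [a3]; exact h')

lemma T2 (h : (i - 1, j - 1) ∉ Q) (h' : (i, j - 1) ∈ Q) :
    nextSide Q ((i, j), -1) = ((i, j - 1), -1) := by
  have := nx2 (Q := Q) (c := (i, j)) (k := -1)
    (by rw [am1, show (-1 : ℤ) - 1 = -2 by rfl, am2]; exact h) (by rw [am1]; exact h')
  rwa [am1] at this

lemma T3 (h : (i - 1, j - 1) ∉ Q) (h' : (i, j - 1) ∉ Q) :
    nextSide Q ((i, j), -1) = ((i, j), 0) :=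
  nx3 (Q := Q) (c := (i, j)) (k := -1)
    (by rw [am1, show (-1 : ℤ) - 1 = -2 by rfl, am2]; exact h) (by rw [am1]; exact h')

lemma F1 (h : (i + 1, j - 1) ∈ Q) : nextSide Q ((i, j), 4) = ((i + 1, j - 1), 3) := by
  have := nx1 (Q := Q) (c := (i, j)) (k := 4) (by rw [a4, show (4 : ℤ) - 1 = 3 by rfl, a3]; exact h)
  rwa [a4, show (4 : ℤ) - 1 = 3 by rfl, a3] at this

lemma F2 (h : (i + 1, j - 1) ∉ Q) (h' : (i + 1, j) ∈ Q) :
    nextSide Q ((i, j), 4) = ((i + 1, j), 4) := by
  have := nx2 (Q := Q) (c := (i, j)) (k := 4) (by rw [a4, show (4 : ℤ) - 1 = 3 by rfl, a3]; exact h)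
    (by rw [a4]; exact h')
  rwa [a4] at this

end steps

namespace LProf

variable {p : LProf}

/-- one step of the walk -/
def Stp (p : LProf) (s : Cell × ℤ) (m : ℤ) : Prop :=
  (∃ m', p.Lab (nextSide p.Q s) m' ∧
    (m' = m ∨ (m' = m + 1 ∧ nextSide p.Q s = (s.1, s.2 + 1)))) ∨
  (nextSide p.Q s = ((p.a, p.lo p.a), 4) ∧
    (m = 4 ∨ (m = 3 ∧ nextSide p.Q s = (s.1, s.2 + 1))))

lemma core {i j : ℤ} (h1 : p.a ≤ i) (h2 : i < p.b) : (i, j) ∈ p.Q ↔ p.lo i ≤ j ∧ j < p.up i := by
  rw [Prof.mem_Q, Prof.In]; simp only; omega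

lemma right {i j : ℤ} (h1 : p.b ≤ i) : (i, j) ∈ p.Q ↔ (p.r1 ≤ j ∧ j < p.r2) ∧ i < p.rt j := by
  have := p.hab
  rw [Prof.mem_Q, Prof.In]; simp only; omega

lemma left {i j : ℤ} (h1 : i < p.a) : (i, j) ∈ p.Q ↔ (p.l1 ≤ j ∧ j < p.l2) ∧ p.lt j ≤ i := by
  have := p.hab
  rw [Prof.mem_Q, Prof.In]; simp only; omega

lemma r1_def : p.r1 = p.lo (p.b - 1) := rfl
lemma r2_def : p.r2 = p.up (p.b - 1) := rfl
lemma l1_def : p.l1 = p.lo p.a := rfl
lemma l2_def : p.l2 = p.up p.a := rfl

lemma step_b0 {i : ℤ} (h1 : p.a ≤ i) (h2 : i < p.b) : Stp p ((i, p.lo i), 0) (p.Lb i) := by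
  left
  rcases lt_or_ge (i + 1) p.b with h3 | h3
  · have e1 := p.hov1 i h1 h3
    have e2 := p.hov2 i h1 h3
    have e3 := p.hlu i h1 h2
    have e4 := p.hlu (i + 1) (by omega) h3
    have e5 := p.hb i h1 h3
    rcases lt_trichotomy (p.lo (i + 1)) (p.lo i) with h | h | h
    · rw [E1 (by rw [core (by omega) h3]; omega)]
      exact ⟨_, Lab.bo i _ h1 h3 (by omega) (by omega), Or.inl rfl⟩
    · rw [E2 (by rw [core (by omega) h3]; omega) (by rw [core (by omega) h3]; omega)]
      refine ⟨_, ?_, Or.inl rfl⟩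
      have h6 : p.Lb (i + 1) = p.Lb i := by
        rcases e5 with e | e
        · exact e
        · exact absurd h e.2
      have := Lab.b0 (p := p) (i + 1) (by omega) h3
      rwa [h, h6] at this
    · rw [E3 (by rw [core (by omega) h3]; omega) (by rw [core (by omega) h3]; omega)]
      refine ⟨_, Lab.bi i _ h1 h3 le_rfl h, ?_⟩
      rcases e5 with e | e
      · exact Or.inl e
      · exact Or.inr ⟨e.1, by norm_num⟩
  · have h4 : i = p.b - 1 := by omega
    subst h4
    have e1 := p.hlu (p.b - 1) h1 h2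
    have e2 := p.hrt (p.lo (p.b - 1)) le_rfl e1
    have hr1 := r1_def (p := p)
    have hr2 := r2_def (p := p)
    rcases lt_or_ge p.b (p.rt p.r1) with h | h
    · rw [E2 (by rw [right (by omega)]; omega)
        (by rw [right (by omega), hr1, hr2]; rw [hr1] at h; omega)]
      refine ⟨_, ?_, Or.inl rfl⟩
      have := Lab.c1 (p := p) p.b le_rfl h
      rwa [hr1, show p.b = p.b - 1 + 1 by omega, show p.b - 1 + 1 - 1 = p.b - 1 by omega] at this
    · rw [E3 (by rw [right (by omega)]; omega)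
        (by rw [right (by omega), hr1, hr2]; rw [hr1] at h; omega)]
      have h5 : p.rt p.r1 = p.b := by rw [hr1] at h ⊢; omega
      have := Lab.r0 (p := p) p.r1 le_rfl (by rw [hr1, hr2]; exact e1)
      rw [h5, hr1] at this
      refine ⟨_, this, ?_⟩
      rcases p.hbr with e | e
      · exact Or.inl e
      · exact Or.inr ⟨e, by norm_num⟩

lemma step_bo {i j : ℤ} (h1 : p.a ≤ i) (h2 : i + 1 < p.b) (h3 : p.lo (i + 1) ≤ j)
    (h4 : j < p.lo i) : Stp p ((i + 1, j), -1) (p.Lb i) := by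
  left
  have e1 := p.hov1 i h1 h2
  have e4 := p.hlu (i + 1) (by omega) h2
  rcases lt_or_ge (p.lo (i + 1)) j with h | h
  · rw [T2 (by rw [show i + 1 - 1 = i by omega, core h1 (by omega)]; omega)
      (by rw [core (by omega) h2]; omega)]
    exact ⟨_, Lab.bo i _ h1 h2 (by omega) (by omega), Or.inl rfl⟩
  · have hj : j = p.lo (i + 1) := by omega
    rw [T3 (by rw [show i + 1 - 1 = i by omega, core h1 (by omega)]; omega)
      (by rw [core (by omega) h2]; omega)]
    subst hj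
    refine ⟨_, Lab.b0 (i + 1) (by omega) h2, ?_⟩
    rcases p.hb i h1 h2 with e | e
    · exact Or.inl e
    · exact Or.inr ⟨e.1, by norm_num⟩

lemma step_bi {i j : ℤ} (h1 : p.a ≤ i) (h2 : i + 1 < p.b) (h3 : p.lo i ≤ j)
    (h4 : j < p.lo (i + 1)) : Stp p ((i, j), 1) (p.Lb (i + 1)) := by
  left
  have e1 := p.hov1 i h1 h2
  have e2 := p.hov2 i h1 h2
  have e4 := p.hlu (i + 1) (by omega) h2
  rcases lt_or_ge (j + 1) (p.lo (i + 1)) with h | h
  · rw [N2 (by rw [core (by omega) h2]; omega) (by rw [core h1 (by omega)]; omega)]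
    exact ⟨_, Lab.bi i _ h1 h2 (by omega) h, Or.inl rfl⟩
  · have hj : p.lo (i + 1) = j + 1 := by omega
    rw [N1 (by rw [core (by omega) h2]; omega)]
    refine ⟨_, ?_, Or.inl rfl⟩
    have := Lab.b0 (p := p) (i + 1) (by omega) h2
    rwa [hj] at this

lemma step_c1 {i : ℤ} (h1 : p.b ≤ i) (h2 : i < p.rt p.r1) :
    Stp p ((i, p.r1), 0) (p.Lb (p.b - 1)) := by
  left
  have hb := p.hab
  have e1 := p.hlu (p.b - 1) (by omega) (by omega)
  have hr1 := r1_def (p := p)
  have hr2 := r2_def (p := p)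
  rcases lt_or_ge (i + 1) (p.rt p.r1) with h | h
  · rw [E2 (by rw [right (by omega)]; omega) (by rw [right (by omega)]; omega)]
    exact ⟨_, Lab.c1 _ (by omega) h, Or.inl rfl⟩
  · rw [E3 (by rw [right (by omega)]; omega) (by rw [right (by omega)]; omega)]
    have h5 : p.rt p.r1 - 1 = i := by omega
    have := Lab.r0 (p := p) p.r1 le_rfl (by omega)
    rw [h5] at this
    refine ⟨_, this, ?_⟩
    rcases p.hbr with e | e
    · exact Or.inl (by rw [hr1]; exact e)
    · exact Or.inr ⟨by rw [hr1]; exact e, by norm_num⟩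

lemma step_r0 {j : ℤ} (h1 : p.r1 ≤ j) (h2 : j < p.r2) : Stp p ((p.rt j - 1, j), 1) (p.Lr j) := by
  left
  have hb := p.hab
  have hr1 := r1_def (p := p)
  have hr2 := r2_def (p := p)
  have e0 := p.hrt j (by omega) (by omega)
  rcases lt_or_ge (j + 1) p.r2 with h3 | h3
  · have e1 := p.hrt (j + 1) (by omega) (by omega)
    have e5 := p.hr j (by omega) (by omega)
    rcases lt_trichotomy (p.rt (j + 1)) (p.rt j) with h | h | h
    · rw [N3 (by rw [right (by omega), show p.rt j - 1 + 1 = p.rt j by omega]; omega)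
        (by rw [right (by omega)]; omega)]
      refine ⟨_, Lab.ri (p := p) (p.rt j - 1) j h1 h3 (by omega) (by omega), ?_⟩
      rcases e5 with e | e
      · exact Or.inl e
      · exact Or.inr ⟨e.1, by norm_num⟩
    · have hmem : (p.rt j - 1, j + 1) ∈ p.Q := by
        rcases lt_or_ge (p.rt j - 1) p.b with g | g
        · rw [core (by omega) g, show p.rt j - 1 = p.b - 1 by omega]; omega
        · rw [right g]; omega
      rw [N2 (by rw [right (by omega), show p.rt j - 1 + 1 = p.rt j by omega]; omega) hmem]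
      refine ⟨_, ?_, Or.inl rfl⟩
      have h6 : p.Lr (j + 1) = p.Lr j := by
        rcases e5 with e | e
        · exact e
        · exact absurd h e.2
      have := Lab.r0 (p := p) (j + 1) (by omega) h3
      rwa [h, h6] at this
    · rw [N1 (by rw [right (by omega)]; omega), show p.rt j - 1 + 1 = p.rt j by omega]
      exact ⟨_, Lab.ro (p := p) (p.rt j) j h1 h3 le_rfl h, Or.inl rfl⟩
  · have hj : j = p.r2 - 1 := by omega
    have hn1 : (p.rt j - 1 + 1, j + 1) ∉ p.Q := by rw [right (by omega)]; omega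
    have hn2 : (p.rt j - 1, j + 1) ∉ p.Q := by
      rcases lt_or_ge (p.rt j - 1) p.b with g | g
      · rw [core (by omega) g, show p.rt j - 1 = p.b - 1 by omega]; omega
      · rw [right g]; omega
    rw [N3 hn1 hn2]
    have hlab : p.Lt (p.b - 1) = p.Lr j ∨ p.Lt (p.b - 1) = p.Lr j + 1 := by
      rw [hj, hr2]; exact p.hrt'
    refine ⟨p.Lt (p.b - 1), ?_, ?_⟩
    · rcases lt_or_ge (p.rt j - 1) p.b with g | g
      · have := Lab.t0 (p := p) (p.b - 1) (by omega) (by omega)
        rw [← hr2] at this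
        rwa [show p.rt j - 1 = p.b - 1 by omega, hj]
      · have := Lab.c2 (p := p) (p.rt j - 1) g (by rw [← hj]; omega)
        rwa [← hj] at this
    · rcases hlab with e | e
      · exact Or.inl e
      · exact Or.inr ⟨e, by norm_num⟩

lemma step_ro {i j : ℤ} (h1 : p.r1 ≤ j) (h2 : j + 1 < p.r2) (h3 : p.rt j ≤ i)
    (h4 : i < p.rt (j + 1)) : Stp p ((i, j + 1), 0) (p.Lr j) := by
  left
  have hb := p.hab
  have hr1 := r1_def (p := p)
  have hr2 := r2_def (p := p)
  have e0 := p.hrt j (by omega) (by omega)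
  have n1 : (i + 1, j + 1 - 1) ∉ p.Q := by
    rw [right (by omega), show j + 1 - 1 = j by omega]; omega
  rcases lt_or_ge (i + 1) (p.rt (j + 1)) with h | h
  · rw [E2 n1 (by rw [right (by omega)]; omega)]
    exact ⟨_, Lab.ro _ _ h1 h2 (by omega) h, Or.inl rfl⟩
  · rw [E3 n1 (by rw [right (by omega)]; omega)]
    have := Lab.r0 (p := p) (j + 1) (by omega) h2
    rw [show p.rt (j + 1) - 1 = i by omega] at this
    refine ⟨_, this, ?_⟩
    rcases p.hr j (by omega) (by omega) with e | e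
    · exact Or.inl e
    · exact Or.inr ⟨e.1, by norm_num⟩

lemma step_ri {i j : ℤ} (h1 : p.r1 ≤ j) (h2 : j + 1 < p.r2) (h3 : p.rt (j + 1) ≤ i)
    (h4 : i < p.rt j) : Stp p ((i, j), 2) (p.Lr (j + 1)) := by
  left
  have hb := p.hab
  have hr1 := r1_def (p := p)
  have hr2 := r2_def (p := p)
  have e0 := p.hrt j (by omega) (by omega)
  have e1 := p.hrt (j + 1) (by omega) (by omega)
  rcases lt_or_ge (p.rt (j + 1)) i with h | h
  · rw [W2 (by rw [right (by omega)]; omega) (by rw [right (by omega)]; omega)]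
    exact ⟨_, Lab.ri _ _ h1 h2 (by omega) (by omega), Or.inl rfl⟩
  · have hi : i = p.rt (j + 1) := by omega
    have hmem : (i - 1, j + 1) ∈ p.Q := by
      rcases lt_or_ge (i - 1) p.b with g | g
      · rw [core (by omega) g, show i - 1 = p.b - 1 by omega]; omega
      · rw [right g]; omega
    rw [W1 hmem]
    have := Lab.r0 (p := p) (j + 1) (by omega) h2
    rw [← hi] at this
    exact ⟨_, this, Or.inl rfl⟩

lemma step_c2 {i : ℤ} (h1 : p.b ≤ i) (h2 : i < p.rt (p.r2 - 1)) :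
    Stp p ((i, p.r2 - 1), 2) (p.Lt (p.b - 1)) := by
  left
  have hb := p.hab
  have e1 := p.hlu (p.b - 1) (by omega) (by omega)
  have hr1 := r1_def (p := p)
  have hr2 := r2_def (p := p)
  rcases lt_or_ge p.b i with h | h
  · rw [W2 (by rw [right (by omega)]; omega) (by rw [right (by omega)]; omega)]
    exact ⟨_, Lab.c2 _ (by omega) (by omega), Or.inl rfl⟩
  · have hi : i = p.b := by omega
    subst hi
    rw [W2 (by rw [core (by omega) (by omega)]; omega) (by rw [core (by omega) (by omega)]; omega)]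
    have := Lab.t0 (p := p) (p.b - 1) (by omega) (by omega)
    rw [← hr2] at this
    exact ⟨_, this, Or.inl rfl⟩

lemma step_t0 {i : ℤ} (h1 : p.a ≤ i) (h2 : i < p.b) : Stp p ((i, p.up i - 1), 2) (p.Lt i) := by
  left
  have hb := p.hab
  rcases lt_or_ge p.a i with h3 | h3
  · obtain ⟨k, rfl⟩ : ∃ k, i = k + 1 := ⟨i - 1, by omega⟩
    have e1 := p.hov1 k (by omega) h2
    have e2 := p.hov2 k (by omega) h2
    have e3 := p.hlu k (by omega) (by omega)
    have e4 := p.hlu (k + 1) h1 h2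
    have e5 := p.ht k (by omega) h2
    rcases lt_trichotomy (p.up k) (p.up (k + 1)) with h | h | h
    · rw [W3 (by rw [show k + 1 - 1 = k by omega, core (by omega) (by omega)]; omega)
        (by rw [show k + 1 - 1 = k by omega, core (by omega) (by omega)]; omega)]
      refine ⟨_, Lab.ti k (p.up (k + 1) - 1) (by omega) h2 (by omega) (by omega), ?_⟩
      rcases e5 with e | e
      · exact Or.inl e
      · exact Or.inr ⟨e.1, by norm_num⟩
    · rw [W2 (by rw [show k + 1 - 1 = k by omega, core (by omega) (by omega)]; omega)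
        (by rw [show k + 1 - 1 = k by omega, core (by omega) (by omega)]; omega),
        show k + 1 - 1 = k by omega]
      have := Lab.t0 (p := p) k (by omega) (by omega)
      rw [h] at this
      refine ⟨_, this, ?_⟩
      rcases e5 with e | e
      · exact Or.inl e
      · exact absurd h e.2
    · rw [W1 (by rw [show k + 1 - 1 = k by omega, core (by omega) (by omega)]; omega),
        show k + 1 - 1 = k by omega, show p.up (k + 1) - 1 + 1 = p.up (k + 1) by omega]
      exact ⟨_, Lab.tu k _ (by omega) h2 le_rfl h, Or.inl rfl⟩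
  · have hi : i = p.a := by omega
    subst hi
    have e1 := p.hlu p.a le_rfl h2
    have hl1 := l1_def (p := p)
    have hl2 := l2_def (p := p)
    have e2 := p.hlt (p.up p.a - 1) (by omega) (by omega)
    rcases lt_or_ge (p.lt (p.l2 - 1)) p.a with h | h
    · rw [hl2] at h
      rw [W2 (by rw [left (by omega)]; omega) (by rw [left (by omega)]; omega)]
      have := Lab.c3 (p := p) (p.a - 1) (by rw [hl2]; omega) (by omega)
      rw [hl2] at this
      exact ⟨_, this, Or.inl rfl⟩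
    · rw [hl2] at h
      rw [W3 (by rw [left (by omega)]; omega) (by rw [left (by omega)]; omega)]
      have := Lab.l0 (p := p) (p.l2 - 1) (by omega) (by omega)
      rw [hl2, show p.lt (p.up p.a - 1) = p.a by omega] at this
      refine ⟨_, this, ?_⟩
      rcases p.htl with e | e
      · exact Or.inl e
      · exact Or.inr ⟨e, by norm_num⟩

lemma step_tu {i j : ℤ} (h1 : p.a ≤ i) (h2 : i + 1 < p.b) (h3 : p.up (i + 1) ≤ j)
    (h4 : j < p.up i) : Stp p ((i, j), 1) (p.Lt (i + 1)) := by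
  left
  have e1 := p.hov1 i h1 h2
  have n1 : (i + 1, j + 1) ∉ p.Q := by rw [core (by omega) h2]; omega
  rcases lt_or_ge (j + 1) (p.up i) with h | h
  · rw [N2 n1 (by rw [core h1 (by omega)]; omega)]
    exact ⟨_, Lab.tu _ _ h1 h2 (by omega) h, Or.inl rfl⟩
  · rw [N3 n1 (by rw [core h1 (by omega)]; omega)]
    have := Lab.t0 (p := p) i h1 (by omega)
    rw [show p.up i - 1 = j by omega] at this
    refine ⟨_, this, ?_⟩
    rcases p.ht i h1 h2 with e | e
    · exact Or.inl e
    · exact Or.inr ⟨e.1, by norm_num⟩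

lemma step_ti {i j : ℤ} (h1 : p.a ≤ i) (h2 : i + 1 < p.b) (h3 : p.up i ≤ j)
    (h4 : j < p.up (i + 1)) : Stp p ((i + 1, j), 3) (p.Lt i) := by
  left
  have e1 := p.hov1 i h1 h2
  have e2 := p.hov2 i h1 h2
  have e3 := p.hlu i h1 (by omega)
  rcases lt_or_ge (p.up i) j with h | h
  · rw [S2 (by rw [show i + 1 - 1 = i by omega, core h1 (by omega)]; omega)
      (by rw [core (by omega) h2]; omega)]
    exact ⟨_, Lab.ti _ _ h1 h2 (by omega) (by omega), Or.inl rfl⟩
  · rw [S1 (by rw [show i + 1 - 1 = i by omega, core h1 (by omega)]; omega),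
      show i + 1 - 1 = i by omega]
    have := Lab.t0 (p := p) i h1 (by omega)
    rw [show p.up i = j by omega] at this
    exact ⟨_, this, Or.inl rfl⟩

lemma step_c3 {i : ℤ} (h1 : p.lt (p.l2 - 1) ≤ i) (h2 : i < p.a) :
    Stp p ((i, p.l2 - 1), 2) (p.Lt p.a) := by
  left
  have hb := p.hab
  have e1 := p.hlu p.a le_rfl hb
  have hl1 := l1_def (p := p)
  have hl2 := l2_def (p := p)
  rcases lt_or_ge (p.lt (p.l2 - 1)) i with h | h
  · rw [W2 (by rw [left (by omega)]; omega) (by rw [left (by omega)]; omega)]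
    exact ⟨_, Lab.c3 _ (by omega) (by omega), Or.inl rfl⟩
  · rw [W3 (by rw [left (by omega)]; omega) (by rw [left (by omega)]; omega)]
    have := Lab.l0 (p := p) (p.l2 - 1) (by omega) (by omega)
    rw [show p.lt (p.l2 - 1) = i by omega] at this
    refine ⟨_, this, ?_⟩
    rcases p.htl with e | e
    · exact Or.inl (by rw [hl2]; exact e)
    · exact Or.inr ⟨by rw [hl2]; exact e, by norm_num⟩

lemma step_l0 {j : ℤ} (h1 : p.l1 ≤ j) (h2 : j < p.l2) : Stp p ((p.lt j, j), 3) (p.Ll j) := by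
  have hb := p.hab
  have hl1 := l1_def (p := p)
  have hl2 := l2_def (p := p)
  have e0 := p.hlt j (by omega) (by omega)
  rcases lt_or_ge p.l1 j with h3 | h3
  · left
    obtain ⟨k, rfl⟩ : ∃ k, j = k + 1 := ⟨j - 1, by omega⟩
    have e1 := p.hlt k (by omega) (by omega)
    have e5 := p.hl k (by omega) (by omega)
    rcases lt_trichotomy (p.lt k) (p.lt (k + 1)) with h | h | h
    · rw [S1 (by rw [left (by omega), show k + 1 - 1 = k by omega]; omega),
        show k + 1 - 1 = k by omega]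
      exact ⟨_, Lab.lo (p := p) (p.lt (k + 1) - 1) k (by omega) h2 (by omega) (by omega), Or.inl rfl⟩
    · have hmem : (p.lt (k + 1), k + 1 - 1) ∈ p.Q := by
        rw [show k + 1 - 1 = k by omega]
        rcases lt_or_ge (p.lt (k + 1)) p.a with g | g
        · rw [left g]; omega
        · rw [core g (by omega), show p.lt (k + 1) = p.a by omega]; omega
      rw [S2 (by rw [left (by omega), show k + 1 - 1 = k by omega]; omega) hmem,
        show k + 1 - 1 = k by omega]
      have := Lab.l0 (p := p) k (by omega) (by omega)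
      rw [h] at this
      refine ⟨_, this, ?_⟩
      rcases e5 with e | e
      · exact Or.inl e
      · exact absurd h e.2
    · rw [S3 (by rw [left (by omega), show k + 1 - 1 = k by omega]; omega)
        (by rw [left (by omega), show k + 1 - 1 = k by omega]; omega)]
      refine ⟨_, Lab.li (p := p) (p.lt (k + 1)) k (by omega) h2 le_rfl h, ?_⟩
      rcases e5 with e | e
      · exact Or.inl e
      · exact Or.inr ⟨e.1, by norm_num⟩
  · have hj : j = p.l1 := by omega
    have n1 : (p.lt j - 1, j - 1) ∉ p.Q := by rw [left (by omega)]; omega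
    have n2 : (p.lt j, j - 1) ∉ p.Q := by
      rcases lt_or_ge (p.lt j) p.a with g | g
      · rw [left g]; omega
      · rw [core g (by omega), show p.lt j = p.a by omega]; omega
    have h4 := p.h4
    rw [← hl1, ← hj] at h4
    rcases lt_or_ge (p.lt j) p.a with g | g
    · left
      rw [S3 n1 n2]
      have := Lab.c4 (p := p) (p.lt p.l1) le_rfl (by rw [← hj]; exact g)
      rw [← hj] at this
      refine ⟨_, this, ?_⟩
      rcases h4 with e | e
      · exact Or.inr ⟨by omega, by norm_num⟩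
      · exact Or.inl (by omega)
    · right
      rw [S3 n1 n2]
      refine ⟨by rw [← hl1, ← hj, show p.lt j = p.a by omega], ?_⟩
      rcases h4 with e | e
      · exact Or.inr ⟨e, by norm_num⟩
      · exact Or.inl e

lemma step_lo {i j : ℤ} (h1 : p.l1 ≤ j) (h2 : j + 1 < p.l2) (h3 : p.lt j ≤ i)
    (h4 : i < p.lt (j + 1)) : Stp p ((i, j), 2) (p.Ll (j + 1)) := by
  left
  have hb := p.hab
  have hl1 := l1_def (p := p)
  have hl2 := l2_def (p := p)
  have e1 := p.hlt (j + 1) (by omega) (by omega)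
  rcases lt_or_ge (p.lt j) i with h | h
  · rw [W2 (by rw [left (by omega)]; omega) (by rw [left (by omega)]; omega)]
    exact ⟨_, Lab.lo _ _ h1 h2 (by omega) (by omega), Or.inl rfl⟩
  · rw [W3 (by rw [left (by omega)]; omega) (by rw [left (by omega)]; omega)]
    have := Lab.l0 (p := p) j h1 (by omega)
    rw [show p.lt j = i by omega] at this
    refine ⟨_, this, ?_⟩
    rcases p.hl j (by omega) (by omega) with e | e
    · exact Or.inl e
    · exact Or.inr ⟨e.1, by norm_num⟩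

lemma step_li {i j : ℤ} (h1 : p.l1 ≤ j) (h2 : j + 1 < p.l2) (h3 : p.lt (j + 1) ≤ i)
    (h4 : i < p.lt j) : Stp p ((i, j + 1), 4) (p.Ll j) := by
  left
  have hb := p.hab
  have hl1 := l1_def (p := p)
  have hl2 := l2_def (p := p)
  have e0 := p.hlt j (by omega) (by omega)
  rcases lt_or_ge (i + 1) (p.lt j) with h | h
  · rw [F2 (by rw [left (by omega), show j + 1 - 1 = j by omega]; omega)
      (by rw [left (by omega)]; omega)]
    exact ⟨_, Lab.li _ _ h1 h2 (by omega) h, Or.inl rfl⟩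
  · have hi : i + 1 = p.lt j := by omega
    have hmem : (i + 1, j + 1 - 1) ∈ p.Q := by
      rw [show j + 1 - 1 = j by omega, hi]
      rcases lt_or_ge (p.lt j) p.a with g | g
      · rw [left g]; omega
      · rw [core g (by omega), show p.lt j = p.a by omega]; omega
    rw [F1 hmem, show j + 1 - 1 = j by omega, hi]
    exact ⟨_, Lab.l0 (p := p) j h1 (by omega), Or.inl rfl⟩

lemma step_c4 {i : ℤ} (h1 : p.lt p.l1 ≤ i) (h2 : i < p.a) : Stp p ((i, p.l1), 4) 4 := by
  have hb := p.hab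
  have e1 := p.hlu p.a le_rfl hb
  have hl1 := l1_def (p := p)
  have hl2 := l2_def (p := p)
  rcases lt_or_ge (i + 1) p.a with h | h
  · left
    rw [F2 (by rw [left (by omega)]; omega) (by rw [left (by omega)]; omega)]
    exact ⟨_, Lab.c4 _ (by omega) h, Or.inl rfl⟩
  · right
    have hi : i + 1 = p.a := by omega
    rw [F2 (by rw [hi, core le_rfl hb]; omega) (by rw [hi, core le_rfl hb]; omega), hi]
    exact ⟨rfl, Or.inl rfl⟩

/-- **One step** of the boundary walk. -/
theorem step {s : Cell × ℤ} {m : ℤ} (h : p.Lab s m) : Stp p s m := by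
  cases h with
  | b0 i h1 h2 => exact step_b0 h1 h2
  | bo i j h1 h2 h3 h4 => exact step_bo h1 h2 h3 h4
  | bi i j h1 h2 h3 h4 => exact step_bi h1 h2 h3 h4
  | c1 i h1 h2 => exact step_c1 h1 h2
  | r0 j h1 h2 => exact step_r0 h1 h2
  | ro i j h1 h2 h3 h4 => exact step_ro h1 h2 h3 h4
  | ri i j h1 h2 h3 h4 => exact step_ri h1 h2 h3 h4
  | c2 i h1 h2 => exact step_c2 h1 h2
  | t0 i h1 h2 => exact step_t0 h1 h2
  | tu i j h1 h2 h3 h4 => exact step_tu h1 h2 h3 h4
  | ti i j h1 h2 h3 h4 => exact step_ti h1 h2 h3 h4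
  | c3 i h1 h2 => exact step_c3 h1 h2
  | l0 j h1 h2 => exact step_l0 h1 h2
  | lo i j h1 h2 h3 h4 => exact step_lo h1 h2 h3 h4
  | li i j h1 h2 h3 h4 => exact step_li h1 h2 h3 h4
  | c4 i h1 h2 => exact step_c4 h1 h2

end LProf

end Pool.Agent.H5.FM
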