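import Mathlib
import Pool.Agent.H5.FM.Walk
import Pool.Agent.H21.FM.Defs

set_option autoImplicit false
open Finset

/-! # The shape with four marks of a labelled polygon with four profiles -/

namespace Pool.Agent.H5.FM

open Pool.Agent.H75.Perc (dir dir_cases)
open Pool.Agent.Q1.M4 (Cell Good IsSide nextSide tail head PType isSide_iter)
open Pool.Agent.H21.FM (Shape)

lemma next_four (Q : Finset Cell) (s : Cell × ℤ) :
    nextSide Q (s.1, s.2 + 4) = ((nextSide Q s).1, (nextSide Q s).2 + 4) := by
  obtain ⟨c, k⟩ := s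
  have e1 : dir (k + 4) = dir k := Pool.Agent.Q1.M4.dir_add_four k
  have e2 : dir (k + 4 - 1) = dir (k - 1) := by
    rw [show k + 4 - 1 = k - 1 + 4 by ring, Pool.Agent.Q1.M4.dir_add_four]
  unfold nextSide
  simp only [e1, e2]
  split_ifs
  · exact Prod.ext rfl (by simp only; ring)
  · rfl
  · exact Prod.ext rfl (by simp only; ring)

lemma iter_four (Q : Finset Cell) (s : Cell × ℤ) (n : ℕ) :
    (nextSide Q)^[n] (s.1, s.2 + 4) = (((nextSide Q)^[n] s).1, ((nextSide Q)^[n] s).2 + 4) := by
  induction n with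
  | zero => rfl
  | succ n ih => rw [Function.iterate_succ_apply', ih, Function.iterate_succ_apply', next_four]

namespace LProf

variable (p : LProf)

/-- the start of the walk -/
def s0 : Cell × ℤ := ((p.a, p.lo p.a), 0)

/-- the walk -/
noncomputable def W (n : ℕ) : Cell × ℤ := (nextSide p.Q)^[n] p.s0

lemma W_succ (n : ℕ) : p.W (n + 1) = nextSide p.Q (p.W n) := by
  unfold W; rw [Function.iterate_succ_apply']

lemma side_s0 : IsSide p.Q p.s0 := by
  have := p.hlu p.a le_rfl p.hab
  refine ⟨(core le_rfl p.hab).2 ⟨le_rfl, this⟩, ?_⟩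
  show ((p.a, p.lo p.a) : ℤ × ℤ) + dir ((0 : ℤ) - 1) ∉ p.Q
  rw [show (0 : ℤ) - 1 = -1 by rfl, am1, core le_rfl p.hab]
  omega

lemma lab_four {m : ℤ} : ¬ p.Lab ((p.a, p.lo p.a), 4) m := by
  intro h
  have hb := p.hab
  generalize hs : ((((p.a, p.lo p.a) : ℤ × ℤ), (4 : ℤ)) : Cell × ℤ) = s at h
  cases h with
  | li i j h1 h2 h3 h4 =>
    have hl1 := l1_def (p := p)
    have hl2 := l2_def (p := p)
    have e0 := p.hlt j (by omega) (by omega)
    have := congrArg (fun s : Cell × ℤ => s.1.1) hs
    simp only at this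
    omega
  | c4 i h1 h2 =>
    have := congrArg (fun s : Cell × ℤ => s.1.1) hs
    simp only at this
    omega
  | _ =>
    have := congrArg (fun s : Cell × ℤ => s.2) hs
    simp only at this
    omega

theorem base (hG : Good p.Q) : ∃ (N : ℕ) (lam : ℕ → ℤ), 3 ≤ N ∧
    p.W N = ((p.a, p.lo p.a), 4) ∧
    (∀ n < N, ∀ n' < N, (p.W n).1 = (p.W n').1 → ((p.W n).2 - (p.W n').2) % 4 = 0 → n = n') ∧
    lam 0 = 0 ∧ lam N = 4 ∧ (∀ n < N, p.Lab (p.W n) (lam n)) ∧
    ∀ n < N, lam (n + 1) = lam n ∨
      (lam (n + 1) = lam n + 1 ∧ p.W (n + 1) = ((p.W n).1, (p.W n).2 + 1)) := by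
  obtain ⟨N, hN, hper, -, hinj⟩ := Pool.Agent.Q1.M4.walk hG (p.side_s0)
  have hper' : p.W N = ((p.a, p.lo p.a), 4) := by
    show (nextSide p.Q)^[N] p.s0 = _
    rw [hper]; unfold s0; rfl
  have hW0 : p.W 0 = ((p.a, p.lo p.a), 0) := rfl
  have key : ∀ n, n < N → ∃ lam : ℕ → ℤ, lam 0 = 0 ∧ (∀ m ≤ n, p.Lab (p.W m) (lam m)) ∧
      ∀ m < n, lam (m + 1) = lam m ∨
        (lam (m + 1) = lam m + 1 ∧ p.W (m + 1) = ((p.W m).1, (p.W m).2 + 1)) := by
    intro n
    induction n with
    | zero =>
      intro _
      refine ⟨fun _ => 0, rfl, ?_, fun m hm => absurd hm (by omega)⟩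
      intro m hm
      obtain rfl : m = 0 := by omega
      have := Lab.b0 (p := p) p.a le_rfl p.hab
      rwa [p.h0] at this
    | succ n ih =>
      intro hn
      obtain ⟨lam, h0, h1, h2⟩ := ih (by omega)
      rcases step (h1 n le_rfl) with ⟨m', hm', hs⟩ | ⟨ht, -⟩
      · rw [← W_succ] at hm' hs
        refine ⟨Function.update lam (n + 1) m', ?_, ?_, ?_⟩
        · rw [Function.update_of_ne (by omega)]; exact h0
        · intro m hm
          rcases Nat.lt_or_ge m (n + 1) with g | g
          · rw [Function.update_of_ne (by omega)]; exact h1 m (by omega)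
          · obtain rfl : m = n + 1 := by omega
            rw [Function.update_self]; exact hm'
        · intro m hm
          rcases Nat.lt_or_ge m n with g | g
          · rw [Function.update_of_ne (by omega), Function.update_of_ne (by omega)]
            exact h2 m g
          · obtain rfl : m = n := by omega
            rw [Function.update_self, Function.update_of_ne (by omega)]
            exact hs
      · exfalso
        rw [← W_succ] at ht
        have := hinj (n + 1) hn 0 (by omega) (by
          show (p.W (n + 1)).1 = (p.W 0).1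
          rw [ht, hW0]) (by
          show ((p.W (n + 1)).2 - (p.W 0).2) % 4 = 0
          rw [ht, hW0]; norm_num)
        omega
  obtain ⟨M, rfl⟩ : ∃ M, N = M + 1 := ⟨N - 1, by omega⟩
  obtain ⟨lam, h0, h1, h2⟩ := key M (by omega)
  refine ⟨M + 1, Function.update lam (M + 1) 4, hN, hper', hinj, ?_, ?_, ?_, ?_⟩
  · rw [Function.update_of_ne (by omega)]; exact h0
  · rw [Function.update_self]
  · intro n hn
    rw [Function.update_of_ne (by omega)]; exact h1 n (by omega)
  · intro n hn
    rcases Nat.lt_or_ge n M with g | g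
    · rw [Function.update_of_ne (by omega), Function.update_of_ne (by omega)]
      exact h2 n g
    · obtain rfl : n = M := by omega
      rw [Function.update_self, Function.update_of_ne (by omega)]
      rcases step (h1 n le_rfl) with ⟨m', hm', -⟩ | ⟨-, hs⟩
      · rw [← W_succ, hper'] at hm'
        exact absurd hm' p.lab_four
      · rw [← W_succ] at hs
        rcases hs with e | ⟨e, e'⟩
        · exact Or.inl e.symm
        · exact Or.inr ⟨by omega, e'⟩

/-- labels with the full turns -/
def LabE (s : Cell × ℤ) (m : ℤ) : Prop := ∃ t : ℤ, p.Lab (s.1, s.2 - 4 * t) (m - 4 * t)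

theorem exists_shape (hG : Good p.Q) (k : ℕ) (hk : 1 ≤ k) : ∃ S : Shape, S.P.Q = p.Q ∧
    (∀ i, i < S.m2 → p.LabE (S.P.side i) k) ∧
    (∀ i, S.m2 ≤ i → i < S.m3 → p.LabE (S.P.side i) (k + 1)) ∧
    (∀ i, S.m3 ≤ i → i < S.P.m → p.LabE (S.P.side i) (k + 2)) ∧
    (∀ i, S.P.m ≤ i → i < S.P.N → p.LabE (S.P.side i) (k + 3)) := by
  obtain ⟨N, lam, hN, hper, hinj, hl0, hlN, hlab, hst⟩ := p.base hG
  have hWN : ∀ n, p.W (n + N) = ((p.W n).1, (p.W n).2 + 4) := by
    intro n
    have e : p.W (n + N) = (nextSide p.Q)^[n] (p.W N) := by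
      unfold W; rw [Function.iterate_add_apply]
    rw [e, hper]
    exact iter_four p.Q p.s0 n
  -- extended labels
  have hN0 : 0 < N := by omega
  have hex : ∃ L : ℕ → ℤ, L 0 = 0 ∧ (∀ n, L (n + N) = L n + 4) ∧
      (∀ n, n ≤ N → L n = lam n) := by
    refine ⟨fun n => lam (n % N) + 4 * ((n / N : ℕ) : ℤ), by simp [hl0], ?_, ?_⟩
    · intro n
      simp only [Nat.add_mod_right, Nat.add_div_right _ hN0]
      push_cast; ring
    · intro n hn
      rcases Nat.lt_or_ge n N with g | g
      · simp only [Nat.mod_eq_of_lt g, Nat.div_eq_of_lt g]; push_cast; ring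
      · obtain rfl : n = N := by omega
        simp only [Nat.mod_self, Nat.div_self hN0, hl0, hlN]; norm_num
  obtain ⟨L, hL0, hLN, hLlam⟩ := hex
  have hWL : ∀ n, p.LabE (p.W n) (L n) ∧ (L (n + 1) = L n ∨
      (L (n + 1) = L n + 1 ∧ p.W (n + 1) = ((p.W n).1, (p.W n).2 + 1))) := by
    intro n
    induction n using Nat.strong_induction_on with
    | _ n ih =>
      rcases Nat.lt_or_ge n N with g | g
      · refine ⟨⟨0, ?_⟩, ?_⟩
        · rw [hLlam n g.le]
          simpa using hlab n g
        · rw [hLlam n g.le, hLlam (n + 1) (by omega)]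
          exact hst n g
      · obtain ⟨n, rfl⟩ : ∃ m, n = m + N := ⟨n - N, by omega⟩
        obtain ⟨⟨t, h1⟩, h2⟩ := ih n (by omega)
        refine ⟨⟨t + 1, ?_⟩, ?_⟩
        · rw [hWN, hLN]
          convert h1 using 1
          · exact Prod.ext rfl (by simp only; ring)
          · ring
        · rw [show n + N + 1 = n + 1 + N by ring, hWN, hWN, hLN, hLN]
          rcases h2 with e | ⟨e, e'⟩
          · exact Or.inl (by omega)
          · exact Or.inr ⟨by omega, by rw [e']; exact Prod.ext rfl (by simp only; ring)⟩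
  have hmono : Monotone L := monotone_nat_of_le_succ fun n => by
    rcases (hWL n).2 with e | e <;> omega
  have hunb : ∀ k : ℕ, ∃ n, (k : ℤ) ≤ L n := by
    intro k
    refine ⟨k * N, ?_⟩
    have : ∀ k : ℕ, L (k * N) = 4 * k := by
      intro k
      induction k with
      | zero => simp [hL0]
      | succ k ih => rw [Nat.succ_mul, hLN, ih]; push_cast; ring
    rw [this]; omega
  classical
  let nk : ℕ → ℕ := fun k => Nat.find (hunb k)
  have nk_spec : ∀ k : ℕ, (k : ℤ) ≤ L (nk k) := fun k => Nat.find_spec (hunb k)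
  have nk_min : ∀ k n : ℕ, n < nk k → L n < k := fun k n h => by
    have := Nat.find_min (hunb k) h
    omega
  have nk_pos : ∀ k : ℕ, 1 ≤ k → 0 < nk k := by
    intro k hk
    by_contra h
    have h' : nk k = 0 := by omega
    have := nk_spec k
    rw [h', hL0] at this
    omega
  have nk_conv : ∀ k : ℕ, 1 ≤ k → L (nk k) = k ∧
      p.W (nk k) = ((p.W (nk k - 1)).1, (p.W (nk k - 1)).2 + 1) := by
    intro k hk
    obtain ⟨n, hn⟩ : ∃ n, nk k = n + 1 := ⟨nk k - 1, by have := nk_pos k hk; omega⟩
    have h1 := nk_spec k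
    have h2 := nk_min k n (by omega)
    rw [hn] at h1 ⊢
    rw [Nat.add_sub_cancel]
    rcases (hWL n).2 with e | ⟨e, e'⟩
    · omega
    · exact ⟨by omega, e'⟩
  have nk_lt : ∀ k : ℕ, 1 ≤ k → nk k < nk (k + 1) := by
    intro k hk
    by_contra h
    have h1 := hmono (not_lt.1 h)
    have h2 := nk_spec (k + 1)
    have h3 := (nk_conv k hk).1
    push_cast at h2
    omega
  have nk_lab : ∀ k n : ℕ, nk k ≤ n → n < nk (k + 1) → L n = k := by
    intro k n h1 h2
    have h3 := nk_spec k
    have h4 := hmono h1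
    have h5 := nk_min (k + 1) n h2
    push_cast at h5
    omega
  have nk_four : ∀ k : ℕ, 1 ≤ k → nk (k + 4) = nk k + N := by
    intro k hk
    apply le_antisymm
    · apply Nat.find_min'
      rw [hLN]
      have := nk_spec k
      push_cast; omega
    · by_contra h
      have h1 : nk (k + 4) < nk k + N := by omega
      have h2 := nk_spec (k + 4)
      rcases Nat.lt_or_ge (nk (k + 4)) N with g | g
      · have h3 := hmono g.le
        have h4 : L N = 4 := by rw [hLlam N le_rfl]; exact hlN
        push_cast at h2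
        omega
      · obtain ⟨m, hm⟩ : ∃ m, nk (k + 4) = m + N := ⟨nk (k + 4) - N, by omega⟩
        rw [hm, hLN] at h2
        have h3 := nk_min k m (by omega)
        push_cast at h2
        omega
  -- the root
  set r := nk k with hr
  have hsr : IsSide p.Q (p.W r) := isSide_iter p.side_s0 r
  obtain ⟨N', hN', hper2, hall2, hinj2⟩ := Pool.Agent.Q1.M4.walk hG hsr
  have hiter : ∀ n, (nextSide p.Q)^[n] (p.W r) = p.W (r + n) := by
    intro n
    unfold W
    rw [← Function.iterate_add_apply, Nat.add_comm]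
  have hNN : N' = N := by
    rw [hiter] at hper2
    apply le_antisymm
    · by_contra h
      have := hinj2 N (by omega) 0 (by omega) (by rw [hiter, hiter, hWN]; rfl) (by
        rw [hiter, hiter, hWN]; simp)
      omega
    · by_contra h
      -- reduce the index r modulo N
      have hgen : ∀ q n : ℕ, n < N → p.W (n + q * N + N') =
          ((p.W (n + q * N)).1, (p.W (n + q * N)).2 + 4) → False := by
        intro q n hn
        induction q with
        | zero =>
          intro h5
          simp only [Nat.zero_mul, Nat.add_zero] at h5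
          rcases Nat.lt_or_ge (n + N') N with g | g
          · have := hinj (n + N') g n hn (by rw [h5]) (by rw [h5]; simp)
            omega
          · obtain ⟨m, hm⟩ : ∃ m, n + N' = m + N := ⟨n + N' - N, by omega⟩
            rw [hm, hWN] at h5
            have h6 : (p.W m).1 = (p.W n).1 := (Prod.ext_iff.1 h5).1
            have h7 : (p.W m).2 + 4 = (p.W n).2 + 4 := (Prod.ext_iff.1 h5).2
            have := hinj m (by omega) n hn h6 (by omega)
            omega
        | succ q ih =>
          intro h5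
          apply ih
          rw [show n + (q + 1) * N + N' = n + q * N + N' + N by ring,
            show n + (q + 1) * N = n + q * N + N by ring, hWN, hWN] at h5
          refine Prod.ext (Prod.ext_iff.1 h5).1 ?_
          have := (Prod.ext_iff.1 h5).2
          simp only at this ⊢
          omega
      apply hgen (r / N) (r % N) (Nat.mod_lt _ hN0)
      rw [show r % N + r / N * N = r by rw [Nat.mul_comm]; exact Nat.mod_add_div r N]
      exact hper2
  rw [hNN] at hN' hper2 hall2 hinj2
  have l1 := nk_lt k hk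
  have l2 := nk_lt (k + 1) (by omega)
  have l3 := nk_lt (k + 1 + 1) (by omega)
  have l4 := nk_lt (k + 1 + 1 + 1) (by omega)
  have l5 : nk (k + 1 + 1 + 1 + 1) = r + N := nk_four k hk
  let P : PType := ⟨p.Q, hG, p.W r, N, nk (k + 1 + 1 + 1) - r, by omega, by omega, hsr, hper2, hall2,
    hinj2⟩
  have hside : ∀ i, P.side i = p.W (r + i) := hiter
  have hcv : ∀ j : ℕ, 1 ≤ j → ∀ i, r + (i + 1) = nk j →
      P.side (i + 1) = ((P.side i).1, (P.side i).2 + 1) := by
    intro j hj i hi
    rw [hside, hside, hi, (nk_conv j hj).2, show nk j - 1 = r + i by omega]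
  refine ⟨⟨P, nk (k + 1) - r, nk (k + 1 + 1) - r, by omega, by omega, ?_, ?_⟩, rfl, ?_, ?_, ?_, ?_⟩
  · show nk (k + 1 + 1) - r < nk (k + 1 + 1 + 1) - r
    omega
  · rintro i (h | h | h | h)
    · exact hcv (k + 1) (by omega) i (by omega)
    · exact hcv (k + 1 + 1) (by omega) i (by omega)
    · refine hcv (k + 1 + 1 + 1) (by omega) i ?_
      have h' : i + 1 = nk (k + 1 + 1 + 1) - r := h
      omega
    · refine hcv (k + 1 + 1 + 1 + 1) (by omega) i ?_
      have h' : i + 1 = N := h
      omega
  · intro i hi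
    have hi' : i < nk (k + 1) - r := hi
    show p.LabE (P.side i) _
    have := (hWL (r + i)).1
    rw [nk_lab k (r + i) (by omega) (by omega)] at this
    rwa [hside]
  · intro i h1 hi
    have h1' : nk (k + 1) - r ≤ i := h1
    have hi' : i < nk (k + 1 + 1) - r := hi
    show p.LabE (P.side i) _
    have := (hWL (r + i)).1
    rw [nk_lab (k + 1) (r + i) (by omega) (by omega)] at this
    rw [hside]
    push_cast at this
    exact this
  · intro i h1 hi
    have h1' : nk (k + 1 + 1) - r ≤ i := h1
    have hi' : i < nk (k + 1 + 1 + 1) - r := hi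
    show p.LabE (P.side i) _
    have := (hWL (r + i)).1
    rw [nk_lab (k + 1 + 1) (r + i) (by omega) (by omega)] at this
    rw [hside]
    push_cast at this
    rwa [show (k : ℤ) + 1 + 1 = k + 2 by ring] at this
  · intro i h1 hi
    have h1' : nk (k + 1 + 1 + 1) - r ≤ i := h1
    have hi' : i < N := hi
    show p.LabE (P.side i) _
    have := (hWL (r + i)).1
    rw [nk_lab (k + 1 + 1 + 1) (r + i) (by omega) (by omega)] at this
    rw [hside]
    push_cast at this
    rwa [show (k : ℤ) + 1 + 1 + 1 = k + 3 by ring] at this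

end LProf

end Pool.Agent.H5.FM
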