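import Mathlib
import Pool.Agent.H5.FM.Pos
import Pool.Agent.H5.FM.Walk2

set_option autoImplicit false
open Set

/-! # The labelled polygon of a convex domain with four cuts -/

namespace Pool.Agent.H5.FM

variable {D : Set ℂ}

/-- four cuts of the boundary loop with gaps at least `g` -/
structure Cuts (D : Set ℂ) (g : ℝ) (c : Fin 4 → ℝ) : Prop where
  mono : StrictMono c
  gap : ∀ k : Fin 3, g ≤ c k.succ - c k.castSucc
  g0 : g ≤ c 0
  gT : g ≤ TD D - c 2
  cT : c 3 ≤ TD D

lemma Cuts.step {g : ℝ} {c : Fin 4 → ℝ} (hc : Cuts D g c) {s s' : ℝ} (h1 : s ≤ s')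
    (h2 : s' - s < g) : cnt c s' = cnt c s ∨ cnt c s' = cnt c s + 1 :=
  cnt_step hc.mono hc.gap h1 h2

variable {R r τ κ g : ℝ} {q : Par} {c : Fin 4 → ℝ}

/-- floor of the labelled polygon -/
noncomputable def mlo (q : Par) (D : Set ℂ) (c : Fin 4 → ℝ) (e : ℤ) (i : ℤ) : ℤ :=
  if cnt c (sbp q D i) % 2 = e then lo2 q D i else lo1 q D i
/-- ceiling of the labelled polygon -/
noncomputable def mup (q : Par) (D : Set ℂ) (c : Fin 4 → ℝ) (e : ℤ) (i : ℤ) : ℤ :=
  if cnt c (stp q D i) % 2 = e then up2 q D i else up1 q D i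
/-- right ends of the labelled polygon -/
noncomputable def mrt (q : Par) (D : Set ℂ) (c : Fin 4 → ℝ) (e : ℤ) (j : ℤ) : ℤ :=
  if cnt c (srp q D j) % 2 = e then rt2 q D j else Bq q D
/-- left ends of the labelled polygon -/
noncomputable def mlt (q : Par) (D : Set ℂ) (c : Fin 4 → ℝ) (e : ℤ) (j : ℤ) : ℤ :=
  if cnt c (slp q D j) % 2 = e then lt2 q D j else Aq q D

section

variable (h : CD D) (s : Fine D R r τ κ q) (e : ℤ)
include h s

lemma mlo_le {i : ℤ} (h1 : Aq q D ≤ i) (h2 : i < Bq q D) :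
    lo2 q D i ≤ mlo q D c e i ∧ mlo q D c e i ≤ lo1 q D i := by
  have := Sml.lo2_lt_lo1 h s.toSml (i := i) (i' := i) (by omega) (by omega) h1 h2
  unfold mlo
  split_ifs <;> constructor <;> omega

lemma mup_ge {i : ℤ} (h1 : Aq q D ≤ i) (h2 : i < Bq q D) :
    up1 q D i ≤ mup q D c e i ∧ mup q D c e i ≤ up2 q D i := by
  have := Sml.up1_lt_up2 h s.toSml (i := i) (i' := i) (by omega) (by omega) h1 h2
  unfold mup
  split_ifs <;> constructor <;> omega

omit h s in
lemma mrt_ge (j : ℤ) : Bq q D ≤ mrt q D c e j := by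
  have := Sml.rt2_gt (q := q) (D := D) j
  unfold mrt
  split_ifs <;> omega

omit h s in
lemma lt2_lt (j : ℤ) : lt2 q D j < Aq q D := by
  have := Sml.rt2_gt (q := q) (D := rx D) j
  unfold lt2 Aq
  omega

omit h s in
lemma mlt_le (j : ℤ) : mlt q D c e j ≤ Aq q D := by
  have := lt2_lt (q := q) (D := D) j
  unfold mlt
  split_ifs <;> omega

lemma sb_step (hg : κ + τ < g) (i : ℤ) (hc : Cuts D g c) :
    cnt c (sbp q D (i + 1)) = cnt c (sbp q D i) ∨ cnt c (sbp q D (i + 1)) = cnt c (sbp q D i) + 1 := by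
  have h1 := Fine.ητ h s
  have h2 := s.ε0
  have h3 := mul_pos s.η0 s.R0
  have h4 := s.κ0
  have h5 := s.τκ
  apply hc.step
  · unfold sbp; push_cast; linarith
  · unfold sbp; push_cast; linarith

lemma st_step (hg : κ + τ < g) (i : ℤ) (hc : Cuts D g c) :
    cnt c (stp q D i) = cnt c (stp q D (i + 1)) ∨ cnt c (stp q D i) = cnt c (stp q D (i + 1)) + 1 := by
  have h1 := Fine.ητ h s
  have h2 := s.ε0
  have h3 := mul_pos s.η0 s.R0
  have h4 := s.κ0
  apply hc.step
  · unfold stp; push_cast; linarith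
  · unfold stp; push_cast; linarith

lemma sr_step (hg : κ + τ < g) (j : ℤ) (hc : Cuts D g c) :
    cnt c (srp q D (j + 1)) = cnt c (srp q D j) ∨ cnt c (srp q D (j + 1)) = cnt c (srp q D j) + 1 := by
  have h1 := Fine.ητ h s
  have h2 := s.ε0
  have h3 := mul_pos s.η0 s.R0
  have h4 := s.κ0
  have h6 : q.ε * (j : ℝ) ≤ q.ε * ((j + 1 : ℤ) : ℝ) := by push_cast; linarith
  have h7 := clp_mono (a := flo D (xR D)) (b := cei D (xR D)) h6
  have h8 := clp_lip (a := flo D (xR D)) (b := cei D (xR D)) h6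
  have h9 : q.ε * ((j + 1 : ℤ) : ℝ) - q.ε * (j : ℝ) = q.ε := by push_cast; ring
  apply hc.step
  · unfold srp; linarith
  · unfold srp; linarith

lemma sl_step (hg : κ + τ < g) (j : ℤ) (hc : Cuts D g c) :
    cnt c (slp q D j) = cnt c (slp q D (j + 1)) ∨ cnt c (slp q D j) = cnt c (slp q D (j + 1)) + 1 := by
  have h1 := Fine.ητ h s
  have h2 := s.ε0
  have h3 := mul_pos s.η0 s.R0
  have h4 := s.κ0
  have h6 : q.ε * ((j : ℝ) + 1) ≤ q.ε * (((j + 1 : ℤ) : ℝ) + 1) := by push_cast; linarith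
  have h7 := clp_mono (a := flo D (xL D)) (b := cei D (xL D)) h6
  have h8 := clp_lip (a := flo D (xL D)) (b := cei D (xL D)) h6
  have h9 : q.ε * (((j + 1 : ℤ) : ℝ) + 1) - q.ε * ((j : ℝ) + 1) = q.ε := by push_cast; ring
  apply hc.step
  · unfold slp; linarith
  · unfold slp; linarith

/-- a value close to the floor at the right end -/
lemma mlo_B : |q.ε * mlo q D c e (Bq q D - 1) - flo D (xR D)| ≤ κ := by
  have := Fine.flo_B h s
  unfold mlo
  split_ifs
  · exact this.2
  · exact this.1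

lemma mup_B : |q.ε * mup q D c e (Bq q D - 1) - cei D (xR D)| ≤ κ := by
  have := Fine.cei_B h s
  unfold mup
  split_ifs
  · exact this.2
  · exact this.1

lemma mlo_A : |q.ε * mlo q D c e (Aq q D) - flo D (xL D)| ≤ κ := by
  have := Fine.flo_A h s
  unfold mlo
  split_ifs
  · exact this.2
  · exact this.1

lemma mup_A : |q.ε * mup q D c e (Aq q D) - cei D (xL D)| ≤ κ := by
  have := Fine.cei_A h s
  unfold mup
  split_ifs
  · exact this.2
  · exact this.1

omit h s in
lemma clp_le' {a b y κ : ℝ} (h0 : 0 ≤ κ) (h1 : y ≤ a + κ) : clp a b y ≤ a + κ := by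
  unfold clp
  exact max_le (by linarith) ((min_le_right _ _).trans h1)

omit h s in
lemma clp_ge' {a b y κ : ℝ} (h0 : 0 ≤ κ) (h1 : b - κ ≤ y) : b - κ ≤ clp a b y := by
  unfold clp
  exact (le_min (by linarith) h1).trans (le_max_right _ _)

lemma br_step (hg : κ + τ < g) (hc : Cuts D g c) :
    cnt c (srp q D (mlo q D c e (Bq q D - 1))) = cnt c (sbp q D (Bq q D - 1)) ∨
    cnt c (srp q D (mlo q D c e (Bq q D - 1))) = cnt c (sbp q D (Bq q D - 1)) + 1 := by
  have h1 := Fine.ητ h s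
  have h2 := s.ε0
  have h3 := mul_pos s.η0 s.R0
  have h4 := s.κ0
  have h5 := abs_le.1 (mlo_B (c := c) h s e)
  have h6 := abs_le.1 (s.B_near h)
  have h7 := h.flo_le_cei h.hLR.le le_rfl
  have h8 := clp_ge (flo D (xR D)) (cei D (xR D)) (q.ε * mlo q D c e (Bq q D - 1))
  have h9 := clp_le' (y := q.ε * mlo q D c e (Bq q D - 1)) (a := flo D (xR D)) (b := cei D (xR D)) h4.le (by linarith)
  have h10 := s.core_lt h (i := Bq q D - 1) (by omega)
  apply hc.step
  · unfold srp sbp wd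
    linarith
  · unfold srp sbp wd
    push_cast
    linarith

lemma rt_step (hg : κ + τ < g) (hc : Cuts D g c) :
    cnt c (stp q D (Bq q D - 1)) = cnt c (srp q D (mup q D c e (Bq q D - 1) - 1)) ∨
    cnt c (stp q D (Bq q D - 1)) = cnt c (srp q D (mup q D c e (Bq q D - 1) - 1)) + 1 := by
  have h1 := Fine.ητ h s
  have h2 := s.ε0
  have h3 := mul_pos s.η0 s.R0
  have h4 := s.κ0
  have h5 := abs_le.1 (mup_B (c := c) h s e)
  have h6 := abs_le.1 (s.B_near h)
  have h7 := h.flo_le_cei h.hLR.le le_rfl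
  have h8 := clp_le h7 (q.ε * ((mup q D c e (Bq q D - 1) - 1 : ℤ) : ℝ))
  have h9 := clp_ge' (a := flo D (xR D)) (b := cei D (xR D)) (κ := κ + q.ε)
    (y := q.ε * ((mup q D c e (Bq q D - 1) - 1 : ℤ) : ℝ)) (by linarith) (by push_cast; linarith)
  have h10 := s.core_lt h (i := Bq q D) (by omega)
  apply hc.step
  · unfold stp srp tr
    push_cast at *
    linarith
  · unfold stp srp tr
    push_cast at *
    linarith

lemma tl_step (hg : κ + τ < g) (hc : Cuts D g c) :
    cnt c (slp q D (mup q D c e (Aq q D) - 1)) = cnt c (stp q D (Aq q D)) ∨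
    cnt c (slp q D (mup q D c e (Aq q D) - 1)) = cnt c (stp q D (Aq q D)) + 1 := by
  have h1 := Fine.ητ h s
  have h2 := s.ε0
  have h3 := mul_pos s.η0 s.R0
  have h4 := s.κ0
  have h5 := abs_le.1 (mup_A (c := c) h s e)
  have h6 := abs_le.1 (s.A_near h)
  have h7 := h.flo_le_cei le_rfl h.hLR.le
  have e1 : q.ε * (((mup q D c e (Aq q D) - 1 : ℤ) : ℝ) + 1) = q.ε * mup q D c e (Aq q D) := by
    push_cast; ring
  have h8 := clp_le h7 (q.ε * mup q D c e (Aq q D))
  have h9 := clp_ge' (a := flo D (xL D)) (b := cei D (xL D)) (κ := κ)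
    (y := q.ε * mup q D c e (Aq q D)) h4.le (by linarith)
  have h10 := s.core_gt h (i := Aq q D) (by omega)
  apply hc.step
  · unfold stp slp wd
    rw [e1]
    linarith
  · unfold stp slp wd
    rw [e1]
    linarith

lemma h0_step (hg : κ + τ < g) (hc : Cuts D g c) : cnt c (sbp q D (Aq q D)) = 0 := by
  have h1 := Fine.ητ h s
  have h2 := s.ε0
  have h4 := s.κ0
  have h6 := abs_le.1 (s.A_near h)
  have h3 := mul_pos s.η0 s.R0
  have hlt : sbp q D (Aq q D) < c 0 := by
    have := hc.g0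
    unfold sbp
    linarith
  have hm : c 0 < c 1 := hc.mono (by decide)
  have hm1 : c 1 < c 2 := hc.mono (by decide)
  have hm2 : c 2 < c 3 := hc.mono (by decide)
  rcases cnt_eq hc.mono (sbp q D (Aq q D)) with ⟨a1, a2⟩ | ⟨a1, a2, a3⟩ | ⟨a1, a2, a3⟩ |
    ⟨a1, a2, a3⟩ | ⟨a1, a2⟩
  · exact a2
  all_goals exfalso; linarith

lemma sl_A : TD D - κ - τ < slp q D (mlo q D c e (Aq q D)) ∧
    slp q D (mlo q D c e (Aq q D)) ≤ TD D := by
  have h1 := Fine.ητ h s
  have h2 := s.ε0
  have h3 := mul_pos s.η0 s.R0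
  have h4 := s.κ0
  have h5 := abs_le.1 (mlo_A (c := c) h s e)
  have h7 := h.flo_le_cei le_rfl h.hLR.le
  have h8 := clp_ge (flo D (xL D)) (cei D (xL D)) (q.ε * ((mlo q D c e (Aq q D) : ℝ) + 1))
  have h9 := clp_le' (y := q.ε * ((mlo q D c e (Aq q D) : ℝ) + 1)) (κ := κ + q.ε) (a := flo D (xL D))
    (b := cei D (xL D)) (by linarith)
    (by linarith)
  unfold slp TD tl
  constructor <;> linarith

lemma h4_step (hg : κ + τ < g) (hc : Cuts D g c) :
    cnt c (slp q D (mlo q D c e (Aq q D))) = 3 ∨ cnt c (slp q D (mlo q D c e (Aq q D))) = 4 := by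
  have h1 := sl_A (c := c) h s e
  have h2 := hc.gT
  have hm : c 0 < c 1 := hc.mono (by decide)
  have hm1 : c 1 < c 2 := hc.mono (by decide)
  have hm2 : c 2 < c 3 := hc.mono (by decide)
  rcases cnt_eq hc.mono (slp q D (mlo q D c e (Aq q D))) with ⟨a1, a2⟩ | ⟨a1, a2, a3⟩ |
    ⟨a1, a2, a3⟩ | ⟨a1, a2, a3⟩ | ⟨a1, a2⟩
  · exfalso; linarith [h1.1]
  · exfalso; linarith [h1.1]
  · exfalso; linarith [h1.1]
  · exact Or.inl a3
  · exact Or.inr a2

end

/-- **The labelled polygon**. The arcs whose label is `e` modulo `2` are outer. -/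
noncomputable def mk (h : CD D) (s : Fine D R r τ κ q) (e : ℤ) (he : e = 0 ∨ e = 1) (hg : κ + τ < g)
    (hc : Cuts D g c) : LProf where
  a := Aq q D
  b := Bq q D
  lo := mlo q D c e
  up := mup q D c e
  rt := mrt q D c e
  lt := mlt q D c e
  hab := Sml.A_lt_B h s.toSml
  hlu := fun i h1 h2 => by
    have := Sml.lo1_lt_up1 h s.toSml h1 h2
    have := (mlo_le (c := c) h s e h1 h2).2
    have := (mup_ge (c := c) h s e h1 h2).1
    omega
  hov1 := fun i h1 h2 => by
    have := (Sml.overlap h s.toSml h1 h2).1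
    have := (mlo_le (c := c) h s e h1 (by omega)).2
    have := (mup_ge (c := c) h s e (i := i + 1) (by omega) h2).1
    omega
  hov2 := fun i h1 h2 => by
    have := (Sml.overlap h s.toSml h1 h2).2
    have := (mlo_le (c := c) h s e (i := i + 1) (by omega) h2).2
    have := (mup_ge (c := c) h s e (i := i) h1 (by omega)).1
    omega
  hrt := fun j _ _ => mrt_ge e j
  hlt := fun j _ _ => mlt_le e j
  Lb := fun i => cnt c (sbp q D i)
  Lr := fun j => cnt c (srp q D j)
  Lt := fun i => cnt c (stp q D i)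
  Ll := fun j => cnt c (slp q D j)
  hb := fun i h1 h2 => by
    rcases sb_step h s hg i hc with e1 | e1
    · exact Or.inl e1
    · right
      refine ⟨e1, ?_⟩
      have g1 := Sml.lo2_lt_lo1 h s.toSml (i := i) (i' := i + 1) (by omega) (by omega) (by omega) h2
      have g2 := Sml.lo2_lt_lo1 h s.toSml (i := i + 1) (i' := i) (by omega) (by omega) h1 (by omega)
      unfold mlo
      split_ifs <;> omega
  hr := fun j _ _ => by
    rcases sr_step h s hg j hc with e1 | e1
    · exact Or.inl e1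
    · right
      refine ⟨e1, ?_⟩
      have g1 := Sml.rt2_gt (q := q) (D := D) j
      have g2 := Sml.rt2_gt (q := q) (D := D) (j + 1)
      unfold mrt
      split_ifs <;> omega
  ht := fun i h1 h2 => by
    rcases st_step h s hg i hc with e1 | e1
    · exact Or.inl e1
    · right
      refine ⟨e1, ?_⟩
      have g1 := Sml.up1_lt_up2 h s.toSml (i := i) (i' := i + 1) (by omega) (by omega) (by omega) h2
      have g2 := Sml.up1_lt_up2 h s.toSml (i := i + 1) (i' := i) (by omega) (by omega) h1 (by omega)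
      unfold mup
      split_ifs <;> omega
  hl := fun j _ _ => by
    rcases sl_step h s hg j hc with e1 | e1
    · exact Or.inl e1
    · right
      refine ⟨e1, ?_⟩
      have g1 := lt2_lt (q := q) (D := D) j
      have g2 := lt2_lt (q := q) (D := D) (j + 1)
      unfold mlt
      split_ifs <;> omega
  h0 := h0_step h s hg hc
  hbr := br_step h s e hg hc
  hrt' := rt_step h s e hg hc
  htl := tl_step h s e hg hc
  h4 := h4_step h s e hg hc

end Pool.Agent.H5.FM
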