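import Mathlib
import Pool.Agent.H5.FM.Mk

set_option autoImplicit false
open Set

/-! # Points near the boundary loop -/

namespace Pool.Agent.H5.FM

variable {D : Set ℂ}

/-- `z` is within `K` of a point of the loop with the label `m` -/
def Nr (D : Set ℂ) (c : Fin 4 → ℝ) (K : ℝ) (m : ℤ) (z : ℂ) : Prop :=
  ∃ t, 0 ≤ t ∧ t ≤ TD D ∧ cnt c t = m ∧ ‖z - Gam D t‖ ≤ K

variable {R r τ κ g : ℝ} {q : Par} {c : Fin 4 → ℝ}

lemma norm_le_four {z w : ℂ} {κ : ℝ} (h1 : |z.re - w.re| ≤ 2 * κ) (h2 : |z.im - w.im| ≤ 2 * κ) :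
    ‖z - w‖ ≤ 4 * κ := by
  have := norm_le_two (z - w) (t := 2 * κ) (by simpa using h1) (by simpa using h2)
  linarith

/-! ### The left side -/

lemma pr_rx (K : Set ℂ) (x0 x1 : ℝ) : pr (rx K) x0 x1 = pr K (-x1) (-x0) := by
  ext y
  constructor
  · rintro ⟨x, h1, h2, h3⟩
    exact ⟨-x, by linarith, by linarith, mem_rx.1 h3⟩
  · rintro ⟨x, h1, h2, h3⟩
    exact ⟨-x, by linarith, by linarith, mem_rx.2 (by rwa [neg_neg])⟩

lemma pc_rx (K : Set ℂ) (y0 y1 : ℝ) {x : ℝ} : x ∈ pc (rx K) y0 y1 ↔ -x ∈ pc K y0 y1 := by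
  constructor
  · rintro ⟨y, h1, h2, h3⟩
    exact ⟨y, h1, h2, mem_rx.1 h3⟩
  · rintro ⟨y, h1, h2, h3⟩
    exact ⟨y, h1, h2, mem_rx.2 h3⟩

lemma lo2_rx (q : Par) (D : Set ℂ) (i : ℤ) : lo2 q (rx D) (-i - 1) = lo2 q D i := by
  unfold lo2
  rw [th_rx, pr_rx]
  have e1 : -(q.ε * (((-i - 1 : ℤ) : ℝ) + 1)) = q.ε * i := by push_cast; ring
  have e2 : -(q.ε * ((-i - 1 : ℤ) : ℝ)) = q.ε * (i + 1) := by push_cast; ring
  rw [e1, e2]

lemma up2_rx (q : Par) (D : Set ℂ) (i : ℤ) : up2 q (rx D) (-i - 1) = up2 q D i := by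
  unfold up2
  rw [cj_rx, lo2_rx]

namespace Sml

variable (h : CD D) (s : Sml D R r τ q)
include h s

/-- the left part of the outer domain is over the rows of the first core column -/
lemma left_row {z : ℂ} (hz : z ∈ th q.θ D) (hx : z.re ≤ q.ε * Aq q D) :
    q.ε * lo2 q D (Aq q D) < z.im ∧ z.im < q.ε * up2 q D (Aq q D) := by
  have hz' : (⟨-z.re, z.im⟩ : ℂ) ∈ th q.θ (Pool.Agent.H5.FM.rx D) := by
    rw [th_rx, mem_rx, neg_neg]; exact hz
  have := right_row h.rx s.rx hz' (by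
    simp only
    have : (Bq q (Pool.Agent.H5.FM.rx D) : ℤ) = -Aq q D := by unfold Aq; ring
    rw [this]; push_cast; linarith)
  have e : Bq q (Pool.Agent.H5.FM.rx D) - 1 = -Aq q D - 1 := by unfold Aq; ring
  rw [e, lo2_rx, up2_rx] at this
  exact this

lemma gt_lt2 {j : ℤ} {x y : ℝ} (h1 : q.ε * j ≤ y) (h2 : y ≤ q.ε * (j + 1))
    (hy : (⟨x, y⟩ : ℂ) ∈ th q.θ D) : q.ε * lt2 q D j < x := by
  have := lt_rt2 h.rx s.rx (x := -x) h1 h2 (by rw [th_rx, mem_rx, neg_neg]; exact hy)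
  unfold lt2
  push_cast
  linarith

lemma lt2_ge {j : ℤ} (hne : (pc (th q.θ D) (q.ε * j) (q.ε * (j + 1))).Nonempty) :
    xL D - q.θ - 2 * q.ε ≤ q.ε * lt2 q D j := by
  obtain ⟨x, hx⟩ := hne
  have := rt2_le h.rx s.rx (j := j) ⟨-x, by rw [th_rx, pc_rx, neg_neg]; exact hx⟩
  rw [xR_rx] at this
  unfold lt2
  push_cast
  linarith

/-- the rows of a core column meet the outer domain -/
lemma row_ne {i j : ℤ} (h1 : Aq q D ≤ i) (h2 : i < Bq q D) (hj1 : lo2 q D i ≤ j)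
    (hj2 : j < up2 q D i) : (pc (th q.θ D) (q.ε * j) (q.ε * (j + 1))).Nonempty := by
  have hε := s.ε0
  have hne : (pr (th q.θ D) (q.ε * i) (q.ε * (i + 1))).Nonempty := by
    obtain ⟨y, x, hx1, hx2, hxy⟩ := pr1_ne h s h1 h2
    exact ⟨y, x, hx1, hx2, h.sub_th s.θ0 (h.sc_sub s.η0.le (by linarith [s.η1]) hxy)⟩
  have hb1 := (lo2_bound s (D := D) i).2
  have hb2 := (lo2_bound s.cj (D := Pool.Agent.H5.FM.cj D) i).2
  set I := sInf (pr (th q.θ D) (q.ε * i) (q.ε * (i + 1))) with hI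
  set J := sSup (pr (th q.θ D) (q.ε * i) (q.ε * (i + 1))) with hJ
  have hJ' : sInf (pr (th q.θ (Pool.Agent.H5.FM.cj D)) (q.ε * i) (q.ε * (i + 1))) = -J := by
    have e : pr (th q.θ (Pool.Agent.H5.FM.cj D)) (q.ε * i) (q.ε * (i + 1)) =
        -pr (th q.θ D) (q.ε * i) (q.ε * (i + 1)) := by
      rw [th_cj]
      ext y
      rw [Set.mem_neg]
      constructor
      · rintro ⟨x, g1, g2, g3⟩
        exact ⟨x, g1, g2, mem_cj.1 g3⟩
      · rintro ⟨x, g1, g2, g3⟩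
        exact ⟨x, g1, g2, mem_cj.2 g3⟩
    rw [e, Real.sInf_def, neg_neg]
  rw [hJ'] at hb2
  have hup : (lo2 q (Pool.Agent.H5.FM.cj D) i : ℝ) = -(up2 q D i : ℝ) := by
    unfold up2; push_cast; ring
  rw [hup] at hb2
  obtain ⟨y0, hy0⟩ := hne
  have hIJ := ((cd2 h s).mem_pr ⟨y0, hy0⟩ y0).1 hy0
  have hj1' : (lo2 q D i : ℝ) ≤ j := by exact_mod_cast hj1
  have hj2' : (j : ℝ) ≤ up2 q D i - 1 := by
    have : j ≤ up2 q D i - 1 := by omega
    exact_mod_cast this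
  have k1 := mul_le_mul_of_nonneg_left hj1' hε.le
  have k2 := mul_le_mul_of_nonneg_left hj2' hε.le
  obtain ⟨y, hy1, hy2⟩ := exists_between (show max I (q.ε * j) < min J (q.ε * (j + 1)) from by
    rw [max_lt_iff, lt_min_iff, lt_min_iff]
    refine ⟨⟨by linarith [hIJ.1, hIJ.2], by linarith⟩, by linarith, by linarith⟩)
  rw [max_lt_iff] at hy1
  rw [lt_min_iff] at hy2
  obtain ⟨x, -, -, hxy⟩ := ((cd2 h s).mem_pr ⟨y0, hy0⟩ y).2 ⟨hy1.1, hy2.1⟩
  exact ⟨x, y, hy1.2.le, hy2.2.le, hxy⟩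

end Sml

/-! ### Zones -/

section

variable (h : CD D) (s : Fine D R r τ κ q)
include h s

omit h in
lemma Fine.τ0 : 0 < τ := by
  have := s.hτ
  have := s.θ0
  linarith

lemma Fine.ετ : 8 * q.ε ≤ τ := by
  have := Fine.ητ h s
  have h3 := mul_pos s.η0 s.R0
  linarith

omit h s in
lemma TD_eq : TD D = 2 * wd D + tr D + tl D := rfl

lemma near_b {i i1 i2 : ℤ} (h1 : Aq q D ≤ i) (h2 : i < Bq q D) (h11 : Aq q D ≤ i1)
    (h12 : i1 < Bq q D) (h13 : i1 - i ≤ 1) (h14 : i - i1 ≤ 1) (h21 : Aq q D ≤ i2)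
    (h22 : i2 < Bq q D) (h23 : i2 - i ≤ 1) (h24 : i - i2 ≤ 1) {z : ℂ}
    (hx : |z.re - q.ε * i| ≤ 3 * τ) (hy1 : q.ε * lo2 q D i1 ≤ z.im)
    (hy2 : z.im ≤ q.ε * lo1 q D i2) : Nr D c (4 * κ) (cnt c (sbp q D i)) z := by
  have g1 := s.core_gt h h1
  have g2 := s.core_lt h h2.le
  have hε := s.ε0
  have hτ := s.τ0
  have hετ := Fine.ετ h s
  have hκ := s.τκ
  have hw := h.wd_pos
  have ht := h.tr_nonneg
  have htl := h.tl_nonneg
  have hd : ∀ i' : ℤ, i' - i ≤ 1 → i - i' ≤ 1 → |q.ε * (i : ℝ) - q.ε * i'| ≤ 4 * τ := by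
    intro i' a1 a2
    have b1 : (i' : ℝ) - i ≤ 1 := by exact_mod_cast a1
    have b2 : (i : ℝ) - i' ≤ 1 := by exact_mod_cast a2
    rw [abs_le]
    constructor <;> nlinarith
  refine ⟨sbp q D i, ?_, ?_, rfl, ?_⟩
  · unfold sbp; linarith
  · rw [TD_eq]; unfold sbp wd at *; linarith
  · have e : Gam D (sbp q D i) = ⟨q.ε * i, flo D (q.ε * i)⟩ := Gam_b (by linarith)
    rw [e]
    have k1 := abs_le.1 (s.clf i1 h11 h12 (q.ε * i) (by linarith) (by linarith) (hd _ h13 h14)).2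
    have k2 := abs_le.1 (s.clf i2 h21 h22 (q.ε * i) (by linarith) (by linarith) (hd _ h23 h24)).1
    apply norm_le_four
    · simp only; linarith
    · simp only; rw [abs_le]; constructor <;> linarith

lemma near_t {i i1 i2 : ℤ} (h1 : Aq q D ≤ i) (h2 : i < Bq q D) (h11 : Aq q D ≤ i1)
    (h12 : i1 < Bq q D) (h13 : i1 - i ≤ 1) (h14 : i - i1 ≤ 1) (h21 : Aq q D ≤ i2)
    (h22 : i2 < Bq q D) (h23 : i2 - i ≤ 1) (h24 : i - i2 ≤ 1) {z : ℂ}
    (hx : |z.re - q.ε * i| ≤ 3 * τ) (hy1 : q.ε * up1 q D i1 ≤ z.im)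
    (hy2 : z.im ≤ q.ε * up2 q D i2) : Nr D c (4 * κ) (cnt c (stp q D i)) z := by
  have g1 := s.core_gt h h1
  have g2 := s.core_lt h (i := i + 1) (by omega)
  push_cast at g2
  have hε := s.ε0
  have hτ := s.τ0
  have hετ := Fine.ετ h s
  have hκ := s.τκ
  have hw := h.wd_pos
  have ht := h.tr_nonneg
  have htl := h.tl_nonneg
  have hd : ∀ i' : ℤ, i' - i ≤ 1 → i - i' ≤ 1 → |q.ε * ((i : ℝ) + 1) - q.ε * i'| ≤ 4 * τ := by
    intro i' a1 a2
    have b1 : (i' : ℝ) - i ≤ 1 := by exact_mod_cast a1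
    have b2 : (i : ℝ) - i' ≤ 1 := by exact_mod_cast a2
    rw [abs_le]
    constructor <;> nlinarith
  refine ⟨stp q D i, ?_, ?_, rfl, ?_⟩
  · unfold stp; linarith
  · rw [TD_eq]; unfold stp wd at *; linarith
  · have e : Gam D (stp q D i) = ⟨q.ε * (i + 1), cei D (q.ε * (i + 1))⟩ :=
      Gam_t h (by linarith) (by linarith)
    rw [e]
    have k1 := abs_le.1 (s.clc i1 h11 h12 (q.ε * (i + 1)) (by linarith) (by linarith)
      (hd _ h13 h14)).1
    have k2 := abs_le.1 (s.clc i2 h21 h22 (q.ε * (i + 1)) (by linarith) (by linarith)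
      (hd _ h23 h24)).2
    rw [abs_le] at hx
    apply norm_le_four
    · simp only; rw [abs_le]; constructor <;> linarith
    · simp only; rw [abs_le]; constructor <;> linarith

lemma near_r {j : ℤ} {z : ℂ} (hx : |z.re - xR D| ≤ 3 * τ) (hy : |z.im - q.ε * j| ≤ 2 * q.ε)
    (h1 : flo D (xR D) - κ ≤ q.ε * j) (h2 : q.ε * j ≤ cei D (xR D) + κ) :
    Nr D c (4 * κ) (cnt c (srp q D j)) z := by
  have hε := s.ε0
  have hτ := s.τ0
  have hετ := Fine.ετ h s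
  have hκ := s.τκ
  have hw := h.wd_pos
  have ht := h.tr_nonneg
  have htl := h.tl_nonneg
  have hfc := h.flo_le_cei h.hLR.le le_rfl
  have k1 := clp_ge (flo D (xR D)) (cei D (xR D)) (q.ε * j)
  have k2 := clp_le hfc (q.ε * j)
  have hn := clp_near (a := flo D (xR D)) (b := cei D (xR D)) (y := q.ε * j) s.κ0.le h1 h2
  have hn' : |clp (flo D (xR D)) (cei D (xR D)) (q.ε * j) - q.ε * j| ≤ κ := by
    rcases hn with hn | hn
    · exact hn
    · exfalso; linarith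
  refine ⟨srp q D j, ?_, ?_, rfl, ?_⟩
  · unfold srp; linarith
  · rw [TD_eq]; unfold srp; unfold tr at *; linarith
  · have e : Gam D (srp q D j) = ⟨xR D, clp (flo D (xR D)) (cei D (xR D)) (q.ε * j)⟩ :=
      Gam_r k1 k2
    rw [e]
    rw [abs_le] at hn' hy
    apply norm_le_four
    · simp only; linarith
    · simp only; rw [abs_le]; constructor <;> linarith

lemma near_l {j : ℤ} {z : ℂ} (hx : |z.re - xL D| ≤ 3 * τ) (hy : |z.im - q.ε * (j + 1)| ≤ 2 * q.ε)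
    (h1 : flo D (xL D) - κ ≤ q.ε * (j + 1)) (h2 : q.ε * (j + 1) ≤ cei D (xL D) + κ) :
    Nr D c (4 * κ) (cnt c (slp q D j)) z := by
  have hε := s.ε0
  have hτ := s.τ0
  have hετ := Fine.ετ h s
  have hκ := s.τκ
  have hw := h.wd_pos
  have ht := h.tr_nonneg
  have htl := h.tl_nonneg
  have hfc := h.flo_le_cei le_rfl h.hLR.le
  have k1 := clp_ge (flo D (xL D)) (cei D (xL D)) (q.ε * (j + 1))
  have k2 := clp_le hfc (q.ε * (j + 1))
  have hn := clp_near (a := flo D (xL D)) (b := cei D (xL D)) (y := q.ε * (j + 1)) s.κ0.le h1 h2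
  have hn' : |clp (flo D (xL D)) (cei D (xL D)) (q.ε * (j + 1)) - q.ε * (j + 1)| ≤ κ := by
    rcases hn with hn | hn
    · exact hn
    · exfalso; linarith
  refine ⟨slp q D j, ?_, ?_, rfl, ?_⟩
  · unfold slp; linarith
  · rw [TD_eq]; unfold slp; unfold tl at *; linarith
  · have e : Gam D (slp q D j) = ⟨xL D, clp (flo D (xL D)) (cei D (xL D)) (q.ε * (j + 1))⟩ :=
      Gam_l h k2
    rw [e]
    rw [abs_le] at hn' hy
    apply norm_le_four
    · simp only; linarith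
    · simp only; rw [abs_le]; constructor <;> linarith

/-- near the lower left corner -/
lemma near_4 (hc : Cuts D g c) {z : ℂ} (hx : |z.re - xL D| ≤ 3 * τ)
    (hy1 : q.ε * lo2 q D (Aq q D) ≤ z.im)
    (hy2 : z.im ≤ q.ε * lo1 q D (Aq q D)) : Nr D c (4 * κ) 4 z := by
  have hε := s.ε0
  have hτ := s.τ0
  have hετ := Fine.ετ h s
  have hκ := s.τκ
  have hw := h.wd_pos
  have ht := h.tr_nonneg
  have htl := h.tl_nonneg
  obtain ⟨k1, k2⟩ := Fine.flo_A h s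
  refine ⟨TD D, ?_, le_rfl, ?_, ?_⟩
  · rw [TD_eq]; linarith
  · have hcT := hc.cT
    have hm : c 0 < c 1 := hc.mono (by decide)
    have hm1 : c 1 < c 2 := hc.mono (by decide)
    have hm2 : c 2 < c 3 := hc.mono (by decide)
    rcases cnt_eq hc.mono (TD D) with ⟨a1, a2⟩ | ⟨a1, a2, a3⟩ | ⟨a1, a2, a3⟩ | ⟨a1, a2, a3⟩ |
      ⟨a1, a2⟩
    · exfalso; linarith
    · exfalso; linarith
    · exfalso; linarith
    · exfalso; linarith
    · exact a2
  · have hfc := h.flo_le_cei le_rfl h.hLR.le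
    have e : Gam D (TD D) = ⟨xL D, flo D (xL D)⟩ := by
      have := Gam_l h (y := flo D (xL D)) hfc
      rwa [show 2 * wd D + tr D + (cei D (xL D) - flo D (xL D)) = TD D from rfl] at this
    rw [e]
    rw [abs_le] at k1 k2
    apply norm_le_four
    · simp only; linarith
    · simp only; rw [abs_le]; constructor <;> linarith

/-! ### Ranges -/

lemma rowR {j : ℤ} (e : ℤ) (h1 : mlo q D c e (Bq q D - 1) ≤ j) (h2 : j < mup q D c e (Bq q D - 1)) :
    (flo D (xR D) - κ ≤ q.ε * j ∧ q.ε * j + q.ε ≤ cei D (xR D) + κ) ∧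
    q.ε * mrt q D c e j ≤ xR D + 2 * τ ∧ xR D - τ / 2 ≤ q.ε * Bq q D := by
  have hε := s.ε0
  have hAB := Sml.A_lt_B h s.toSml
  have k1 := abs_le.1 (mlo_B (c := c) h s e)
  have k2 := abs_le.1 (mup_B (c := c) h s e)
  have k3 := mlo_le (c := c) h s e (i := Bq q D - 1) (by omega) (by omega)
  have k4 := mup_ge (c := c) h s e (i := Bq q D - 1) (by omega) (by omega)
  have k5 := abs_le.1 (s.B_near h)
  have k6 := Fine.ητ h s
  have h3 := mul_pos s.η0 s.R0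
  have h1' : (mlo q D c e (Bq q D - 1) : ℝ) ≤ j := by exact_mod_cast h1
  have h2' : (j : ℝ) + 1 ≤ mup q D c e (Bq q D - 1) := by
    have : j + 1 ≤ mup q D c e (Bq q D - 1) := by omega
    exact_mod_cast this
  have m1 := mul_le_mul_of_nonneg_left h1' hε.le
  have m2 := mul_le_mul_of_nonneg_left h2' hε.le
  have h5 := s.hτ
  have h6 := Fine.ετ h s
  refine ⟨⟨by linarith, by linarith⟩, ?_, by linarith⟩
  unfold mrt
  split_ifs
  · have := Sml.rt2_le h s.toSml (Sml.row_ne h s.toSml (i := Bq q D - 1) (j := j) (by omega)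
      (by omega) (by omega) (by omega))
    linarith
  · linarith

lemma rowL {j : ℤ} (e : ℤ) (h1 : mlo q D c e (Aq q D) ≤ j) (h2 : j < mup q D c e (Aq q D)) :
    (flo D (xL D) - κ ≤ q.ε * j ∧ q.ε * j + q.ε ≤ cei D (xL D) + κ) ∧
    xL D - 2 * τ ≤ q.ε * mlt q D c e j ∧ q.ε * Aq q D ≤ xL D + τ / 2 := by
  have hε := s.ε0
  have hAB := Sml.A_lt_B h s.toSml
  have k1 := abs_le.1 (mlo_A (c := c) h s e)
  have k2 := abs_le.1 (mup_A (c := c) h s e)
  have k3 := mlo_le (c := c) h s e (i := Aq q D) (by omega) (by omega)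
  have k4 := mup_ge (c := c) h s e (i := Aq q D) (by omega) (by omega)
  have k5 := abs_le.1 (s.A_near h)
  have k6 := Fine.ητ h s
  have h3 := mul_pos s.η0 s.R0
  have h1' : (mlo q D c e (Aq q D) : ℝ) ≤ j := by exact_mod_cast h1
  have h2' : (j : ℝ) + 1 ≤ mup q D c e (Aq q D) := by
    have : j + 1 ≤ mup q D c e (Aq q D) := by omega
    exact_mod_cast this
  have m1 := mul_le_mul_of_nonneg_left h1' hε.le
  have m2 := mul_le_mul_of_nonneg_left h2' hε.le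
  have h5 := s.hτ
  have h6 := Fine.ετ h s
  refine ⟨⟨by linarith, by linarith⟩, ?_, by linarith⟩
  unfold mlt
  split_ifs
  · have := Sml.lt2_ge h s.toSml (Sml.row_ne h s.toSml (i := Aq q D) (j := j) (by omega)
      (by omega) (by omega) (by omega))
    linarith
  · linarith

end

end Pool.Agent.H5.FM
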