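import Mathlib
import Pool.Agent.H5.FM.Near

set_option autoImplicit false
open Set

/-! # The sides of the labelled polygon -/

namespace Pool.Agent.H5.FM

open Pool.Agent.Q1.M4 (Cell)

variable {D : Set ℂ}

/-- the closed side `s` at mesh `ε` -/
def OnS (ε : ℝ) (s : Cell × ℤ) (z : ℂ) : Prop :=
  (s.2 % 4 = 0 ∧ z.im = ε * s.1.2 ∧ ε * s.1.1 ≤ z.re ∧ z.re ≤ ε * (s.1.1 + 1)) ∨
  (s.2 % 4 = 1 ∧ z.re = ε * (s.1.1 + 1) ∧ ε * s.1.2 ≤ z.im ∧ z.im ≤ ε * (s.1.2 + 1)) ∨
  (s.2 % 4 = 2 ∧ z.im = ε * (s.1.2 + 1) ∧ ε * s.1.1 ≤ z.re ∧ z.re ≤ ε * (s.1.1 + 1)) ∨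
  (s.2 % 4 = 3 ∧ z.re = ε * s.1.1 ∧ ε * s.1.2 ≤ z.im ∧ z.im ≤ ε * (s.1.2 + 1))

lemma onS_four {ε : ℝ} {s : Cell × ℤ} {z : ℂ} (t : ℤ) :
    OnS ε (s.1, s.2 - 4 * t) z ↔ OnS ε s z := by
  unfold OnS
  have e : (s.2 - 4 * t) % 4 = s.2 % 4 := by omega
  simp only [e]

variable {ε : ℝ} {i j : ℤ} {z : ℂ}

lemma onS0 (h : OnS ε ((i, j), 0) z) : z.im = ε * j ∧ ε * i ≤ z.re ∧ z.re ≤ ε * (i + 1) := by
  rcases h with h | h | h | h
  · exact h.2
  all_goals exact absurd h.1 (by norm_num)

lemma onS4 (h : OnS ε ((i, j), 4) z) : z.im = ε * j ∧ ε * i ≤ z.re ∧ z.re ≤ ε * (i + 1) := by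
  rcases h with h | h | h | h
  · exact h.2
  all_goals exact absurd h.1 (by norm_num)

lemma onS1 (h : OnS ε ((i, j), 1) z) : z.re = ε * (i + 1) ∧ ε * j ≤ z.im ∧ z.im ≤ ε * (j + 1) := by
  rcases h with h | h | h | h
  · exact absurd h.1 (by norm_num)
  · exact h.2
  all_goals exact absurd h.1 (by norm_num)

lemma onS2 (h : OnS ε ((i, j), 2) z) : z.im = ε * (j + 1) ∧ ε * i ≤ z.re ∧ z.re ≤ ε * (i + 1) := by
  rcases h with h | h | h | h
  · exact absurd h.1 (by norm_num)
  · exact absurd h.1 (by norm_num)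
  · exact h.2
  all_goals exact absurd h.1 (by norm_num)

lemma onS3 (h : OnS ε ((i, j), 3) z) : z.re = ε * i ∧ ε * j ≤ z.im ∧ z.im ≤ ε * (j + 1) := by
  rcases h with h | h | h | h
  · exact absurd h.1 (by norm_num)
  · exact absurd h.1 (by norm_num)
  · exact absurd h.1 (by norm_num)
  · exact h.2

lemma onSm1 (h : OnS ε ((i, j), -1) z) : z.re = ε * i ∧ ε * j ≤ z.im ∧ z.im ≤ ε * (j + 1) := by
  rcases h with h | h | h | h
  · exact absurd h.1 (by norm_num)
  · exact absurd h.1 (by norm_num)
  · exact absurd h.1 (by norm_num)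
  · exact h.2

variable {R r τ κ g : ℝ} {q : Par} {c : Fin 4 → ℝ}

lemma me {ε : ℝ} (hε : 0 < ε) {i j : ℤ} (h : i ≤ j) : ε * (i : ℝ) ≤ ε * j :=
  mul_le_mul_of_nonneg_left (by exact_mod_cast h) hε.le

lemma me1 {ε : ℝ} (hε : 0 < ε) {i j : ℤ} (h : i < j) : ε * ((i : ℝ) + 1) ≤ ε * j :=
  mul_le_mul_of_nonneg_left (by exact_mod_cast h) hε.le

section

variable (h : CD D) (s : Fine D R r τ κ q) (e : ℤ) (he : e = 0 ∨ e = 1) (hg : κ + τ < g)
  (hc : Cuts D g c)
include h s he hg hc

/-- **The sides are near their arcs.** -/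
theorem near_side {sd : Cell × ℤ} {m : ℤ} (hL : (mk h s e he hg hc).Lab sd m) {z : ℂ}
    (hz : OnS q.ε sd z) : Nr D c (4 * κ) m z := by
  have hε := s.ε0
  have hτ := s.τ0
  have hετ := Fine.ετ h s
  have hAB := Sml.A_lt_B h s.toSml
  have hB := abs_le.1 (s.B_near h)
  have hA := abs_le.1 (s.A_near h)
  have hητ := Fine.ητ h s
  have hη0 := mul_pos s.η0 s.R0
  have hlo := fun {i : ℤ} => mlo_le (c := c) h s e (i := i)
  have hup := fun {i : ℤ} => mup_ge (c := c) h s e (i := i)
  cases hL with
  | b0 i h1 h2 =>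
    obtain ⟨z1, z2, z3⟩ := onS0 hz
    have k := hlo h1 h2
    apply near_b h s (i := i) (i1 := i) (i2 := i) h1 h2 h1 h2 (by omega) (by omega) h1 h2 (by omega)
      (by omega)
    · rw [abs_le]; constructor <;> linarith
    · rw [z1]; exact me hε k.1
    · rw [z1]; exact me hε k.2
  | bo i j h1 h2 h3 h4 =>
    obtain ⟨z1, z2, z3⟩ := onSm1 hz
    push_cast at z1
    have k := hlo h1 (by have : i + 1 < Bq q D := h2; omega)
    have k' := hlo (i := i + 1) (by have : Aq q D ≤ i := h1; omega) h2
    have k3 := me hε (k'.1.trans h3)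
    have k4 := me1 hε h4
    have k5 := me hε k.2
    apply near_b h s (i := i) (i1 := i + 1) (i2 := i) h1
      (by have : i + 1 < Bq q D := h2; omega) (by have : Aq q D ≤ i := h1; omega) h2 (by omega)
      (by omega) h1 (by have : i + 1 < Bq q D := h2; omega) (by omega) (by omega)
    · rw [abs_le]; constructor <;> linarith
    · linarith
    · have e4 : (mk h s e he hg hc).lo i = mlo q D c e i := rfl
      rw [e4] at k4
      linarith
  | bi i j h1 h2 h3 h4 =>
    obtain ⟨z1, z2, z3⟩ := onS1 hz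
    have k := hlo h1 (by have : i + 1 < Bq q D := h2; omega)
    have k' := hlo (i := i + 1) (by have : Aq q D ≤ i := h1; omega) h2
    have k3 := me hε (k.1.trans h3)
    have k4 := me1 hε h4
    have k5 := me hε k'.2
    apply near_b h s (i := i + 1) (i1 := i) (i2 := i + 1) (by have : Aq q D ≤ i := h1; omega) h2
      h1 (by have : i + 1 < Bq q D := h2; omega) (by omega) (by omega)
      (by have : Aq q D ≤ i := h1; omega) h2 (by omega) (by omega)
    · push_cast; rw [z1, abs_le]; constructor <;> linarith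
    · linarith
    · have e4 : (mk h s e he hg hc).lo (i + 1) = mlo q D c e (i + 1) := rfl
      rw [e4] at k4
      linarith
  | c1 i h1 h2 =>
    obtain ⟨z1, z2, z3⟩ := onS0 hz
    have k := hlo (i := Bq q D - 1) (by omega) (by omega)
    have k1 := hup (i := Bq q D - 1) (by omega) (by omega)
    have k2 := Sml.lo1_lt_up1 h s.toSml (i := Bq q D - 1) (by omega) (by omega)
    have e1 : (mk h s e he hg hc).r1 = mlo q D c e (Bq q D - 1) := rfl
    rw [e1] at z1 h2
    have k3 := rowR (c := c) h s e (j := mlo q D c e (Bq q D - 1)) le_rfl (by omega)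
    have k4 := me hε (show Bq q D ≤ i from h1)
    have k5 := me1 hε (show i < mrt q D c e (mlo q D c e (Bq q D - 1)) from h2)
    have e2 : q.ε * ((Bq q D - 1 : ℤ) : ℝ) = q.ε * Bq q D - q.ε := by push_cast; ring
    apply near_b h s (i := Bq q D - 1) (i1 := Bq q D - 1) (i2 := Bq q D - 1) (by omega) (by omega)
      (by omega) (by omega) (by omega) (by omega) (by omega) (by omega) (by omega) (by omega)
    · rw [e2, abs_le]; constructor <;> linarith
    · rw [z1]; exact me hε k.1
    · rw [z1]; exact me hε k.2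
  | r0 j h1 h2 =>
    obtain ⟨z1, z2, z3⟩ := onS1 hz
    have k3 := rowR (c := c) h s e (j := j) h1 h2
    have k4 := me hε (mrt_ge (q := q) (D := D) (c := c) e j)
    have e1 : q.ε * ((((mk h s e he hg hc).rt j - 1 : ℤ) : ℝ) + 1) = q.ε * mrt q D c e j := by
      push_cast
      have : (mk h s e he hg hc).rt j = mrt q D c e j := rfl
      rw [this]; ring
    rw [e1] at z1
    apply near_r h s
    · rw [z1, abs_le]; constructor <;> linarith
    · rw [abs_le]; constructor <;> linarith
    · exact k3.1.1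
    · linarith [k3.1.2]
  | ro i j h1 h2 h3 h4 =>
    obtain ⟨z1, z2, z3⟩ := onS0 hz
    have e2 : (mk h s e he hg hc).r2 = mup q D c e (Bq q D - 1) := rfl
    have e1 : (mk h s e he hg hc).r1 = mlo q D c e (Bq q D - 1) := rfl
    rw [e2] at h2
    rw [e1] at h1
    have k3 := rowR (c := c) h s e (j := j) h1 (by omega)
    have k3' := rowR (c := c) h s e (j := j + 1) (by omega) h2
    have k4 := me hε ((mrt_ge (q := q) (D := D) (c := c) e j).trans h3)
    have k5 := me1 hε (show i < mrt q D c e (j + 1) from h4)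
    push_cast at z1
    apply near_r h s
    · rw [abs_le]; constructor <;> linarith
    · rw [abs_le]; constructor <;> linarith
    · exact k3.1.1
    · linarith [k3.1.2]
  | ri i j h1 h2 h3 h4 =>
    obtain ⟨z1, z2, z3⟩ := onS2 hz
    have e2 : (mk h s e he hg hc).r2 = mup q D c e (Bq q D - 1) := rfl
    have e1 : (mk h s e he hg hc).r1 = mlo q D c e (Bq q D - 1) := rfl
    rw [e2] at h2
    rw [e1] at h1
    have k3 := rowR (c := c) h s e (j := j) h1 (by omega)
    have k3' := rowR (c := c) h s e (j := j + 1) (by omega) h2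
    have k4 := me hε ((mrt_ge (q := q) (D := D) (c := c) e (j + 1)).trans h3)
    have k5 := me1 hε (show i < mrt q D c e j from h4)
    apply near_r h s
    · rw [abs_le]; constructor <;> linarith
    · push_cast; rw [z1, abs_le]; constructor <;> linarith
    · exact k3'.1.1
    · linarith [k3'.1.2]
  | c2 i h1 h2 =>
    obtain ⟨z1, z2, z3⟩ := onS2 hz
    have e2 : (mk h s e he hg hc).r2 = mup q D c e (Bq q D - 1) := rfl
    rw [e2] at z1 h2
    have k := hlo (i := Bq q D - 1) (by omega) (by omega)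
    have k1 := hup (i := Bq q D - 1) (by omega) (by omega)
    have k2 := Sml.lo1_lt_up1 h s.toSml (i := Bq q D - 1) (by omega) (by omega)
    have k3 := rowR (c := c) h s e (j := mup q D c e (Bq q D - 1) - 1) (by omega) (by omega)
    have k4 := me hε (show Bq q D ≤ i from h1)
    have k5 := me1 hε (show i < mrt q D c e (mup q D c e (Bq q D - 1) - 1) from h2)
    have e3 : q.ε * ((Bq q D - 1 : ℤ) : ℝ) = q.ε * Bq q D - q.ε := by push_cast; ring
    have z1' : z.im = q.ε * mup q D c e (Bq q D - 1) := by rw [z1]; push_cast; ring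
    apply near_t h s (i := Bq q D - 1) (i1 := Bq q D - 1) (i2 := Bq q D - 1) (by omega) (by omega)
      (by omega) (by omega) (by omega) (by omega) (by omega) (by omega) (by omega) (by omega)
    · rw [e3, abs_le]; constructor <;> linarith
    · rw [z1']; exact me hε k1.1
    · rw [z1']; exact me hε k1.2
  | t0 i h1 h2 =>
    obtain ⟨z1, z2, z3⟩ := onS2 hz
    have k := hup h1 h2
    have z1' : z.im = q.ε * mup q D c e i := by
      rw [z1]
      have : (mk h s e he hg hc).up i = mup q D c e i := rfl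
      rw [this]; push_cast; ring
    apply near_t h s (i := i) (i1 := i) (i2 := i) h1 h2 h1 h2 (by omega) (by omega) h1 h2 (by omega)
      (by omega)
    · rw [abs_le]; constructor <;> linarith
    · rw [z1']; exact me hε k.1
    · rw [z1']; exact me hε k.2
  | tu i j h1 h2 h3 h4 =>
    obtain ⟨z1, z2, z3⟩ := onS1 hz
    have k := hup h1 (by have : i + 1 < Bq q D := h2; omega)
    have k' := hup (i := i + 1) (by have : Aq q D ≤ i := h1; omega) h2
    have k3 := me hε (k'.1.trans h3)
    have k4 := me1 hε h4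
    have k5 := me hε k.2
    apply near_t h s (i := i + 1) (i1 := i + 1) (i2 := i) (by have : Aq q D ≤ i := h1; omega) h2
      (by have : Aq q D ≤ i := h1; omega) h2 (by omega) (by omega) h1
      (by have : i + 1 < Bq q D := h2; omega) (by omega) (by omega)
    · push_cast; rw [z1, abs_le]; constructor <;> linarith
    · linarith
    · have e4 : (mk h s e he hg hc).up i = mup q D c e i := rfl
      rw [e4] at k4
      linarith
  | ti i j h1 h2 h3 h4 =>
    obtain ⟨z1, z2, z3⟩ := onS3 hz
    push_cast at z1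
    have k := hup h1 (by have : i + 1 < Bq q D := h2; omega)
    have k' := hup (i := i + 1) (by have : Aq q D ≤ i := h1; omega) h2
    have k3 := me hε (k.1.trans h3)
    have k4 := me1 hε h4
    have k5 := me hε k'.2
    apply near_t h s (i := i) (i1 := i) (i2 := i + 1) h1
      (by have : i + 1 < Bq q D := h2; omega) h1 (by have : i + 1 < Bq q D := h2; omega) (by omega)
      (by omega) (by have : Aq q D ≤ i := h1; omega) h2 (by omega) (by omega)
    · rw [z1, abs_le]; constructor <;> linarith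
    · linarith
    · have e4 : (mk h s e he hg hc).up (i + 1) = mup q D c e (i + 1) := rfl
      rw [e4] at k4
      linarith
  | c3 i h1 h2 =>
    obtain ⟨z1, z2, z3⟩ := onS2 hz
    have e2 : (mk h s e he hg hc).l2 = mup q D c e (Aq q D) := rfl
    have e4 : (mk h s e he hg hc).a = Aq q D := rfl
    rw [e2] at z1 h1
    rw [e4] at h2
    have k := hlo (i := Aq q D) (by omega) (by omega)
    have k1 := hup (i := Aq q D) (by omega) (by omega)
    have k2 := Sml.lo1_lt_up1 h s.toSml (i := Aq q D) (by omega) (by omega)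
    have k3 := rowL (c := c) h s e (j := mup q D c e (Aq q D) - 1) (by omega) (by omega)
    have k4 := me1 hε h2
    have k5 := me hε (show mlt q D c e (mup q D c e (Aq q D) - 1) ≤ i from h1)
    have z1' : z.im = q.ε * mup q D c e (Aq q D) := by rw [z1]; push_cast; ring
    apply near_t h s (i := Aq q D) (i1 := Aq q D) (i2 := Aq q D) (by omega) (by omega)
      (by omega) (by omega) (by omega) (by omega) (by omega) (by omega) (by omega) (by omega)
    · rw [abs_le]; constructor <;> linarith
    · rw [z1']; exact me hε k1.1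
    · rw [z1']; exact me hε k1.2
  | l0 j h1 h2 =>
    obtain ⟨z1, z2, z3⟩ := onS3 hz
    have k3 := rowL (c := c) h s e (j := j) h1 h2
    have k4 := me hε (mlt_le (q := q) (D := D) (c := c) e j)
    have e1 : (mk h s e he hg hc).lt j = mlt q D c e j := rfl
    rw [e1] at z1
    have e5 : q.ε * ((j : ℝ) + 1) = q.ε * j + q.ε := by ring
    apply near_l h s
    · rw [z1, abs_le]; constructor <;> linarith
    · rw [abs_le]; constructor <;> linarith
    · rw [e5]; linarith [k3.1.1]
    · rw [e5]; exact k3.1.2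
  | lo i j h1 h2 h3 h4 =>
    obtain ⟨z1, z2, z3⟩ := onS2 hz
    have e2 : (mk h s e he hg hc).l2 = mup q D c e (Aq q D) := rfl
    have e1 : (mk h s e he hg hc).l1 = mlo q D c e (Aq q D) := rfl
    rw [e2] at h2
    rw [e1] at h1
    have k3 := rowL (c := c) h s e (j := j) h1 (by omega)
    have k3' := rowL (c := c) h s e (j := j + 1) (by omega) h2
    have k4 := me1 hε (lt_of_lt_of_le h4 (mlt_le (q := q) (D := D) (c := c) e (j + 1)))
    have k5 := me hε (show mlt q D c e j ≤ i from h3)
    have e5 : q.ε * (((j + 1 : ℤ) : ℝ) + 1) = q.ε * j + 2 * q.ε := by push_cast; ring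
    have e6 : q.ε * ((j + 1 : ℤ) : ℝ) = q.ε * j + q.ε := by push_cast; ring
    rw [e6] at k3'
    apply near_l h s
    · rw [abs_le]; constructor <;> linarith
    · rw [e5, z1, abs_le]; constructor <;> linarith
    · rw [e5]; linarith [k3'.1.1]
    · rw [e5]; linarith [k3'.1.2]
  | li i j h1 h2 h3 h4 =>
    obtain ⟨z1, z2, z3⟩ := onS4 hz
    have e2 : (mk h s e he hg hc).l2 = mup q D c e (Aq q D) := rfl
    have e1 : (mk h s e he hg hc).l1 = mlo q D c e (Aq q D) := rfl
    rw [e2] at h2
    rw [e1] at h1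
    have k3 := rowL (c := c) h s e (j := j) h1 (by omega)
    have k3' := rowL (c := c) h s e (j := j + 1) (by omega) h2
    have k4 := me1 hε (lt_of_lt_of_le h4 (mlt_le (q := q) (D := D) (c := c) e j))
    have k5 := me hε (show mlt q D c e (j + 1) ≤ i from h3)
    have e5 : q.ε * ((j : ℝ) + 1) = q.ε * j + q.ε := by ring
    have e6 : q.ε * ((j + 1 : ℤ) : ℝ) = q.ε * j + q.ε := by push_cast; ring
    rw [e6] at z1
    apply near_l h s
    · rw [abs_le]; constructor <;> linarith
    · rw [e5, z1, abs_le]; constructor <;> linarith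
    · rw [e5]; linarith [k3.1.1]
    · rw [e5]; exact k3.1.2
  | c4 i h1 h2 =>
    obtain ⟨z1, z2, z3⟩ := onS4 hz
    have e1 : (mk h s e he hg hc).l1 = mlo q D c e (Aq q D) := rfl
    have e4 : (mk h s e he hg hc).a = Aq q D := rfl
    rw [e1] at z1 h1
    rw [e4] at h2
    have k := hlo (i := Aq q D) (by omega) (by omega)
    have k1 := hup (i := Aq q D) (by omega) (by omega)
    have k2 := Sml.lo1_lt_up1 h s.toSml (i := Aq q D) (by omega) (by omega)
    have k3 := rowL (c := c) h s e (j := mlo q D c e (Aq q D)) (by omega) (by omega)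
    have k4 := me1 hε h2
    have k5 := me hε (show mlt q D c e (mlo q D c e (Aq q D)) ≤ i from h1)
    apply near_4 h s hc
    · rw [abs_le]; constructor <;> linarith
    · rw [z1]; exact me hε k.1
    · rw [z1]; exact me hε k.2

end

end Pool.Agent.H5.FM
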