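import Mathlib
import Pool.Agent.H5.FM.Side
import Pool.Agent.H21.FM.Defs

set_option autoImplicit false
open Set

/-! # Position of a shape with respect to a domain with two arcs

`T0 e z1` maps the plane of the cells of a shape to the plane of the domain. `UpG`: the free arcs I, III
of the shape are outside of `D`, the wired arcs II, IV are inside, near the arcs `A`, `B`. `LoG`: the
wired arcs are outside, near `A`, `B`, and the free arcs are inside. -/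

namespace Pool.Agent.H5.FM

open Pool.Agent.Q1.M4 (Cell Reg Om)
open Pool.Agent.H21.FM

/-- cell frame to domain frame -/
noncomputable def T0 (e : ℝ) (z1 : ℂ) (z : ℂ) : ℂ := (e : ℂ) * ((1 + Complex.I) * z) + z1

/-- position of the shape for the upper bound of the crossing probability -/
structure UpG (S : Shape) (e : ℝ) (z1 : ℂ) (D A B : Set ℂ) (ρ : ℝ) (N2 N4 : Set ℂ) : Prop where
  e0 : 0 < e
  ρ0 : 0 < ρ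
  cov : ∀ z w, w ∈ D → ‖T0 e z1 z - w‖ < ρ →
    z ∉ Om S.P.Q (fun i : ℤ => (i : ℝ)) (fun i : ℤ => (i : ℝ)) → T0 e z1 z ∈ N2 ∨ T0 e z1 z ∈ N4
  free : ∀ i, S.Fr i → ∀ z, OnS 1 (S.P.side i) z → ∀ w ∈ D, ρ ≤ ‖T0 e z1 z - w‖
  two : ∀ i, S.m2 ≤ i → i < S.m3 → ∀ z, OnS 1 (S.P.side i) z → T0 e z1 z ∈ N2
  four : ∀ i, S.m4 ≤ i → i < S.N → ∀ z, OnS 1 (S.P.side i) z → T0 e z1 z ∈ N4
  sep : ∀ z ∈ N2, ∀ w ∈ N4, ρ ≤ ‖z - w‖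
  A2 : A ⊆ N2
  B4 : B ⊆ N4
  Ar : ∀ a ∈ A, ∀ z ∈ Reg S.P.Q (fun i : ℤ => (i : ℝ)) (fun i : ℤ => (i : ℝ)), ρ ≤ ‖T0 e z1 z - a‖
  Br : ∀ b ∈ B, ∀ z ∈ Reg S.P.Q (fun i : ℤ => (i : ℝ)) (fun i : ℤ => (i : ℝ)), ρ ≤ ‖T0 e z1 z - b‖

/-- position of the shape for the lower bound of the crossing probability -/
structure LoG (S : Shape) (e : ℝ) (z1 : ℂ) (D A B : Set ℂ) (ρ : ℝ) (N2 N4 : Set ℂ) : Prop where
  e0 : 0 < e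
  ρ0 : 0 < ρ
  cov : ∀ z ∈ Reg S.P.Q (fun i : ℤ => (i : ℝ)) (fun i : ℤ => (i : ℝ)),
    (∀ w, ‖w - T0 e z1 z‖ < ρ → w ∈ D) ∨ T0 e z1 z ∈ N2 ∨ T0 e z1 z ∈ N4
  two : ∀ i, S.m2 ≤ i → i < S.m3 → ∀ z, OnS 1 (S.P.side i) z →
    T0 e z1 z ∈ N2 ∧ ∀ w ∈ D, ρ ≤ ‖T0 e z1 z - w‖
  four : ∀ i, S.m4 ≤ i → i < S.N → ∀ z, OnS 1 (S.P.side i) z →
    T0 e z1 z ∈ N4 ∧ ∀ w ∈ D, ρ ≤ ‖T0 e z1 z - w‖
  sep : ∀ z ∈ N2, ∀ w ∈ N4, ρ ≤ ‖z - w‖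
  A2 : ∀ p ∈ frontier D, ∀ z ∈ N2, ‖p - z‖ < ρ → p ∈ A
  B4 : ∀ p ∈ frontier D, ∀ z ∈ N4, ‖p - z‖ < ρ → p ∈ B

end Pool.Agent.H5.FM
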