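import Mathlib
import Pool.Agent.H5.FM.Side

set_option autoImplicit false
open Set

/-! # The outer sides do not meet the domain -/

namespace Pool.Agent.H5.FM

open Pool.Agent.Q1.M4 (Cell)

variable {D : Set ℂ} {R r τ κ g : ℝ} {q : Par} {c : Fin 4 → ℝ}

section

variable (h : CD D) (s : Fine D R r τ κ q) (e : ℤ) (he : e = 0 ∨ e = 1) (hg : κ + τ < g)
  (hc : Cuts D g c)
include h s he hg hc

/-- **The outer sides are outside of the thickened domain.** -/
theorem out_side {sd : Cell × ℤ} {m : ℤ} (hL : (mk h s e he hg hc).Lab sd m) (hm : m % 2 = e) {z : ℂ}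
    (hz : OnS q.ε sd z) : z ∉ th q.θ D := by
  intro hD
  have hε := s.ε0
  have hAB := Sml.A_lt_B h s.toSml
  cases hL with
  | b0 i h1 h2 =>
    obtain ⟨z1, z2, z3⟩ := onS0 hz
    have e1 : (mk h s e he hg hc).lo i = lo2 q D i := if_pos hm
    have := Sml.lo2_lt h s.toSml (i := i) (x := z.re) (y := z.im) z2 z3 hD
    rw [e1] at z1
    linarith
  | bo i j h1 h2 h3 h4 =>
    obtain ⟨z1, z2, z3⟩ := onSm1 hz
    push_cast at z1
    have e1 : (mk h s e he hg hc).lo i = lo2 q D i := if_pos hm
    have k4 := me1 hε h4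
    rw [e1] at k4
    have := Sml.lo2_lt h s.toSml (i := i) (x := z.re) (y := z.im) (by linarith) (by linarith) hD
    linarith
  | bi i j h1 h2 h3 h4 =>
    obtain ⟨z1, z2, z3⟩ := onS1 hz
    have e1 : (mk h s e he hg hc).lo (i + 1) = lo2 q D (i + 1) := if_pos hm
    have k4 := me1 hε h4
    rw [e1] at k4
    have := Sml.lo2_lt h s.toSml (i := i + 1) (x := z.re) (y := z.im) (by push_cast; linarith)
      (by push_cast; linarith) hD
    linarith
  | c1 i h1 h2 =>
    obtain ⟨z1, z2, z3⟩ := onS0 hz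
    have e1 : (mk h s e he hg hc).r1 = lo2 q D (Bq q D - 1) := if_pos hm
    rw [e1] at z1
    have k4 := me hε (show Bq q D ≤ i from h1)
    have := (Sml.right_row h s.toSml hD (by linarith)).1
    linarith
  | r0 j h1 h2 =>
    obtain ⟨z1, z2, z3⟩ := onS1 hz
    have e1 : (mk h s e he hg hc).rt j = rt2 q D j := if_pos hm
    rw [e1] at z1
    have := Sml.lt_rt2 h s.toSml (j := j) (x := z.re) (y := z.im) z2 z3 hD
    push_cast at z1
    linarith
  | ro i j h1 h2 h3 h4 =>
    obtain ⟨z1, z2, z3⟩ := onS0 hz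
    have e1 : (mk h s e he hg hc).rt j = rt2 q D j := if_pos hm
    rw [e1] at h3
    push_cast at z1
    have := Sml.lt_rt2 h s.toSml (j := j) (x := z.re) (y := z.im) (by linarith) (by linarith) hD
    have k := me hε h3
    linarith
  | ri i j h1 h2 h3 h4 =>
    obtain ⟨z1, z2, z3⟩ := onS2 hz
    have e1 : (mk h s e he hg hc).rt (j + 1) = rt2 q D (j + 1) := if_pos hm
    rw [e1] at h3
    have := Sml.lt_rt2 h s.toSml (j := j + 1) (x := z.re) (y := z.im) (by push_cast; linarith)
      (by push_cast; linarith) hD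
    have k := me hε h3
    linarith
  | c2 i h1 h2 =>
    obtain ⟨z1, z2, z3⟩ := onS2 hz
    have e1 : (mk h s e he hg hc).r2 = up2 q D (Bq q D - 1) := if_pos hm
    rw [e1] at z1
    have k4 := me hε (show Bq q D ≤ i from h1)
    have := (Sml.right_row h s.toSml hD (by linarith)).2
    push_cast at z1
    linarith
  | t0 i h1 h2 =>
    obtain ⟨z1, z2, z3⟩ := onS2 hz
    have e1 : (mk h s e he hg hc).up i = up2 q D i := if_pos hm
    have := Sml.lt_up2 h s.toSml (i := i) (x := z.re) (y := z.im) z2 z3 hD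
    rw [e1] at z1
    push_cast at z1
    linarith
  | tu i j h1 h2 h3 h4 =>
    obtain ⟨z1, z2, z3⟩ := onS1 hz
    have e1 : (mk h s e he hg hc).up (i + 1) = up2 q D (i + 1) := if_pos hm
    rw [e1] at h3
    have k4 := me hε h3
    have := Sml.lt_up2 h s.toSml (i := i + 1) (x := z.re) (y := z.im) (by push_cast; linarith)
      (by push_cast; linarith) hD
    linarith
  | ti i j h1 h2 h3 h4 =>
    obtain ⟨z1, z2, z3⟩ := onS3 hz
    push_cast at z1
    have e1 : (mk h s e he hg hc).up i = up2 q D i := if_pos hm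
    rw [e1] at h3
    have k4 := me hε h3
    have := Sml.lt_up2 h s.toSml (i := i) (x := z.re) (y := z.im) (by linarith) (by linarith) hD
    linarith
  | c3 i h1 h2 =>
    obtain ⟨z1, z2, z3⟩ := onS2 hz
    have e1 : (mk h s e he hg hc).l2 = up2 q D (Aq q D) := if_pos hm
    rw [e1] at z1
    have k4 := me1 hε (show i < Aq q D from h2)
    have := (Sml.left_row h s.toSml hD (by linarith)).2
    push_cast at z1
    linarith
  | l0 j h1 h2 =>
    obtain ⟨z1, z2, z3⟩ := onS3 hz
    have e1 : (mk h s e he hg hc).lt j = lt2 q D j := if_pos hm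
    rw [e1] at z1
    have := Sml.gt_lt2 h s.toSml (j := j) (x := z.re) (y := z.im) z2 z3 hD
    linarith
  | lo i j h1 h2 h3 h4 =>
    obtain ⟨z1, z2, z3⟩ := onS2 hz
    have e1 : (mk h s e he hg hc).lt (j + 1) = lt2 q D (j + 1) := if_pos hm
    rw [e1] at h4
    have := Sml.gt_lt2 h s.toSml (j := j + 1) (x := z.re) (y := z.im) (by push_cast; linarith)
      (by push_cast; linarith) hD
    have k := me1 hε h4
    linarith
  | li i j h1 h2 h3 h4 =>
    obtain ⟨z1, z2, z3⟩ := onS4 hz
    have e1 : (mk h s e he hg hc).lt j = lt2 q D j := if_pos hm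
    rw [e1] at h4
    push_cast at z1
    have := Sml.gt_lt2 h s.toSml (j := j) (x := z.re) (y := z.im) (by linarith) (by linarith) hD
    have k := me1 hε h4
    linarith
  | c4 i h1 h2 =>
    obtain ⟨z1, z2, z3⟩ := onS4 hz
    have e0 := h0_step h s hg hc
    have e1 : (mk h s e he hg hc).l1 = lo2 q D (Aq q D) := by
      show mlo q D c e (Aq q D) = _
      unfold mlo
      rw [if_pos (by rw [e0]; omega)]
    rw [e1] at z1
    have k4 := me1 hε (show i < Aq q D from h2)
    have := (Sml.left_row h s.toSml hD (by linarith)).1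
    linarith

end

end Pool.Agent.H5.FM
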