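import Mathlib
import Pool.Agent.H5.FM.Out

set_option autoImplicit false
open Set

/-! # The region of the labelled polygon -/

namespace Pool.Agent.H5.FM

open Pool.Agent.Q1.M4 (Cell rect Reg Om mem_Om)

variable {D : Set ℂ} {R r τ κ g : ℝ} {q : Par} {c : Fin 4 → ℝ}

/-- grid lines -/
noncomputable def gr (ε : ℝ) (i : ℤ) : ℝ := ε * i

lemma gr_mono {ε : ℝ} (hε : 0 < ε) : StrictMono (gr ε) := by
  intro i j hij
  have : (i : ℝ) < j := by exact_mod_cast hij
  exact mul_lt_mul_of_pos_left this hε

lemma mem_rect' {ε : ℝ} {i j : ℤ} {z : ℂ} : z ∈ rect (gr ε) (gr ε) (i, j) ↔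
    (ε * i ≤ z.re ∧ z.re ≤ ε * (i + 1)) ∧ (ε * j ≤ z.im ∧ z.im ≤ ε * (j + 1)) := by
  unfold rect gr
  simp only [mem_ofPred_eq]
  push_cast
  exact Iff.rfl

lemma exists_rect {ε : ℝ} (hε : 0 < ε) (z : ℂ) : ∃ c : Cell, z ∈ rect (gr ε) (gr ε) c := by
  refine ⟨(⌊z.re / ε⌋, ⌊z.im / ε⌋), mem_rect'.2 ?_⟩
  have h1 := Int.floor_le (z.re / ε)
  have h2 := (Int.lt_floor_add_one (z.re / ε)).le
  have h3 := Int.floor_le (z.im / ε)
  have h4 := (Int.lt_floor_add_one (z.im / ε)).le
  rw [le_div_iff₀ hε] at h1 h3
  rw [div_le_iff₀ hε] at h2 h4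
  refine ⟨⟨?_, ?_⟩, ?_, ?_⟩ <;> linarith

lemma not_Om {ε : ℝ} (hε : 0 < ε) {Q : Finset Cell} {z : ℂ} (hz : z ∉ Om Q (gr ε) (gr ε)) :
    ∃ c : Cell, z ∈ rect (gr ε) (gr ε) c ∧ c ∉ Q := by
  by_contra hcon
  push Not at hcon
  obtain ⟨c, hc⟩ := exists_rect hε z
  exact hz ((mem_Om (gr_mono hε) (gr_mono hε)).2 ⟨⟨c, hcon c hc, hc⟩, hcon⟩)

section

variable (h : CD D) (s : Fine D R r τ κ q)
include h s

/-- points of the inner columns are close to the inner domain -/
lemma inner_pt {i : ℤ} (h1 : Aq q D ≤ i) (h2 : i < Bq q D) {x y : ℝ} (hx1 : q.ε * i ≤ x)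
    (hx2 : x ≤ q.ε * (i + 1)) (hy1 : q.ε * lo1 q D i ≤ y) (hy2 : y ≤ q.ε * up1 q D i) :
    ∃ w ∈ sc q.η D, |x - w.re| ≤ q.ε ∧ |y - w.im| < 3 * q.ε ∧ q.ε * i ≤ w.re ∧
      w.re ≤ q.ε * (i + 1) := by
  have hε := s.ε0
  have hne := Sml.pr1_ne h s.toSml h1 h2
  have hb1 := Sml.lo1_bound s.toSml (D := D) i
  have hb2 := Sml.lo1_bound s.toSml.cj (D := cj D) i
  set I := sInf (pr (sc q.η D) (q.ε * i) (q.ε * (i + 1))) with hI
  set J := sSup (pr (sc q.η D) (q.ε * i) (q.ε * (i + 1))) with hJ
  have hJ' : sInf (pr (sc q.η (cj D)) (q.ε * i) (q.ε * (i + 1))) = -J := by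
    have e : pr (sc q.η (cj D)) (q.ε * i) (q.ε * (i + 1)) =
        -pr (sc q.η D) (q.ε * i) (q.ε * (i + 1)) := by
      rw [sc_cj]
      ext y
      rw [Set.mem_neg]
      constructor
      · rintro ⟨x, g1, g2, g3⟩
        exact ⟨x, g1, g2, mem_cj.1 g3⟩
      · rintro ⟨x, g1, g2, g3⟩
        exact ⟨x, g1, g2, mem_cj.2 g3⟩
    rw [e, Real.sInf_def, neg_neg]
  rw [hJ'] at hb2
  have hup : (lo1 q (cj D) i : ℝ) = -(up1 q D i : ℝ) := by unfold up1; push_cast; ring
  rw [hup] at hb2
  obtain ⟨y0, hy0⟩ := hne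
  have hIJ := ((Sml.cd1 h s.toSml).mem_pr ⟨y0, hy0⟩ y0).1 hy0
  obtain ⟨y', hy1', hy2', hy3'⟩ : ∃ y', I < y' ∧ y' < J ∧ |y - y'| < 3 * q.ε := by
    rcases le_or_gt y I with g1 | g1
    · obtain ⟨y', a1, a2⟩ := exists_between (show I < min J (I + q.ε) from
        lt_min (by linarith [hIJ.1, hIJ.2]) (by linarith))
      rw [lt_min_iff] at a2
      refine ⟨y', a1, a2.1, ?_⟩
      rw [abs_lt]; constructor <;> linarith [a2.2]
    · rcases lt_or_ge y J with g2 | g2
      · exact ⟨y, g1, g2, by rw [sub_self, abs_zero]; linarith⟩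
      · obtain ⟨y', a1, a2⟩ := exists_between (show max I (J - q.ε) < J from
          max_lt (by linarith [hIJ.1, hIJ.2]) (by linarith))
        rw [max_lt_iff] at a1
        refine ⟨y', a1.1, a2, ?_⟩
        rw [abs_lt]; constructor <;> linarith [a1.2]
  obtain ⟨x', k1, k2, k3⟩ := ((Sml.cd1 h s.toSml).mem_pr ⟨y0, hy0⟩ y').2 ⟨hy1', hy2'⟩
  refine ⟨⟨x', y'⟩, k3, ?_, hy3', k1, k2⟩
  simp only
  rw [abs_le]; constructor <;> linarith

lemma inner_ball {i : ℤ} (h1 : Aq q D ≤ i) (h2 : i < Bq q D) {z : ℂ} (hx1 : q.ε * i ≤ z.re)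
    (hx2 : z.re ≤ q.ε * (i + 1)) (hy1 : q.ε * lo1 q D i ≤ z.im) (hy2 : z.im ≤ q.ε * up1 q D i) :
    ∀ w, ‖w - z‖ < q.η * r / 2 → w ∈ D := by
  intro w hw
  obtain ⟨u, ⟨v, hv, rfl⟩, k1, k2, -, -⟩ := inner_pt h s h1 h2 hx1 hx2 hy1 hy2
  have hu : ‖w - ((1 - q.η : ℝ) : ℂ) * v‖ < q.η * r := by
    have e1 : w - ((1 - q.η : ℝ) : ℂ) * v = (w - z) + (z - ((1 - q.η : ℝ) : ℂ) * v) := by ring
    have e2 : ‖z - ((1 - q.η : ℝ) : ℂ) * v‖ ≤ 4 * q.ε := by
      have := Complex.norm_le_abs_re_add_abs_im (z - ((1 - q.η : ℝ) : ℂ) * v)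
      rw [Complex.sub_re, Complex.sub_im] at this
      linarith
    have e3 := norm_add_le (w - z) (z - ((1 - q.η : ℝ) : ℂ) * v)
    rw [e1]
    linarith [s.hε]
  have := h.scale_add s.r0 s.hr s.η0 (by linarith [s.η1]) hv hu
  rwa [add_sub_cancel] at this

variable (e : ℤ) (he : e = 0 ∨ e = 1) (hg : κ + τ < g) (hc : Cuts D g c)
include e he hg hc

/-- **The closed region**: inner points and points near the outer arcs. -/
theorem region1 {z : ℂ} (hz : z ∈ Reg (mk h s e he hg hc).Q (gr q.ε) (gr q.ε)) :
    (∀ w, ‖w - z‖ < q.η * r / 2 → w ∈ D) ∨ ∃ m : ℤ, m % 2 = e ∧ Nr D c (4 * κ) m z := by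
  have hε := s.ε0
  have hτ := s.τ0
  have hετ := Fine.ετ h s
  have hAB := Sml.A_lt_B h s.toSml
  have hB := abs_le.1 (s.B_near h)
  have hA := abs_le.1 (s.A_near h)
  have hητ := Fine.ητ h s
  have hη0 := mul_pos s.η0 s.R0
  obtain ⟨⟨i, j⟩, hQ, hzr⟩ := hz
  obtain ⟨⟨x1, x2⟩, y1, y2⟩ := mem_rect'.1 hzr
  rw [Prof.mem_Q] at hQ
  rcases hQ with ⟨⟨h1, h2⟩, h3, h4⟩ | ⟨⟨h1, h2⟩, h3, h4⟩ | ⟨⟨h1, h2⟩, h3, h4⟩
  · have h3' : mlo q D c e i ≤ j := h3
    have h4' : j < mup q D c e i := h4
    have k := mlo_le (c := c) h s e (i := i) h1 h2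
    have k' := mup_ge (c := c) h s e (i := i) h1 h2
    rcases lt_or_ge z.im (q.ε * lo1 q D i) with g1 | g1
    · right
      refine ⟨cnt c (sbp q D i), ?_, ?_⟩
      · by_contra hcon
        have e1 : mlo q D c e i = lo1 q D i := if_neg hcon
        have := me hε (e1 ▸ h3')
        linarith
      · apply near_b h s (i := i) (i1 := i) (i2 := i) h1 h2 h1 h2 (by omega) (by omega) h1 h2
          (by omega) (by omega)
        · rw [abs_le]; constructor <;> linarith
        · have := me hε (k.1.trans h3')
          linarith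
        · exact g1.le
    · rcases lt_or_ge (q.ε * up1 q D i) z.im with g2 | g2
      · right
        refine ⟨cnt c (stp q D i), ?_, ?_⟩
        · by_contra hcon
          have e1 : mup q D c e i = up1 q D i := if_neg hcon
          have := me1 hε (e1 ▸ h4')
          linarith
        · apply near_t h s (i := i) (i1 := i) (i2 := i) h1 h2 h1 h2 (by omega) (by omega) h1 h2
            (by omega) (by omega)
          · rw [abs_le]; constructor <;> linarith
          · exact g2.le
          · have := me1 hε (lt_of_lt_of_le h4' k'.2)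
            linarith
      · left
        exact inner_ball h s h1 h2 x1 x2 g1 g2
  · have h2' : i < mrt q D c e j := h2
    have h1' : Bq q D ≤ i := h1
    right
    refine ⟨cnt c (srp q D j), ?_, ?_⟩
    · by_contra hcon
      have e1 : mrt q D c e j = Bq q D := if_neg hcon
      omega
    · have k3 := rowR (c := c) h s e (j := j) h3 h4
      have k4 := me hε h1'
      have k5 := me1 hε h2'
      apply near_r h s
      · rw [abs_le]; constructor <;> linarith
      · rw [abs_le]; constructor <;> linarith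
      · exact k3.1.1
      · linarith [k3.1.2]
  · have h2' : mlt q D c e j ≤ i := h2
    have h1' : i < Aq q D := h1
    right
    refine ⟨cnt c (slp q D j), ?_, ?_⟩
    · by_contra hcon
      have e1 : mlt q D c e j = Aq q D := if_neg hcon
      omega
    · have k3 := rowL (c := c) h s e (j := j) h3 h4
      have k4 := me1 hε h1'
      have k5 := me hε h2'
      have e5 : q.ε * ((j : ℝ) + 1) = q.ε * j + q.ε := by ring
      apply near_l h s
      · rw [abs_le]; constructor <;> linarith
      · rw [abs_le]; constructor <;> linarith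
      · rw [e5]; linarith [k3.1.1]
      · rw [e5]; exact k3.1.2

/-- **The complement**: points near the inner arcs and points far from the domain. -/
theorem region2 {z : ℂ} (hz : z ∉ Om (mk h s e he hg hc).Q (gr q.ε) (gr q.ε))
    (hD : z ∈ th q.θ D) : ∃ m : ℤ, m % 2 ≠ e ∧ Nr D c (4 * κ) m z := by
  have hε := s.ε0
  have hτ := s.τ0
  have hετ := Fine.ετ h s
  have hAB := Sml.A_lt_B h s.toSml
  have hB := abs_le.1 (s.B_near h)
  have hA := abs_le.1 (s.A_near h)
  have hητ := Fine.ητ h s
  have hη0 := mul_pos s.η0 s.R0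
  have hθτ := s.hτ
  have hxx : xL D - q.θ < z.re ∧ z.re < xR D + q.θ := by
    obtain ⟨w, hw, k1, k2⟩ := hD
    have := h.re_lt hw
    rw [abs_lt] at k1
    constructor <;> linarith
  obtain ⟨⟨i, j⟩, hzr, hQ⟩ := not_Om hε hz
  obtain ⟨⟨x1, x2⟩, y1, y2⟩ := mem_rect'.1 hzr
  rw [Prof.mem_Q] at hQ
  have ea : (mk h s e he hg hc).a = Aq q D := rfl
  have eb : (mk h s e he hg hc).b = Bq q D := rfl
  have elo : ∀ i, (mk h s e he hg hc).lo i = mlo q D c e i := fun _ => rfl
  have eup : ∀ i, (mk h s e he hg hc).up i = mup q D c e i := fun _ => rfl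
  have ert : ∀ i, (mk h s e he hg hc).rt i = mrt q D c e i := fun _ => rfl
  have elt : ∀ i, (mk h s e he hg hc).lt i = mlt q D c e i := fun _ => rfl
  unfold Prof.In Prof.r1 Prof.r2 Prof.l1 Prof.l2 at hQ
  simp only [ea, eb, elo, eup, ert, elt] at hQ
  rcases lt_or_ge i (Aq q D) with g1 | g1
  · -- left part
    have kx := me1 hε g1
    have kr := Sml.left_row h s.toSml hD (by linarith)
    have k := mlo_le (c := c) h s e (i := Aq q D) (by omega) (by omega)
    have k' := mup_ge (c := c) h s e (i := Aq q D) (by omega) (by omega)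
    rcases lt_or_ge j (mlo q D c e (Aq q D)) with g2 | g2
    · refine ⟨cnt c (sbp q D (Aq q D)), ?_, ?_⟩
      · intro hcon
        have e1 : mlo q D c e (Aq q D) = lo2 q D (Aq q D) := if_pos hcon
        have := me1 hε (e1 ▸ g2)
        linarith
      · apply near_b h s (i := Aq q D) (i1 := Aq q D) (i2 := Aq q D) (by omega) (by omega)
          (by omega) (by omega) (by omega) (by omega) (by omega) (by omega) (by omega) (by omega)
        · rw [abs_le]; constructor <;> linarith
        · exact kr.1.le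
        · have := me1 hε (lt_of_lt_of_le g2 k.2)
          linarith
    · rcases le_or_gt (mup q D c e (Aq q D)) j with g3 | g3
      · refine ⟨cnt c (stp q D (Aq q D)), ?_, ?_⟩
        · intro hcon
          have e1 : mup q D c e (Aq q D) = up2 q D (Aq q D) := if_pos hcon
          have := me hε (e1 ▸ g3)
          linarith
        · apply near_t h s (i := Aq q D) (i1 := Aq q D) (i2 := Aq q D) (by omega) (by omega)
            (by omega) (by omega) (by omega) (by omega) (by omega) (by omega) (by omega) (by omega)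
          · rw [abs_le]; constructor <;> linarith
          · have := me hε (k'.1.trans g3)
            linarith
          · exact kr.2.le
      · have g4 : i < mlt q D c e j := by
          by_contra hcon
          exact hQ (Or.inr (Or.inr ⟨⟨g1, not_lt.1 hcon⟩, g2, g3⟩))
        refine ⟨cnt c (slp q D j), ?_, ?_⟩
        · intro hcon
          have e1 : mlt q D c e j = lt2 q D j := if_pos hcon
          have k5 := me1 hε (e1 ▸ g4)
          have := Sml.gt_lt2 h s.toSml (j := j) (x := z.re) (y := z.im) y1 y2 hD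
          linarith
        · have k3 := rowL (c := c) h s e (j := j) g2 g3
          have e5 : q.ε * ((j : ℝ) + 1) = q.ε * j + q.ε := by ring
          apply near_l h s
          · rw [abs_le]; constructor <;> linarith
          · rw [abs_le]; constructor <;> linarith
          · rw [e5]; linarith [k3.1.1]
          · rw [e5]; exact k3.1.2
  · rcases lt_or_ge i (Bq q D) with g5 | g5
    · -- core
      have k := mlo_le (c := c) h s e (i := i) g1 g5
      have k' := mup_ge (c := c) h s e (i := i) g1 g5
      rcases lt_or_ge j (mlo q D c e i) with g2 | g2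
      · have k6 := Sml.lo2_lt h s.toSml (i := i) (x := z.re) (y := z.im) x1 x2 hD
        refine ⟨cnt c (sbp q D i), ?_, ?_⟩
        · intro hcon
          have e1 : mlo q D c e i = lo2 q D i := if_pos hcon
          have := me1 hε (e1 ▸ g2)
          linarith
        · apply near_b h s (i := i) (i1 := i) (i2 := i) g1 g5 g1 g5 (by omega) (by omega) g1 g5
            (by omega) (by omega)
          · rw [abs_le]; constructor <;> linarith
          · exact k6.le
          · have := me1 hε (lt_of_lt_of_le g2 k.2)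
            linarith
      · have g3 : mup q D c e i ≤ j := by
          by_contra hcon
          exact hQ (Or.inl ⟨⟨g1, g5⟩, g2, not_le.1 hcon⟩)
        have k6 := Sml.lt_up2 h s.toSml (i := i) (x := z.re) (y := z.im) x1 x2 hD
        refine ⟨cnt c (stp q D i), ?_, ?_⟩
        · intro hcon
          have e1 : mup q D c e i = up2 q D i := if_pos hcon
          have := me hε (e1 ▸ g3)
          linarith
        · apply near_t h s (i := i) (i1 := i) (i2 := i) g1 g5 g1 g5 (by omega) (by omega) g1 g5
            (by omega) (by omega)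
          · rw [abs_le]; constructor <;> linarith
          · have := me hε (k'.1.trans g3)
            linarith
          · exact k6.le
    · -- right part
      have kx := me hε g5
      have kr := Sml.right_row h s.toSml hD (by linarith)
      have k := mlo_le (c := c) h s e (i := Bq q D - 1) (by omega) (by omega)
      have k' := mup_ge (c := c) h s e (i := Bq q D - 1) (by omega) (by omega)
      have e3 : q.ε * ((Bq q D - 1 : ℤ) : ℝ) = q.ε * Bq q D - q.ε := by push_cast; ring
      rcases lt_or_ge j (mlo q D c e (Bq q D - 1)) with g2 | g2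
      · refine ⟨cnt c (sbp q D (Bq q D - 1)), ?_, ?_⟩
        · intro hcon
          have e1 : mlo q D c e (Bq q D - 1) = lo2 q D (Bq q D - 1) := if_pos hcon
          have := me1 hε (e1 ▸ g2)
          linarith
        · apply near_b h s (i := Bq q D - 1) (i1 := Bq q D - 1) (i2 := Bq q D - 1) (by omega)
            (by omega) (by omega) (by omega) (by omega) (by omega) (by omega) (by omega) (by omega)
            (by omega)
          · rw [e3, abs_le]; constructor <;> linarith
          · exact kr.1.le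
          · have := me1 hε (lt_of_lt_of_le g2 k.2)
            linarith
      · rcases le_or_gt (mup q D c e (Bq q D - 1)) j with g3 | g3
        · refine ⟨cnt c (stp q D (Bq q D - 1)), ?_, ?_⟩
          · intro hcon
            have e1 : mup q D c e (Bq q D - 1) = up2 q D (Bq q D - 1) := if_pos hcon
            have := me hε (e1 ▸ g3)
            linarith
          · apply near_t h s (i := Bq q D - 1) (i1 := Bq q D - 1) (i2 := Bq q D - 1) (by omega)
              (by omega) (by omega) (by omega) (by omega) (by omega) (by omega) (by omega)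
              (by omega) (by omega)
            · rw [e3, abs_le]; constructor <;> linarith
            · have := me hε (k'.1.trans g3)
              linarith
            · exact kr.2.le
        · have g4 : mrt q D c e j ≤ i := by
            by_contra hcon
            exact hQ (Or.inr (Or.inl ⟨⟨g5, not_le.1 hcon⟩, g2, g3⟩))
          refine ⟨cnt c (srp q D j), ?_, ?_⟩
          · intro hcon
            have e1 : mrt q D c e j = rt2 q D j := if_pos hcon
            have k5 := me hε (e1 ▸ g4)
            have := Sml.lt_rt2 h s.toSml (j := j) (x := z.re) (y := z.im) y1 y2 hD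
            linarith
          · have k3 := rowR (c := c) h s e (j := j) g2 g3
            apply near_r h s
            · rw [abs_le]; constructor <;> linarith
            · rw [abs_le]; constructor <;> linarith
            · exact k3.1.1
            · linarith [k3.1.2]

end

end Pool.Agent.H5.FM
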