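import Mathlib
import Pool.Agent.H5.FM.Near

set_option autoImplicit false
open Set
open scoped Pointwise

/-! # Monotonicity of the floor -/

namespace Pool.Agent.H5.FM

variable {D : Set ℂ}

/-- `p` is a lowest point of the floor -/
def IsMin (D : Set ℂ) (p : ℝ) : Prop := (xL D ≤ p ∧ p ≤ xR D) ∧ ∀ x, xL D ≤ x → x ≤ xR D → flo D p ≤ flo D x

lemma IsMin.anti (h : CD D) {p : ℝ} (hp : IsMin D p) {x x' : ℝ} (h0 : xL D ≤ x) (h1 : x ≤ x')
    (h2 : x' ≤ p) : flo D x' ≤ flo D x := by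
  rcases eq_or_lt_of_le (h1.trans h2) with e | e
  · have : x' = x := le_antisymm (by linarith) h1
    rw [this]
  · have hx : x ≤ xR D := by linarith [hp.1.2]
    have := h.flo_chord (x := x) (x' := p) (x'' := x') (t := (x' - x) / (p - x)) h0 hx hp.1.1 hp.1.2
      (div_nonneg (by linarith) (by linarith)) (by rw [div_le_one (by linarith)]; linarith)
      (by have : p - x ≠ 0 := by linarith
          field_simp
          ring)
    have h3 := hp.2 x h0 hx
    have h4 : 0 ≤ (x' - x) / (p - x) := div_nonneg (by linarith) (by linarith)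
    have h5 := mul_le_mul_of_nonneg_left h3 h4
    linarith

lemma IsMin.mono (h : CD D) {p : ℝ} (hp : IsMin D p) {x x' : ℝ} (h0 : p ≤ x) (h1 : x ≤ x')
    (h2 : x' ≤ xR D) : flo D x ≤ flo D x' := by
  rcases eq_or_lt_of_le (h0.trans h1) with e | e
  · have : x' = x := le_antisymm (by linarith) h1
    rw [this]
  · have hx : xL D ≤ x' := by linarith [hp.1.1]
    have := h.flo_chord (x := x') (x' := p) (x'' := x) (t := (x' - x) / (x' - p)) hx h2 hp.1.1 hp.1.2
      (div_nonneg (by linarith) (by linarith)) (by rw [div_le_one (by linarith)]; linarith)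
      (by have : x' - p ≠ 0 := by linarith
          field_simp
          ring)
    have h3 := hp.2 x' hx h2
    have h4 : 0 ≤ (x' - x) / (x' - p) := div_nonneg (by linarith) (by linarith)
    have h5 := mul_le_mul_of_nonneg_left h3 h4
    linarith

/-- strict decrease away from the minimum -/
lemma IsMin.anti_lt (h : CD D) {p : ℝ} (hp : IsMin D p) {x x' : ℝ} (h0 : xL D ≤ x) (h1 : x < x')
    (h2 : x' ≤ p) (h3 : flo D p < flo D x) : flo D x' < flo D x := by
  have hx : x ≤ xR D := by linarith [hp.1.2]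
  have := h.flo_chord (x := x) (x' := p) (x'' := x') (t := (x' - x) / (p - x)) h0 hx hp.1.1 hp.1.2
    (div_nonneg (by linarith) (by linarith)) (by rw [div_le_one (by linarith)]; linarith)
    (by have : p - x ≠ 0 := by linarith
        field_simp
        ring)
  have h4 : 0 < (x' - x) / (p - x) := div_pos (by linarith) (by linarith)
  have h5 := mul_lt_mul_of_pos_left h3 h4
  linarith

lemma IsMin.mono_lt (h : CD D) {p : ℝ} (hp : IsMin D p) {x x' : ℝ} (h0 : p ≤ x) (h1 : x < x')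
    (h2 : x' ≤ xR D) (h3 : flo D p < flo D x') : flo D x < flo D x' := by
  have hx : xL D ≤ x' := by linarith [hp.1.1]
  have := h.flo_chord (x := x') (x' := p) (x'' := x) (t := (x' - x) / (x' - p)) hx h2 hp.1.1 hp.1.2
    (div_nonneg (by linarith) (by linarith)) (by rw [div_le_one (by linarith)]; linarith)
    (by have : x' - p ≠ 0 := by linarith
        field_simp
        ring)
  have h4 : 0 < (x' - x) / (x' - p) := div_pos (by linarith) (by linarith)
  have h5 := mul_lt_mul_of_pos_left h3 h4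
  linarith

lemma exists_isMin (h : CD D) : ∃ p, IsMin D p := by
  obtain ⟨p, hp, hm⟩ := isCompact_Icc.exists_isMinOn (nonempty_Icc.2 h.hLR.le) h.flo_cont
  exact ⟨p, hp, fun x hx hx' => hm ⟨hx, hx'⟩⟩

/-- points above the floor -/
lemma CD.exists_above (h : CD D) {x y : ℝ} (h1 : xL D < x) (h2 : x < xR D) (hy : flo D x < y) :
    ∃ y', y' ≤ y ∧ (⟨x, y'⟩ : ℂ) ∈ D := by
  obtain ⟨y0, hy0⟩ := h.exists_of_lt h1 h2
  have := (h.mem_iff.1 hy0).2
  obtain ⟨y', a1, a2⟩ := exists_between (show flo D x < min y y0 from lt_min hy this.1)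
  rw [lt_min_iff] at a2
  exact ⟨y', a2.1.le, h.mem_iff.2 ⟨⟨h1, h2⟩, a1, a2.2.trans this.2⟩⟩

/-- the infimum over a strip decreases towards the minimum -/
lemma inf_anti (h : CD D) {p : ℝ} (hp : IsMin D p) {x0 x1 x0' x1' : ℝ}
    (h1 : x1 ≤ x1') (h01 : x0' ≤ x1') (h2 : x0' ≤ p) (hne : (pr D x0 x1).Nonempty)
    (h4 : x0' < xR D) : sInf (pr D x0' x1') ≤ sInf (pr D x0 x1) := by
  apply le_csInf hne
  rintro y ⟨x, hx0, hx1, hxy⟩
  have hbb := (h.pr_bd (x0 := x0') (x1 := x1')).bddBelow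
  have hm := h.mem_iff.1 hxy
  rcases le_or_gt x0' x with g | g
  · exact csInf_le hbb ⟨x, g, by linarith, hxy⟩
  · have hxL : xL D < x0' := hm.1.1.trans g
    have hfl := hp.anti h hm.1.1.le g.le h2
    obtain ⟨y', a1, a2⟩ := h.exists_above hxL h4 (hfl.trans_lt hm.2.1)
    exact (csInf_le hbb ⟨x0', le_rfl, h01, a2⟩).trans a1

/-- mirrored version -/
lemma inf_mono (h : CD D) {p : ℝ} (hp : IsMin D p) {x0 x1 x0' x1' : ℝ} (h0 : x0 ≤ x0')
    (h01 : x0 ≤ x1) (h2 : p ≤ x1) (hne : (pr D x0' x1').Nonempty)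
    (h4 : xL D < x1) : sInf (pr D x0 x1) ≤ sInf (pr D x0' x1') := by
  apply le_csInf hne
  rintro y ⟨x, hx0, hx1, hxy⟩
  have hbb := (h.pr_bd (x0 := x0) (x1 := x1)).bddBelow
  have hm := h.mem_iff.1 hxy
  rcases le_or_gt x x1 with g | g
  · exact csInf_le hbb ⟨x, by linarith, g, hxy⟩
  · have hxR : x1 < xR D := g.trans hm.1.2
    have hfl := hp.mono h h2 g.le hm.1.2.le
    obtain ⟨y', a1, a2⟩ := h.exists_above h4 hxR (hfl.trans_lt hm.2.1)
    exact (csInf_le hbb ⟨x1, h01, le_rfl, a2⟩).trans a1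

/-! ### Extents of the outer domain -/

lemma re_th_lt (h : CD D) {θ : ℝ} {z : ℂ} (hz : z ∈ th θ D) :
    xL D - θ < z.re ∧ z.re < xR D + θ := by
  obtain ⟨w, hw, k1, k2⟩ := hz
  have := h.re_lt hw
  rw [abs_lt] at k1
  constructor <;> linarith

lemma xR_th (h : CD D) {θ : ℝ} (h0 : 0 < θ) : xR (th θ D) = xR D + θ := by
  have hT := h.cd_th h0
  apply le_antisymm
  · refine csSup_le (⟨_, 0, hT.zero, rfl⟩ : (Complex.re '' th θ D).Nonempty) ?_
    rintro _ ⟨z, hz, rfl⟩
    exact (re_th_lt h hz).2.le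
  · apply le_of_forall_lt
    intro x hx
    have h1 : xL D < xR D := h.hLR
    obtain ⟨u, hu1, hu2⟩ := exists_between (show max (xL D) (x - θ) < xR D from max_lt h1 (by linarith))
    rw [max_lt_iff] at hu1
    obtain ⟨y, hy⟩ := h.exists_of_lt hu1.1 hu2
    obtain ⟨v, hv1, hv2⟩ := exists_between (show max x u < u + θ from max_lt (by linarith) (by linarith))
    rw [max_lt_iff] at hv1
    have : (⟨v, y⟩ : ℂ) ∈ th θ D := ⟨_, hy, by
      simp only; rw [abs_lt]; constructor <;> linarith, by simp only [sub_self, abs_zero]; exact h0⟩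
    have := (hT.re_lt this).2
    simp only at this
    linarith

lemma xL_th (h : CD D) {θ : ℝ} (h0 : 0 < θ) : xL (th θ D) = xL D - θ := by
  have := xR_th h.rx h0
  rw [th_rx, xR_rx, xR_rx] at this
  linarith

/-- floor of the inner domain -/
lemma flo_sc (D : Set ℂ) {η : ℝ} (h1 : η < 1) {x : ℝ} :
    flo (sc η D) ((1 - η) * x) = (1 - η) * flo D x := by
  have e : {y | (⟨(1 - η) * x, y⟩ : ℂ) ∈ closure (sc η D)} =
      (1 - η) • {y | (⟨x, y⟩ : ℂ) ∈ closure D} := by
    have hne : ((1 - η : ℝ) : ℂ) ≠ 0 := by exact_mod_cast (show (1 - η : ℝ) ≠ 0 by linarith)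
    have hcl : closure (sc η D) = (Homeomorph.mulLeft₀ ((1 - η : ℝ) : ℂ) hne) '' closure D := by
      rw [(Homeomorph.mulLeft₀ ((1 - η : ℝ) : ℂ) hne).image_closure]
      congr 1
      ext z
      constructor
      · rintro ⟨w, hw, rfl⟩; exact ⟨w, hw, rfl⟩
      · rintro ⟨w, hw, rfl⟩; exact ⟨w, hw, rfl⟩
    ext y
    rw [Set.mem_smul_set, mem_ofPred_eq, hcl]
    constructor
    · rintro ⟨w, hw, e⟩
      have e' : ((1 - η : ℝ) : ℂ) * w = ⟨(1 - η) * x, y⟩ := e
      have e1 : (1 - η) * w.re = (1 - η) * x := by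
        have := congrArg Complex.re e'
        simpa using this
      have e2 : (1 - η) * w.im = y := by
        have := congrArg Complex.im e'
        simpa using this
      have hx : w.re = x := mul_left_cancel₀ (by linarith) e1
      refine ⟨w.im, ?_, e2⟩
      show (⟨x, w.im⟩ : ℂ) ∈ closure D
      rw [← hx]
      exact hw
    · rintro ⟨y', hy', e⟩
      refine ⟨⟨x, y'⟩, hy', ?_⟩
      show ((1 - η : ℝ) : ℂ) * ⟨x, y'⟩ = ⟨(1 - η) * x, y⟩
      rw [← e]
      apply Complex.ext <;> simp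
  unfold flo
  rw [e, Real.sInf_smul_of_nonneg (by linarith), smul_eq_mul]

lemma IsMin.sc {p : ℝ} (hp : IsMin D p) {η : ℝ} (h1 : η < 1) :
    IsMin (sc η D) ((1 - η) * p) := by
  have hpos : 0 < 1 - η := by linarith
  refine ⟨⟨?_, ?_⟩, ?_⟩
  · rw [xL_sc (by linarith)]
    exact mul_le_mul_of_nonneg_left hp.1.1 hpos.le
  · rw [xR_sc (by linarith)]
    exact mul_le_mul_of_nonneg_left hp.1.2 hpos.le
  · intro x hx hx'
    rw [xL_sc (by linarith)] at hx
    rw [xR_sc (by linarith)] at hx'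
    obtain ⟨u, hu⟩ : ∃ u, x = (1 - η) * u := ⟨x / (1 - η), by field_simp⟩
    rw [hu] at hx hx' ⊢
    rw [flo_sc D h1, flo_sc D h1]
    exact mul_le_mul_of_nonneg_left (hp.2 u (le_of_mul_le_mul_left hx hpos)
      (le_of_mul_le_mul_left hx' hpos)) hpos.le

/-- near a lowest point of the floor of `D` the floor of the outer domain is lowest -/
lemma IsMin.th (h : CD D) {p p' θ : ℝ} (hp : IsMin D p) (h0 : 0 < θ) (hd : |p' - p| < θ) :
    IsMin (th θ D) p' := by
  have hT := h.cd_th h0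
  have hd' := abs_lt.1 hd
  have hxL := xL_th h h0
  have hxR := xR_th h h0
  have hm1 : xL (Pool.Agent.H5.FM.th θ D) ≤ p' := by rw [hxL]; linarith [hp.1.1]
  have hm2 : p' ≤ xR (Pool.Agent.H5.FM.th θ D) := by rw [hxR]; linarith [hp.1.2]
  refine ⟨⟨hm1, hm2⟩, fun x hx hx' => ?_⟩
  -- the floor of the outer domain is at least `flo D p - θ`
  have hlow : flo D p - θ ≤ flo (Pool.Agent.H5.FM.th θ D) x := by
    have hcl : Pool.Agent.H5.FM.th θ D ⊆ {z : ℂ | flo D p - θ ≤ z.im} := by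
      rintro z ⟨w, hw, k1, k2⟩
      have hw' := h.mem_iff.1 (show (⟨w.re, w.im⟩ : ℂ) ∈ D from hw)
      have := hp.2 w.re hw'.1.1.le hw'.1.2.le
      rw [abs_lt] at k2
      show flo D p - θ ≤ z.im
      linarith [hw'.2.1]
    have := closure_minimal hcl (isClosed_le continuous_const Complex.continuous_im)
      (hT.flo_mem hx hx')
    exact this
  refine le_trans ?_ hlow
  -- points close to `(p', flo D p - θ)`
  apply le_of_forall_pos_le_add
  intro t ht
  have hcl := h.flo_mem hp.1.1 hp.1.2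
  obtain ⟨s, hs⟩ : ∃ s, s = min (min (t / 2) (θ / 2)) ((θ - |p' - p|) / 2) := ⟨_, rfl⟩
  have hs0 : 0 < s := by rw [hs]; exact lt_min (lt_min (by linarith) (by linarith)) (by linarith)
  have hs1 : s ≤ t / 2 := by rw [hs]; exact (min_le_left _ _).trans (min_le_left _ _)
  have hs2 : s ≤ (θ - |p' - p|) / 2 := by rw [hs]; exact min_le_right _ _
  have hs3 : s ≤ θ / 2 := by rw [hs]; exact (min_le_left _ _).trans (min_le_right _ _)
  obtain ⟨w, hw, hd2⟩ := Metric.mem_closure_iff.1 hcl s hs0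
  rw [dist_eq_norm] at hd2
  have e1 := (Complex.abs_re_le_norm ((⟨p, flo D p⟩ : ℂ) - w)).trans_lt hd2
  have e2 := (Complex.abs_im_le_norm ((⟨p, flo D p⟩ : ℂ) - w)).trans_lt hd2
  simp only [Complex.sub_re, Complex.sub_im] at e1 e2
  have hmem : (⟨p', w.im - θ + s⟩ : ℂ) ∈ Pool.Agent.H5.FM.th θ D := by
    refine ⟨w, hw, ?_, ?_⟩
    · simp only
      have := abs_sub_le p' p w.re
      linarith
    · simp only
      rw [abs_lt]; constructor <;> linarith
  have h5 := ((hT.mem_closure_iff hm1 hm2).1 (subset_closure hmem)).1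
  rw [abs_lt] at e2
  linarith

end Pool.Agent.H5.FM
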