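import Mathlib

set_option autoImplicit false
open Set

/-! # Running minima of a profile which jumps between two monotone profiles -/

namespace Pool.Agent.H5.FM

/-- running minimum -/
noncomputable def rmin (f : ℤ → ℤ) (A i : ℤ) : ℤ := sInf (f '' Icc A i)

lemma rmin_le (f : ℤ → ℤ) {A i k : ℤ} (h1 : A ≤ k) (h2 : k ≤ i) : rmin f A i ≤ f k :=
  csInf_le ((finite_Icc A i).image f).bddBelow ⟨k, ⟨h1, h2⟩, rfl⟩

lemma rmin_mem (f : ℤ → ℤ) {A i : ℤ} (h : A ≤ i) : ∃ k, (A ≤ k ∧ k ≤ i) ∧ rmin f A i = f k := by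
  obtain ⟨k, hk, e⟩ := Int.csInf_mem (s := f '' Icc A i) ⟨f i, i, ⟨h, le_rfl⟩, rfl⟩
    ((finite_Icc A i).image f).bddBelow
  exact ⟨k, hk, e.symm⟩

/-- the profile which jumps between `U` (labels which are `e` modulo `2`) and `V` -/
def raw (U V L : ℤ → ℤ) (e : ℤ) (i : ℤ) : ℤ := if L i % 2 = e then U i else V i

open Classical in
/-- the adapted label -/
noncomputable def llb (U L : ℤ → ℤ) (e m : ℤ) (i : ℤ) : ℤ :=
  if L i % 2 = e ∧ ∃ k, i < k ∧ k ≤ m ∧ L k ≠ L i ∧ U (k - 1) = U i then L i + 1 else L i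

/-- hypotheses on the interval `[A, m]` -/
structure LHyp (U V L : ℤ → ℤ) (e A m : ℤ) : Prop where
  he : e = 0 ∨ e = 1
  aU : ∀ i, A ≤ i → i + 1 ≤ m → U (i + 1) ≤ U i
  aV : ∀ i, A ≤ i → i + 1 ≤ m → V (i + 1) ≤ V i
  UV : ∀ i i', A ≤ i → i ≤ m → A ≤ i' → i' ≤ m → i' ≤ i + 1 → i ≤ i' + 1 → U i < V i'
  step : ∀ i, A ≤ i → i + 1 ≤ m → L (i + 1) = L i ∨ L (i + 1) = L i + 1
  H1 : ∀ i k, A ≤ i → i < k → k ≤ m → L i % 2 = e → L k ≠ L i → U (k - 1) = U i →
    A < i ∧ L (i - 1) = L i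
  H2 : ∀ k i, A ≤ k → k < i → i + 1 ≤ m → L k % 2 = e → L i ≠ L k → L (i + 1) ≠ L i →
    U (i + 1) < U k

namespace LHyp

variable {U V L : ℤ → ℤ} {e A m : ℤ} (H : LHyp U V L e A m)
include H

lemma antiU {i k : ℤ} (h1 : A ≤ i) (h2 : i ≤ k) (h3 : k ≤ m) : U k ≤ U i := by
  induction k, h2 using Int.leInduction with
  | base => exact le_rfl
  | succ n hn ih => exact (H.aU n (by omega) h3).trans (ih (by omega))

lemma antiV {i k : ℤ} (h1 : A ≤ i) (h2 : i ≤ k) (h3 : k ≤ m) : V k ≤ V i := by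
  induction k, h2 using Int.leInduction with
  | base => exact le_rfl
  | succ n hn ih => exact (H.aV n (by omega) h3).trans (ih (by omega))

lemma monoL {i k : ℤ} (h1 : A ≤ i) (h2 : i ≤ k) (h3 : k ≤ m) : L i ≤ L k := by
  induction k, h2 using Int.leInduction with
  | base => exact le_rfl
  | succ n hn ih =>
    have := ih (by omega)
    have := H.step n (by omega) h3
    omega

/-- the last column with the label of `i` before `k` -/
lemma exists_last {i k : ℤ} (h1 : A ≤ i) (h2 : i < k) (h3 : k ≤ m) (h4 : L k ≠ L i) :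
    ∃ i0, (i ≤ i0 ∧ i0 < k) ∧ L i0 = L i ∧ L (i0 + 1) = L i + 1 := by
  induction k, (show i + 1 ≤ k by omega) using Int.leInduction with
  | base =>
    refine ⟨i, ⟨le_rfl, by omega⟩, rfl, ?_⟩
    have := H.step i h1 h3
    omega
  | succ n hn ih =>
    by_cases hc : L n = L i
    · refine ⟨n, ⟨by omega, by omega⟩, hc, ?_⟩
      have := H.step n (by omega) h3
      omega
    · obtain ⟨i0, ⟨a1, a2⟩, a3, a4⟩ := ih (by omega) (by omega) hc
      exact ⟨i0, ⟨a1, by omega⟩, a3, a4⟩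

lemma raw_ge {i : ℤ} (h1 : A ≤ i) (h2 : i ≤ m) : U i ≤ raw U V L e i := by
  have := H.UV i i h1 h2 h1 h2 (by omega) (by omega)
  unfold raw
  split_ifs <;> omega

lemma raw_le {i : ℤ} (h1 : A ≤ i) (h2 : i ≤ m) : raw U V L e i ≤ V i := by
  have := H.UV i i h1 h2 h1 h2 (by omega) (by omega)
  unfold raw
  split_ifs <;> omega

lemma U_le {i : ℤ} (h1 : A ≤ i) (h2 : i ≤ m) : U i ≤ rmin (raw U V L e) A i := by
  obtain ⟨k, ⟨k1, k2⟩, hk⟩ := rmin_mem (raw U V L e) h1
  rw [hk]
  exact (H.antiU k1 k2 h2).trans (H.raw_ge k1 (by omega))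

lemma le_V {i : ℤ} (h1 : A ≤ i) (h2 : i ≤ m) : rmin (raw U V L e) A i ≤ V i :=
  (rmin_le _ h1 le_rfl).trans (H.raw_le h1 h2)

omit H in
lemma anti {i : ℤ} (h1 : A ≤ i) : rmin (raw U V L e) A (i + 1) ≤ rmin (raw U V L e) A i := by
  obtain ⟨k, ⟨k1, k2⟩, hk⟩ := rmin_mem (raw U V L e) h1
  rw [hk]
  exact rmin_le _ k1 (by omega)

lemma eq_U {i : ℤ} (h1 : A ≤ i) (h2 : i ≤ m) (h3 : L i % 2 = e) :
    rmin (raw U V L e) A i = U i := by
  apply le_antisymm _ (H.U_le h1 h2)
  refine (rmin_le _ h1 le_rfl).trans ?_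
  unfold raw
  rw [if_pos h3]

lemma llb_out {i : ℤ} (h3 : llb U L e m i % 2 = e) : L i % 2 = e := by
  unfold llb at h3
  have := H.he
  split_ifs at h3 with hc
  · exact hc.1
  · exact h3

lemma llb_A : llb U L e m A = L A := by
  unfold llb
  rw [if_neg]
  rintro ⟨h1, k, h2, h3, h4, h5⟩
  have := (H.H1 A k le_rfl h2 h3 h1 h4 h5).1
  omega

omit H in
lemma llb_m : llb U L e m m = L m := by
  unfold llb
  rw [if_neg]
  rintro ⟨h1, k, h2, h3, h4, h5⟩
  omega

/-- labels change only where the profile jumps -/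
lemma llb_step {i : ℤ} (h1 : A ≤ i) (h2 : i + 1 ≤ m) :
    llb U L e m (i + 1) = llb U L e m i ∨ (llb U L e m (i + 1) = llb U L e m i + 1 ∧
      rmin (raw U V L e) A (i + 1) ≠ rmin (raw U V L e) A i) := by
  have he := H.he
  have hst := H.step i h1 h2
  by_cases hi : L i % 2 = e
  · rcases hst with hs | hs
    · -- both out
      have hi' : L (i + 1) % 2 = e := by rw [hs]; exact hi
      have eU := H.eq_U h1 (by omega) hi
      have eU' := H.eq_U (i := i + 1) (by omega) h2 hi'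
      have hU := H.aU i h1 h2
      by_cases hw' : ∃ k, i + 1 < k ∧ k ≤ m ∧ L k ≠ L (i + 1) ∧ U (k - 1) = U (i + 1)
      · by_cases hw : ∃ k, i < k ∧ k ≤ m ∧ L k ≠ L i ∧ U (k - 1) = U i
        · left
          unfold llb
          rw [if_pos ⟨hi', hw'⟩, if_pos ⟨hi, hw⟩, hs]
        · right
          have hne : U (i + 1) ≠ U i := by
            intro hU2
            obtain ⟨k, a1, a2, a3, a4⟩ := hw'
            exact hw ⟨k, by omega, a2, by rw [← hs]; exact a3, by omega⟩
          constructor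
          · unfold llb
            rw [if_pos ⟨hi', hw'⟩, if_neg (fun hc => hw hc.2), hs]
          · rw [eU, eU']; exact hne
      · have hw : ¬ ∃ k, i < k ∧ k ≤ m ∧ L k ≠ L i ∧ U (k - 1) = U i := by
          rintro ⟨k, a1, a2, a3, a4⟩
          have hk : k ≠ i + 1 := by
            rintro rfl
            exact a3 hs
          have b1 := H.antiU (i := i + 1) (k := k - 1) (by omega) (by omega) (by omega)
          exact hw' ⟨k, by omega, a2, by rw [hs]; exact a3, by omega⟩
        left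
        unfold llb
        rw [if_neg (fun hc => hw' hc.2), if_neg (fun hc => hw hc.2), hs]
    · -- from out to in
      left
      have hi' : L (i + 1) % 2 ≠ e := by omega
      unfold llb
      rw [if_neg (fun hc => hi' hc.1), if_pos ⟨hi, i + 1, by omega, h2, by omega, by
        rw [add_sub_cancel_right]⟩, hs]
  · have e1 : llb U L e m i = L i := if_neg (fun hc => hi hc.1)
    rcases hst with hs | hs
    · left
      rw [e1]
      unfold llb
      rw [if_neg (fun hc => hi (by rw [← hs]; exact hc.1)), hs]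
    · right
      have hi' : L (i + 1) % 2 = e := by omega
      have e2 : llb U L e m (i + 1) = L (i + 1) := by
        unfold llb
        rw [if_neg]
        rintro ⟨-, k, a1, a2, a3, a4⟩
        have := (H.H1 (i + 1) k (by omega) a1 a2 hi' a3 a4).2
        rw [add_sub_cancel_right] at this
        omega
      rw [e1, e2, H.eq_U (i := i + 1) (by omega) h2 hi']
      refine ⟨hs, ?_⟩
      obtain ⟨k, ⟨k1, k2⟩, hk⟩ := rmin_mem (raw U V L e) h1
      rw [hk]
      unfold raw
      split_ifs with hc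
      · have hki : k < i := by
          rcases eq_or_lt_of_le k2 with g | g
          · exfalso; rw [g] at hc; exact hi hc
          · exact g
        have := H.H2 k i k1 hki h2 hc (by
          intro hh; rw [hh] at hi; exact hi hc) (by omega)
        omega
      · have b1 := H.antiV k1 k2 (by omega)
        have b2 := H.UV (i + 1) i (by omega) h2 h1 (by omega) (by omega) (by omega)
        omega

/-- where the profile is not the inner one -/
lemma ne_V {i : ℤ} (h1 : A ≤ i) (h2 : i ≤ m) (h3 : rmin (raw U V L e) A i ≠ V i) :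
    L i % 2 = e ∨ ∃ k, (A ≤ k ∧ k < i) ∧ L k % 2 = e ∧ L i ≠ L k ∧ U k < V i := by
  by_cases hi : L i % 2 = e
  · exact Or.inl hi
  right
  obtain ⟨k, ⟨k1, k2⟩, hk⟩ := rmin_mem (raw U V L e) h1
  have h4 := H.le_V h1 h2
  have hc : L k % 2 = e := by
    by_contra hc
    have e1 : raw U V L e k = V k := if_neg hc
    have := H.antiV k1 k2 h2
    omega
  have e1 : raw U V L e k = U k := if_pos hc
  refine ⟨k, ⟨k1, ?_⟩, hc, ?_, by omega⟩
  · rcases eq_or_lt_of_le k2 with g | g
    · exfalso; rw [g] at hc; exact hi hc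
    · exact g
  · intro hh
    rw [hh] at hi
    exact hi hc

omit H in
/-- a changed label -/
lemma llb_ne {i : ℤ} (h3 : llb U L e m i ≠ L i) :
    llb U L e m i = L i + 1 ∧ L i % 2 = e ∧ ∃ k, i < k ∧ k ≤ m ∧ L k ≠ L i ∧ U (k - 1) = U i := by
  unfold llb at h3 ⊢
  split_ifs at h3 ⊢ with hc
  · exact ⟨rfl, hc⟩
  · exact absurd rfl h3

end LHyp

end Pool.Agent.H5.FM
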