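import Mathlib
import Pool.Agent.H5.FM.Hv1
import Pool.Agent.H5.FM.Hv2
import Pool.Agent.H5.FM.Side

set_option autoImplicit false
open Set

/-! # The descending part of the floor -/

namespace Pool.Agent.H5.FM

variable {D : Set ℂ} {R r τ κ g σ δ p : ℝ} {q : Par} {L : ℤ → ℤ} {e m : ℤ}

/-- The labels `L` on the columns up to `m`; at the jumps from outside to inside the floor is steep. -/
structure CutP (D : Set ℂ) (q : Par) (L : ℤ → ℤ) (e m : ℤ) (p g σ δ : ℝ) : Prop where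
  step : ∀ i, Aq q D ≤ i → i + 1 ≤ m → L (i + 1) = L i ∨ L (i + 1) = L i + 1
  cut : ∀ i, Aq q D ≤ i → i + 1 ≤ m → L i % 2 = e → L (i + 1) = L i + 1 → ∃ ξ : ℝ,
    |ξ - q.ε * i| ≤ 2 * q.ε ∧ xL D ≤ ξ - σ ∧ ξ + σ ≤ p ∧ flo D ξ + δ ≤ flo D (ξ - σ) ∧
    flo D (ξ + σ) + δ ≤ flo D ξ ∧
    (∀ i', Aq q D ≤ i' → i' ≤ i → ξ - g < q.ε * i' → L i' = L i) ∧
    (∀ i', i < i' → i' ≤ m → q.ε * i' < ξ + g → L i' = L i + 1) ∧ q.ε * Aq q D + g ≤ ξ

section

variable (h : CD D) (s : Fine D R r τ κ q) (hp : IsMin D p) (hm : q.ε * m ≤ (1 - q.η) * p)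
  (hmB : m < Bq q D)
include h s hp hm hmB

omit hp hmB hm in
lemma pr2_ne {i : ℤ} (h1 : Aq q D ≤ i) (h2 : i < Bq q D) :
    (pr (th q.θ D) (q.ε * i) (q.ε * (i + 1))).Nonempty := by
  obtain ⟨y, x, hx1, hx2, hxy⟩ := Sml.pr1_ne h s.toSml h1 h2
  exact ⟨y, x, hx1, hx2, h.sub_th s.θ0 (h.sc_sub s.η0.le (by linarith [s.η1]) hxy)⟩

omit hm hmB in
lemma p_near : |(1 - q.η) * p - p| ≤ q.η * R := by
  have h1 := s.xR_le h
  have h2 := s.xL_ge h
  have h3 := s.η0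
  rw [show (1 - q.η) * p - p = -(q.η * p) by ring, abs_neg, abs_mul, abs_of_pos h3]
  apply mul_le_mul_of_nonneg_left _ h3.le
  rw [abs_le]
  constructor <;> linarith [hp.1.1, hp.1.2]

lemma lo2_anti {i : ℤ} (h1 : Aq q D ≤ i) (h2 : i + 1 ≤ m) : lo2 q D (i + 1) ≤ lo2 q D i := by
  have hε := s.ε0
  have hp' : IsMin (th q.θ D) ((1 - q.η) * p) := by
    apply hp.th h s.θ0
    have := p_near h s hp
    have := s.ηR
    linarith [s.θ0]
  have k1 := me hε h2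
  have hlt := Sml.core_lt h s.toSml (i := i + 1) (by omega)
  have hi := inf_anti (h.cd_th s.θ0) hp' (x0 := q.ε * i) (x1 := q.ε * (i + 1))
    (x0' := q.ε * ((i + 1 : ℤ) : ℝ)) (x1' := q.ε * (((i + 1 : ℤ) : ℝ) + 1)) (by push_cast; linarith)
    (by push_cast; linarith) (by linarith) (pr2_ne h s h1 (by omega)) (by
      rw [xR_th h s.θ0]; linarith [s.θ0])
  unfold lo2
  exact Int.floor_le_floor (div_le_div_of_nonneg_right hi hε.le)

lemma lo1_anti {i : ℤ} (h1 : Aq q D ≤ i) (h2 : i + 1 ≤ m) : lo1 q D (i + 1) ≤ lo1 q D i := by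
  have hε := s.ε0
  have hp' : IsMin (sc q.η D) ((1 - q.η) * p) := hp.sc (by linarith [s.η1])
  have k1 := me hε h2
  have hB := Sml.B_lt s.toSml
  have k2 := me hε (show i + 1 ≤ Bq q D - 1 by omega)
  have e2 : q.ε * ((Bq q D - 1 : ℤ) : ℝ) = q.ε * (Bq q D - 1) := by push_cast; ring
  have hi := inf_anti (Sml.cd1 h s.toSml) hp' (x0 := q.ε * i) (x1 := q.ε * (i + 1))
    (x0' := q.ε * ((i + 1 : ℤ) : ℝ)) (x1' := q.ε * (((i + 1 : ℤ) : ℝ) + 1)) (by push_cast; linarith)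
    (by push_cast; linarith) (by linarith) (Sml.pr1_ne h s.toSml h1 (by omega)) (by
      rw [xR_sc (by linarith [s.η1])]; linarith)
  unfold lo1
  have := Int.floor_le_floor (div_le_div_of_nonneg_right hi hε.le)
  omega

/-- the clamped abscissa of a column -/
lemma col_pt {i : ℤ} (h1 : Aq q D ≤ i) (h2 : i ≤ m) : ∃ x, (xL D ≤ x ∧ x ≤ p) ∧ x ≤ q.ε * i ∧
    (∀ y, y ≤ p → y ≤ q.ε * i → y ≤ x) ∧
    |q.ε * lo1 q D i - flo D x| ≤ κ ∧ |q.ε * lo2 q D i - flo D x| ≤ κ := by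
  have hε := s.ε0
  have hτ := s.τ0
  have k1 := me hε h2
  have hgt := Sml.core_gt h s.toSml h1
  have hpn := abs_le.1 (p_near h s hp)
  have hητ := Fine.ητ h s
  refine ⟨min (q.ε * i) p, ⟨?_, min_le_right _ _⟩, min_le_left _ _, fun y a1 a2 => le_min a2 a1, ?_⟩
  · exact le_min (by linarith) hp.1.1
  · apply s.clf i h1 (by omega)
    · exact le_min (by linarith) hp.1.1
    · exact (min_le_right _ _).trans hp.1.2
    · rcases le_total (q.ε * i) p with g1 | g1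
      · rw [min_eq_left g1, sub_self, abs_zero]; linarith
      · rw [min_eq_right g1, abs_le]
        constructor <;> linarith

variable (C : CutP D q L e m p g σ δ) (hδ : 2 * κ < δ) (hσ : σ + 4 * q.ε ≤ g) (hσ0 : 0 < σ)
include C hδ hσ hσ0

omit hσ in
/-- plateaus of the outer profile end near the jumps -/
lemma plateau {i k : ℤ} (h1 : Aq q D ≤ i) (h2 : i < k) (h3 : k ≤ m) (h4 : L i % 2 = e)
    (h5 : L k ≠ L i) (h6 : lo2 q D (k - 1) = lo2 q D i) : ∃ i0, (i ≤ i0 ∧ i0 < k) ∧ L i0 = L i ∧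
      L (i0 + 1) = L i + 1 ∧ ∃ ξ : ℝ, |ξ - q.ε * i0| ≤ 2 * q.ε ∧ ξ - σ ≤ q.ε * i ∧
      (∀ i', Aq q D ≤ i' → i' ≤ i0 → ξ - g < q.ε * i' → L i' = L i) ∧ q.ε * Aq q D + g ≤ ξ := by
  have hanti : ∀ i k : ℤ, Aq q D ≤ i → i ≤ k → k ≤ m → lo2 q D k ≤ lo2 q D i := by
    intro i k a1 a2 a3
    induction k, a2 using Int.leInduction with
    | base => exact le_rfl
    | succ n hn ih => exact (lo2_anti h s hp hm hmB (i := n) (by omega) a3).trans (ih (by omega))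
  have hlast : ∃ i0, (i ≤ i0 ∧ i0 < k) ∧ L i0 = L i ∧ L (i0 + 1) = L i + 1 := by
    clear h6
    induction k, (show i + 1 ≤ k by omega) using Int.leInduction with
    | base =>
      refine ⟨i, ⟨le_rfl, by omega⟩, rfl, ?_⟩
      have := C.step i h1 h3
      omega
    | succ n hn ih =>
      by_cases hc : L n = L i
      · refine ⟨n, ⟨by omega, by omega⟩, hc, ?_⟩
        have := C.step n (by omega) h3
        omega
      · obtain ⟨i0, ⟨a1, a2⟩, a3, a4⟩ := ih (by omega) (by omega) hc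
        exact ⟨i0, ⟨a1, by omega⟩, a3, a4⟩
  obtain ⟨i0, ⟨a1, a2⟩, a3, a4⟩ := hlast
  obtain ⟨ξ, b1, b2, b3, b4, b5, b6, b7, b8⟩ := C.cut i0 (by omega) (by omega) (by rw [a3]; exact h4)
    (by rw [a4, a3])
  refine ⟨i0, ⟨a1, a2⟩, a3, a4, ξ, b1, ?_, fun i' c1 c2 c3 => by rw [b6 i' c1 c2 c3, a3], b8⟩
  have hε := s.ε0
  have hετ := Fine.ετ h s
  by_contra hcon
  rw [not_le] at hcon
  obtain ⟨x, ⟨x1, x2⟩, x3, x4, -, x6⟩ := col_pt h s hp hm hmB h1 (show i ≤ m by omega)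
  have f1 := hp.anti h x1 (show x ≤ ξ - σ by linarith) (by linarith)
  have f2 := (s.clf i0 (by omega) (by omega) ξ (by linarith) (by linarith [hp.1.2]) (by
    linarith)).2
  have eU : lo2 q D i0 = lo2 q D i := by
    have := hanti i i0 h1 a1 (by omega)
    have := hanti i0 (k - 1) (by omega) (by omega) (by omega)
    omega
  rw [eU] at f2
  rw [abs_le] at f2 x6
  linarith

omit hσ in
/-- after a jump from outside to inside the outer height is soon above the inner profile -/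
lemma recover {i k : ℤ} (h1 : Aq q D ≤ k) (h2 : k < i) (h3 : i ≤ m) (h4 : L k % 2 = e)
    (h5 : L i ≠ L k) : ∃ i0, (k ≤ i0 ∧ i0 < i) ∧ L i0 = L k ∧
      L (i0 + 1) = L k + 1 ∧ ∃ ξ : ℝ, |ξ - q.ε * i0| ≤ 2 * q.ε ∧
      (ξ + σ < q.ε * i → lo1 q D i < lo2 q D k ∧ lo2 q D i < lo2 q D k) ∧
      (∀ i', i0 < i' → i' ≤ m → q.ε * i' < ξ + g → L i' = L k + 1) := by
  have hanti : ∀ i k : ℤ, Aq q D ≤ i → i ≤ k → k ≤ m → lo2 q D k ≤ lo2 q D i := by
    intro i k a1 a2 a3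
    induction k, a2 using Int.leInduction with
    | base => exact le_rfl
    | succ n hn ih => exact (lo2_anti h s hp hm hmB (i := n) (by omega) a3).trans (ih (by omega))
  have hlast : ∃ i0, (k ≤ i0 ∧ i0 < i) ∧ L i0 = L k ∧ L (i0 + 1) = L k + 1 := by
    induction i, (show k + 1 ≤ i by omega) using Int.leInduction with
    | base =>
      refine ⟨k, ⟨le_rfl, by omega⟩, rfl, ?_⟩
      have := C.step k h1 h3
      omega
    | succ n hn ih =>
      by_cases hc : L n = L k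
      · refine ⟨n, ⟨by omega, by omega⟩, hc, ?_⟩
        have := C.step n (by omega) h3
        omega
      · obtain ⟨i0, ⟨a1, a2⟩, a3, a4⟩ := ih (by omega) (by omega) hc
        exact ⟨i0, ⟨a1, by omega⟩, a3, a4⟩
  obtain ⟨i0, ⟨a1, a2⟩, a3, a4⟩ := hlast
  obtain ⟨ξ, b1, b2, b3, b4, b5, b6, b7, b8⟩ := C.cut i0 (by omega) (by omega) (by rw [a3]; exact h4)
    (by rw [a4, a3])
  refine ⟨i0, ⟨a1, a2⟩, a3, a4, ξ, b1, ?_, fun i' c1 c2 c3 => by rw [b7 i' c1 c2 c3, a3]⟩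
  intro hlt
  have hε := s.ε0
  have hετ := Fine.ετ h s
  obtain ⟨x, ⟨x1, x2⟩, x3, x4, x5, x6⟩ := col_pt h s hp hm hmB (show Aq q D ≤ i by omega) h3
  have f1 := hp.anti h (show xL D ≤ ξ + σ by linarith) (x4 _ b3 hlt.le) x2
  have f2 := (s.clf i0 (by omega) (by omega) ξ (by linarith) (by linarith [hp.1.2]) (by
    linarith)).2
  have f3 := me hε (hanti k i0 h1 a1 (by omega))
  rw [abs_le] at f2 x5 x6
  constructor
  · have : q.ε * (lo1 q D i : ℝ) < q.ε * (lo2 q D k : ℝ) := by linarith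
    exact_mod_cast lt_of_mul_lt_mul_left this hε.le
  · have : q.ε * (lo2 q D i : ℝ) < q.ε * (lo2 q D k : ℝ) := by linarith
    exact_mod_cast lt_of_mul_lt_mul_left this hε.le

/-- the hypotheses on the descending part -/
theorem CutP.lhyp (he : e = 0 ∨ e = 1) : LHyp (lo2 q D) (lo1 q D) L e (Aq q D) m where
  he := he
  aU := fun i h1 h2 => lo2_anti h s hp hm hmB h1 h2
  aV := fun i h1 h2 => lo1_anti h s hp hm hmB h1 h2
  UV := fun i i' h1 h2 h3 h4 h5 h6 => Sml.lo2_lt_lo1 h s.toSml (by omega) (by omega) h3 (by omega)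
  step := C.step
  H1 := fun i k h1 h2 h3 h4 h5 h6 => by
    obtain ⟨i0, ⟨a1, a2⟩, a3, a4, ξ, b1, b2, b3, b4⟩ :=
      plateau h s hp hm hmB C hδ hσ0 h1 h2 h3 h4 h5 h6
    have hε := s.ε0
    have hA : Aq q D < i := by
      rcases eq_or_lt_of_le h1 with e1 | e1
      · exfalso
        rw [e1] at b4
        linarith
      · exact e1
    refine ⟨hA, b3 (i - 1) (by omega) (by omega) ?_⟩
    push_cast
    linarith
  H2 := fun k i h1 h2 h3 h4 h5 h6 => by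
    have hmon : ∀ i k : ℤ, Aq q D ≤ i → i ≤ k → k ≤ m → L i ≤ L k := by
      intro i k a1 a2 a3
      induction k, a2 using Int.leInduction with
      | base => exact le_rfl
      | succ n hn ih =>
        have := ih (by omega)
        have := C.step n (by omega) a3
        omega
    have m1 := hmon k i h1 h2.le (by omega)
    have m2 := hmon i (i + 1) (by omega) (by omega) h3
    obtain ⟨i0, ⟨a1, a2⟩, a3, a4, ξ, b1, b2, b3⟩ :=
      recover h s hp hm hmB C hδ hσ0 (i := i + 1) h1 (by omega) h3 h4 (by omega)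
    have hε := s.ε0
    refine (b2 ?_).2
    by_contra hcon
    have := b3 (i + 1) (by omega) h3 (by linarith)
    omega

/-- where the profile is not the inner one -/
lemma near_out (he : e = 0 ∨ e = 1) {i : ℤ} (h1 : Aq q D ≤ i) (h2 : i ≤ m)
    (h3 : rmin (raw (lo2 q D) (lo1 q D) L e) (Aq q D) i ≠ lo1 q D i) :
    ∃ i', (Aq q D ≤ i' ∧ i' ≤ m) ∧ |q.ε * i' - q.ε * i| ≤ σ + 3 * q.ε ∧ L i' % 2 = e := by
  have H := C.lhyp h s hp hm hmB hδ hσ hσ0 he
  have hε := s.ε0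
  rcases H.ne_V h1 h2 h3 with g1 | ⟨k, ⟨k1, k2⟩, k3, k4, k5⟩
  · exact ⟨i, ⟨h1, h2⟩, by rw [sub_self, abs_zero]; linarith, g1⟩
  · obtain ⟨i0, ⟨a1, a2⟩, a3, a4, ξ, b1, b2, b3⟩ :=
      recover h s hp hm hmB C hδ hσ0 k1 k2 h2 k3 k4
    refine ⟨i0, ⟨by omega, by omega⟩, ?_, by rw [a3]; exact k3⟩
    have c1 : q.ε * i ≤ ξ + σ := by
      by_contra hcon
      have := (b2 (not_le.1 hcon)).1
      omega
    have c2 := me hε a2.le
    rw [abs_le] at b1 ⊢
    constructor <;> linarith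

omit hσ in
/-- the changed labels are labels of near columns -/
lemma near_lab {i : ℤ} (h1 : Aq q D ≤ i) (h2 : i ≤ m) :
    ∃ i', (Aq q D ≤ i' ∧ i' ≤ m) ∧ |q.ε * i' - q.ε * i| ≤ σ + 3 * q.ε ∧
      L i' = llb (lo2 q D) L e m i := by
  have hε := s.ε0
  by_cases hc : llb (lo2 q D) L e m i = L i
  · exact ⟨i, ⟨h1, h2⟩, by rw [sub_self, abs_zero]; linarith, hc.symm⟩
  · obtain ⟨c1, c2, k, c3, c4, c5, c6⟩ := LHyp.llb_ne hc
    obtain ⟨i0, ⟨a1, a2⟩, a3, a4, ξ, b1, b2, b3, b4⟩ :=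
      plateau h s hp hm hmB C hδ hσ0 h1 c3 c4 c2 c5 c6
    refine ⟨i0 + 1, ⟨by omega, by omega⟩, ?_, by rw [a4, c1]⟩
    have d2 := me hε a1
    rw [abs_le] at b1 ⊢
    push_cast
    constructor <;> linarith

end

end Pool.Agent.H5.FM
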