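import Mathlib
import Pool.Agent.H5.FM.Hv3

set_option autoImplicit false
open Set

/-! # The monotone version of the bottom of the labelled polygon -/

namespace Pool.Agent.H5.FM

variable {D : Set ℂ} {R r τ κ g σ δ p : ℝ} {q : Par} {e : ℤ} {c : Fin 4 → ℝ}

/-- cuts with margins -/
structure Mrg (D : Set ℂ) (c : Fin 4 → ℝ) (e : ℤ) (p g σ δ : ℝ) : Prop where
  mono : StrictMono c
  gap : ∀ k : Fin 3, g ≤ c k.succ - c k.castSucc
  g0 : ∀ k, g ≤ |c k|
  gw : ∀ k, g ≤ |c k - wd D|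
  gp : ∀ k, g ≤ |c k + xL D - p|
  mL : ∀ k : Fin 4, 0 < c k → c k + xL D < p → (k.val : ℤ) % 2 = e →
    flo D (c k + xL D) + δ ≤ flo D (c k + xL D - σ) ∧
    flo D (c k + xL D + σ) + δ ≤ flo D (c k + xL D)
  mR : ∀ k : Fin 4, c k < wd D → p < c k + xL D → (k.val : ℤ) % 2 ≠ e →
    flo D (c k + xL D) + δ ≤ flo D (c k + xL D + σ) ∧
    flo D (c k + xL D - σ) + δ ≤ flo D (c k + xL D)

lemma cnt_jump (hc : StrictMono c) {s s' : ℝ} (h : cnt c s' = cnt c s + 1) :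
    ∃ k : Fin 4, (k.val : ℤ) = cnt c s ∧ s < c k ∧ c k ≤ s' := by
  rcases cnt_eq hc s with ⟨a1, a2⟩ | ⟨a1, a2, a3⟩ | ⟨a1, a2, a3⟩ | ⟨a1, a2, a3⟩ | ⟨a1, a2⟩ <;>
  rcases cnt_eq hc s' with ⟨b1, b2⟩ | ⟨b1, b2, b3⟩ | ⟨b1, b2, b3⟩ | ⟨b1, b2, b3⟩ | ⟨b1, b2⟩ <;>
  first
  | (exfalso; omega)
  | exact ⟨0, by rw [a2]; rfl, a1, b1⟩
  | exact ⟨1, by rw [a3]; rfl, a2, b1⟩
  | exact ⟨2, by rw [a3]; rfl, a2, b1⟩
  | exact ⟨3, by rw [a3]; rfl, a2, b1⟩

lemma cnt_after (hc : StrictMono c) (hgap : ∀ k : Fin 3, g ≤ c k.succ - c k.castSucc) (k : Fin 4)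
    {s : ℝ} (h1 : c k ≤ s) (h2 : s < c k + g) : cnt c s = (k.val : ℤ) + 1 := by
  have g0 : g ≤ c 1 - c 0 := hgap 0
  have g1 : g ≤ c 2 - c 1 := hgap 1
  have g2 : g ≤ c 3 - c 2 := hgap 2
  have h01 : c 0 < c 1 := hc (by decide)
  have h12 : c 1 < c 2 := hc (by decide)
  have h23 : c 2 < c 3 := hc (by decide)
  match k, h1, h2 with
  | 0, h1, h2 =>
    rcases cnt_eq hc s with ⟨a1, a2⟩ | ⟨a1, a2, a3⟩ | ⟨a1, a2, a3⟩ | ⟨a1, a2, a3⟩ | ⟨a1, a2⟩ <;>
    first
    | (exfalso; linarith)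
    | (rw [a3]; rfl)
  | 1, h1, h2 =>
    rcases cnt_eq hc s with ⟨a1, a2⟩ | ⟨a1, a2, a3⟩ | ⟨a1, a2, a3⟩ | ⟨a1, a2, a3⟩ | ⟨a1, a2⟩ <;>
    first
    | (exfalso; linarith)
    | (rw [a3]; rfl)
  | 2, h1, h2 =>
    rcases cnt_eq hc s with ⟨a1, a2⟩ | ⟨a1, a2, a3⟩ | ⟨a1, a2, a3⟩ | ⟨a1, a2, a3⟩ | ⟨a1, a2⟩ <;>
    first
    | (exfalso; linarith)
    | (rw [a3]; rfl)
  | 3, h1, h2 =>
    rcases cnt_eq hc s with ⟨a1, a2⟩ | ⟨a1, a2, a3⟩ | ⟨a1, a2, a3⟩ | ⟨a1, a2, a3⟩ | ⟨a1, a2⟩ <;>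
    first
    | (exfalso; linarith)
    | (rw [a2]; rfl)

lemma cnt_before (hc : StrictMono c) (hgap : ∀ k : Fin 3, g ≤ c k.succ - c k.castSucc) (k : Fin 4)
    {s : ℝ} (h1 : c k - g ≤ s) (h2 : s < c k) : cnt c s = (k.val : ℤ) := by
  have g0 : g ≤ c 1 - c 0 := hgap 0
  have g1 : g ≤ c 2 - c 1 := hgap 1
  have g2 : g ≤ c 3 - c 2 := hgap 2
  have h01 : c 0 < c 1 := hc (by decide)
  have h12 : c 1 < c 2 := hc (by decide)
  have h23 : c 2 < c 3 := hc (by decide)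
  match k, h1, h2 with
  | 0, h1, h2 =>
    rcases cnt_eq hc s with ⟨a1, a2⟩ | ⟨a1, a2, a3⟩ | ⟨a1, a2, a3⟩ | ⟨a1, a2, a3⟩ | ⟨a1, a2⟩ <;>
    first
    | (exfalso; linarith)
    | (rw [a2]; rfl)
  | 1, h1, h2 =>
    rcases cnt_eq hc s with ⟨a1, a2⟩ | ⟨a1, a2, a3⟩ | ⟨a1, a2, a3⟩ | ⟨a1, a2, a3⟩ | ⟨a1, a2⟩ <;>
    first
    | (exfalso; linarith)
    | (rw [a3]; rfl)
  | 2, h1, h2 =>
    rcases cnt_eq hc s with ⟨a1, a2⟩ | ⟨a1, a2, a3⟩ | ⟨a1, a2, a3⟩ | ⟨a1, a2, a3⟩ | ⟨a1, a2⟩ <;>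
    first
    | (exfalso; linarith)
    | (rw [a3]; rfl)
  | 3, h1, h2 =>
    rcases cnt_eq hc s with ⟨a1, a2⟩ | ⟨a1, a2, a3⟩ | ⟨a1, a2, a3⟩ | ⟨a1, a2, a3⟩ | ⟨a1, a2⟩ <;>
    first
    | (exfalso; linarith)
    | (rw [a3]; rfl)

lemma sbp_succ (q : Par) (D : Set ℂ) (i : ℤ) : sbp q D (i + 1) = sbp q D i + q.ε := by
  unfold sbp; push_cast; ring

lemma sbp_mono (hε : 0 < q.ε) {i j : ℤ} (h : i ≤ j) : sbp q D i ≤ sbp q D j := by
  have := me hε h
  unfold sbp
  linarith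

section

variable (h : CD D) (s : Fine D R r τ κ q) (hp : IsMin D p) (M : Mrg D c e p g σ δ)
  (hg : 4 * τ < g) (hσ : 4 * σ < g) (hσ0 : 0 < σ) {m : ℤ}
include h s hp M hg hσ hσ0

omit hσ0 in
/-- cuts on the left of the lowest point -/
theorem cutP_left (hm : q.ε * m ≤ (1 - q.η) * p) (hmB : m < Bq q D) :
    CutP D q (fun i => cnt c (sbp q D i)) e m p (g / 2) σ δ where
  step := fun i _ _ => by
    have hετ := Fine.ετ h s
    have hτ := s.τ0
    have hε := s.ε0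
    exact cnt_step M.mono M.gap (by rw [sbp_succ]; linarith) (by rw [sbp_succ]; linarith)
  cut := fun i h1 h2 h3 h4 => by
    have hε := s.ε0
    have hτ := s.τ0
    have hετ := Fine.ετ h s
    obtain ⟨k, k1, k2, k3⟩ := cnt_jump M.mono h4
    rw [sbp_succ] at k3
    have hgt := Sml.core_gt h s.toSml h1
    have hlt := Sml.core_lt h s.toSml (i := i + 1) (by omega)
    push_cast at hlt
    have e1 : sbp q D i = q.ε * i - xL D := rfl
    have c0 : 0 < c k := by rw [e1] at k2; linarith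
    have hg0 := M.g0 k
    rw [abs_of_pos c0] at hg0
    have hpn := abs_le.1 (p_near h s hp)
    have hητ := Fine.ητ h s
    have k4 := me hε h2
    push_cast at k4
    have hgp := M.gp k
    have cp : c k + xL D < p := by
      by_contra hcon
      rw [not_lt] at hcon
      rw [abs_of_nonneg (by linarith)] at hgp
      linarith
    rw [abs_of_neg (by linarith)] at hgp
    obtain ⟨m1, m2⟩ := M.mL k c0 cp (by rw [k1]; exact h3)
    have hA := abs_le.1 (s.A_near h)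
    refine ⟨c k + xL D, ?_, by linarith, by linarith, m1, m2, ?_, ?_, by linarith⟩
    · rw [abs_le]; constructor <;> linarith
    · intro i' a1 a2 a3
      have b1 := me hε a2
      have e2 : sbp q D i' = q.ε * i' - xL D := rfl
      show cnt c (sbp q D i') = cnt c (sbp q D i)
      rw [← k1]
      exact cnt_before M.mono M.gap k (by rw [e2]; linarith) (by rw [e2]; linarith)
    · intro i' a1 a2 a3
      have b1 := me1 hε a1
      have e2 : sbp q D i' = q.ε * i' - xL D := rfl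
      show cnt c (sbp q D i') = cnt c (sbp q D i) + 1
      rw [← k1]
      exact cnt_after M.mono M.gap k (by rw [e2]; linarith) (by rw [e2]; linarith)

omit h hp M hg hσ hσ0 s in
lemma flo_rx (D : Set ℂ) (x : ℝ) : flo (rx D) x = flo D (-x) := by
  have e : closure (rx D) = rx (closure D) := by
    have e1 : rx D = (Complex.conjCLE.toHomeomorph.trans (Homeomorph.neg ℂ)) ⁻¹' D := by
      ext z; simp [rx]
    have e2 : rx (closure D) = (Complex.conjCLE.toHomeomorph.trans (Homeomorph.neg ℂ)) ⁻¹' closure D := by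
      ext z; simp [rx]
    rw [e1, e2]
    exact ((Complex.conjCLE.toHomeomorph.trans (Homeomorph.neg ℂ)).preimage_closure D).symm
  unfold flo
  rw [e]
  congr 1
  ext y
  show (⟨x, y⟩ : ℂ) ∈ rx (closure D) ↔ (⟨-x, y⟩ : ℂ) ∈ closure D
  rw [mem_rx]

omit h s M hg hσ hσ0 in
lemma IsMin.rx : IsMin (rx D) (-p) := by
  refine ⟨⟨by rw [xL_rx]; linarith [hp.1.2], by rw [xR_rx]; linarith [hp.1.1]⟩, fun x h1 h2 => ?_⟩
  rw [xL_rx] at h1
  rw [xR_rx] at h2
  rw [flo_rx, flo_rx, neg_neg]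
  exact hp.2 (-x) (by linarith) (by linarith)

omit hσ0 in
/-- cuts on the right of the lowest point -/
theorem cutP_right (hm : q.ε * m ≤ (1 - q.η) * (-p))
    (hmB : m < Bq q (rx D)) :
    CutP (rx D) q (fun i => -cnt c (sbp q D (-i - 1))) e m (-p) (g / 2) σ δ where
  step := fun i _ _ => by
    have hετ := Fine.ετ h s
    have hτ := s.τ0
    have hε := s.ε0
    have e1 : sbp q D (-i - 1) = sbp q D (-(i + 1) - 1) + q.ε := by
      rw [← sbp_succ]; congr 1; ring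
    have := cnt_step M.mono M.gap (s := sbp q D (-(i + 1) - 1)) (s' := sbp q D (-i - 1))
      (by rw [e1]; linarith) (by rw [e1]; linarith)
    omega
  cut := fun i h1 h2 h3 h4 => by
    have hε := s.ε0
    have hτ := s.τ0
    have hετ := Fine.ετ h s
    have hBA : Aq q (rx D) = -Bq q D := by unfold Aq; rw [rx_rx]
    have hAB : Bq q (rx D) = -Aq q D := by unfold Aq; ring
    have e1 : sbp q D (-i - 1) = sbp q D (-(i + 1) - 1) + q.ε := by
      rw [← sbp_succ]; congr 1; ring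
    obtain ⟨k, k1, k2, k3⟩ := cnt_jump M.mono (s := sbp q D (-(i + 1) - 1)) (s' := sbp q D (-i - 1))
      (by omega)
    have e2 : sbp q D (-i - 1) = -(q.ε * i) - q.ε - xL D := by unfold sbp; push_cast; ring
    have e3 : sbp q D (-(i + 1) - 1) = -(q.ε * i) - 2 * q.ε - xL D := by unfold sbp; push_cast; ring
    rw [e2] at k3
    rw [e3] at k2
    have hgt := Sml.core_gt h s.toSml (i := -(i + 1) - 1) (by omega)
    have hlt := Sml.core_lt h s.toSml (i := -i) (by omega)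
    push_cast at hlt hgt
    have hw : wd D = xR D - xL D := rfl
    have c1 : c k < wd D := by rw [hw]; linarith
    have hgw := M.gw k
    rw [abs_of_neg (by linarith)] at hgw
    have hpn := abs_le.1 (p_near h s hp)
    have hητ := Fine.ητ h s
    have k4 := me hε h2
    push_cast at k4
    have hgp := M.gp k
    have cp : p < c k + xL D := by
      by_contra hcon
      rw [not_lt] at hcon
      rw [abs_of_nonpos (by linarith)] at hgp
      linarith
    rw [abs_of_pos (by linarith)] at hgp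
    obtain ⟨m1, m2⟩ := M.mR k c1 cp (by omega)
    have hB := abs_le.1 (s.B_near h)
    refine ⟨-(c k + xL D), ?_, ?_, by linarith, ?_, ?_, ?_, ?_, ?_⟩
    · rw [abs_le]; constructor <;> linarith
    · rw [xL_rx]; linarith
    · rw [flo_rx, flo_rx, neg_neg, show -(-(c k + xL D) - σ) = c k + xL D + σ by ring]
      exact m1
    · rw [flo_rx, flo_rx, neg_neg, show -(-(c k + xL D) + σ) = c k + xL D - σ by ring]
      exact m2
    · intro i' a1 a2 a3
      have b1 := me hε a2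
      have e4 : sbp q D (-i' - 1) = -(q.ε * i') - q.ε - xL D := by unfold sbp; push_cast; ring
      have := cnt_after M.mono M.gap k (s := sbp q D (-i' - 1)) (by rw [e4]; linarith)
        (by rw [e4]; linarith)
      omega
    · intro i' a1 a2 a3
      have b1 := me1 hε a1
      have e4 : sbp q D (-i' - 1) = -(q.ε * i') - q.ε - xL D := by unfold sbp; push_cast; ring
      have := cnt_before M.mono M.gap k (s := sbp q D (-i' - 1)) (by rw [e4]; linarith)
        (by rw [e4]; linarith)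
      omega
    · rw [hBA]
      push_cast
      linarith

end

lemma lo1_rx (q : Par) (D : Set ℂ) (i : ℤ) : lo1 q (rx D) (-i - 1) = lo1 q D i := by
  unfold lo1
  rw [sc_rx, pr_rx]
  have e1 : -(q.ε * (((-i - 1 : ℤ) : ℝ) + 1)) = q.ε * i := by push_cast; ring
  have e2 : -(q.ε * ((-i - 1 : ℤ) : ℝ)) = q.ε * (i + 1) := by push_cast; ring
  rw [e1, e2]

end Pool.Agent.H5.FM
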