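import Mathlib
import Pool.Agent.H5.FM.Hv4

set_option autoImplicit false
open Set

/-! # The monotone version of the bottom: both sides of the lowest point -/

namespace Pool.Agent.H5.FM

variable {D : Set ℂ} {R r τ κ g σ δ p : ℝ} {q : Par} {e : ℤ} {c : Fin 4 → ℝ}

/-- A bottom profile `lo` with labels `Lb`, close to the labels `L`. -/
structure Bot (D : Set ℂ) (q : Par) (L : ℤ → ℤ) (e : ℤ) (σ' : ℝ) (lo Lb : ℤ → ℤ) : Prop where
  b1 : ∀ i, Aq q D ≤ i → i < Bq q D → lo2 q D i ≤ lo i ∧ lo i ≤ lo1 q D i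
  b2 : ∃ m : ℤ, (∀ i, Aq q D ≤ i → i + 1 < Bq q D → i + 1 ≤ m → lo (i + 1) ≤ lo i) ∧
    ∀ i, Aq q D ≤ i → i + 1 < Bq q D → m ≤ i → lo i ≤ lo (i + 1)
  b3 : ∀ i, Aq q D ≤ i → i < Bq q D → Lb i % 2 = e → lo i = lo2 q D i
  b4 : ∀ i, Aq q D ≤ i → i + 1 < Bq q D →
    Lb (i + 1) = Lb i ∨ (Lb (i + 1) = Lb i + 1 ∧ lo (i + 1) ≠ lo i)
  b5 : Lb (Aq q D) = L (Aq q D)
  b6 : Lb (Bq q D - 1) = L (Bq q D - 1)
  b7 : ∀ i, Aq q D ≤ i → i < Bq q D → ∃ i', (Aq q D ≤ i' ∧ i' < Bq q D) ∧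
    |q.ε * i' - q.ε * i| ≤ σ' ∧ L i' = Lb i
  b8 : ∀ i, Aq q D ≤ i → i < Bq q D → lo i ≠ lo1 q D i → ∃ i', (Aq q D ≤ i' ∧ i' < Bq q D) ∧
    |q.ε * i' - q.ε * i| ≤ σ' ∧ L i' % 2 = e

/-- **The monotone bottom.** -/
theorem exists_bot (h : CD D) (s : Fine D R r τ κ q) (s' : Fine (rx D) R r τ κ q)
    (he : e = 0 ∨ e = 1) (hp : IsMin D p) (M : Mrg D c e p g σ δ) (hg : 4 * τ < g)
    (hσ : 4 * σ < g) (hσ0 : 0 < σ) (hδ : 2 * κ < δ) :
    ∃ lo Lb : ℤ → ℤ, Bot D q (fun i => cnt c (sbp q D i)) e (σ + 3 * q.ε) lo Lb := by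
  have hε := s.ε0
  have hτ := s.τ0
  have hετ := Fine.ετ h s
  have hητ := Fine.ητ h s
  have hBA : Aq q (rx D) = -Bq q D := by unfold Aq; rw [rx_rx]
  have hAB : Bq q (rx D) = -Aq q D := by unfold Aq; ring
  have hlt := Sml.A_lt_B h s.toSml
  have hBge := Sml.B_ge s.toSml
  have h1η : 0 < 1 - q.η := by linarith [s.η1]
  obtain ⟨m, hm⟩ : ∃ m : ℤ, m = min ⌊(1 - q.η) * p / q.ε⌋ (Bq q D - 1) := ⟨_, rfl⟩
  have hmB : m < Bq q D := by
    have := min_le_right ⌊(1 - q.η) * p / q.ε⌋ (Bq q D - 1)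
    omega
  have hfl := Int.floor_le ((1 - q.η) * p / q.ε)
  have hfl' := Int.lt_floor_add_one ((1 - q.η) * p / q.ε)
  rw [le_div_iff₀ hε] at hfl
  rw [div_lt_iff₀ hε] at hfl'
  have hm1 : q.ε * m ≤ (1 - q.η) * p := by
    have := me hε (show m ≤ ⌊(1 - q.η) * p / q.ε⌋ from hm ▸ min_le_left _ _)
    linarith
  have hm2 : (1 - q.η) * p ≤ q.ε * (m + 1) := by
    rcases min_choice ⌊(1 - q.η) * p / q.ε⌋ (Bq q D - 1) with e1 | e1
    · rw [e1] at hm
      rw [hm]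
      linarith
    · rw [e1] at hm
      have : (1 - q.η) * p ≤ (1 - q.η) * xR D := mul_le_mul_of_nonneg_left hp.1.2 h1η.le
      rw [hm]
      push_cast
      linarith
  have hmA : Aq q D ≤ m := by
    rw [hm, le_min_iff]
    refine ⟨?_, by omega⟩
    rw [Aq_eq, xL_sc (by linarith [s.η1])]
    exact Int.floor_le_floor (div_le_div_of_nonneg_right
      (mul_le_mul_of_nonneg_left hp.1.1 h1η.le) hε.le)
  -- the left part
  have C1 := cutP_left h s hp M hg hσ hm1 hmB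
  have H1 := C1.lhyp h s hp hm1 hmB hδ (by linarith) hσ0 he
  -- the right part
  have hm' : q.ε * ((-m - 2 : ℤ) : ℝ) ≤ (1 - q.η) * (-p) := by push_cast; linarith
  have hmB' : -m - 2 < Bq q (rx D) := by omega
  have C2 := cutP_right h s hp M hg hσ hm' hmB'
  have H2 := C2.lhyp h.rx s' hp.rx hm' hmB' hδ (by linarith) hσ0 he
  obtain ⟨L, hL⟩ : ∃ L : ℤ → ℤ, L = fun i => cnt c (sbp q D i) := ⟨_, rfl⟩
  obtain ⟨L', hL'⟩ : ∃ L' : ℤ → ℤ, L' = fun i => -cnt c (sbp q D (-i - 1)) := ⟨_, rfl⟩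
  rw [← hL] at C1 H1
  rw [← hL'] at C2 H2
  rw [← hL]
  have hLL : ∀ i, L' (-i - 1) = -L i := fun i => by
    rw [hL, hL']
    show -cnt c (sbp q D (-(-i - 1) - 1)) = -cnt c (sbp q D i)
    rw [show -(-i - 1) - 1 = i by ring]
  have hLL' : ∀ i, L (-i - 1) = -L' i := fun i => by
    have := hLL (-i - 1)
    rw [show -(-i - 1) - 1 = i by ring] at this
    omega
  obtain ⟨f1, hf1⟩ : ∃ f1, f1 = rmin (raw (lo2 q D) (lo1 q D) L e) (Aq q D) := ⟨_, rfl⟩
  obtain ⟨f2, hf2⟩ : ∃ f2, f2 = rmin (raw (lo2 q (rx D)) (lo1 q (rx D)) L' e) (Aq q (rx D)) := ⟨_, rfl⟩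
  obtain ⟨l1, hl1⟩ : ∃ l1, l1 = llb (lo2 q D) L e m := ⟨_, rfl⟩
  obtain ⟨l2, hl2⟩ : ∃ l2, l2 = llb (lo2 q (rx D)) L' e (-m - 2) := ⟨_, rfl⟩
  -- the label does not change at the lowest point
  have hjun : ∀ i, i = m → i + 1 < Bq q D → L (i + 1) = L i := by
    rintro i rfl hi
    have hst := cnt_step M.mono M.gap (s := sbp q D i) (s' := sbp q D (i + 1))
      (by rw [sbp_succ]; linarith) (by rw [sbp_succ]; linarith)
    rw [hL]
    rcases hst with h1 | h1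
    · exact h1
    · exfalso
      obtain ⟨k, k1, k2, k3⟩ := cnt_jump M.mono h1
      rw [sbp_succ] at k3
      have e1 : sbp q D i = q.ε * i - xL D := rfl
      rw [e1] at k2 k3
      have hgp := M.gp k
      have hpn := abs_le.1 (p_near h s hp)
      have : |c k + xL D - p| < g := by
        rw [abs_lt]
        constructor <;> linarith
      linarith
  refine ⟨fun i => if i ≤ m then f1 i else f2 (-i - 1), fun i => if i ≤ m then l1 i else -l2 (-i - 1),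
    ?_⟩
  have b1 : ∀ i, Aq q D ≤ i → i < Bq q D → lo2 q D i ≤ (if i ≤ m then f1 i else f2 (-i - 1)) ∧
      (if i ≤ m then f1 i else f2 (-i - 1)) ≤ lo1 q D i := by
    intro i h1 h2
    split_ifs with hc
    · rw [hf1]
      exact ⟨H1.U_le h1 hc, H1.le_V h1 hc⟩
    · rw [hf2, ← lo2_rx, ← lo1_rx]
      exact ⟨H2.U_le (by omega) (by omega), H2.le_V (by omega) (by omega)⟩
  constructor
  · exact b1
  · -- valley
    have mono1 : ∀ i, Aq q D ≤ i → i + 1 < Bq q D → i + 1 ≤ m →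
        (if i + 1 ≤ m then f1 (i + 1) else f2 (-(i + 1) - 1)) ≤
          (if i ≤ m then f1 i else f2 (-i - 1)) := by
      intro i h1 h2 h3
      rw [if_pos h3, if_pos (by omega), hf1]
      exact LHyp.anti h1
    have mono2 : ∀ i, Aq q D ≤ i → i + 1 < Bq q D → m + 1 ≤ i →
        (if i ≤ m then f1 i else f2 (-i - 1)) ≤
          (if i + 1 ≤ m then f1 (i + 1) else f2 (-(i + 1) - 1)) := by
      intro i h1 h2 h3
      rw [if_neg (by omega), if_neg (by omega), hf2]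
      have := LHyp.anti (U := lo2 q (rx D)) (V := lo1 q (rx D)) (L := L') (e := e)
        (A := Aq q (rx D)) (i := -(i + 1) - 1) (by omega)
      rwa [show -(i + 1) - 1 + 1 = -i - 1 by ring] at this
    by_cases hj : (if m + 1 ≤ m then f1 (m + 1) else f2 (-(m + 1) - 1)) ≤
        (if m ≤ m then f1 m else f2 (-m - 1))
    · refine ⟨m + 1, fun i h1 h2 h3 => ?_, fun i h1 h2 h3 => mono2 i h1 h2 h3⟩
      rcases eq_or_lt_of_le h3 with g1 | g1
      · obtain rfl : i = m := by omega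
        exact hj
      · exact mono1 i h1 h2 (by omega)
    · refine ⟨m, fun i h1 h2 h3 => mono1 i h1 h2 h3, fun i h1 h2 h3 => ?_⟩
      rcases eq_or_lt_of_le h3 with g1 | g1
      · rw [← g1]
        exact (not_le.1 hj).le
      · exact mono2 i h1 h2 (by omega)
  · intro i h1 h2 h3
    split_ifs at h3 ⊢ with hc
    · rw [hf1]
      rw [hl1] at h3
      exact H1.eq_U h1 hc (H1.llb_out h3)
    · rw [hf2, ← lo2_rx]
      rw [hl2] at h3
      exact H2.eq_U (by omega) (by omega) (H2.llb_out (by omega))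
  · intro i h1 h2
    rcases lt_trichotomy i m with hc | hc | hc
    · rw [if_pos (by omega), if_pos (by omega), if_pos (by omega), if_pos (by omega), hf1, hl1]
      exact H1.llb_step h1 (by omega)
    · left
      rw [if_neg (by omega), if_pos (by omega)]
      have e1 : l1 i = L i := by rw [hl1, hc]; exact LHyp.llb_m
      have e2 : l2 (-(i + 1) - 1) = L' (-(i + 1) - 1) := by
        rw [hl2, hc, show -(m + 1) - 1 = -m - 2 by ring]
        exact LHyp.llb_m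
      rw [e1, e2, hLL, neg_neg]
      exact hjun i hc h2
    · rw [if_neg (by omega), if_neg (by omega), if_neg (by omega), if_neg (by omega), hf2, hl2]
      have := H2.llb_step (i := -(i + 1) - 1) (by omega) (by omega)
      rw [show -(i + 1) - 1 + 1 = -i - 1 by ring] at this
      rcases this with g1 | ⟨g1, g2⟩
      · left; rw [g1]
      · right
        exact ⟨by omega, fun hh => g2 hh.symm⟩
  · rw [if_pos hmA, hl1]
    exact H1.llb_A
  · split_ifs with hc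
    · have : m = Bq q D - 1 := by omega
      rw [hl1, ← this]
      exact LHyp.llb_m
    · rw [hl2, show -(Bq q D - 1) - 1 = Aq q (rx D) by rw [hBA]; ring, H2.llb_A]
      have := hLL (Bq q D - 1)
      rw [show -(Bq q D - 1) - 1 = Aq q (rx D) by rw [hBA]; ring] at this
      rw [this, neg_neg]
  · intro i h1 h2
    split_ifs with hc
    · obtain ⟨i', ⟨a1, a2⟩, a3, a4⟩ := near_lab h s hp hm1 hmB C1 hδ hσ0 h1 hc
      exact ⟨i', ⟨a1, by omega⟩, a3, by rw [a4, hl1]⟩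
    · obtain ⟨i', ⟨a1, a2⟩, a3, a4⟩ := near_lab h.rx s' hp.rx hm' hmB' C2 hδ hσ0
        (i := -i - 1) (by omega) (by omega)
      refine ⟨-i' - 1, ⟨by omega, by omega⟩, ?_, by rw [hLL', a4, hl2]⟩
      rw [show q.ε * ((-i' - 1 : ℤ) : ℝ) - q.ε * (i : ℝ) =
        -(q.ε * (i' : ℝ) - q.ε * ((-i - 1 : ℤ) : ℝ)) by push_cast; ring, abs_neg]
      exact a3
  · intro i h1 h2 h3
    split_ifs at h3 with hc
    · rw [hf1] at h3
      obtain ⟨i', ⟨a1, a2⟩, a3, a4⟩ := near_out h s hp hm1 hmB C1 hδ (by linarith) hσ0 he h1 hc h3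
      exact ⟨i', ⟨a1, by omega⟩, a3, a4⟩
    · rw [hf2, ← lo1_rx] at h3
      obtain ⟨i', ⟨a1, a2⟩, a3, a4⟩ := near_out h.rx s' hp.rx hm' hmB' C2 hδ (by linarith) hσ0 he
        (i := -i - 1) (by omega) (by omega) h3
      refine ⟨-i' - 1, ⟨by omega, by omega⟩, ?_, ?_⟩
      · rw [show q.ε * ((-i' - 1 : ℤ) : ℝ) - q.ε * (i : ℝ) =
          -(q.ε * (i' : ℝ) - q.ε * ((-i - 1 : ℤ) : ℝ)) by push_cast; ring, abs_neg]
        exact a3
      · rw [hLL']; omega

end Pool.Agent.H5.FM
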