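import Mathlib
import Pool.Agent.H5.FM.Hv5

set_option autoImplicit false
open Set

/-! # The labelled polygon with monotone sides -/

namespace Pool.Agent.H5.FM

variable {D : Set ℂ} {R r τ κ g σ δ p : ℝ} {q : Par} {e : ℤ} {c : Fin 4 → ℝ}

/-- rotation by `π` -/
def ro (D : Set ℂ) : Set ℂ := rx (cj D)

lemma CD.ro (h : CD D) : CD (ro D) := h.cj.rx

lemma xL_ro (D : Set ℂ) : xL (ro D) = -xR D := by unfold ro; rw [xL_rx, xR_cj]
lemma xR_ro (D : Set ℂ) : xR (ro D) = -xL D := by unfold ro; rw [xR_rx, xL_cj]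
lemma wd_ro (D : Set ℂ) : wd (ro D) = wd D := by unfold wd; rw [xL_ro, xR_ro]; ring
lemma flo_ro (D : Set ℂ) (x : ℝ) : flo (ro D) x = -cei D (-x) := by
  unfold ro; rw [flo_rx, flo_cj]
lemma Aq_ro (q : Par) (D : Set ℂ) : Aq q (ro D) = -Bq q D := by
  unfold ro Aq; rw [rx_rx, Bq_cj]
lemma Bq_ro (q : Par) (D : Set ℂ) : Bq q (ro D) = -Aq q D := by
  unfold ro Aq; rw [neg_neg, ← cj_rx, Bq_cj]
lemma lo1_ro (q : Par) (D : Set ℂ) (i : ℤ) : lo1 q (ro D) (-i - 1) = -up1 q D i := by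
  unfold ro up1; rw [lo1_rx, neg_neg]
lemma lo2_ro (q : Par) (D : Set ℂ) (i : ℤ) : lo2 q (ro D) (-i - 1) = -up2 q D i := by
  unfold ro up2; rw [lo2_rx, neg_neg]
lemma rx_ro (D : Set ℂ) : rx (ro D) = cj D := by unfold ro; rw [rx_rx]

lemma cnt_shift (c : Fin 4 → ℝ) (u s : ℝ) : cnt (fun k => c k - u) s = cnt c (s + u) := by
  unfold cnt
  simp only [sub_le_iff_le_add]

lemma sbp_ro (q : Par) (D : Set ℂ) (i : ℤ) : sbp q (ro D) (-i - 1) + (wd D + tr D) = stp q D i := by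
  unfold sbp stp
  rw [xL_ro]
  push_cast
  ring

/-- A top profile `up` with labels `Lt`, close to the labels `L`. -/
structure Top (D : Set ℂ) (q : Par) (L : ℤ → ℤ) (e : ℤ) (σ' : ℝ) (up Lt : ℤ → ℤ) : Prop where
  t1 : ∀ i, Aq q D ≤ i → i < Bq q D → up1 q D i ≤ up i ∧ up i ≤ up2 q D i
  t2 : ∃ m : ℤ, (∀ i, Aq q D ≤ i → i + 1 < Bq q D → i + 1 ≤ m → up i ≤ up (i + 1)) ∧
    ∀ i, Aq q D ≤ i → i + 1 < Bq q D → m ≤ i → up (i + 1) ≤ up i
  t3 : ∀ i, Aq q D ≤ i → i < Bq q D → Lt i % 2 = e → up i = up2 q D i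
  t4 : ∀ i, Aq q D ≤ i → i + 1 < Bq q D →
    Lt i = Lt (i + 1) ∨ (Lt i = Lt (i + 1) + 1 ∧ up i ≠ up (i + 1))
  t5 : Lt (Bq q D - 1) = L (Bq q D - 1)
  t6 : Lt (Aq q D) = L (Aq q D)
  t7 : ∀ i, Aq q D ≤ i → i < Bq q D → ∃ i', (Aq q D ≤ i' ∧ i' < Bq q D) ∧
    |q.ε * i' - q.ε * i| ≤ σ' ∧ L i' = Lt i
  t8 : ∀ i, Aq q D ≤ i → i < Bq q D → up i ≠ up1 q D i → ∃ i', (Aq q D ≤ i' ∧ i' < Bq q D) ∧
    |q.ε * i' - q.ε * i| ≤ σ' ∧ L i' % 2 = e

/-- **The monotone top.** -/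
theorem exists_top (h : CD D) (s : Fine (ro D) R r τ κ q) (s' : Fine (cj D) R r τ κ q)
    (he : e = 0 ∨ e = 1) (hp : IsMin (ro D) p) (M : Mrg (ro D) (fun k => c k - (wd D + tr D)) e p g σ δ)
    (hg : 4 * τ < g) (hσ : 4 * σ < g) (hσ0 : 0 < σ) (hδ : 2 * κ < δ) :
    ∃ up Lt : ℤ → ℤ, Top D q (fun i => cnt c (stp q D i)) e (σ + 3 * q.ε) up Lt := by
  obtain ⟨lo, Lb, B⟩ := exists_bot h.ro s (by rw [rx_ro]; exact s') he hp M hg hσ hσ0 hδ
  have hA := Aq_ro q D
  have hB := Bq_ro q D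
  have hL : ∀ i, cnt (fun k => c k - (wd D + tr D)) (sbp q (ro D) (-i - 1)) = cnt c (stp q D i) :=
    fun i => by rw [cnt_shift, sbp_ro]
  have hL' : ∀ i, cnt (fun k => c k - (wd D + tr D)) (sbp q (ro D) i) = cnt c (stp q D (-i - 1)) :=
    fun i => by
      rw [← hL]
      congr 2
      ring
  refine ⟨fun i => -lo (-i - 1), fun i => Lb (-i - 1), ?_⟩
  constructor
  · intro i h1 h2
    have := B.b1 (-i - 1) (by omega) (by omega)
    rw [lo1_ro, lo2_ro] at this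
    constructor <;> omega
  · obtain ⟨m, m1, m2⟩ := B.b2
    refine ⟨-m - 1, fun i h1 h2 h3 => ?_, fun i h1 h2 h3 => ?_⟩
    · have := m2 (-(i + 1) - 1) (by omega) (by omega) (by omega)
      rw [show -(i + 1) - 1 + 1 = -i - 1 by ring] at this
      omega
    · have := m1 (-(i + 1) - 1) (by omega) (by omega) (by omega)
      rw [show -(i + 1) - 1 + 1 = -i - 1 by ring] at this
      omega
  · intro i h1 h2 h3
    have := B.b3 (-i - 1) (by omega) (by omega) h3
    rw [lo2_ro] at this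
    omega
  · intro i h1 h2
    have := B.b4 (-(i + 1) - 1) (by omega) (by omega)
    rw [show -(i + 1) - 1 + 1 = -i - 1 by ring] at this
    rcases this with g1 | ⟨g1, g2⟩
    · exact Or.inl g1
    · right
      exact ⟨g1, fun hh => g2 (by omega)⟩
  · have := B.b5
    rw [hA] at this
    rw [show -(Bq q D - 1) - 1 = -Bq q D by ring, this, hL']
    congr 2
    ring
  · have := B.b6
    rw [hB] at this
    rw [this, hL]
  · intro i h1 h2
    obtain ⟨i', ⟨a1, a2⟩, a3, a4⟩ := B.b7 (-i - 1) (by omega) (by omega)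
    refine ⟨-i' - 1, ⟨by omega, by omega⟩, ?_, by rw [← a4, hL']⟩
    rw [show q.ε * ((-i' - 1 : ℤ) : ℝ) - q.ε * (i : ℝ) =
      -(q.ε * (i' : ℝ) - q.ε * ((-i - 1 : ℤ) : ℝ)) by push_cast; ring, abs_neg]
    exact a3
  · intro i h1 h2 h3
    obtain ⟨i', ⟨a1, a2⟩, a3, a4⟩ := B.b8 (-i - 1) (by omega) (by omega) (by
      rw [lo1_ro]; intro hh; exact h3 (by omega))
    refine ⟨-i' - 1, ⟨by omega, by omega⟩, ?_, by rw [← hL']; exact a4⟩
    rw [show q.ε * ((-i' - 1 : ℤ) : ℝ) - q.ε * (i : ℝ) =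
      -(q.ε * (i' : ℝ) - q.ε * ((-i - 1 : ℤ) : ℝ)) by push_cast; ring, abs_neg]
    exact a3

/-! ### Labels at the corners of the core -/

section

variable (h : CD D) (s : Fine D R r τ κ q)
include h s

omit h s in
/-- a value between two values close to `y` -/
lemma between {a b v y : ℝ} (h1 : |a - y| ≤ κ) (h2 : |b - y| ≤ κ) (h3 : a ≤ v) (h4 : v ≤ b) :
    |v - y| ≤ κ := by
  rw [abs_le] at *
  constructor <;> linarith

lemma br_step' (hg : κ + τ < g) (hc : Cuts D g c) {y : ℤ}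
    (hy : |q.ε * y - flo D (xR D)| ≤ κ) :
    cnt c (srp q D y) = cnt c (sbp q D (Bq q D - 1)) ∨
    cnt c (srp q D y) = cnt c (sbp q D (Bq q D - 1)) + 1 := by
  have h1 := Fine.ητ h s
  have h2 := s.ε0
  have h3 := mul_pos s.η0 s.R0
  have h4 := s.κ0
  have h5 := abs_le.1 hy
  have h6 := abs_le.1 (s.B_near h)
  have h7 := h.flo_le_cei h.hLR.le le_rfl
  have h8 := clp_ge (flo D (xR D)) (cei D (xR D)) (q.ε * y)
  have h9 := clp_le' (y := q.ε * y) (a := flo D (xR D)) (b := cei D (xR D)) h4.le (by linarith)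
  have h10 := s.core_lt h (i := Bq q D - 1) (by omega)
  apply hc.step
  · unfold srp sbp wd
    linarith
  · unfold srp sbp wd
    push_cast
    linarith

lemma rt_step' (hg : κ + τ < g) (hc : Cuts D g c) {y : ℤ}
    (hy : |q.ε * y - cei D (xR D)| ≤ κ) :
    cnt c (stp q D (Bq q D - 1)) = cnt c (srp q D (y - 1)) ∨
    cnt c (stp q D (Bq q D - 1)) = cnt c (srp q D (y - 1)) + 1 := by
  have h1 := Fine.ητ h s
  have h2 := s.ε0
  have h3 := mul_pos s.η0 s.R0
  have h4 := s.κ0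
  have h5 := abs_le.1 hy
  have h6 := abs_le.1 (s.B_near h)
  have h7 := h.flo_le_cei h.hLR.le le_rfl
  have h8 := clp_le h7 (q.ε * ((y - 1 : ℤ) : ℝ))
  have h9 := clp_ge' (a := flo D (xR D)) (b := cei D (xR D)) (κ := κ + q.ε)
    (y := q.ε * ((y - 1 : ℤ) : ℝ)) (by linarith) (by push_cast; linarith)
  have h10 := s.core_lt h (i := Bq q D) (by omega)
  apply hc.step
  · unfold stp srp tr
    push_cast at *
    linarith
  · unfold stp srp tr
    push_cast at *
    linarith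

lemma tl_step' (hg : κ + τ < g) (hc : Cuts D g c) {y : ℤ}
    (hy : |q.ε * y - cei D (xL D)| ≤ κ) :
    cnt c (slp q D (y - 1)) = cnt c (stp q D (Aq q D)) ∨
    cnt c (slp q D (y - 1)) = cnt c (stp q D (Aq q D)) + 1 := by
  have h1 := Fine.ητ h s
  have h2 := s.ε0
  have h3 := mul_pos s.η0 s.R0
  have h4 := s.κ0
  have h5 := abs_le.1 hy
  have h6 := abs_le.1 (s.A_near h)
  have h7 := h.flo_le_cei le_rfl h.hLR.le
  have e1 : q.ε * (((y - 1 : ℤ) : ℝ) + 1) = q.ε * y := by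
    push_cast; ring
  have h8 := clp_le h7 (q.ε * y)
  have h9 := clp_ge' (a := flo D (xL D)) (b := cei D (xL D)) (κ := κ)
    (y := q.ε * y) h4.le (by linarith)
  have h10 := s.core_gt h (i := Aq q D) (by omega)
  apply hc.step
  · unfold stp slp wd
    rw [e1]
    linarith
  · unfold stp slp wd
    rw [e1]
    linarith

lemma h4_step' (hg : κ + τ < g) (hc : Cuts D g c) {y : ℤ}
    (hy : |q.ε * y - flo D (xL D)| ≤ κ) :
    cnt c (slp q D y) = 3 ∨ cnt c (slp q D y) = 4 := by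
  have h1' := Fine.ητ h s
  have h2' := s.ε0
  have h3' := mul_pos s.η0 s.R0
  have h4' := s.κ0
  have h5 := abs_le.1 hy
  have h7 := h.flo_le_cei le_rfl h.hLR.le
  have h8 := clp_ge (flo D (xL D)) (cei D (xL D)) (q.ε * ((y : ℝ) + 1))
  have h9 := clp_le' (y := q.ε * ((y : ℝ) + 1)) (κ := κ + q.ε) (a := flo D (xL D))
    (b := cei D (xL D)) (by linarith)
    (by linarith)
  have h1 : TD D - κ - τ < slp q D y ∧ slp q D y ≤ TD D := by
    unfold slp TD tl
    constructor <;> linarith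
  have h2 := hc.gT
  have hm : c 0 < c 1 := hc.mono (by decide)
  have hm1 : c 1 < c 2 := hc.mono (by decide)
  have hm2 : c 2 < c 3 := hc.mono (by decide)
  rcases cnt_eq hc.mono (slp q D y) with ⟨a1, a2⟩ | ⟨a1, a2, a3⟩ |
    ⟨a1, a2, a3⟩ | ⟨a1, a2, a3⟩ | ⟨a1, a2⟩
  · exfalso; linarith [h1.1]
  · exfalso; linarith [h1.1]
  · exfalso; linarith [h1.1]
  · exact Or.inl a3
  · exact Or.inr a2

end

/-- data of the monotone labelled polygon -/
structure HV (D : Set ℂ) (q : Par) (c : Fin 4 → ℝ) (e : ℤ) (σ' : ℝ) where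
  lo : ℤ → ℤ
  Lb : ℤ → ℤ
  up : ℤ → ℤ
  Lt : ℤ → ℤ
  B : Bot D q (fun i => cnt c (sbp q D i)) e σ' lo Lb
  T : Top D q (fun i => cnt c (stp q D i)) e σ' up Lt

/-- **The monotone labelled polygon**. The arcs whose label is `e` modulo `2` are outer. -/
noncomputable def HV.mk' {σ' : ℝ} (h : CD D) (s : Fine D R r τ κ q) (e : ℤ) (he : e = 0 ∨ e = 1)
    (hg : κ + τ < g) (hc : Cuts D g c) (V : HV D q c e σ') : LProf where
  a := Aq q D
  b := Bq q D
  lo := V.lo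
  up := V.up
  rt := mrt q D c e
  lt := mlt q D c e
  hab := Sml.A_lt_B h s.toSml
  hlu := fun i h1 h2 => by
    have := Sml.lo1_lt_up1 h s.toSml h1 h2
    have := (V.B.b1 i h1 h2).2
    have := (V.T.t1 i h1 h2).1
    omega
  hov1 := fun i h1 h2 => by
    have := (Sml.overlap h s.toSml h1 h2).1
    have := (V.B.b1 i h1 (by omega)).2
    have := (V.T.t1 (i + 1) (by omega) h2).1
    omega
  hov2 := fun i h1 h2 => by
    have := (Sml.overlap h s.toSml h1 h2).2
    have := (V.B.b1 (i + 1) (by omega) h2).2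
    have := (V.T.t1 i h1 (by omega)).1
    omega
  hrt := fun j _ _ => mrt_ge e j
  hlt := fun j _ _ => mlt_le e j
  Lb := V.Lb
  Lr := fun j => cnt c (srp q D j)
  Lt := V.Lt
  Ll := fun j => cnt c (slp q D j)
  hb := V.B.b4
  hr := fun j _ _ => by
    rcases sr_step h s hg j hc with e1 | e1
    · exact Or.inl e1
    · right
      refine ⟨e1, ?_⟩
      have g1 := Sml.rt2_gt (q := q) (D := D) j
      have g2 := Sml.rt2_gt (q := q) (D := D) (j + 1)
      unfold mrt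
      split_ifs <;> omega
  ht := V.T.t4
  hl := fun j _ _ => by
    rcases sl_step h s hg j hc with e1 | e1
    · exact Or.inl e1
    · right
      refine ⟨e1, ?_⟩
      have g1 := lt2_lt (q := q) (D := D) j
      have g2 := lt2_lt (q := q) (D := D) (j + 1)
      unfold mlt
      split_ifs <;> omega
  h0 := by
    have := V.B.b5
    rw [this]
    exact h0_step h s hg hc
  hbr := by
    have hAB := Sml.A_lt_B h s.toSml
    have k := V.B.b1 (Bq q D - 1) (by omega) (by omega)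
    have k' := Fine.flo_B h s
    rw [V.B.b6]
    exact br_step' h s hg hc (between k'.2 k'.1 (me s.ε0 k.1) (me s.ε0 k.2))
  hrt' := by
    have hAB := Sml.A_lt_B h s.toSml
    have k := V.T.t1 (Bq q D - 1) (by omega) (by omega)
    have k' := Fine.cei_B h s
    rw [V.T.t5]
    exact rt_step' h s hg hc (between k'.1 k'.2 (me s.ε0 k.1) (me s.ε0 k.2))
  htl := by
    have hAB := Sml.A_lt_B h s.toSml
    have k := V.T.t1 (Aq q D) (by omega) (by omega)
    have k' := Fine.cei_A h s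
    rw [V.T.t6]
    exact tl_step' h s hg hc (between k'.1 k'.2 (me s.ε0 k.1) (me s.ε0 k.2))
  h4 := by
    have hAB := Sml.A_lt_B h s.toSml
    have k := V.B.b1 (Aq q D) (by omega) (by omega)
    have k' := Fine.flo_A h s
    exact h4_step' h s hg hc (between k'.2 k'.1 (me s.ε0 k.1) (me s.ε0 k.2))

end Pool.Agent.H5.FM
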