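import Mathlib
import Pool.Agent.H5.FM.Hv6
import Pool.Agent.H5.FM.Out

set_option autoImplicit false
open Set

/-! # The sides of the monotone labelled polygon -/

namespace Pool.Agent.H5.FM

open Pool.Agent.Q1.M4 (Cell)

variable {D : Set ℂ} {R r τ κ g σ' ω : ℝ} {q : Par} {e : ℤ} {c : Fin 4 → ℝ}

/-- modulus of continuity of the boundary loop -/
def GMod (D : Set ℂ) (σ' ω : ℝ) : Prop := ∀ s s', 0 ≤ s → s ≤ TD D → 0 ≤ s' → s' ≤ TD D →
  |s - s'| ≤ σ' → ‖Gam D s - Gam D s'‖ ≤ ω

lemma Nr.mono {K K' : ℝ} {m : ℤ} {z : ℂ} (h : Nr D c K m z) (hK : K ≤ K') : Nr D c K' m z := by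
  obtain ⟨t, h1, h2, h3, h4⟩ := h
  exact ⟨t, h1, h2, h3, h4.trans hK⟩

section

variable (h : CD D) (s : Fine D R r τ κ q)
include h s

lemma sbp_rng {i : ℤ} (h1 : Aq q D ≤ i) (h2 : i < Bq q D) : 0 ≤ sbp q D i ∧ sbp q D i ≤ TD D := by
  have g1 := s.core_gt h h1
  have g2 := s.core_lt h h2.le
  have hε := s.ε0
  have hw := h.wd_pos
  have ht := h.tr_nonneg
  have htl := h.tl_nonneg
  constructor
  · unfold sbp; linarith
  · rw [TD_eq]; unfold sbp wd at *; linarith

lemma stp_rng {i : ℤ} (h1 : Aq q D ≤ i) (h2 : i < Bq q D) : 0 ≤ stp q D i ∧ stp q D i ≤ TD D := by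
  have g1 := s.core_gt h h1
  have g2 := s.core_lt h (i := i + 1) (by omega)
  push_cast at g2
  have hε := s.ε0
  have hw := h.wd_pos
  have ht := h.tr_nonneg
  have htl := h.tl_nonneg
  constructor
  · unfold stp; linarith
  · rw [TD_eq]; unfold stp wd at *; linarith

lemma near_bC (O : GMod D σ' ω) {n : ℤ → ℤ}
    (hn : ∀ i, Aq q D ≤ i → i < Bq q D → ∃ i', (Aq q D ≤ i' ∧ i' < Bq q D) ∧
      |q.ε * i' - q.ε * i| ≤ σ' ∧ cnt c (sbp q D i') = n i) {i i1 i2 : ℤ} (h1 : Aq q D ≤ i) (h2 : i < Bq q D)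
    (h11 : Aq q D ≤ i1)
    (h12 : i1 < Bq q D) (h13 : i1 - i ≤ 1) (h14 : i - i1 ≤ 1) (h21 : Aq q D ≤ i2)
    (h22 : i2 < Bq q D) (h23 : i2 - i ≤ 1) (h24 : i - i2 ≤ 1) {z : ℂ}
    (hx : |z.re - q.ε * i| ≤ 3 * τ) (hy1 : q.ε * lo2 q D i1 ≤ z.im)
    (hy2 : z.im ≤ q.ε * lo1 q D i2) : Nr D c (4 * κ + ω) (n i) z := by
  obtain ⟨i', ⟨a1, a2⟩, a3, a4⟩ := hn i h1 h2
  have g1 := s.core_gt h h1
  have g2 := s.core_lt h h2.le
  have hε := s.ε0
  have hτ := s.τ0
  have hετ := Fine.ετ h s
  have hκ := s.τκ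
  have hd : ∀ i' : ℤ, i' - i ≤ 1 → i - i' ≤ 1 → |q.ε * (i : ℝ) - q.ε * i'| ≤ 4 * τ := by
    intro i' a1 a2
    have b1 : (i' : ℝ) - i ≤ 1 := by exact_mod_cast a1
    have b2 : (i : ℝ) - i' ≤ 1 := by exact_mod_cast a2
    rw [abs_le]
    constructor <;> nlinarith
  obtain ⟨r1, r2⟩ := sbp_rng h s h1 h2
  obtain ⟨r3, r4⟩ := sbp_rng h s a1 a2
  have hO := O (sbp q D i) (sbp q D i') r1 r2 r3 r4 (by
    unfold sbp
    rw [abs_sub_comm, show q.ε * (i' : ℝ) - xL D - (q.ε * (i : ℝ) - xL D) = q.ε * i' - q.ε * i by ring]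
    exact a3)
  refine ⟨sbp q D i', r3, r4, a4, ?_⟩
  have key : ‖z - Gam D (sbp q D i)‖ ≤ 4 * κ := by
    have e : Gam D (sbp q D i) = ⟨q.ε * i, flo D (q.ε * i)⟩ := Gam_b (by linarith)
    rw [e]
    have k1 := abs_le.1 (s.clf i1 h11 h12 (q.ε * i) (by linarith) (by linarith) (hd _ h13 h14)).2
    have k2 := abs_le.1 (s.clf i2 h21 h22 (q.ε * i) (by linarith) (by linarith) (hd _ h23 h24)).1
    apply norm_le_four
    · simp only; linarith
    · simp only; rw [abs_le]; constructor <;> linarith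
  have := norm_sub_le_norm_sub_add_norm_sub z (Gam D (sbp q D i)) (Gam D (sbp q D i'))
  linarith

lemma near_tC (O : GMod D σ' ω) {n : ℤ → ℤ}
    (hn : ∀ i, Aq q D ≤ i → i < Bq q D → ∃ i', (Aq q D ≤ i' ∧ i' < Bq q D) ∧
      |q.ε * i' - q.ε * i| ≤ σ' ∧ cnt c (stp q D i') = n i) {i i1 i2 : ℤ} (h1 : Aq q D ≤ i) (h2 : i < Bq q D)
    (h11 : Aq q D ≤ i1)
    (h12 : i1 < Bq q D) (h13 : i1 - i ≤ 1) (h14 : i - i1 ≤ 1) (h21 : Aq q D ≤ i2)
    (h22 : i2 < Bq q D) (h23 : i2 - i ≤ 1) (h24 : i - i2 ≤ 1) {z : ℂ}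
    (hx : |z.re - q.ε * i| ≤ 3 * τ) (hy1 : q.ε * up1 q D i1 ≤ z.im)
    (hy2 : z.im ≤ q.ε * up2 q D i2) : Nr D c (4 * κ + ω) (n i) z := by
  obtain ⟨i', ⟨a1, a2⟩, a3, a4⟩ := hn i h1 h2
  have g1 := s.core_gt h h1
  have g2 := s.core_lt h (i := i + 1) (by omega)
  push_cast at g2
  have hε := s.ε0
  have hτ := s.τ0
  have hετ := Fine.ετ h s
  have hκ := s.τκ
  have hd : ∀ i' : ℤ, i' - i ≤ 1 → i - i' ≤ 1 → |q.ε * ((i : ℝ) + 1) - q.ε * i'| ≤ 4 * τ := by
    intro i' a1 a2
    have b1 : (i' : ℝ) - i ≤ 1 := by exact_mod_cast a1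
    have b2 : (i : ℝ) - i' ≤ 1 := by exact_mod_cast a2
    rw [abs_le]
    constructor <;> nlinarith
  obtain ⟨r1, r2⟩ := stp_rng h s h1 h2
  obtain ⟨r3, r4⟩ := stp_rng h s a1 a2
  have hO := O (stp q D i) (stp q D i') r1 r2 r3 r4 (by
    unfold stp
    rw [show wd D + tr D + (xR D - q.ε * ((i : ℝ) + 1)) - (wd D + tr D + (xR D - q.ε * ((i' : ℝ) + 1))) =
      q.ε * i' - q.ε * i by ring]
    exact a3)
  refine ⟨stp q D i', r3, r4, a4, ?_⟩
  have key : ‖z - Gam D (stp q D i)‖ ≤ 4 * κ := by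
    have e : Gam D (stp q D i) = ⟨q.ε * (i + 1), cei D (q.ε * (i + 1))⟩ :=
      Gam_t h (by linarith) (by linarith)
    rw [e]
    have k1 := abs_le.1 (s.clc i1 h11 h12 (q.ε * (i + 1)) (by linarith) (by linarith)
      (hd _ h13 h14)).1
    have k2 := abs_le.1 (s.clc i2 h21 h22 (q.ε * (i + 1)) (by linarith) (by linarith)
      (hd _ h23 h24)).2
    rw [abs_le] at hx
    apply norm_le_four
    · simp only; rw [abs_le]; constructor <;> linarith
    · simp only; rw [abs_le]; constructor <;> linarith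
  have := norm_sub_le_norm_sub_add_norm_sub z (Gam D (stp q D i)) (Gam D (stp q D i'))
  linarith

lemma rowR' {lo up : ℤ → ℤ} (e : ℤ)
    (hlo : ∀ i, Aq q D ≤ i → i < Bq q D → lo2 q D i ≤ lo i ∧ lo i ≤ lo1 q D i)
    (hup : ∀ i, Aq q D ≤ i → i < Bq q D → up1 q D i ≤ up i ∧ up i ≤ up2 q D i)
    {j : ℤ} (h1 : lo (Bq q D - 1) ≤ j) (h2 : j < up (Bq q D - 1)) :
    (flo D (xR D) - κ ≤ q.ε * j ∧ q.ε * j + q.ε ≤ cei D (xR D) + κ) ∧
    q.ε * mrt q D c e j ≤ xR D + 2 * τ ∧ xR D - τ / 2 ≤ q.ε * Bq q D := by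
  have hε := s.ε0
  have hAB := Sml.A_lt_B h s.toSml
  have k3 := hlo (Bq q D - 1) (by omega) (by omega)
  have k4 := hup (Bq q D - 1) (by omega) (by omega)
  have k1 := abs_le.1 (Fine.flo_B h s).2
  have k2 := abs_le.1 (Fine.cei_B h s).2
  have k5 := abs_le.1 (s.B_near h)
  have k6 := Fine.ητ h s
  have h3 := mul_pos s.η0 s.R0
  have m1 := me hε (k3.1.trans h1)
  have m2 := me1 hε (lt_of_lt_of_le h2 k4.2)
  have h5 := s.hτ
  have h6 := Fine.ετ h s
  refine ⟨⟨by linarith, by linarith⟩, ?_, by linarith⟩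
  unfold mrt
  split_ifs
  · have := Sml.rt2_le h s.toSml (Sml.row_ne h s.toSml (i := Bq q D - 1) (j := j) (by omega)
      (by omega) (by omega) (by omega))
    linarith
  · linarith

lemma rowL' {lo up : ℤ → ℤ} (e : ℤ)
    (hlo : ∀ i, Aq q D ≤ i → i < Bq q D → lo2 q D i ≤ lo i ∧ lo i ≤ lo1 q D i)
    (hup : ∀ i, Aq q D ≤ i → i < Bq q D → up1 q D i ≤ up i ∧ up i ≤ up2 q D i)
    {j : ℤ} (h1 : lo (Aq q D) ≤ j) (h2 : j < up (Aq q D)) :
    (flo D (xL D) - κ ≤ q.ε * j ∧ q.ε * j + q.ε ≤ cei D (xL D) + κ) ∧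
    xL D - 2 * τ ≤ q.ε * mlt q D c e j ∧ q.ε * Aq q D ≤ xL D + τ / 2 := by
  have hε := s.ε0
  have hAB := Sml.A_lt_B h s.toSml
  have k3 := hlo (Aq q D) (by omega) (by omega)
  have k4 := hup (Aq q D) (by omega) (by omega)
  have k1 := abs_le.1 (Fine.flo_A h s).2
  have k2 := abs_le.1 (Fine.cei_A h s).2
  have k5 := abs_le.1 (s.A_near h)
  have k6 := Fine.ητ h s
  have h3 := mul_pos s.η0 s.R0
  have m1 := me hε (k3.1.trans h1)
  have m2 := me1 hε (lt_of_lt_of_le h2 k4.2)
  have h5 := s.hτ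
  have h6 := Fine.ετ h s
  refine ⟨⟨by linarith, by linarith⟩, ?_, by linarith⟩
  unfold mlt
  split_ifs
  · have := Sml.lt2_ge h s.toSml (Sml.row_ne h s.toSml (i := Aq q D) (j := j) (by omega)
      (by omega) (by omega) (by omega))
    linarith
  · linarith

end

section

variable (h : CD D) (s : Fine D R r τ κ q) (e : ℤ) (he : e = 0 ∨ e = 1) (hg : κ + τ < g)
  (hc : Cuts D g c) (V : HV D q c e σ') (O : GMod D σ' ω) (hω : 0 ≤ ω)
include h s he hg hc V

include O hω in
/-- **The sides are near their arcs.** -/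
theorem near_sideV {sd : Cell × ℤ} {m : ℤ} (hL : (V.mk' h s e he hg hc).Lab sd m) {z : ℂ}
    (hz : OnS q.ε sd z) : Nr D c (4 * κ + ω) m z := by
  have hε := s.ε0
  have hτ := s.τ0
  have hετ := Fine.ετ h s
  have hAB := Sml.A_lt_B h s.toSml
  have hB := abs_le.1 (s.B_near h)
  have hA := abs_le.1 (s.A_near h)
  have hητ := Fine.ητ h s
  have hη0 := mul_pos s.η0 s.R0
  have hlo := V.B.b1
  have hup := V.T.t1
  have hNb := V.B.b7
  have hNt := V.T.t7
  cases hL with
  | b0 i h1 h2 =>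
    obtain ⟨z1, z2, z3⟩ := onS0 hz
    have k := hlo _ h1 h2
    apply near_bC h s O hNb (i := i) (i1 := i) (i2 := i) h1 h2 h1 h2 (by omega) (by omega) h1 h2 (by omega)
      (by omega)
    · rw [abs_le]; constructor <;> linarith
    · rw [z1]; exact me hε k.1
    · rw [z1]; exact me hε k.2
  | bo i j h1 h2 h3 h4 =>
    obtain ⟨z1, z2, z3⟩ := onSm1 hz
    push_cast at z1
    have k := hlo _ h1 (by have : i + 1 < Bq q D := h2; omega)
    have k' := hlo (i + 1) (by have : Aq q D ≤ i := h1; omega) h2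
    have k3 := me hε (k'.1.trans h3)
    have k4 := me1 hε h4
    have k5 := me hε k.2
    apply near_bC h s O hNb (i := i) (i1 := i + 1) (i2 := i) h1
      (by have : i + 1 < Bq q D := h2; omega) (by have : Aq q D ≤ i := h1; omega) h2 (by omega)
      (by omega) h1 (by have : i + 1 < Bq q D := h2; omega) (by omega) (by omega)
    · rw [abs_le]; constructor <;> linarith
    · linarith
    · have e4 : (V.mk' h s e he hg hc).lo i = V.lo i := rfl
      rw [e4] at k4
      linarith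
  | bi i j h1 h2 h3 h4 =>
    obtain ⟨z1, z2, z3⟩ := onS1 hz
    have k := hlo _ h1 (by have : i + 1 < Bq q D := h2; omega)
    have k' := hlo (i + 1) (by have : Aq q D ≤ i := h1; omega) h2
    have k3 := me hε (k.1.trans h3)
    have k4 := me1 hε h4
    have k5 := me hε k'.2
    apply near_bC h s O hNb (i := i + 1) (i1 := i) (i2 := i + 1) (by have : Aq q D ≤ i := h1; omega) h2
      h1 (by have : i + 1 < Bq q D := h2; omega) (by omega) (by omega)
      (by have : Aq q D ≤ i := h1; omega) h2 (by omega) (by omega)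
    · push_cast; rw [z1, abs_le]; constructor <;> linarith
    · linarith
    · have e4 : (V.mk' h s e he hg hc).lo (i + 1) = V.lo (i + 1) := rfl
      rw [e4] at k4
      linarith
  | c1 i h1 h2 =>
    obtain ⟨z1, z2, z3⟩ := onS0 hz
    have k := hlo (Bq q D - 1) (by omega) (by omega)
    have k1 := hup (Bq q D - 1) (by omega) (by omega)
    have k2 := Sml.lo1_lt_up1 h s.toSml (i := Bq q D - 1) (by omega) (by omega)
    have e1 : (V.mk' h s e he hg hc).r1 = V.lo (Bq q D - 1) := rfl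
    rw [e1] at z1 h2
    have k3 := rowR' (c := c) h s e hlo hup (j := V.lo (Bq q D - 1)) le_rfl (by omega)
    have k4 := me hε (show Bq q D ≤ i from h1)
    have k5 := me1 hε (show i < mrt q D c e (V.lo (Bq q D - 1)) from h2)
    have e2 : q.ε * ((Bq q D - 1 : ℤ) : ℝ) = q.ε * Bq q D - q.ε := by push_cast; ring
    apply near_bC h s O hNb (i := Bq q D - 1) (i1 := Bq q D - 1) (i2 := Bq q D - 1) (by omega) (by omega)
      (by omega) (by omega) (by omega) (by omega) (by omega) (by omega) (by omega) (by omega)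
    · rw [e2, abs_le]; constructor <;> linarith
    · rw [z1]; exact me hε k.1
    · rw [z1]; exact me hε k.2
  | r0 j h1 h2 =>
    obtain ⟨z1, z2, z3⟩ := onS1 hz
    have k3 := rowR' (c := c) h s e hlo hup (j := j) h1 h2
    have k4 := me hε (mrt_ge (q := q) (D := D) (c := c) e j)
    have e1 : q.ε * ((((V.mk' h s e he hg hc).rt j - 1 : ℤ) : ℝ) + 1) = q.ε * mrt q D c e j := by
      push_cast
      have : (V.mk' h s e he hg hc).rt j = mrt q D c e j := rfl
      rw [this]; ring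
    rw [e1] at z1
    refine Nr.mono (K := 4 * κ) ?_ (by linarith)
    apply near_r h s
    · rw [z1, abs_le]; constructor <;> linarith
    · rw [abs_le]; constructor <;> linarith
    · exact k3.1.1
    · linarith [k3.1.2]
  | ro i j h1 h2 h3 h4 =>
    obtain ⟨z1, z2, z3⟩ := onS0 hz
    have e2 : (V.mk' h s e he hg hc).r2 = V.up (Bq q D - 1) := rfl
    have e1 : (V.mk' h s e he hg hc).r1 = V.lo (Bq q D - 1) := rfl
    rw [e2] at h2
    rw [e1] at h1
    have k3 := rowR' (c := c) h s e hlo hup (j := j) h1 (by omega)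
    have k3' := rowR' (c := c) h s e hlo hup (j := j + 1) (by omega) h2
    have k4 := me hε ((mrt_ge (q := q) (D := D) (c := c) e j).trans h3)
    have k5 := me1 hε (show i < mrt q D c e (j + 1) from h4)
    push_cast at z1
    refine Nr.mono (K := 4 * κ) ?_ (by linarith)
    apply near_r h s
    · rw [abs_le]; constructor <;> linarith
    · rw [abs_le]; constructor <;> linarith
    · exact k3.1.1
    · linarith [k3.1.2]
  | ri i j h1 h2 h3 h4 =>
    obtain ⟨z1, z2, z3⟩ := onS2 hz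
    have e2 : (V.mk' h s e he hg hc).r2 = V.up (Bq q D - 1) := rfl
    have e1 : (V.mk' h s e he hg hc).r1 = V.lo (Bq q D - 1) := rfl
    rw [e2] at h2
    rw [e1] at h1
    have k3 := rowR' (c := c) h s e hlo hup (j := j) h1 (by omega)
    have k3' := rowR' (c := c) h s e hlo hup (j := j + 1) (by omega) h2
    have k4 := me hε ((mrt_ge (q := q) (D := D) (c := c) e (j + 1)).trans h3)
    have k5 := me1 hε (show i < mrt q D c e j from h4)
    refine Nr.mono (K := 4 * κ) ?_ (by linarith)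
    apply near_r h s
    · rw [abs_le]; constructor <;> linarith
    · push_cast; rw [z1, abs_le]; constructor <;> linarith
    · exact k3'.1.1
    · linarith [k3'.1.2]
  | c2 i h1 h2 =>
    obtain ⟨z1, z2, z3⟩ := onS2 hz
    have e2 : (V.mk' h s e he hg hc).r2 = V.up (Bq q D - 1) := rfl
    rw [e2] at z1 h2
    have k := hlo (Bq q D - 1) (by omega) (by omega)
    have k1 := hup (Bq q D - 1) (by omega) (by omega)
    have k2 := Sml.lo1_lt_up1 h s.toSml (i := Bq q D - 1) (by omega) (by omega)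
    have k3 := rowR' (c := c) h s e hlo hup (j := V.up (Bq q D - 1) - 1) (by omega) (by omega)
    have k4 := me hε (show Bq q D ≤ i from h1)
    have k5 := me1 hε (show i < mrt q D c e (V.up (Bq q D - 1) - 1) from h2)
    have e3 : q.ε * ((Bq q D - 1 : ℤ) : ℝ) = q.ε * Bq q D - q.ε := by push_cast; ring
    have z1' : z.im = q.ε * V.up (Bq q D - 1) := by rw [z1]; push_cast; ring
    apply near_tC h s O hNt (i := Bq q D - 1) (i1 := Bq q D - 1) (i2 := Bq q D - 1) (by omega) (by omega)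
      (by omega) (by omega) (by omega) (by omega) (by omega) (by omega) (by omega) (by omega)
    · rw [e3, abs_le]; constructor <;> linarith
    · rw [z1']; exact me hε k1.1
    · rw [z1']; exact me hε k1.2
  | t0 i h1 h2 =>
    obtain ⟨z1, z2, z3⟩ := onS2 hz
    have k := hup _ h1 h2
    have z1' : z.im = q.ε * V.up i := by
      rw [z1]
      have : (V.mk' h s e he hg hc).up i = V.up i := rfl
      rw [this]; push_cast; ring
    apply near_tC h s O hNt (i := i) (i1 := i) (i2 := i) h1 h2 h1 h2 (by omega) (by omega) h1 h2 (by omega)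
      (by omega)
    · rw [abs_le]; constructor <;> linarith
    · rw [z1']; exact me hε k.1
    · rw [z1']; exact me hε k.2
  | tu i j h1 h2 h3 h4 =>
    obtain ⟨z1, z2, z3⟩ := onS1 hz
    have k := hup _ h1 (by have : i + 1 < Bq q D := h2; omega)
    have k' := hup (i + 1) (by have : Aq q D ≤ i := h1; omega) h2
    have k3 := me hε (k'.1.trans h3)
    have k4 := me1 hε h4
    have k5 := me hε k.2
    apply near_tC h s O hNt (i := i + 1) (i1 := i + 1) (i2 := i) (by have : Aq q D ≤ i := h1; omega) h2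
      (by have : Aq q D ≤ i := h1; omega) h2 (by omega) (by omega) h1
      (by have : i + 1 < Bq q D := h2; omega) (by omega) (by omega)
    · push_cast; rw [z1, abs_le]; constructor <;> linarith
    · linarith
    · have e4 : (V.mk' h s e he hg hc).up i = V.up i := rfl
      rw [e4] at k4
      linarith
  | ti i j h1 h2 h3 h4 =>
    obtain ⟨z1, z2, z3⟩ := onS3 hz
    push_cast at z1
    have k := hup _ h1 (by have : i + 1 < Bq q D := h2; omega)
    have k' := hup (i + 1) (by have : Aq q D ≤ i := h1; omega) h2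
    have k3 := me hε (k.1.trans h3)
    have k4 := me1 hε h4
    have k5 := me hε k'.2
    apply near_tC h s O hNt (i := i) (i1 := i) (i2 := i + 1) h1
      (by have : i + 1 < Bq q D := h2; omega) h1 (by have : i + 1 < Bq q D := h2; omega) (by omega)
      (by omega) (by have : Aq q D ≤ i := h1; omega) h2 (by omega) (by omega)
    · rw [z1, abs_le]; constructor <;> linarith
    · linarith
    · have e4 : (V.mk' h s e he hg hc).up (i + 1) = V.up (i + 1) := rfl
      rw [e4] at k4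
      linarith
  | c3 i h1 h2 =>
    obtain ⟨z1, z2, z3⟩ := onS2 hz
    have e2 : (V.mk' h s e he hg hc).l2 = V.up (Aq q D) := rfl
    have e4 : (V.mk' h s e he hg hc).a = Aq q D := rfl
    rw [e2] at z1 h1
    rw [e4] at h2
    have k := hlo (Aq q D) (by omega) (by omega)
    have k1 := hup (Aq q D) (by omega) (by omega)
    have k2 := Sml.lo1_lt_up1 h s.toSml (i := Aq q D) (by omega) (by omega)
    have k3 := rowL' (c := c) h s e hlo hup (j := V.up (Aq q D) - 1) (by omega) (by omega)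
    have k4 := me1 hε h2
    have k5 := me hε (show mlt q D c e (V.up (Aq q D) - 1) ≤ i from h1)
    have z1' : z.im = q.ε * V.up (Aq q D) := by rw [z1]; push_cast; ring
    apply near_tC h s O hNt (i := Aq q D) (i1 := Aq q D) (i2 := Aq q D) (by omega) (by omega)
      (by omega) (by omega) (by omega) (by omega) (by omega) (by omega) (by omega) (by omega)
    · rw [abs_le]; constructor <;> linarith
    · rw [z1']; exact me hε k1.1
    · rw [z1']; exact me hε k1.2
  | l0 j h1 h2 =>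
    obtain ⟨z1, z2, z3⟩ := onS3 hz
    have k3 := rowL' (c := c) h s e hlo hup (j := j) h1 h2
    have k4 := me hε (mlt_le (q := q) (D := D) (c := c) e j)
    have e1 : (V.mk' h s e he hg hc).lt j = mlt q D c e j := rfl
    rw [e1] at z1
    have e5 : q.ε * ((j : ℝ) + 1) = q.ε * j + q.ε := by ring
    refine Nr.mono (K := 4 * κ) ?_ (by linarith)
    apply near_l h s
    · rw [z1, abs_le]; constructor <;> linarith
    · rw [abs_le]; constructor <;> linarith
    · rw [e5]; linarith [k3.1.1]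
    · rw [e5]; exact k3.1.2
  | lo i j h1 h2 h3 h4 =>
    obtain ⟨z1, z2, z3⟩ := onS2 hz
    have e2 : (V.mk' h s e he hg hc).l2 = V.up (Aq q D) := rfl
    have e1 : (V.mk' h s e he hg hc).l1 = V.lo (Aq q D) := rfl
    rw [e2] at h2
    rw [e1] at h1
    have k3 := rowL' (c := c) h s e hlo hup (j := j) h1 (by omega)
    have k3' := rowL' (c := c) h s e hlo hup (j := j + 1) (by omega) h2
    have k4 := me1 hε (lt_of_lt_of_le h4 (mlt_le (q := q) (D := D) (c := c) e (j + 1)))
    have k5 := me hε (show mlt q D c e j ≤ i from h3)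
    have e5 : q.ε * (((j + 1 : ℤ) : ℝ) + 1) = q.ε * j + 2 * q.ε := by push_cast; ring
    have e6 : q.ε * ((j + 1 : ℤ) : ℝ) = q.ε * j + q.ε := by push_cast; ring
    rw [e6] at k3'
    refine Nr.mono (K := 4 * κ) ?_ (by linarith)
    apply near_l h s
    · rw [abs_le]; constructor <;> linarith
    · rw [e5, z1, abs_le]; constructor <;> linarith
    · rw [e5]; linarith [k3'.1.1]
    · rw [e5]; linarith [k3'.1.2]
  | li i j h1 h2 h3 h4 =>
    obtain ⟨z1, z2, z3⟩ := onS4 hz
    have e2 : (V.mk' h s e he hg hc).l2 = V.up (Aq q D) := rfl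
    have e1 : (V.mk' h s e he hg hc).l1 = V.lo (Aq q D) := rfl
    rw [e2] at h2
    rw [e1] at h1
    have k3 := rowL' (c := c) h s e hlo hup (j := j) h1 (by omega)
    have k3' := rowL' (c := c) h s e hlo hup (j := j + 1) (by omega) h2
    have k4 := me1 hε (lt_of_lt_of_le h4 (mlt_le (q := q) (D := D) (c := c) e j))
    have k5 := me hε (show mlt q D c e (j + 1) ≤ i from h3)
    have e5 : q.ε * ((j : ℝ) + 1) = q.ε * j + q.ε := by ring
    have e6 : q.ε * ((j + 1 : ℤ) : ℝ) = q.ε * j + q.ε := by push_cast; ring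
    rw [e6] at z1
    refine Nr.mono (K := 4 * κ) ?_ (by linarith)
    apply near_l h s
    · rw [abs_le]; constructor <;> linarith
    · rw [e5, z1, abs_le]; constructor <;> linarith
    · rw [e5]; linarith [k3.1.1]
    · rw [e5]; exact k3.1.2
  | c4 i h1 h2 =>
    obtain ⟨z1, z2, z3⟩ := onS4 hz
    have e1 : (V.mk' h s e he hg hc).l1 = V.lo (Aq q D) := rfl
    have e4 : (V.mk' h s e he hg hc).a = Aq q D := rfl
    rw [e1] at z1 h1
    rw [e4] at h2
    have k := hlo (Aq q D) (by omega) (by omega)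
    have k1 := hup (Aq q D) (by omega) (by omega)
    have k2 := Sml.lo1_lt_up1 h s.toSml (i := Aq q D) (by omega) (by omega)
    have k3 := rowL' (c := c) h s e hlo hup (j := V.lo (Aq q D)) (by omega) (by omega)
    have k4 := me1 hε h2
    have k5 := me hε (show mlt q D c e (V.lo (Aq q D)) ≤ i from h1)
    refine Nr.mono (K := 4 * κ) ?_ (by linarith)
    apply near_4 h s hc
    · rw [abs_le]; constructor <;> linarith
    · rw [z1]; exact me hε k.1
    · rw [z1]; exact me hε k.2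


/-- **The outer sides are outside of the thickened domain.** -/
theorem out_sideV {sd : Cell × ℤ} {m : ℤ} (hL : (V.mk' h s e he hg hc).Lab sd m) (hm : m % 2 = e) {z : ℂ}
    (hz : OnS q.ε sd z) : z ∉ th q.θ D := by
  intro hD
  have hε := s.ε0
  have hAB := Sml.A_lt_B h s.toSml
  cases hL with
  | b0 i h1 h2 =>
    obtain ⟨z1, z2, z3⟩ := onS0 hz
    have e1 : (V.mk' h s e he hg hc).lo i = lo2 q D i := V.B.b3 i h1 h2 hm
    have := Sml.lo2_lt h s.toSml (i := i) (x := z.re) (y := z.im) z2 z3 hD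
    rw [e1] at z1
    linarith
  | bo i j h1 h2 h3 h4 =>
    obtain ⟨z1, z2, z3⟩ := onSm1 hz
    push_cast at z1
    have e1 : (V.mk' h s e he hg hc).lo i = lo2 q D i :=
      V.B.b3 i h1 (by have : i + 1 < Bq q D := h2; omega) hm
    have k4 := me1 hε h4
    rw [e1] at k4
    have := Sml.lo2_lt h s.toSml (i := i) (x := z.re) (y := z.im) (by linarith) (by linarith) hD
    linarith
  | bi i j h1 h2 h3 h4 =>
    obtain ⟨z1, z2, z3⟩ := onS1 hz
    have e1 : (V.mk' h s e he hg hc).lo (i + 1) = lo2 q D (i + 1) :=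
      V.B.b3 (i + 1) (by have : Aq q D ≤ i := h1; omega) h2 hm
    have k4 := me1 hε h4
    rw [e1] at k4
    have := Sml.lo2_lt h s.toSml (i := i + 1) (x := z.re) (y := z.im) (by push_cast; linarith)
      (by push_cast; linarith) hD
    linarith
  | c1 i h1 h2 =>
    obtain ⟨z1, z2, z3⟩ := onS0 hz
    have e1 : (V.mk' h s e he hg hc).r1 = lo2 q D (Bq q D - 1) :=
      V.B.b3 (Bq q D - 1) (by omega) (by omega) hm
    rw [e1] at z1
    have k4 := me hε (show Bq q D ≤ i from h1)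
    have := (Sml.right_row h s.toSml hD (by linarith)).1
    linarith
  | r0 j h1 h2 =>
    obtain ⟨z1, z2, z3⟩ := onS1 hz
    have e1 : (V.mk' h s e he hg hc).rt j = rt2 q D j := if_pos hm
    rw [e1] at z1
    have := Sml.lt_rt2 h s.toSml (j := j) (x := z.re) (y := z.im) z2 z3 hD
    push_cast at z1
    linarith
  | ro i j h1 h2 h3 h4 =>
    obtain ⟨z1, z2, z3⟩ := onS0 hz
    have e1 : (V.mk' h s e he hg hc).rt j = rt2 q D j := if_pos hm
    rw [e1] at h3
    push_cast at z1
    have := Sml.lt_rt2 h s.toSml (j := j) (x := z.re) (y := z.im) (by linarith) (by linarith) hD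
    have k := me hε h3
    linarith
  | ri i j h1 h2 h3 h4 =>
    obtain ⟨z1, z2, z3⟩ := onS2 hz
    have e1 : (V.mk' h s e he hg hc).rt (j + 1) = rt2 q D (j + 1) := if_pos hm
    rw [e1] at h3
    have := Sml.lt_rt2 h s.toSml (j := j + 1) (x := z.re) (y := z.im) (by push_cast; linarith)
      (by push_cast; linarith) hD
    have k := me hε h3
    linarith
  | c2 i h1 h2 =>
    obtain ⟨z1, z2, z3⟩ := onS2 hz
    have e1 : (V.mk' h s e he hg hc).r2 = up2 q D (Bq q D - 1) :=
      V.T.t3 (Bq q D - 1) (by omega) (by omega) hm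
    rw [e1] at z1
    have k4 := me hε (show Bq q D ≤ i from h1)
    have := (Sml.right_row h s.toSml hD (by linarith)).2
    push_cast at z1
    linarith
  | t0 i h1 h2 =>
    obtain ⟨z1, z2, z3⟩ := onS2 hz
    have e1 : (V.mk' h s e he hg hc).up i = up2 q D i := V.T.t3 i h1 h2 hm
    have := Sml.lt_up2 h s.toSml (i := i) (x := z.re) (y := z.im) z2 z3 hD
    rw [e1] at z1
    push_cast at z1
    linarith
  | tu i j h1 h2 h3 h4 =>
    obtain ⟨z1, z2, z3⟩ := onS1 hz
    have e1 : (V.mk' h s e he hg hc).up (i + 1) = up2 q D (i + 1) :=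
      V.T.t3 (i + 1) (by have : Aq q D ≤ i := h1; omega) h2 hm
    rw [e1] at h3
    have k4 := me hε h3
    have := Sml.lt_up2 h s.toSml (i := i + 1) (x := z.re) (y := z.im) (by push_cast; linarith)
      (by push_cast; linarith) hD
    linarith
  | ti i j h1 h2 h3 h4 =>
    obtain ⟨z1, z2, z3⟩ := onS3 hz
    push_cast at z1
    have e1 : (V.mk' h s e he hg hc).up i = up2 q D i :=
      V.T.t3 i h1 (by have : i + 1 < Bq q D := h2; omega) hm
    rw [e1] at h3
    have k4 := me hε h3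
    have := Sml.lt_up2 h s.toSml (i := i) (x := z.re) (y := z.im) (by linarith) (by linarith) hD
    linarith
  | c3 i h1 h2 =>
    obtain ⟨z1, z2, z3⟩ := onS2 hz
    have e1 : (V.mk' h s e he hg hc).l2 = up2 q D (Aq q D) :=
      V.T.t3 (Aq q D) (by omega) (by omega) hm
    rw [e1] at z1
    have k4 := me1 hε (show i < Aq q D from h2)
    have := (Sml.left_row h s.toSml hD (by linarith)).2
    push_cast at z1
    linarith
  | l0 j h1 h2 =>
    obtain ⟨z1, z2, z3⟩ := onS3 hz
    have e1 : (V.mk' h s e he hg hc).lt j = lt2 q D j := if_pos hm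
    rw [e1] at z1
    have := Sml.gt_lt2 h s.toSml (j := j) (x := z.re) (y := z.im) z2 z3 hD
    linarith
  | lo i j h1 h2 h3 h4 =>
    obtain ⟨z1, z2, z3⟩ := onS2 hz
    have e1 : (V.mk' h s e he hg hc).lt (j + 1) = lt2 q D (j + 1) := if_pos hm
    rw [e1] at h4
    have := Sml.gt_lt2 h s.toSml (j := j + 1) (x := z.re) (y := z.im) (by push_cast; linarith)
      (by push_cast; linarith) hD
    have k := me1 hε h4
    linarith
  | li i j h1 h2 h3 h4 =>
    obtain ⟨z1, z2, z3⟩ := onS4 hz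
    have e1 : (V.mk' h s e he hg hc).lt j = lt2 q D j := if_pos hm
    rw [e1] at h4
    push_cast at z1
    have := Sml.gt_lt2 h s.toSml (j := j) (x := z.re) (y := z.im) (by linarith) (by linarith) hD
    have k := me1 hε h4
    linarith
  | c4 i h1 h2 =>
    obtain ⟨z1, z2, z3⟩ := onS4 hz
    have e0 : V.Lb (Aq q D) = 0 := (V.mk' h s e he hg hc).h0
    have e1 : (V.mk' h s e he hg hc).l1 = lo2 q D (Aq q D) :=
      V.B.b3 (Aq q D) (by omega) (by omega) (by omega)
    rw [e1] at z1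
    have k4 := me1 hε (show i < Aq q D from h2)
    have := (Sml.left_row h s.toSml hD (by linarith)).1
    linarith

end

end Pool.Agent.H5.FM
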