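import Mathlib
import Pool.Agent.H5.FM.Region

set_option autoImplicit false
open Set

/-! # Short paths from the region of the labelled polygon to the inner domain -/

namespace Pool.Agent.H5.FM

open Pool.Agent.Q1.M4 (Cell rect Reg Om mem_Om)

variable {D : Set ℂ} {R r τ κ g : ℝ} {q : Par} {c : Fin 4 → ℝ}

section gen

variable {ε : ℝ} {Q : Finset Cell}

lemma box_Om (hε : 0 < ε) {i0 i1 j0 j1 : ℤ}
    (H : ∀ i j, i0 ≤ i → i ≤ i1 → j0 ≤ j → j ≤ j1 → (i, j) ∈ Q) {z : ℂ} (h1 : ε * i0 < z.re)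
    (h2 : z.re < ε * (i1 + 1)) (h3 : ε * j0 < z.im) (h4 : z.im < ε * (j1 + 1)) :
    z ∈ Om Q (gr ε) (gr ε) := by
  have key : ∀ c : Cell, z ∈ rect (gr ε) (gr ε) c → c ∈ Q := by
    rintro ⟨i, j⟩ hc
    obtain ⟨⟨a1, a2⟩, a3, a4⟩ := mem_rect'.1 hc
    have b1 : (i0 : ℝ) < i + 1 := lt_of_mul_lt_mul_left (h1.trans_le a2) hε.le
    have b2 : (i : ℝ) < i1 + 1 := lt_of_mul_lt_mul_left (a1.trans_lt h2) hε.le
    have b3 : (j0 : ℝ) < j + 1 := lt_of_mul_lt_mul_left (h3.trans_le a4) hε.le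
    have b4 : (j : ℝ) < j1 + 1 := lt_of_mul_lt_mul_left (a3.trans_lt h4) hε.le
    have c1 : i0 < i + 1 := by exact_mod_cast b1
    have c2 : i < i1 + 1 := by exact_mod_cast b2
    have c3 : j0 < j + 1 := by exact_mod_cast b3
    have c4 : j < j1 + 1 := by exact_mod_cast b4
    exact H i j (by omega) (by omega) (by omega) (by omega)
  obtain ⟨c, hc⟩ := exists_rect hε z
  exact (mem_Om (gr_mono hε) (gr_mono hε)).2 ⟨⟨c, key c hc, hc⟩, key⟩

/-- center of a cell -/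
noncomputable def cnr (ε : ℝ) (i j : ℤ) : ℂ := ⟨ε * (i + 1 / 2), ε * (j + 1 / 2)⟩

lemma convex_box (a b c d : ℝ) : Convex ℝ {z : ℂ | (a < z.re ∧ z.re < b) ∧ (c < z.im ∧ z.im < d)} := by
  intro z hz w hw s t hs ht hst
  obtain ⟨⟨a1, a2⟩, a3, a4⟩ := hz
  obtain ⟨⟨b1, b2⟩, b3, b4⟩ := hw
  have k : ∀ {x y u : ℝ}, u < x → u < y → u < s * x + t * y := by
    intro x y u h1 h2
    rcases eq_or_lt_of_le hs with e | e
    · have : t = 1 := by linarith
      rw [← e, this]; linarith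
    · have a1 := mul_pos e (sub_pos.2 h1)
      have a2 := mul_nonneg ht (sub_pos.2 h2).le
      have a3 : s * u + t * u = u := by rw [← add_mul, hst, one_mul]
      linarith
  have k' : ∀ {x y u : ℝ}, x < u → y < u → s * x + t * y < u := by
    intro x y u h1 h2
    have := k (x := -x) (y := -y) (u := -u) (by linarith) (by linarith)
    linarith
  show (a < (s • z + t • w).re ∧ (s • z + t • w).re < b) ∧
    (c < (s • z + t • w).im ∧ (s • z + t • w).im < d)
  simp only [Complex.add_re, Complex.smul_re, Complex.add_im, Complex.smul_im, smul_eq_mul]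
  exact ⟨⟨k a1 b1, k' a2 b2⟩, k a3 b3, k' a4 b4⟩

lemma join_box (hε : 0 < ε) {i0 i1 j0 j1 : ℤ}
    (H : ∀ i j, i0 ≤ i → i ≤ i1 → j0 ≤ j → j ≤ j1 → (i, j) ∈ Q) {i j i' j' : ℤ}
    (hi : i0 ≤ i) (hi' : i ≤ i1) (hj : j0 ≤ j) (hj' : j ≤ j1) (ki : i0 ≤ i') (ki' : i' ≤ i1)
    (kj : j0 ≤ j') (kj' : j' ≤ j1) {p : ℂ} {ρ : ℝ} (h1 : cnr ε i j ∈ Metric.ball p ρ)
    (h2 : cnr ε i' j' ∈ Metric.ball p ρ) :
    JoinedIn (Om Q (gr ε) (gr ε) ∩ Metric.ball p ρ) (cnr ε i j) (cnr ε i' j') := by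
  apply JoinedIn.of_segment_subset
  have hc := (convex_box (ε * i0) (ε * (i1 + 1)) (ε * j0) (ε * (j1 + 1))).inter (convex_ball p ρ)
  have hm : ∀ {i j : ℤ}, i0 ≤ i → i ≤ i1 → j0 ≤ j → j ≤ j1 → cnr ε i j ∈
      {z : ℂ | (ε * i0 < z.re ∧ z.re < ε * (i1 + 1)) ∧ (ε * j0 < z.im ∧ z.im < ε * (j1 + 1))} := by
    intro i j a1 a2 a3 a4
    have b1 := me hε a1
    have b2 := me hε a2
    have b3 := me hε a3
    have b4 := me hε a4
    refine ⟨⟨?_, ?_⟩, ?_, ?_⟩ <;> simp only [cnr] <;> linarith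
  refine (hc.segment_subset ⟨hm hi hi' hj hj', h1⟩ ⟨hm ki ki' kj kj', h2⟩).trans ?_
  rintro z ⟨⟨⟨a1, a2⟩, a3, a4⟩, hz⟩
  exact ⟨box_Om hε H a1 a2 a3 a4, hz⟩

lemma join_cnr (hε : 0 < ε) {i j : ℤ} (hQ : (i, j) ∈ Q) {z : ℂ} (hz : z ∈ Om Q (gr ε) (gr ε))
    (hr : z ∈ rect (gr ε) (gr ε) (i, j)) {p : ℂ} {ρ : ℝ} (h1 : z ∈ Metric.ball p ρ)
    (h2 : cnr ε i j ∈ Metric.ball p ρ) :
    JoinedIn (Om Q (gr ε) (gr ε) ∩ Metric.ball p ρ) z (cnr ε i j) := by
  apply JoinedIn.of_segment_subset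
  intro u hu
  refine ⟨?_, (convex_ball p ρ).segment_subset h1 h2 hu⟩
  obtain ⟨a, b, ha, hb, hab, rfl⟩ := hu
  rcases eq_or_lt_of_le hb with e | e
  · have : a = 1 := by linarith
    rw [← e, this]
    simpa using hz
  · obtain ⟨⟨a1, a2⟩, a3, a4⟩ := mem_rect'.1 hr
    have key : ∀ i' j', i ≤ i' → i' ≤ i → j ≤ j' → j' ≤ j → (i', j') ∈ Q := by
      intro i' j' b1 b2 b3 b4
      obtain rfl : i' = i := by omega
      obtain rfl : j' = j := by omega
      exact hQ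
    have hbε := mul_pos e hε
    have hA : a = 1 - b := by linarith
    have c1 := mul_le_mul_of_nonneg_left a1 ha
    have c2 := mul_le_mul_of_nonneg_left a2 ha
    have c3 := mul_le_mul_of_nonneg_left a3 ha
    have c4 := mul_le_mul_of_nonneg_left a4 ha
    rw [hA] at c1 c2 c3 c4
    apply box_Om hε key
    all_goals
      simp only [cnr, Complex.add_re, Complex.smul_re, Complex.add_im, Complex.smul_im,
        smul_eq_mul, hA]
      nlinarith

lemma cnr_re (i j : ℤ) : (cnr ε i j).re = ε * (i + 1 / 2) := rfl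
lemma cnr_im (i j : ℤ) : (cnr ε i j).im = ε * (j + 1 / 2) := rfl

lemma mem_ball_of {z p : ℂ} {ρ : ℝ} (h : |z.re - p.re| + |z.im - p.im| < ρ) : z ∈ Metric.ball p ρ := by
  rw [Metric.mem_ball, dist_eq_norm]
  have := Complex.norm_le_abs_re_add_abs_im (z - p)
  rw [Complex.sub_re, Complex.sub_im] at this
  linarith

end gen

section

variable (h : CD D) (s : Fine D R r τ κ q) (e : ℤ) (he : e = 0 ∨ e = 1) (hg : κ + τ < g)
  (hc : Cuts D g c)
include h s he hg hc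

/-- the inner domain is in the region -/
theorem sc_Om {z : ℂ} (hz : z ∈ sc q.η D) : z ∈ Om (mk h s e he hg hc).Q (gr q.ε) (gr q.ε) := by
  have hε := s.ε0
  have key : ∀ c' : Cell, z ∈ rect (gr q.ε) (gr q.ε) c' → c' ∈ (mk h s e he hg hc).Q := by
    rintro ⟨i, j⟩ hr
    obtain ⟨⟨x1, x2⟩, y1, y2⟩ := mem_rect'.1 hr
    have hx := (Sml.cd1 h s.toSml).re_lt hz
    rw [xL_sc (by linarith [s.η1]), xR_sc (by linarith [s.η1])] at hx
    have hA := Sml.A_le h s.toSml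
    have hB := Sml.B_ge s.toSml
    have g1 : Aq q D ≤ i := by
      by_contra hcon
      have := me1 hε (not_le.1 hcon)
      linarith
    have g2 : i < Bq q D := by
      by_contra hcon
      have := me hε (not_lt.1 hcon)
      linarith
    have k := mlo_le (c := c) h s e (i := i) g1 g2
    have k' := mup_ge (c := c) h s e (i := i) g1 g2
    have l1 := Sml.lo1_lt h s.toSml (i := i) (x := z.re) (y := z.im) x1 x2 hz
    have l2 := Sml.lt_up1 h s.toSml (i := i) (x := z.re) (y := z.im) x1 x2 hz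
    rw [Prof.mem_Q]
    refine Or.inl ⟨⟨g1, g2⟩, ?_, ?_⟩
    · show mlo q D c e i ≤ j
      have : lo1 q D i ≤ j := by
        by_contra hcon
        have := me1 hε (not_le.1 hcon)
        linarith
      omega
    · show j < mup q D c e i
      have : j < up1 q D i := by
        by_contra hcon
        have := me hε (not_lt.1 hcon)
        linarith
      omega
  obtain ⟨c', hc'⟩ := exists_rect hε z
  exact (mem_Om (gr_mono hε) (gr_mono hε)).2 ⟨⟨c', key c' hc', hc'⟩, key⟩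

/-- from a core cell to the inner domain -/
lemma core_join {i j : ℤ} (h1 : Aq q D ≤ i) (h2 : i < Bq q D) (h3 : mlo q D c e i ≤ j)
    (h4 : j < mup q D c e i) {p : ℂ} {ρ : ℝ} (hp : ‖cnr q.ε i j - p‖ + 5 * κ ≤ ρ) :
    ∃ w ∈ sc q.η D, JoinedIn (Om (mk h s e he hg hc).Q (gr q.ε) (gr q.ε) ∩ Metric.ball p ρ)
      (cnr q.ε i j) w := by
  have hε := s.ε0
  have hτ := s.τ0
  have hετ := Fine.ετ h s
  have hκ := s.κ0
  have hτκ := s.τκ
  have k := mlo_le (c := c) h s e (i := i) h1 h2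
  have k' := mup_ge (c := c) h s e (i := i) h1 h2
  have kk := Sml.lo1_lt_up1 h s.toSml h1 h2
  have g1 := s.core_gt h h1
  have g2 := s.core_lt h h2.le
  have cf := s.clf i h1 h2 (q.ε * i) (by linarith) (by linarith) (by
    rw [sub_self, abs_zero]; linarith)
  have cc := s.clc i h1 h2 (q.ε * i) (by linarith) (by linarith) (by
    rw [sub_self, abs_zero]; linarith)
  rw [abs_le, abs_le] at cf cc
  -- height
  obtain ⟨y, hy1, hy2, hy3⟩ : ∃ y, q.ε * lo1 q D i ≤ y ∧ y ≤ q.ε * up1 q D i ∧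
      |q.ε * ((j : ℝ) + 1 / 2) - y| ≤ 2 * κ + q.ε := by
    have m1 := me hε (k.1.trans h3)
    have m2 := me1 hε (lt_of_lt_of_le h4 k'.2)
    have m3 := me hε (show lo1 q D i ≤ up1 q D i by omega)
    rcases lt_or_ge (q.ε * ((j : ℝ) + 1 / 2)) (q.ε * lo1 q D i) with a | a
    · refine ⟨q.ε * lo1 q D i, le_rfl, m3, ?_⟩
      rw [abs_le]; constructor <;> linarith
    · rcases lt_or_ge (q.ε * up1 q D i) (q.ε * ((j : ℝ) + 1 / 2)) with b | b
      · refine ⟨q.ε * up1 q D i, m3, le_rfl, ?_⟩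
        rw [abs_le]; constructor <;> linarith
      · exact ⟨_, a, b, by rw [sub_self, abs_zero]; linarith⟩
  obtain ⟨w, hw, w1, w2, w3, w4⟩ := inner_pt h s h1 h2 (x := q.ε * ((i : ℝ) + 1 / 2)) (y := y)
    (by linarith) (by linarith) hy1 hy2
  have hwO := sc_Om h s e he hg hc hw
  -- the cell of w
  obtain ⟨⟨i', j1⟩, hr1⟩ := exists_rect hε w
  obtain ⟨⟨x1, x2⟩, y1, y2⟩ := mem_rect'.1 hr1
  have hr2 : w ∈ rect (gr q.ε) (gr q.ε) (i, j1) := mem_rect'.2 ⟨⟨w3, w4⟩, y1, y2⟩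
  have hQ1 : (i, j1) ∈ (mk h s e he hg hc).Q :=
    ((mem_Om (gr_mono hε) (gr_mono hε)).1 hwO).2 _ hr2
  have hcore : ∀ {j' : ℤ}, (i, j') ∈ (mk h s e he hg hc).Q ↔
      mlo q D c e i ≤ j' ∧ j' < mup q D c e i := fun {j'} =>
    LProf.core (p := mk h s e he hg hc) h1 h2
  have hj1 := hcore.1 hQ1
  have hd : |(cnr q.ε i j).im - w.im| < 2 * κ + 4 * q.ε := by
    rw [cnr_im]
    rw [abs_le] at hy3
    rw [abs_lt] at w2 ⊢
    constructor <;> linarith
  have hd2 : |(cnr q.ε i j).re - w.re| ≤ q.ε := by rw [cnr_re]; exact w1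
  have b1 : cnr q.ε i j ∈ Metric.ball p ρ := by
    rw [Metric.mem_ball, dist_eq_norm]; linarith
  have tri : ∀ u : ℂ, |u.re - (cnr q.ε i j).re| + |u.im - (cnr q.ε i j).im| < 5 * κ →
      u ∈ Metric.ball p ρ := by
    intro u hu
    have := mem_ball_of hu
    rw [Metric.mem_ball, dist_eq_norm] at *
    have := norm_sub_le_norm_sub_add_norm_sub u (cnr q.ε i j) p
    linarith
  have b2 : w ∈ Metric.ball p ρ := by
    apply tri
    rw [abs_sub_comm w.re, abs_sub_comm w.im]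
    linarith
  have b3 : cnr q.ε i j1 ∈ Metric.ball p ρ := by
    apply tri
    rw [cnr_re, cnr_re, sub_self, abs_zero, zero_add]
    have : |(cnr q.ε i j1).im - w.im| ≤ q.ε := by
      rw [cnr_im, abs_le]; constructor <;> linarith
    have t := abs_sub_le (cnr q.ε i j1).im w.im (cnr q.ε i j).im
    rw [abs_sub_comm w.im] at t
    linarith
  refine ⟨w, hw, ?_⟩
  have J1 : JoinedIn (Om (mk h s e he hg hc).Q (gr q.ε) (gr q.ε) ∩ Metric.ball p ρ)
      (cnr q.ε i j) (cnr q.ε i j1) := by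
    apply join_box hε (i0 := i) (i1 := i) (j0 := min j j1) (j1 := max j j1) ?_ le_rfl le_rfl
      (min_le_left _ _) (le_max_left _ _) le_rfl le_rfl (min_le_right _ _) (le_max_right _ _) b1 b3
    intro i'' j'' a1 a2 a3 a4
    obtain rfl : i'' = i := by omega
    rw [hcore]
    omega
  exact J1.trans (join_cnr hε hQ1 hwO hr2 b2 b3).symm

/-- **Short paths to the inner domain** -/
theorem exists_join {z : ℂ} (hz : z ∈ Om (mk h s e he hg hc).Q (gr q.ε) (gr q.ε)) :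
    ∃ w ∈ sc q.η D, JoinedIn (Om (mk h s e he hg hc).Q (gr q.ε) (gr q.ε) ∩ Metric.ball z (8 * κ))
      z w := by
  have hε := s.ε0
  have hτ := s.τ0
  have hετ := Fine.ετ h s
  have hκ := s.κ0
  have hτκ := s.τκ
  have hAB := Sml.A_lt_B h s.toSml
  obtain ⟨⟨⟨i, j⟩, hQ, hr⟩, -⟩ := (mem_Om (gr_mono hε) (gr_mono hε)).1 hz
  obtain ⟨⟨x1, x2⟩, y1, y2⟩ := mem_rect'.1 hr
  have hd1 : |z.re - (cnr q.ε i j).re| ≤ q.ε / 2 := by
    rw [cnr_re, abs_le]; constructor <;> linarith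
  have hd2 : |z.im - (cnr q.ε i j).im| ≤ q.ε / 2 := by
    rw [cnr_im, abs_le]; constructor <;> linarith
  have b0 : z ∈ Metric.ball z (8 * κ) := Metric.mem_ball_self (by linarith)
  have b1 : cnr q.ε i j ∈ Metric.ball z (8 * κ) := by
    apply mem_ball_of
    rw [abs_sub_comm, abs_sub_comm (cnr q.ε i j).im]
    linarith
  have J0 := join_cnr hε hQ hz hr b0 b1
  rw [Prof.mem_Q] at hQ
  rcases hQ with ⟨⟨h1, h2⟩, h3, h4⟩ | ⟨⟨h1, h2⟩, h3, h4⟩ | ⟨⟨h1, h2⟩, h3, h4⟩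
  · obtain ⟨w, hw, J⟩ := core_join h s e he hg hc (i := i) (j := j) h1 h2 h3 h4 (p := z)
      (ρ := 8 * κ) (by
        have := Complex.norm_le_abs_re_add_abs_im (cnr q.ε i j - z)
        rw [Complex.sub_re, Complex.sub_im, abs_sub_comm, abs_sub_comm (cnr q.ε i j).im] at this
        linarith)
    exact ⟨w, hw, J0.trans J⟩
  · have h1' : Bq q D ≤ i := h1
    have h2' : i < mrt q D c e j := h2
    have h3' : mlo q D c e (Bq q D - 1) ≤ j := h3
    have h4' : j < mup q D c e (Bq q D - 1) := h4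
    have k3 := rowR (c := c) h s e (j := j) h3 h4
    have k5 := me1 hε h2'
    have k6 := me hε h1'
    have hd3 : |(cnr q.ε i j).re - (cnr q.ε (Bq q D - 1) j).re| ≤ 3 * τ := by
      rw [cnr_re, cnr_re]
      push_cast
      rw [abs_le]; constructor <;> linarith
    have hn : ‖cnr q.ε (Bq q D - 1) j - z‖ + 5 * κ ≤ 8 * κ := by
      have t1 := Complex.norm_le_abs_re_add_abs_im (cnr q.ε (Bq q D - 1) j - z)
      rw [Complex.sub_re, Complex.sub_im, abs_sub_comm,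
        abs_sub_comm (cnr q.ε (Bq q D - 1) j).im] at t1
      have t2 := abs_sub_le z.re (cnr q.ε i j).re (cnr q.ε (Bq q D - 1) j).re
      have t3 : (cnr q.ε (Bq q D - 1) j).im = (cnr q.ε i j).im := rfl
      rw [t3] at t1
      linarith
    obtain ⟨w, hw, J⟩ := core_join h s e he hg hc (i := Bq q D - 1) (j := j) (by omega) (by omega)
      h3 h4 (p := z) (ρ := 8 * κ) hn
    refine ⟨w, hw, (J0.trans ?_).trans J⟩
    apply join_box hε (i0 := Bq q D - 1) (i1 := i) (j0 := j) (j1 := j) ?_ (by omega) le_rfl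
      le_rfl le_rfl le_rfl (by omega) le_rfl le_rfl b1
    · rw [Metric.mem_ball, dist_eq_norm]; linarith
    · intro i'' j'' a1 a2 a3 a4
      obtain rfl : j'' = j := by omega
      rw [Prof.mem_Q]
      rcases lt_or_ge i'' (Bq q D) with g | g
      · obtain rfl : i'' = Bq q D - 1 := by omega
        exact Or.inl ⟨⟨show Aq q D ≤ _ by omega, show _ < Bq q D by omega⟩, h3, h4⟩
      · exact Or.inr (Or.inl ⟨⟨g, show _ < mrt q D c e j'' by omega⟩, h3, h4⟩)
  · have h1' : i < Aq q D := h1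
    have h2' : mlt q D c e j ≤ i := h2
    have h3' : mlo q D c e (Aq q D) ≤ j := h3
    have h4' : j < mup q D c e (Aq q D) := h4
    have k3 := rowL (c := c) h s e (j := j) h3 h4
    have k5 := me hε h2'
    have k6 := me1 hε h1'
    have hd3 : |(cnr q.ε i j).re - (cnr q.ε (Aq q D) j).re| ≤ 3 * τ := by
      rw [cnr_re, cnr_re]
      rw [abs_le]; constructor <;> linarith
    have hn : ‖cnr q.ε (Aq q D) j - z‖ + 5 * κ ≤ 8 * κ := by
      have t1 := Complex.norm_le_abs_re_add_abs_im (cnr q.ε (Aq q D) j - z)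
      rw [Complex.sub_re, Complex.sub_im, abs_sub_comm, abs_sub_comm (cnr q.ε (Aq q D) j).im] at t1
      have t2 := abs_sub_le z.re (cnr q.ε i j).re (cnr q.ε (Aq q D) j).re
      have t3 : (cnr q.ε (Aq q D) j).im = (cnr q.ε i j).im := rfl
      rw [t3] at t1
      linarith
    obtain ⟨w, hw, J⟩ := core_join h s e he hg hc (i := Aq q D) (j := j) (by omega) (by omega)
      h3 h4 (p := z) (ρ := 8 * κ) hn
    refine ⟨w, hw, (J0.trans ?_).trans J⟩
    apply join_box hε (i0 := i) (i1 := Aq q D) (j0 := j) (j1 := j) ?_ le_rfl (by omega)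
      le_rfl le_rfl (by omega) le_rfl le_rfl le_rfl b1
    · rw [Metric.mem_ball, dist_eq_norm]; linarith
    · intro i'' j'' a1 a2 a3 a4
      obtain rfl : j'' = j := by omega
      rw [Prof.mem_Q]
      rcases lt_or_ge i'' (Aq q D) with g | g
      · exact Or.inr (Or.inr ⟨⟨g, show mlt q D c e j'' ≤ _ by omega⟩, h3, h4⟩)
      · obtain rfl : i'' = Aq q D := by omega
        exact Or.inl ⟨⟨show Aq q D ≤ _ by omega, show _ < Bq q D by omega⟩, h3, h4⟩

end

end Pool.Agent.H5.FM
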