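import Mathlib
import Pool.Agent.H5.FM.Hv7
import Pool.Agent.H5.FM.Join

set_option autoImplicit false
open Set

/-! # The region of the monotone labelled polygon -/

namespace Pool.Agent.H5.FM

open Pool.Agent.Q1.M4 (Cell rect Reg Om mem_Om)

variable {D : Set ℂ} {R r τ κ g σ' ω : ℝ} {q : Par} {c : Fin 4 → ℝ}

section

variable (h : CD D) (s : Fine D R r τ κ q)
include h s

lemma near_b1 (O : GMod D σ' ω) (hσ : 0 ≤ σ') {n : ℤ} {i i1 i2 : ℤ}
    (hn : ∃ i', (Aq q D ≤ i' ∧ i' < Bq q D) ∧ |q.ε * i' - q.ε * i| ≤ σ' ∧ cnt c (sbp q D i') = n)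
    (h1 : Aq q D ≤ i) (h2 : i < Bq q D)
    (h11 : Aq q D ≤ i1)
    (h12 : i1 < Bq q D) (h13 : i1 - i ≤ 1) (h14 : i - i1 ≤ 1) (h21 : Aq q D ≤ i2)
    (h22 : i2 < Bq q D) (h23 : i2 - i ≤ 1) (h24 : i - i2 ≤ 1) {z : ℂ}
    (hx : |z.re - q.ε * i| ≤ 3 * τ) (hy1 : q.ε * lo2 q D i1 ≤ z.im)
    (hy2 : z.im ≤ q.ε * lo1 q D i2) : Nr D c (4 * κ + ω) n z := by
  have := near_bC (c := c) h s O (n := fun k => if k = i then n else cnt c (sbp q D k)) (by
    intro k k1 k2
    by_cases hk : k = i
    · obtain ⟨i', a1, a2, a3⟩ := hn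
      exact ⟨i', a1, by rw [hk]; exact a2, by rw [a3, if_pos hk]⟩
    · exact ⟨k, ⟨k1, k2⟩, by rw [sub_self, abs_zero]; exact hσ, by rw [if_neg hk]⟩)
    h1 h2 h11 h12 h13 h14 h21 h22 h23 h24 hx hy1 hy2
  simpa using this

lemma near_t1 (O : GMod D σ' ω) (hσ : 0 ≤ σ') {n : ℤ} {i i1 i2 : ℤ}
    (hn : ∃ i', (Aq q D ≤ i' ∧ i' < Bq q D) ∧ |q.ε * i' - q.ε * i| ≤ σ' ∧ cnt c (stp q D i') = n)
    (h1 : Aq q D ≤ i) (h2 : i < Bq q D)
    (h11 : Aq q D ≤ i1)
    (h12 : i1 < Bq q D) (h13 : i1 - i ≤ 1) (h14 : i - i1 ≤ 1) (h21 : Aq q D ≤ i2)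
    (h22 : i2 < Bq q D) (h23 : i2 - i ≤ 1) (h24 : i - i2 ≤ 1) {z : ℂ}
    (hx : |z.re - q.ε * i| ≤ 3 * τ) (hy1 : q.ε * up1 q D i1 ≤ z.im)
    (hy2 : z.im ≤ q.ε * up2 q D i2) : Nr D c (4 * κ + ω) n z := by
  have := near_tC (c := c) h s O (n := fun k => if k = i then n else cnt c (stp q D k)) (by
    intro k k1 k2
    by_cases hk : k = i
    · obtain ⟨i', a1, a2, a3⟩ := hn
      exact ⟨i', a1, by rw [hk]; exact a2, by rw [a3, if_pos hk]⟩
    · exact ⟨k, ⟨k1, k2⟩, by rw [sub_self, abs_zero]; exact hσ, by rw [if_neg hk]⟩)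
    h1 h2 h11 h12 h13 h14 h21 h22 h23 h24 hx hy1 hy2
  simpa using this

variable (e : ℤ) (he : e = 0 ∨ e = 1) (hg : κ + τ < g)
  (hc : Cuts D g c) (V : HV D q c e σ') (O : GMod D σ' ω) (hω : 0 ≤ ω)
include e he hg hc V

section

include O hω

/-- **The closed region**: inner points and points near the outer arcs. -/
theorem region1V (hσ : 0 ≤ σ') {z : ℂ} (hz : z ∈ Reg (V.mk' h s e he hg hc).Q (gr q.ε) (gr q.ε)) :
    (∀ w, ‖w - z‖ < q.η * r / 2 → w ∈ D) ∨ ∃ m : ℤ, m % 2 = e ∧ Nr D c (4 * κ + ω) m z := by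
  have hε := s.ε0
  have hτ := s.τ0
  have hετ := Fine.ετ h s
  have hAB := Sml.A_lt_B h s.toSml
  have hB := abs_le.1 (s.B_near h)
  have hA := abs_le.1 (s.A_near h)
  have hητ := Fine.ητ h s
  have hη0 := mul_pos s.η0 s.R0
  obtain ⟨⟨i, j⟩, hQ, hzr⟩ := hz
  obtain ⟨⟨x1, x2⟩, y1, y2⟩ := mem_rect'.1 hzr
  rw [Prof.mem_Q] at hQ
  rcases hQ with ⟨⟨h1, h2⟩, h3, h4⟩ | ⟨⟨h1, h2⟩, h3, h4⟩ | ⟨⟨h1, h2⟩, h3, h4⟩
  · have h3' : V.lo i ≤ j := h3
    have h4' : j < V.up i := h4
    have k := V.B.b1 (i) h1 h2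
    have k' := V.T.t1 (i) h1 h2
    rcases lt_or_ge z.im (q.ε * lo1 q D i) with g1 | g1
    · right
      obtain ⟨i', a1, a2, a3⟩ := V.B.b8 i h1 h2 (fun e1 => by
        have := me hε (e1 ▸ h3')
        linarith)
      refine ⟨cnt c (sbp q D i'), a3, ?_⟩
      · apply near_b1 h s O hσ ⟨i', a1, a2, rfl⟩ (i := i) (i1 := i) (i2 := i) h1 h2 h1 h2 (by omega) (by omega) h1 h2
          (by omega) (by omega)
        · rw [abs_le]; constructor <;> linarith
        · have := me hε (k.1.trans h3')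
          linarith
        · exact g1.le
    · rcases lt_or_ge (q.ε * up1 q D i) z.im with g2 | g2
      · right
        obtain ⟨i', a1, a2, a3⟩ := V.T.t8 i h1 h2 (fun e1 => by
          have := me1 hε (e1 ▸ h4')
          linarith)
        refine ⟨cnt c (stp q D i'), a3, ?_⟩
        · apply near_t1 h s O hσ ⟨i', a1, a2, rfl⟩ (i := i) (i1 := i) (i2 := i) h1 h2 h1 h2 (by omega) (by omega) h1 h2
            (by omega) (by omega)
          · rw [abs_le]; constructor <;> linarith
          · exact g2.le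
          · have := me1 hε (lt_of_lt_of_le h4' k'.2)
            linarith
      · left
        exact inner_ball h s h1 h2 x1 x2 g1 g2
  · have h2' : i < mrt q D c e j := h2
    have h1' : Bq q D ≤ i := h1
    right
    refine ⟨cnt c (srp q D j), ?_, ?_⟩
    · by_contra hcon
      have e1 : mrt q D c e j = Bq q D := if_neg hcon
      omega
    · have k3 := rowR' (c := c) h s e V.B.b1 V.T.t1 (j := j) h3 h4
      have k4 := me hε h1'
      have k5 := me1 hε h2'
      refine Nr.mono (K := 4 * κ) ?_ (by linarith)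
      apply near_r h s
      · rw [abs_le]; constructor <;> linarith
      · rw [abs_le]; constructor <;> linarith
      · exact k3.1.1
      · linarith [k3.1.2]
  · have h2' : mlt q D c e j ≤ i := h2
    have h1' : i < Aq q D := h1
    right
    refine ⟨cnt c (slp q D j), ?_, ?_⟩
    · by_contra hcon
      have e1 : mlt q D c e j = Aq q D := if_neg hcon
      omega
    · have k3 := rowL' (c := c) h s e V.B.b1 V.T.t1 (j := j) h3 h4
      have k4 := me1 hε h1'
      have k5 := me hε h2'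
      have e5 : q.ε * ((j : ℝ) + 1) = q.ε * j + q.ε := by ring
      refine Nr.mono (K := 4 * κ) ?_ (by linarith)
      apply near_l h s
      · rw [abs_le]; constructor <;> linarith
      · rw [abs_le]; constructor <;> linarith
      · rw [e5]; linarith [k3.1.1]
      · rw [e5]; exact k3.1.2

/-- **The complement**: points near the inner arcs and points far from the domain. -/
theorem region2V {z : ℂ} (hz : z ∉ Om (V.mk' h s e he hg hc).Q (gr q.ε) (gr q.ε))
    (hD : z ∈ th q.θ D) : ∃ m : ℤ, m % 2 ≠ e ∧ Nr D c (4 * κ + ω) m z := by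
  have hε := s.ε0
  have hτ := s.τ0
  have hετ := Fine.ετ h s
  have hAB := Sml.A_lt_B h s.toSml
  have hB := abs_le.1 (s.B_near h)
  have hA := abs_le.1 (s.A_near h)
  have hητ := Fine.ητ h s
  have hη0 := mul_pos s.η0 s.R0
  have hθτ := s.hτ
  have hxx : xL D - q.θ < z.re ∧ z.re < xR D + q.θ := by
    obtain ⟨w, hw, k1, k2⟩ := hD
    have := h.re_lt hw
    rw [abs_lt] at k1
    constructor <;> linarith
  obtain ⟨⟨i, j⟩, hzr, hQ⟩ := not_Om hε hz
  obtain ⟨⟨x1, x2⟩, y1, y2⟩ := mem_rect'.1 hzr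
  rw [Prof.mem_Q] at hQ
  have ea : (V.mk' h s e he hg hc).a = Aq q D := rfl
  have eb : (V.mk' h s e he hg hc).b = Bq q D := rfl
  have elo : ∀ i, (V.mk' h s e he hg hc).lo i = V.lo i := fun _ => rfl
  have eup : ∀ i, (V.mk' h s e he hg hc).up i = V.up i := fun _ => rfl
  have ert : ∀ i, (V.mk' h s e he hg hc).rt i = mrt q D c e i := fun _ => rfl
  have elt : ∀ i, (V.mk' h s e he hg hc).lt i = mlt q D c e i := fun _ => rfl
  unfold Prof.In Prof.r1 Prof.r2 Prof.l1 Prof.l2 at hQ
  simp only [ea, eb, elo, eup, ert, elt] at hQ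
  rcases lt_or_ge i (Aq q D) with g1 | g1
  · -- left part
    have kx := me1 hε g1
    have kr := Sml.left_row h s.toSml hD (by linarith)
    have k := V.B.b1 (Aq q D) (by omega) (by omega)
    have k' := V.T.t1 (Aq q D) (by omega) (by omega)
    rcases lt_or_ge j (V.lo (Aq q D)) with g2 | g2
    · refine ⟨V.Lb (Aq q D), ?_, ?_⟩
      · intro hcon
        have e1 : V.lo (Aq q D) = lo2 q D (Aq q D) := V.B.b3 _ (by omega) (by omega) hcon
        have := me1 hε (e1 ▸ g2)
        linarith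
      · apply near_bC h s O V.B.b7 (i := Aq q D) (i1 := Aq q D) (i2 := Aq q D) (by omega) (by omega)
          (by omega) (by omega) (by omega) (by omega) (by omega) (by omega) (by omega) (by omega)
        · rw [abs_le]; constructor <;> linarith
        · exact kr.1.le
        · have := me1 hε (lt_of_lt_of_le g2 k.2)
          linarith
    · rcases le_or_gt (V.up (Aq q D)) j with g3 | g3
      · refine ⟨V.Lt (Aq q D), ?_, ?_⟩
        · intro hcon
          have e1 : V.up (Aq q D) = up2 q D (Aq q D) := V.T.t3 _ (by omega) (by omega) hcon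
          have := me hε (e1 ▸ g3)
          linarith
        · apply near_tC h s O V.T.t7 (i := Aq q D) (i1 := Aq q D) (i2 := Aq q D) (by omega) (by omega)
            (by omega) (by omega) (by omega) (by omega) (by omega) (by omega) (by omega) (by omega)
          · rw [abs_le]; constructor <;> linarith
          · have := me hε (k'.1.trans g3)
            linarith
          · exact kr.2.le
      · have g4 : i < mlt q D c e j := by
          by_contra hcon
          exact hQ (Or.inr (Or.inr ⟨⟨g1, not_lt.1 hcon⟩, g2, g3⟩))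
        refine ⟨cnt c (slp q D j), ?_, ?_⟩
        · intro hcon
          have e1 : mlt q D c e j = lt2 q D j := if_pos hcon
          have k5 := me1 hε (e1 ▸ g4)
          have := Sml.gt_lt2 h s.toSml (j := j) (x := z.re) (y := z.im) y1 y2 hD
          linarith
        · have k3 := rowL' (c := c) h s e V.B.b1 V.T.t1 (j := j) g2 g3
          have e5 : q.ε * ((j : ℝ) + 1) = q.ε * j + q.ε := by ring
          refine Nr.mono (K := 4 * κ) ?_ (by linarith)
          apply near_l h s
          · rw [abs_le]; constructor <;> linarith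
          · rw [abs_le]; constructor <;> linarith
          · rw [e5]; linarith [k3.1.1]
          · rw [e5]; exact k3.1.2
  · rcases lt_or_ge i (Bq q D) with g5 | g5
    · -- core
      have k := V.B.b1 (i) g1 g5
      have k' := V.T.t1 (i) g1 g5
      rcases lt_or_ge j (V.lo i) with g2 | g2
      · have k6 := Sml.lo2_lt h s.toSml (i := i) (x := z.re) (y := z.im) x1 x2 hD
        refine ⟨V.Lb i, ?_, ?_⟩
        · intro hcon
          have e1 : V.lo i = lo2 q D i := V.B.b3 _ (by omega) (by omega) hcon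
          have := me1 hε (e1 ▸ g2)
          linarith
        · apply near_bC h s O V.B.b7 (i := i) (i1 := i) (i2 := i) g1 g5 g1 g5 (by omega) (by omega) g1 g5
            (by omega) (by omega)
          · rw [abs_le]; constructor <;> linarith
          · exact k6.le
          · have := me1 hε (lt_of_lt_of_le g2 k.2)
            linarith
      · have g3 : V.up i ≤ j := by
          by_contra hcon
          exact hQ (Or.inl ⟨⟨g1, g5⟩, g2, not_le.1 hcon⟩)
        have k6 := Sml.lt_up2 h s.toSml (i := i) (x := z.re) (y := z.im) x1 x2 hD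
        refine ⟨V.Lt i, ?_, ?_⟩
        · intro hcon
          have e1 : V.up i = up2 q D i := V.T.t3 _ (by omega) (by omega) hcon
          have := me hε (e1 ▸ g3)
          linarith
        · apply near_tC h s O V.T.t7 (i := i) (i1 := i) (i2 := i) g1 g5 g1 g5 (by omega) (by omega) g1 g5
            (by omega) (by omega)
          · rw [abs_le]; constructor <;> linarith
          · have := me hε (k'.1.trans g3)
            linarith
          · exact k6.le
    · -- right part
      have kx := me hε g5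
      have kr := Sml.right_row h s.toSml hD (by linarith)
      have k := V.B.b1 (Bq q D - 1) (by omega) (by omega)
      have k' := V.T.t1 (Bq q D - 1) (by omega) (by omega)
      have e3 : q.ε * ((Bq q D - 1 : ℤ) : ℝ) = q.ε * Bq q D - q.ε := by push_cast; ring
      rcases lt_or_ge j (V.lo (Bq q D - 1)) with g2 | g2
      · refine ⟨V.Lb (Bq q D - 1), ?_, ?_⟩
        · intro hcon
          have e1 : V.lo (Bq q D - 1) = lo2 q D (Bq q D - 1) := V.B.b3 _ (by omega) (by omega) hcon
          have := me1 hε (e1 ▸ g2)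
          linarith
        · apply near_bC h s O V.B.b7 (i := Bq q D - 1) (i1 := Bq q D - 1) (i2 := Bq q D - 1) (by omega)
            (by omega) (by omega) (by omega) (by omega) (by omega) (by omega) (by omega) (by omega)
            (by omega)
          · rw [e3, abs_le]; constructor <;> linarith
          · exact kr.1.le
          · have := me1 hε (lt_of_lt_of_le g2 k.2)
            linarith
      · rcases le_or_gt (V.up (Bq q D - 1)) j with g3 | g3
        · refine ⟨V.Lt (Bq q D - 1), ?_, ?_⟩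
          · intro hcon
            have e1 : V.up (Bq q D - 1) = up2 q D (Bq q D - 1) := V.T.t3 _ (by omega) (by omega) hcon
            have := me hε (e1 ▸ g3)
            linarith
          · apply near_tC h s O V.T.t7 (i := Bq q D - 1) (i1 := Bq q D - 1) (i2 := Bq q D - 1) (by omega)
              (by omega) (by omega) (by omega) (by omega) (by omega) (by omega) (by omega)
              (by omega) (by omega)
            · rw [e3, abs_le]; constructor <;> linarith
            · have := me hε (k'.1.trans g3)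
              linarith
            · exact kr.2.le
        · have g4 : mrt q D c e j ≤ i := by
            by_contra hcon
            exact hQ (Or.inr (Or.inl ⟨⟨g5, not_le.1 hcon⟩, g2, g3⟩))
          refine ⟨cnt c (srp q D j), ?_, ?_⟩
          · intro hcon
            have e1 : mrt q D c e j = rt2 q D j := if_pos hcon
            have k5 := me hε (e1 ▸ g4)
            have := Sml.lt_rt2 h s.toSml (j := j) (x := z.re) (y := z.im) y1 y2 hD
            linarith
          · have k3 := rowR' (c := c) h s e V.B.b1 V.T.t1 (j := j) g2 g3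
            refine Nr.mono (K := 4 * κ) ?_ (by linarith)
            apply near_r h s
            · rw [abs_le]; constructor <;> linarith
            · rw [abs_le]; constructor <;> linarith
            · exact k3.1.1
            · linarith [k3.1.2]

end

/-- the inner domain is in the region -/
theorem sc_OmV {z : ℂ} (hz : z ∈ sc q.η D) : z ∈ Om (V.mk' h s e he hg hc).Q (gr q.ε) (gr q.ε) := by
  have hε := s.ε0
  have key : ∀ c' : Cell, z ∈ rect (gr q.ε) (gr q.ε) c' → c' ∈ (V.mk' h s e he hg hc).Q := by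
    rintro ⟨i, j⟩ hr
    obtain ⟨⟨x1, x2⟩, y1, y2⟩ := mem_rect'.1 hr
    have hx := (Sml.cd1 h s.toSml).re_lt hz
    rw [xL_sc (by linarith [s.η1]), xR_sc (by linarith [s.η1])] at hx
    have hA := Sml.A_le h s.toSml
    have hB := Sml.B_ge s.toSml
    have g1 : Aq q D ≤ i := by
      by_contra hcon
      have := me1 hε (not_le.1 hcon)
      linarith
    have g2 : i < Bq q D := by
      by_contra hcon
      have := me hε (not_lt.1 hcon)
      linarith
    have k := V.B.b1 (i) g1 g2
    have k' := V.T.t1 (i) g1 g2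
    have l1 := Sml.lo1_lt h s.toSml (i := i) (x := z.re) (y := z.im) x1 x2 hz
    have l2 := Sml.lt_up1 h s.toSml (i := i) (x := z.re) (y := z.im) x1 x2 hz
    rw [Prof.mem_Q]
    refine Or.inl ⟨⟨g1, g2⟩, ?_, ?_⟩
    · show V.lo i ≤ j
      have : lo1 q D i ≤ j := by
        by_contra hcon
        have := me1 hε (not_le.1 hcon)
        linarith
      omega
    · show j < V.up i
      have : j < up1 q D i := by
        by_contra hcon
        have := me hε (not_lt.1 hcon)
        linarith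
      omega
  obtain ⟨c', hc'⟩ := exists_rect hε z
  exact (mem_Om (gr_mono hε) (gr_mono hε)).2 ⟨⟨c', key c' hc', hc'⟩, key⟩

/-- from a core cell to the inner domain -/
lemma core_joinV {i j : ℤ} (h1 : Aq q D ≤ i) (h2 : i < Bq q D) (h3 : V.lo i ≤ j)
    (h4 : j < V.up i) {p : ℂ} {ρ : ℝ} (hp : ‖cnr q.ε i j - p‖ + 5 * κ ≤ ρ) :
    ∃ w ∈ sc q.η D, JoinedIn (Om (V.mk' h s e he hg hc).Q (gr q.ε) (gr q.ε) ∩ Metric.ball p ρ)
      (cnr q.ε i j) w := by
  have hε := s.ε0
  have hτ := s.τ0
  have hετ := Fine.ετ h s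
  have hκ := s.κ0
  have hτκ := s.τκ
  have k := V.B.b1 (i) h1 h2
  have k' := V.T.t1 (i) h1 h2
  have kk := Sml.lo1_lt_up1 h s.toSml h1 h2
  have g1 := s.core_gt h h1
  have g2 := s.core_lt h h2.le
  have cf := s.clf i h1 h2 (q.ε * i) (by linarith) (by linarith) (by
    rw [sub_self, abs_zero]; linarith)
  have cc := s.clc i h1 h2 (q.ε * i) (by linarith) (by linarith) (by
    rw [sub_self, abs_zero]; linarith)
  rw [abs_le, abs_le] at cf cc
  -- height
  obtain ⟨y, hy1, hy2, hy3⟩ : ∃ y, q.ε * lo1 q D i ≤ y ∧ y ≤ q.ε * up1 q D i ∧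
      |q.ε * ((j : ℝ) + 1 / 2) - y| ≤ 2 * κ + q.ε := by
    have m1 := me hε (k.1.trans h3)
    have m2 := me1 hε (lt_of_lt_of_le h4 k'.2)
    have m3 := me hε (show lo1 q D i ≤ up1 q D i by omega)
    rcases lt_or_ge (q.ε * ((j : ℝ) + 1 / 2)) (q.ε * lo1 q D i) with a | a
    · refine ⟨q.ε * lo1 q D i, le_rfl, m3, ?_⟩
      rw [abs_le]; constructor <;> linarith
    · rcases lt_or_ge (q.ε * up1 q D i) (q.ε * ((j : ℝ) + 1 / 2)) with b | b
      · refine ⟨q.ε * up1 q D i, m3, le_rfl, ?_⟩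
        rw [abs_le]; constructor <;> linarith
      · exact ⟨_, a, b, by rw [sub_self, abs_zero]; linarith⟩
  obtain ⟨w, hw, w1, w2, w3, w4⟩ := inner_pt h s h1 h2 (x := q.ε * ((i : ℝ) + 1 / 2)) (y := y)
    (by linarith) (by linarith) hy1 hy2
  have hwO := sc_OmV h s e he hg hc V hw
  -- the cell of w
  obtain ⟨⟨i', j1⟩, hr1⟩ := exists_rect hε w
  obtain ⟨⟨x1, x2⟩, y1, y2⟩ := mem_rect'.1 hr1
  have hr2 : w ∈ rect (gr q.ε) (gr q.ε) (i, j1) := mem_rect'.2 ⟨⟨w3, w4⟩, y1, y2⟩
  have hQ1 : (i, j1) ∈ (V.mk' h s e he hg hc).Q :=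
    ((mem_Om (gr_mono hε) (gr_mono hε)).1 hwO).2 _ hr2
  have hcore : ∀ {j' : ℤ}, (i, j') ∈ (V.mk' h s e he hg hc).Q ↔
      V.lo i ≤ j' ∧ j' < V.up i := fun {j'} =>
    LProf.core (p := V.mk' h s e he hg hc) h1 h2
  have hj1 := hcore.1 hQ1
  have hd : |(cnr q.ε i j).im - w.im| < 2 * κ + 4 * q.ε := by
    rw [cnr_im]
    rw [abs_le] at hy3
    rw [abs_lt] at w2 ⊢
    constructor <;> linarith
  have hd2 : |(cnr q.ε i j).re - w.re| ≤ q.ε := by rw [cnr_re]; exact w1
  have b1 : cnr q.ε i j ∈ Metric.ball p ρ := by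
    rw [Metric.mem_ball, dist_eq_norm]; linarith
  have tri : ∀ u : ℂ, |u.re - (cnr q.ε i j).re| + |u.im - (cnr q.ε i j).im| < 5 * κ →
      u ∈ Metric.ball p ρ := by
    intro u hu
    have := mem_ball_of hu
    rw [Metric.mem_ball, dist_eq_norm] at *
    have := norm_sub_le_norm_sub_add_norm_sub u (cnr q.ε i j) p
    linarith
  have b2 : w ∈ Metric.ball p ρ := by
    apply tri
    rw [abs_sub_comm w.re, abs_sub_comm w.im]
    linarith
  have b3 : cnr q.ε i j1 ∈ Metric.ball p ρ := by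
    apply tri
    rw [cnr_re, cnr_re, sub_self, abs_zero, zero_add]
    have : |(cnr q.ε i j1).im - w.im| ≤ q.ε := by
      rw [cnr_im, abs_le]; constructor <;> linarith
    have t := abs_sub_le (cnr q.ε i j1).im w.im (cnr q.ε i j).im
    rw [abs_sub_comm w.im] at t
    linarith
  refine ⟨w, hw, ?_⟩
  have J1 : JoinedIn (Om (V.mk' h s e he hg hc).Q (gr q.ε) (gr q.ε) ∩ Metric.ball p ρ)
      (cnr q.ε i j) (cnr q.ε i j1) := by
    apply join_box hε (i0 := i) (i1 := i) (j0 := min j j1) (j1 := max j j1) ?_ le_rfl le_rfl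
      (min_le_left _ _) (le_max_left _ _) le_rfl le_rfl (min_le_right _ _) (le_max_right _ _) b1 b3
    intro i'' j'' a1 a2 a3 a4
    obtain rfl : i'' = i := by omega
    rw [hcore]
    omega
  exact J1.trans (join_cnr hε hQ1 hwO hr2 b2 b3).symm

/-- **Short paths to the inner domain** -/
theorem exists_joinV {z : ℂ} (hz : z ∈ Om (V.mk' h s e he hg hc).Q (gr q.ε) (gr q.ε)) :
    ∃ w ∈ sc q.η D, JoinedIn (Om (V.mk' h s e he hg hc).Q (gr q.ε) (gr q.ε) ∩ Metric.ball z (8 * κ))
      z w := by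
  have hε := s.ε0
  have hτ := s.τ0
  have hετ := Fine.ετ h s
  have hκ := s.κ0
  have hτκ := s.τκ
  have hAB := Sml.A_lt_B h s.toSml
  obtain ⟨⟨⟨i, j⟩, hQ, hr⟩, -⟩ := (mem_Om (gr_mono hε) (gr_mono hε)).1 hz
  obtain ⟨⟨x1, x2⟩, y1, y2⟩ := mem_rect'.1 hr
  have hd1 : |z.re - (cnr q.ε i j).re| ≤ q.ε / 2 := by
    rw [cnr_re, abs_le]; constructor <;> linarith
  have hd2 : |z.im - (cnr q.ε i j).im| ≤ q.ε / 2 := by
    rw [cnr_im, abs_le]; constructor <;> linarith
  have b0 : z ∈ Metric.ball z (8 * κ) := Metric.mem_ball_self (by linarith)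
  have b1 : cnr q.ε i j ∈ Metric.ball z (8 * κ) := by
    apply mem_ball_of
    rw [abs_sub_comm, abs_sub_comm (cnr q.ε i j).im]
    linarith
  have J0 := join_cnr hε hQ hz hr b0 b1
  rw [Prof.mem_Q] at hQ
  rcases hQ with ⟨⟨h1, h2⟩, h3, h4⟩ | ⟨⟨h1, h2⟩, h3, h4⟩ | ⟨⟨h1, h2⟩, h3, h4⟩
  · obtain ⟨w, hw, J⟩ := core_joinV h s e he hg hc V (i := i) (j := j) h1 h2 h3 h4 (p := z)
      (ρ := 8 * κ) (by
        have := Complex.norm_le_abs_re_add_abs_im (cnr q.ε i j - z)
        rw [Complex.sub_re, Complex.sub_im, abs_sub_comm, abs_sub_comm (cnr q.ε i j).im] at this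
        linarith)
    exact ⟨w, hw, J0.trans J⟩
  · have h1' : Bq q D ≤ i := h1
    have h2' : i < mrt q D c e j := h2
    have h3' : V.lo (Bq q D - 1) ≤ j := h3
    have h4' : j < V.up (Bq q D - 1) := h4
    have k3 := rowR' (c := c) h s e V.B.b1 V.T.t1 (j := j) h3 h4
    have k5 := me1 hε h2'
    have k6 := me hε h1'
    have hd3 : |(cnr q.ε i j).re - (cnr q.ε (Bq q D - 1) j).re| ≤ 3 * τ := by
      rw [cnr_re, cnr_re]
      push_cast
      rw [abs_le]; constructor <;> linarith
    have hn : ‖cnr q.ε (Bq q D - 1) j - z‖ + 5 * κ ≤ 8 * κ := by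
      have t1 := Complex.norm_le_abs_re_add_abs_im (cnr q.ε (Bq q D - 1) j - z)
      rw [Complex.sub_re, Complex.sub_im, abs_sub_comm,
        abs_sub_comm (cnr q.ε (Bq q D - 1) j).im] at t1
      have t2 := abs_sub_le z.re (cnr q.ε i j).re (cnr q.ε (Bq q D - 1) j).re
      have t3 : (cnr q.ε (Bq q D - 1) j).im = (cnr q.ε i j).im := rfl
      rw [t3] at t1
      linarith
    obtain ⟨w, hw, J⟩ := core_joinV h s e he hg hc V (i := Bq q D - 1) (j := j) (by omega) (by omega)
      h3 h4 (p := z) (ρ := 8 * κ) hn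
    refine ⟨w, hw, (J0.trans ?_).trans J⟩
    apply join_box hε (i0 := Bq q D - 1) (i1 := i) (j0 := j) (j1 := j) ?_ (by omega) le_rfl
      le_rfl le_rfl le_rfl (by omega) le_rfl le_rfl b1
    · rw [Metric.mem_ball, dist_eq_norm]; linarith
    · intro i'' j'' a1 a2 a3 a4
      obtain rfl : j'' = j := by omega
      rw [Prof.mem_Q]
      rcases lt_or_ge i'' (Bq q D) with g | g
      · obtain rfl : i'' = Bq q D - 1 := by omega
        exact Or.inl ⟨⟨show Aq q D ≤ _ by omega, show _ < Bq q D by omega⟩, h3, h4⟩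
      · exact Or.inr (Or.inl ⟨⟨g, show _ < mrt q D c e j'' by omega⟩, h3, h4⟩)
  · have h1' : i < Aq q D := h1
    have h2' : mlt q D c e j ≤ i := h2
    have h3' : V.lo (Aq q D) ≤ j := h3
    have h4' : j < V.up (Aq q D) := h4
    have k3 := rowL' (c := c) h s e V.B.b1 V.T.t1 (j := j) h3 h4
    have k5 := me hε h2'
    have k6 := me1 hε h1'
    have hd3 : |(cnr q.ε i j).re - (cnr q.ε (Aq q D) j).re| ≤ 3 * τ := by
      rw [cnr_re, cnr_re]
      rw [abs_le]; constructor <;> linarith
    have hn : ‖cnr q.ε (Aq q D) j - z‖ + 5 * κ ≤ 8 * κ := by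
      have t1 := Complex.norm_le_abs_re_add_abs_im (cnr q.ε (Aq q D) j - z)
      rw [Complex.sub_re, Complex.sub_im, abs_sub_comm, abs_sub_comm (cnr q.ε (Aq q D) j).im] at t1
      have t2 := abs_sub_le z.re (cnr q.ε i j).re (cnr q.ε (Aq q D) j).re
      have t3 : (cnr q.ε (Aq q D) j).im = (cnr q.ε i j).im := rfl
      rw [t3] at t1
      linarith
    obtain ⟨w, hw, J⟩ := core_joinV h s e he hg hc V (i := Aq q D) (j := j) (by omega) (by omega)
      h3 h4 (p := z) (ρ := 8 * κ) hn
    refine ⟨w, hw, (J0.trans ?_).trans J⟩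
    apply join_box hε (i0 := i) (i1 := Aq q D) (j0 := j) (j1 := j) ?_ le_rfl (by omega)
      le_rfl le_rfl (by omega) le_rfl le_rfl le_rfl b1
    · rw [Metric.mem_ball, dist_eq_norm]; linarith
    · intro i'' j'' a1 a2 a3 a4
      obtain rfl : j'' = j := by omega
      rw [Prof.mem_Q]
      rcases lt_or_ge i'' (Aq q D) with g | g
      · exact Or.inr (Or.inr ⟨⟨g, show mlt q D c e j'' ≤ _ by omega⟩, h3, h4⟩)
      · obtain rfl : i'' = Aq q D := by omega
        exact Or.inl ⟨⟨show Aq q D ≤ _ by omega, show _ < Bq q D by omega⟩, h3, h4⟩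

end

end Pool.Agent.H5.FM
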