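import Mathlib
import Pool.Agent.H5.FM.Hv8

set_option autoImplicit false
open Set

/-! # The monotone labelled polygon is convex in rows and columns -/

namespace Pool.Agent.H5.FM

open Pool.Agent.Q1.M4 (Cell)

/-- rows and columns are intervals -/
structure HVC (Q : Finset Cell) : Prop where
  row : ∀ i i' k j : ℤ, (i, j) ∈ Q → (i', j) ∈ Q → i ≤ k → k ≤ i' → (k, j) ∈ Q
  col : ∀ i j j' k : ℤ, (i, j) ∈ Q → (i, j') ∈ Q → j ≤ k → k ≤ j' → (i, k) ∈ Q

variable {D : Set ℂ} {R r τ κ g σ' ω : ℝ} {q : Par} {c : Fin 4 → ℝ}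

/-- the horizontal extent of the rows is quasi concave -/
lemma pc_qc {K : Set ℂ} (hK : CD K) {ε : ℝ} (hε : 0 < ε) {j k j' : ℤ} (h1 : j ≤ k) (h2 : k ≤ j')
    {x1 x2 : ℝ} (hx1 : x1 ∈ pc K (ε * j) (ε * (j + 1))) (hx2 : x2 ∈ pc K (ε * j') (ε * (j' + 1))) :
    ∃ x ∈ pc K (ε * k) (ε * (k + 1)), min x1 x2 ≤ x := by
  rcases eq_or_lt_of_le h1 with e1 | e1
  · subst e1
    exact ⟨x1, hx1, min_le_left _ _⟩
  rcases eq_or_lt_of_le h2 with e2 | e2
  · subst e2
    exact ⟨x2, hx2, min_le_right _ _⟩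
  obtain ⟨y1, a1, a2, a3⟩ := hx1
  obtain ⟨y2, b1, b2, b3⟩ := hx2
  have k1 := me1 hε e1
  have k2 := me1 hε e2
  have hlt : y1 < y2 := by linarith
  have hne : y2 - y1 ≠ 0 := by linarith
  obtain ⟨t, ht⟩ : ∃ t, t = (ε * k - y1) / (y2 - y1) := ⟨_, rfl⟩
  have ht0 : 0 ≤ t := by rw [ht]; exact div_nonneg (by linarith) (by linarith)
  have ht1 : t ≤ 1 := by rw [ht, div_le_one (by linarith)]; linarith
  have := hK.conv a3 b3 (a := 1 - t) (b := t) (by linarith) ht0 (by ring)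
  refine ⟨(1 - t) * x1 + t * x2, ⟨ε * k, le_rfl, by linarith, ?_⟩, ?_⟩
  · convert this using 1
    apply Complex.ext
    · simp only [Complex.add_re, Complex.smul_re, smul_eq_mul]
    · simp only [Complex.add_im, Complex.smul_im, smul_eq_mul]
      rw [ht]
      field_simp
      ring
  · rcases le_total x1 x2 with g1 | g1
    · rw [min_eq_left g1]
      nlinarith
    · rw [min_eq_right g1]
      nlinarith

lemma rt2_qc (h : CD D) (s : Sml D R r τ q) {j k j' : ℤ} (h1 : j ≤ k) (h2 : k ≤ j')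
    (hj : (pc (th q.θ D) (q.ε * j) (q.ε * (j + 1))).Nonempty)
    (hj' : (pc (th q.θ D) (q.ε * j') (q.ε * (j' + 1))).Nonempty) :
    min (rt2 q D j) (rt2 q D j') ≤ rt2 q D k := by
  have hT := Sml.cd2 h s
  have hε := s.ε0
  have hS : min (sSup (pc (th q.θ D) (q.ε * j) (q.ε * (j + 1))))
      (sSup (pc (th q.θ D) (q.ε * j') (q.ε * (j' + 1)))) ≤
      sSup (pc (th q.θ D) (q.ε * k) (q.ε * (k + 1))) := by
    apply le_of_forall_lt
    intro t ht
    rw [lt_min_iff] at ht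
    obtain ⟨x1, hx1, hx1'⟩ := exists_lt_of_lt_csSup hj ht.1
    obtain ⟨x2, hx2, hx2'⟩ := exists_lt_of_lt_csSup hj' ht.2
    obtain ⟨x, hx, hx'⟩ := pc_qc hT hε h1 h2 hx1 hx2
    have := le_csSup hT.pc_bd.bddAbove hx
    have : t < min x1 x2 := lt_min hx1' hx2'
    linarith
  unfold rt2
  rcases min_choice (sSup (pc (th q.θ D) (q.ε * j) (q.ε * (j + 1))))
    (sSup (pc (th q.θ D) (q.ε * j') (q.ε * (j' + 1)))) with e1 | e1
  · rw [e1] at hS
    refine (min_le_left _ _).trans ?_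
    exact max_le_max le_rfl (Int.ceil_le_ceil (div_le_div_of_nonneg_right hS hε.le))
  · rw [e1] at hS
    refine (min_le_right _ _).trans ?_
    exact max_le_max le_rfl (Int.ceil_le_ceil (div_le_div_of_nonneg_right hS hε.le))

lemma lt2_qc (h : CD D) (s : Sml D R r τ q) {j k j' : ℤ} (h1 : j ≤ k) (h2 : k ≤ j')
    (hj : (pc (th q.θ D) (q.ε * j) (q.ε * (j + 1))).Nonempty)
    (hj' : (pc (th q.θ D) (q.ε * j') (q.ε * (j' + 1))).Nonempty) :
    lt2 q D k ≤ max (lt2 q D j) (lt2 q D j') := by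
  have key : ∀ {y0 y1 : ℝ}, (pc (th q.θ D) y0 y1).Nonempty → (pc (th q.θ (rx D)) y0 y1).Nonempty := by
    rintro y0 y1 ⟨x, hx⟩
    exact ⟨-x, by rw [th_rx, pc_rx, neg_neg]; exact hx⟩
  have := rt2_qc h.rx s.rx h1 h2 (key hj) (key hj')
  unfold lt2
  omega

/-- labels at least `2` apart -/
lemma cnt_two (hc : StrictMono c) {e : ℤ} {s s' : ℝ} (h1 : s ≤ s') (h2 : cnt c s % 2 = e)
    (h3 : cnt c s' % 2 = e) (h4 : cnt c s ≠ cnt c s') :
    ∃ k : Fin 3, (k.val : ℤ) % 2 = e ∧ s < c k.castSucc ∧ c k.succ ≤ s' := by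
  have h01 : c 0 < c 1 := hc (by decide)
  have h12 : c 1 < c 2 := hc (by decide)
  have h23 : c 2 < c 3 := hc (by decide)
  rcases cnt_eq hc s with ⟨a1, a2⟩ | ⟨a1, a2, a3⟩ | ⟨a1, a2, a3⟩ | ⟨a1, a2, a3⟩ | ⟨a1, a2⟩ <;>
  rcases cnt_eq hc s' with ⟨b1, b2⟩ | ⟨b1, b2, b3⟩ | ⟨b1, b2, b3⟩ | ⟨b1, b2, b3⟩ | ⟨b1, b2⟩ <;>
  first
  | (exfalso; omega)
  | (exfalso; linarith)
  | exact ⟨0, by simp; omega, a1, by show c 1 ≤ s'; linarith⟩
  | exact ⟨1, by simp; omega, a2, by show c 2 ≤ s'; linarith⟩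
  | exact ⟨2, by simp; omega, a2, by show c 3 ≤ s'; linarith⟩

lemma cnt_mono (hc : StrictMono c) {s s' : ℝ} (h : s ≤ s') : cnt c s ≤ cnt c s' := by
  have h01 : c 0 < c 1 := hc (by decide)
  have h12 : c 1 < c 2 := hc (by decide)
  have h23 : c 2 < c 3 := hc (by decide)
  rcases cnt_eq hc s with ⟨a1, a2⟩ | ⟨a1, a2, a3⟩ | ⟨a1, a2, a3⟩ | ⟨a1, a2, a3⟩ | ⟨a1, a2⟩ <;>
  rcases cnt_eq hc s' with ⟨b1, b2⟩ | ⟨b1, b2, b3⟩ | ⟨b1, b2, b3⟩ | ⟨b1, b2, b3⟩ | ⟨b1, b2⟩ <;>
  first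
  | omega
  | (exfalso; linarith)

/-- no arc of the inner type is inside one of the vertical sides -/
structure NoV (D : Set ℂ) (c : Fin 4 → ℝ) (e : ℤ) : Prop where
  right : ∀ k : Fin 3, (k.val : ℤ) % 2 = e → ¬ (wd D < c k.castSucc ∧ c k.succ ≤ wd D + tr D)
  left : ∀ k : Fin 3, (k.val : ℤ) % 2 = e → ¬ (2 * wd D + tr D < c k.castSucc ∧ c k.succ ≤ TD D)

section

variable (h : CD D) (s : Fine D R r τ κ q) (e : ℤ) (he : e = 0 ∨ e = 1) (hg : κ + τ < g)
  (hc : Cuts D g c) (V : HV D q c e σ')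
include h s he hg hc V

omit h s he hg hc in
lemma valley {i k i' : ℤ} (h1 : Aq q D ≤ i) (h2 : i ≤ k) (h3 : k ≤ i') (h4 : i' < Bq q D) :
    V.lo k ≤ max (V.lo i) (V.lo i') ∧ min (V.up i) (V.up i') ≤ V.up k := by
  constructor
  · obtain ⟨m, m1, m2⟩ := V.B.b2
    rcases le_total k m with g1 | g1
    · have : ∀ k, i ≤ k → k ≤ m → k < Bq q D → V.lo k ≤ V.lo i := by
        intro k hk
        induction k, hk using Int.leInduction with
        | base => exact fun _ _ => le_rfl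
        | succ n hn ih => exact fun a b => (m1 n (by omega) b a).trans (ih (by omega) (by omega))
      exact (this k h2 g1 (by omega)).trans (le_max_left _ _)
    · have : ∀ k', k ≤ k' → k' < Bq q D → V.lo k ≤ V.lo k' := by
        intro k' hk
        induction k', hk using Int.leInduction with
        | base => exact fun _ => le_rfl
        | succ n hn ih => exact fun a => (ih (by omega)).trans (m2 n (by omega) a (by omega))
      exact (this i' h3 h4).trans (le_max_right _ _)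
  · obtain ⟨m, m1, m2⟩ := V.T.t2
    rcases le_total k m with g1 | g1
    · have : ∀ k, i ≤ k → k ≤ m → k < Bq q D → V.up i ≤ V.up k := by
        intro k hk
        induction k, hk using Int.leInduction with
        | base => exact fun _ _ => le_rfl
        | succ n hn ih => exact fun a b => (ih (by omega) (by omega)).trans (m1 n (by omega) b a)
      exact (min_le_left _ _).trans (this k h2 g1 (by omega))
    · have : ∀ k', k ≤ k' → k' < Bq q D → V.up k' ≤ V.up k := by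
        intro k' hk
        induction k', hk using Int.leInduction with
        | base => exact fun _ => le_rfl
        | succ n hn ih => exact fun a => (m2 n (by omega) a (by omega)).trans (ih (by omega))
      exact (min_le_right _ _).trans (this i' h3 h4)

omit s he hg hc V in
lemma srp_rng (j : ℤ) : wd D ≤ srp q D j ∧ srp q D j ≤ wd D + tr D := by
  have hfc := h.flo_le_cei h.hLR.le le_rfl
  have k1 := clp_ge (flo D (xR D)) (cei D (xR D)) (q.ε * j)
  have k2 := clp_le hfc (q.ε * j)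
  unfold srp tr
  constructor <;> linarith

omit s he hg hc V in
lemma slp_rng (j : ℤ) : 2 * wd D + tr D ≤ slp q D j ∧ slp q D j ≤ TD D := by
  have hfc := h.flo_le_cei le_rfl h.hLR.le
  have k1 := clp_ge (flo D (xL D)) (cei D (xL D)) (q.ε * (j + 1))
  have k2 := clp_le hfc (q.ε * (j + 1))
  unfold slp TD tl
  constructor <;> linarith

/-- **Rows and columns are intervals.** -/
theorem hvc (N : NoV D c e) : HVC (V.mk' h s e he hg hc).Q := by
  have hAB := Sml.A_lt_B h s.toSml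
  have hε := s.ε0
  have mem : ∀ i j : ℤ, (i, j) ∈ (V.mk' h s e he hg hc).Q ↔
      ((Aq q D ≤ i ∧ i < Bq q D) ∧ V.lo i ≤ j ∧ j < V.up i) ∨
      ((Bq q D ≤ i ∧ i < mrt q D c e j) ∧ V.lo (Bq q D - 1) ≤ j ∧ j < V.up (Bq q D - 1)) ∨
      ((i < Aq q D ∧ mlt q D c e j ≤ i) ∧ V.lo (Aq q D) ≤ j ∧ j < V.up (Aq q D)) := by
    intro i j
    rw [Prof.mem_Q]
    exact Iff.rfl
  constructor
  · intro i i' k j hi hi' h1 h2
    rw [mem] at hi hi' ⊢
    rcases lt_or_ge k (Aq q D) with g1 | g1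
    · -- left part
      right; right
      rcases hi with ⟨⟨a1, a2⟩, a3⟩ | ⟨⟨a1, a2⟩, a3⟩ | ⟨⟨a1, a2⟩, a3⟩
      · omega
      · omega
      · exact ⟨⟨g1, by omega⟩, a3⟩
    · rcases lt_or_ge k (Bq q D) with g2 | g2
      · left
        refine ⟨⟨g1, g2⟩, ?_⟩
        have hL : ∃ i1, (Aq q D ≤ i1 ∧ i1 ≤ k) ∧ V.lo i1 ≤ j ∧ j < V.up i1 := by
          rcases hi with ⟨⟨a1, a2⟩, a3⟩ | ⟨⟨a1, a2⟩, a3⟩ | ⟨⟨a1, a2⟩, a3⟩
          · exact ⟨i, ⟨a1, h1⟩, a3⟩
          · omega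
          · exact ⟨Aq q D, ⟨le_rfl, g1⟩, a3⟩
        have hR : ∃ i2, (k ≤ i2 ∧ i2 < Bq q D) ∧ V.lo i2 ≤ j ∧ j < V.up i2 := by
          rcases hi' with ⟨⟨a1, a2⟩, a3⟩ | ⟨⟨a1, a2⟩, a3⟩ | ⟨⟨a1, a2⟩, a3⟩
          · exact ⟨i', ⟨h2, a2⟩, a3⟩
          · exact ⟨Bq q D - 1, ⟨by omega, by omega⟩, a3⟩
          · omega
        obtain ⟨i1, ⟨b1, b2⟩, b3, b4⟩ := hL
        obtain ⟨i2, ⟨c1, c2⟩, c3, c4⟩ := hR
        obtain ⟨v1, v2⟩ := valley e V b1 b2 c1 c2
        omega
      · right; left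
        rcases hi' with ⟨⟨a1, a2⟩, a3⟩ | ⟨⟨a1, a2⟩, a3⟩ | ⟨⟨a1, a2⟩, a3⟩
        · omega
        · exact ⟨⟨g2, by omega⟩, a3⟩
        · omega
  · intro i j j' k hj hj' h1 h2
    rw [mem] at hj hj' ⊢
    rcases lt_or_ge i (Aq q D) with g1 | g1
    · right; right
      obtain ⟨a1, a2, a3⟩ : mlt q D c e j ≤ i ∧ V.lo (Aq q D) ≤ j ∧ j < V.up (Aq q D) := by
        rcases hj with ⟨⟨a1, a2⟩, a3⟩ | ⟨⟨a1, a2⟩, a3⟩ | ⟨⟨a1, a2⟩, a3⟩
        · omega
        · omega
        · exact ⟨a2, a3⟩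
      obtain ⟨b1, b2, b3⟩ : mlt q D c e j' ≤ i ∧ V.lo (Aq q D) ≤ j' ∧ j' < V.up (Aq q D) := by
        rcases hj' with ⟨⟨a1, a2⟩, a3⟩ | ⟨⟨a1, a2⟩, a3⟩ | ⟨⟨a1, a2⟩, a3⟩
        · omega
        · omega
        · exact ⟨a2, a3⟩
      refine ⟨⟨g1, ?_⟩, by omega, by omega⟩
      have hout : ∀ {j}, mlt q D c e j ≤ i → cnt c (slp q D j) % 2 = e ∧ lt2 q D j ≤ i := by
        intro j hj
        unfold mlt at hj
        split_ifs at hj with hc'
        · exact ⟨hc', hj⟩
        · omega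
      have o1 := hout a1
      have o2 := hout b1
      have hmn : ∀ {j j' : ℤ}, j ≤ j' → slp q D j' ≤ slp q D j := by
        intro j j' hjj
        have hm := me hε hjj
        have := clp_mono (a := flo D (xL D)) (b := cei D (xL D))
          (show q.ε * ((j : ℝ) + 1) ≤ q.ε * ((j' : ℝ) + 1) by linarith)
        unfold slp
        linarith
      have heq : cnt c (slp q D j') = cnt c (slp q D j) := by
        by_contra hcon
        obtain ⟨n, n1, n2, n3⟩ := cnt_two hc.mono (hmn (h1.trans h2)) o2.1 o1.1 hcon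
        exact N.left n n1 ⟨(slp_rng (q := q) h j').1.trans_lt n2,
          n3.trans (slp_rng (q := q) h j).2⟩
      have hk1 := cnt_mono hc.mono (hmn h1)
      have hk2 := cnt_mono hc.mono (hmn h2)
      have hkk : cnt c (slp q D k) % 2 = e := by
        have : cnt c (slp q D k) = cnt c (slp q D j) := by omega
        rw [this]; exact o1.1
      have t1 := V.B.b1 (Aq q D) le_rfl hAB
      have t2 := V.T.t1 (Aq q D) le_rfl hAB
      have hq := lt2_qc h s.toSml h1 h2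
        (Sml.row_ne h s.toSml (i := Aq q D) le_rfl hAB (by omega) (by omega))
        (Sml.row_ne h s.toSml (i := Aq q D) le_rfl hAB (by omega) (by omega))
      unfold mlt
      rw [if_pos hkk]
      omega
    · rcases lt_or_ge i (Bq q D) with g2 | g2
      · left
        obtain ⟨a1, a2⟩ : V.lo i ≤ j ∧ j < V.up i := by
          rcases hj with ⟨⟨a1, a2⟩, a3⟩ | ⟨⟨a1, a2⟩, a3⟩ | ⟨⟨a1, a2⟩, a3⟩
          · exact a3
          · omega
          · omega
        obtain ⟨b1, b2⟩ : V.lo i ≤ j' ∧ j' < V.up i := by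
          rcases hj' with ⟨⟨a1, a2⟩, a3⟩ | ⟨⟨a1, a2⟩, a3⟩ | ⟨⟨a1, a2⟩, a3⟩
          · exact a3
          · omega
          · omega
        exact ⟨⟨g1, g2⟩, by omega, by omega⟩
      · right; left
        obtain ⟨a1, a2, a3⟩ : i < mrt q D c e j ∧ V.lo (Bq q D - 1) ≤ j ∧ j < V.up (Bq q D - 1) := by
          rcases hj with ⟨⟨a1, a2⟩, a3⟩ | ⟨⟨a1, a2⟩, a3⟩ | ⟨⟨a1, a2⟩, a3⟩
          · omega
          · exact ⟨a2, a3⟩
          · omega
        obtain ⟨b1, b2, b3⟩ : i < mrt q D c e j' ∧ V.lo (Bq q D - 1) ≤ j' ∧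
            j' < V.up (Bq q D - 1) := by
          rcases hj' with ⟨⟨a1, a2⟩, a3⟩ | ⟨⟨a1, a2⟩, a3⟩ | ⟨⟨a1, a2⟩, a3⟩
          · omega
          · exact ⟨a2, a3⟩
          · omega
        refine ⟨⟨g2, ?_⟩, by omega, by omega⟩
        have hout : ∀ {j}, i < mrt q D c e j → cnt c (srp q D j) % 2 = e ∧ i < rt2 q D j := by
          intro j hj
          unfold mrt at hj
          split_ifs at hj with hc'
          · exact ⟨hc', hj⟩
          · omega
        have o1 := hout a1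
        have o2 := hout b1
        have hmn : ∀ {j j' : ℤ}, j ≤ j' → srp q D j ≤ srp q D j' := by
          intro j j' hjj
          have hm := me hε hjj
          have := clp_mono (a := flo D (xR D)) (b := cei D (xR D)) hm
          unfold srp
          linarith
        have heq : cnt c (srp q D j) = cnt c (srp q D j') := by
          by_contra hcon
          obtain ⟨n, n1, n2, n3⟩ := cnt_two hc.mono (hmn (h1.trans h2)) o1.1 o2.1 hcon
          exact N.right n n1 ⟨(srp_rng (q := q) h j).1.trans_lt n2,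
            n3.trans (srp_rng (q := q) h j').2⟩
        have hk1 := cnt_mono hc.mono (hmn h1)
        have hk2 := cnt_mono hc.mono (hmn h2)
        have hkk : cnt c (srp q D k) % 2 = e := by
          have : cnt c (srp q D k) = cnt c (srp q D j) := by omega
          rw [this]; exact o1.1
        have t1 := V.B.b1 (Bq q D - 1) (by omega) (by omega)
        have t2 := V.T.t1 (Bq q D - 1) (by omega) (by omega)
        have hq := rt2_qc h s.toSml h1 h2
          (Sml.row_ne h s.toSml (i := Bq q D - 1) (by omega) (by omega) (by omega) (by omega))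
          (Sml.row_ne h s.toSml (i := Bq q D - 1) (by omega) (by omega) (by omega) (by omega))
        unfold mrt
        rw [if_pos hkk]
        omega

end

end Pool.Agent.H5.FM
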