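import Mathlib
import Pool.Agent.H5.FM.Hv9

set_option autoImplicit false
open Finset

/-! # The rows of a connected set of cells whose rows and columns are intervals -/

namespace Pool.Agent.H5.FM

open Pool.Agent.H75.Perc (dir dir_cases)
open Pool.Agent.Q1.M4 (Cell Good Adj4 Conn4)

/-- The row form: rows `y0 ≤ j < y1`, row `j` is `a j ≤ i < b j`. -/
structure RowF (Q : Finset Cell) (y0 y1 : ℤ) (a b : ℤ → ℤ) (yP yQ : ℤ) : Prop where
  y01 : y0 < y1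
  mem : ∀ i j, (i, j) ∈ Q ↔ (y0 ≤ j ∧ j < y1) ∧ a j ≤ i ∧ i < b j
  ab : ∀ j, y0 ≤ j → j < y1 → a j < b j
  ov1 : ∀ j, y0 ≤ j → j + 1 < y1 → a j < b (j + 1)
  ov2 : ∀ j, y0 ≤ j → j + 1 < y1 → a (j + 1) < b j
  P0 : y0 < yP
  P1 : yP ≤ y1
  Q0 : y0 ≤ yQ
  Q1 : yQ < y1
  aL : ∀ j, y0 ≤ j → j + 1 < yP → a (j + 1) ≤ a j
  aP : yP < y1 → a (yP - 1) < a yP
  aU : ∀ j, yP ≤ j → j + 1 < y1 → a j ≤ a (j + 1)
  bL : ∀ j, y0 ≤ j → j + 1 ≤ yQ → b j ≤ b (j + 1)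
  bQ : y0 < yQ → b (yQ - 1) < b yQ
  bU : ∀ j, yQ ≤ j → j + 1 < y1 → b (j + 1) ≤ b j

section

variable {Q : Finset Cell}

/-- a path from a low row to a high row crosses between the rows -/
lemma cross_row {j : ℤ} {c d : Cell} (hc : c.2 ≤ j) (hd : j < d.2)
    (hcQ : c ∈ Q) (h : Relation.ReflTransGen (fun a b => Adj4 a b ∧ b ∈ (Q : Set Cell)) c d) :
    ∃ i, (i, j) ∈ Q ∧ (i, j + 1) ∈ Q := by
  have key : ∀ d, Relation.ReflTransGen (fun a b => Adj4 a b ∧ b ∈ (Q : Set Cell)) c d →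
      d ∈ Q ∧ (j < d.2 → ∃ i, (i, j) ∈ Q ∧ (i, j + 1) ∈ Q) := by
    intro d hd
    induction hd with
    | refl => exact ⟨hcQ, fun h1 => by omega⟩
    | @tail u v huv h2 ih =>
      obtain ⟨⟨k, rfl⟩, hv⟩ := h2
      refine ⟨hv, fun h3 => ?_⟩
      rcases lt_or_ge j u.2 with g | g
      · exact ih.2 g
      · obtain ⟨u1, u2⟩ := u
        rcases dir_cases k with ⟨h, e⟩ | ⟨h, e⟩ | ⟨h, e⟩ | ⟨h, e⟩
        · rw [e] at h3; simp at h3 g; omega
        · rw [e] at h3 hv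
          simp at h3 g hv
          obtain rfl : u2 = j := by omega
          exact ⟨u1, ih.1, hv⟩
        · rw [e] at h3; simp at h3 g; omega
        · rw [e] at h3; simp at h3 g; omega
  exact (key d h).2 hd

/-- last element of a finite interval with a property -/
lemma exists_last' {p : ℤ → Prop} {l u : ℤ} (hl : p l) (hlu : l ≤ u) :
    ∃ m, (l ≤ m ∧ m ≤ u) ∧ p m ∧ ∀ k, m < k → k ≤ u → ¬ p k := by
  classical
  obtain ⟨m, hm⟩ := ((Finset.Icc l u).filter p).exists_maximal ⟨l, by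
    rw [Finset.mem_filter, Finset.mem_Icc]; exact ⟨⟨le_rfl, hlu⟩, hl⟩⟩
  have hm1 : m ∈ (Finset.Icc l u).filter p := hm.1
  rw [Finset.mem_filter, Finset.mem_Icc] at hm1
  refine ⟨m, hm1.1, hm1.2, fun k k1 k2 hk => ?_⟩
  have hk' : k ∈ (Finset.Icc l u).filter p := by
    rw [Finset.mem_filter, Finset.mem_Icc]
    exact ⟨⟨by omega, k2⟩, hk⟩
  have : k ≤ m := hm.2 hk' k1.le
  omega

/-- first element of a finite interval with a property -/
lemma exists_first' {p : ℤ → Prop} {l u : ℤ} (hu : p u) (hlu : l ≤ u) :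
    ∃ m, (l ≤ m ∧ m ≤ u) ∧ p m ∧ ∀ k, l ≤ k → k < m → ¬ p k := by
  obtain ⟨m, ⟨m1, m2⟩, m3, m4⟩ := exists_last' (p := fun k => p (-k)) (l := -u) (u := -l)
    (by rw [neg_neg]; exact hu) (by omega)
  refine ⟨-m, ⟨by omega, by omega⟩, m3, fun k k1 k2 hk => m4 (-k) (by omega) (by omega) ?_⟩
  rw [neg_neg]; exact hk

/-- after a step to the right the left ends do not go back -/
lemma left_up (hQ : HVC Q) {y0 y1 : ℤ} {a b : ℤ → ℤ}
    (mem : ∀ i j, (i, j) ∈ Q ↔ (y0 ≤ j ∧ j < y1) ∧ a j ≤ i ∧ i < b j)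
    (ov1 : ∀ j, y0 ≤ j → j + 1 < y1 → a j < b (j + 1))
    (ov2 : ∀ j, y0 ≤ j → j + 1 < y1 → a (j + 1) < b j) {j k : ℤ} (h1 : y0 ≤ j) (h2 : j < k)
    (h3 : k + 1 < y1) (h4 : a j < a (j + 1)) : a k ≤ a (k + 1) := by
  by_contra hcon
  rw [not_le] at hcon
  -- first decrease
  obtain ⟨k0, ⟨k1, k2⟩, k3, k4⟩ := exists_first' (p := fun k => a (k + 1) < a k) (l := j + 1)
    (u := k) hcon (by omega)
  have hmono : ∀ n, j + 1 ≤ n → n ≤ k0 → a (j + 1) ≤ a n := by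
    intro n hn
    induction n, hn using Int.leInduction with
    | base => exact fun _ => le_rfl
    | succ n hn ih =>
      intro hh
      have := k4 n hn (by omega)
      have := ih (by omega)
      omega
  have hj := hmono k0 k1 le_rfl
  obtain ⟨l, ⟨l1, l2⟩, l3, l4⟩ := exists_last' (p := fun n => a n < a k0) (l := j) (u := k0 - 1)
    (show a j < a k0 by omega) (by omega)
  have l5 : a k0 ≤ a (l + 1) := by
    rcases eq_or_lt_of_le l2 with g | g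
    · rw [g, sub_add_cancel]
    · exact not_lt.1 (l4 (l + 1) (by omega) (by omega))
  have o1 := ov2 l (by omega) (by omega)
  have o2 := ov1 k0 (by omega) (by omega)
  have m1 : (a k0 - 1, l) ∈ Q := (mem _ _).2 ⟨⟨by omega, by omega⟩, by omega, by omega⟩
  have m2 : (a k0 - 1, k0 + 1) ∈ Q := (mem _ _).2 ⟨⟨by omega, by omega⟩, by omega, by omega⟩
  have m3 := (mem _ _).1 (hQ.col _ _ _ k0 m1 m2 (by omega) (by omega))
  omega

/-- before a step to the left... mirrored: after a step to the left the right ends do not go back -/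
lemma right_down (hQ : HVC Q) {y0 y1 : ℤ} {a b : ℤ → ℤ}
    (mem : ∀ i j, (i, j) ∈ Q ↔ (y0 ≤ j ∧ j < y1) ∧ a j ≤ i ∧ i < b j)
    (ov1 : ∀ j, y0 ≤ j → j + 1 < y1 → a j < b (j + 1))
    (ov2 : ∀ j, y0 ≤ j → j + 1 < y1 → a (j + 1) < b j) {j k : ℤ} (h1 : y0 ≤ j) (h2 : j < k)
    (h3 : k + 1 < y1) (h4 : b (j + 1) < b j) : b (k + 1) ≤ b k := by
  by_contra hcon
  rw [not_le] at hcon
  obtain ⟨k0, ⟨k1, k2⟩, k3, k4⟩ := exists_first' (p := fun k => b k < b (k + 1)) (l := j + 1)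
    (u := k) hcon (by omega)
  have hmono : ∀ n, j + 1 ≤ n → n ≤ k0 → b n ≤ b (j + 1) := by
    intro n hn
    induction n, hn using Int.leInduction with
    | base => exact fun _ => le_rfl
    | succ n hn ih =>
      intro hh
      have := k4 n hn (by omega)
      have := ih (by omega)
      omega
  have hj := hmono k0 k1 le_rfl
  obtain ⟨l, ⟨l1, l2⟩, l3, l4⟩ := exists_last' (p := fun n => b k0 < b n) (l := j) (u := k0 - 1)
    (show b k0 < b j by omega) (by omega)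
  have l5 : b (l + 1) ≤ b k0 := by
    rcases eq_or_lt_of_le l2 with g | g
    · rw [g, sub_add_cancel]
    · exact not_lt.1 (l4 (l + 1) (by omega) (by omega))
  have o1 := ov1 l (by omega) (by omega)
  have o2 := ov2 k0 (by omega) (by omega)
  have m1 : (b k0, l) ∈ Q := (mem _ _).2 ⟨⟨by omega, by omega⟩, by omega, by omega⟩
  have m2 : (b k0, k0 + 1) ∈ Q := (mem _ _).2 ⟨⟨by omega, by omega⟩, by omega, by omega⟩
  have m3 := (mem _ _).1 (hQ.col _ _ _ k0 m1 m2 (by omega) (by omega))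
  omega

/-- **The row form.** -/
theorem exists_rowF (hG : Good Q) (hQ : HVC Q) :
    ∃ (y0 y1 : ℤ) (a b : ℤ → ℤ) (yP yQ : ℤ), RowF Q y0 y1 a b yP yQ := by
  classical
  -- the rows
  obtain ⟨c0, hc0⟩ := hG.ne
  obtain ⟨c1, hc1, hmin⟩ := Q.exists_min_image (fun c => c.2) hG.ne
  obtain ⟨c2, hc2, hmax⟩ := Q.exists_max_image (fun c => c.2) hG.ne
  have hrow : ∀ j, c1.2 ≤ j → j ≤ c2.2 → ∃ i, (i, j) ∈ Q := by
    intro j h1 h2
    rcases eq_or_lt_of_le h2 with g | g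
    · exact ⟨c2.1, by rw [g]; exact hc2⟩
    · obtain ⟨i, hi, -⟩ := cross_row h1 g hc1 (hG.conn c1 hc1 c2 hc2)
      exact ⟨i, hi⟩
  -- the ends of the rows
  have hends : ∀ j, ∃ p : ℤ × ℤ, (c1.2 ≤ j → j ≤ c2.2 → ((p.1, j) ∈ Q ∧ (p.2 - 1, j) ∈ Q ∧
      ∀ i, (i, j) ∈ Q → p.1 ≤ i ∧ i < p.2)) := by
    intro j
    by_cases hj : c1.2 ≤ j ∧ j ≤ c2.2
    · obtain ⟨i, hi⟩ := hrow j hj.1 hj.2
      have hne : (Q.filter (fun c => c.2 = j)).Nonempty := ⟨(i, j), by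
        rw [Finset.mem_filter]; exact ⟨hi, rfl⟩⟩
      obtain ⟨u, hu, hu'⟩ := Finset.exists_min_image _ (fun c : Cell => c.1) hne
      obtain ⟨v, hv, hv'⟩ := Finset.exists_max_image _ (fun c : Cell => c.1) hne
      rw [Finset.mem_filter] at hu hv
      refine ⟨(u.1, v.1 + 1), fun _ _ => ⟨?_, ?_, ?_⟩⟩
      · rw [← hu.2]; exact hu.1
      · rw [add_sub_cancel_right, ← hv.2]; exact hv.1
      · intro i' hi'
        have e1 := hu' (i', j) (by rw [Finset.mem_filter]; exact ⟨hi', rfl⟩)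
        have e2 := hv' (i', j) (by rw [Finset.mem_filter]; exact ⟨hi', rfl⟩)
        simp only at e1 e2 ⊢
        omega
    · exact ⟨(0, 0), fun h1 h2 => absurd ⟨h1, h2⟩ hj⟩
  choose p hp using hends
  obtain ⟨a, ha⟩ : ∃ a : ℤ → ℤ, a = fun j => (p j).1 := ⟨_, rfl⟩
  obtain ⟨b, hb⟩ : ∃ b : ℤ → ℤ, b = fun j => (p j).2 := ⟨_, rfl⟩
  have hends : ∀ j, c1.2 ≤ j → j ≤ c2.2 → (a j, j) ∈ Q ∧ (b j - 1, j) ∈ Q ∧
      ∀ i, (i, j) ∈ Q → a j ≤ i ∧ i < b j := by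
    intro j h1 h2
    rw [ha, hb]
    exact hp j h1 h2
  obtain ⟨y0, hy0⟩ : ∃ y0, y0 = c1.2 := ⟨_, rfl⟩
  obtain ⟨y1, hy1⟩ : ∃ y1, y1 = c2.2 + 1 := ⟨_, rfl⟩
  have h12 := hmax c1 hc1
  have mem : ∀ i j, (i, j) ∈ Q ↔ (y0 ≤ j ∧ j < y1) ∧ a j ≤ i ∧ i < b j := by
    intro i j
    constructor
    · intro h
      have e1 := hmin _ h
      have e2 := hmax _ h
      simp only at e1 e2
      exact ⟨⟨by omega, by omega⟩, (hends j (by omega) (by omega)).2.2 i h⟩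
    · rintro ⟨⟨g1, g2⟩, g3, g4⟩
      obtain ⟨e1, e2, -⟩ := hends j (by omega) (by omega)
      exact hQ.row _ _ i j e1 e2 g3 (by omega)
  have ab : ∀ j, y0 ≤ j → j < y1 → a j < b j := by
    intro j h1 h2
    obtain ⟨e1, -, e3⟩ := hends j (by omega) (by omega)
    exact (e3 _ e1).2
  have hov : ∀ j, y0 ≤ j → j + 1 < y1 → a j < b (j + 1) ∧ a (j + 1) < b j := by
    intro j h1 h2
    obtain ⟨i, i1, i2⟩ := cross_row (show c1.2 ≤ j by omega) (show j < c2.2 by omega) hc1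
      (hG.conn c1 hc1 c2 hc2)
    rw [mem] at i1 i2
    omega
  have ov1 : ∀ j, y0 ≤ j → j + 1 < y1 → a j < b (j + 1) := fun j h1 h2 => (hov j h1 h2).1
  have ov2 : ∀ j, y0 ≤ j → j + 1 < y1 → a (j + 1) < b j := fun j h1 h2 => (hov j h1 h2).2
  -- the top corner of the leftmost side
  have hP : ∃ yP, (y0 < yP ∧ yP ≤ y1) ∧ (∀ j, y0 ≤ j → j + 1 < yP → a (j + 1) ≤ a j) ∧
      (yP < y1 → a (yP - 1) < a yP) ∧ ∀ j, yP ≤ j → j + 1 < y1 → a j ≤ a (j + 1) := by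
    by_cases hex : ∃ j, y0 ≤ j ∧ j + 1 < y1 ∧ a j < a (j + 1)
    · obtain ⟨j, j1, j2, j3⟩ := hex
      obtain ⟨m, ⟨m1, m2⟩, m3, m4⟩ := exists_first' (p := fun j => a j < a (j + 1)) (l := y0)
        (u := j) j3 j1
      refine ⟨m + 1, ⟨by omega, by omega⟩, fun k k1 k2 => not_lt.1 (m4 k k1 (by omega)), fun _ => ?_,
        fun k k1 k2 => left_up hQ mem ov1 ov2 (j := m) m1 (by omega) k2 m3⟩
      rw [add_sub_cancel_right]
      exact m3
    · push Not at hex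
      exact ⟨y1, ⟨by omega, le_rfl⟩, fun j j1 j2 => hex j j1 j2, fun h => absurd h (lt_irrefl _),
        fun j j1 j2 => by omega⟩
  -- the bottom corner of the rightmost side
  have hQ' : ∃ yQ, (y0 ≤ yQ ∧ yQ < y1) ∧ (∀ j, y0 ≤ j → j + 1 ≤ yQ → b j ≤ b (j + 1)) ∧
      (y0 < yQ → b (yQ - 1) < b yQ) ∧ ∀ j, yQ ≤ j → j + 1 < y1 → b (j + 1) ≤ b j := by
    by_cases hex : ∃ j, y0 ≤ j ∧ j + 1 < y1 ∧ b j < b (j + 1)
    · obtain ⟨j, j1, j2, j3⟩ := hex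
      obtain ⟨m, ⟨m1, m2⟩, m3, m4⟩ := exists_last' (p := fun j => b j < b (j + 1)) (l := j)
        (u := y1 - 2) j3 (by omega)
      refine ⟨m + 1, ⟨by omega, by omega⟩, fun k k1 k2 => ?_, fun _ => ?_, fun k k1 k2 =>
        not_lt.1 (m4 k (by omega) (by omega))⟩
      · rcases eq_or_lt_of_le (show k ≤ m by omega) with g | g
        · rw [g]; exact m3.le
        · by_contra hcon
          have := right_down hQ mem ov1 ov2 (j := k) (k := m) k1 g (by omega) (not_le.1 hcon)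
          omega
      · rw [add_sub_cancel_right]
        exact m3
    · push Not at hex
      exact ⟨y0, ⟨le_rfl, by omega⟩, fun j j1 j2 => by omega, fun h => absurd h (lt_irrefl _),
        fun j j1 j2 => hex j j1 j2⟩
  obtain ⟨yP, ⟨P0, P1⟩, aL, aP, aU⟩ := hP
  obtain ⟨yQ, ⟨Q0, Q1⟩, bL, bQ, bU⟩ := hQ'
  exact ⟨y0, y1, a, b, yP, yQ, by omega, mem, ab, ov1, ov2, P0, P1, Q0, Q1, aL, aP, aU, bL, bQ, bU⟩

end

end Pool.Agent.H5.FM
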