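import Mathlib
import Pool.Agent.H5.FM.Row
import Pool.Agent.H21.FM.Defs

set_option autoImplicit false
open Finset

/-! # The arcs of a shape on the rows

`ix S s` : index of the side `s` (directions modulo `4`), `arc S i` : number `0, 1, 2, 3` of the arc of the
side `i` (wired: `1, 3`). A side which is not followed by a convex corner has the arc of the next side. -/

namespace Pool.Agent.H5.FM

open Pool.Agent.H75.Perc (dir dir_cases)
open Pool.Agent.Q1.M4 (Cell Good IsSide nextSide isSide_next PType Adj4 Conn4)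
open Pool.Agent.H21.FM (Shape)

/-! ### Steps of the walk -/

section

variable {Q : Finset Cell} {k X Y : ℤ}

lemma dir0 (h : k % 4 = 0) : dir k = (1, 0) ∧ dir (k - 1) = (0, -1) := by
  unfold dir
  rw [if_pos h, if_neg (by omega), if_neg (by omega), if_neg (by omega)]
  exact ⟨rfl, rfl⟩

lemma dir1 (h : k % 4 = 1) : dir k = (0, 1) ∧ dir (k - 1) = (1, 0) := by
  unfold dir
  rw [if_neg (by omega), if_pos h, if_pos (by omega)]
  exact ⟨rfl, rfl⟩

lemma dir2 (h : k % 4 = 2) : dir k = (-1, 0) ∧ dir (k - 1) = (0, 1) := by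
  unfold dir
  rw [if_neg (by omega), if_neg (by omega), if_pos h, if_neg (by omega), if_pos (by omega)]
  exact ⟨rfl, rfl⟩

lemma dir3 (h : k % 4 = 3) : dir k = (0, -1) ∧ dir (k - 1) = (-1, 0) := by
  unfold dir
  rw [if_neg (by omega), if_neg (by omega), if_neg (by omega), if_neg (by omega), if_neg (by omega),
    if_pos (by omega)]
  exact ⟨rfl, rfl⟩

lemma next0 (h : k % 4 = 0) : nextSide Q ((X, Y), k) =
    if (X + 1, Y - 1) ∈ Q then ((X + 1, Y - 1), k - 1) else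
      if (X + 1, Y) ∈ Q then ((X + 1, Y), k) else ((X, Y), k + 1) := by
  unfold nextSide
  simp only
  rw [(dir0 h).1, (dir0 h).2, show ((X, Y) + (1, 0) + (0, -1) : ℤ × ℤ) = (X + 1, Y - 1) by
    ext <;> simp; ring, show ((X, Y) + (1, 0) : ℤ × ℤ) = (X + 1, Y) by ext <;> simp]

lemma next1 (h : k % 4 = 1) : nextSide Q ((X, Y), k) =
    if (X + 1, Y + 1) ∈ Q then ((X + 1, Y + 1), k - 1) else
      if (X, Y + 1) ∈ Q then ((X, Y + 1), k) else ((X, Y), k + 1) := by
  unfold nextSide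
  simp only
  rw [(dir1 h).1, (dir1 h).2, show ((X, Y) + (0, 1) + (1, 0) : ℤ × ℤ) = (X + 1, Y + 1) by
    ext <;> simp, show ((X, Y) + (0, 1) : ℤ × ℤ) = (X, Y + 1) by ext <;> simp]

lemma next2 (h : k % 4 = 2) : nextSide Q ((X, Y), k) =
    if (X - 1, Y + 1) ∈ Q then ((X - 1, Y + 1), k - 1) else
      if (X - 1, Y) ∈ Q then ((X - 1, Y), k) else ((X, Y), k + 1) := by
  unfold nextSide
  simp only
  rw [(dir2 h).1, (dir2 h).2, show ((X, Y) + (-1, 0) + (0, 1) : ℤ × ℤ) = (X - 1, Y + 1) by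
    ext <;> simp <;> ring, show ((X, Y) + (-1, 0) : ℤ × ℤ) = (X - 1, Y) by ext <;> simp <;> ring]

lemma next3 (h : k % 4 = 3) : nextSide Q ((X, Y), k) =
    if (X - 1, Y - 1) ∈ Q then ((X - 1, Y - 1), k - 1) else
      if (X, Y - 1) ∈ Q then ((X, Y - 1), k) else ((X, Y), k + 1) := by
  unfold nextSide
  simp only
  rw [(dir3 h).1, (dir3 h).2, show ((X, Y) + (0, -1) + (-1, 0) : ℤ × ℤ) = (X - 1, Y - 1) by
    ext <;> simp <;> ring, show ((X, Y) + (0, -1) : ℤ × ℤ) = (X, Y - 1) by ext <;> simp <;> ring]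

lemma next_shift {d : ℤ} (hd : d % 4 = 0) (s : Cell × ℤ) :
    nextSide Q (s.1, s.2 + d) = ((nextSide Q s).1, (nextSide Q s).2 + d) := by
  obtain ⟨⟨X, Y⟩, k⟩ := s
  simp only
  rcases dir_cases k with ⟨h, -⟩ | ⟨h, -⟩ | ⟨h, -⟩ | ⟨h, -⟩
  · rw [next0 h, next0 (by omega)]; split_ifs <;> ext <;> simp <;> ring
  · rw [next1 h, next1 (by omega)]; split_ifs <;> ext <;> simp <;> ring
  · rw [next2 h, next2 (by omega)]; split_ifs <;> ext <;> simp <;> ring
  · rw [next3 h, next3 (by omega)]; split_ifs <;> ext <;> simp <;> ring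

lemma iter_shift {d : ℤ} (hd : d % 4 = 0) (n : ℕ) (s : Cell × ℤ) :
    (nextSide Q)^[n] (s.1, s.2 + d) = (((nextSide Q)^[n] s).1, ((nextSide Q)^[n] s).2 + d) := by
  induction n generalizing s with
  | zero => rfl
  | succ n ih =>
    rw [Function.iterate_succ_apply, Function.iterate_succ_apply, next_shift hd]
    exact ih _

lemma isSide_congr {c : Cell} {k k' : ℤ} (h : (k - k') % 4 = 0) :
    IsSide Q (c, k) ↔ IsSide Q (c, k') := by
  unfold IsSide
  simp only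
  have : dir (k - 1) = dir (k' - 1) := by
    unfold dir
    have : (k - 1) % 4 = (k' - 1) % 4 := by omega
    rw [this]
  rw [this]

lemma isSide0 (h : k % 4 = 0) : IsSide Q ((X, Y), k) ↔ (X, Y) ∈ Q ∧ (X, Y - 1) ∉ Q := by
  unfold IsSide
  simp only
  rw [(dir0 h).2, show ((X, Y) + (0, -1) : ℤ × ℤ) = (X, Y - 1) by ext <;> simp <;> ring]

lemma isSide1 (h : k % 4 = 1) : IsSide Q ((X, Y), k) ↔ (X, Y) ∈ Q ∧ (X + 1, Y) ∉ Q := by
  unfold IsSide
  simp only
  rw [(dir1 h).2, show ((X, Y) + (1, 0) : ℤ × ℤ) = (X + 1, Y) by ext <;> simp]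

lemma isSide2 (h : k % 4 = 2) : IsSide Q ((X, Y), k) ↔ (X, Y) ∈ Q ∧ (X, Y + 1) ∉ Q := by
  unfold IsSide
  simp only
  rw [(dir2 h).2, show ((X, Y) + (0, 1) : ℤ × ℤ) = (X, Y + 1) by ext <;> simp]

lemma isSide3 (h : k % 4 = 3) : IsSide Q ((X, Y), k) ↔ (X, Y) ∈ Q ∧ (X - 1, Y) ∉ Q := by
  unfold IsSide
  simp only
  rw [(dir3 h).2, show ((X, Y) + (-1, 0) : ℤ × ℤ) = (X - 1, Y) by ext <;> simp <;> ring]

end

/-! ### Indices and arcs -/

section

variable (S : Shape)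

open Classical in
/-- index of a side -/
noncomputable def ix (s : Cell × ℤ) : ℕ := if h : IsSide S.P.Q s then (S.P.all s h).choose else 0

/-- number of the arc of the side `i` -/
def arc (i : ℕ) : ℕ := if i < S.m2 then 0 else if i < S.m3 then 1 else if i < S.P.m then 2 else 3

variable {S}

lemma ix_spec {s : Cell × ℤ} (h : IsSide S.P.Q s) :
    ix S s < S.N ∧ (S.P.side (ix S s)).1 = s.1 ∧ ((S.P.side (ix S s)).2 - s.2) % 4 = 0 := by
  unfold ix
  rw [dif_pos h]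
  exact (S.P.all s h).choose_spec

lemma ix_uniq {s : Cell × ℤ} (h : IsSide S.P.Q s) {i : ℕ} (hi : i < S.N) (h1 : (S.P.side i).1 = s.1)
    (h2 : ((S.P.side i).2 - s.2) % 4 = 0) : ix S s = i := by
  obtain ⟨g0, g1, g2⟩ := ix_spec h
  exact S.P.inj _ g0 _ hi (g1.trans h1.symm)
    (show ((S.P.side (ix S s)).2 - (S.P.side i).2) % 4 = 0 by omega)

lemma isSide_side (i : ℕ) : IsSide S.P.Q (S.P.side i) := by
  induction i with
  | zero => exact S.P.side0
  | succ i ih =>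
    have : S.P.side (i + 1) = nextSide S.P.Q (S.P.side i) := by
      unfold PType.side; rw [Function.iterate_succ_apply']
    rw [this]
    exact isSide_next ih

lemma ix_side {i : ℕ} (hi : i < S.N) : ix S (S.P.side i) = i :=
  ix_uniq (isSide_side i) hi rfl (by simp)

lemma ix_congr {c : Cell} {k k' : ℤ} (h : (k - k') % 4 = 0) : ix S (c, k) = ix S (c, k') := by
  by_cases hs : IsSide S.P.Q (c, k)
  · obtain ⟨g0, g1, g2⟩ := ix_spec ((isSide_congr h).1 hs)
    simp only at g1 g2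
    exact ix_uniq hs g0 g1 (by simp only; omega)
  · unfold ix
    rw [dif_neg hs, dif_neg (by rwa [← isSide_congr h])]

lemma side_succ'' (i : ℕ) : S.P.side (i + 1) = nextSide S.P.Q (S.P.side i) := by
  unfold PType.side; rw [Function.iterate_succ_apply']

lemma side_per (i : ℕ) : S.P.side (i + S.N) = ((S.P.side i).1, (S.P.side i).2 + 4) := by
  unfold PType.side
  rw [Function.iterate_add_apply, S.P.period]
  exact iter_shift (by norm_num) i S.P.s0

lemma m34 : S.m3 < S.P.m := S.h34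
lemma m4N : S.P.m < S.N := S.P.hmN

lemma wd_arc {i : ℕ} (hi : i < S.N) : S.Wd i ↔ arc S i % 2 = 1 := by
  have h1 := S.h02
  have h2 := S.h23
  have h3 := S.h34
  have h4 : S.m4 = S.P.m := rfl
  constructor
  · intro h
    unfold Shape.Wd at h
    unfold arc
    split_ifs <;> omega
  · intro h
    unfold arc at h
    unfold Shape.Wd
    split_ifs at h <;> omega

/-- **One step**: the arc is kept if there is no convex corner. -/
lemma arc_next {i : ℕ} (hi : i < S.N) (h : S.P.side (i + 1) ≠ ((S.P.side i).1, (S.P.side i).2 + 1)) :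
    i + 1 < S.N ∧ arc S (i + 1) = arc S i := by
  have h1 : ¬ (i + 1 = S.m2 ∨ i + 1 = S.m3 ∨ i + 1 = S.P.m ∨ i + 1 = S.P.N) := fun h1 => h (S.cvx i h1)
  have h2 : S.N = S.P.N := rfl
  refine ⟨by omega, ?_⟩
  unfold arc
  split_ifs <;> omega

lemma arc_step {s : Cell × ℤ} (hs : IsSide S.P.Q s) (h : nextSide S.P.Q s ≠ (s.1, s.2 + 1)) :
    arc S (ix S (nextSide S.P.Q s)) = arc S (ix S s) := by
  obtain ⟨g0, g1, g2⟩ := ix_spec hs
  set i := ix S s with hi
  have e : S.P.side i = (s.1, s.2 + ((S.P.side i).2 - s.2)) := by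
    refine Prod.ext g1 ?_
    simp
  have e2 : S.P.side (i + 1) = ((nextSide S.P.Q s).1, (nextSide S.P.Q s).2 + ((S.P.side i).2 - s.2)) := by
    rw [side_succ'']
    conv_lhs => rw [e]
    exact next_shift g2 s
  obtain ⟨h1, h2⟩ := arc_next g0 (by
    intro h3
    apply h
    rw [e2, g1, Prod.mk.injEq] at h3
    exact Prod.ext h3.1 (by simp only; omega))
  have e3 : ix S (nextSide S.P.Q s) = i + 1 := by
    refine ix_uniq (isSide_next hs) h1 ?_ ?_
    · rw [e2]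
    · rw [e2]; simp only; omega
  rw [e3, h2]

/-- number of the arc of a side -/
noncomputable def ar (S : Shape) (c : Cell) (k : ℤ) : ℕ := arc S (ix S (c, k))

variable {X Y : ℤ}

lemma ar_E (h1 : (X, Y) ∈ S.P.Q) (h2 : (X, Y - 1) ∉ S.P.Q) (h3 : (X + 1, Y) ∈ S.P.Q)
    (h4 : (X + 1, Y - 1) ∉ S.P.Q) : ar S (X + 1, Y) 0 = ar S (X, Y) 0 := by
  have hs : IsSide S.P.Q ((X, Y), 0) := (isSide0 (by norm_num)).2 ⟨h1, h2⟩
  have e : nextSide S.P.Q ((X, Y), 0) = ((X + 1, Y), 0) := by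
    rw [next0 (by norm_num), if_neg h4, if_pos h3]
  have := arc_step hs (by rw [e]; intro h; rw [Prod.mk.injEq] at h; omega)
  rw [e] at this
  exact this

lemma ar_ES (h1 : (X, Y) ∈ S.P.Q) (h2 : (X, Y - 1) ∉ S.P.Q) (h3 : (X + 1, Y - 1) ∈ S.P.Q) :
    ar S (X + 1, Y - 1) 3 = ar S (X, Y) 0 := by
  have hs : IsSide S.P.Q ((X, Y), 0) := (isSide0 (by norm_num)).2 ⟨h1, h2⟩
  have e : nextSide S.P.Q ((X, Y), 0) = ((X + 1, Y - 1), 0 - 1) := by
    rw [next0 (by norm_num), if_pos h3]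
  have := arc_step hs (by rw [e]; intro h; rw [Prod.mk.injEq] at h; omega)
  rw [e] at this
  unfold ar
  rw [← this, ix_congr (k := 3) (k' := 0 - 1) (by norm_num)]

lemma ar_N (h1 : (X, Y) ∈ S.P.Q) (h2 : (X + 1, Y) ∉ S.P.Q) (h3 : (X, Y + 1) ∈ S.P.Q)
    (h4 : (X + 1, Y + 1) ∉ S.P.Q) : ar S (X, Y + 1) 1 = ar S (X, Y) 1 := by
  have hs : IsSide S.P.Q ((X, Y), 1) := (isSide1 (by norm_num)).2 ⟨h1, h2⟩
  have e : nextSide S.P.Q ((X, Y), 1) = ((X, Y + 1), 1) := by
    rw [next1 (by norm_num), if_neg h4, if_pos h3]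
  have := arc_step hs (by rw [e]; intro h; rw [Prod.mk.injEq] at h; omega)
  rw [e] at this
  exact this

lemma ar_NE (h1 : (X, Y) ∈ S.P.Q) (h2 : (X + 1, Y) ∉ S.P.Q) (h3 : (X + 1, Y + 1) ∈ S.P.Q) :
    ar S (X + 1, Y + 1) 0 = ar S (X, Y) 1 := by
  have hs : IsSide S.P.Q ((X, Y), 1) := (isSide1 (by norm_num)).2 ⟨h1, h2⟩
  have e : nextSide S.P.Q ((X, Y), 1) = ((X + 1, Y + 1), 0) := by
    rw [next1 (by norm_num), if_pos h3]; norm_num
  have := arc_step hs (by rw [e]; intro h; rw [Prod.mk.injEq] at h; omega)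
  rw [e] at this
  exact this

lemma ar_W (h1 : (X, Y) ∈ S.P.Q) (h2 : (X, Y + 1) ∉ S.P.Q) (h3 : (X - 1, Y) ∈ S.P.Q)
    (h4 : (X - 1, Y + 1) ∉ S.P.Q) : ar S (X - 1, Y) 2 = ar S (X, Y) 2 := by
  have hs : IsSide S.P.Q ((X, Y), 2) := (isSide2 (by norm_num)).2 ⟨h1, h2⟩
  have e : nextSide S.P.Q ((X, Y), 2) = ((X - 1, Y), 2) := by
    rw [next2 (by norm_num), if_neg h4, if_pos h3]
  have := arc_step hs (by rw [e]; intro h; rw [Prod.mk.injEq] at h; omega)
  rw [e] at this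
  exact this

lemma ar_WN (h1 : (X, Y) ∈ S.P.Q) (h2 : (X, Y + 1) ∉ S.P.Q) (h3 : (X - 1, Y + 1) ∈ S.P.Q) :
    ar S (X - 1, Y + 1) 1 = ar S (X, Y) 2 := by
  have hs : IsSide S.P.Q ((X, Y), 2) := (isSide2 (by norm_num)).2 ⟨h1, h2⟩
  have e : nextSide S.P.Q ((X, Y), 2) = ((X - 1, Y + 1), 1) := by
    rw [next2 (by norm_num), if_pos h3]; norm_num
  have := arc_step hs (by rw [e]; intro h; rw [Prod.mk.injEq] at h; omega)
  rw [e] at this
  exact this

lemma ar_S (h1 : (X, Y) ∈ S.P.Q) (h2 : (X - 1, Y) ∉ S.P.Q) (h3 : (X, Y - 1) ∈ S.P.Q)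
    (h4 : (X - 1, Y - 1) ∉ S.P.Q) : ar S (X, Y - 1) 3 = ar S (X, Y) 3 := by
  have hs : IsSide S.P.Q ((X, Y), 3) := (isSide3 (by norm_num)).2 ⟨h1, h2⟩
  have e : nextSide S.P.Q ((X, Y), 3) = ((X, Y - 1), 3) := by
    rw [next3 (by norm_num), if_neg h4, if_pos h3]
  have := arc_step hs (by rw [e]; intro h; rw [Prod.mk.injEq] at h; omega)
  rw [e] at this
  exact this

lemma ar_SW (h1 : (X, Y) ∈ S.P.Q) (h2 : (X - 1, Y) ∉ S.P.Q) (h3 : (X - 1, Y - 1) ∈ S.P.Q) :
    ar S (X - 1, Y - 1) 2 = ar S (X, Y) 3 := by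
  have hs : IsSide S.P.Q ((X, Y), 3) := (isSide3 (by norm_num)).2 ⟨h1, h2⟩
  have e : nextSide S.P.Q ((X, Y), 3) = ((X - 1, Y - 1), 2) := by
    rw [next3 (by norm_num), if_pos h3]; norm_num
  have := arc_step hs (by rw [e]; intro h; rw [Prod.mk.injEq] at h; omega)
  rw [e] at this
  exact this

end

/-! ### The arcs on the rows -/

namespace RowF

variable {S : Shape} {y0 y1 : ℤ} {a b : ℤ → ℤ} {yP yQ : ℤ} (F : RowF S.P.Q y0 y1 a b yP yQ) {X Y : ℤ}

include F

lemma arc_bot_l (h0 : y0 ≤ Y - 1) (hXY : (X, Y) ∈ S.P.Q) (hX : X < a (Y - 1)) :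
    ar S (X, Y) 0 = ar S (a (Y - 1), Y - 1) 3 := by
  have h := (F.mem X Y).1 hXY
  obtain ⟨n, hn⟩ : ∃ n : ℕ, a (Y - 1) - X = n + 1 := ⟨(a (Y - 1) - X - 1).toNat, by omega⟩
  induction n generalizing X with
  | zero =>
    have e : a (Y - 1) = X + 1 := by push_cast at hn; omega
    rw [e]
    symm
    refine ar_ES hXY ?_ ?_
    · rw [F.mem]; omega
    · rw [F.mem]
      have := F.ab (Y - 1) h0 (by omega)
      omega
  | succ n ih =>
    push_cast at hn
    have h5 := F.ov1 (Y - 1) h0 (by omega)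
    rw [sub_add_cancel] at h5
    have h3 : (X + 1, Y) ∈ S.P.Q := by rw [F.mem]; omega
    rw [← ih h3 (by omega) ((F.mem _ _).1 h3) (by omega)]
    symm
    refine ar_E hXY ?_ h3 ?_
    · rw [F.mem]; omega
    · rw [F.mem]; omega

lemma arc_bot_r (h0 : y0 ≤ Y - 1) (hXY : (X, Y) ∈ S.P.Q) (hX : b (Y - 1) ≤ X) :
    ar S (X, Y) 0 = ar S (b (Y - 1) - 1, Y - 1) 1 := by
  have h := (F.mem X Y).1 hXY
  obtain ⟨n, hn⟩ : ∃ n : ℕ, X - b (Y - 1) = n := ⟨(X - b (Y - 1)).toNat, by omega⟩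
  induction n generalizing X with
  | zero =>
    have e : b (Y - 1) = X := by push_cast at hn; omega
    have := ar_NE (S := S) (X := b (Y - 1) - 1) (Y := Y - 1) (by
      rw [F.mem]
      have := F.ab (Y - 1) h0 (by omega)
      omega) (by rw [F.mem]; omega) (by rw [sub_add_cancel, sub_add_cancel, e]; exact hXY)
    rw [sub_add_cancel, sub_add_cancel] at this
    rw [← this, e]
  | succ n ih =>
    push_cast at hn
    have h5 := F.ov2 (Y - 1) h0 (by omega)
    rw [sub_add_cancel] at h5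
    have h3 : (X - 1, Y) ∈ S.P.Q := by rw [F.mem]; omega
    rw [← ih h3 (by omega) ((F.mem _ _).1 h3) (by omega)]
    have := ar_E (S := S) (X := X - 1) (Y := Y) h3 (by rw [F.mem]; omega)
      (by rw [sub_add_cancel]; exact hXY) (by rw [F.mem]; omega)
    rw [sub_add_cancel] at this
    exact this

lemma arc_bot_0 (hXY : (X, y0) ∈ S.P.Q) : ar S (X, y0) 0 = ar S (a y0, y0) 0 := by
  have h := (F.mem X y0).1 hXY
  obtain ⟨n, hn⟩ : ∃ n : ℕ, X - a y0 = n := ⟨(X - a y0).toNat, by omega⟩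
  induction n generalizing X with
  | zero =>
    have e : a y0 = X := by push_cast at hn; omega
    rw [e]
  | succ n ih =>
    push_cast at hn
    have h3 : (X - 1, y0) ∈ S.P.Q := by rw [F.mem]; omega
    rw [← ih h3 ((F.mem _ _).1 h3) (by omega)]
    have := ar_E (S := S) (X := X - 1) (Y := y0) h3 (by rw [F.mem]; omega)
      (by rw [sub_add_cancel]; exact hXY) (by rw [F.mem]; omega)
    rw [sub_add_cancel] at this
    exact this

lemma arc_top_l (h0 : Y + 1 < y1) (hXY : (X, Y) ∈ S.P.Q) (hX : X < a (Y + 1)) :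
    ar S (X, Y) 2 = ar S (a (Y + 1), Y + 1) 3 := by
  have h := (F.mem X Y).1 hXY
  obtain ⟨n, hn⟩ : ∃ n : ℕ, a (Y + 1) - X = n + 1 := ⟨(a (Y + 1) - X - 1).toNat, by omega⟩
  induction n generalizing X with
  | zero =>
    have e : a (Y + 1) - 1 = X := by push_cast at hn; omega
    have := ar_SW (S := S) (X := a (Y + 1)) (Y := Y + 1) (by
      rw [F.mem]
      have := F.ab (Y + 1) (by omega) h0
      omega) (by rw [F.mem]; omega) (by rw [add_sub_cancel_right, e]; exact hXY)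
    rw [add_sub_cancel_right, e] at this
    exact this
  | succ n ih =>
    push_cast at hn
    have h5 := F.ov2 Y (by omega) h0
    have h3 : (X + 1, Y) ∈ S.P.Q := by rw [F.mem]; omega
    rw [← ih h3 (by omega) ((F.mem _ _).1 h3) (by omega)]
    have := ar_W (S := S) (X := X + 1) (Y := Y) h3 (by rw [F.mem]; omega)
      (by rw [add_sub_cancel_right]; exact hXY) (by rw [F.mem]; omega)
    rw [add_sub_cancel_right] at this
    exact this

lemma arc_top_r (h0 : Y + 1 < y1) (hXY : (X, Y) ∈ S.P.Q) (hX : b (Y + 1) ≤ X) :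
    ar S (X, Y) 2 = ar S (b (Y + 1) - 1, Y + 1) 1 := by
  have h := (F.mem X Y).1 hXY
  obtain ⟨n, hn⟩ : ∃ n : ℕ, X - b (Y + 1) = n := ⟨(X - b (Y + 1)).toNat, by omega⟩
  induction n generalizing X with
  | zero =>
    have e : b (Y + 1) = X := by push_cast at hn; omega
    rw [e]
    symm
    refine ar_WN hXY ?_ ?_
    · rw [F.mem]; omega
    · rw [F.mem]
      have := F.ab (Y + 1) (by omega) h0
      omega
  | succ n ih =>
    push_cast at hn
    have h5 := F.ov1 Y (by omega) h0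
    have h3 : (X - 1, Y) ∈ S.P.Q := by rw [F.mem]; omega
    rw [← ih h3 (by omega) ((F.mem _ _).1 h3) (by omega)]
    symm
    refine ar_W hXY ?_ h3 ?_
    · rw [F.mem]; omega
    · rw [F.mem]; omega

lemma arc_top_0 (hXY : (X, y1 - 1) ∈ S.P.Q) : ar S (X, y1 - 1) 2 = ar S (b (y1 - 1) - 1, y1 - 1) 2 := by
  have h := (F.mem X (y1 - 1)).1 hXY
  obtain ⟨n, hn⟩ : ∃ n : ℕ, b (y1 - 1) - 1 - X = n := ⟨(b (y1 - 1) - 1 - X).toNat, by omega⟩
  induction n generalizing X with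
  | zero =>
    have e : b (y1 - 1) - 1 = X := by push_cast at hn; omega
    rw [e]
  | succ n ih =>
    push_cast at hn
    have h3 : (X + 1, y1 - 1) ∈ S.P.Q := by rw [F.mem]; omega
    rw [← ih h3 ((F.mem _ _).1 h3) (by omega)]
    have := ar_W (S := S) (X := X + 1) (Y := y1 - 1) h3 (by rw [F.mem]; omega)
      (by rw [add_sub_cancel_right]; exact hXY) (by rw [F.mem]; omega)
    rw [add_sub_cancel_right] at this
    exact this

lemma arc_left (h0 : y0 ≤ Y) (h1 : Y + 1 < y1) (h : a Y = a (Y + 1)) :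
    ar S (a Y, Y) 3 = ar S (a (Y + 1), Y + 1) 3 := by
  have g0 := F.ab Y h0 (by omega)
  have g1 := F.ab (Y + 1) (by omega) h1
  have := ar_S (S := S) (X := a (Y + 1)) (Y := Y + 1) (by rw [F.mem]; omega) (by rw [F.mem]; omega)
    (by rw [F.mem, add_sub_cancel_right]; omega) (by rw [F.mem, add_sub_cancel_right]; omega)
  rw [add_sub_cancel_right, ← h] at this
  rw [← h]
  exact this

lemma arc_right (h0 : y0 ≤ Y) (h1 : Y + 1 < y1) (h : b Y = b (Y + 1)) :
    ar S (b Y - 1, Y) 1 = ar S (b (Y + 1) - 1, Y + 1) 1 := by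
  have g0 := F.ab Y h0 (by omega)
  have g1 := F.ab (Y + 1) (by omega) h1
  have := ar_N (S := S) (X := b Y - 1) (Y := Y) (by rw [F.mem]; omega) (by rw [F.mem]; omega)
    (by rw [F.mem]; omega) (by rw [F.mem]; omega)
  rw [← h]
  exact this.symm

end RowF

end Pool.Agent.H5.FM
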