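import Mathlib
import Pool.Agent.H5.FM.Col

set_option autoImplicit false
open Finset

/-! # The ring of the rows

`rs P`, `P ≤ 2 H + 2`, `H = y1 - y0` : ring positions: `0` bottom, `1 .. H` right sides of the rows upwards,
`H + 1` top, `H + 2 .. 2 H + 1` left sides of the rows downwards. The boundary walk visits them in this
order. -/

namespace Pool.Agent.H5.FM

open Pool.Agent.Q1.M4 (Cell Good IsSide nextSide isSide_next PType Adj4 Conn4)
open Pool.Agent.H21.FM (Shape)

section

variable {Q : Finset Cell} {k X Y : ℤ}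

/-- a run to the east along bottom sides -/
lemma run_E (hk : k % 4 = 0) (n : ℕ) (h : ∀ l : ℤ, 0 ≤ l → l < n → (X + l + 1, Y) ∈ Q ∧ (X + l + 1, Y - 1) ∉ Q) :
    (nextSide Q)^[n] ((X, Y), k) = ((X + n, Y), k) := by
  induction n with
  | zero => simp
  | succ n ih =>
    rw [Function.iterate_succ_apply', ih (fun l h1 h2 => h l h1 (by push_cast; omega)), next0 hk]
    obtain ⟨h1, h2⟩ := h n (by omega) (by push_cast; omega)
    rw [if_neg h2, if_pos h1]
    push_cast
    rw [add_assoc]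

/-- a run to the west along top sides -/
lemma run_W (hk : k % 4 = 2) (n : ℕ) (h : ∀ l : ℤ, 0 ≤ l → l < n → (X - l - 1, Y) ∈ Q ∧ (X - l - 1, Y + 1) ∉ Q) :
    (nextSide Q)^[n] ((X, Y), k) = ((X - n, Y), k) := by
  induction n with
  | zero => simp
  | succ n ih =>
    rw [Function.iterate_succ_apply', ih (fun l h1 h2 => h l h1 (by push_cast; omega)), next2 hk]
    obtain ⟨h1, h2⟩ := h n (by omega) (by push_cast; omega)
    rw [if_neg h2, if_pos h1]
    push_cast
    rw [show X - (n : ℤ) - 1 = X - ((n : ℤ) + 1) by ring]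

end

/-- the side at a ring position (with lifted direction) -/
def rs (y0 y1 : ℤ) (a b : ℤ → ℤ) (P : ℕ) : Cell × ℤ :=
  if P = 0 then ((a y0, y0), 0)
  else if P ≤ (y1 - y0).toNat then ((b (y0 + P - 1) - 1, y0 + P - 1), 1)
  else if P = (y1 - y0).toNat + 1 then ((b (y1 - 1) - 1, y1 - 1), 2)
  else if P ≤ 2 * (y1 - y0).toNat + 1 then
    ((a (y0 + 2 * (y1 - y0).toNat + 1 - P), y0 + 2 * (y1 - y0).toNat + 1 - P), 3)
  else ((a y0, y0), 4)

namespace RowF

section walk

variable {Q : Finset Cell} {y0 y1 : ℤ} {a b : ℤ → ℤ} {yP yQ : ℤ} (F : RowF Q y0 y1 a b yP yQ) {X Y : ℤ}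

include F

/-- along the bottom -/
lemma walk_bot : ∃ n, 1 ≤ n ∧ (nextSide Q)^[n] ((a y0, y0), 0) = ((b y0 - 1, y0), 1) := by
  have h1 := F.y01
  have h2 := F.ab y0 le_rfl h1
  obtain ⟨n, hn⟩ : ∃ n : ℕ, b y0 - a y0 = n + 1 := ⟨(b y0 - a y0 - 1).toNat, by omega⟩
  refine ⟨n + 1, by omega, ?_⟩
  rw [Function.iterate_succ_apply', run_E (by norm_num) n, next0 (by norm_num), if_neg, if_neg]
  · rw [show a y0 + (n : ℤ) = b y0 - 1 by omega]; rfl
  · rw [F.mem]; omega
  · rw [F.mem]; omega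
  · intro l l1 l2
    rw [F.mem, F.mem]
    omega

/-- along the top -/
lemma walk_top : ∃ n, 1 ≤ n ∧
    (nextSide Q)^[n] ((b (y1 - 1) - 1, y1 - 1), 2) = ((a (y1 - 1), y1 - 1), 3) := by
  have h1 := F.y01
  have h2 := F.ab (y1 - 1) (by omega) (by omega)
  obtain ⟨n, hn⟩ : ∃ n : ℕ, b (y1 - 1) - a (y1 - 1) = n + 1 := ⟨(b (y1 - 1) - a (y1 - 1) - 1).toNat, by omega⟩
  refine ⟨n + 1, by omega, ?_⟩
  rw [Function.iterate_succ_apply', run_W (by norm_num) n, next2 (by norm_num), if_neg, if_neg]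
  · rw [show b (y1 - 1) - 1 - (n : ℤ) = a (y1 - 1) by omega]; rfl
  · rw [F.mem]; omega
  · rw [F.mem]; omega
  · intro l l1 l2
    rw [F.mem, F.mem]
    omega

/-- up along the right boundary -/
lemma walk_right (h0 : y0 ≤ Y) (h1 : Y + 1 < y1) : ∃ n, 1 ≤ n ∧
    (nextSide Q)^[n] ((b Y - 1, Y), 1) = ((b (Y + 1) - 1, Y + 1), 1) := by
  have g1 := F.ab Y h0 (by omega)
  have g2 := F.ab (Y + 1) (by omega) h1
  have g3 := F.ov1 Y h0 h1
  have g4 := F.ov2 Y h0 h1
  rcases lt_trichotomy (b Y) (b (Y + 1)) with h | h | h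
  · -- reflex corner, then east, then convex corner
    obtain ⟨n, hn⟩ : ∃ n : ℕ, b (Y + 1) - b Y = n + 1 := ⟨(b (Y + 1) - b Y - 1).toNat, by omega⟩
    refine ⟨n + 1 + 1, by omega, ?_⟩
    have e : nextSide Q ((b Y - 1, Y), 1) = ((b Y - 1 + 1, Y + 1), 0) := by
      rw [next1 (by norm_num), if_pos (by rw [F.mem]; omega)]; rfl
    rw [Function.iterate_succ_apply', Function.iterate_succ_apply, e, run_E (by norm_num) n,
      next0 (by norm_num), if_neg, if_neg]
    · rw [show b Y - 1 + 1 + (n : ℤ) = b (Y + 1) - 1 by omega]; rfl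
    · rw [F.mem]; omega
    · rw [F.mem, show Y + 1 - 1 = Y by ring]; omega
    · intro l l1 l2
      rw [F.mem, F.mem]
      rw [show Y + 1 - 1 = Y by ring]
      omega
  · refine ⟨1, le_rfl, ?_⟩
    rw [Function.iterate_one, next1 (by norm_num), if_neg (by rw [F.mem]; omega),
      if_pos (by rw [F.mem]; omega), h]
  · -- convex corner, then west, then reflex corner
    obtain ⟨n, hn⟩ : ∃ n : ℕ, b Y - b (Y + 1) = n + 1 := ⟨(b Y - b (Y + 1) - 1).toNat, by omega⟩
    refine ⟨n + 1 + 1, by omega, ?_⟩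
    have e : nextSide Q ((b Y - 1, Y), 1) = ((b Y - 1, Y), 2) := by
      rw [next1 (by norm_num), if_neg (by rw [F.mem]; omega), if_neg (by rw [F.mem]; omega)]; rfl
    rw [Function.iterate_succ_apply', Function.iterate_succ_apply, e, run_W (by norm_num) n,
      next2 (by norm_num), if_pos]
    · rw [show b Y - 1 - (n : ℤ) - 1 = b (Y + 1) - 1 by omega]; rfl
    · rw [F.mem]; omega
    · intro l l1 l2
      rw [F.mem, F.mem]
      omega

/-- down along the left boundary -/
lemma walk_left (h0 : y0 ≤ Y) (h1 : Y + 1 < y1) : ∃ n, 1 ≤ n ∧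
    (nextSide Q)^[n] ((a (Y + 1), Y + 1), 3) = ((a Y, Y), 3) := by
  have g1 := F.ab Y h0 (by omega)
  have g2 := F.ab (Y + 1) (by omega) h1
  have g3 := F.ov1 Y h0 h1
  have g4 := F.ov2 Y h0 h1
  rcases lt_trichotomy (a Y) (a (Y + 1)) with h | h | h
  · -- reflex corner, then west, then convex corner
    obtain ⟨n, hn⟩ : ∃ n : ℕ, a (Y + 1) - a Y = n + 1 := ⟨(a (Y + 1) - a Y - 1).toNat, by omega⟩
    refine ⟨n + 1 + 1, by omega, ?_⟩
    have e : nextSide Q ((a (Y + 1), Y + 1), 3) = ((a (Y + 1) - 1, Y), 2) := by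
      rw [next3 (by norm_num), show Y + 1 - 1 = Y by ring, if_pos (by rw [F.mem]; omega)]; rfl
    rw [Function.iterate_succ_apply', Function.iterate_succ_apply, e, run_W (by norm_num) n,
      next2 (by norm_num), if_neg, if_neg]
    · rw [show a (Y + 1) - 1 - (n : ℤ) = a Y by omega]; rfl
    · rw [F.mem]; omega
    · rw [F.mem]; omega
    · intro l l1 l2
      rw [F.mem, F.mem]
      omega
  · refine ⟨1, le_rfl, ?_⟩
    rw [Function.iterate_one, next3 (by norm_num), if_neg (by rw [F.mem, show Y + 1 - 1 = Y by ring]; omega),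
      if_pos (by rw [F.mem, show Y + 1 - 1 = Y by ring]; omega), ← h, show Y + 1 - 1 = Y by ring]
  · -- convex corner, then east, then reflex corner
    obtain ⟨n, hn⟩ : ∃ n : ℕ, a Y - a (Y + 1) = n + 1 := ⟨(a Y - a (Y + 1) - 1).toNat, by omega⟩
    refine ⟨n + 1 + 1, by omega, ?_⟩
    have e : nextSide Q ((a (Y + 1), Y + 1), 3) = ((a (Y + 1), Y + 1), 4) := by
      rw [next3 (by norm_num), if_neg (by rw [F.mem, show Y + 1 - 1 = Y by ring]; omega),
        if_neg (by rw [F.mem, show Y + 1 - 1 = Y by ring]; omega)]; rfl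
    rw [Function.iterate_succ_apply', Function.iterate_succ_apply, e, run_E (by norm_num) n,
      next0 (by norm_num), if_pos]
    · rw [show a (Y + 1) + (n : ℤ) + 1 = a Y by omega, show Y + 1 - 1 = Y by ring]; rfl
    · rw [F.mem, show Y + 1 - 1 = Y by ring]; omega
    · intro l l1 l2
      rw [F.mem, F.mem, show Y + 1 - 1 = Y by ring]
      omega

/-- one step of the ring -/
lemma ring_step {P : ℕ} (hP : P < 2 * (y1 - y0).toNat + 2) :
    ∃ n, 1 ≤ n ∧ (nextSide Q)^[n] (rs y0 y1 a b P) = rs y0 y1 a b (P + 1) := by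
  have h01 := F.y01
  have hH : ((y1 - y0).toNat : ℤ) = y1 - y0 := Int.toNat_of_nonneg (by omega)
  set H := (y1 - y0).toNat with hHd
  have hH1 : 1 ≤ H := by omega
  rcases Nat.eq_zero_or_pos P with h | h
  · subst h
    have e1 : rs y0 y1 a b 0 = ((a y0, y0), 0) := by unfold rs; rw [if_pos rfl]
    have e2 : rs y0 y1 a b (0 + 1) = ((b y0 - 1, y0), 1) := by
      unfold rs
      rw [if_neg (by omega), if_pos (by omega)]
      simp
    rw [e1, e2]
    exact F.walk_bot
  rcases lt_trichotomy P H with g | g | g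
  · have e1 : rs y0 y1 a b P = ((b (y0 + P - 1) - 1, y0 + P - 1), 1) := by
      unfold rs; rw [if_neg (by omega), if_pos (by omega)]
    have e2 : rs y0 y1 a b (P + 1) = ((b (y0 + P - 1 + 1) - 1, y0 + P - 1 + 1), 1) := by
      unfold rs; rw [if_neg (by omega), if_pos (by omega)]
      push_cast
      rw [show y0 + ((P : ℤ) + 1) - 1 = y0 + P - 1 + 1 by ring]
    rw [e1, e2]
    exact F.walk_right (by omega) (by omega)
  · have e1 : rs y0 y1 a b P = ((b (y1 - 1) - 1, y1 - 1), 1) := by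
      unfold rs; rw [if_neg (by omega), if_pos (by omega), show y0 + (P : ℤ) - 1 = y1 - 1 by omega]
    have e2 : rs y0 y1 a b (P + 1) = ((b (y1 - 1) - 1, y1 - 1), 2) := by
      unfold rs; rw [if_neg (by omega), if_neg (by omega), if_pos (by omega)]
    rw [e1, e2]
    refine ⟨1, le_rfl, ?_⟩
    rw [Function.iterate_one, next1 (by norm_num), if_neg (by rw [F.mem]; omega),
      if_neg (by rw [F.mem]; omega)]
    rfl
  rcases eq_or_lt_of_le (show H + 1 ≤ P by omega) with g1 | g1
  · have e1 : rs y0 y1 a b P = ((b (y1 - 1) - 1, y1 - 1), 2) := by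
      unfold rs; rw [if_neg (by omega), if_neg (by omega), if_pos (by omega)]
    have e2 : rs y0 y1 a b (P + 1) = ((a (y1 - 1), y1 - 1), 3) := by
      unfold rs; rw [if_neg (by omega), if_neg (by omega), if_neg (by omega), if_pos (by omega),
        show y0 + 2 * (((y1 - y0).toNat : ℕ) : ℤ) + 1 - ((P + 1 : ℕ) : ℤ) = y1 - 1 by push_cast; omega]
    rw [e1, e2]
    exact F.walk_top
  · have e1 : rs y0 y1 a b P = ((a (y0 + 2 * H + 1 - P), y0 + 2 * H + 1 - P), 3) := by
      unfold rs; rw [if_neg (by omega), if_neg (by omega), if_neg (by omega), if_pos (by omega)]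
    rcases eq_or_lt_of_le (show P ≤ 2 * H + 1 by omega) with g2 | g2
    · have e2 : rs y0 y1 a b (P + 1) = ((a y0, y0), 4) := by
        unfold rs; rw [if_neg (by omega), if_neg (by omega), if_neg (by omega), if_neg (by omega)]
      rw [e1, e2, show y0 + 2 * (H : ℤ) + 1 - P = y0 by omega]
      have := F.ab y0 le_rfl h01
      refine ⟨1, le_rfl, ?_⟩
      rw [Function.iterate_one, next3 (by norm_num), if_neg (by rw [F.mem]; omega),
        if_neg (by rw [F.mem]; omega)]
      rfl
    · have e2 : rs y0 y1 a b (P + 1) = ((a (y0 + 2 * H - P), y0 + 2 * H - P), 3) := by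
        unfold rs; rw [if_neg (by omega), if_neg (by omega), if_neg (by omega), if_pos (by omega),
          show y0 + 2 * (((y1 - y0).toNat : ℕ) : ℤ) + 1 - ((P + 1 : ℕ) : ℤ) = y0 + 2 * H - P by
            push_cast; omega]
      rw [e1, e2]
      have := F.walk_left (Y := y0 + 2 * H - P) (by omega) (by omega)
      rw [show y0 + 2 * (H : ℤ) - P + 1 = y0 + 2 * H + 1 - P by ring] at this
      exact this

lemma ring_side {P : ℕ} (hP : P ≤ 2 * (y1 - y0).toNat + 2) : IsSide Q (rs y0 y1 a b P) := by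
  induction P with
  | zero =>
    unfold rs
    rw [if_pos rfl]
    have := F.ab y0 le_rfl F.y01
    have := F.y01
    rw [isSide0 (by norm_num), F.mem, F.mem]
    omega
  | succ P ih =>
    obtain ⟨n, -, hn⟩ := F.ring_step (P := P) (by omega)
    rw [← hn]
    have h := ih (by omega)
    clear hn ih
    induction n with
    | zero => exact h
    | succ n ih => rw [Function.iterate_succ_apply']; exact isSide_next ih

end walk

end RowF

end Pool.Agent.H5.FM
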