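import Mathlib
import Pool.Agent.H5.FM.Ring

set_option autoImplicit false
open Finset

/-! # The arcs on the ring

`idx P` : index of the side at the ring position `P`. They are in the cyclic order of the boundary walk, every
side has the arc of a ring position. -/

namespace Pool.Agent.H5.FM

open Pool.Agent.Q1.M4 (Cell Good IsSide nextSide isSide_next PType Adj4 Conn4)
open Pool.Agent.H21.FM (Shape)

section

variable {S : Shape}

lemma side_mul (j q : ℕ) : S.P.side (j + S.N * q) = ((S.P.side j).1, (S.P.side j).2 + 4 * q) := by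
  induction q with
  | zero => simp
  | succ q ih =>
    rw [show j + S.N * (q + 1) = j + S.N * q + S.N by ring, side_per, ih]
    push_cast
    refine Prod.ext rfl ?_
    simp only
    ring

lemma side_mod (i : ℕ) :
    S.P.side i = ((S.P.side (i % S.N)).1, (S.P.side (i % S.N)).2 + 4 * (i / S.N : ℕ)) := by
  have h := side_mul (S := S) (i % S.N) (i / S.N)
  rw [Nat.mod_add_div] at h
  exact h

end

/-- index of the side at the ring position `P` -/
noncomputable def idx (S : Shape) (y0 y1 : ℤ) (a b : ℤ → ℤ) (P : ℕ) : ℕ := ix S (rs y0 y1 a b P)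

/-- ring position of the right side of the row `Y` -/
def pR (y0 Y : ℤ) : ℕ := (Y - y0 + 1).toNat

/-- ring position of the left side of the row `Y` -/
def pL (y0 y1 Y : ℤ) : ℕ := (2 * y1 - y0 + 1 - Y).toNat

namespace RowF

variable {S : Shape} {y0 y1 : ℤ} {a b : ℤ → ℤ} {yP yQ : ℤ} (F : RowF S.P.Q y0 y1 a b yP yQ) {X Y : ℤ}

include F

lemma pR_le (h0 : y0 ≤ Y) (h1 : Y < y1) : 1 ≤ pR y0 Y ∧ pR y0 Y ≤ (y1 - y0).toNat := by
  have := F.y01
  unfold pR
  omega

lemma pL_le (h0 : y0 ≤ Y) (h1 : Y < y1) :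
    (y1 - y0).toNat + 2 ≤ pL y0 y1 Y ∧ pL y0 y1 Y ≤ 2 * (y1 - y0).toNat + 1 := by
  have := F.y01
  unfold pL
  omega

lemma rs_R (h0 : y0 ≤ Y) (h1 : Y < y1) : rs y0 y1 a b (pR y0 Y) = ((b Y - 1, Y), 1) := by
  have h := F.pR_le h0 h1
  have e : y0 + ((pR y0 Y : ℕ) : ℤ) - 1 = Y := by unfold pR; omega
  unfold rs
  rw [if_neg (by omega), if_pos h.2, e]

lemma rs_L (h0 : y0 ≤ Y) (h1 : Y < y1) : rs y0 y1 a b (pL y0 y1 Y) = ((a Y, Y), 3) := by
  have h := F.pL_le h0 h1
  have e : y0 + 2 * (((y1 - y0).toNat : ℕ) : ℤ) + 1 - ((pL y0 y1 Y : ℕ) : ℤ) = Y := by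
    have := F.y01
    unfold pL; omega
  unfold rs
  rw [if_neg (by omega), if_neg (by omega), if_neg (by omega), if_pos h.2, e]

omit F in
lemma rs_B : rs y0 y1 a b 0 = ((a y0, y0), 0) := by unfold rs; rw [if_pos rfl]

omit F in
lemma rs_T : rs y0 y1 a b ((y1 - y0).toNat + 1) = ((b (y1 - 1) - 1, y1 - 1), 2) := by
  unfold rs; rw [if_neg (by omega), if_neg (by omega), if_pos rfl]

lemma idx_R (h0 : y0 ≤ Y) (h1 : Y < y1) : idx S y0 y1 a b (pR y0 Y) = ix S ((b Y - 1, Y), 1) := by
  unfold idx; rw [F.rs_R h0 h1]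

lemma idx_L (h0 : y0 ≤ Y) (h1 : Y < y1) : idx S y0 y1 a b (pL y0 y1 Y) = ix S ((a Y, Y), 3) := by
  unfold idx; rw [F.rs_L h0 h1]

lemma idx_lt {P : ℕ} (hP : P ≤ 2 * (y1 - y0).toNat + 2) : idx S y0 y1 a b P < S.N :=
  (ix_spec (F.ring_side hP)).1

/-- **The lifted ring.** -/
theorem exists_tring : ∃ t : ℕ → ℕ, t 0 = idx S y0 y1 a b 0 ∧
    (∀ P < 2 * (y1 - y0).toNat + 2, t P < t (P + 1)) ∧
    t (2 * (y1 - y0).toNat + 2) = idx S y0 y1 a b 0 + S.N ∧
    ∀ P ≤ 2 * (y1 - y0).toNat + 2,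
      S.P.side (t P) = ((rs y0 y1 a b P).1, (rs y0 y1 a b P).2 + (S.P.side (t 0)).2) := by
  have key : ∀ P : ℕ, ∃ n : ℕ, P < 2 * (y1 - y0).toNat + 2 →
      1 ≤ n ∧ (nextSide S.P.Q)^[n] (rs y0 y1 a b P) = rs y0 y1 a b (P + 1) := by
    intro P
    by_cases hP : P < 2 * (y1 - y0).toNat + 2
    · obtain ⟨n, h1, h2⟩ := F.ring_step hP
      exact ⟨n, fun _ => ⟨h1, h2⟩⟩
    · exact ⟨0, fun h => absurd h hP⟩
  choose n hn using key
  set i0 := idx S y0 y1 a b 0 with hi0
  have hs0 : IsSide S.P.Q (rs y0 y1 a b 0) := F.ring_side (by omega)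
  obtain ⟨g0, g1, g2⟩ := ix_spec hs0
  have hi0' : ix S (rs y0 y1 a b 0) = i0 := rfl
  rw [hi0'] at g0 g1 g2
  have r2 : (rs y0 y1 a b 0).2 = 0 := by rw [rs_B]
  have hside : ∀ P ≤ 2 * (y1 - y0).toNat + 2, S.P.side (i0 + ∑ i ∈ range P, n i) =
      ((rs y0 y1 a b P).1, (rs y0 y1 a b P).2 + (S.P.side i0).2) := by
    intro P
    induction P with
    | zero =>
      intro _
      rw [range_zero, sum_empty, add_zero, r2, zero_add, ← g1]
    | succ P ih =>
      intro hP
      have h1 := ih (by omega)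
      obtain ⟨h2, h3⟩ := hn P (by omega)
      rw [sum_range_succ, ← add_assoc]
      have e : S.P.side (i0 + ∑ i ∈ range P, n i + n P) =
          (nextSide S.P.Q)^[n P] (S.P.side (i0 + ∑ i ∈ range P, n i)) := by
        unfold PType.side
        rw [add_comm, Function.iterate_add_apply]
      rw [e, h1, iter_shift (by omega), h3]
  refine ⟨fun P => i0 + ∑ i ∈ range P, n i, by simp, ?_, ?_, ?_⟩
  · intro P hP
    simp only
    rw [sum_range_succ]
    have := (hn P hP).1
    omega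
  · simp only
    set T := i0 + ∑ i ∈ range (2 * (y1 - y0).toNat + 2), n i with hT
    have h1 := hside (2 * (y1 - y0).toNat + 2) le_rfl
    rw [← hT] at h1
    have e4 : rs y0 y1 a b (2 * (y1 - y0).toNat + 2) = ((a y0, y0), 4) := by
      unfold rs; rw [if_neg (by omega), if_neg (by omega), if_neg (by omega), if_neg (by omega)]
    have e0 : (rs y0 y1 a b 0).1 = (a y0, y0) := by rw [rs_B]
    rw [e4] at h1
    simp only at h1
    have h2 := side_mod (S := S) T
    rw [h1, Prod.mk.injEq] at h2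
    have hN : 0 < S.N := lt_of_le_of_lt (Nat.zero_le _) m4N
    have hlt := Nat.mod_lt T hN
    have h3 : T % S.N = i0 := by
      refine S.P.inj _ hlt _ g0 ?_ ?_
      · exact h2.1.symm.trans (e0.symm.trans g1.symm)
      · show ((S.P.side (T % S.N)).2 - (S.P.side i0).2) % 4 = 0
        omega
    rw [h3] at h2
    have h4 : T / S.N = 1 := by omega
    have h5 := Nat.mod_add_div T S.N
    rw [h3, h4] at h5
    omega
  · intro P hP
    simp only [range_zero, sum_empty, add_zero]
    exact hside P hP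

/-- **The cyclic order of the ring.** -/
theorem ring_cut : ∃ s, 1 ≤ s ∧ s ≤ 2 * (y1 - y0).toNat + 2 ∧
    (∀ P, P + 1 < s → idx S y0 y1 a b P < idx S y0 y1 a b (P + 1)) ∧
    (∀ P, s ≤ P → P + 1 < 2 * (y1 - y0).toNat + 2 → idx S y0 y1 a b P < idx S y0 y1 a b (P + 1)) ∧
    (s < 2 * (y1 - y0).toNat + 2 →
      idx S y0 y1 a b (2 * (y1 - y0).toNat + 1) < idx S y0 y1 a b 0) := by
  obtain ⟨t, t0, t1, t2, t3⟩ := F.exists_tring
  set R := 2 * (y1 - y0).toNat + 2 with hR
  have hi0 : idx S y0 y1 a b 0 < S.N := F.idx_lt (by omega)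
  have hmono : ∀ n P, P + n ≤ R → t P + n ≤ t (P + n) := by
    intro n
    induction n with
    | zero => intro P _; simp
    | succ n ih =>
      intro P hP
      have h1 := ih P (by omega)
      have h2 := t1 (P + n) (by omega)
      rw [show P + (n + 1) = P + n + 1 by ring]
      omega
  have hlo : ∀ P ≤ R, idx S y0 y1 a b 0 ≤ t P := by
    intro P hP
    have := hmono P 0 (by omega)
    rw [zero_add] at this
    omega
  have hhi : ∀ P < R, t P < idx S y0 y1 a b 0 + S.N := by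
    intro P hP
    have := hmono (R - P) P (by omega)
    rw [show P + (R - P) = R by omega] at this
    omega
  have h00 : ∀ P ≤ R, ∀ j, (j < S.N) → (t P = j ∨ t P = j + S.N) → idx S y0 y1 a b P = j := by
    intro P hP j hj h
    have g2 := (ix_spec (F.ring_side (P := 0) (by omega))).2.2
    have e0 : (rs y0 y1 a b 0).2 = 0 := by rw [rs_B]
    have e1 : ix S (rs y0 y1 a b 0) = t 0 := t0.symm
    rw [e1, e0] at g2
    have h3 := t3 P hP
    refine ix_uniq (F.ring_side hP) hj ?_ ?_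
    · rcases h with h | h
      · rw [h] at h3; rw [h3]
      · rw [h, side_per, Prod.mk.injEq] at h3; rw [h3.1]
    · rcases h with h | h
      · rw [h] at h3; rw [h3]; simp only; omega
      · rw [h, side_per, Prod.mk.injEq] at h3; omega
  have hA : ∀ P ≤ R, t P < S.N → idx S y0 y1 a b P = t P := fun P hP h => h00 P hP _ h (Or.inl rfl)
  have hB : ∀ P < R, S.N ≤ t P → idx S y0 y1 a b P = t P - S.N := by
    intro P hP h
    have := hhi P hP
    exact h00 P hP.le _ (by omega) (Or.inr (by omega))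
  classical
  have hex : ∃ P, S.N ≤ t P := ⟨R, by omega⟩
  set s := Nat.find hex with hs
  have s1 : S.N ≤ t s := Nat.find_spec hex
  have s2 : ∀ P < s, t P < S.N := fun P hP => by
    have := Nat.find_min hex hP
    omega
  have s3 : s ≤ R := Nat.find_min' hex (by omega)
  have s4 : 1 ≤ s := by
    rcases Nat.eq_zero_or_pos s with h | h
    · rw [h, t0] at s1; omega
    · exact h
  have s5 : ∀ P, s ≤ P → P ≤ R → S.N ≤ t P := by
    intro P h1 h2
    have := hmono (P - s) s (by omega)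
    rw [show s + (P - s) = P by omega] at this
    omega
  refine ⟨s, s4, s3, ?_, ?_, ?_⟩
  · intro P hP
    rw [hA P (by omega) (s2 P (by omega)), hA (P + 1) (by omega) (s2 _ hP)]
    exact t1 P (by omega)
  · intro P h1 h2
    have g1 := s5 P h1 (by omega)
    have g2 := s5 (P + 1) (by omega) (by omega)
    rw [hB P (by omega) g1, hB (P + 1) (by omega) g2]
    have := t1 P (by omega)
    omega
  · intro h
    have e : 2 * (y1 - y0).toNat + 1 = R - 1 := by omega
    have g1 := s5 (R - 1) (by omega) (by omega)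
    rw [e, hB (R - 1) (by omega) g1]
    have := hhi (R - 1) (by omega)
    omega

/-- **Every side has the arc of a ring position.** -/
theorem arc_pos {i : ℕ} (hi : i < S.N) : ∃ P < 2 * (y1 - y0).toNat + 2,
    arc S i = arc S (idx S y0 y1 a b P) := by
  have hs := isSide_side (S := S) i
  have hix := ix_side (S := S) hi
  rcases hp : S.P.side i with ⟨⟨X, Y⟩, k⟩
  rw [hp] at hs hix
  have h01 := F.y01
  have hQ : (X, Y) ∈ S.P.Q := hs.1
  have hQ' := (F.mem X Y).1 hQ
  have har : ∀ r : ℤ, (k - r) % 4 = 0 → arc S i = ar S (X, Y) r := by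
    intro r hr
    unfold ar
    rw [← ix_congr hr, hix]
  have hR : ∀ Z, y0 ≤ Z → Z < y1 → ∃ P < 2 * (y1 - y0).toNat + 2,
      ar S (b Z - 1, Z) 1 = arc S (idx S y0 y1 a b P) := fun Z h0 h1 =>
    ⟨pR y0 Z, by have := F.pR_le h0 h1; omega, by rw [F.idx_R h0 h1]; rfl⟩
  have hL : ∀ Z, y0 ≤ Z → Z < y1 → ∃ P < 2 * (y1 - y0).toNat + 2,
      ar S (a Z, Z) 3 = arc S (idx S y0 y1 a b P) := fun Z h0 h1 =>
    ⟨pL y0 y1 Z, by have := F.pL_le h0 h1; omega, by rw [F.idx_L h0 h1]; rfl⟩
  have hk : k % 4 = 0 ∨ k % 4 = 1 ∨ k % 4 = 2 ∨ k % 4 = 3 := by omega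
  rcases hk with hk | hk | hk | hk
  · rw [har 0 (by omega)]
    have h2 := ((isSide0 hk).1 hs).2
    rw [F.mem] at h2
    rcases eq_or_lt_of_le hQ'.1.1 with e | e
    · subst e
      rw [F.arc_bot_0 hQ]
      exact ⟨0, by omega, by unfold idx; rw [rs_B]; rfl⟩
    · by_cases h3 : X < a (Y - 1)
      · rw [F.arc_bot_l (by omega) hQ h3]; exact hL _ (by omega) (by omega)
      · rw [F.arc_bot_r (by omega) hQ (by omega)]; exact hR _ (by omega) (by omega)
  · rw [har 1 (by omega)]
    have h2 := ((isSide1 hk).1 hs).2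
    rw [F.mem] at h2
    rw [show X = b Y - 1 by omega]
    exact hR _ (by omega) (by omega)
  · rw [har 2 (by omega)]
    have h2 := ((isSide2 hk).1 hs).2
    rw [F.mem] at h2
    rcases eq_or_lt_of_le (show Y ≤ y1 - 1 by omega) with e | e
    · subst e
      rw [F.arc_top_0 hQ]
      exact ⟨(y1 - y0).toNat + 1, by omega, by unfold idx; rw [rs_T]; rfl⟩
    · by_cases h3 : X < a (Y + 1)
      · rw [F.arc_top_l (by omega) hQ h3]; exact hL _ (by omega) (by omega)
      · rw [F.arc_top_r (by omega) hQ (by omega)]; exact hR _ (by omega) (by omega)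
  · rw [har 3 (by omega)]
    have h2 := ((isSide3 hk).1 hs).2
    rw [F.mem] at h2
    rw [show X = a Y by omega]
    exact hL _ (by omega) (by omega)

end RowF

end Pool.Agent.H5.FM
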