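import Mathlib
import Pool.Agent.H46.Sp.Lev

set_option autoImplicit false
open Finset

/-! # Windows from coarse data

`CW` : rows `0 ≤ Y < H` of a union of macro cells with the colours of its sides. `C.win N` : the window at the
even scale `N`, with one additional tile (notch) at every reflex corner of the wrong parity. -/

namespace Pool.Agent.H5.FM

open Pool.Agent.H46.Sp (Win mm MM)

/-- Coarse window. -/
structure CW where
  H : ℤ
  A : ℤ → ℤ
  B : ℤ → ℤ
  YP : ℤ
  YQ : ℤ
  CL : ℤ → Bool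
  CR : ℤ → Bool
  CB : Bool
  CT : Bool
  H0 : 0 < H
  P0 : 0 < YP
  P1 : YP ≤ H
  Q0 : 0 ≤ YQ
  Q1 : YQ < H
  aL : ∀ Y, 0 ≤ Y → Y + 1 < YP → A (Y + 1) ≤ A Y
  aP : YP < H → A (YP - 1) < A YP
  aU : ∀ Y, YP ≤ Y → Y + 1 < H → A Y ≤ A (Y + 1)
  bL : ∀ Y, 0 ≤ Y → Y + 1 ≤ YQ → B Y ≤ B (Y + 1)
  bQ : 0 < YQ → B (YQ - 1) < B YQ
  bU : ∀ Y, YQ ≤ Y → Y + 1 < H → B (Y + 1) ≤ B Y
  ab : ∀ Y, 0 ≤ Y → Y < H → A Y < B Y
  ov1 : ∀ Y, 0 ≤ Y → Y + 1 < H → A Y < B (Y + 1)
  ov2 : ∀ Y, 0 ≤ Y → Y + 1 < H → A (Y + 1) < B Y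
  cl : ∀ Y, 0 ≤ Y → Y + 1 < H → A Y = A (Y + 1) → CL Y = CL (Y + 1)
  cr : ∀ Y, 0 ≤ Y → Y + 1 < H → B Y = B (Y + 1) → CR Y = CR (Y + 1)

section arith

variable {N q r : ℤ}

lemma exists_qr (hN : 0 < N) (y : ℤ) : ∃ q r, y = N * q + r ∧ 0 ≤ r ∧ r < N :=
  ⟨y / N, y % N, (Int.mul_ediv_add_emod y N).symm, Int.emod_nonneg _ hN.ne', Int.emod_lt_of_pos _ hN⟩

lemma qr_div (h0 : 0 ≤ r) (h1 : r < N) : (N * q + r) / N = q := by
  rw [add_comm, Int.add_mul_ediv_left _ _ (by omega : N ≠ 0), Int.ediv_eq_zero_of_lt h0 h1, zero_add]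

lemma qr_mod (h0 : 0 ≤ r) (h1 : r < N) : (N * q + r) % N = r := by
  rw [add_comm, Int.add_mul_emod_self_left, Int.emod_eq_of_lt h0 h1]

lemma qr_lt {z : ℤ} (h0 : 0 ≤ r) (h1 : r < N) : N * q + r < N * z ↔ q < z := by
  constructor
  · intro h
    by_contra h2
    have : N * z ≤ N * q := mul_le_mul_of_nonneg_left (by omega) (by omega)
    omega
  · intro h
    have : N * (q + 1) ≤ N * z := mul_le_mul_of_nonneg_left (by omega) (by omega)
    rw [mul_add, mul_one] at this
    omega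

lemma qr_le {z : ℤ} (h0 : 0 ≤ r) (h1 : r < N) : N * z ≤ N * q + r ↔ z ≤ q := by
  rw [← not_lt, qr_lt h0 h1, not_lt]

lemma mul_gap {u v : ℤ} (hN : 0 < N) (h : u < v) : N * u + N ≤ N * v := by
  have : N * (u + 1) ≤ N * v := mul_le_mul_of_nonneg_left (by omega) (by omega)
  rw [mul_add, mul_one] at this
  exact this

lemma mul_mon {u v : ℤ} (hN : 0 < N) (h : u ≤ v) : N * u ≤ N * v :=
  mul_le_mul_of_nonneg_left h hN.le

lemma mul_ev (he : N % 2 = 0) (x : ℤ) : (N * x) % 2 = 0 := by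
  obtain ⟨m, rfl⟩ : ∃ m, N = 2 * m := ⟨N / 2, by omega⟩
  rw [mul_assoc]
  omega

end arith

namespace CW

variable (C : CW) (N : ℤ)

/-- notches on the left -/
def dA (q r : ℤ) : ℤ :=
  if (q + 1 < C.YP ∧ r = N - 1 ∧ C.A (q + 1) < C.A q ∧ C.CL q = false) ∨
    (C.YP ≤ q ∧ r = 0 ∧ C.A (q - 1) < C.A q ∧ C.CL q = true) then 1 else 0

/-- notches on the right -/
def dB (q r : ℤ) : ℤ :=
  if (q < C.YQ ∧ r = N - 1 ∧ C.B q < C.B (q + 1) ∧ C.CR q = false) ∨
    (C.YQ < q ∧ r = 0 ∧ C.B q < C.B (q - 1) ∧ C.CR q = true) then 1 else 0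

/-- left end of the row `y` -/
def wa (y : ℤ) : ℤ := N * C.A (y / N) - C.dA N (y / N) (y % N)

/-- right end of the row `y` -/
def wb (y : ℤ) : ℤ := N * C.B (y / N) + C.dB N (y / N) (y % N)

/-- colours on the left -/
def wcl (y : ℤ) : Bool := if y + 1 < N * C.YP then C.CL ((y + 1) / N) else C.CL (y / N)

/-- colours on the right -/
def wcr (y : ℤ) : Bool := if y < N * C.YQ then C.CR ((y + 1) / N) else C.CR (y / N)

variable {C N} {q r : ℤ}

lemma dA_01 : 0 ≤ C.dA N q r ∧ C.dA N q r ≤ 1 := by unfold dA; split_ifs <;> omega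
lemma dB_01 : 0 ≤ C.dB N q r ∧ C.dB N q r ≤ 1 := by unfold dB; split_ifs <;> omega

lemma dA_lo (h : q < C.YP) (hr : r ≠ N - 1) : C.dA N q r = 0 := by
  unfold dA; rw [if_neg]; omega

lemma dA_hi (h : C.YP ≤ q + 1) (hr : r ≠ 0) : C.dA N q r = 0 := by
  unfold dA; rw [if_neg]; omega

lemma dA_last (h : q + 1 < C.YP) (h1 : C.A (q + 1) < C.A q) :
    C.dA N q (N - 1) = if C.CL q = true then 0 else 1 := by
  unfold dA
  cases hc : C.CL q
  · rw [if_pos (Or.inl ⟨h, rfl, h1, rfl⟩)]; simp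
  · rw [if_neg]
    · simp
    · simp only [Bool.true_eq_false, and_false, and_true, false_or, not_and]
      intro h2; omega

lemma dA_first (h : C.YP ≤ q) (h1 : C.A (q - 1) < C.A q) :
    C.dA N q 0 = if C.CL q = true then 1 else 0 := by
  unfold dA
  cases hc : C.CL q
  · rw [if_neg]
    · simp
    · simp only [Bool.false_eq_true, and_false, and_true, or_false, not_and]
      intro h2; omega
  · rw [if_pos (Or.inr ⟨h, rfl, h1, rfl⟩)]; simp

lemma dA_one (h : C.dA N q r = 1) : (q + 1 < C.YP ∧ r = N - 1 ∧ C.A (q + 1) < C.A q ∧ C.CL q = false) ∨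
    (C.YP ≤ q ∧ r = 0 ∧ C.A (q - 1) < C.A q ∧ C.CL q = true) := by
  unfold dA at h
  by_contra h2
  rw [if_neg h2] at h
  omega

lemma dB_lo (h : q ≤ C.YQ) (hr : r ≠ N - 1) : C.dB N q r = 0 := by
  unfold dB; rw [if_neg]; omega

lemma dB_hi (h : C.YQ ≤ q) (hr : r ≠ 0) : C.dB N q r = 0 := by
  unfold dB; rw [if_neg]; omega

lemma dB_last (h : q < C.YQ) (h1 : C.B q < C.B (q + 1)) :
    C.dB N q (N - 1) = if C.CR q = true then 0 else 1 := by
  unfold dB
  cases hc : C.CR q
  · rw [if_pos (Or.inl ⟨h, rfl, h1, rfl⟩)]; simp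
  · rw [if_neg]
    · simp
    · simp only [Bool.true_eq_false, and_false, and_true, false_or, not_and]
      intro h2; omega

lemma dB_first (h : C.YQ < q) (h1 : C.B q < C.B (q - 1)) :
    C.dB N q 0 = if C.CR q = true then 1 else 0 := by
  unfold dB
  cases hc : C.CR q
  · rw [if_neg]
    · simp
    · simp only [Bool.false_eq_true, and_false, and_true, or_false, not_and]
      intro h2; omega
  · rw [if_pos (Or.inr ⟨h, rfl, h1, rfl⟩)]; simp

lemma dB_one (h : C.dB N q r = 1) : (q < C.YQ ∧ r = N - 1 ∧ C.B q < C.B (q + 1) ∧ C.CR q = false) ∨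
    (C.YQ < q ∧ r = 0 ∧ C.B q < C.B (q - 1) ∧ C.CR q = true) := by
  unfold dB at h
  by_contra h2
  rw [if_neg h2] at h
  omega

lemma wa_qr (h0 : 0 ≤ r) (h1 : r < N) : C.wa N (N * q + r) = N * C.A q - C.dA N q r := by
  unfold wa; rw [qr_div h0 h1, qr_mod h0 h1]

lemma wb_qr (h0 : 0 ≤ r) (h1 : r < N) : C.wb N (N * q + r) = N * C.B q + C.dB N q r := by
  unfold wb; rw [qr_div h0 h1, qr_mod h0 h1]

lemma wa_q0 (hN : 0 < N) : C.wa N (N * q) = N * C.A q - C.dA N q 0 := by
  have := wa_qr (C := C) (N := N) (q := q) (r := 0) le_rfl hN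
  rwa [add_zero] at this

lemma wb_q0 (hN : 0 < N) : C.wb N (N * q) = N * C.B q + C.dB N q 0 := by
  have := wb_qr (C := C) (N := N) (q := q) (r := 0) le_rfl hN
  rwa [add_zero] at this

lemma wa_q1 (hN : 0 < N) : C.wa N (N * q + (N - 1) + 1) = N * C.A (q + 1) - C.dA N (q + 1) 0 := by
  rw [show N * q + (N - 1) + 1 = N * (q + 1) by ring, wa_q0 hN]

lemma wb_q1 (hN : 0 < N) : C.wb N (N * q + (N - 1) + 1) = N * C.B (q + 1) + C.dB N (q + 1) 0 := by
  rw [show N * q + (N - 1) + 1 = N * (q + 1) by ring, wb_q0 hN]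

lemma wa_r1 (h0 : 0 ≤ r) (h1 : r + 1 < N) : C.wa N (N * q + r + 1) = N * C.A q - C.dA N q (r + 1) := by
  rw [add_assoc, wa_qr (by omega) h1]

lemma wb_r1 (h0 : 0 ≤ r) (h1 : r + 1 < N) : C.wb N (N * q + r + 1) = N * C.B q + C.dB N q (r + 1) := by
  rw [add_assoc, wb_qr (by omega) h1]

variable (h2 : 2 ≤ N)

include h2

lemma wa_L {y : ℤ} (hy : 0 ≤ y) (hy1 : y + 1 < N * C.YP) : C.wa N (y + 1) ≤ C.wa N y := by
  obtain ⟨q, r, rfl, r0, r1⟩ := exists_qr (by omega : 0 < N) y
  have q0 : 0 ≤ q := (qr_le (z := 0) r0 r1).1 (by rw [mul_zero]; exact hy)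
  have b1 := dA_01 (C := C) (N := N) (q := q) (r := r + 1)
  by_cases hr : r + 1 < N
  · have g1 : q < C.YP := (qr_lt r0 r1).1 (by omega)
    rw [wa_r1 r0 hr, wa_qr r0 r1, dA_lo (r := r) g1 (by omega)]
    omega
  · obtain rfl : r = N - 1 := by omega
    have g1 : q + 1 < C.YP := (qr_lt (z := C.YP) (q := q + 1) (r := 0) (N := N) le_rfl (by omega)).1
      (by rw [add_zero, mul_add, mul_one]; omega)
    rw [wa_q1 (by omega), wa_qr r0 r1, dA_lo g1 (by omega)]
    have g2 := C.aL q q0 g1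
    have b2 := dA_01 (C := C) (N := N) (q := q) (r := N - 1)
    rcases eq_or_lt_of_le g2 with e | e
    · rw [e]
      have : C.dA N q (N - 1) = 0 := by
        unfold dA; rw [if_neg]; omega
      omega
    · have := mul_gap (by omega : 0 < N) e
      omega

lemma wa_P (hP : N * C.YP < N * C.H) : C.wa N (N * C.YP - 1) < C.wa N (N * C.YP) := by
  have g0 : C.YP < C.H := by
    have := (qr_lt (z := C.H) (q := C.YP) (r := 0) (N := N) le_rfl (by omega)).1 (by rw [add_zero]; exact hP)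
    exact this
  rw [show N * C.YP - 1 = N * (C.YP - 1) + (N - 1) by ring, wa_qr (by omega) (by omega), wa_q0 (by omega)]
  have b1 := dA_01 (C := C) (N := N) (q := C.YP) (r := 0)
  have b2 := dA_01 (C := C) (N := N) (q := C.YP - 1) (r := N - 1)
  have := mul_gap (by omega : 0 < N) (C.aP g0)
  omega

lemma wa_U {y : ℤ} (hy : N * C.YP ≤ y) (hy1 : y + 1 < N * C.H) : C.wa N y ≤ C.wa N (y + 1) := by
  obtain ⟨q, r, rfl, r0, r1⟩ := exists_qr (by omega : 0 < N) y
  have q0 : C.YP ≤ q := (qr_le r0 r1).1 hy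
  have b1 := dA_01 (C := C) (N := N) (q := q) (r := r)
  by_cases hr : r + 1 < N
  · rw [wa_r1 r0 hr, wa_qr r0 r1, dA_hi (r := r + 1) (by omega) (by omega)]
    omega
  · obtain rfl : r = N - 1 := by omega
    have g1 : q + 1 < C.H := (qr_lt (z := C.H) (q := q + 1) (r := 0) (N := N) le_rfl (by omega)).1
      (by rw [add_zero, mul_add, mul_one]; omega)
    rw [wa_q1 (by omega), wa_qr r0 r1, dA_hi (r := N - 1) (by omega) (by omega)]
    have g2 := C.aU q q0 g1
    have b2 := dA_01 (C := C) (N := N) (q := q + 1) (r := 0)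
    rcases eq_or_lt_of_le g2 with e | e
    · rw [← e]
      have : C.dA N (q + 1) 0 = 0 := by
        unfold dA; rw [if_neg]; rw [add_sub_cancel_right]; omega
      omega
    · have := mul_gap (by omega : 0 < N) e
      omega

lemma wb_L {y : ℤ} (hy : 0 ≤ y) (hy1 : y + 1 < N * C.YQ) : C.wb N y ≤ C.wb N (y + 1) := by
  obtain ⟨q, r, rfl, r0, r1⟩ := exists_qr (by omega : 0 < N) y
  have q0 : 0 ≤ q := (qr_le (z := 0) r0 r1).1 (by rw [mul_zero]; exact hy)
  have b1 := dB_01 (C := C) (N := N) (q := q) (r := r + 1)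
  by_cases hr : r + 1 < N
  · have g1 : q < C.YQ := (qr_lt r0 r1).1 (by omega)
    rw [wb_r1 r0 hr, wb_qr r0 r1, dB_lo (r := r) g1.le (by omega)]
    omega
  · obtain rfl : r = N - 1 := by omega
    have g1 : q + 1 < C.YQ := (qr_lt (z := C.YQ) (q := q + 1) (r := 0) (N := N) le_rfl (by omega)).1
      (by rw [add_zero, mul_add, mul_one]; omega)
    rw [wb_q1 (by omega), wb_qr r0 r1, dB_lo (q := q + 1) g1.le (by omega)]
    have g2 := C.bL q q0 g1.le
    have b2 := dB_01 (C := C) (N := N) (q := q) (r := N - 1)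
    rcases eq_or_lt_of_le g2 with e | e
    · rw [← e]
      have : C.dB N q (N - 1) = 0 := by
        unfold dB; rw [if_neg]; omega
      omega
    · have := mul_gap (by omega : 0 < N) e
      omega

lemma wb_Q (hQ : 0 < N * C.YQ) : C.wb N (N * C.YQ - 1) < C.wb N (N * C.YQ) := by
  have g0 : 0 < C.YQ := by
    by_contra h
    have := mul_mon (by omega : 0 < N) (show C.YQ ≤ 0 by omega)
    rw [mul_zero] at this
    omega
  rw [show N * C.YQ - 1 = N * (C.YQ - 1) + (N - 1) by ring, wb_qr (by omega) (by omega), wb_q0 (by omega)]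
  have b1 := dB_01 (C := C) (N := N) (q := C.YQ) (r := 0)
  have b2 := dB_01 (C := C) (N := N) (q := C.YQ - 1) (r := N - 1)
  have := mul_gap (by omega : 0 < N) (C.bQ g0)
  omega

lemma wb_U {y : ℤ} (hy : N * C.YQ ≤ y) (hy1 : y + 1 < N * C.H) : C.wb N (y + 1) ≤ C.wb N y := by
  obtain ⟨q, r, rfl, r0, r1⟩ := exists_qr (by omega : 0 < N) y
  have q0 : C.YQ ≤ q := (qr_le r0 r1).1 hy
  have b1 := dB_01 (C := C) (N := N) (q := q) (r := r)
  by_cases hr : r + 1 < N
  · rw [wb_r1 r0 hr, wb_qr r0 r1, dB_hi (r := r + 1) (by omega) (by omega)]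
    omega
  · obtain rfl : r = N - 1 := by omega
    have g1 : q + 1 < C.H := (qr_lt (z := C.H) (q := q + 1) (r := 0) (N := N) le_rfl (by omega)).1
      (by rw [add_zero, mul_add, mul_one]; omega)
    rw [wb_q1 (by omega), wb_qr r0 r1, dB_hi (r := N - 1) q0 (by omega)]
    have g2 := C.bU q q0 g1
    have b2 := dB_01 (C := C) (N := N) (q := q + 1) (r := 0)
    rcases eq_or_lt_of_le g2 with e | e
    · rw [e]
      have : C.dB N (q + 1) 0 = 0 := by
        unfold dB; rw [if_neg]; rw [add_sub_cancel_right]; omega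
      omega
    · have := mul_gap (by omega : 0 < N) e
      omega

lemma wab {y : ℤ} (hy : 0 ≤ y) (hy1 : y < N * C.H) : C.wa N y + 2 ≤ C.wb N y := by
  obtain ⟨q, r, rfl, r0, r1⟩ := exists_qr (by omega : 0 < N) y
  have q0 : 0 ≤ q := (qr_le (z := 0) r0 r1).1 (by rw [mul_zero]; exact hy)
  have q1 : q < C.H := (qr_lt r0 r1).1 hy1
  rw [wa_qr r0 r1, wb_qr r0 r1]
  have b1 := dA_01 (C := C) (N := N) (q := q) (r := r)
  have b2 := dB_01 (C := C) (N := N) (q := q) (r := r)
  have := mul_gap (by omega : 0 < N) (C.ab q q0 q1)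
  omega

lemma wov1 {y : ℤ} (hy : 0 ≤ y) (hy1 : y + 1 < N * C.H) : C.wa N y + 2 ≤ C.wb N (y + 1) := by
  obtain ⟨q, r, rfl, r0, r1⟩ := exists_qr (by omega : 0 < N) y
  have q0 : 0 ≤ q := (qr_le (z := 0) r0 r1).1 (by rw [mul_zero]; exact hy)
  have b1 := dA_01 (C := C) (N := N) (q := q) (r := r)
  by_cases hr : r + 1 < N
  · have q1 : q < C.H := (qr_lt r0 r1).1 (by omega)
    rw [wa_qr r0 r1, wb_r1 r0 hr]
    have b2 := dB_01 (C := C) (N := N) (q := q) (r := r + 1)
    have := mul_gap (by omega : 0 < N) (C.ab q q0 q1)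
    omega
  · obtain rfl : r = N - 1 := by omega
    have g1 : q + 1 < C.H := (qr_lt (z := C.H) (q := q + 1) (r := 0) (N := N) le_rfl (by omega)).1
      (by rw [add_zero, mul_add, mul_one]; omega)
    rw [wb_q1 (by omega), wa_qr r0 r1]
    have b2 := dB_01 (C := C) (N := N) (q := q + 1) (r := 0)
    have := mul_gap (by omega : 0 < N) (C.ov1 q q0 g1)
    omega

lemma wov2 {y : ℤ} (hy : 0 ≤ y) (hy1 : y + 1 < N * C.H) : C.wa N (y + 1) + 2 ≤ C.wb N y := by
  obtain ⟨q, r, rfl, r0, r1⟩ := exists_qr (by omega : 0 < N) y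
  have q0 : 0 ≤ q := (qr_le (z := 0) r0 r1).1 (by rw [mul_zero]; exact hy)
  have b1 := dB_01 (C := C) (N := N) (q := q) (r := r)
  by_cases hr : r + 1 < N
  · have q1 : q < C.H := (qr_lt r0 r1).1 (by omega)
    rw [wb_qr r0 r1, wa_r1 r0 hr]
    have b2 := dA_01 (C := C) (N := N) (q := q) (r := r + 1)
    have := mul_gap (by omega : 0 < N) (C.ab q q0 q1)
    omega
  · obtain rfl : r = N - 1 := by omega
    have g1 : q + 1 < C.H := (qr_lt (z := C.H) (q := q + 1) (r := 0) (N := N) le_rfl (by omega)).1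
      (by rw [add_zero, mul_add, mul_one]; omega)
    rw [wa_q1 (by omega), wb_qr r0 r1]
    have b2 := dA_01 (C := C) (N := N) (q := q + 1) (r := 0)
    have := mul_gap (by omega : 0 < N) (C.ov2 q q0 g1)
    omega

/-! ### Colours -/

omit h2 in
lemma wcl_lo {y : ℤ} (h : y + 1 < N * C.YP) : C.wcl N y = C.CL ((y + 1) / N) := by
  unfold wcl; rw [if_pos h]

omit h2 in
lemma wcl_hi {y : ℤ} (h : ¬ y + 1 < N * C.YP) : C.wcl N y = C.CL (y / N) := by
  unfold wcl; rw [if_neg h]

omit h2 in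
lemma wcr_lo {y : ℤ} (h : y < N * C.YQ) : C.wcr N y = C.CR ((y + 1) / N) := by
  unfold wcr; rw [if_pos h]

omit h2 in
lemma wcr_hi {y : ℤ} (h : ¬ y < N * C.YQ) : C.wcr N y = C.CR (y / N) := by
  unfold wcr; rw [if_neg h]

/-- the step `z → z + 1` below the leftmost point -/
lemma step_lo {z : ℤ} (hz : 0 ≤ z) (hz1 : z + 1 < N * C.YP) (he : N % 2 = 0) :
    (C.wa N z = C.wa N (z + 1) → C.CL (z / N) = C.CL ((z + 1) / N)) ∧
    (C.wa N (z + 1) < C.wa N z → ((C.wa N z + (z - 1)) % 2 = 0 ↔ C.CL (z / N) = true)) := by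
  obtain ⟨q, r, rfl, r0, r1⟩ := exists_qr (by omega : 0 < N) z
  have q0 : 0 ≤ q := (qr_le (z := 0) r0 r1).1 (by rw [mul_zero]; exact hz)
  have e1 := mul_ev he (C.A q)
  have e2 := mul_ev he q
  by_cases hr : r + 1 < N
  · have g1 : q < C.YP := (qr_lt r0 r1).1 (by omega)
    rw [wa_r1 r0 hr, wa_qr r0 r1, dA_lo (r := r) g1 (by omega), qr_div r0 r1, add_assoc,
      qr_div (by omega) hr]
    refine ⟨fun _ => rfl, fun h => ?_⟩
    have b1 := dA_01 (C := C) (N := N) (q := q) (r := r + 1)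
    rcases dA_one (show C.dA N q (r + 1) = 1 by omega) with ⟨-, h4, -, h5⟩ | ⟨h4, -⟩
    · rw [h5]
      simp only [Bool.false_eq_true, iff_false]
      omega
    · omega
  · obtain rfl : r = N - 1 := by omega
    have g1 : q + 1 < C.YP := (qr_lt (z := C.YP) (q := q + 1) (r := 0) (N := N) le_rfl (by omega)).1
      (by rw [add_zero, mul_add, mul_one]; omega)
    rw [wa_q1 (by omega), wa_qr r0 r1, dA_lo g1 (by omega), qr_div r0 r1,
      show N * q + (N - 1) + 1 = N * (q + 1) + 0 by ring, qr_div le_rfl (by omega)]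
    have g2 := C.aL q q0 g1
    have b2 := dA_01 (C := C) (N := N) (q := q) (r := N - 1)
    have g3 := C.P1
    rcases eq_or_lt_of_le g2 with e | e
    · refine ⟨fun _ => C.cl q q0 (by omega) e.symm, fun h => ?_⟩
      have : C.dA N q (N - 1) = 0 := by
        unfold dA; rw [if_neg]; omega
      rw [e] at h
      omega
    · have := mul_gap (by omega : 0 < N) e
      refine ⟨fun h => by omega, fun _ => ?_⟩
      rw [dA_last g1 e]
      cases C.CL q
      · simp only [Bool.false_eq_true, iff_false, if_false]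
        omega
      · simp only [if_true, iff_true]
        omega

/-- the step `y → y + 1` above the leftmost point -/
lemma step_hi {y : ℤ} (hy : N * C.YP ≤ y + 1) (hy1 : y + 1 < N * C.H) (he : N % 2 = 0) :
    C.wa N y ≤ C.wa N (y + 1) ∧
    (C.wa N y = C.wa N (y + 1) → C.CL (y / N) = C.CL ((y + 1) / N)) ∧
    (C.wa N y < C.wa N (y + 1) → ((C.wa N (y + 1) + y) % 2 = 0 ↔ C.CL ((y + 1) / N) = true)) := by
  obtain ⟨q, r, rfl, r0, r1⟩ := exists_qr (by omega : 0 < N) y
  have e1 := mul_ev he (C.A q)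
  have e1' := mul_ev he (C.A (q + 1))
  have e2 := mul_ev he q
  have hP := C.P0
  by_cases hr : r + 1 < N
  · have g1 : C.YP ≤ q := (qr_le (N := N) (r := r + 1) (by omega) hr).1 (by omega)
    have b1 := dA_01 (C := C) (N := N) (q := q) (r := r)
    rw [wa_r1 r0 hr, wa_qr r0 r1, dA_hi (r := r + 1) (by omega) (by omega), qr_div r0 r1, add_assoc,
      qr_div (by omega) hr]
    refine ⟨by omega, fun _ => rfl, fun h => ?_⟩
    rcases dA_one (show C.dA N q r = 1 by omega) with ⟨h4, -⟩ | ⟨-, h4, -, h5⟩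
    · omega
    · rw [h5]
      simp only [iff_true]
      omega
  · obtain rfl : r = N - 1 := by omega
    have g1 : q + 1 < C.H := (qr_lt (z := C.H) (q := q + 1) (r := 0) (N := N) le_rfl (by omega)).1
      (by rw [add_zero, mul_add, mul_one]; omega)
    have g0 : C.YP ≤ q + 1 := (qr_le (z := C.YP) (q := q + 1) (r := 0) (N := N) le_rfl (by omega)).1
      (by rw [add_zero, mul_add, mul_one]; omega)
    rw [wa_q1 (by omega), wa_qr r0 r1, dA_hi (r := N - 1) (by omega) (by omega), qr_div r0 r1,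
      show N * q + (N - 1) + 1 = N * (q + 1) + 0 by ring, qr_div le_rfl (by omega)]
    have g2 : C.A q ≤ C.A (q + 1) := by
      rcases eq_or_lt_of_le g0 with e | e
      · have := C.aP (by omega)
        rw [e, add_sub_cancel_right] at this
        exact this.le
      · exact C.aU q (by omega) g1
    have b2 := dA_01 (C := C) (N := N) (q := q + 1) (r := 0)
    rcases eq_or_lt_of_le g2 with e | e
    · have : C.dA N (q + 1) 0 = 0 := by
        unfold dA; rw [if_neg]; rw [add_sub_cancel_right]; omega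
      rw [← e]
      exact ⟨by omega, fun _ => C.cl q (by omega) g1 e, fun h => by omega⟩
    · have := mul_gap (by omega : 0 < N) e
      refine ⟨by omega, fun h => by omega, fun _ => ?_⟩
      rw [dA_first g0 (by rw [add_sub_cancel_right]; exact e)]
      cases C.CL (q + 1)
      · simp only [Bool.false_eq_true, iff_false, if_false]
        omega
      · simp only [if_true, iff_true]
        omega

/-- the step `z → z + 1` below the rightmost point -/
lemma stepR_lo {z : ℤ} (hz : 0 ≤ z) (hz1 : z + 1 ≤ N * C.YQ) (he : N % 2 = 0) :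
    C.wb N z ≤ C.wb N (z + 1) ∧
    (C.wb N z = C.wb N (z + 1) → C.CR (z / N) = C.CR ((z + 1) / N)) ∧
    (C.wb N z < C.wb N (z + 1) → ((C.wb N z + (z - 1)) % 2 = 0 ↔ C.CR (z / N) = true)) := by
  obtain ⟨q, r, rfl, r0, r1⟩ := exists_qr (by omega : 0 < N) z
  have q0 : 0 ≤ q := (qr_le (z := 0) r0 r1).1 (by rw [mul_zero]; exact hz)
  have e1 := mul_ev he (C.B q)
  have e2 := mul_ev he q
  by_cases hr : r + 1 < N
  · have g1 : q < C.YQ := (qr_lt r0 r1).1 (by omega)
    have b1 := dB_01 (C := C) (N := N) (q := q) (r := r + 1)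
    rw [wb_r1 r0 hr, wb_qr r0 r1, dB_lo (r := r) g1.le (by omega), qr_div r0 r1, add_assoc,
      qr_div (by omega) hr]
    refine ⟨by omega, fun _ => rfl, fun h => ?_⟩
    rcases dB_one (show C.dB N q (r + 1) = 1 by omega) with ⟨-, h4, -, h5⟩ | ⟨h4, -⟩
    · rw [h5]
      simp only [Bool.false_eq_true, iff_false]
      omega
    · omega
  · obtain rfl : r = N - 1 := by omega
    have g1 : q + 1 ≤ C.YQ := by
      have := (qr_lt (z := C.YQ + 1) (q := q + 1) (r := 0) (N := N) le_rfl (by omega)).1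
        (by rw [add_zero, mul_add, mul_one, mul_add, mul_one]; omega)
      omega
    rw [wb_q1 (by omega), wb_qr r0 r1, dB_lo (q := q + 1) g1 (by omega), qr_div r0 r1,
      show N * q + (N - 1) + 1 = N * (q + 1) + 0 by ring, qr_div le_rfl (by omega)]
    have g2 := C.bL q q0 g1
    have b2 := dB_01 (C := C) (N := N) (q := q) (r := N - 1)
    have g3 := C.Q1
    rcases eq_or_lt_of_le g2 with e | e
    · have : C.dB N q (N - 1) = 0 := by
        unfold dB; rw [if_neg]; omega
      rw [← e]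
      exact ⟨by omega, fun _ => C.cr q q0 (by omega) e, fun h => by omega⟩
    · have := mul_gap (by omega : 0 < N) e
      refine ⟨by omega, fun h => by omega, fun _ => ?_⟩
      rw [dB_last (by omega) e]
      cases C.CR q
      · simp only [Bool.false_eq_true, iff_false, if_false]
        omega
      · simp only [if_true, iff_true]
        omega

/-- the step `y → y + 1` above the rightmost point -/
lemma stepR_hi {y : ℤ} (hy : N * C.YQ ≤ y) (hy1 : y + 1 < N * C.H) (he : N % 2 = 0) :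
    (C.wb N y = C.wb N (y + 1) → C.CR (y / N) = C.CR ((y + 1) / N)) ∧
    (C.wb N (y + 1) < C.wb N y → ((C.wb N (y + 1) + y) % 2 = 0 ↔ C.CR ((y + 1) / N) = true)) := by
  obtain ⟨q, r, rfl, r0, r1⟩ := exists_qr (by omega : 0 < N) y
  have q0 : C.YQ ≤ q := (qr_le r0 r1).1 hy
  have e1 := mul_ev he (C.B q)
  have e1' := mul_ev he (C.B (q + 1))
  have e2 := mul_ev he q
  have hQ := C.Q0
  by_cases hr : r + 1 < N
  · have b1 := dB_01 (C := C) (N := N) (q := q) (r := r)
    rw [wb_r1 r0 hr, wb_qr r0 r1, dB_hi (r := r + 1) (by omega) (by omega), qr_div r0 r1, add_assoc,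
      qr_div (by omega) hr]
    refine ⟨fun _ => rfl, fun h => ?_⟩
    rcases dB_one (show C.dB N q r = 1 by omega) with ⟨h4, -⟩ | ⟨-, h4, -, h5⟩
    · omega
    · rw [h5]
      simp only [iff_true]
      omega
  · obtain rfl : r = N - 1 := by omega
    have g1 : q + 1 < C.H := (qr_lt (z := C.H) (q := q + 1) (r := 0) (N := N) le_rfl (by omega)).1
      (by rw [add_zero, mul_add, mul_one]; omega)
    rw [wb_q1 (by omega), wb_qr r0 r1, dB_hi (r := N - 1) q0 (by omega), qr_div r0 r1,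
      show N * q + (N - 1) + 1 = N * (q + 1) + 0 by ring, qr_div le_rfl (by omega)]
    have g2 := C.bU q q0 g1
    have b2 := dB_01 (C := C) (N := N) (q := q + 1) (r := 0)
    rcases eq_or_lt_of_le g2 with e | e
    · have : C.dB N (q + 1) 0 = 0 := by
        unfold dB; rw [if_neg]; rw [add_sub_cancel_right]; omega
      rw [e]
      exact ⟨fun _ => C.cr q (by omega) g1 e.symm, fun h => by omega⟩
    · have := mul_gap (by omega : 0 < N) e
      refine ⟨fun h => by omega, fun _ => ?_⟩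
      rw [dB_first (by omega) (by rw [add_sub_cancel_right]; exact e)]
      cases C.CR (q + 1)
      · simp only [Bool.false_eq_true, iff_false, if_false]
        omega
      · simp only [if_true, iff_true]
        omega

end CW

/-- **The window of coarse data.** -/
def CW.win (C : CW) (N : ℤ) (h2 : 2 ≤ N) (he : N % 2 = 0) : Win where
  h := N * C.H
  a := C.wa N
  b := C.wb N
  yP := N * C.YP
  yQ := N * C.YQ
  cl := C.wcl N
  cr := C.wcr N
  cb := C.CB
  ct := C.CT
  hh := by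
    have := mul_mon (by omega : 0 < N) (show 1 ≤ C.H from C.H0)
    omega
  P0 := by
    have := mul_mon (by omega : 0 < N) (show 1 ≤ C.YP from C.P0)
    omega
  P1 := mul_mon (by omega) C.P1
  Q0 := mul_nonneg (by omega) C.Q0
  Q1 := by
    have := mul_gap (by omega : 0 < N) C.Q1
    omega
  aL := fun y h h' => CW.wa_L h2 h h'
  aP := fun h => CW.wa_P h2 h
  aU := fun y h h' => CW.wa_U h2 h h'
  bL := fun y h h' => CW.wb_L h2 h h'
  bQ := fun h => CW.wb_Q h2 h
  bU := fun y h h' => CW.wb_U h2 h h'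
  ab := fun y h h' => CW.wab h2 h h'
  ov1 := fun y h h' => CW.wov1 h2 h h'
  ov2 := fun y h h' => CW.wov2 h2 h h'
  scl := by
    intro y h h' hm
    unfold mm at hm
    by_cases h1 : y + 1 < N * C.YP
    · rw [if_pos h1] at hm
      rw [CW.wcl_lo h1]
      by_cases h3 : y + 1 + 1 < N * C.YP
      · rw [if_pos h3] at hm
        rw [CW.wcl_lo h3]
        exact (CW.step_lo h2 (by omega) h3 he).1 hm
      · rw [CW.wcl_hi h3]
    · rw [if_neg h1, if_neg (by omega)] at hm
      rw [CW.wcl_hi h1, CW.wcl_hi (by omega)]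
      exact (CW.step_hi h2 (by omega) h' he).2.1 hm
  scr := by
    intro y h h' hm
    unfold MM at hm
    by_cases h1 : y < N * C.YQ
    · rw [if_pos h1] at hm
      rw [CW.wcr_lo h1]
      by_cases h3 : y + 1 < N * C.YQ
      · rw [if_pos h3] at hm
        rw [CW.wcr_lo h3]
        exact (CW.stepR_lo h2 (by omega) (by omega) he).2.1 hm
      · rw [CW.wcr_hi h3]
    · rw [if_neg h1, if_neg (by omega)] at hm
      rw [CW.wcr_hi h1, CW.wcr_hi (by omega)]
      exact (CW.stepR_hi h2 (by omega) h' he).1 hm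
  pll := by
    intro y h h' hm
    unfold mm at hm ⊢
    by_cases h1 : y + 1 < N * C.YP
    · rw [if_pos h1] at hm
      rw [CW.wcl_lo h1, if_pos h1]
      by_cases h3 : y + 1 + 1 < N * C.YP
      · rw [if_pos h3] at hm
        have := (CW.step_lo h2 (by omega) h3 he).2 hm
        rwa [add_sub_cancel_right] at this
      · rw [if_neg h3] at hm
        exact absurd hm (lt_irrefl _)
    · rw [if_neg h1, if_neg (by omega)] at hm
      have := (CW.step_hi h2 (by omega) h' he).1
      omega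
  pul := by
    intro y h h' hm
    unfold mm at hm ⊢
    by_cases h1 : y + 1 < N * C.YP
    · rw [if_pos h1] at hm
      by_cases h3 : y + 1 + 1 < N * C.YP
      · rw [if_pos h3] at hm
        have := CW.wa_L h2 (y := y + 1) (by omega) h3
        omega
      · rw [if_neg h3] at hm
        exact absurd hm (lt_irrefl _)
    · rw [if_neg h1, if_neg (by omega)] at hm
      rw [if_neg (by omega), CW.wcl_hi (by omega)]
      exact (CW.step_hi h2 (by omega) h' he).2.2 hm
  plr := by
    intro y h h' hm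
    unfold MM at hm ⊢
    by_cases h1 : y < N * C.YQ
    · rw [if_pos h1] at hm
      rw [CW.wcr_lo h1, if_pos h1]
      by_cases h3 : y + 1 < N * C.YQ
      · rw [if_pos h3] at hm
        have := (CW.stepR_lo h2 (z := y + 1) (by omega) (by omega) he).2.2 hm
        rwa [add_sub_cancel_right] at this
      · rw [if_neg h3] at hm
        exact absurd hm (lt_irrefl _)
    · rw [if_neg h1, if_neg (by omega)] at hm
      have := CW.wb_U h2 (y := y) (by omega) h'
      omega
  pur := by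
    intro y h h' hm
    unfold MM at hm ⊢
    by_cases h1 : y < N * C.YQ
    · rw [if_pos h1] at hm
      by_cases h3 : y + 1 < N * C.YQ
      · rw [if_pos h3] at hm
        have := (CW.stepR_lo (C := C) h2 (z := y + 1) (by omega) (by omega) he).1
        omega
      · rw [if_neg h3] at hm
        exact absurd hm (lt_irrefl _)
    · rw [if_neg h1, if_neg (by omega)] at hm
      rw [if_neg (by omega), CW.wcr_hi (by omega)]
      exact (CW.stepR_hi h2 (by omega) h' he).2 hm

end Pool.Agent.H5.FM
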