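import Mathlib
import Pool.Agent.H5.FM.WinC
import Pool.Agent.H5.FM.Ring2
import Pool.Agent.H33.Q1.Tile

set_option autoImplicit false
open Finset

/-! # The window of a shape

`winOf F n` for a shape `S` in row form `F` : scale `N = 2 n`, the rows are moved by `N y0`. -/

namespace Pool.Agent.H5.FM

open Pool.Agent.Q1.M4 (Cell Good IsSide nextSide isSide_next PType Adj4 Conn4)
open Pool.Agent.H21.FM (Shape)
open Pool.Agent.H46.Sp (Win mm MM)
open Pool.Agent.H33.Q1 (lt TL ct mem_TL tt_lt lt_odd)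

open Classical in
/-- colour of a side: `true` iff wired -/
noncomputable def wc (S : Shape) (i : ℕ) : Bool := decide (S.Wd i)

lemma wc_iff {S : Shape} {i : ℕ} : wc S i = true ↔ S.Wd i := by unfold wc; simp

lemma wc_arc {S : Shape} {i j : ℕ} (hi : i < S.N) (hj : j < S.N) (h : arc S i = arc S j) :
    wc S i = wc S j := by
  have : S.Wd i ↔ S.Wd j := by rw [wd_arc hi, wd_arc hj, h]
  unfold wc
  exact decide_eq_decide.2 this

/-- colour of the left side of a row -/
noncomputable def cL (S : Shape) (a : ℤ → ℤ) (Y : ℤ) : Bool := wc S (ix S ((a Y, Y), 3))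
/-- colour of the right side of a row -/
noncomputable def cR (S : Shape) (b : ℤ → ℤ) (Y : ℤ) : Bool := wc S (ix S ((b Y - 1, Y), 1))
/-- colour of the bottom -/
noncomputable def cB (S : Shape) (a : ℤ → ℤ) (y0 : ℤ) : Bool := wc S (ix S ((a y0, y0), 0))
/-- colour of the top -/
noncomputable def cT (S : Shape) (b : ℤ → ℤ) (y1 : ℤ) : Bool := wc S (ix S ((b (y1 - 1) - 1, y1 - 1), 2))

section

variable {S : Shape} {y0 y1 : ℤ} {a b : ℤ → ℤ} {yP yQ : ℤ} (F : RowF S.P.Q y0 y1 a b yP yQ) {X Y : ℤ}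

include F

lemma RowF.side_L (h0 : y0 ≤ Y) (h1 : Y < y1) : IsSide S.P.Q ((a Y, Y), 3) := by
  rw [← F.rs_L h0 h1]; exact F.ring_side (by have := F.pL_le h0 h1; omega)

lemma RowF.side_R (h0 : y0 ≤ Y) (h1 : Y < y1) : IsSide S.P.Q ((b Y - 1, Y), 1) := by
  rw [← F.rs_R h0 h1]; exact F.ring_side (by have := F.pR_le h0 h1; omega)

lemma RowF.side_B : IsSide S.P.Q ((a y0, y0), 0) := by
  have := F.ring_side (P := 0) (by omega)
  rwa [RowF.rs_B] at this

lemma RowF.side_T : IsSide S.P.Q ((b (y1 - 1) - 1, y1 - 1), 2) := by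
  have := F.ring_side (P := (y1 - y0).toNat + 1) (by omega)
  rwa [RowF.rs_T] at this

lemma RowF.cL_eq (h0 : y0 ≤ Y) (h1 : Y + 1 < y1) (h : a Y = a (Y + 1)) : cL S a Y = cL S a (Y + 1) :=
  wc_arc (ix_spec (F.side_L h0 (by omega))).1 (ix_spec (F.side_L (by omega) h1)).1 (F.arc_left h0 h1 h)

lemma RowF.cR_eq (h0 : y0 ≤ Y) (h1 : Y + 1 < y1) (h : b Y = b (Y + 1)) : cR S b Y = cR S b (Y + 1) :=
  wc_arc (ix_spec (F.side_R h0 (by omega))).1 (ix_spec (F.side_R (by omega) h1)).1 (F.arc_right h0 h1 h)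

/-- The coarse window of a shape. -/
noncomputable def cwOf : CW where
  H := y1 - y0
  A := fun Y => a (Y + y0)
  B := fun Y => b (Y + y0)
  YP := yP - y0
  YQ := yQ - y0
  CL := fun Y => cL S a (Y + y0)
  CR := fun Y => cR S b (Y + y0)
  CB := cB S a y0
  CT := cT S b y1
  H0 := by have := F.y01; omega
  P0 := by have := F.P0; omega
  P1 := by have := F.P1; omega
  Q0 := by have := F.Q0; omega
  Q1 := by have := F.Q1; omega
  aL := fun Y h h' => by
    have := F.aL (Y + y0) (by omega) (by omega)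
    rwa [show Y + y0 + 1 = Y + 1 + y0 by ring] at this
  aP := fun h => by
    have := F.aP (by omega)
    rw [show yP - y0 - 1 + y0 = yP - 1 by ring, show yP - y0 + y0 = yP by ring]
    exact this
  aU := fun Y h h' => by
    have := F.aU (Y + y0) (by omega) (by omega)
    rwa [show Y + y0 + 1 = Y + 1 + y0 by ring] at this
  bL := fun Y h h' => by
    have := F.bL (Y + y0) (by omega) (by omega)
    rwa [show Y + y0 + 1 = Y + 1 + y0 by ring] at this
  bQ := fun h => by
    have := F.bQ (by omega)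
    rw [show yQ - y0 - 1 + y0 = yQ - 1 by ring, show yQ - y0 + y0 = yQ by ring]
    exact this
  bU := fun Y h h' => by
    have := F.bU (Y + y0) (by omega) (by omega)
    rwa [show Y + y0 + 1 = Y + 1 + y0 by ring] at this
  ab := fun Y h h' => F.ab _ (by omega) (by omega)
  ov1 := fun Y h h' => by
    have := F.ov1 (Y + y0) (by omega) (by omega)
    rwa [show Y + y0 + 1 = Y + 1 + y0 by ring] at this
  ov2 := fun Y h h' => by
    have := F.ov2 (Y + y0) (by omega) (by omega)
    rwa [show Y + y0 + 1 = Y + 1 + y0 by ring] at this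
  cl := fun Y h h' e => by
    have := F.cL_eq (Y := Y + y0) (by omega) (by omega) (by rwa [show Y + y0 + 1 = Y + 1 + y0 by ring])
    rwa [show Y + y0 + 1 = Y + 1 + y0 by ring] at this
  cr := fun Y h h' e => by
    have := F.cR_eq (Y := Y + y0) (by omega) (by omega) (by rwa [show Y + y0 + 1 = Y + 1 + y0 by ring])
    rwa [show Y + y0 + 1 = Y + 1 + y0 by ring] at this

/-- **The window of a shape** at the scale `2 n`. -/
noncomputable def winOf (n : ℕ) (hn : 1 ≤ n) : Win := (cwOf F).win (2 * n) (by omega) (by omega)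

end

section

variable {S : Shape} {y0 y1 : ℤ} {a b : ℤ → ℤ} {yP yQ : ℤ} (F : RowF S.P.Q y0 y1 a b yP yQ)
  {n : ℕ} (hn : 1 ≤ n) {x y : ℤ}

lemma winOf_h : (winOf F n hn).h = 2 * n * (y1 - y0) := rfl
lemma winOf_yP : (winOf F n hn).yP = 2 * n * (yP - y0) := rfl
lemma winOf_yQ : (winOf F n hn).yQ = 2 * n * (yQ - y0) := rfl
lemma winOf_cb : (winOf F n hn).cb = cB S a y0 := rfl
lemma winOf_ct : (winOf F n hn).ct = cT S b y1 := rfl

lemma winOf_a : (winOf F n hn).a y = 2 * n * a (y / (2 * n) + y0) -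
    (cwOf F).dA (2 * n) (y / (2 * n)) (y % (2 * n)) := rfl

lemma winOf_b : (winOf F n hn).b y = 2 * n * b (y / (2 * n) + y0) +
    (cwOf F).dB (2 * n) (y / (2 * n)) (y % (2 * n)) := rfl

lemma winOf_cl : (winOf F n hn).cl y = if y + 1 < 2 * n * (yP - y0) then
    cL S a ((y + 1) / (2 * n) + y0) else cL S a (y / (2 * n) + y0) := rfl

lemma winOf_cr : (winOf F n hn).cr y = if y < 2 * n * (yQ - y0) then
    cR S b ((y + 1) / (2 * n) + y0) else cR S b (y / (2 * n) + y0) := rfl

include F hn in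
/-- the tiles of the shape in the frame of the window -/
theorem tl_iff : lt (x, y + 2 * n * y0) ∈ TL S.P.Q (2 * n) ↔ (0 ≤ y ∧ y < 2 * n * (y1 - y0)) ∧
    2 * n * a (y / (2 * n) + y0) ≤ x ∧ x < 2 * n * b (y / (2 * n) + y0) := by
  have hN : (0 : ℤ) < 2 * n := by omega
  rw [mem_TL hN, tt_lt]
  have h1 := lt_odd (x, y + 2 * n * y0)
  simp only [h1, true_and]
  unfold ct
  simp only
  rw [Int.add_mul_ediv_left _ _ hN.ne', F.mem]
  obtain ⟨q, r, rfl, r0, r1⟩ := exists_qr hN y
  rw [qr_div r0 r1]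
  have e1 : 0 ≤ 2 * (n : ℤ) * q + r ↔ 0 ≤ q := by
    have := qr_le (N := 2 * (n : ℤ)) (z := 0) (q := q) r0 r1
    rwa [mul_zero] at this
  rw [e1, qr_lt r0 r1, Int.le_ediv_iff_mul_le hN, Int.ediv_lt_iff_lt_mul hN]
  constructor
  · rintro ⟨⟨h2, h3⟩, h4, h5⟩
    exact ⟨⟨by omega, by omega⟩, by rw [mul_comm]; exact h4, by rw [mul_comm]; exact h5⟩
  · rintro ⟨⟨h2, h3⟩, h4, h5⟩
    exact ⟨⟨by omega, by omega⟩, by rw [mul_comm]; exact h4, by rw [mul_comm]; exact h5⟩

/-- the tiles of the shape belong to the window -/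
theorem tl_win (h : lt (x, y + 2 * n * y0) ∈ TL S.P.Q (2 * n)) : 0 ≤ y ∧ y < (winOf F n hn).h ∧
    (winOf F n hn).a y ≤ x ∧ x < (winOf F n hn).b y := by
  rw [tl_iff F hn] at h
  rw [winOf_a, winOf_b, winOf_h]
  have b1 := CW.dA_01 (C := cwOf F) (N := 2 * n) (q := y / (2 * n)) (r := y % (2 * n))
  have b2 := CW.dB_01 (C := cwOf F) (N := 2 * n) (q := y / (2 * n)) (r := y % (2 * n))
  exact ⟨h.1.1, h.1.2, by omega, by omega⟩

/-- the other tiles of the window are notches -/
theorem win_tl (h0 : 0 ≤ y) (h1 : y < (winOf F n hn).h) (h2 : (winOf F n hn).a y ≤ x)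
    (h3 : x < (winOf F n hn).b y) : lt (x, y + 2 * n * y0) ∈ TL S.P.Q (2 * n) ∨
    (x = 2 * n * a (y / (2 * n) + y0) - 1 ∧ (cwOf F).dA (2 * n) (y / (2 * n)) (y % (2 * n)) = 1) ∨
    (x = 2 * n * b (y / (2 * n) + y0) ∧ (cwOf F).dB (2 * n) (y / (2 * n)) (y % (2 * n)) = 1) := by
  rw [tl_iff F hn]
  rw [winOf_a] at h2
  rw [winOf_b] at h3
  rw [winOf_h] at h1
  have b1 := CW.dA_01 (C := cwOf F) (N := 2 * n) (q := y / (2 * n)) (r := y % (2 * n))
  have b2 := CW.dB_01 (C := cwOf F) (N := 2 * n) (q := y / (2 * n)) (r := y % (2 * n))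
  omega

end

/-! ### Fat windows -/

/-- windows of coarse data are fat -/
theorem CW.fat (C : CW) {N : ℤ} (h2 : 2 ≤ N) (he : N % 2 = 0) {L : ℤ} (hL : L ≤ N) (hL0 : 1 ≤ L) :
    (C.win N h2 he).Fat L where
  row := by
    intro y h0 h1
    change y < N * C.H at h1
    change C.wa N y + L ≤ C.wb N y
    obtain ⟨q, r, rfl, r0, r1⟩ := exists_qr (by omega : 0 < N) y
    have q0 : 0 ≤ q := (qr_le (z := 0) r0 r1).1 (by rw [mul_zero]; exact h0)
    have q1 : q < C.H := (qr_lt r0 r1).1 h1
    rw [CW.wa_qr r0 r1, CW.wb_qr r0 r1]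
    have b1 := CW.dA_01 (C := C) (N := N) (q := q) (r := r)
    have b2 := CW.dB_01 (C := C) (N := N) (q := q) (r := r)
    have := mul_gap (by omega : 0 < N) (C.ab q q0 q1)
    omega
  col := by
    intro x y h0 h1 h3 h4
    change y < N * C.H at h1
    change C.wa N y ≤ x at h3
    change x < C.wb N y at h4
    change ∃ y0, y0 ≤ y ∧ y < y0 + L ∧ ∀ z, y0 ≤ z → z < y0 + L → 0 ≤ z ∧ z < N * C.H ∧
      C.wa N z ≤ x ∧ x < C.wb N z
    obtain ⟨q, r, rfl, r0, r1⟩ := exists_qr (by omega : 0 < N) y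
    have q0 : 0 ≤ q := (qr_le (z := 0) r0 r1).1 (by rw [mul_zero]; exact h0)
    have q1 : q < C.H := (qr_lt r0 r1).1 h1
    rw [CW.wa_qr r0 r1] at h3
    rw [CW.wb_qr r0 r1] at h4
    have b1 := CW.dA_01 (C := C) (N := N) (q := q) (r := r)
    have b2 := CW.dB_01 (C := C) (N := N) (q := q) (r := r)
    have hin : ∀ q' r' : ℤ, 0 ≤ r' → r' < N → 0 ≤ q' → q' < C.H → N * C.A q' ≤ x → x < N * C.B q' →
        0 ≤ N * q' + r' ∧ N * q' + r' < N * C.H ∧ C.wa N (N * q' + r') ≤ x ∧
          x < C.wb N (N * q' + r') := by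
      intro q' r' g0 g1 g2 g3 g4 g5
      rw [CW.wa_qr g0 g1, CW.wb_qr g0 g1]
      have b1 := CW.dA_01 (C := C) (N := N) (q := q') (r := r')
      have b2 := CW.dB_01 (C := C) (N := N) (q := q') (r := r')
      exact ⟨add_nonneg (mul_nonneg (by omega) g2) g0, (qr_lt g0 g1).2 g3, by omega, by omega⟩
    have hgap := mul_gap (by omega : 0 < N) (C.ab q q0 q1)
    by_cases c1 : x < N * C.A q
    · have hd : C.dA N q r = 1 := by omega
      rcases CW.dA_one hd with ⟨g1, g2, g3, -⟩ | ⟨g1, g2, g3, -⟩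
      · -- the column goes up
        have hP := C.P1
        subst g2
        have k1 := mul_gap (by omega : 0 < N) g3
        have k2 := mul_gap (by omega : 0 < N) (C.ov1 q q0 (by omega))
        refine ⟨N * q + (N - 1), le_rfl, by omega, fun z z0 z1 => ?_⟩
        rcases eq_or_lt_of_le z0 with e | e
        · rw [← e, CW.wa_qr (by omega) (by omega), CW.wb_qr (by omega) (by omega)]
          exact ⟨h0, h1, h3, h4⟩
        · have := hin (q + 1) (z - N * (q + 1)) (by rw [mul_add, mul_one]; omega)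
            (by rw [mul_add, mul_one]; omega) (by omega) (by omega) (by omega) (by omega)
          rwa [add_sub_cancel] at this
      · -- the column goes down
        have hP := C.P0
        subst g2
        have k1 := mul_gap (by omega : 0 < N) g3
        have k2 := C.ov2 (q - 1) (by omega) (by omega)
        rw [sub_add_cancel] at k2
        have k3 := mul_gap (by omega : 0 < N) k2
        refine ⟨N * q + 0 - L + 1, by omega, by omega, fun z z0 z1 => ?_⟩
        rcases eq_or_lt_of_le (show z ≤ N * q + 0 by omega) with e | e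
        · rw [e, CW.wa_qr (by omega) (by omega), CW.wb_qr (by omega) (by omega)]
          exact ⟨h0, h1, h3, h4⟩
        · have := hin (q - 1) (z - N * (q - 1)) (by rw [mul_sub, mul_one]; omega)
            (by rw [mul_sub, mul_one]; omega) (by omega) (by omega) (by omega) (by omega)
          rwa [add_sub_cancel] at this
    · by_cases c2 : N * C.B q ≤ x
      · have hd : C.dB N q r = 1 := by omega
        rcases CW.dB_one hd with ⟨g1, g2, g3, -⟩ | ⟨g1, g2, g3, -⟩
        · have hQ := C.Q1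
          subst g2
          have k1 := mul_gap (by omega : 0 < N) g3
          have k2 := mul_gap (by omega : 0 < N) (C.ov2 q q0 (by omega))
          refine ⟨N * q + (N - 1), le_rfl, by omega, fun z z0 z1 => ?_⟩
          rcases eq_or_lt_of_le z0 with e | e
          · rw [← e, CW.wa_qr (by omega) (by omega), CW.wb_qr (by omega) (by omega)]
            exact ⟨h0, h1, h3, h4⟩
          · have := hin (q + 1) (z - N * (q + 1)) (by rw [mul_add, mul_one]; omega)
              (by rw [mul_add, mul_one]; omega) (by omega) (by omega) (by omega) (by omega)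
            rwa [add_sub_cancel] at this
        · have hQ := C.Q0
          subst g2
          have k1 := mul_gap (by omega : 0 < N) g3
          have k2 := C.ov1 (q - 1) (by omega) (by omega)
          rw [sub_add_cancel] at k2
          have k3 := mul_gap (by omega : 0 < N) k2
          refine ⟨N * q + 0 - L + 1, by omega, by omega, fun z z0 z1 => ?_⟩
          rcases eq_or_lt_of_le (show z ≤ N * q + 0 by omega) with e | e
          · rw [e, CW.wa_qr (by omega) (by omega), CW.wb_qr (by omega) (by omega)]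
            exact ⟨h0, h1, h3, h4⟩
          · have := hin (q - 1) (z - N * (q - 1)) (by rw [mul_sub, mul_one]; omega)
              (by rw [mul_sub, mul_one]; omega) (by omega) (by omega) (by omega) (by omega)
            rwa [add_sub_cancel] at this
      · refine ⟨min (N * q + r) (N * q + N - L), min_le_left _ _, ?_, fun z z0 z1 => ?_⟩
        · rcases min_cases (N * q + r) (N * q + N - L) with ⟨e, _⟩ | ⟨e, _⟩ <;> rw [e] <;> omega
        · have := hin q (z - N * q)
            (by rcases min_cases (N * q + r) (N * q + N - L) with ⟨e, _⟩ | ⟨e, _⟩ <;> omega)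
            (by rcases min_cases (N * q + r) (N * q + N - L) with ⟨e, _⟩ | ⟨e, _⟩ <;> omega)
            q0 q1 (by omega) (by omega)
          rwa [add_sub_cancel] at this

end Pool.Agent.H5.FM
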