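import Mathlib
import Pool.Agent.H5.FM.WinOf

set_option autoImplicit false
open Finset

/-! # No row with reflex corners at both ends

`Dis Q` : at no level both ends of the row of `Q` move outwards, and at no level both move inwards.
The windows of such a shape have no row with the reflex condition at both ends. -/

namespace Pool.Agent.H5.FM

open Pool.Agent.Q1.M4 (Cell)
open Pool.Agent.H21.FM (Shape)
open Pool.Agent.H46.Sp (Win)

/-- no level at which both ends of the row move in opposite directions -/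
def Dis (Q : Finset Cell) : Prop :=
  ∀ (y y' x0 x1 x : ℤ), (y' = y + 1 ∨ y' = y - 1) → x0 < x → x < x1 → (x0, y') ∈ Q → (x1, y') ∈ Q →
    (x, y) ∈ Q → (x0, y) ∈ Q ∨ (x1, y) ∈ Q

/-- the same for coarse windows -/
def CW.Dis (C : CW) : Prop := ∀ Y, 0 ≤ Y → Y + 1 < C.H →
  ¬ (C.A (Y + 1) < C.A Y ∧ C.B Y < C.B (Y + 1)) ∧ ¬ (C.A Y < C.A (Y + 1) ∧ C.B (Y + 1) < C.B Y)

section

variable {S : Shape} {y0 y1 : ℤ} {a b : ℤ → ℤ} {yP yQ : ℤ}

theorem dis_cwOf (F : RowF S.P.Q y0 y1 a b yP yQ) (h : Dis S.P.Q) : (cwOf F).Dis := by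
  intro Y h0 h1
  have h1' : Y + 1 < y1 - y0 := h1
  show ¬ (a (Y + 1 + y0) < a (Y + y0) ∧ b (Y + y0) < b (Y + 1 + y0)) ∧
    ¬ (a (Y + y0) < a (Y + 1 + y0) ∧ b (Y + 1 + y0) < b (Y + y0))
  have e : Y + 1 + y0 = Y + y0 + 1 := by ring
  rw [e]
  have k1 := F.ab (Y + y0) (by omega) (by omega)
  have k2 := F.ab (Y + y0 + 1) (by omega) (by omega)
  constructor
  · rintro ⟨h2, h3⟩
    have := h (Y + y0) (Y + y0 + 1) (a (Y + y0) - 1) (b (Y + y0)) (a (Y + y0)) (Or.inl rfl)
      (by omega) (by omega) ((F.mem _ _).2 (by omega)) ((F.mem _ _).2 (by omega))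
      ((F.mem _ _).2 (by omega))
    rw [F.mem, F.mem] at this
    omega
  · rintro ⟨h2, h3⟩
    have := h (Y + y0 + 1) (Y + y0) (a (Y + y0 + 1) - 1) (b (Y + y0 + 1)) (a (Y + y0 + 1))
      (Or.inr (by ring)) (by omega) (by omega) ((F.mem _ _).2 (by omega)) ((F.mem _ _).2 (by omega))
      ((F.mem _ _).2 (by omega))
    rw [F.mem, F.mem] at this
    omega

end

/-- reflex condition at the left end of the row `j` -/
def RfL (D : Win) (j : ℤ) : Prop :=
  if j < D.yP then j + 1 < D.yP ∧ D.a (j + 1) < D.a j else D.a (j - 1) < D.a j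

/-- reflex condition at the right end of the row `j` -/
def RfR (D : Win) (j : ℤ) : Prop :=
  if j < D.yQ then D.b j < D.b (j + 1) else D.yQ < j ∧ D.b j < D.b (j - 1)

namespace CW

variable {C : CW} {N q r : ℤ}

/-- position of the left reflex rows -/
lemma rfL_qr (h4 : 4 ≤ N) (q0 : 0 ≤ q) (qH : q < C.H) (r0 : 0 ≤ r) (r1 : r < N)
    (h : if N * q + r < N * C.YP then N * q + r + 1 < N * C.YP ∧
      C.wa N (N * q + r + 1) < C.wa N (N * q + r) else C.wa N (N * q + r - 1) < C.wa N (N * q + r)) :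
    (q + 1 < C.YP ∧ N - 2 ≤ r ∧ C.A (q + 1) < C.A q) ∨
      (C.YP ≤ q ∧ r ≤ 1 ∧ C.A (q - 1) < C.A q) := by
  have hN : 0 < N := by omega
  have d1 := C.dA_01 (N := N) (q := q) (r := r)
  split_ifs at h with g
  · left
    rw [qr_lt r0 r1] at g
    obtain ⟨h1, h2⟩ := h
    rw [wa_qr r0 r1] at h2
    by_cases e : r = N - 1
    · subst e
      rw [wa_q1 hN] at h2
      rw [show N * q + (N - 1) + 1 = N * (q + 1) + 0 by ring, qr_lt le_rfl hN] at h1
      have d2 := C.dA_lo (N := N) (q := q + 1) (r := 0) (by omega) (by omega)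
      rw [d2] at h2
      refine ⟨h1, by omega, ?_⟩
      by_contra h3
      rcases (not_lt.1 h3).lt_or_eq with g3 | g3
      · have := mul_gap hN g3
        omega
      · have d3 : C.dA N q (N - 1) = 0 := by
          unfold dA
          rw [if_neg]
          omega
        rw [d3, g3] at h2
        omega
    · rw [wa_r1 r0 (by omega), C.dA_lo (N := N) g e] at h2
      have d2 := C.dA_01 (N := N) (q := q) (r := r + 1)
      have d3 : C.dA N q (r + 1) = 1 := by omega
      rcases dA_one d3 with ⟨k1, k2, k3, -⟩ | ⟨k1, k2, -⟩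
      · exact ⟨k1, by omega, k3⟩
      · omega
  · right
    rw [qr_lt r0 r1] at g
    rw [wa_qr r0 r1] at h
    by_cases e : r = 0
    · subst e
      rw [show N * q + 0 - 1 = N * (q - 1) + (N - 1) by ring, wa_qr (by omega) (by omega)] at h
      have d2 : C.dA N (q - 1) (N - 1) = 0 := C.dA_hi (N := N) (by omega) (by omega)
      rw [d2] at h
      refine ⟨by omega, by omega, ?_⟩
      by_contra h3
      rcases (not_lt.1 h3).lt_or_eq with g3 | g3
      · have := mul_gap hN g3
        omega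
      · rw [g3] at h
        omega
    · rw [show N * q + r - 1 = N * q + (r - 1) by ring, wa_qr (by omega) (by omega),
        C.dA_hi (N := N) (by omega) e] at h
      have d2 := C.dA_01 (N := N) (q := q) (r := r - 1)
      have d3 : C.dA N q (r - 1) = 1 := by omega
      rcases dA_one d3 with ⟨k1, k2, -⟩ | ⟨k1, k2, k3, -⟩
      · omega
      · exact ⟨k1, by omega, k3⟩

/-- position of the right reflex rows -/
lemma rfR_qr (h4 : 4 ≤ N) (q0 : 0 ≤ q) (qH : q < C.H) (r0 : 0 ≤ r) (r1 : r < N)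
    (h : if N * q + r < N * C.YQ then C.wb N (N * q + r) < C.wb N (N * q + r + 1)
      else N * C.YQ < N * q + r ∧ C.wb N (N * q + r) < C.wb N (N * q + r - 1)) :
    (q < C.YQ ∧ N - 2 ≤ r ∧ C.B q < C.B (q + 1)) ∨ (C.YQ < q ∧ r ≤ 1 ∧ C.B q < C.B (q - 1)) := by
  have hN : 0 < N := by omega
  have d1 := C.dB_01 (N := N) (q := q) (r := r)
  split_ifs at h with g
  · left
    rw [qr_lt r0 r1] at g
    rw [wb_qr r0 r1] at h
    by_cases e : r = N - 1
    · subst e
      rw [wb_q1 hN] at h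
      have d2 := C.dB_lo (N := N) (q := q + 1) (r := 0) (by omega) (by omega)
      rw [d2] at h
      refine ⟨g, by omega, ?_⟩
      by_contra h3
      rcases (not_lt.1 h3).lt_or_eq with g3 | g3
      · have := mul_gap hN g3
        omega
      · rw [g3] at h
        omega
    · rw [wb_r1 r0 (by omega), C.dB_lo (N := N) g.le e] at h
      have d2 := C.dB_01 (N := N) (q := q) (r := r + 1)
      have d3 : C.dB N q (r + 1) = 1 := by omega
      rcases dB_one d3 with ⟨k1, k2, k3, -⟩ | ⟨k1, k2, -⟩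
      · exact ⟨k1, by omega, k3⟩
      · omega
  · right
    rw [qr_lt r0 r1] at g
    obtain ⟨h1, h2⟩ := h
    rw [wb_qr r0 r1] at h2
    by_cases e : r = 0
    · subst e
      have g2 : C.YQ < q := by
        by_contra g3
        have := mul_mon hN (not_lt.1 g3)
        omega
      rw [show N * q + 0 - 1 = N * (q - 1) + (N - 1) by ring, wb_qr (by omega) (by omega)] at h2
      have d2 : C.dB N (q - 1) (N - 1) = 0 := C.dB_hi (N := N) (by omega) (by omega)
      rw [d2] at h2
      refine ⟨g2, by omega, ?_⟩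
      by_contra h3
      rcases (not_lt.1 h3).lt_or_eq with g3 | g3
      · have := mul_gap hN g3
        omega
      · have d3 : C.dB N q 0 = 0 := by
          unfold dB
          rw [if_neg]
          omega
        rw [d3, g3] at h2
        omega
    · rw [show N * q + r - 1 = N * q + (r - 1) by ring, wb_qr (by omega) (by omega),
        C.dB_hi (N := N) (by omega) e] at h2
      have d2 := C.dB_01 (N := N) (q := q) (r := r - 1)
      have d3 : C.dB N q (r - 1) = 1 := by omega
      rcases dB_one d3 with ⟨k1, k2, -⟩ | ⟨k1, k2, k3, -⟩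
      · omega
      · exact ⟨k1, by omega, k3⟩

/-- **No row with the reflex condition at both ends**, coarse windows. -/
theorem dis_win (hC : C.Dis) (h4 : 4 ≤ N) (he : N % 2 = 0) (j : ℤ) (j0 : 0 ≤ j)
    (jH : j < (C.win N (by omega) he).h) :
    ¬ (RfL (C.win N (by omega) he) j ∧ RfR (C.win N (by omega) he) j) := by
  rintro ⟨hL, hR⟩
  have hN : 0 < N := by omega
  obtain ⟨q, r, rfl, r0, r1⟩ := exists_qr hN j
  have jH' : N * q + r < N * C.H := jH
  rw [qr_lt r0 r1] at jH'
  have q0 : 0 ≤ q := by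
    by_contra g
    have := mul_mon hN (show q ≤ -1 by omega)
    omega
  have k1 := rfL_qr h4 q0 jH' r0 r1 hL
  have k2 := rfR_qr h4 q0 jH' r0 r1 hR
  rcases k1 with ⟨a1, a2, a3⟩ | ⟨a1, a2, a3⟩
  · rcases k2 with ⟨b1, b2, b3⟩ | ⟨b1, b2, b3⟩
    · have := C.P1
      exact (hC q q0 (by omega)).1 ⟨a3, b3⟩
    · omega
  · rcases k2 with ⟨b1, b2, b3⟩ | ⟨b1, b2, b3⟩
    · omega
    · have := C.P0
      have := (hC (q - 1) (by omega) (by omega)).2
      rw [sub_add_cancel] at this
      exact this ⟨a3, b3⟩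

end CW

/-- **No row of the window of a shape of the class `Dis` has the reflex condition at both ends.** -/
theorem dis_win {S : Shape} {y0 y1 : ℤ} {a b : ℤ → ℤ} {yP yQ : ℤ}
    (F : RowF S.P.Q y0 y1 a b yP yQ) (hD : Dis S.P.Q) {n : ℕ} (hn : 1 ≤ n) (h2 : 2 ≤ n) (j : ℤ)
    (j0 : 0 ≤ j) (jH : j < (winOf F n hn).h) :
    ¬ (RfL (winOf F n hn) j ∧ RfR (winOf F n hn) j) :=
  CW.dis_win (dis_cwOf F hD) (by omega) (by omega) j j0 jH

end Pool.Agent.H5.FM
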