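import Mathlib
import Pool.Agent.H5.FM.Dis
import Pool.Agent.H66.FM.Good

set_option autoImplicit false
open Finset

/-! # Refinement of a polygon in row form

`Rf k` : every cell is cut into `k × k` cells and the left side of the boundary is moved up by one row.
The result has no level at which both ends of the row move in opposite directions. -/

namespace Pool.Agent.H5.FM

open Pool.Agent.H75.Perc (dir dir_cases)
open Pool.Agent.Q1.M4 (Cell Good IsSide nextSide PType Adj4 Conn4)
open Pool.Agent.H66.FM (Pa adj4_right adj4_up adj4_symm row row' col col')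

/-! ### Row forms are good -/

section

variable {Q : Finset Cell} {y0 y1 : ℤ} {a b : ℤ → ℤ} {yP yQ : ℤ} (F : RowF Q y0 y1 a b yP yQ)
include F

lemma RowF.a_anti {i m : ℤ} (h0 : y0 ≤ i) (h1 : i ≤ m) (h2 : m < yP) : a m ≤ a i := by
  induction m, h1 using Int.leInduction with
  | base => exact le_rfl
  | succ m hm ih =>
    have := F.aL m (by omega) h2
    have := ih (by omega)
    omega

lemma RowF.a_mono {i m : ℤ} (h0 : yP ≤ i) (h1 : i ≤ m) (h2 : m < y1) : a i ≤ a m := by
  induction m, h1 using Int.leInduction with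
  | base => exact le_rfl
  | succ m hm ih =>
    have := F.aU m (by omega) h2
    have := ih (by omega)
    omega

lemma RowF.b_mono {i m : ℤ} (h0 : y0 ≤ i) (h1 : i ≤ m) (h2 : m ≤ yQ) : b i ≤ b m := by
  induction m, h1 using Int.leInduction with
  | base => exact le_rfl
  | succ m hm ih =>
    have := F.bL m (by omega) h2
    have := ih (by omega)
    omega

lemma RowF.b_anti {i m : ℤ} (h0 : yQ ≤ i) (h1 : i ≤ m) (h2 : m < y1) : b m ≤ b i := by
  induction m, h1 using Int.leInduction with
  | base => exact le_rfl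
  | succ m hm ih =>
    have := F.bU m (by omega) h2
    have := ih (by omega)
    omega

/-- rows and columns are intervals -/
theorem RowF.hvc : HVC Q where
  row := by
    intro i i' k j h1 h2 h3 h4
    rw [F.mem] at h1 h2 ⊢
    omega
  col := by
    intro i j j' k h1 h2 h3 h4
    rw [F.mem] at h1 h2 ⊢
    refine ⟨by omega, ?_, ?_⟩
    · rcases lt_or_ge k yP with g | g
      · have := F.a_anti h1.1.1 h3 g
        omega
      · have := F.a_mono g h4 h2.1.2
        omega
    · rcases le_or_gt k yQ with g | g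
      · have := F.b_mono h1.1.1 h3 g
        omega
      · have := F.b_anti g.le h4 h2.1.2
        omega

/-- cells of one row are joined -/
lemma RowF.row_path {i i' j : ℤ} (h : (i, j) ∈ Q) (h' : (i', j) ∈ Q) :
    Pa (Q : Set Cell) (i, j) (i', j) := by
  rcases le_total i i' with g | g
  · exact row g (fun k h1 h2 => F.hvc.row _ _ k j h h' h1 h2)
  · exact row' g (fun k h1 h2 => F.hvc.row _ _ k j h' h h1 h2)

lemma RowF.conn_from (n : ℕ) : ∀ j, j = y0 + n → j < y1 → ∀ i, (i, j) ∈ Q →
    Pa (Q : Set Cell) (a y0, y0) (i, j) := by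
  have h00 : (a y0, y0) ∈ Q := (F.mem _ _).2 ⟨⟨le_rfl, F.y01⟩, le_rfl, F.ab _ le_rfl F.y01⟩
  induction n with
  | zero =>
    intro j hj hj1 i hi
    obtain rfl : j = y0 := by simpa using hj
    exact F.row_path h00 hi
  | succ n ih =>
    intro j hj hj1 i hi
    push_cast at hj
    have e : j = (j - 1) + 1 := by ring
    have h1 := F.ov1 (j - 1) (by omega) (by omega)
    have h2 := F.ov2 (j - 1) (by omega) (by omega)
    have h3 := F.ab (j - 1) (by omega) (by omega)
    have h4 := F.ab j (by omega) hj1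
    rw [← e] at h1 h2
    have m1 : (max (a (j - 1)) (a j), j - 1) ∈ Q := (F.mem _ _).2
      ⟨⟨by omega, by omega⟩, le_max_left _ _, max_lt h3 h2⟩
    have m2 : (max (a (j - 1)) (a j), j) ∈ Q := (F.mem _ _).2
      ⟨⟨by omega, hj1⟩, le_max_right _ _, max_lt h1 h4⟩
    have g1 := ih (j - 1) (by omega) (by omega) _ m1
    have g2 : Pa (Q : Set Cell) (max (a (j - 1)) (a j), j - 1) (max (a (j - 1)) (a j), j) := by
      refine Relation.ReflTransGen.single ⟨?_, m2⟩
      have := adj4_up (max (a (j - 1)) (a j)) (j - 1)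
      rwa [← e] at this
    exact (g1.trans g2).trans (F.row_path m2 hi)

/-- outside cells are joined with a far cell of the same row -/
lemma RowF.out_path {B : ℤ} (hB : ∀ j, y0 ≤ j → j < y1 → -B ≤ a j ∧ b j ≤ B) (hB0 : 0 ≤ B)
    {i j : ℤ} (h : (i, j) ∉ Q) :
    ∃ T : ℤ, B < |T| ∧ (T, j) ∉ Q ∧ Pa ((Q : Set Cell)ᶜ) (i, j) (T, j) := by
  by_cases hj : y0 ≤ j ∧ j < y1
  · have hb := hB j hj.1 hj.2
    rcases lt_or_ge i (a j) with g | g
    · refine ⟨min i (-B - 1), ?_, ?_, ?_⟩
      · rw [abs_of_neg (lt_of_le_of_lt (min_le_right _ _) (by omega))]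
        have := min_le_right i (-B - 1)
        omega
      · rw [F.mem]
        have := min_le_right i (-B - 1)
        omega
      · refine row' (min_le_left _ _) (fun k h1 h2 => ?_)
        show (k, j) ∉ Q
        rw [F.mem]
        omega
    · have g2 : b j ≤ i := by
        rw [F.mem] at h
        omega
      refine ⟨max i (B + 1), ?_, ?_, ?_⟩
      · rw [abs_of_pos (lt_of_lt_of_le (by omega) (le_max_right _ _))]
        have := le_max_right i (B + 1)
        omega
      · rw [F.mem]
        have := le_max_right i (B + 1)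
        omega
      · refine row (le_max_left _ _) (fun k h1 h2 => ?_)
        show (k, j) ∉ Q
        rw [F.mem]
        omega
  · refine ⟨max i (B + 1), ?_, ?_, ?_⟩
    · rw [abs_of_pos (lt_of_lt_of_le (by omega) (le_max_right _ _))]
      have := le_max_right i (B + 1)
      omega
    · rw [F.mem]
      omega
    · refine row (le_max_left _ _) (fun k h1 h2 => ?_)
      show (k, j) ∉ Q
      rw [F.mem]
      omega

/-- far cells are joined with each other -/
lemma RowF.far_path {B : ℤ} (hB : ∀ j, y0 ≤ j → j < y1 → -B ≤ a j ∧ b j ≤ B) {T j : ℤ}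
    (hT : B < |T|) : Pa ((Q : Set Cell)ᶜ) (T, j) (T, y0 - 1) := by
  have hc : ∀ l, (T, l) ∉ Q := by
    intro l
    rw [F.mem]
    rintro ⟨⟨h1, h2⟩, h3, h4⟩
    have := hB l h1 h2
    rcases abs_cases T with ⟨h5, h6⟩ | ⟨h5, h6⟩ <;> omega
  rcases le_total j (y0 - 1) with g | g
  · exact col g (fun k _ _ => hc k)
  · exact col' g (fun k _ _ => hc k)

/-- **Row forms are good polyominoes.** -/
theorem RowF.good : Good Q where
  ne := ⟨(a y0, y0), (F.mem _ _).2 ⟨⟨le_rfl, F.y01⟩, le_rfl, F.ab _ le_rfl F.y01⟩⟩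
  conn := by
    have h00 : (a y0, y0) ∈ Q := (F.mem _ _).2 ⟨⟨le_rfl, F.y01⟩, le_rfl, F.ab _ le_rfl F.y01⟩
    have key : ∀ c ∈ (Q : Set Cell), Pa (Q : Set Cell) (a y0, y0) c := by
      rintro ⟨i, j⟩ hc
      have hc' : (i, j) ∈ Q := hc
      obtain ⟨⟨h1, h2⟩, -⟩ := (F.mem _ _).1 hc'
      exact F.conn_from (j - y0).toNat j (by omega) h2 i hc'
    intro c hc d hd
    exact ((key c hc).symm h00).trans (key d hd)
  conn_compl := by
    obtain ⟨B, hB0, hB⟩ : ∃ B : ℤ, 0 ≤ B ∧ ∀ j, y0 ≤ j → j < y1 → -B ≤ a j ∧ b j ≤ B := by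
      obtain ⟨B1, h1⟩ := Prof.exists_bound a y0 y1
      obtain ⟨B2, h2⟩ := Prof.exists_bound b y0 y1
      refine ⟨|B1| + |B2|, by positivity, fun j j0 j1 => ?_⟩
      have e1 := h1 j j0 j1
      have e2 := h2 j j0 j1
      have e3 := le_abs_self B1
      have e4 := le_abs_self B2
      have e5 := abs_nonneg B1
      have e6 := abs_nonneg B2
      have e7 := abs_le.1 e1
      have e8 := abs_le.1 e2
      constructor <;> omega
    have key : ∀ c ∈ (Q : Set Cell)ᶜ, Pa ((Q : Set Cell)ᶜ) c (0, y0 - 1) := by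
      rintro ⟨i, j⟩ hc
      obtain ⟨T, h1, -, h3⟩ := F.out_path hB hB0 (show (i, j) ∉ Q from hc)
      refine (h3.trans (F.far_path hB h1)).trans ?_
      have hr : ∀ k, (k, y0 - 1) ∉ Q := fun k => by rw [F.mem]; omega
      rcases le_total T 0 with g | g
      · exact row g (fun k _ _ => hr k)
      · exact row' g (fun k _ _ => hr k)
    intro c hc d hd
    exact (key c hc).trans ((key d hd).symm hd)
  diag1 := by
    rintro ⟨i, j⟩ h1 h2
    have e1 : ((i, j) : Cell) + (1, 1) = (i + 1, j + 1) := rfl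
    have e2 : ((i, j) : Cell) + (1, 0) = (i + 1, j) := by ext <;> simp
    have e3 : ((i, j) : Cell) + (0, 1) = (i, j + 1) := by ext <;> simp
    rw [e1] at h2
    rw [e2, e3]
    rw [F.mem] at h1 h2 ⊢
    rw [F.mem]
    have := F.ov2 j (by omega) (by omega)
    omega
  diag2 := by
    rintro ⟨i, j⟩ h1 h2
    have e1 : ((i, j) : Cell) + (1, 1) = (i + 1, j + 1) := rfl
    have e2 : ((i, j) : Cell) + (1, 0) = (i + 1, j) := by ext <;> simp
    have e3 : ((i, j) : Cell) + (0, 1) = (i, j + 1) := by ext <;> simp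
    rw [e2] at h1
    rw [e3] at h2
    rw [e1]
    rw [F.mem] at h1 h2 ⊢
    rw [F.mem]
    have := F.ov1 j (by omega) (by omega)
    omega

end

/-! ### The refinement -/

/-- row of the left ends -/
def r3 (k y0 j : ℤ) : ℤ := max y0 ((j - 1) / k)

/-- The refined polygon. -/
noncomputable def Rf (k y0 y1 : ℤ) (a b : ℤ → ℤ) : Finset Cell :=
  (Ico (k * y0) (k * y1)).biUnion fun j =>
    (Ico (k * a (r3 k y0 j)) (k * b (j / k))).image fun x => (x, j)

variable {k y0 y1 : ℤ} {a b : ℤ → ℤ}

lemma mem_Rf {x j : ℤ} : (x, j) ∈ Rf k y0 y1 a b ↔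
    (k * y0 ≤ j ∧ j < k * y1) ∧ k * a (r3 k y0 j) ≤ x ∧ x < k * b (j / k) := by
  unfold Rf
  simp only [mem_biUnion, mem_Ico, mem_image, Prod.mk.injEq]
  constructor
  · rintro ⟨j', h1, x', h2, rfl, rfl⟩
    exact ⟨h1, h2⟩
  · rintro ⟨h1, h2⟩
    exact ⟨j, h1, x, h2, rfl, rfl⟩

/-- consecutive rows -/
lemma rel (hk : 2 ≤ k) (j : ℤ) : (j - 2) / k ≤ (j - 1) / k ∧ (j - 1) / k ≤ j / k ∧
    j / k ≤ (j + 1) / k ∧ j / k ≤ (j - 2) / k + 1 ∧ (j + 1) / k ≤ (j - 1) / k + 1 := by
  have h0 : 0 < k := by omega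
  refine ⟨Int.ediv_le_ediv h0 (by omega), Int.ediv_le_ediv h0 (by omega),
    Int.ediv_le_ediv h0 (by omega), ?_, ?_⟩
  · have e : (j - 2) / k + 1 = (j - 2 + k) / k := by
      rw [Int.add_ediv_of_dvd_right (dvd_refl k), Int.ediv_self h0.ne']
    rw [e]
    exact Int.ediv_le_ediv h0 (by omega)
  · have e : (j - 1) / k + 1 = (j - 1 + k) / k := by
      rw [Int.add_ediv_of_dvd_right (dvd_refl k), Int.ediv_self h0.ne']
    rw [e]
    exact Int.ediv_le_ediv h0 (by omega)

lemma relx (hk : 1 ≤ k) (x : ℤ) : x / k ≤ (x + 1) / k ∧ (x + 1) / k ≤ x / k + 1 ∧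
    (x - 1) / k ≤ x / k ∧ x / k ≤ (x - 1) / k + 1 := by
  have h0 : 0 < k := by omega
  refine ⟨Int.ediv_le_ediv h0 (by omega), ?_, Int.ediv_le_ediv h0 (by omega), ?_⟩
  · have e : x / k + 1 = (x + k) / k := by
      rw [Int.add_ediv_of_dvd_right (dvd_refl k), Int.ediv_self h0.ne']
    rw [e]
    exact Int.ediv_le_ediv h0 (by omega)
  · have e : (x - 1) / k + 1 = (x - 1 + k) / k := by
      rw [Int.add_ediv_of_dvd_right (dvd_refl k), Int.ediv_self h0.ne']
    rw [e]
    exact Int.ediv_le_ediv h0 (by omega)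

lemma row_lo (hk : 0 < k) {j y : ℤ} : k * y ≤ j ↔ y ≤ j / k := by
  rw [Int.le_ediv_iff_mul_le hk, mul_comm]

lemma row_hi (hk : 0 < k) {j y : ℤ} : j < k * y ↔ j / k < y := by
  rw [Int.ediv_lt_iff_lt_mul hk, mul_comm]

/-- cells of the refined polygon, with quotients -/
lemma mem_Rf' (hk : 0 < k) {x j : ℤ} : (x, j) ∈ Rf k y0 y1 a b ↔
    (y0 ≤ j / k ∧ j / k < y1) ∧ a (r3 k y0 j) ≤ x / k ∧ x / k < b (j / k) := by
  rw [mem_Rf, row_lo hk, row_hi hk, row_lo hk, row_hi hk]

/-- the left row is the right row or the one below -/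
lemma r3_cases (hk : 2 ≤ k) {j : ℤ} (h : y0 ≤ j / k) :
    r3 k y0 j = j / k ∨ (r3 k y0 j = j / k - 1 ∧ (j - 1) / k = j / k - 1 ∧ y0 ≤ j / k - 1) := by
  have := rel hk j
  unfold r3
  omega

variable {Q : Finset Cell} {yP yQ : ℤ}

/-- top corner of the leftmost side -/
def rP (k y1 yP : ℤ) : ℤ := if yP < y1 then k * yP + 1 else k * y1

/-- **The refined polygon in row form.** -/
theorem rowF_Rf (F : RowF Q y0 y1 a b yP yQ) (hk : 2 ≤ k) :
    RowF (Rf k y0 y1 a b) (k * y0) (k * y1) (fun j => k * a (r3 k y0 j)) (fun j => k * b (j / k))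
      (rP k y1 yP) (k * yQ) := by
  have h0 : 0 < k := by omega
  have mono : ∀ {u v : ℤ}, u < v → k * u < k * v := fun h => mul_lt_mul_of_pos_left h h0
  have monole : ∀ {u v : ℤ}, u ≤ v → k * u ≤ k * v := fun h => mul_le_mul_of_nonneg_left h h0.le
  have hP := F.P0
  have hP1 := F.P1
  have eP : (k * yP - 1) / k = yP - 1 := by
    rw [show k * yP - 1 = (k - 1) + k * (yP - 1) by ring, Int.add_mul_ediv_left _ _ h0.ne',
      Int.ediv_eq_zero_of_lt (by omega) (by omega), zero_add]
  have eP0 : (k * yP) / k = yP := Int.mul_ediv_cancel_left _ h0.ne'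
  have gap : ∀ {u v : ℤ}, u < v → k * u + k ≤ k * v := by
    intro u v h
    have := monole (show u + 1 ≤ v by omega)
    rwa [mul_add, mul_one] at this
  refine
    { y01 := mono F.y01
      mem := fun i j => mem_Rf
      ab := ?_
      ov1 := ?_
      ov2 := ?_
      P0 := ?_
      P1 := ?_
      Q0 := monole F.Q0
      Q1 := mono F.Q1
      aL := ?_
      aP := ?_
      aU := ?_
      bL := ?_
      bQ := ?_
      bU := ?_ }
  · intro j h1 h2
    rw [row_lo h0] at h1
    rw [row_hi h0] at h2
    apply mono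
    rcases r3_cases hk h1 with e | ⟨e, -, e2⟩
    · rw [e]; exact F.ab _ h1 h2
    · rw [e]
      have := F.ov1 (j / k - 1) e2 (by omega)
      rwa [sub_add_cancel] at this
  · intro j h1 h2
    rw [row_lo h0] at h1
    rw [row_hi h0] at h2
    apply mono
    have r := rel hk j
    rcases r3_cases hk h1 with e | ⟨e, e1, e2⟩
    · rw [e]
      rcases (show (j + 1) / k = j / k ∨ (j + 1) / k = j / k + 1 by omega) with g | g
      · rw [g]; exact F.ab _ h1 (by omega)
      · rw [g]; exact F.ov1 _ h1 (by omega)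
    · rw [e, show (j + 1) / k = j / k by omega]
      have := F.ov1 (j / k - 1) e2 (by omega)
      rwa [sub_add_cancel] at this
  · intro j h1 h2
    rw [row_lo h0] at h1
    rw [row_hi h0] at h2
    apply mono
    have r := rel hk j
    have e : r3 k y0 (j + 1) = j / k := by
      unfold r3
      rw [add_sub_cancel_right]
      omega
    rw [e]
    exact F.ab _ h1 (by omega)
  · unfold rP
    split_ifs with g
    · have := mono hP; omega
    · exact mono F.y01
  · unfold rP
    split_ifs with g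
    · have := gap g; omega
    · exact le_rfl
  · intro j h1 h2
    have h3 : j / k < yP := by
      unfold rP at h2
      split_ifs at h2 with g
      · rw [← row_hi h0]; omega
      · rw [← row_hi h0]
        have : yP = y1 := by omega
        rw [this]; omega
    rw [row_lo h0] at h1
    apply monole
    have r := rel hk j
    have e : r3 k y0 (j + 1) = j / k := by
      unfold r3
      rw [add_sub_cancel_right]
      omega
    rw [e]
    rcases r3_cases hk h1 with e | ⟨e, e1, e2⟩
    · rw [e]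
    · rw [e]
      have := F.aL (j / k - 1) e2 (by omega)
      rwa [sub_add_cancel] at this
  · intro h
    have g : yP < y1 := by
      by_contra g
      unfold rP at h
      rw [if_neg g] at h
      omega
    unfold rP
    rw [if_pos g, add_sub_cancel_right]
    apply mono
    have e1 : r3 k y0 (k * yP) = yP - 1 := by
      unfold r3
      rw [eP]; omega
    have e2 : r3 k y0 (k * yP + 1) = yP := by
      unfold r3
      rw [add_sub_cancel_right, eP0]; omega
    rw [e1, e2]
    exact F.aP g
  · intro j h1 h2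
    have g : yP < y1 := by
      by_contra g
      unfold rP at h1
      rw [if_neg g] at h1
      omega
    unfold rP at h1
    rw [if_pos g] at h1
    have h3 : yP ≤ (j - 1) / k := by rw [← row_lo h0]; omega
    rw [row_hi h0] at h2
    apply monole
    have r := rel hk j
    have e : r3 k y0 (j + 1) = j / k := by
      unfold r3
      rw [add_sub_cancel_right]
      omega
    have e' : r3 k y0 j = (j - 1) / k := by
      unfold r3
      omega
    rw [e, e']
    rcases (show j / k = (j - 1) / k ∨ j / k = (j - 1) / k + 1 by omega) with g | g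
    · rw [g]
    · rw [g]; exact F.aU _ h3 (by omega)
  · intro j h1 h2
    rw [row_lo h0] at h1
    have h3 : (j + 1) / k ≤ yQ := by
      have := Int.ediv_le_ediv h0 h2
      rwa [Int.mul_ediv_cancel_left _ h0.ne'] at this
    apply monole
    have r := rel hk j
    rcases (show (j + 1) / k = j / k ∨ (j + 1) / k = j / k + 1 by omega) with g | g
    · rw [g]
    · rw [g]; exact F.bL _ h1 (by omega)
  · intro h
    have h1 : y0 < yQ := by
      by_contra g
      have := monole (not_lt.1 g)
      omega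
    apply mono
    rw [Int.mul_ediv_cancel_left _ h0.ne', show k * yQ - 1 = (k - 1) + k * (yQ - 1) by ring,
      Int.add_mul_ediv_left _ _ h0.ne', Int.ediv_eq_zero_of_lt (by omega) (by omega), zero_add]
    exact F.bQ h1
  · intro j h1 h2
    rw [row_lo h0] at h1
    rw [row_hi h0] at h2
    apply monole
    have r := rel hk j
    rcases (show (j + 1) / k = j / k ∨ (j + 1) / k = j / k + 1 by omega) with g | g
    · rw [g]
    · rw [g]; exact F.bU _ h1 (by omega)

/-- **The refined polygon is in the class `Dis`.** -/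
theorem dis_Rf (hk : 2 ≤ k) : Dis (Rf k y0 y1 a b) := by
  have h0 : 0 < k := by omega
  intro y y' x0 x1 x hy hx0 hx1 h1 h2 h3
  by_contra hcon
  rw [not_or] at hcon
  obtain ⟨h4, h5⟩ := hcon
  rw [mem_Rf] at h1 h2 h3 h4 h5
  have k1 : k * a (r3 k y0 y') < k * a (r3 k y0 y) := by omega
  have k2 : k * b (y / k) < k * b (y' / k) := by omega
  have k3 : r3 k y0 y' ≠ r3 k y0 y := fun e => by rw [e] at k1; omega
  have k4 : y / k ≠ y' / k := fun e => by rw [e] at k2; omega
  have r := rel hk y
  have g0 := (row_lo h0).1 h3.1.1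
  rcases hy with rfl | rfl
  · unfold r3 at k3
    rw [add_sub_cancel_right] at k3
    omega
  · unfold r3 at k3
    rw [show y - 1 - 1 = y - 2 by ring] at k3
    omega

end Pool.Agent.H5.FM
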