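import Mathlib
import Pool.Agent.H5.FM.Rfn1

set_option autoImplicit false
open Finset

/-! # The boundary walk of the refined polygon

`rpj` sends the sides of the refined polygon to sides of the polygon; a step of the walk is sent to a step
or to nothing. -/

namespace Pool.Agent.H5.FM

open Pool.Agent.H75.Perc (dir dir_cases)
open Pool.Agent.Q1.M4 (Cell Good IsSide nextSide PType Adj4 Conn4 isSide_next)

/-- side of the polygon for a side of the refined polygon -/
def rpj (k y0 : ℤ) (s : Cell × ℤ) : Cell × ℤ :=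
  ((s.1.1 / k, if s.2 % 4 = 0 ∨ s.2 % 4 = 1 then s.1.2 / k else r3 k y0 s.1.2), s.2)

variable {k y0 y1 : ℤ} {a b : ℤ → ℤ} {x j d : ℤ}

lemma rpj01 (h : d % 4 = 0 ∨ d % 4 = 1) : rpj k y0 ((x, j), d) = ((x / k, j / k), d) := by
  unfold rpj
  simp only
  rw [if_pos h]

lemma rpj23 (h : d % 4 = 2 ∨ d % 4 = 3) : rpj k y0 ((x, j), d) = ((x / k, r3 k y0 j), d) := by
  unfold rpj
  simp only
  rw [if_neg (by omega)]

lemma rpj_add (s : Cell × ℤ) {e : ℤ} (he : e % 4 = 0) :
    rpj k y0 (s.1, s.2 + e) = ((rpj k y0 s).1, (rpj k y0 s).2 + e) := by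
  obtain ⟨⟨x, j⟩, d⟩ := s
  unfold rpj
  simp only
  have : (d + e) % 4 = d % 4 := by omega
  rw [this]

lemma rpj_snd (s : Cell × ℤ) : (rpj k y0 s).2 = s.2 := rfl

lemma r3_succ {j : ℤ} (h : y0 ≤ j / k) : r3 k y0 (j + 1) = j / k := by
  unfold r3
  rw [add_sub_cancel_right]
  omega

lemma r3_pred {j : ℤ} : r3 k y0 (j - 1) = max y0 ((j - 2) / k) := by
  unfold r3
  rw [show j - 1 - 1 = j - 2 by ring]

section

variable {Q : Finset Cell} {yP yQ : ℤ} (F : RowF Q y0 y1 a b yP yQ) (hk : 2 ≤ k)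
include F hk

lemma step0 (hd : d % 4 = 0) (h1 : (x, j) ∈ Rf k y0 y1 a b) (h2 : (x, j - 1) ∉ Rf k y0 y1 a b) :
    IsSide Q (rpj k y0 ((x, j), d)) ∧
    (rpj k y0 (nextSide (Rf k y0 y1 a b) ((x, j), d)) = rpj k y0 ((x, j), d) ∨
      rpj k y0 (nextSide (Rf k y0 y1 a b) ((x, j), d)) = nextSide Q (rpj k y0 ((x, j), d))) := by
  have h0 : 0 < k := by omega
  have rr := rel hk j
  have rx := relx (show 1 ≤ k by omega) x
  rw [mem_Rf' h0] at h1 h2
  rw [rpj01 (Or.inl hd), isSide0 hd, next0 hd, next0 hd]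
  obtain ⟨⟨j0, j1⟩, h3, h4⟩ := h1
  have hab := F.ab _ j0 j1
  -- classification
  have cl : (j / k = y0 ∧ (j - 1) / k < y0 ∧ r3 k y0 j = j / k) ∨
      (y0 ≤ j / k - 1 ∧ r3 k y0 j = j / k - 1 ∧ (j - 1) / k = j / k - 1 ∧
        r3 k y0 (j - 1) = j / k - 1 ∧ b (j / k - 1) ≤ x / k) ∨
      (y0 ≤ j / k - 1 ∧ r3 k y0 j = j / k ∧ (j - 1) / k = j / k ∧ r3 k y0 (j - 1) = j / k - 1 ∧
        x / k < a (j / k - 1)) := by
    rcases r3_cases hk j0 with e | ⟨e, e1, e2⟩
    · rcases lt_or_ge ((j - 1) / k) y0 with g | g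
      · exact Or.inl ⟨by omega, g, e⟩
      · have e3 : (j - 1) / k = j / k := by
          unfold r3 at e; omega
        right; right
        rcases (show r3 k y0 (j - 1) = j / k ∨ (r3 k y0 (j - 1) = j / k - 1 ∧ y0 ≤ j / k - 1) by
          rw [r3_pred]; omega) with e4 | ⟨e4, e5⟩
        · exfalso
          apply h2
          rw [e4, e3]
          rw [e] at h3
          exact ⟨⟨j0, j1⟩, h3, h4⟩
        · refine ⟨e5, e, e3, e4, ?_⟩
          by_contra g2
          apply h2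
          rw [e4, e3]
          exact ⟨⟨j0, j1⟩, not_lt.1 g2, h4⟩
    · have e4 : r3 k y0 (j - 1) = j / k - 1 := by
        rw [r3_pred]; omega
      refine Or.inr (Or.inl ⟨e2, e, e1, e4, ?_⟩)
      by_contra g2
      apply h2
      rw [e4, e1]
      rw [e] at h3
      exact ⟨⟨e2, by omega⟩, h3, not_le.1 g2⟩
  rcases cl with ⟨c1, c2, c3⟩ | ⟨c1, c2, c3, c4, c5⟩ | ⟨c1, c2, c3, c4, c5⟩
  · -- bottom row
    rw [c3] at h3
    refine ⟨⟨(F.mem _ _).2 ⟨⟨j0, j1⟩, h3, h4⟩, fun h => ?_⟩, ?_⟩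
    · rw [F.mem] at h; omega
    have n1 : (x + 1, j - 1) ∉ Rf k y0 y1 a b := by rw [mem_Rf' h0]; omega
    have n2 : (x / k + 1, j / k - 1) ∉ Q := by rw [F.mem]; omega
    rw [if_neg n1, if_neg n2]
    by_cases g : (x + 1, j) ∈ Rf k y0 y1 a b
    · rw [if_pos g, rpj01 (Or.inl hd)]
      rw [mem_Rf' h0, c3] at g
      rcases (show (x + 1) / k = x / k ∨ (x + 1) / k = x / k + 1 by omega) with e | e
      · left; rw [e]
      · right; rw [e, if_pos ((F.mem _ _).2 (by omega))]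
    · rw [if_neg g, rpj01 (by omega)]
      rw [mem_Rf' h0, c3] at g
      right
      rw [if_neg (fun h => ?_)]
      rw [F.mem] at h; omega
  · -- right ledge
    have o2 := F.ov2 _ c1 (by omega)
    rw [sub_add_cancel] at o2
    refine ⟨⟨(F.mem _ _).2 ⟨⟨j0, j1⟩, by omega, h4⟩, fun h => ?_⟩, ?_⟩
    · rw [F.mem] at h; omega
    have n1 : (x + 1, j - 1) ∉ Rf k y0 y1 a b := by rw [mem_Rf' h0, c3]; omega
    have n2 : (x / k + 1, j / k - 1) ∉ Q := by rw [F.mem]; omega
    rw [if_neg n1, if_neg n2]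
    rw [c2] at h3
    by_cases g : (x + 1, j) ∈ Rf k y0 y1 a b
    · rw [if_pos g, rpj01 (Or.inl hd)]
      rw [mem_Rf' h0, c2] at g
      rcases (show (x + 1) / k = x / k ∨ (x + 1) / k = x / k + 1 by omega) with e | e
      · left; rw [e]
      · right; rw [e, if_pos ((F.mem _ _).2 (by omega))]
    · rw [if_neg g, rpj01 (by omega)]
      rw [mem_Rf' h0, c2] at g
      right
      rw [if_neg (fun h => ?_)]
      rw [F.mem] at h; omega
  · -- left ledge
    have o1 := F.ov1 _ c1 (by omega)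
    rw [sub_add_cancel] at o1
    have ab' := F.ab _ c1 (by omega)
    rw [c2] at h3
    refine ⟨⟨(F.mem _ _).2 ⟨⟨j0, j1⟩, by omega, h4⟩, fun h => ?_⟩, ?_⟩
    · rw [F.mem] at h; omega
    by_cases g1 : (x + 1, j - 1) ∈ Rf k y0 y1 a b
    · rw [if_pos g1, rpj23 (by omega)]
      rw [mem_Rf' h0, c3, c4] at g1
      right
      rw [if_pos ((F.mem _ _).2 (by omega)), c4, show (x + 1) / k = x / k + 1 by omega]
    · rw [if_neg g1]
      rw [mem_Rf' h0, c3, c4] at g1
      have g : (x + 1, j) ∈ Rf k y0 y1 a b := by rw [mem_Rf' h0, c2]; omega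
      rw [if_pos g, rpj01 (Or.inl hd)]
      rcases (show (x + 1) / k = x / k ∨ (x + 1) / k = x / k + 1 by omega) with e | e
      · left; rw [e]
      · right
        rw [e, if_neg (fun h => ?_), if_pos ((F.mem _ _).2 (by omega))]
        rw [F.mem] at h; omega

lemma step1 (hd : d % 4 = 1) (h1 : (x, j) ∈ Rf k y0 y1 a b) (h2 : (x + 1, j) ∉ Rf k y0 y1 a b) :
    IsSide Q (rpj k y0 ((x, j), d)) ∧
    (rpj k y0 (nextSide (Rf k y0 y1 a b) ((x, j), d)) = rpj k y0 ((x, j), d) ∨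
      rpj k y0 (nextSide (Rf k y0 y1 a b) ((x, j), d)) = nextSide Q (rpj k y0 ((x, j), d))) := by
  have h0 : 0 < k := by omega
  have rr := rel hk j
  have rx := relx (show 1 ≤ k by omega) x
  rw [mem_Rf' h0] at h1 h2
  rw [rpj01 (Or.inr hd), isSide1 hd, next1 hd, next1 hd]
  obtain ⟨⟨j0, j1⟩, h3, h4⟩ := h1
  have hab := F.ab _ j0 j1
  have e1 : (x + 1) / k = x / k + 1 := by omega
  have e2 : x / k + 1 = b (j / k) := by omega
  have e3 : r3 k y0 (j + 1) = j / k := r3_succ j0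
  refine ⟨⟨(F.mem _ _).2 ⟨⟨j0, j1⟩, by omega, h4⟩, fun h => ?_⟩, ?_⟩
  · rw [F.mem] at h; omega
  rcases (show (j + 1) / k = j / k ∨ (j + 1) / k = j / k + 1 by omega) with w | w
  · have n1 : (x + 1, j + 1) ∉ Rf k y0 y1 a b := by rw [mem_Rf' h0, w, e3]; omega
    have g : (x, j + 1) ∈ Rf k y0 y1 a b := by rw [mem_Rf' h0, w, e3]; omega
    rw [if_neg n1, if_pos g, rpj01 (Or.inr hd), w]
    left; trivial
  · have e4 : r3 k y0 j = j / k := by unfold r3; omega
    by_cases g1 : (x + 1, j + 1) ∈ Rf k y0 y1 a b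
    · rw [if_pos g1, rpj01 (by omega)]
      rw [mem_Rf' h0, w, e3] at g1
      have o2 := F.ov2 _ j0 (by omega)
      right
      rw [e1, w, if_pos ((F.mem _ _).2 (by omega))]
    · rw [if_neg g1]
      rw [mem_Rf' h0, w, e3] at g1
      by_cases g : (x, j + 1) ∈ Rf k y0 y1 a b
      · rw [if_pos g, rpj01 (Or.inr hd)]
        rw [mem_Rf' h0, w, e3] at g
        have o2 := F.ov2 _ j0 (by omega)
        right
        rw [w, if_neg (fun h => ?_), if_pos ((F.mem _ _).2 (by omega))]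
        rw [F.mem] at h; omega
      · rw [if_neg g, rpj23 (by omega), e4]
        rw [mem_Rf' h0, w, e3] at g
        right
        rw [if_neg (fun h => ?_), if_neg (fun h => ?_)]
        · rw [F.mem] at h; omega
        · rw [F.mem] at h; omega

lemma step2 (hd : d % 4 = 2) (h1 : (x, j) ∈ Rf k y0 y1 a b) (h2 : (x, j + 1) ∉ Rf k y0 y1 a b) :
    IsSide Q (rpj k y0 ((x, j), d)) ∧
    (rpj k y0 (nextSide (Rf k y0 y1 a b) ((x, j), d)) = rpj k y0 ((x, j), d) ∨
      rpj k y0 (nextSide (Rf k y0 y1 a b) ((x, j), d)) = nextSide Q (rpj k y0 ((x, j), d))) := by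
  have h0 : 0 < k := by omega
  have rr := rel hk j
  have rx := relx (show 1 ≤ k by omega) x
  rw [mem_Rf' h0] at h1 h2
  rw [rpj23 (Or.inl hd), isSide2 hd, next2 hd, next2 hd]
  obtain ⟨⟨j0, j1⟩, h3, h4⟩ := h1
  have hab := F.ab _ j0 j1
  have e3 : r3 k y0 (j + 1) = j / k := r3_succ j0
  rw [e3] at h2
  rcases lt_or_ge (x / k) (a (j / k)) with g | g
  · -- left ledge
    obtain ⟨c1, c2, c3⟩ : r3 k y0 j = j / k - 1 ∧ (j - 1) / k = j / k - 1 ∧ y0 ≤ j / k - 1 := by
      rcases r3_cases hk j0 with e | e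
      · rw [e] at h3; omega
      · exact e
    have o2 := F.ov2 _ c3 (by omega)
    rw [sub_add_cancel] at o2
    rw [c1] at h3 ⊢
    refine ⟨⟨(F.mem _ _).2 ⟨⟨c3, by omega⟩, h3, by omega⟩, fun h => ?_⟩, ?_⟩
    · rw [F.mem, sub_add_cancel] at h; omega
    have n1 : (x - 1, j + 1) ∉ Rf k y0 y1 a b := by rw [mem_Rf' h0, e3]; omega
    have n2 : (x / k - 1, j / k - 1 + 1) ∉ Q := by rw [F.mem, sub_add_cancel]; omega
    rw [if_neg n1, if_neg n2]
    by_cases g2 : (x - 1, j) ∈ Rf k y0 y1 a b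
    · rw [if_pos g2, rpj23 (Or.inl hd), c1]
      rw [mem_Rf' h0, c1] at g2
      rcases (show (x - 1) / k = x / k ∨ (x - 1) / k = x / k - 1 by omega) with e | e
      · left; rw [e]
      · right; rw [e, if_pos ((F.mem _ _).2 (by omega))]
    · rw [if_neg g2, rpj23 (by omega), c1]
      rw [mem_Rf' h0, c1] at g2
      right
      rw [if_neg (fun h => ?_)]
      rw [F.mem] at h; omega
  · -- right ledge or top
    have w : (j + 1) / k = j / k + 1 := by
      by_contra w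
      have : (j + 1) / k = j / k := by omega
      rw [this] at h2; omega
    have e4 : r3 k y0 j = j / k := by unfold r3; omega
    rw [w] at h2
    rw [e4]
    refine ⟨⟨(F.mem _ _).2 ⟨⟨j0, j1⟩, g, h4⟩, fun h => ?_⟩, ?_⟩
    · rw [F.mem] at h; omega
    by_cases g1 : (x - 1, j + 1) ∈ Rf k y0 y1 a b
    · rw [if_pos g1, rpj01 (by omega)]
      rw [mem_Rf' h0, w, e3] at g1
      have ab' := F.ab (j / k + 1) (by omega) (by omega)
      right
      rw [w, show (x - 1) / k = x / k - 1 by omega, if_pos ((F.mem _ _).2 (by omega))]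
    · rw [if_neg g1]
      rw [mem_Rf' h0, w, e3] at g1
      by_cases g2 : (x - 1, j) ∈ Rf k y0 y1 a b
      · rw [if_pos g2, rpj23 (Or.inl hd), e4]
        rw [mem_Rf' h0, e4] at g2
        rcases (show (x - 1) / k = x / k ∨ (x - 1) / k = x / k - 1 by omega) with e | e
        · left; rw [e]
        · right
          rw [e, if_neg (fun h => ?_), if_pos ((F.mem _ _).2 (by omega))]
          rw [F.mem] at h; omega
      · rw [if_neg g2, rpj23 (by omega), e4]
        rw [mem_Rf' h0, e4] at g2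
        have hx : x / k = a (j / k) := by omega
        right
        rw [if_neg (fun h => ?_), if_neg (fun h => ?_)]
        · rw [F.mem] at h; omega
        · rw [F.mem] at h
          have o1 := F.ov1 _ j0 (by omega)
          omega

lemma step3 (hd : d % 4 = 3) (h1 : (x, j) ∈ Rf k y0 y1 a b) (h2 : (x - 1, j) ∉ Rf k y0 y1 a b) :
    IsSide Q (rpj k y0 ((x, j), d)) ∧
    (rpj k y0 (nextSide (Rf k y0 y1 a b) ((x, j), d)) = rpj k y0 ((x, j), d) ∨
      rpj k y0 (nextSide (Rf k y0 y1 a b) ((x, j), d)) = nextSide Q (rpj k y0 ((x, j), d))) := by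
  have h0 : 0 < k := by omega
  have rr := rel hk j
  have rx := relx (show 1 ≤ k by omega) x
  rw [mem_Rf' h0] at h1 h2
  rw [rpj23 (Or.inr hd), isSide3 hd, next3 hd, next3 hd]
  obtain ⟨⟨j0, j1⟩, h3, h4⟩ := h1
  have hab := F.ab _ j0 j1
  have e1 : (x - 1) / k = x / k - 1 := by omega
  have e2 : x / k = a (r3 k y0 j) := by omega
  rcases r3_cases hk j0 with e | ⟨c1, c2, c3⟩
  · rw [e] at h3 e2 ⊢
    refine ⟨⟨(F.mem _ _).2 ⟨⟨j0, j1⟩, h3, h4⟩, fun h => ?_⟩, ?_⟩
    · rw [F.mem] at h; omega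
    rcases lt_or_ge ((j - 1) / k) y0 with g | g
    · have n1 : (x - 1, j - 1) ∉ Rf k y0 y1 a b := by rw [mem_Rf' h0]; omega
      have n2 : (x, j - 1) ∉ Rf k y0 y1 a b := by rw [mem_Rf' h0]; omega
      rw [if_neg n1, if_neg n2, rpj01 (by omega)]
      right
      rw [if_neg (fun h => ?_), if_neg (fun h => ?_)]
      · rw [F.mem] at h; omega
      · rw [F.mem] at h; omega
    · have e3 : (j - 1) / k = j / k := by unfold r3 at e; omega
      rcases (show r3 k y0 (j - 1) = j / k ∨ (r3 k y0 (j - 1) = j / k - 1 ∧ y0 ≤ j / k - 1) by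
        rw [r3_pred]; omega) with e4 | ⟨e4, e5⟩
      · have n1 : (x - 1, j - 1) ∉ Rf k y0 y1 a b := by rw [mem_Rf' h0, e4, e3]; omega
        have n2 : (x, j - 1) ∈ Rf k y0 y1 a b := by rw [mem_Rf' h0, e4, e3]; omega
        rw [if_neg n1, if_pos n2, rpj23 (Or.inr hd), e4]
        left; trivial
      · have ab' := F.ab _ e5 (by omega)
        have o2 := F.ov2 _ e5 (by omega)
        rw [sub_add_cancel] at o2
        by_cases g1 : (x - 1, j - 1) ∈ Rf k y0 y1 a b
        · rw [if_pos g1, rpj23 (by omega), e4]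
          rw [mem_Rf' h0, e4, e3] at g1
          right
          rw [e1, if_pos ((F.mem _ _).2 (by omega))]
        · rw [if_neg g1]
          rw [mem_Rf' h0, e4, e3] at g1
          by_cases g2 : (x, j - 1) ∈ Rf k y0 y1 a b
          · rw [if_pos g2, rpj23 (Or.inr hd), e4]
            rw [mem_Rf' h0, e4, e3] at g2
            right
            rw [if_neg (fun h => ?_), if_pos ((F.mem _ _).2 (by omega))]
            rw [F.mem] at h; omega
          · rw [if_neg g2, rpj01 (by omega)]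
            rw [mem_Rf' h0, e4, e3] at g2
            right
            rw [if_neg (fun h => ?_), if_neg (fun h => ?_)]
            · rw [F.mem] at h; omega
            · rw [F.mem] at h; omega
  · have e4 : r3 k y0 (j - 1) = j / k - 1 := by rw [r3_pred]; omega
    have ab' := F.ab _ c3 (by omega)
    rw [c1] at h3 e2 ⊢
    refine ⟨⟨(F.mem _ _).2 ⟨⟨c3, by omega⟩, h3, by omega⟩, fun h => ?_⟩, ?_⟩
    · rw [F.mem] at h; omega
    have n1 : (x - 1, j - 1) ∉ Rf k y0 y1 a b := by rw [mem_Rf' h0, e4, c2]; omega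
    have n2 : (x, j - 1) ∈ Rf k y0 y1 a b := by rw [mem_Rf' h0, e4, c2]; omega
    rw [if_neg n1, if_pos n2, rpj23 (Or.inr hd), e4]
    left; trivial

/-- **A step of the walk of the refined polygon is sent to a step or to nothing.** -/
theorem rpj_step {s : Cell × ℤ} (hs : IsSide (Rf k y0 y1 a b) s) :
    IsSide Q (rpj k y0 s) ∧ (rpj k y0 (nextSide (Rf k y0 y1 a b) s) = rpj k y0 s ∨
      rpj k y0 (nextSide (Rf k y0 y1 a b) s) = nextSide Q (rpj k y0 s)) := by
  obtain ⟨⟨x, j⟩, d⟩ := s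
  rcases dir_cases d with ⟨h, -⟩ | ⟨h, -⟩ | ⟨h, -⟩ | ⟨h, -⟩
  · rw [isSide0 h] at hs; exact step0 F hk h hs.1 hs.2
  · rw [isSide1 h] at hs; exact step1 F hk h hs.1 hs.2
  · rw [isSide2 h] at hs; exact step2 F hk h hs.1 hs.2
  · rw [isSide3 h] at hs; exact step3 F hk h hs.1 hs.2

end

end Pool.Agent.H5.FM
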