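import Mathlib
import Pool.Agent.H5.FM.Rfn2
import Pool.Agent.H5.FM.Walk2

set_option autoImplicit false
open Finset

/-! # The shape of the refined polygon -/

namespace Pool.Agent.H5.FM

open Pool.Agent.H75.Perc (dir dir_cases)
open Pool.Agent.Q1.M4 (Cell Good IsSide nextSide PType Adj4 Conn4 isSide_next isSide_iter)
open Pool.Agent.H21.FM (Shape)

/-- **A shape from a labelled walk.** -/
theorem exists_shape_lab {Q : Finset Cell} (hG : Good Q) {t : Cell × ℤ} (ht : IsSide Q t) {N : ℕ}
    (hN : 0 < N) (hper : (nextSide Q)^[N] t = (t.1, t.2 + 4))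
    (hinj : ∀ n < N, ∀ n' < N, ((nextSide Q)^[n] t).1 = ((nextSide Q)^[n'] t).1 →
      (((nextSide Q)^[n] t).2 - ((nextSide Q)^[n'] t).2) % 4 = 0 → n = n') {L : ℕ → ℤ}
    (hst : ∀ n, L (n + 1) = L n ∨ (L (n + 1) = L n + 1 ∧ (nextSide Q)^[n + 1] t =
      (((nextSide Q)^[n] t).1, ((nextSide Q)^[n] t).2 + 1)))
    (hLN : ∀ n, L (n + N) = L n + 4) {q : ℤ} (hq : L 0 < q) :
    ∃ (S : Shape) (r : ℕ), S.P.Q = Q ∧ S.P.N = N ∧ (∀ i, S.P.side i = (nextSide Q)^[r + i] t) ∧
      (∀ i, i < S.m2 → L (r + i) = q) ∧ (∀ i, S.m2 ≤ i → i < S.m3 → L (r + i) = q + 1) ∧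
      (∀ i, S.m3 ≤ i → i < S.P.m → L (r + i) = q + 2) ∧
      (∀ i, S.P.m ≤ i → i < S.P.N → L (r + i) = q + 3) := by
  obtain ⟨W, hWd⟩ : ∃ W : ℕ → Cell × ℤ, W = fun n => (nextSide Q)^[n] t := ⟨_, rfl⟩
  have hW : ∀ n, (nextSide Q)^[n] t = W n := fun n => by rw [hWd]
  have hW0 : W 0 = t := by rw [hWd]; rfl
  simp only [hW] at hper hinj hst ⊢
  have hadd : ∀ m n, (nextSide Q)^[n] (W m) = W (m + n) := by
    intro m n
    rw [← hW, ← hW, ← Function.iterate_add_apply, Nat.add_comm]
  have hWN : ∀ n, W (n + N) = ((W n).1, (W n).2 + 4) := by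
    intro n
    have e : W (n + N) = (nextSide Q)^[n] (W N) := by rw [hadd, Nat.add_comm]
    rw [e, hper, ← hW]
    exact iter_shift (by norm_num) n t
  have hmono : Monotone L := monotone_nat_of_le_succ fun n => by
    rcases hst n with e | e <;> omega
  have hunb : ∀ k : ℕ, ∃ n, q + k ≤ L n := by
    intro k
    have : ∀ k : ℕ, L (k * N) = L 0 + 4 * k := by
      intro k
      induction k with
      | zero => simp
      | succ k ih => rw [Nat.succ_mul, hLN, ih]; push_cast; ring
    refine ⟨((q - L 0).toNat + k) * N, ?_⟩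
    rw [this]
    push_cast
    have := Int.toNat_of_nonneg (show 0 ≤ q - L 0 by omega)
    omega
  classical
  let nk : ℕ → ℕ := fun k => Nat.find (hunb k)
  have nk_spec : ∀ k : ℕ, q + k ≤ L (nk k) := fun k => Nat.find_spec (hunb k)
  have nk_min : ∀ k n : ℕ, n < nk k → L n < q + k := fun k n h => by
    have := Nat.find_min (hunb k) h
    omega
  have nk_pos : ∀ k : ℕ, 0 < nk k := by
    intro k
    by_contra h
    have h' : nk k = 0 := by omega
    have := nk_spec k
    rw [h'] at this
    omega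
  have nk_conv : ∀ k : ℕ, L (nk k) = q + k ∧ W (nk k) = ((W (nk k - 1)).1, (W (nk k - 1)).2 + 1) := by
    intro k
    obtain ⟨n, hn⟩ : ∃ n, nk k = n + 1 := ⟨nk k - 1, by have := nk_pos k; omega⟩
    have h1 := nk_spec k
    have h2 := nk_min k n (by omega)
    rw [hn] at h1 ⊢
    rw [Nat.add_sub_cancel]
    rcases hst n with e | ⟨e, e'⟩
    · omega
    · exact ⟨by omega, e'⟩
  have nk_lt : ∀ k : ℕ, nk k < nk (k + 1) := by
    intro k
    by_contra h
    have h1 := hmono (not_lt.1 h)
    have h2 := nk_spec (k + 1)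
    have h3 := (nk_conv k).1
    push_cast at h2
    omega
  have nk_lab : ∀ k n : ℕ, nk k ≤ n → n < nk (k + 1) → L n = q + k := by
    intro k n h1 h2
    have h3 := nk_spec k
    have h4 := hmono h1
    have h5 := nk_min (k + 1) n h2
    push_cast at h5
    omega
  have nk_four : nk 4 = nk 0 + N := by
    apply le_antisymm
    · apply Nat.find_min'
      rw [hLN]
      have := nk_spec 0
      push_cast; push_cast at this; omega
    · by_contra h
      have h1 : nk 4 < nk 0 + N := by omega
      have h2 := nk_spec 4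
      rcases Nat.lt_or_ge (nk 4) N with g | g
      · have h3 := hmono g.le
        have h4 : L N = L 0 + 4 := by have := hLN 0; rwa [Nat.zero_add] at this
        push_cast at h2
        omega
      · obtain ⟨m, hm⟩ : ∃ m, nk 4 = m + N := ⟨nk 4 - N, by omega⟩
        rw [hm, hLN] at h2
        have h3 := nk_min 0 m (by omega)
        push_cast at h2 h3
        omega
  -- the root
  obtain ⟨r, hr⟩ : ∃ r, r = nk 0 := ⟨_, rfl⟩
  have hsr : IsSide Q (W r) := by rw [← hW]; exact isSide_iter ht r
  obtain ⟨N', hN', hper2, hall2, hinj2⟩ := Pool.Agent.Q1.M4.walk hG hsr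
  have hNN : N' = N := by
    rw [hadd] at hper2
    apply le_antisymm
    · by_contra h
      have := hinj2 N (by omega) 0 (by omega) (by rw [hadd, hadd, hWN]; rfl) (by
        rw [hadd, hadd, hWN]; simp)
      omega
    · by_contra h
      have hgen : ∀ u n : ℕ, n < N → W (n + u * N + N') =
          ((W (n + u * N)).1, (W (n + u * N)).2 + 4) → False := by
        intro u n hn
        induction u with
        | zero =>
          intro h5
          simp only [Nat.zero_mul, Nat.add_zero] at h5
          rcases Nat.lt_or_ge (n + N') N with g | g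
          · have := hinj (n + N') g n hn (by rw [h5]) (by rw [h5]; simp)
            omega
          · obtain ⟨m, hm⟩ : ∃ m, n + N' = m + N := ⟨n + N' - N, by omega⟩
            rw [hm, hWN] at h5
            have h6 : (W m).1 = (W n).1 := (Prod.ext_iff.1 h5).1
            have h7 : (W m).2 + 4 = (W n).2 + 4 := (Prod.ext_iff.1 h5).2
            have := hinj m (by omega) n hn h6 (by omega)
            omega
        | succ u ih =>
          intro h5
          apply ih
          rw [show n + (u + 1) * N + N' = n + u * N + N' + N by ring,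
            show n + (u + 1) * N = n + u * N + N by ring, hWN, hWN] at h5
          refine Prod.ext (Prod.ext_iff.1 h5).1 ?_
          have := (Prod.ext_iff.1 h5).2
          simp only at this ⊢
          omega
      apply hgen (r / N) (r % N) (Nat.mod_lt _ hN)
      rw [show r % N + r / N * N = r by rw [Nat.mul_comm]; exact Nat.mod_add_div r N]
      exact hper2
  rw [hNN] at hN' hper2 hall2 hinj2
  have l1 := nk_lt 0
  have l2 := nk_lt 1
  have l3 := nk_lt 2
  have l4 := nk_lt 3
  norm_num at l1 l2 l3 l4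
  let P : PType := ⟨Q, hG, W r, N, nk 3 - r, by omega, by omega, hsr, hper2, hall2, hinj2⟩
  have hside : ∀ i, P.side i = W (r + i) := fun i => hadd r i
  have hcv : ∀ j : ℕ, ∀ i, r + (i + 1) = nk j →
      P.side (i + 1) = ((P.side i).1, (P.side i).2 + 1) := by
    intro j i hi
    rw [hside, hside, hi, (nk_conv j).2, show nk j - 1 = r + i by omega]
  refine ⟨⟨P, nk 1 - r, nk 2 - r, by omega, by omega, ?_, ?_⟩, r, rfl, rfl, hside, ?_, ?_, ?_, ?_⟩
  · show nk 2 - r < nk 3 - r
    omega
  · rintro i (h | h | h | h)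
    · exact hcv 1 i (by omega)
    · exact hcv 2 i (by omega)
    · refine hcv 3 i ?_
      have h' : i + 1 = nk 3 - r := h
      omega
    · refine hcv 4 i ?_
      have h' : i + 1 = N := h
      omega
  · intro i hi
    have hi' : i < nk 1 - r := hi
    have := nk_lab 0 (r + i) (by omega) (by show _ < nk 1; omega)
    rw [this]; push_cast; ring
  · intro i h1 hi
    have h1' : nk 1 - r ≤ i := h1
    have hi' : i < nk 2 - r := hi
    have := nk_lab 1 (r + i) (by omega) (by show _ < nk 2; omega)
    rw [this]; push_cast; ring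
  · intro i h1 hi
    have h1' : nk 2 - r ≤ i := h1
    have hi' : i < nk 3 - r := hi
    have := nk_lab 2 (r + i) (by omega) (by show _ < nk 3; omega)
    rw [this]; push_cast; ring
  · intro i h1 hi
    have h1' : nk 3 - r ≤ i := h1
    have hi' : i < N := hi
    have := nk_lab 3 (r + i) (by omega) (by show _ < nk 4; omega)
    rw [this]; push_cast; ring

/-! ### Labels of a shape along the full walk -/

section

variable (S : Shape)

/-- number of the arc with the turns -/
def lab (i : ℕ) : ℤ := 4 * ((i / S.N : ℕ) : ℤ) + (arc S (i % S.N) : ℤ)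

variable {S}

lemma N_pos : 0 < S.N := by have := m4N (S := S); omega

lemma lab_add (i : ℕ) : lab S (i + S.N) = lab S i + 4 := by
  unfold lab
  rw [Nat.add_mod_right, Nat.add_div_right _ N_pos]
  push_cast
  ring

lemma lab_step (i : ℕ) : lab S (i + 1) = lab S i ∨ (lab S (i + 1) = lab S i + 1 ∧
    S.P.side (i + 1) = ((S.P.side i).1, (S.P.side i).2 + 1)) := by
  have hN := N_pos (S := S)
  obtain ⟨j, u, hj, rfl⟩ : ∃ j u, j < S.N ∧ i = j + S.N * u :=
    ⟨i % S.N, i / S.N, Nat.mod_lt _ hN, by rw [Nat.mod_add_div]⟩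
  have e1 : (j + S.N * u) % S.N = j := by rw [Nat.add_mul_mod_self_left, Nat.mod_eq_of_lt hj]
  have e2 : (j + S.N * u) / S.N = u := by
    rw [Nat.add_mul_div_left _ _ hN, Nat.div_eq_of_lt hj, Nat.zero_add]
  have hcv : (j + 1 = S.m2 ∨ j + 1 = S.m3 ∨ j + 1 = S.P.m ∨ j + 1 = S.P.N) →
      S.P.side (j + S.N * u + 1) = ((S.P.side (j + S.N * u)).1, (S.P.side (j + S.N * u)).2 + 1) := by
    intro h
    rw [show j + S.N * u + 1 = (j + 1) + S.N * u by ring, side_mul, side_mul, S.cvx j h]
    exact Prod.ext rfl (by simp only; ring)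
  have h2 := S.h02
  have h3 := S.h23
  have h4 := S.h34
  have h5 := S.P.hmN
  have h6 : S.N = S.P.N := rfl
  rcases Nat.lt_or_ge (j + 1) S.N with g | g
  · have e3 : (j + S.N * u + 1) % S.N = j + 1 := by
      rw [show j + S.N * u + 1 = (j + 1) + S.N * u by ring, Nat.add_mul_mod_self_left,
        Nat.mod_eq_of_lt g]
    have e4 : (j + S.N * u + 1) / S.N = u := by
      rw [show j + S.N * u + 1 = (j + 1) + S.N * u by ring, Nat.add_mul_div_left _ _ hN,
        Nat.div_eq_of_lt g, Nat.zero_add]
    unfold lab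
    rw [e1, e2, e3, e4]
    by_cases hm : j + 1 = S.m2 ∨ j + 1 = S.m3 ∨ j + 1 = S.P.m
    · right
      refine ⟨?_, hcv (by omega)⟩
      have : arc S (j + 1) = arc S j + 1 := by
        unfold arc
        split_ifs <;> omega
      rw [this]; push_cast; ring
    · left
      have : arc S (j + 1) = arc S j := by
        unfold arc
        split_ifs <;> omega
      rw [this]
  · have g' : j + 1 = S.N := by omega
    have e3 : (j + S.N * u + 1) % S.N = 0 := by
      rw [show j + S.N * u + 1 = (j + 1) + S.N * u by ring, g', Nat.add_mul_mod_self_left,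
        Nat.mod_self]
    have e4 : (j + S.N * u + 1) / S.N = u + 1 := by
      rw [show j + S.N * u + 1 = 0 + S.N * (u + 1) by rw [Nat.mul_add, ← g']; ring,
        Nat.add_mul_div_left _ _ hN, Nat.zero_div, Nat.zero_add]
    unfold lab
    rw [e1, e2, e3, e4]
    right
    refine ⟨?_, hcv (by omega)⟩
    have k1 : arc S 0 = 0 := by unfold arc; rw [if_pos h2]
    have k2 : arc S j = 3 := by
      unfold arc
      split_ifs <;> omega
    rw [k1, k2]; push_cast; ring

/-- lifted sides have one index -/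
lemma side_injN {i j : ℕ} (h : S.P.side i = S.P.side j) : i = j := by
  have hN := N_pos (S := S)
  have key : ∀ i, S.P.side i = ((S.P.side (i % S.N)).1, (S.P.side (i % S.N)).2 + 4 * ((i / S.N : ℕ) : ℤ)) := by
    intro i
    conv_lhs => rw [← Nat.mod_add_div i S.N]
    exact side_mul _ _
  rw [key i, key j, Prod.mk.injEq] at h
  have e := S.P.inj _ (Nat.mod_lt i hN) _ (Nat.mod_lt j hN) h.1
    (show ((S.P.side (i % S.N)).2 - (S.P.side (j % S.N)).2) % 4 = 0 by omega)
  have e2 : (S.P.side (j % S.N)).2 + 4 * ((i / S.N : ℕ) : ℤ) =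
      (S.P.side (j % S.N)).2 + 4 * ((j / S.N : ℕ) : ℤ) := by
    have := h.2
    rwa [e] at this
  have e4 : ((i / S.N : ℕ) : ℤ) = ((j / S.N : ℕ) : ℤ) := by linarith
  have e3 : i / S.N = j / S.N := by exact_mod_cast e4
  rw [← Nat.mod_add_div i S.N, ← Nat.mod_add_div j S.N, e, e3]

end

/-- a turn to the left is convex -/
lemma next_convex {Q : Finset Cell} {s : Cell × ℤ} (h : (nextSide Q s).2 = s.2 + 1) :
    nextSide Q s = (s.1, s.2 + 1) := by
  unfold nextSide at h ⊢
  split_ifs at h ⊢ with g1 g2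
  · simp only at h; omega
  · simp only at h; omega
  · rfl

/-- **The shape of the refined polygon.** -/
theorem exists_refined {S : Shape} {y0 y1 : ℤ} {a b : ℤ → ℤ} {yP yQ : ℤ}
    (F : RowF S.P.Q y0 y1 a b yP yQ) {k : ℤ} (hk : 2 ≤ k) :
    ∃ S' : Shape, S'.P.Q = Rf k y0 y1 a b ∧ ∀ i < S'.N, ∃ q < S.N, arc S' i = arc S q ∧
      (rpj k y0 (S'.P.side i)).1 = (S.P.side q).1 ∧
      ((S'.P.side i).2 - (S.P.side q).2) % 4 = 0 := by
  have h0 : 0 < k := by omega
  have hG := (rowF_Rf F hk).good
  -- the first side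
  have e00 : r3 k y0 (k * y0) = y0 := by
    unfold r3
    rw [show k * y0 - 1 = (k - 1) + k * (y0 - 1) by ring, Int.add_mul_ediv_left _ _ h0.ne',
      Int.ediv_eq_zero_of_lt (by omega) (by omega)]
    omega
  have e01 : k * y0 / k = y0 := Int.mul_ediv_cancel_left _ h0.ne'
  have e02 : k * a y0 / k = a y0 := Int.mul_ediv_cancel_left _ h0.ne'
  have hs0 : IsSide S.P.Q ((a y0, y0), 0) := F.side_B
  obtain ⟨g0, g1, g2⟩ := ix_spec hs0
  obtain ⟨m, hm⟩ : ∃ m, m = ix S ((a y0, y0), 0) := ⟨_, rfl⟩
  rw [← hm] at g0 g1 g2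
  simp only at g1 g2
  obtain ⟨t, htd⟩ : ∃ t : Cell × ℤ, t = ((k * a y0, k * y0), (S.P.side m).2) := ⟨_, rfl⟩
  have hd : (S.P.side m).2 % 4 = 0 := by omega
  have ht : IsSide (Rf k y0 y1 a b) t := by
    rw [htd, isSide0 hd, mem_Rf' h0, mem_Rf' h0, e00, e01, e02]
    have := F.ab y0 le_rfl F.y01
    have := F.y01
    refine ⟨by omega, fun h => ?_⟩
    have h1 := h.1.1
    rw [show k * y0 - 1 = (k - 1) + k * (y0 - 1) by ring, Int.add_mul_ediv_left _ _ h0.ne',
      Int.ediv_eq_zero_of_lt (by omega) (by omega)] at h1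
    omega
  have hpt : rpj k y0 t = S.P.side m := by
    rw [htd, rpj01 (Or.inl hd), e01, e02]
    exact Prod.ext g1.symm rfl
  obtain ⟨N', hN', hper, -, hinj⟩ := Pool.Agent.Q1.M4.walk hG ht
  -- the index of the image
  have hT : ∀ n, IsSide (Rf k y0 y1 a b) ((nextSide (Rf k y0 y1 a b))^[n] t) := fun n =>
    isSide_iter ht n
  have hc : ∃ c : ℕ → ℕ, c 0 = 0 ∧ ∀ n, (c (n + 1) = c n ∨ c (n + 1) = c n + 1) ∧
      rpj k y0 ((nextSide (Rf k y0 y1 a b))^[n] t) = S.P.side (m + c n) := by
    classical
    let c : ℕ → ℕ := fun n => Nat.rec (motive := fun _ => ℕ) 0 (fun i ci =>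
      if rpj k y0 ((nextSide (Rf k y0 y1 a b))^[i + 1] t) =
        rpj k y0 ((nextSide (Rf k y0 y1 a b))^[i] t) then ci else ci + 1) n
    have c0 : c 0 = 0 := rfl
    have cs : ∀ n, c (n + 1) = if rpj k y0 ((nextSide (Rf k y0 y1 a b))^[n + 1] t) =
        rpj k y0 ((nextSide (Rf k y0 y1 a b))^[n] t) then c n else c n + 1 := fun n => rfl
    refine ⟨c, c0, fun n => ⟨?_, ?_⟩⟩
    · rw [cs]
      split_ifs
      · exact Or.inl rfl
      · exact Or.inr rfl
    · induction n with
      | zero => rw [c0]; exact hpt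
      | succ n ih =>
        rw [cs]
        have h1 := (rpj_step F hk (hT n)).2
        rw [Function.iterate_succ_apply'] at *
        split_ifs with g
        · rw [g, ih]
        · rcases h1 with e | e
          · exact absurd e g
          · rw [e, ih, ← Nat.add_assoc, side_succ'']
  obtain ⟨c, c0, hc⟩ := hc
  have hcN : ∀ n, c (n + N') = c n + S.N := by
    intro n
    have h1 := (hc (n + N')).2
    rw [Function.iterate_add_apply, hper, iter_shift (by norm_num), rpj_add _ (by norm_num), (hc n).2,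
      ← side_per] at h1
    have := side_injN h1
    omega
  obtain ⟨S', r, hQ', hNN, hside, l0, l1, l2, l3⟩ := exists_shape_lab hG ht (by omega) hper hinj
    (L := fun n => lab S (m + c n)) (q := 4) (by
      intro n
      show lab S (m + c (n + 1)) = lab S (m + c n) ∨ _
      rcases (hc n).1 with e | e
      · left; rw [e]
      · rw [e, ← Nat.add_assoc]
        rcases lab_step (S := S) (m + c n) with g | ⟨g, g'⟩
        · exact Or.inl g
        · right
          refine ⟨g, ?_⟩
          have h1 := (hc (n + 1)).2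
          rw [e, ← Nat.add_assoc, g'] at h1
          have h2 := congrArg Prod.snd h1
          have h3 := congrArg Prod.snd (hc n).2
          rw [rpj_snd] at h2 h3
          rw [Function.iterate_succ_apply'] at h2 ⊢
          apply next_convex
          rw [h2, h3]) (by
      intro n
      show lab S (m + c (n + N')) = lab S (m + c n) + 4
      rw [hcN, ← Nat.add_assoc, lab_add]) (by
      show lab S (m + c 0) < 4
      rw [c0, Nat.add_zero]
      unfold lab
      rw [Nat.div_eq_of_lt g0]
      have : arc S (m % S.N) ≤ 3 := by unfold arc; split_ifs <;> omega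
      push_cast
      omega)
  refine ⟨S', hQ', fun i hi => ?_⟩
  have hlab : lab S (m + c (r + i)) = 4 + (arc S' i : ℤ) := by
    have hi' : i < S'.P.N := hi
    unfold arc
    split_ifs with h1 h2 h3
    · exact l0 i h1
    · exact l1 i (by omega) h2
    · exact l2 i (by omega) h3
    · exact l3 i (by omega) hi'
  have hN := N_pos (S := S)
  refine ⟨(m + c (r + i)) % S.N, Nat.mod_lt _ hN, ?_, ?_, ?_⟩
  · unfold lab at hlab
    have h3 : arc S ((m + c (r + i)) % S.N) ≤ 3 := by unfold arc; split_ifs <;> omega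
    have h4 : arc S' i ≤ 3 := by unfold arc; split_ifs <;> omega
    omega
  · rw [hside, (hc (r + i)).2]
    conv_lhs => rw [← Nat.mod_add_div (m + c (r + i)) S.N]
    rw [side_mul]
  · have h1 := congrArg Prod.snd (hc (r + i)).2
    rw [rpj_snd, ← hside] at h1
    rw [h1]
    have h2 : (S.P.side (m + c (r + i))).2 = (S.P.side ((m + c (r + i)) % S.N)).2 +
        4 * (((m + c (r + i)) / S.N : ℕ) : ℤ) := by
      conv_lhs => rw [← Nat.mod_add_div (m + c (r + i)) S.N]
      rw [side_mul]
    rw [h2]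
    omega

end Pool.Agent.H5.FM
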