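import Mathlib
import Pool.Agent.H5.FM.Join
import Pool.Agent.H66.FM.Good
import Pool.Agent.H19.Rado.GamArcs

set_option autoImplicit false
open Set

/-! # Approximation of a convex domain with four arcs by shapes -/

namespace Pool.Agent.H5.FM

open Pool.Agent.Q1.M4 (Cell rect Reg Om mem_Om)
open Pool.Agent.H21.FM
open Pool.Agent.H19.Rado (CA)

variable {D : Set ℂ}

/-- The shape `S` at mesh `ε` approximates `D` up to `κ`; the arcs II, III, IV, I of `S` are close to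
`P 0`, `P 1`, `P 2`, `P 3`; the arcs with index `o` modulo `2` are outside of `D`, the others inside. -/
structure AppP (D : Set ℂ) (P : Fin 4 → Set ℂ) (o : ℕ) (κ : ℝ) (S : Shape) (ε ρ η : ℝ) : Prop where
  ε0 : 0 < ε
  ρ0 : 0 < ρ
  η0 : 0 < η
  η1 : η ≤ 1 / 2
  ηκ : η ≤ κ
  εκ : ε ≤ κ
  s1 : ∀ i, i < S.m2 → ∀ z, OnS ε (S.P.side i) z → ∃ w ∈ P 3, ‖z - w‖ ≤ κ
  s2 : ∀ i, S.m2 ≤ i → i < S.m3 → ∀ z, OnS ε (S.P.side i) z → ∃ w ∈ P 0, ‖z - w‖ ≤ κ
  s3 : ∀ i, S.m3 ≤ i → i < S.P.m → ∀ z, OnS ε (S.P.side i) z → ∃ w ∈ P 1, ‖z - w‖ ≤ κ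
  s4 : ∀ i, S.P.m ≤ i → i < S.P.N → ∀ z, OnS ε (S.P.side i) z → ∃ w ∈ P 2, ‖z - w‖ ≤ κ
  o1 : o = 1 → ∀ i, S.Fr i → ∀ z, OnS ε (S.P.side i) z → ∀ w ∈ D, ρ ≤ ‖z - w‖
  o0 : o = 0 → ∀ i, S.Wd i → ∀ z, OnS ε (S.P.side i) z → ∀ w ∈ D, ρ ≤ ‖z - w‖
  r1 : ∀ z ∈ Reg S.P.Q (gr ε) (gr ε), (∀ w, ‖w - z‖ < ρ → w ∈ D) ∨
    ∃ i : Fin 4, i.val % 2 = o ∧ ∃ w ∈ P i, ‖z - w‖ ≤ κ
  r2 : ∀ z w, w ∈ D → ‖z - w‖ < ρ → z ∉ Om S.P.Q (gr ε) (gr ε) →
    ∃ i : Fin 4, i.val % 2 ≠ o ∧ ∃ w ∈ P i, ‖z - w‖ ≤ κ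
  sub : ∀ z ∈ sc η D, z ∈ Om S.P.Q (gr ε) (gr ε)
  jn : ∀ z ∈ Om S.P.Q (gr ε) (gr ε), ∃ w ∈ sc η D,
    JoinedIn (Om S.P.Q (gr ε) (gr ε) ∩ Metric.ball z (2 * κ)) z w

/-- index of the arc with the label `m` -/
def ci (m : ℤ) : Fin 4 := if m = 1 then 0 else if m = 2 then 1 else if m = 3 then 2 else 3

variable {c : Fin 4 → ℝ}

lemma Nr.ca (hc : StrictMono c) {K : ℝ} {m : ℤ} {z : ℂ} (h : Nr D c K m z) :
    (0 ≤ m ∧ m ≤ 4) ∧ ∃ w ∈ CA D c (ci m), ‖z - w‖ ≤ K := by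
  obtain ⟨t, h0, h1, h2, h3⟩ := h
  rcases cnt_eq hc t with ⟨a1, a2⟩ | ⟨a1, a2, a3⟩ | ⟨a1, a2, a3⟩ | ⟨a1, a2, a3⟩ | ⟨a1, a2⟩
  · obtain rfl : m = 0 := by omega
    refine ⟨by omega, Gam D t, ?_, h3⟩
    have e : ci 0 = 3 := by decide
    rw [e]
    unfold CA
    rw [if_pos rfl]
    exact ⟨t, Or.inr ⟨h0, a1.le⟩, rfl⟩
  · obtain rfl : m = 1 := by omega
    refine ⟨by omega, Gam D t, ?_, h3⟩
    have e : ci 1 = 0 := by decide
    rw [e]
    unfold CA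
    rw [if_neg (by decide)]
    exact ⟨t, ⟨a1, a2.le⟩, rfl⟩
  · obtain rfl : m = 2 := by omega
    refine ⟨by omega, Gam D t, ?_, h3⟩
    have e : ci 2 = 1 := by decide
    rw [e]
    unfold CA
    rw [if_neg (by decide)]
    exact ⟨t, ⟨a1, a2.le⟩, rfl⟩
  · obtain rfl : m = 3 := by omega
    refine ⟨by omega, Gam D t, ?_, h3⟩
    have e : ci 3 = 2 := by decide
    rw [e]
    unfold CA
    rw [if_neg (by decide)]
    exact ⟨t, ⟨a1, a2.le⟩, rfl⟩
  · obtain rfl : m = 4 := by omega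
    refine ⟨by omega, Gam D t, ?_, h3⟩
    have e : ci 4 = 3 := by decide
    rw [e]
    unfold CA
    rw [if_pos rfl]
    exact ⟨t, Or.inl ⟨a1, h1⟩, rfl⟩

/-- small parameters exist -/
lemma exists_par (h : CD D) {κ : ℝ} (hκ : 0 < κ) :
    ∃ (R r τ : ℝ) (q : Par), Fine D R r τ κ q ∧ q.η ≤ κ := by
  obtain ⟨R, hR0, hR⟩ := h.exists_R
  obtain ⟨r, hr0, hr⟩ := h.exists_r
  obtain ⟨τ, hτ, H⟩ := exists_fine h hκ
  set η := min (min (1 / 2) κ) (τ / (4 * R)) with hη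
  have hη0 : 0 < η := lt_min (lt_min (by norm_num) hκ) (by positivity)
  have hη1 : η ≤ 1 / 2 := (min_le_left _ _).trans (min_le_left _ _)
  have hη2 : η ≤ κ := (min_le_left _ _).trans (min_le_right _ _)
  have hη3 : η * R ≤ τ / 4 := by
    have : η ≤ τ / (4 * R) := min_le_right _ _
    rw [le_div_iff₀ (by positivity)] at this
    linarith
  set ε := min (η * r / 8) (τ / 16) with hε
  have hε0 : 0 < ε := lt_min (by positivity) (by positivity)
  have hε1 : ε ≤ η * r / 8 := min_le_left _ _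
  have hε2 : ε ≤ τ / 16 := min_le_right _ _
  refine ⟨R, r, τ, ⟨ε, η, τ⟩, H R r ⟨ε, η, τ⟩ ?_, hη2⟩
  exact { R0 := hR0, hR := hR, r0 := hr0, hr := hr, ε0 := hε0, η0 := hη0, η1 := hη1,
          hθ := by show η * R + 4 * ε ≤ τ / 2; linarith
          hτ := le_rfl
          hε := by show 8 * ε ≤ η * r; linarith }

lemma exists_gap (hc : StrictMono c) (h0 : 0 < c 0) (h3 : c 3 ≤ TD D) : ∃ g > 0, Cuts D g c := by
  have h01 : c 0 < c 1 := hc (by decide)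
  have h12 : c 1 < c 2 := hc (by decide)
  have h23 : c 2 < c 3 := hc (by decide)
  refine ⟨min (min (c 0) (c 1 - c 0)) (min (c 2 - c 1) (c 3 - c 2)), lt_min (lt_min h0 (by linarith))
    (lt_min (by linarith) (by linarith)), ?_⟩
  have m1 : min (min (c 0) (c 1 - c 0)) (min (c 2 - c 1) (c 3 - c 2)) ≤ c 0 :=
    (min_le_left _ _).trans (min_le_left _ _)
  have m2 : min (min (c 0) (c 1 - c 0)) (min (c 2 - c 1) (c 3 - c 2)) ≤ c 1 - c 0 :=
    (min_le_left _ _).trans (min_le_right _ _)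
  have m3 : min (min (c 0) (c 1 - c 0)) (min (c 2 - c 1) (c 3 - c 2)) ≤ c 2 - c 1 :=
    (min_le_right _ _).trans (min_le_left _ _)
  have m4 : min (min (c 0) (c 1 - c 0)) (min (c 2 - c 1) (c 3 - c 2)) ≤ c 3 - c 2 :=
    (min_le_right _ _).trans (min_le_right _ _)
  refine ⟨hc, ?_, m1, by linarith, h3⟩
  intro k
  match k with
  | 0 => exact m2
  | 1 => exact m3
  | 2 => exact m4

/-- **Approximating shapes exist.** -/
theorem exists_app (h : CD D) (hc : StrictMono c) (h0 : 0 < c 0) (h3 : c 3 ≤ TD D) (j : Fin 4)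
    {P : Fin 4 → Set ℂ} (hP : ∀ k, P k = CA D c (k - j)) {o : ℕ} (ho : o = 0 ∨ o = 1) {κ : ℝ}
    (hκ : 0 < κ) : ∃ (S : Shape) (ε ρ η : ℝ), AppP D P o κ S ε ρ η := by
  obtain ⟨g, hg0, hC⟩ := exists_gap (D := D) hc h0 h3
  have hκ'0 : 0 < min (κ / 4) (g / 4) := lt_min (by positivity) (by positivity)
  obtain ⟨κ', hκ'⟩ : ∃ κ', κ' = min (κ / 4) (g / 4) := ⟨_, rfl⟩
  rw [← hκ'] at hκ'0
  have k1 : κ' ≤ κ / 4 := by rw [hκ']; exact min_le_left _ _
  have k2 : κ' ≤ g / 4 := by rw [hκ']; exact min_le_right _ _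
  obtain ⟨R, r, τ, q, s, hqη⟩ := exists_par h hκ'0
  have hg : κ' + τ < g := by linarith [s.τκ]
  -- labels
  obtain ⟨k, hk⟩ : ∃ k : ℕ, k = 4 - j.val := ⟨_, rfl⟩
  have hj := j.isLt
  obtain ⟨e, he⟩ : ∃ e : ℤ, e = if o = 1 then (k : ℤ) % 2 else ((k : ℤ) + 1) % 2 := ⟨_, rfl⟩
  have he01 : e = 0 ∨ e = 1 := by
    rw [he]; split_ifs <;> omega
  set p := mk h s e he01 hg hC with hp
  obtain ⟨S, hQ, L1, L2, L3, L4⟩ := p.exists_shape p.toProf.good k (by omega)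
  have hQ' : S.P.Q = (mk h s e he01 hg hC).Q := hQ
  have hε := s.ε0
  have hετ := Fine.ετ h s
  have hτκ := s.τκ
  -- nearness in terms of `P`
  have hNP : ∀ {m : ℤ} {z : ℂ}, Nr D c (4 * κ') m z → (0 ≤ m ∧ m ≤ 4) ∧
      ∃ w ∈ P (ci m + j), ‖z - w‖ ≤ κ := by
    intro m z hN
    obtain ⟨hm, w, hw, hd⟩ := hN.ca hc
    refine ⟨hm, w, ?_, by linarith⟩
    rw [hP, add_sub_cancel_right]
    exact hw
  have hside : ∀ {sd : Cell × ℤ} {m : ℤ} {z : ℂ}, p.LabE sd m → OnS q.ε sd z →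
      ∃ m' : ℤ, (∃ t : ℤ, m' = m - 4 * t) ∧ (0 ≤ m' ∧ m' ≤ 4) ∧ ∃ w ∈ P (ci m' + j), ‖z - w‖ ≤ κ := by
    rintro sd m z ⟨t, hL⟩ hz
    obtain ⟨a, b⟩ := hNP (near_side h s e he01 hg hC hL ((onS_four t).2 hz))
    exact ⟨m - 4 * t, ⟨t, rfl⟩, a, b⟩
  have houtE : ∀ {sd : Cell × ℤ} {m : ℤ} {z : ℂ}, p.LabE sd m → m % 2 = e → OnS q.ε sd z →
      z ∉ th q.θ D := by
    rintro sd m z ⟨t, hL⟩ hm hz
    exact out_side h s e he01 hg hC hL (by omega) ((onS_four t).2 hz)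
  have hfar : ∀ {z : ℂ}, z ∉ th q.θ D → ∀ w ∈ D, min (q.η * r / 2) q.θ ≤ ‖z - w‖ := by
    intro z hz w hw
    by_contra hcon
    have h5 : ‖z - w‖ < q.θ := (not_le.1 hcon).trans_le (min_le_right _ _)
    refine hz ⟨w, hw, ?_, ?_⟩
    · have := Complex.abs_re_le_norm (z - w)
      rw [Complex.sub_re] at this
      linarith
    · have := Complex.abs_im_le_norm (z - w)
      rw [Complex.sub_im] at this
      linarith
  refine ⟨S, q.ε, min (q.η * r / 2) q.θ, q.η, ?_⟩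
  have hρ0 : 0 < min (q.η * r / 2) q.θ :=
    lt_min (by have := mul_pos s.η0 s.r0; linarith) s.θ0
  have idx : ∀ {m' : ℤ} (a : ℕ) (i : Fin 4), (∃ t : ℤ, m' = (k : ℤ) + a - 4 * t) →
      (0 ≤ m' ∧ m' ≤ 4) → i.val = (a + 3) % 4 → ci m' + j = i := by
    rintro m' a i ⟨t, ht⟩ hm hi
    apply Fin.ext
    rw [Fin.val_add, hi]
    have hcv : ((ci m' : Fin 4).val : ℤ) = (m' + 3) % 4 := by
      unfold ci
      split_ifs with h1 h2 h3
      · rw [h1]; decide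
      · rw [h2]; decide
      · rw [h3]; decide
      · have : m' = 0 ∨ m' = 4 := by omega
        rcases this with h | h <;> rw [h] <;> decide
    omega
  constructor
  · exact hε
  · exact hρ0
  · exact s.η0
  · exact s.η1
  · linarith
  · linarith [s.κ0]
  · intro i hi z hz
    obtain ⟨m', h1, h2, h3⟩ := hside (L1 i hi) hz
    rwa [idx 0 3 (by simpa using h1) h2 (by decide)] at h3
  · intro i hi hi' z hz
    obtain ⟨m', h1, h2, h3⟩ := hside (L2 i hi hi') hz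
    rwa [idx 1 0 (by simpa using h1) h2 (by decide)] at h3
  · intro i hi hi' z hz
    obtain ⟨m', h1, h2, h3⟩ := hside (L3 i hi hi') hz
    rwa [idx 2 1 (by simpa using h1) h2 (by decide)] at h3
  · intro i hi hi' z hz
    obtain ⟨m', h1, h2, h3⟩ := hside (L4 i hi hi') hz
    rwa [idx 3 2 (by simpa using h1) h2 (by decide)] at h3
  · intro ho1 i hFr z hz
    rw [if_pos ho1] at he
    rcases hFr with h1 | ⟨h1, h2⟩
    · exact hfar (houtE (L1 i h1) he.symm hz)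
    · exact hfar (houtE (L3 i h1 h2) (by omega) hz)
  · intro ho0 i hW z hz
    rw [if_neg (by omega)] at he
    rcases hW with ⟨h1, h2⟩ | ⟨h1, h2⟩
    · exact hfar (houtE (L2 i h1 h2) he.symm hz)
    · exact hfar (houtE (L4 i h1 h2) (by omega) hz)
  · intro z hz
    rw [hQ'] at hz
    rcases region1 h s e he01 hg hC hz with h1 | ⟨m, hm, hN⟩
    · exact Or.inl fun w hw => h1 w (hw.trans_le (min_le_left _ _))
    · right
      obtain ⟨hm', h2⟩ := hNP hN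
      refine ⟨ci m + j, ?_, h2⟩
      have hcv : ((ci m : Fin 4).val : ℤ) = (m + 3) % 4 := by
        unfold ci
        split_ifs with h1 h2 h3
        · rw [h1]; decide
        · rw [h2]; decide
        · rw [h3]; decide
        · have : m = 0 ∨ m = 4 := by omega
          rcases this with h | h <;> rw [h] <;> decide
      rw [Fin.val_add]
      rcases ho with ho | ho
      · rw [if_neg (by omega)] at he; omega
      · rw [if_pos ho] at he; omega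
  · intro z w hw hd hz
    rw [hQ'] at hz
    have hth : z ∈ th q.θ D := by
      refine ⟨w, hw, ?_, ?_⟩
      · have := Complex.abs_re_le_norm (z - w)
        rw [Complex.sub_re] at this
        exact this.trans_lt (hd.trans_le (min_le_right _ _))
      · have := Complex.abs_im_le_norm (z - w)
        rw [Complex.sub_im] at this
        exact this.trans_lt (hd.trans_le (min_le_right _ _))
    obtain ⟨m, hm, hN⟩ := region2 h s e he01 hg hC hz hth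
    obtain ⟨hm', h2⟩ := hNP hN
    refine ⟨ci m + j, ?_, h2⟩
    have hcv : ((ci m : Fin 4).val : ℤ) = (m + 3) % 4 := by
      unfold ci
      split_ifs with h1 h2 h3
      · rw [h1]; decide
      · rw [h2]; decide
      · rw [h3]; decide
      · have : m = 0 ∨ m = 4 := by omega
        rcases this with h | h <;> rw [h] <;> decide
    rw [Fin.val_add]
    rcases ho with ho | ho
    · rw [if_neg (by omega)] at he; omega
    · rw [if_pos ho] at he; omega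
  · intro z hz
    rw [hQ']
    exact sc_Om h s e he01 hg hC hz
  · intro z hz
    rw [hQ'] at hz ⊢
    obtain ⟨w, hw, J⟩ := exists_join h s e he01 hg hC hz
    refine ⟨w, hw, J.mono ?_⟩
    exact inter_subset_inter_right _ (Metric.ball_subset_ball (by linarith))

end Pool.Agent.H5.FM
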