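import Mathlib
import Pool.Agent.H5.FM.App
import Pool.Agent.H19.Rado.Convex
import Pool.Agent.H19.Rado.Shape

set_option autoImplicit false
open Set Filter Topology

/-! # Convergence of the approximating shapes -/

namespace Pool.Agent.H5.FM

open Pool.Agent.Q1.M4 (Cell rect Reg Om mem_Om head tail pt nextSide PType)
open Pool.Agent.H21.FM
open Pool.Agent.H19.Rado (KConv)
open Pool.Agent.H81.Q1 (IsJordanDomain)

variable {D : Set ℂ}

/-- points near the smaller copies of the closure are in the domain -/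
lemma CD.scale_closure (h : CD D) {r η : ℝ} (hr : 0 < r) (hr' : ∀ z : ℂ, ‖z‖ < r → z ∈ D)
    (h0 : 0 < η) (h1 : η ≤ 1) {w u : ℂ} (hw : w ∈ closure D) (hu : ‖u‖ < η * r) :
    ((1 - η : ℝ) : ℂ) * w + u ∈ D := by
  obtain ⟨w', hw', hd⟩ := Metric.mem_closure_iff.1 hw (η * r - ‖u‖) (by linarith)
  have e : ((1 - η : ℝ) : ℂ) * w + u = ((1 - η : ℝ) : ℂ) * w' + (u + ((1 - η : ℝ) : ℂ) * (w - w')) := by
    ring
  rw [e]
  apply h.scale_add hr hr' h0 h1 hw'
  have h2 : ‖((1 - η : ℝ) : ℂ) * (w - w')‖ ≤ ‖w - w'‖ := by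
    rw [norm_mul, Complex.norm_real, Real.norm_eq_abs, abs_of_nonneg (by linarith)]
    have := norm_nonneg (w - w')
    nlinarith
  rw [dist_eq_norm] at hd
  have := norm_add_le u (((1 - η : ℝ) : ℂ) * (w - w'))
  linarith

/-- **The shapes converge to the domain.** -/
theorem kconv (h : CD D) {P : Fin 4 → Set ℂ} {o : ℕ} {κ : ℕ → ℝ} (hκ : Tendsto κ atTop (𝓝 0))
    {S : ℕ → Shape} {ε ρ η : ℕ → ℝ} (A : ∀ n, AppP D P o (κ n) (S n) (ε n) (ρ n) (η n))
    (hP : ∀ i, P i ⊆ frontier D) :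
    KConv atTop (fun n => Om (S n).P.Q (gr (ε n)) (gr (ε n))) D := by
  obtain ⟨R, hR0, hR⟩ := h.exists_R
  obtain ⟨r, hr0, hr⟩ := h.exists_r
  have hfr : ∀ p ∈ frontier D, p ∉ D := fun p hp => by
    rw [h.op.frontier_eq] at hp; exact hp.2
  have hcl : ∀ p ∈ frontier D, p ∈ closure D := fun p hp => frontier_subset_closure hp
  refine KConv.of_convex h.conv h.op h.bd h.zero ?_ ?_ ?_ ?_
  · exact Eventually.of_forall fun n => Pool.Agent.H19.RH.isJordan (S n).P (gr_mono (A n).ε0)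
      (gr_mono (A n).ε0)
  · intro η' hη'
    have hpos : 0 < η' * r := mul_pos hη'.1 hr0
    filter_upwards [hκ.eventually_lt_const hpos] with n hn z hz
    rw [sub_zero, zero_add]
    by_contra hcon
    have hu : ((1 - η' : ℝ) : ℂ) * z ∈ D := h.sub_scale (by linarith [hη'.2]) (by linarith [hη'.1]) hz
    obtain ⟨i, -, w, hw, hd⟩ := (A n).r2 _ _ hu (by rw [sub_self, norm_zero]; exact (A n).ρ0) hcon
    have h1 := h.scale_add hr0 hr hη'.1 hη'.2.le hz (u := w - ((1 - η' : ℝ) : ℂ) * z) (by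
      rw [norm_sub_rev]; exact hd.trans_lt hn)
    rw [add_sub_cancel] at h1
    exact hfr _ (hP i hw) h1
  · intro η' hη'
    obtain ⟨t, ht⟩ : ∃ t, t = 1 / (1 + η') := ⟨_, rfl⟩
    have ht0 : 0 < t := by rw [ht]; positivity
    have ht1 : t < 1 := by rw [ht, div_lt_one (by linarith)]; linarith
    have htη : t * (1 + η') = 1 := by rw [ht]; field_simp
    have hpos : 0 < (1 - t) * r := mul_pos (by linarith) hr0
    filter_upwards [hκ.eventually_lt_const hpos] with n hn z hz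
    refine ⟨(t : ℂ) * z, ?_, ?_⟩
    · rcases (A n).r1 z (interior_subset hz) with h1 | ⟨i, -, p, hp, hd⟩
      · exact h.sub_scale ht0.le ht1.le (h1 z (by rw [sub_self, norm_zero]; exact (A n).ρ0))
      · have h1 := h.scale_closure hr0 hr (η := 1 - t) (by linarith) (by linarith) (hcl p (hP i hp))
          (u := (t : ℂ) * (z - p)) (by
            rw [norm_mul, Complex.norm_real, Real.norm_eq_abs, abs_of_pos ht0]
            have := norm_nonneg (z - p)
            nlinarith)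
        have e : ((1 - (1 - t) : ℝ) : ℂ) * p + (t : ℂ) * (z - p) = (t : ℂ) * z := by
          push_cast; ring
        rwa [e] at h1
    · rw [sub_zero, zero_add, ← mul_assoc, ← Complex.ofReal_mul, mul_comm (1 + η') t, htη,
        Complex.ofReal_one, one_mul]
  · intro τ hτ
    have hm : 0 < min (1 / 4) (τ / (4 * R)) := lt_min (by norm_num) (by positivity)
    obtain ⟨η', hη'⟩ : ∃ η', η' = min (1 / 4) (τ / (4 * R)) := ⟨_, rfl⟩
    rw [← hη'] at hm
    have k1 : η' ≤ 1 / 4 := by rw [hη']; exact min_le_left _ _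
    have k2 : η' * R ≤ τ / 4 := by
      have : η' ≤ τ / (4 * R) := by rw [hη']; exact min_le_right _ _
      rw [le_div_iff₀ (by positivity)] at this
      linarith
    refine ⟨η', ⟨hm, by linarith⟩, ?_⟩
    filter_upwards [hκ.eventually_lt_const (show (0 : ℝ) < τ / 4 by positivity)] with n hn z hz
    obtain ⟨w, hw, J⟩ := (A n).jn z hz
    have hwD : w ∈ D := h.sc_sub (A n).η0.le (by linarith [(A n).η1]) hw
    refine ⟨w, hwD, ?_⟩
    rw [sub_zero, zero_add]
    have hwb : w ∈ Metric.ball z (2 * κ n) := (J.target_mem).2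
    have J1 : JoinedIn (Om (S n).P.Q (gr (ε n)) (gr (ε n)) ∩ Metric.ball z τ) z w :=
      J.mono (inter_subset_inter_right _ (Metric.ball_subset_ball (by linarith)))
    refine J1.trans ?_
    have hcd := h.cd_sc (η := η n) (A n).η0.le (by linarith [(A n).η1])
    have hw2 : ((1 - η' : ℝ) : ℂ) * w ∈ sc (η n) D := hcd.sub_scale (by linarith) (by linarith) hw
    apply JoinedIn.of_segment_subset
    intro u hu
    refine ⟨(A n).sub u (hcd.conv.segment_subset hw hw2 hu), ?_⟩
    refine (convex_ball z τ).segment_subset (Metric.ball_subset_ball (by linarith) hwb) ?_ hu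
    rw [Metric.mem_ball, dist_eq_norm] at hwb ⊢
    have e : ((1 - η' : ℝ) : ℂ) * w - z = (w - z) - (η' : ℂ) * w := by push_cast; ring
    rw [e]
    have h3 : ‖(η' : ℂ) * w‖ ≤ η' * R := by
      rw [norm_mul, Complex.norm_real, Real.norm_eq_abs, abs_of_pos hm]
      exact mul_le_mul_of_nonneg_left (hR w (subset_closure hwD)) hm.le
    have := norm_sub_le (w - z) ((η' : ℂ) * w)
    linarith

/-! ### The marks -/

/-- the beginning of a side -/
lemma onS_tail {ε : ℝ} (hε : 0 < ε) (s : Cell × ℤ) : OnS ε s (pt (gr ε) (gr ε) (tail s)) := by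
  obtain ⟨⟨i, j⟩, k⟩ := s
  unfold OnS pt gr tail
  have h0 : 0 ≤ k % 4 := Int.emod_nonneg _ (by norm_num)
  have h4 : k % 4 < 4 := Int.emod_lt_of_pos _ (by norm_num)
  rcases (show k % 4 = 0 ∨ k % 4 = 1 ∨ k % 4 = 2 ∨ k % 4 = 3 by omega) with h | h | h | h
  · left
    simp only [h]
    norm_num
    linarith
  · right; left
    simp only [h]
    norm_num
    linarith
  · right; right; left
    simp only [h]
    norm_num
    linarith
  · right; right; right
    simp only [h]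
    norm_num
    linarith

/-- the end of a side -/
lemma onS_head {ε : ℝ} (hε : 0 < ε) (s : Cell × ℤ) : OnS ε s (pt (gr ε) (gr ε) (head s)) := by
  obtain ⟨⟨i, j⟩, k⟩ := s
  unfold OnS pt gr head tail
  rcases Pool.Agent.H75.Perc.dir_cases k with ⟨h, e⟩ | ⟨h, e⟩ | ⟨h, e⟩ | ⟨h, e⟩
  · left
    simp only [h, if_true, e]
    simp
    linarith
  · right; left
    simp only [h, e]
    simp
    linarith
  · right; right; left
    simp only [h, e]
    simp
    linarith
  · right; right; right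
    simp only [h, e]
    simp
    linarith

/-- two compact sets with one common point -/
lemma near_two {K1 K2 : Set ℂ} (h1 : IsCompact K1) (h2 : IsCompact K2) {p : ℂ}
    (hp : ∀ z ∈ K1, z ∈ K2 → z = p) {ζ : ℝ} (hζ : 0 < ζ) : ∃ κ > 0, ∀ z,
      (∃ w ∈ K1, ‖z - w‖ ≤ κ) → (∃ w ∈ K2, ‖z - w‖ ≤ κ) → ‖z - p‖ < ζ := by
  have hc : IsCompact (K1 \ Metric.ball p (ζ / 2)) := h1.diff Metric.isOpen_ball
  have hd : Disjoint (K1 \ Metric.ball p (ζ / 2)) K2 := by
    rw [Set.disjoint_left]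
    rintro z ⟨hz1, hz2⟩ hz3
    rw [hp z hz1 hz3] at hz2
    exact hz2 (Metric.mem_ball_self (by linarith))
  obtain ⟨δ, hδ, H⟩ := Metric.exists_pos_forall_lt_edist hc h2.isClosed hd
  refine ⟨min (ζ / 4) (δ / 2), lt_min (by linarith) (by positivity), ?_⟩
  rintro z ⟨w1, hw1, d1⟩ ⟨w2, hw2, d2⟩
  by_contra hcon
  rw [not_lt] at hcon
  have m1 := min_le_left (ζ / 4) ((δ : ℝ) / 2)
  have m2 := min_le_right (ζ / 4) ((δ : ℝ) / 2)
  have hw1' : w1 ∈ K1 \ Metric.ball p (ζ / 2) := by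
    refine ⟨hw1, fun hb => ?_⟩
    rw [Metric.mem_ball, dist_eq_norm] at hb
    have := norm_sub_le_norm_sub_add_norm_sub z w1 p
    linarith
  have h3 := H w1 hw1' w2 hw2
  rw [edist_dist, dist_eq_norm] at h3
  have h4 : ‖w1 - w2‖ ≤ δ := by
    have := norm_sub_le_norm_sub_add_norm_sub w1 z w2
    rw [norm_sub_rev w1 z] at this
    linarith
  have h5 : ENNReal.ofReal ‖w1 - w2‖ ≤ δ := by
    rw [ENNReal.ofReal_le_iff_le_toReal ENNReal.coe_ne_top]
    simpa using h4
  exact absurd h3 (not_lt.2 h5)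

/-- disjoint compact sets -/
lemma near_disj {K1 K2 : Set ℂ} (h1 : IsCompact K1) (h2 : IsCompact K2) (hd : Disjoint K1 K2) :
    ∃ δ > 0, ∀ z ∈ K1, ∀ w ∈ K2, δ ≤ ‖z - w‖ := by
  obtain ⟨δ, hδ, H⟩ := Metric.exists_pos_forall_lt_edist h1 h2.isClosed hd
  refine ⟨δ, by exact_mod_cast hδ, fun z hz w hw => ?_⟩
  have h3 := H z hz w hw
  rw [edist_dist, dist_eq_norm] at h3
  by_contra hcon
  rw [not_le] at hcon
  have h5 : ENNReal.ofReal ‖z - w‖ ≤ δ := by
    rw [ENNReal.ofReal_le_iff_le_toReal ENNReal.coe_ne_top]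
    simpa using hcon.le
  exact absurd h3 (not_lt.2 h5)

end Pool.Agent.H5.FM
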