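import Mathlib
import Pool.Agent.H5.FM.Seq
import Pool.Agent.H19.Rado.Fourth
import Pool.Agent.H14.FM.Pos

set_option autoImplicit false
open Set Filter Topology

/-! # The limit of the cross ratios of the approximating shapes -/

namespace Pool.Agent.H5.FM

open Pool.Agent.Q1.M4 (Cell rect Reg Om mem_Om head tail pt nextSide PType head_eq_tail_next)
open Pool.Agent.H21.FM
open Pool.Agent.H19.Rado (KConv CA Gam_cont Gam_frontier arcs_Gam4 cr half_rotate tendsto_lam)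
open Pool.Agent.H19.RH (Cht lam)
open Pool.Agent.H69.Car (IsHalf HC HO)
open Pool.Agent.H14.FM (ic)

variable {D : Set ℂ}

/-- the four closed arcs -/
noncomputable def PA (φ : ℂ → ℂ) (b : ℂ) (t : Fin 4 → ℝ) (i : Fin 4) : Set ℂ :=
  if i = 3 then (fun x : ℝ => φ x) '' (Iic (t 0) ∪ Ici (t 3)) ∪ {b}
  else (fun x : ℝ => φ x) '' Icc (t i) (t (i + 1))

lemma PA3 (φ : ℂ → ℂ) (b : ℂ) (t : Fin 4 → ℝ) :
    PA φ b t 3 = (fun x : ℝ => φ x) '' (Iic (t 0) ∪ Ici (t 3)) ∪ {b} := if_pos rfl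
lemma PA0 (φ : ℂ → ℂ) (b : ℂ) (t : Fin 4 → ℝ) :
    PA φ b t 0 = (fun x : ℝ => φ x) '' Icc (t 0) (t 1) := if_neg (by decide)
lemma PA1 (φ : ℂ → ℂ) (b : ℂ) (t : Fin 4 → ℝ) :
    PA φ b t 1 = (fun x : ℝ => φ x) '' Icc (t 1) (t 2) := if_neg (by decide)
lemma PA2 (φ : ℂ → ℂ) (b : ℂ) (t : Fin 4 → ℝ) :
    PA φ b t 2 = (fun x : ℝ => φ x) '' Icc (t 2) (t 3) := if_neg (by decide)

lemma ca_sub (_h : CD D) {c : Fin 4 → ℝ} (hc : StrictMono c) (h0 : 0 < c 0) (h3 : c 3 ≤ TD D)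
    (m : Fin 4) : ∃ K : Set ℝ, IsCompact K ∧ K ⊆ Icc 0 (TD D) ∧ CA D c m = Gam D '' K := by
  have h01 : c 0 < c 1 := hc (by decide)
  have h12 : c 1 < c 2 := hc (by decide)
  have h23 : c 2 < c 3 := hc (by decide)
  unfold CA
  match m with
  | 0 =>
    exact ⟨Icc (c 0) (c 1), isCompact_Icc, Icc_subset_Icc (by linarith) (by linarith), rfl⟩
  | 1 =>
    exact ⟨Icc (c 1) (c 2), isCompact_Icc, Icc_subset_Icc (by linarith) (by linarith), rfl⟩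
  | 2 =>
    exact ⟨Icc (c 2) (c 3), isCompact_Icc, Icc_subset_Icc (by linarith) (by linarith), rfl⟩
  | 3 =>
    exact ⟨Icc (c 3) (TD D) ∪ Icc 0 (c 0), isCompact_Icc.union isCompact_Icc,
      union_subset (Icc_subset_Icc (by linarith) le_rfl) (Icc_subset_Icc le_rfl (by linarith)), rfl⟩

section

variable (h : CD D) {a b : ℂ} {φ : ℂ → ℂ} (hφ : IsHalf D a b φ) {t : Fin 4 → ℝ} (ht : StrictMono t)
include h hφ ht

lemma pa_ca : ∃ c : Fin 4 → ℝ, StrictMono c ∧ 0 < c 0 ∧ c 3 ≤ TD D ∧ ∃ j : Fin 4,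
    ∀ i, PA φ b t i = CA D c (i - j) := by
  obtain ⟨c, h1, h2, h3, j, -, h5, h6⟩ := arcs_Gam4 h hφ ht
  refine ⟨c, h1, h2, h3, j, fun i => ?_⟩
  unfold PA
  split_ifs with hi
  · rw [hi]; exact h6
  · exact h5 i hi

lemma pa_compact (i : Fin 4) : IsCompact (PA φ b t i) := by
  obtain ⟨c, h1, h2, h3, j, h4⟩ := pa_ca h hφ ht
  obtain ⟨K, hK, hs, e⟩ := ca_sub h h1 h2 h3 (i - j)
  rw [h4, e]
  exact hK.image_of_continuousOn ((Gam_cont h).mono hs)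

lemma pa_frontier (i : Fin 4) : PA φ b t i ⊆ frontier D := by
  obtain ⟨c, h1, h2, h3, j, h4⟩ := pa_ca h hφ ht
  obtain ⟨K, hK, hs, e⟩ := ca_sub h h1 h2 h3 (i - j)
  rw [h4, e, Gam_frontier h]
  exact image_mono hs

lemma pa_cover {z : ℂ} (hz : z ∈ frontier D) : ∃ i, z ∈ PA φ b t i := by
  obtain ⟨c, h1, h2, h3, j, h4⟩ := pa_ca h hφ ht
  rw [Gam_frontier h] at hz
  obtain ⟨s, hs, rfl⟩ := hz
  have key : ∃ m, Gam D s ∈ CA D c m := by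
    rcases cnt_eq h1 s with ⟨a1, -⟩ | ⟨a1, a2, -⟩ | ⟨a1, a2, -⟩ | ⟨a1, a2, -⟩ | ⟨a1, -⟩
    · exact ⟨3, by unfold CA; rw [if_pos rfl]; exact ⟨s, Or.inr ⟨hs.1, a1.le⟩, rfl⟩⟩
    · exact ⟨0, by unfold CA; rw [if_neg (by decide)]; exact ⟨s, ⟨a1, a2.le⟩, rfl⟩⟩
    · exact ⟨1, by unfold CA; rw [if_neg (by decide)]; exact ⟨s, ⟨a1, a2.le⟩, rfl⟩⟩
    · exact ⟨2, by unfold CA; rw [if_neg (by decide)]; exact ⟨s, ⟨a1, a2.le⟩, rfl⟩⟩
    · exact ⟨3, by unfold CA; rw [if_pos rfl]; exact ⟨s, Or.inl ⟨a1, hs.2⟩, rfl⟩⟩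
  obtain ⟨m, hm⟩ := key
  exact ⟨m + j, by rw [h4, add_sub_cancel_right]; exact hm⟩

end

section half

variable {a b : ℂ} {φ : ℂ → ℂ} (hφ : IsHalf D a b φ)
include hφ

lemma real_inj {x y : ℝ} (e : φ x = φ y) : x = y := by
  have hx : ∀ x : ℝ, (x : ℂ) ∈ HC := fun x => by show 0 ≤ (x : ℂ).im; simp
  have := hφ.inj (hx x) (hx y) e
  exact_mod_cast this

lemma ne_b (x : ℝ) : φ x ≠ b := by
  intro e
  have hx : (x : ℂ) ∈ HC := by show 0 ≤ (x : ℂ).im; simp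
  have : φ x ∈ φ '' HC := ⟨x, hx, rfl⟩
  rw [hφ.closure] at this
  exact this.2 e

/-- points of two images -/
lemma pa_pt {x y : ℝ} {z : ℂ} (h1 : φ x = z) (h2 : φ y = z) : x = y := real_inj hφ (h1.trans h2.symm)

variable {t : Fin 4 → ℝ} (ht : StrictMono t)
include ht

lemma pa_inter :
    (∀ z ∈ PA φ b t 3, z ∈ PA φ b t 0 → z = φ (t 0)) ∧
    (∀ z ∈ PA φ b t 0, z ∈ PA φ b t 1 → z = φ (t 1)) ∧
    (∀ z ∈ PA φ b t 1, z ∈ PA φ b t 2 → z = φ (t 2)) ∧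
    (∀ z ∈ PA φ b t 2, z ∈ PA φ b t 3 → z = φ (t 3)) := by
  have h01 : t 0 < t 1 := ht (by decide)
  have h12 : t 1 < t 2 := ht (by decide)
  have h23 : t 2 < t 3 := ht (by decide)
  rw [PA0, PA1, PA2, PA3]
  refine ⟨?_, ?_, ?_, ?_⟩
  · rintro z (⟨x, hx, rfl⟩ | hz) ⟨y, hy, e⟩
    · have := pa_pt hφ e rfl
      subst this
      rcases hx with hx | hx
      · rw [le_antisymm hx hy.1]
      · exfalso
        have : t 3 ≤ y := hx
        linarith [hy.2]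
    · rw [mem_singleton_iff] at hz
      exact absurd (e.trans hz) (ne_b hφ y)
  · rintro z ⟨x, hx, rfl⟩ ⟨y, hy, e⟩
    have := pa_pt hφ e rfl
    subst this
    show φ y = φ (t 1)
    rw [le_antisymm hx.2 hy.1]
  · rintro z ⟨x, hx, rfl⟩ ⟨y, hy, e⟩
    have := pa_pt hφ e rfl
    subst this
    show φ y = φ (t 2)
    rw [le_antisymm hx.2 hy.1]
  · rintro z ⟨y, hy, e⟩ (⟨x, hx, rfl⟩ | hz)
    · have := pa_pt hφ e rfl
      subst this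
      rcases hx with hx | hx
      · exfalso
        have : y ≤ t 0 := hx
        linarith [hy.1]
      · show φ y = φ (t 3)
        rw [le_antisymm hy.2 hx]
    · rw [mem_singleton_iff] at hz
      exact absurd (e.trans hz) (ne_b hφ y)

end half

/-! ### The marks -/

lemma vert_succ (P : PType) (n : ℕ) : P.vert (n + 1) = head (P.side n) := by
  unfold PType.vert PType.side
  rw [Function.iterate_succ_apply']
  exact head_eq_tail_next _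

lemma vert_N (P : PType) : P.vert P.N = P.vert 0 := by
  unfold PType.vert PType.side
  rw [P.period]
  simp only [Function.iterate_zero, id]
  unfold tail
  have e : (P.s0.2 + 4) % 4 = P.s0.2 % 4 := by omega
  simp only [e]

section

variable {P : Fin 4 → Set ℂ} {o : ℕ} {κ ε ρ η : ℝ} {S : Shape} (A : AppP D P o κ S ε ρ η)
include A

lemma mark_near : ((∃ w ∈ P 2, ‖pt (gr ε) (gr ε) (S.P.vert 0) - w‖ ≤ κ) ∧
      ∃ w ∈ P 3, ‖pt (gr ε) (gr ε) (S.P.vert 0) - w‖ ≤ κ) ∧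
    ((∃ w ∈ P 3, ‖pt (gr ε) (gr ε) (S.P.vert S.m2) - w‖ ≤ κ) ∧
      ∃ w ∈ P 0, ‖pt (gr ε) (gr ε) (S.P.vert S.m2) - w‖ ≤ κ) ∧
    ((∃ w ∈ P 0, ‖pt (gr ε) (gr ε) (S.P.vert S.m3) - w‖ ≤ κ) ∧
      ∃ w ∈ P 1, ‖pt (gr ε) (gr ε) (S.P.vert S.m3) - w‖ ≤ κ) ∧
    ((∃ w ∈ P 1, ‖pt (gr ε) (gr ε) (S.P.vert S.m4) - w‖ ≤ κ) ∧
      ∃ w ∈ P 2, ‖pt (gr ε) (gr ε) (S.P.vert S.m4) - w‖ ≤ κ) := by
  have h02 := S.h02
  have h23 := S.h23
  have h34 := S.h34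
  have hmN := S.P.hmN
  have hh : ∀ n, n + 1 = S.P.N → pt (gr ε) (gr ε) (S.P.vert 0) =
      pt (gr ε) (gr ε) (head (S.P.side n)) := by
    intro n hn
    rw [← vert_succ, hn, vert_N]
  refine ⟨⟨?_, ?_⟩, ⟨?_, ?_⟩, ⟨?_, ?_⟩, ?_, ?_⟩
  · rw [hh (S.P.N - 1) (by omega)]
    exact A.s4 (S.P.N - 1) (by omega) (by omega) _ (onS_head A.ε0 _)
  · exact A.s1 0 h02 _ (onS_tail A.ε0 _)
  · have e : S.m2 = (S.m2 - 1) + 1 := by omega
    rw [e, vert_succ]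
    exact A.s1 (S.m2 - 1) (by omega) _ (onS_head A.ε0 _)
  · exact A.s2 S.m2 le_rfl h23 _ (onS_tail A.ε0 _)
  · have e : S.m3 = (S.m3 - 1) + 1 := by omega
    rw [e, vert_succ]
    exact A.s2 (S.m3 - 1) (by omega) (by omega) _ (onS_head A.ε0 _)
  · exact A.s3 S.m3 le_rfl h34 _ (onS_tail A.ε0 _)
  · have e : S.m4 = (S.m4 - 1) + 1 := by show S.P.m = (S.P.m - 1) + 1; omega
    rw [e, vert_succ]
    exact A.s3 (S.m4 - 1) (by show S.m3 ≤ S.P.m - 1; omega) (by show S.P.m - 1 < S.P.m; omega) _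
      (onS_head A.ε0 _)
  · exact A.s4 S.m4 le_rfl hmN _ (onS_tail A.ε0 _)

end

/-- convergence of a sequence of points near two arcs -/
lemma tendsto_mark {K1 K2 : Set ℂ} (h1 : IsCompact K1) (h2 : IsCompact K2) {p : ℂ}
    (hp : ∀ z ∈ K1, z ∈ K2 → z = p) {κ : ℕ → ℝ} (hκ : Tendsto κ atTop (𝓝 0)) {z : ℕ → ℂ}
    (a1 : ∀ n, ∃ w ∈ K1, ‖z n - w‖ ≤ κ n) (a2 : ∀ n, ∃ w ∈ K2, ‖z n - w‖ ≤ κ n) :
    Tendsto z atTop (𝓝 p) := by
  rw [Metric.tendsto_nhds]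
  intro ζ hζ
  obtain ⟨κ0, hκ0, H⟩ := near_two h1 h2 hp hζ
  filter_upwards [hκ.eventually_lt_const hκ0] with n hn
  rw [dist_eq_norm]
  apply H
  · obtain ⟨w, hw, hd⟩ := a1 n
    exact ⟨w, hw, hd.trans hn.le⟩
  · obtain ⟨w, hw, hd⟩ := a2 n
    exact ⟨w, hw, hd.trans hn.le⟩

/-- **The limit of the cross ratios** -/
theorem lam_limit (h : CD D) {a b : ℂ} {φ : ℂ → ℂ} (hφ : IsHalf D a b φ) {t : Fin 4 → ℝ}
    (ht : StrictMono t) {o : ℕ} {κ : ℕ → ℝ} (hκ : Tendsto κ atTop (𝓝 0)) {S : ℕ → Shape}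
    {ε ρ η : ℕ → ℝ} (A : ∀ n, AppP D (PA φ b t) o (κ n) (S n) (ε n) (ρ n) (η n))
    {ψ : ℕ → ℂ → ℂ} (C : ∀ n, Cht (S n).P ic ic (ψ n)) :
    Tendsto (fun n => lam (S n).P ic ic (S n).m2 (S n).m3 (S n).m4 (ψ n)) atTop
      (𝓝 (1 - cr (t 0) (t 1) (t 2) (t 3))) := by
  have hK := kconv h hκ A (fun i => pa_frontier h hφ ht i)
  have hc := fun i => pa_compact h hφ ht i
  obtain ⟨a', b', φ', X1, X2, X3, X4, hφ', h12, h23, h34, e1, e2, e3, e4, e5⟩ :=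
    half_rotate hφ h.op (ht (show (0 : Fin 4) < 1 by decide)) (ht (show (1 : Fin 4) < 2 by decide))
      (ht (show (2 : Fin 4) < 3 by decide))
  obtain ⟨i1, i2, i3, i4⟩ := pa_inter hφ ht
  rw [← e5]
  have eg : ∀ n, (fun i : ℤ => ε n * ic i + 0) = gr (ε n) := fun n => by
    funext i; unfold gr; rw [add_zero]
  refine tendsto_lam (ε := ε) (a := fun _ => 0) (b := fun _ => 0) ?_ (Eventually.of_forall C)
    (Eventually.of_forall fun n => (A n).ε0) ?_ hφ' h12 h23 h34 ?_ ?_ ?_ ?_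
  · exact Eventually.of_forall fun n => ⟨(S n).h02, (S n).h23, (S n).h34, (S n).P.hmN⟩
  · simp only [eg]; exact hK
  · simp only [eg]
    rw [e1]
    exact tendsto_mark (hc 2) (hc 3) i4 hκ (fun n => (mark_near (A n)).1.1)
      fun n => (mark_near (A n)).1.2
  · simp only [eg]
    rw [e2]
    exact tendsto_mark (hc 3) (hc 0) i1 hκ (fun n => (mark_near (A n)).2.1.1)
      fun n => (mark_near (A n)).2.1.2
  · simp only [eg]
    rw [e3]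
    exact tendsto_mark (hc 0) (hc 1) i2 hκ (fun n => (mark_near (A n)).2.2.1.1)
      fun n => (mark_near (A n)).2.2.1.2
  · simp only [eg]
    rw [e4]
    exact tendsto_mark (hc 1) (hc 2) i3 hκ (fun n => (mark_near (A n)).2.2.2.1)
      fun n => (mark_near (A n)).2.2.2.2

end Pool.Agent.H5.FM
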