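import Mathlib
import Pool.Agent.H5.FM.WinOf
import Pool.Agent.H31.Sp.Coarse

set_option autoImplicit false

/-! # The window of coarse data is a scaled polyomino -/

namespace Pool.Agent.H5.FM

open Pool.Agent.H31.Sp (Coarse CoarseC)
open Pool.Agent.H21.FM (Shape)

theorem CW.coarse (C : CW) {N : ℤ} (h2 : 2 ≤ N) (he : N % 2 = 0) (h8 : 8 ≤ N) :
    Coarse (C.win N h2 he) N C.H C.A C.B where
  hn := h8
  HH := C.H0
  hh := rfl
  AB := C.ab
  ov1 := C.ov1
  ov2 := C.ov2
  a := by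
    intro y h0 h1
    change y < N * C.H at h1
    change C.wa N y = _ ∨ (C.wa N y = _ ∧ _)
    have b1 := CW.dA_01 (C := C) (N := N) (q := y / N) (r := y % N)
    unfold CW.wa
    rcases eq_or_lt_of_le b1.1 with e | e
    · left; omega
    · right
      have hd : C.dA N (y / N) (y % N) = 1 := by omega
      refine ⟨by omega, ?_⟩
      have hP0 := C.P0
      have hP1 := C.P1
      rcases CW.dA_one hd with ⟨g1, g2, g3, -⟩ | ⟨g1, g2, g3, -⟩
      · left; exact ⟨g2, by omega, g3⟩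
      · right; exact ⟨g2, by omega, g3⟩
  b := by
    intro y h0 h1
    change y < N * C.H at h1
    change C.wb N y = _ ∨ (C.wb N y = _ ∧ _)
    have b1 := CW.dB_01 (C := C) (N := N) (q := y / N) (r := y % N)
    unfold CW.wb
    rcases eq_or_lt_of_le b1.1 with e | e
    · left; omega
    · right
      have hd : C.dB N (y / N) (y % N) = 1 := by omega
      refine ⟨by omega, ?_⟩
      have hQ0 := C.Q0
      have hQ1 := C.Q1
      rcases CW.dB_one hd with ⟨g1, g2, g3, -⟩ | ⟨g1, g2, g3, -⟩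
      · left; exact ⟨g2, by omega, g3⟩
      · right; exact ⟨g2, by omega, g3⟩

theorem CW.coarseC (C : CW) {N : ℤ} (h2 : 2 ≤ N) (he : N % 2 = 0) (h8 : 8 ≤ N) :
    CoarseC (C.win N h2 he) N C.H C.A C.B C.YP C.YQ C.CL C.CR where
  toCoarse := C.coarse h2 he h8
  yP := rfl
  yQ := rfl
  cl := fun _ _ _ => rfl
  cr := fun _ _ _ => rfl

section

variable {S : Shape} {y0 y1 : ℤ} {a b : ℤ → ℤ} {yP yQ : ℤ} (F : RowF S.P.Q y0 y1 a b yP yQ) {n : ℕ}
  (hn : 1 ≤ n) (h4 : 4 ≤ n)

include h4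

/-- **The window of a shape is a scaled polyomino.** -/
theorem winOf_coarse :
    Coarse (winOf F n hn) (2 * n) (y1 - y0) (fun Y => a (Y + y0)) (fun Y => b (Y + y0)) :=
  (cwOf F).coarse _ _ (by omega)

theorem winOf_coarseC :
    CoarseC (winOf F n hn) (2 * n) (y1 - y0) (fun Y => a (Y + y0)) (fun Y => b (Y + y0))
      (yP - y0) (yQ - y0) (fun Y => cL S a (Y + y0)) (fun Y => cR S b (Y + y0)) :=
  (cwOf F).coarseC _ _ (by omega)

end

end Pool.Agent.H5.FM
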