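import Mathlib
import Pool.Agent.H5.FM.Ring2

set_option autoImplicit false
open Finset

/-! # The four arcs on the ring

`R = 2 H + 2` ring positions. Starting from the position `s` the arcs of the ring positions are
`0 .. 0 1 .. 1 2 .. 2 3 .. 3`, every arc occurs. -/

namespace Pool.Agent.H5.FM

open Pool.Agent.Q1.M4 (Cell Good IsSide nextSide isSide_next PType Adj4 Conn4)
open Pool.Agent.H21.FM (Shape)

/-- a monotone sequence with the values `0, 1, 2, 3` -/
lemma four_steps {R : ℕ} {u : ℕ → ℕ} (hu : ∀ j, j + 1 < R → u j ≤ u (j + 1)) (h3 : ∀ j < R, u j ≤ 3)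
    (hs : ∀ v ≤ 3, ∃ j < R, u j = v) : ∃ j1 j2 j3, 0 < j1 ∧ j1 < j2 ∧ j2 < j3 ∧ j3 < R ∧
    ∀ j < R, u j = if j < j1 then 0 else if j < j2 then 1 else if j < j3 then 2 else 3 := by
  classical
  have hm : ∀ n j, j + n < R → u j ≤ u (j + n) := by
    intro n
    induction n with
    | zero => intro j _; simp
    | succ n ih =>
      intro j hj
      exact (ih j (by omega)).trans (hu (j + n) (by omega))
  have hm' : ∀ j k, j ≤ k → k < R → u j ≤ u k := by
    intro j k h1 h2
    have := hm (k - j) j (by omega)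
    rwa [show j + (k - j) = k by omega] at this
  have key : ∀ v, 1 ≤ v → v ≤ 3 → ∃ j0 < R, ∀ j < R, (v ≤ u j ↔ j0 ≤ j) := by
    intro v h1 h2
    obtain ⟨jv, hj1, hj2⟩ := hs v h2
    have hex : ∃ j, j < R ∧ v ≤ u j := ⟨jv, hj1, hj2.ge⟩
    refine ⟨Nat.find hex, (Nat.find_spec hex).1, fun j hj => ⟨fun h => Nat.find_min' hex ⟨hj, h⟩, fun h => ?_⟩⟩
    exact (Nat.find_spec hex).2.trans (hm' _ _ h hj)
  obtain ⟨j1, k1, e1⟩ := key 1 le_rfl (by norm_num)
  obtain ⟨j2, k2, e2⟩ := key 2 (by norm_num) (by norm_num)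
  obtain ⟨j3, k3, e3⟩ := key 3 (by norm_num) le_rfl
  obtain ⟨i0, a0, b0⟩ := hs 0 (by norm_num)
  obtain ⟨i1, a1, b1⟩ := hs 1 (by norm_num)
  obtain ⟨i2, a2, b2⟩ := hs 2 (by norm_num)
  have c0 := e1 i0 a0
  have c1 := e1 i1 a1
  have c1' := e2 i1 a1
  have c2 := e2 i2 a2
  have c2' := e3 i2 a2
  refine ⟨j1, j2, j3, by omega, by omega, by omega, k3, fun j hj => ?_⟩
  have d0 := h3 j hj
  have d1 := e1 j hj
  have d2 := e2 j hj
  have d3 := e3 j hj
  split_ifs <;> omega

variable {S : Shape}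

lemma arc_le (i : ℕ) : arc S i ≤ 3 := by unfold arc; split_ifs <;> omega

lemma arc_mono {i j : ℕ} (h : i ≤ j) : arc S i ≤ arc S j := by
  have h1 := S.h02
  have h2 := S.h23
  have h3 := S.h34
  unfold arc
  split_ifs <;> omega

lemma arc_surj {v : ℕ} (hv : v ≤ 3) : ∃ i < S.N, arc S i = v := by
  have h1 := S.h02
  have h2 := S.h23
  have h3 := S.h34
  have h4 := m4N (S := S)
  have hv' : v = 0 ∨ v = 1 ∨ v = 2 ∨ v = 3 := by omega
  rcases hv' with rfl | rfl | rfl | rfl
  · exact ⟨0, by omega, by unfold arc; rw [if_pos h1]⟩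
  · exact ⟨S.m2, by omega, by unfold arc; rw [if_neg (by omega), if_pos h2]⟩
  · exact ⟨S.m3, by omega, by unfold arc; rw [if_neg (by omega), if_neg (by omega), if_pos h3]⟩
  · exact ⟨S.P.m, by omega, by
      unfold arc; rw [if_neg (by omega), if_neg (by omega), if_neg (by omega)]⟩

namespace RowF

variable {y0 y1 : ℤ} {a b : ℤ → ℤ} {yP yQ : ℤ} (F : RowF S.P.Q y0 y1 a b yP yQ)

include F

/-- **The four arcs on the ring.** -/
theorem ring_arcs : ∃ s j1 j2 j3, s < 2 * (y1 - y0).toNat + 2 ∧ 0 < j1 ∧ j1 < j2 ∧ j2 < j3 ∧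
    j3 < 2 * (y1 - y0).toNat + 2 ∧ ∀ j < 2 * (y1 - y0).toNat + 2,
      arc S (idx S y0 y1 a b ((s + j) % (2 * (y1 - y0).toNat + 2))) =
        if j < j1 then 0 else if j < j2 then 1 else if j < j3 then 2 else 3 := by
  obtain ⟨s, s1, s2, h1, h2, h3⟩ := F.ring_cut
  set R := 2 * (y1 - y0).toNat + 2 with hR
  have hlo : ∀ x, x < R → x % R = x := fun x hx => Nat.mod_eq_of_lt hx
  have hhi : ∀ x, R ≤ x → x < 2 * R → x % R = x - R := fun x hx hx' => by
    rw [Nat.mod_eq_sub_mod hx, Nat.mod_eq_of_lt (by omega)]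
  have hu : ∀ j, j + 1 < R → arc S (idx S y0 y1 a b ((s + j) % R)) ≤
      arc S (idx S y0 y1 a b ((s + (j + 1)) % R)) := by
    intro j hj
    apply arc_mono
    rcases lt_trichotomy (s + j + 1) R with g | g | g
    · rw [hlo (s + j) (by omega), hlo (s + (j + 1)) (by omega)]
      exact (h2 (s + j) (by omega) g).le
    · rw [hlo (s + j) (by omega), hhi (s + (j + 1)) (by omega) (by omega)]
      rw [show s + (j + 1) - R = 0 by omega, show s + j = 2 * (y1 - y0).toNat + 1 by omega]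
      exact (h3 (by omega)).le
    · rw [hhi (s + j) (by omega) (by omega), hhi (s + (j + 1)) (by omega) (by omega)]
      rw [show s + (j + 1) - R = s + j - R + 1 by omega]
      exact (h1 (s + j - R) (by omega)).le
  obtain ⟨j1, j2, j3, a1, a2, a3, a4, a5⟩ := four_steps (R := R)
    (u := fun j => arc S (idx S y0 y1 a b ((s + j) % R))) hu (fun j _ => arc_le _) (by
      intro v hv
      obtain ⟨i, hi, hi'⟩ := arc_surj (S := S) hv
      obtain ⟨P, hP, hP'⟩ := F.arc_pos hi
      rw [hi'] at hP'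
      by_cases hsP : s ≤ P
      · refine ⟨P - s, by omega, ?_⟩
        rw [hlo (s + (P - s)) (by omega), show s + (P - s) = P by omega]
        exact hP'.symm
      · refine ⟨P + R - s, by omega, ?_⟩
        rw [hhi (s + (P + R - s)) (by omega) (by omega), show s + (P + R - s) - R = P by omega]
        exact hP'.symm)
  rcases eq_or_lt_of_le s2 with e | e
  · refine ⟨0, j1, j2, j3, by omega, a1, a2, a3, a4, fun j hj => ?_⟩
    have := a5 j hj
    rw [hhi (s + j) (by omega) (by omega), show s + j - R = j by omega] at this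
    rw [zero_add, hlo j hj]
    exact this
  · exact ⟨s, j1, j2, j3, e, a1, a2, a3, a4, a5⟩

end RowF

end Pool.Agent.H5.FM
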