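import Mathlib
import Pool.Agent.H5.FM.Lim
import Pool.Agent.H5.FM.Iface

set_option autoImplicit false
open Set Filter Topology

/-! # Approximating shapes for the upper and the lower bound -/

namespace Pool.Agent.H5.FM

open Pool.Agent.Q1.M4 (Cell rect Reg Om mem_Om head tail pt nextSide PType)
open Pool.Agent.H21.FM
open Pool.Agent.H19.Rado (cr affC affC_apply half_preim_rot one_add_I_ne)
open Pool.Agent.H19.RH (Cht lam exists_cht)
open Pool.Agent.H69.Car (IsHalf HC HO)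
open Pool.Agent.H14.FM (ic)

variable {D : Set ℂ}

/-- parameters of the arcs -/
def JA (t : Fin 4 → ℝ) (i : Fin 4) : Set ℝ := if i = 3 then Iic (t 0) ∪ Ici (t 3) else Icc (t i) (t (i + 1))

lemma PA_sub (φ : ℂ → ℂ) (b : ℂ) (t : Fin 4 → ℝ) (i : Fin 4) {z : ℂ} (hz : z ∈ PA φ b t i) :
    (∃ x ∈ JA t i, φ x = z) ∨ (i = 3 ∧ z = b) := by
  unfold PA at hz
  unfold JA
  split_ifs at hz ⊢ with hi
  · rcases hz with ⟨x, hx, e⟩ | h
    · exact Or.inl ⟨x, hx, e⟩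
    · exact Or.inr ⟨hi, h⟩
  · obtain ⟨x, hx, e⟩ := hz
    exact Or.inl ⟨x, hx, e⟩

lemma pa_disjoint {a b : ℂ} {φ : ℂ → ℂ} (hφ : IsHalf D a b φ) {t t' : Fin 4 → ℝ} {i j : Fin 4}
    (hij : i ≠ 3 ∨ j ≠ 3) (hd : ∀ x ∈ JA t i, x ∉ JA t' j) :
    Disjoint (PA φ b t i) (PA φ b t' j) := by
  rw [Set.disjoint_left]
  intro z h1 h2
  rcases PA_sub φ b t i h1 with ⟨x, hx, e1⟩ | ⟨hi, e1⟩
  · rcases PA_sub φ b t' j h2 with ⟨y, hy, e2⟩ | ⟨hj, e2⟩
    · have := pa_pt hφ e1 e2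
      subst this
      exact hd x hx hy
    · exact ne_b hφ x (e1.trans e2)
  · rcases PA_sub φ b t' j h2 with ⟨y, hy, e2⟩ | ⟨hj, e2⟩
    · exact ne_b hφ y (e2.trans e1)
    · rcases hij with h | h
      · exact h hi
      · exact h hj

/-- tile frame to domain frame -/
noncomputable def Af (z1 : ℂ) (z : ℂ) : ℂ := (1 + Complex.I) * z + z1

lemma T0_eq (e : ℝ) (z1 z : ℂ) : T0 e z1 z = Af z1 (e * z) := by
  unfold T0 Af; ring

lemma le_Af (z1 u v : ℂ) : ‖u - v‖ ≤ ‖Af z1 u - Af z1 v‖ := by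
  have e : Af z1 u - Af z1 v = (1 + Complex.I) * (u - v) := by unfold Af; ring
  rw [e, norm_mul]
  have h1 : 1 ≤ ‖(1 + Complex.I : ℂ)‖ := by
    have := Complex.abs_re_le_norm (1 + Complex.I)
    simpa using this
  have := norm_nonneg (u - v)
  nlinarith

lemma Af_inj (z1 : ℂ) : Function.Injective (Af z1) := by
  intro u v e
  have := le_Af z1 u v
  rw [e, sub_self, norm_zero] at this
  exact sub_eq_zero.1 (norm_le_zero_iff.1 this)

lemma mem_Reg_scale {Q : Finset Cell} {ε : ℝ} (hε : 0 < ε) {z : ℂ} :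
    (ε : ℂ) * z ∈ Reg Q (gr ε) (gr ε) ↔ z ∈ Reg Q ic ic := by
  have key : ∀ c : Cell, (ε : ℂ) * z ∈ rect (gr ε) (gr ε) c ↔ z ∈ rect ic ic c := by
    rintro ⟨i, j⟩
    unfold rect gr ic
    simp only [mem_ofPred_eq, Complex.mul_re, Complex.mul_im, Complex.ofReal_re, Complex.ofReal_im,
      zero_mul, sub_zero, add_zero]
    rw [mul_le_mul_iff_right₀ hε, mul_le_mul_iff_right₀ hε, mul_le_mul_iff_right₀ hε,
      mul_le_mul_iff_right₀ hε]
  constructor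
  · rintro ⟨c, hc, hz⟩
    exact ⟨c, hc, (key c).1 hz⟩
  · rintro ⟨c, hc, hz⟩
    exact ⟨c, hc, (key c).2 hz⟩

lemma ic_mono : StrictMono ic := fun _ _ h => by exact_mod_cast h

lemma mem_Om_scale {Q : Finset Cell} {ε : ℝ} (hε : 0 < ε) {z : ℂ} :
    (ε : ℂ) * z ∈ Om Q (gr ε) (gr ε) ↔ z ∈ Om Q ic ic := by
  have key : ∀ c : Cell, (ε : ℂ) * z ∈ rect (gr ε) (gr ε) c ↔ z ∈ rect ic ic c := by
    rintro ⟨i, j⟩
    unfold rect gr ic
    simp only [mem_ofPred_eq, Complex.mul_re, Complex.mul_im, Complex.ofReal_re, Complex.ofReal_im,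
      zero_mul, sub_zero, add_zero]
    rw [mul_le_mul_iff_right₀ hε, mul_le_mul_iff_right₀ hε, mul_le_mul_iff_right₀ hε,
      mul_le_mul_iff_right₀ hε]
  rw [mem_Om (gr_mono hε) (gr_mono hε), mem_Om ic_mono ic_mono, mem_Reg_scale hε]
  simp only [key]

lemma onS_scale {ε : ℝ} {s : Cell × ℤ} {z : ℂ} (hε : 0 < ε) (hz : OnS 1 s z) :
    OnS ε s ((ε : ℂ) * z) := by
  unfold OnS at *
  simp only [Complex.mul_re, Complex.mul_im, Complex.ofReal_re, Complex.ofReal_im, zero_mul,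
    sub_zero, add_zero, one_mul] at *
  rcases hz with ⟨a, b, c, d⟩ | ⟨a, b, c, d⟩ | ⟨a, b, c, d⟩ | ⟨a, b, c, d⟩
  · exact Or.inl ⟨a, by rw [b], mul_le_mul_of_nonneg_left c hε.le, mul_le_mul_of_nonneg_left d hε.le⟩
  · exact Or.inr (Or.inl ⟨a, by rw [b], mul_le_mul_of_nonneg_left c hε.le,
      mul_le_mul_of_nonneg_left d hε.le⟩)
  · exact Or.inr (Or.inr (Or.inl ⟨a, by rw [b], mul_le_mul_of_nonneg_left c hε.le,
      mul_le_mul_of_nonneg_left d hε.le⟩))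
  · exact Or.inr (Or.inr (Or.inr ⟨a, by rw [b], mul_le_mul_of_nonneg_left c hε.le,
      mul_le_mul_of_nonneg_left d hε.le⟩))

lemma odd_fin : ∀ i : Fin 4, i.val % 2 = 1 → i = 1 ∨ i = 3 := by decide
lemma even_fin : ∀ i : Fin 4, i.val % 2 = 0 → i = 0 ∨ i = 2 := by decide

/-- three distances -/
lemma exists_sep {K0 K1 K2 L0 L2 : Set ℂ} (hK0 : IsCompact K0) (hK1 : IsCompact K1)
    (hK2 : IsCompact K2) (hL0 : IsCompact L0) (hL2 : IsCompact L2) (h1 : Disjoint K0 K2)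
    (h2 : Disjoint L0 K1) (h3 : Disjoint L2 K1) :
    ∃ δ > 0, (∀ z ∈ K0, ∀ w ∈ K2, δ ≤ ‖z - w‖) ∧ (∀ z ∈ L0, ∀ w ∈ K1, δ ≤ ‖z - w‖) ∧
      ∀ z ∈ L2, ∀ w ∈ K1, δ ≤ ‖z - w‖ := by
  obtain ⟨d1, p1, q1⟩ := near_disj hK0 hK2 h1
  obtain ⟨d2, p2, q2⟩ := near_disj hL0 hK1 h2
  obtain ⟨d3, p3, q3⟩ := near_disj hL2 hK1 h3
  refine ⟨min d1 (min d2 d3), lt_min p1 (lt_min p2 p3), ?_, ?_, ?_⟩
  · exact fun z hz w hw => (min_le_left _ _).trans (q1 z hz w hw)
  · exact fun z hz w hw => ((min_le_right _ _).trans (min_le_left _ _)).trans (q2 z hz w hw)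
  · exact fun z hz w hw => ((min_le_right _ _).trans (min_le_right _ _)).trans (q3 z hz w hw)

section

variable (h : CD D) {a b : ℂ} {φ : ℂ → ℂ} (hφ : IsHalf D a b φ) {t t' : Fin 4 → ℝ}
  (ht : StrictMono t) (ht' : StrictMono t')
include h hφ ht ht'

/-- **Upper bound.** -/
theorem upG_of_app (h0 : t' 0 < t 0) (h1 : t 1 < t' 1) (h2 : t' 2 < t 2) (h3 : t 3 < t' 3) (z1 : ℂ) :
    ∃ κ0 > 0, ∀ (κ : ℝ) (S : Shape) (ε ρ η : ℝ), κ ≤ κ0 → AppP D (PA φ b t') 1 κ S ε ρ η →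
      ∃ (ρ' : ℝ) (N2 N4 : Set ℂ), UpG S ε z1 (Af z1 '' D) (Af z1 '' PA φ b t 0)
        (Af z1 '' PA φ b t 2) ρ' N2 N4 := by
  have t01 : t 0 < t 1 := ht (by decide)
  have t12 : t 1 < t 2 := ht (by decide)
  have t23 : t 2 < t 3 := ht (by decide)
  have t01' : t' 0 < t' 1 := ht' (by decide)
  have t12' : t' 1 < t' 2 := ht' (by decide)
  have t23' : t' 2 < t' 3 := ht' (by decide)
  have J0 : ∀ s : Fin 4 → ℝ, JA s 0 = Icc (s 0) (s 1) := fun s => if_neg (by decide)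
  have J1 : ∀ s : Fin 4 → ℝ, JA s 1 = Icc (s 1) (s 2) := fun s => if_neg (by decide)
  have J2 : ∀ s : Fin 4 → ℝ, JA s 2 = Icc (s 2) (s 3) := fun s => if_neg (by decide)
  have J3 : ∀ s : Fin 4 → ℝ, JA s 3 = Iic (s 0) ∪ Ici (s 3) := fun s => if_pos rfl
  have hc' := fun i => pa_compact h hφ ht' i
  have hc := fun i => pa_compact h hφ ht i
  obtain ⟨δ, hδ, d1, d2, d3⟩ := exists_sep (hc' 0) ((hc' 1).union (hc' 3)) (hc' 2) (hc 0) (hc 2)
    (pa_disjoint hφ (t := t') (t' := t') (i := 0) (j := 2) (Or.inl (by decide)) (by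
      intro x hx hx'
      rw [J0] at hx; rw [J2] at hx'
      linarith [hx.2, hx'.1]))
    (Set.disjoint_union_right.2 ⟨pa_disjoint hφ (i := 0) (j := 1) (Or.inl (by decide)) (by
        intro x hx hx'
        rw [J0] at hx; rw [J1] at hx'
        linarith [hx.2, hx'.1]), pa_disjoint hφ (i := 0) (j := 3) (Or.inl (by decide)) (by
        intro x hx hx'
        rw [J0] at hx; rw [J3] at hx'
        rcases hx' with g | g
        · have : x ≤ t' 0 := g
          linarith [hx.1]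
        · have : t' 3 ≤ x := g
          linarith [hx.2])⟩)
    (Set.disjoint_union_right.2 ⟨pa_disjoint hφ (i := 2) (j := 1) (Or.inl (by decide)) (by
        intro x hx hx'
        rw [J2] at hx; rw [J1] at hx'
        linarith [hx.1, hx'.2]), pa_disjoint hφ (i := 2) (j := 3) (Or.inl (by decide)) (by
        intro x hx hx'
        rw [J2] at hx; rw [J3] at hx'
        rcases hx' with g | g
        · have : x ≤ t' 0 := g
          linarith [hx.1]
        · have : t' 3 ≤ x := g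
          linarith [hx.2])⟩)
  refine ⟨δ / 4, by positivity, fun κ S ε ρ η hκ A => ?_⟩
  have hfr : ∀ i, ∀ p ∈ PA φ b t i, p ∉ D := fun i p hp => by
    have := pa_frontier h hφ ht i hp
    rw [h.op.frontier_eq] at this; exact this.2
  have hκε : 0 < κ := A.ε0.trans_le A.εκ
  refine ⟨min ρ (δ / 4), {x | ∃ u, x = Af z1 u ∧ ∃ w ∈ PA φ b t' 0, ‖u - w‖ ≤ κ},
    {x | ∃ u, x = Af z1 u ∧ ∃ w ∈ PA φ b t' 2, ‖u - w‖ ≤ κ}, ?_⟩
  constructor
  · exact A.ε0
  · exact lt_min A.ρ0 (by positivity)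
  · rintro z _ ⟨w, hw, rfl⟩ hd hz
    rw [T0_eq] at hd ⊢
    have hd' := (le_Af z1 (ε * z) w).trans_lt (hd.trans_le (min_le_left _ _))
    obtain ⟨i, hi, hw'⟩ := A.r2 _ _ hw hd' (fun hcon => hz ((mem_Om_scale A.ε0).1 hcon))
    have hi' : i = 0 ∨ i = 2 := by
      match i with
      | 0 => exact Or.inl rfl
      | 1 => exact absurd rfl hi
      | 2 => exact Or.inr rfl
      | 3 => exact absurd rfl hi
    rcases hi' with rfl | rfl
    · exact Or.inl ⟨_, rfl, hw'⟩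
    · exact Or.inr ⟨_, rfl, hw'⟩
  · rintro i hi z hz _ ⟨w, hw, rfl⟩
    rw [T0_eq]
    exact (min_le_left _ _).trans ((A.o1 rfl i hi _ (onS_scale A.ε0 hz) w hw).trans (le_Af _ _ _))
  · intro i hi hi' z hz
    rw [T0_eq]
    exact ⟨_, rfl, A.s2 i hi hi' _ (onS_scale A.ε0 hz)⟩
  · intro i hi hi' z hz
    rw [T0_eq]
    exact ⟨_, rfl, A.s4 i hi hi' _ (onS_scale A.ε0 hz)⟩
  · rintro _ ⟨u, rfl, w, hw, hd⟩ _ ⟨v, rfl, w', hw', hd'⟩
    have k1 := d1 w hw w' hw'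
    have k2 := norm_sub_le_norm_sub_add_norm_sub w u w'
    have k3 := norm_sub_le_norm_sub_add_norm_sub u v w'
    rw [norm_sub_rev w u] at k2
    have := le_Af z1 u v
    exact (min_le_right _ _).trans (by linarith)
  · rintro _ ⟨p, hp, rfl⟩
    rw [PA0] at hp
    obtain ⟨x, hx, rfl⟩ := hp
    refine ⟨_, rfl, φ x, ?_, by rw [sub_self, norm_zero]; exact hκε.le⟩
    rw [PA0]
    exact ⟨x, ⟨by linarith [hx.1], by linarith [hx.2]⟩, rfl⟩
  · rintro _ ⟨p, hp, rfl⟩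
    rw [PA2] at hp
    obtain ⟨x, hx, rfl⟩ := hp
    refine ⟨_, rfl, φ x, ?_, by rw [sub_self, norm_zero]; exact hκε.le⟩
    rw [PA2]
    exact ⟨x, ⟨by linarith [hx.1], by linarith [hx.2]⟩, rfl⟩
  · rintro _ ⟨p, hp, rfl⟩ z hz
    rw [T0_eq]
    refine le_trans ?_ (le_Af z1 _ p)
    rcases A.r1 _ ((mem_Reg_scale A.ε0).2 hz) with g | ⟨i, hi, w, hw, hd⟩
    · by_contra hcon
      rw [not_le] at hcon
      refine hfr 0 p hp (g p ?_)
      rw [norm_sub_rev]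
      exact hcon.trans_le (min_le_left _ _)
    · have hw' : w ∈ PA φ b t' 1 ∪ PA φ b t' 3 := by
        rcases odd_fin i hi with rfl | rfl
        · exact Or.inl hw
        · exact Or.inr hw
      have k1 := d2 p hp w hw'
      have k2 := norm_sub_le_norm_sub_add_norm_sub p (ε * z) w
      rw [norm_sub_rev p (ε * z)] at k2
      exact (min_le_right _ _).trans (by linarith)
  · rintro _ ⟨p, hp, rfl⟩ z hz
    rw [T0_eq]
    refine le_trans ?_ (le_Af z1 _ p)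
    rcases A.r1 _ ((mem_Reg_scale A.ε0).2 hz) with g | ⟨i, hi, w, hw, hd⟩
    · by_contra hcon
      rw [not_le] at hcon
      refine hfr 2 p hp (g p ?_)
      rw [norm_sub_rev]
      exact hcon.trans_le (min_le_left _ _)
    · have hw' : w ∈ PA φ b t' 1 ∪ PA φ b t' 3 := by
        rcases odd_fin i hi with rfl | rfl
        · exact Or.inl hw
        · exact Or.inr hw
      have k1 := d3 p hp w hw'
      have k2 := norm_sub_le_norm_sub_add_norm_sub p (ε * z) w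
      rw [norm_sub_rev p (ε * z)] at k2
      exact (min_le_right _ _).trans (by linarith)

/-- **Lower bound.** -/
theorem loG_of_app (h0 : t 0 < t' 0) (h1 : t' 1 < t 1) (h2 : t 2 < t' 2) (h3 : t' 3 < t 3) (z1 : ℂ) :
    ∃ κ0 > 0, ∀ (κ : ℝ) (S : Shape) (ε ρ η : ℝ), κ ≤ κ0 → AppP D (PA φ b t') 0 κ S ε ρ η →
      ∃ (ρ' : ℝ) (N2 N4 : Set ℂ), LoG S ε z1 (Af z1 '' D) (Af z1 '' PA φ b t 0)
        (Af z1 '' PA φ b t 2) ρ' N2 N4 := by
  have t01 : t 0 < t 1 := ht (by decide)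
  have t12 : t 1 < t 2 := ht (by decide)
  have t23 : t 2 < t 3 := ht (by decide)
  have t01' : t' 0 < t' 1 := ht' (by decide)
  have t12' : t' 1 < t' 2 := ht' (by decide)
  have t23' : t' 2 < t' 3 := ht' (by decide)
  have J0 : ∀ s : Fin 4 → ℝ, JA s 0 = Icc (s 0) (s 1) := fun s => if_neg (by decide)
  have J1 : ∀ s : Fin 4 → ℝ, JA s 1 = Icc (s 1) (s 2) := fun s => if_neg (by decide)
  have J2 : ∀ s : Fin 4 → ℝ, JA s 2 = Icc (s 2) (s 3) := fun s => if_neg (by decide)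
  have J3 : ∀ s : Fin 4 → ℝ, JA s 3 = Iic (s 0) ∪ Ici (s 3) := fun s => if_pos rfl
  have hc' := fun i => pa_compact h hφ ht' i
  have hc := fun i => pa_compact h hφ ht i
  obtain ⟨δ1, hδ1, d1⟩ := near_disj (hc' 0) (hc' 2)
    (pa_disjoint hφ (t := t') (t' := t') (i := 0) (j := 2) (Or.inl (by decide)) (by
      intro x hx hx'
      rw [J0] at hx; rw [J2] at hx'
      linarith [hx.2, hx'.1]))
  have hnear : ∀ i0 : Fin 4, i0 ≠ 3 → (∀ j, j ≠ i0 → ∀ x ∈ JA t' i0, x ∉ JA t j) →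
      ∃ δ > 0, ∀ w ∈ PA φ b t' i0, ∀ p ∈ frontier D, p ∉ PA φ b t i0 → δ ≤ ‖w - p‖ := by
    intro i0 hi0 hJ
    have hf : ∀ j, ∃ δ > 0, j ≠ i0 → ∀ w ∈ PA φ b t' i0, ∀ p ∈ PA φ b t j, δ ≤ ‖w - p‖ := by
      intro j
      by_cases hj : j = i0
      · exact ⟨1, one_pos, fun hh => absurd hj hh⟩
      · obtain ⟨δ, hδ, H⟩ := near_disj (hc' i0) (hc j)
          (pa_disjoint hφ (t := t') (t' := t) (i := i0) (j := j) (Or.inl hi0) (hJ j hj))
        exact ⟨δ, hδ, fun _ => H⟩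
    choose f hf0 hf using hf
    refine ⟨min (min (f 0) (f 1)) (min (f 2) (f 3)), lt_min (lt_min (hf0 0) (hf0 1))
      (lt_min (hf0 2) (hf0 3)), fun w hw p hp hn => ?_⟩
    obtain ⟨j, hj⟩ := pa_cover h hφ ht hp
    have hji : j ≠ i0 := fun e => hn (e ▸ hj)
    refine le_trans ?_ (hf j hji w hw p hj)
    match j with
    | 0 => exact (min_le_left _ _).trans (min_le_left _ _)
    | 1 => exact (min_le_left _ _).trans (min_le_right _ _)
    | 2 => exact (min_le_right _ _).trans (min_le_left _ _)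
    | 3 => exact (min_le_right _ _).trans (min_le_right _ _)
  obtain ⟨δ2, hδ2, d2⟩ := hnear 0 (by decide) (by
    intro j hj x hx hx'
    rw [J0] at hx
    match j, hj, hx' with
    | 1, _, hx' => rw [J1] at hx'; linarith [hx.2, hx'.1]
    | 2, _, hx' => rw [J2] at hx'; linarith [hx.2, hx'.1]
    | 3, _, hx' =>
      rw [J3] at hx'
      rcases hx' with g | g
      · have : x ≤ t 0 := g
        linarith [hx.1]
      · have : t 3 ≤ x := g
        linarith [hx.2])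
  obtain ⟨δ3, hδ3, d3⟩ := hnear 2 (by decide) (by
    intro j hj x hx hx'
    rw [J2] at hx
    match j, hj, hx' with
    | 0, _, hx' => rw [J0] at hx'; linarith [hx.1, hx'.2]
    | 1, _, hx' => rw [J1] at hx'; linarith [hx.1, hx'.2]
    | 3, _, hx' =>
      rw [J3] at hx'
      rcases hx' with g | g
      · have : x ≤ t 0 := g
        linarith [hx.1]
      · have : t 3 ≤ x := g
        linarith [hx.2])
  obtain ⟨δ, hδ⟩ : ∃ δ, δ = min δ1 (min δ2 δ3) := ⟨_, rfl⟩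
  have hδ0 : 0 < δ := by rw [hδ]; exact lt_min hδ1 (lt_min hδ2 hδ3)
  have e1 : δ ≤ δ1 := by rw [hδ]; exact min_le_left _ _
  have e2 : δ ≤ δ2 := by rw [hδ]; exact (min_le_right _ _).trans (min_le_left _ _)
  have e3 : δ ≤ δ3 := by rw [hδ]; exact (min_le_right _ _).trans (min_le_right _ _)
  refine ⟨δ / 4, by positivity, fun κ S ε ρ η hκ A => ?_⟩
  have hκε : 0 < κ := A.ε0.trans_le A.εκ
  have hfA : frontier (Af z1 '' D) = Af z1 '' frontier D := by
    have := (affC (1 + Complex.I) one_add_I_ne z1).image_frontier D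
    exact this.symm
  refine ⟨min ρ (δ / 4), {x | ∃ u, x = Af z1 u ∧ ∃ w ∈ PA φ b t' 0, ‖u - w‖ ≤ κ},
    {x | ∃ u, x = Af z1 u ∧ ∃ w ∈ PA φ b t' 2, ‖u - w‖ ≤ κ}, ?_⟩
  constructor
  · exact A.ε0
  · exact lt_min A.ρ0 (by positivity)
  · intro z hz
    rw [T0_eq]
    rcases A.r1 _ ((mem_Reg_scale A.ε0).2 hz) with g | ⟨i, hi, hw⟩
    · left
      intro w hw
      obtain ⟨u, rfl⟩ := (affC (1 + Complex.I) one_add_I_ne z1).surjective w
      refine ⟨u, g u ?_, rfl⟩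
      exact (le_Af z1 u (ε * z)).trans_lt (hw.trans_le (min_le_left _ _))
    · right
      rcases even_fin i hi with rfl | rfl
      · exact Or.inl ⟨_, rfl, hw⟩
      · exact Or.inr ⟨_, rfl, hw⟩
  · intro i hi hi' z hz
    rw [T0_eq]
    refine ⟨⟨_, rfl, A.s2 i hi hi' _ (onS_scale A.ε0 hz)⟩, ?_⟩
    rintro _ ⟨w, hw, rfl⟩
    exact (min_le_left _ _).trans
      ((A.o0 rfl i (Or.inl ⟨hi, hi'⟩) _ (onS_scale A.ε0 hz) w hw).trans (le_Af _ _ _))
  · intro i hi hi' z hz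
    rw [T0_eq]
    refine ⟨⟨_, rfl, A.s4 i hi hi' _ (onS_scale A.ε0 hz)⟩, ?_⟩
    rintro _ ⟨w, hw, rfl⟩
    exact (min_le_left _ _).trans
      ((A.o0 rfl i (Or.inr ⟨hi, hi'⟩) _ (onS_scale A.ε0 hz) w hw).trans (le_Af _ _ _))
  · rintro _ ⟨u, rfl, w, hw, hd⟩ _ ⟨v, rfl, w', hw', hd'⟩
    have k1 := d1 w hw w' hw'
    have k2 := norm_sub_le_norm_sub_add_norm_sub w u w'
    have k3 := norm_sub_le_norm_sub_add_norm_sub u v w'
    rw [norm_sub_rev w u] at k2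
    have := le_Af z1 u v
    exact (min_le_right _ _).trans (by linarith)
  · rintro p hp _ ⟨u, rfl, w, hw, hd⟩ hpd
    rw [hfA] at hp
    obtain ⟨p', hp', rfl⟩ := hp
    refine ⟨p', ?_, rfl⟩
    by_contra hcon
    have k1 := d2 w hw p' hp' hcon
    have k2 := (le_Af z1 p' u).trans_lt (hpd.trans_le (min_le_right _ _))
    have k3 := norm_sub_le_norm_sub_add_norm_sub w u p'
    rw [norm_sub_rev w u, norm_sub_rev u p'] at k3
    linarith
  · rintro p hp _ ⟨u, rfl, w, hw, hd⟩ hpd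
    rw [hfA] at hp
    obtain ⟨p', hp', rfl⟩ := hp
    refine ⟨p', ?_, rfl⟩
    by_contra hcon
    have k1 := d3 w hw p' hp' hcon
    have k2 := (le_Af z1 p' u).trans_lt (hpd.trans_le (min_le_right _ _))
    have k3 := norm_sub_le_norm_sub_add_norm_sub w u p'
    rw [norm_sub_rev w u, norm_sub_rev u p'] at k3
    linarith

end

end Pool.Agent.H5.FM
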