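import Mathlib
import Pool.Agent.H5.FM.Up

set_option autoImplicit false
open Set Filter Topology

/-! # Approximating shapes of a convex domain -/

namespace Pool.Agent.H5.FM

open Pool.Agent.Q1.M4 (Cell rect Reg Om)
open Pool.Agent.H21.FM
open Pool.Agent.H19.Rado (cr affC affC_apply half_preim_rot one_add_I_ne)
open Pool.Agent.H19.RH (Cht lam exists_cht)
open Pool.Agent.H69.Car (IsHalf HC HO)
open Pool.Agent.H14.FM (ic)

/-- shapes of the class `Cl` for the upper bound, with cross ratio tending to `l` -/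
def ApxU (Cl : Shape → Prop) (z1 : ℂ) (D A B : Set ℂ) (l : ℝ) : Prop :=
  ∃ (S : ℕ → Shape) (e : ℕ → ℝ) (ψ : ℕ → ℂ → ℂ),
    (∀ n, Cl (S n) ∧ Cht (S n).P ic ic (ψ n) ∧
      ∃ (ρ : ℝ) (N2 N4 : Set ℂ), UpG (S n) (e n) z1 D A B ρ N2 N4) ∧
    Tendsto (fun n => lam (S n).P ic ic (S n).m2 (S n).m3 (S n).m4 (ψ n)) atTop (𝓝 l)

/-- shapes of the class `Cl` for the lower bound, with cross ratio tending to `l` -/
def ApxL (Cl : Shape → Prop) (z1 : ℂ) (D A B : Set ℂ) (l : ℝ) : Prop :=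
  ∃ (S : ℕ → Shape) (e : ℕ → ℝ) (ψ : ℕ → ℂ → ℂ),
    (∀ n, Cl (S n) ∧ Cht (S n).P ic ic (ψ n) ∧
      ∃ (ρ : ℝ) (N2 N4 : Set ℂ), LoG (S n) (e n) z1 D A B ρ N2 N4) ∧
    Tendsto (fun n => lam (S n).P ic ic (S n).m2 (S n).m3 (S n).m4 (ψ n)) atTop (𝓝 l)

variable {D : Set ℂ}

/-- the preimage of a convex domain in the tile frame -/
lemma cd_preimage (hc : Convex ℝ D) (ho : IsOpen D) (hb : Bornology.IsBounded D) {z1 : ℂ}
    (hz : z1 ∈ D) : CD ((fun z => (1 + Complex.I) * z + z1) ⁻¹' D) where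
  conv := by
    intro u hu v hv s t hs ht hst
    have := hc hu hv hs ht hst
    show (1 + Complex.I) * (s • u + t • v) + z1 ∈ D
    convert this using 1
    simp only [Complex.real_smul]
    have e : ((s : ℂ) + t) = 1 := by exact_mod_cast hst
    linear_combination (-z1) * e
  op := ho.preimage (by fun_prop)
  bd := by
    obtain ⟨R, hR⟩ := hb.exists_norm_le
    rw [Metric.isBounded_iff_subset_closedBall 0]
    refine ⟨R + ‖z1‖, fun z hz => ?_⟩
    rw [mem_closedBall_zero_iff]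
    have h1 := hR _ hz
    have h2 := le_Af z1 z 0
    have e : Af z1 z - Af z1 0 = ((1 + Complex.I) * z + z1) - z1 := by unfold Af; ring
    rw [e, sub_zero] at h2
    have := norm_sub_le ((1 + Complex.I) * z + z1) z1
    linarith
  zero := by
    show (1 + Complex.I) * 0 + z1 ∈ D
    rw [mul_zero, zero_add]
    exact hz

lemma Af_preimage (z1 : ℂ) (D : Set ℂ) : Af z1 '' ((fun z => (1 + Complex.I) * z + z1) ⁻¹' D) = D :=
  Set.image_preimage_eq D (affC (1 + Complex.I) one_add_I_ne z1).surjective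

lemma Af_inv (z1 w : ℂ) : Af z1 ((w - z1) / (1 + Complex.I)) = w := by
  have := one_add_I_ne
  unfold Af
  field_simp
  ring

lemma Af_PA (z1 : ℂ) (φ : ℂ → ℂ) (b : ℂ) (t : Fin 4 → ℝ) (i : Fin 4) :
    Af z1 '' PA (fun z => (φ z - z1) / (1 + Complex.I)) ((b - z1) / (1 + Complex.I)) t i =
      PA φ b t i := by
  unfold PA
  split_ifs
  · rw [image_union, image_image, image_singleton]
    simp only [Af_inv]
  · rw [image_image]
    simp only [Af_inv]

section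

variable (hc : Convex ℝ D) (ho : IsOpen D) (hb : Bornology.IsBounded D) {z1 : ℂ} (hz : z1 ∈ D)
  {a b : ℂ} {φ : ℂ → ℂ} (hφ : IsHalf D a b φ) {t t' : Fin 4 → ℝ} (ht : StrictMono t)
  (ht' : StrictMono t')
include hc ho hb hz hφ ht ht'

/-- **Upper bound**, convex domains. -/
theorem apxU_convex (h0 : t' 0 < t 0) (h1 : t 1 < t' 1) (h2 : t' 2 < t 2) (h3 : t 3 < t' 3) :
    ApxU (fun _ => True) z1 D ((fun x : ℝ => φ x) '' Icc (t 0) (t 1))
      ((fun x : ℝ => φ x) '' Icc (t 2) (t 3)) (1 - cr (t' 0) (t' 1) (t' 2) (t' 3)) := by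
  have h := cd_preimage hc ho hb hz
  have hφ' := half_preim_rot hφ z1
  obtain ⟨κ0, hκ0, H⟩ := upG_of_app h hφ' ht ht' h0 h1 h2 h3 z1
  obtain ⟨c, c1, c2, c3, j, c4⟩ := pa_ca h hφ' ht'
  have hA : ∀ n : ℕ, ∃ (S : Shape) (ε ρ η : ℝ), AppP ((fun z => (1 + Complex.I) * z + z1) ⁻¹' D)
      (PA (fun z => (φ z - z1) / (1 + Complex.I)) ((b - z1) / (1 + Complex.I)) t') 1
      (κ0 / (n + 1)) S ε ρ η := fun n =>
    exists_app h c1 c2 c3 j c4 (Or.inr rfl) (by positivity)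
  choose S ε ρ η A using hA
  have hκ : Tendsto (fun n : ℕ => κ0 / ((n : ℝ) + 1)) atTop (𝓝 0) := by
    have := (tendsto_one_div_add_atTop_nhds_zero_nat (𝕜 := ℝ)).const_mul κ0
    simpa [div_eq_mul_inv] using this
  choose ψ hψ using fun n => exists_cht (x := ic) (y := ic) (S n).P ic_mono ic_mono
  refine ⟨S, ε, ψ, fun n => ⟨trivial, hψ n, ?_⟩, lam_limit h hφ' ht' hκ A hψ⟩
  have hle : κ0 / ((n : ℝ) + 1) ≤ κ0 := div_le_self hκ0.le (by
    have := Nat.cast_nonneg (α := ℝ) n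
    linarith)
  have := H _ _ _ _ _ hle (A n)
  rw [Af_preimage, Af_PA, Af_PA, PA0, PA2] at this
  exact this

/-- **Lower bound**, convex domains. -/
theorem apxL_convex (h0 : t 0 < t' 0) (h1 : t' 1 < t 1) (h2 : t 2 < t' 2) (h3 : t' 3 < t 3) :
    ApxL (fun _ => True) z1 D ((fun x : ℝ => φ x) '' Icc (t 0) (t 1))
      ((fun x : ℝ => φ x) '' Icc (t 2) (t 3)) (1 - cr (t' 0) (t' 1) (t' 2) (t' 3)) := by
  have h := cd_preimage hc ho hb hz
  have hφ' := half_preim_rot hφ z1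
  obtain ⟨κ0, hκ0, H⟩ := loG_of_app h hφ' ht ht' h0 h1 h2 h3 z1
  obtain ⟨c, c1, c2, c3, j, c4⟩ := pa_ca h hφ' ht'
  have hA : ∀ n : ℕ, ∃ (S : Shape) (ε ρ η : ℝ), AppP ((fun z => (1 + Complex.I) * z + z1) ⁻¹' D)
      (PA (fun z => (φ z - z1) / (1 + Complex.I)) ((b - z1) / (1 + Complex.I)) t') 0
      (κ0 / (n + 1)) S ε ρ η := fun n =>
    exists_app h c1 c2 c3 j c4 (Or.inl rfl) (by positivity)
  choose S ε ρ η A using hA
  have hκ : Tendsto (fun n : ℕ => κ0 / ((n : ℝ) + 1)) atTop (𝓝 0) := by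
    have := (tendsto_one_div_add_atTop_nhds_zero_nat (𝕜 := ℝ)).const_mul κ0
    simpa [div_eq_mul_inv] using this
  choose ψ hψ using fun n => exists_cht (x := ic) (y := ic) (S n).P ic_mono ic_mono
  refine ⟨S, ε, ψ, fun n => ⟨trivial, hψ n, ?_⟩, lam_limit h hφ' ht' hκ A hψ⟩
  have hle : κ0 / ((n : ℝ) + 1) ≤ κ0 := div_le_self hκ0.le (by
    have := Nat.cast_nonneg (α := ℝ) n
    linarith)
  have := H _ _ _ _ _ hle (A n)
  rw [Af_preimage, Af_PA, Af_PA, PA0, PA2] at this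
  exact this

end

end Pool.Agent.H5.FM
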