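import Mathlib
import Pool.Agent.H5.FM.Hv9
import Pool.Agent.H5.FM.App

set_option autoImplicit false
open Set

/-! # Existence of the monotone data -/

namespace Pool.Agent.H5.FM

open Pool.Agent.Q1.M4 (Cell)

variable {D : Set ℂ} {p g σ δ : ℝ} {e : ℤ} {c : Fin 4 → ℝ}

lemma exists_gmod (h : CD D) {ω : ℝ} (hω : 0 < ω) : ∃ σ' > 0, GMod D σ' ω := by
  obtain ⟨δ, hδ, H⟩ := Metric.uniformContinuousOn_iff.1
    (isCompact_Icc.uniformContinuousOn_of_continuous (Pool.Agent.H19.Rado.Gam_cont h)) ω hω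
  refine ⟨δ / 2, by positivity, fun s s' h1 h2 h3 h4 h5 => ?_⟩
  have := H s ⟨h1, h2⟩ s' ⟨h3, h4⟩ (by rw [Real.dist_eq]; linarith)
  rw [dist_eq_norm] at this
  exact this.le

/-- `p` is a pivot for the cuts: the jumps which need a steep floor are not in the flat part -/
structure Pv (D : Set ℂ) (c : Fin 4 → ℝ) (e : ℤ) (p : ℝ) : Prop where
  min : IsMin D p
  n0 : ∀ k, c k ≠ 0
  nw : ∀ k, c k ≠ wd D
  np : ∀ k, c k + xL D ≠ p
  L : ∀ k : Fin 4, 0 < c k → c k + xL D < p → (k.val : ℤ) % 2 = e → flo D p < flo D (c k + xL D)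
  R : ∀ k : Fin 4, c k < wd D → p < c k + xL D → (k.val : ℤ) % 2 ≠ e →
    flo D p < flo D (c k + xL D)

lemma exists_min4 (f : Fin 4 → ℝ) (hf : ∀ k, 0 < f k) : ∃ g > 0, ∀ k, g ≤ f k := by
  refine ⟨min (min (f 0) (f 1)) (min (f 2) (f 3)), lt_min (lt_min (hf 0) (hf 1))
    (lt_min (hf 2) (hf 3)), fun k => ?_⟩
  match k with
  | 0 => exact (min_le_left _ _).trans (min_le_left _ _)
  | 1 => exact (min_le_left _ _).trans (min_le_right _ _)
  | 2 => exact (min_le_right _ _).trans (min_le_left _ _)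
  | 3 => exact (min_le_right _ _).trans (min_le_right _ _)

lemma Mrg.le (M : Mrg D c e p g σ δ) {g' δ' : ℝ} (h1 : g' ≤ g) (h2 : δ' ≤ δ) :
    Mrg D c e p g' σ δ' where
  mono := M.mono
  gap := fun k => h1.trans (M.gap k)
  g0 := fun k => h1.trans (M.g0 k)
  gw := fun k => h1.trans (M.gw k)
  gp := fun k => h1.trans (M.gp k)
  mL := fun k a b d => by
    obtain ⟨x, y⟩ := M.mL k a b d
    constructor <;> linarith
  mR := fun k a b d => by
    obtain ⟨x, y⟩ := M.mR k a b d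
    constructor <;> linarith

/-- **Margins exist.** -/
theorem exists_mrg (h : CD D) (hc : StrictMono c) (P : Pv D c e p) :
    ∃ g > 0, ∀ σ, 0 < σ → 4 * σ < g → ∃ δ > 0, Mrg D c e p g σ δ := by
  obtain ⟨g1, p1, q1⟩ := exists_min4 (fun k => |c k|) (fun k => abs_pos.2 (P.n0 k))
  obtain ⟨g2, p2, q2⟩ := exists_min4 (fun k => |c k - wd D|)
    (fun k => abs_pos.2 (sub_ne_zero.2 (P.nw k)))
  obtain ⟨g3, p3, q3⟩ := exists_min4 (fun k => |c k + xL D - p|)
    (fun k => abs_pos.2 (sub_ne_zero.2 (P.np k)))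
  have h01 : c 0 < c 1 := hc (by decide)
  have h12 : c 1 < c 2 := hc (by decide)
  have h23 : c 2 < c 3 := hc (by decide)
  obtain ⟨g, hg⟩ : ∃ g, g = min (min g1 (min g2 g3)) (min (c 1 - c 0) (min (c 2 - c 1) (c 3 - c 2))) :=
    ⟨_, rfl⟩
  have hg0 : 0 < g := by
    rw [hg]
    exact lt_min (lt_min p1 (lt_min p2 p3)) (lt_min (by linarith) (lt_min (by linarith)
      (by linarith)))
  have l1 : g ≤ g1 := by rw [hg]; exact (min_le_left _ _).trans (min_le_left _ _)
  have l2 : g ≤ g2 := by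
    rw [hg]; exact (min_le_left _ _).trans ((min_le_right _ _).trans (min_le_left _ _))
  have l3 : g ≤ g3 := by
    rw [hg]; exact (min_le_left _ _).trans ((min_le_right _ _).trans (min_le_right _ _))
  have l4 : g ≤ c 1 - c 0 := by rw [hg]; exact (min_le_right _ _).trans (min_le_left _ _)
  have l5 : g ≤ c 2 - c 1 := by
    rw [hg]; exact (min_le_right _ _).trans ((min_le_right _ _).trans (min_le_left _ _))
  have l6 : g ≤ c 3 - c 2 := by
    rw [hg]; exact (min_le_right _ _).trans ((min_le_right _ _).trans (min_le_right _ _))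
  refine ⟨g, hg0, fun σ hσ0 hσ => ?_⟩
  have hwd : wd D = xR D - xL D := rfl
  -- left margins
  have mL : ∀ k : Fin 4, ∃ δ > 0, 0 < c k → c k + xL D < p → (k.val : ℤ) % 2 = e →
      flo D (c k + xL D) + δ ≤ flo D (c k + xL D - σ) ∧
      flo D (c k + xL D + σ) + δ ≤ flo D (c k + xL D) := by
    intro k
    by_cases hk : 0 < c k ∧ c k + xL D < p ∧ (k.val : ℤ) % 2 = e
    · obtain ⟨k1, k2, k3⟩ := hk
      have f0 := P.L k k1 k2 k3
      have a1 := q1 k
      have a3 := q3 k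
      rw [abs_of_pos k1] at a1
      rw [abs_of_neg (by linarith)] at a3
      have f1 := P.min.anti h (x := c k + xL D - σ) (x' := c k + xL D) (by linarith) (by linarith)
        (by linarith)
      have f2 := P.min.anti_lt h (x := c k + xL D - σ) (x' := c k + xL D) (by linarith) (by linarith)
        (by linarith) (by linarith)
      have f3 := P.min.anti_lt h (x := c k + xL D) (x' := c k + xL D + σ) (by linarith) (by linarith)
        (by linarith) f0
      refine ⟨min (flo D (c k + xL D - σ) - flo D (c k + xL D))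
        (flo D (c k + xL D) - flo D (c k + xL D + σ)), lt_min (by linarith) (by linarith),
        fun _ _ _ => ⟨?_, ?_⟩⟩
      · have := min_le_left (flo D (c k + xL D - σ) - flo D (c k + xL D))
          (flo D (c k + xL D) - flo D (c k + xL D + σ))
        linarith
      · have := min_le_right (flo D (c k + xL D - σ) - flo D (c k + xL D))
          (flo D (c k + xL D) - flo D (c k + xL D + σ))
        linarith
    · exact ⟨1, one_pos, fun a b d => absurd ⟨a, b, d⟩ hk⟩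
  have mR : ∀ k : Fin 4, ∃ δ > 0, c k < wd D → p < c k + xL D → (k.val : ℤ) % 2 ≠ e →
      flo D (c k + xL D) + δ ≤ flo D (c k + xL D + σ) ∧
      flo D (c k + xL D - σ) + δ ≤ flo D (c k + xL D) := by
    intro k
    by_cases hk : c k < wd D ∧ p < c k + xL D ∧ (k.val : ℤ) % 2 ≠ e
    · obtain ⟨k1, k2, k3⟩ := hk
      have f0 := P.R k k1 k2 k3
      have a2 := q2 k
      have a3 := q3 k
      rw [abs_of_neg (by linarith)] at a2
      rw [abs_of_pos (by linarith)] at a3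
      have f1 := P.min.mono h (x := c k + xL D) (x' := c k + xL D + σ) (by linarith) (by linarith)
        (by linarith)
      have f2 := P.min.mono_lt h (x := c k + xL D) (x' := c k + xL D + σ) (by linarith) (by linarith)
        (by linarith) (by linarith)
      have f3 := P.min.mono_lt h (x := c k + xL D - σ) (x' := c k + xL D) (by linarith) (by linarith)
        (by linarith) f0
      refine ⟨min (flo D (c k + xL D + σ) - flo D (c k + xL D))
        (flo D (c k + xL D) - flo D (c k + xL D - σ)), lt_min (by linarith) (by linarith),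
        fun _ _ _ => ⟨?_, ?_⟩⟩
      · have := min_le_left (flo D (c k + xL D + σ) - flo D (c k + xL D))
          (flo D (c k + xL D) - flo D (c k + xL D - σ))
        linarith
      · have := min_le_right (flo D (c k + xL D + σ) - flo D (c k + xL D))
          (flo D (c k + xL D) - flo D (c k + xL D - σ))
        linarith
    · exact ⟨1, one_pos, fun a b d => absurd ⟨a, b, d⟩ hk⟩
  choose dL hL1 hL2 using mL
  choose dR hR1 hR2 using mR
  obtain ⟨d1, e1, e2⟩ := exists_min4 dL hL1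
  obtain ⟨d2, e3, e4⟩ := exists_min4 dR hR1
  refine ⟨min d1 d2, lt_min e1 e3, hc, ?_, fun k => l1.trans (q1 k), fun k => l2.trans (q2 k),
    fun k => l3.trans (q3 k), ?_, ?_⟩
  · intro k
    match k with
    | 0 => exact l4
    | 1 => exact l5
    | 2 => exact l6
  · intro k a b d
    obtain ⟨x, y⟩ := hL2 k a b d
    have := e2 k
    have := min_le_left d1 d2
    constructor <;> linarith
  · intro k a b d
    obtain ⟨x, y⟩ := hR2 k a b d
    have := e4 k
    have := min_le_right d1 d2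
    constructor <;> linarith

/-! ### Parameters for the four reflected domains -/

lemma fine_of {R r τ τ' κ : ℝ} {q : Par} (H : ∀ (R r : ℝ) (q : Par), Sml D R r τ' q → Fine D R r τ' κ q)
    (h1 : τ ≤ τ') (s : Sml D R r τ q) : Fine D R r τ κ q := by
  have F := H R r q (s.mono h1)
  refine { s with κ0 := F.κ0, τκ := by linarith [F.τκ], clf := ?_, clc := ?_ }
  · intro i a1 a2 c a3 a4 a5
    exact F.clf i a1 a2 c a3 a4 (by linarith)
  · intro i a1 a2 c a3 a4 a5
    exact F.clc i a1 a2 c a3 a4 (by linarith)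

lemma exists_par4 (h : CD D) {κ : ℝ} (hκ : 0 < κ) : ∃ (R r τ : ℝ) (q : Par), Fine D R r τ κ q ∧
    Fine (rx D) R r τ κ q ∧ Fine (ro D) R r τ κ q ∧ Fine (cj D) R r τ κ q ∧ q.η ≤ κ := by
  obtain ⟨R, hR0, hR⟩ := h.exists_R
  obtain ⟨r, hr0, hr⟩ := h.exists_r
  obtain ⟨τ1, hτ1, H1⟩ := exists_fine h hκ
  obtain ⟨τ2, hτ2, H2⟩ := exists_fine h.rx hκ
  obtain ⟨τ3, hτ3, H3⟩ := exists_fine h.ro hκ
  obtain ⟨τ4, hτ4, H4⟩ := exists_fine h.cj hκ
  obtain ⟨τ, hτe⟩ : ∃ τ, τ = min (min τ1 τ2) (min τ3 τ4) := ⟨_, rfl⟩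
  have hτ : 0 < τ := by rw [hτe]; exact lt_min (lt_min hτ1 hτ2) (lt_min hτ3 hτ4)
  have l1 : τ ≤ τ1 := by rw [hτe]; exact (min_le_left _ _).trans (min_le_left _ _)
  have l2 : τ ≤ τ2 := by rw [hτe]; exact (min_le_left _ _).trans (min_le_right _ _)
  have l3 : τ ≤ τ3 := by rw [hτe]; exact (min_le_right _ _).trans (min_le_left _ _)
  have l4 : τ ≤ τ4 := by rw [hτe]; exact (min_le_right _ _).trans (min_le_right _ _)
  set η := min (min (1 / 2) κ) (τ / (4 * R)) with hη
  have hη0 : 0 < η := lt_min (lt_min (by norm_num) hκ) (by positivity)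
  have hη1 : η ≤ 1 / 2 := (min_le_left _ _).trans (min_le_left _ _)
  have hη2 : η ≤ κ := (min_le_left _ _).trans (min_le_right _ _)
  have hη3 : η * R ≤ τ / 4 := by
    have : η ≤ τ / (4 * R) := min_le_right _ _
    rw [le_div_iff₀ (by positivity)] at this
    linarith
  set ε := min (η * r / 8) (τ / 16) with hε
  have hε0 : 0 < ε := lt_min (by positivity) (by positivity)
  have hε1 : ε ≤ η * r / 8 := min_le_left _ _
  have hε2 : ε ≤ τ / 16 := min_le_right _ _
  have s : Sml D R r τ ⟨ε, η, τ⟩ :=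
    { R0 := hR0, hR := hR, r0 := hr0, hr := hr, ε0 := hε0, η0 := hη0, η1 := hη1,
      hθ := by show η * R + 4 * ε ≤ τ / 2; linarith
      hτ := le_rfl
      hε := by show 8 * ε ≤ η * r; linarith }
  exact ⟨R, r, τ, ⟨ε, η, τ⟩, fine_of H1 l1 s, fine_of H2 l2 s.rx, fine_of H3 l3 s.cj.rx,
    fine_of H4 l4 s.cj, hη2⟩

/-- the cuts `c` allow monotone approximating polygons -/
structure Gd (D : Set ℂ) (c : Fin 4 → ℝ) (e : ℤ) : Prop where
  mono : StrictMono c
  c0 : 0 < c 0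
  cT : c 3 ≤ TD D
  pb : ∃ p, Pv D c e p
  pt : ∃ p, Pv (ro D) (fun k => c k - (wd D + tr D)) e p
  nv : NoV D c e

/-- **The monotone data exist.** -/
theorem exists_hv (h : CD D) (he : e = 0 ∨ e = 1) (G : Gd D c e) {κ : ℝ} (hκ : 0 < κ) :
    ∃ (R r τ κ' g σ' ω : ℝ) (q : Par), Fine D R r τ κ' q ∧ q.η ≤ κ ∧ κ' + τ < g ∧ Cuts D g c ∧
      Nonempty (HV D q c e σ') ∧ GMod D σ' ω ∧ 0 ≤ ω ∧ 0 ≤ σ' ∧ 4 * κ' + ω ≤ κ := by
  obtain ⟨p, hp⟩ := G.pb
  obtain ⟨p', hp'⟩ := G.pt
  obtain ⟨g1, hg1, M1⟩ := exists_mrg h G.mono hp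
  obtain ⟨g2, hg2, M2⟩ := exists_mrg h.ro (fun a b hab => sub_lt_sub_right (G.mono hab) _) hp'
  obtain ⟨g3, hg3, hC⟩ := exists_gap (D := D) G.mono G.c0 G.cT
  obtain ⟨σ1, hσ1, O⟩ := exists_gmod h (show 0 < κ / 2 by positivity)
  obtain ⟨g, hg⟩ : ∃ g, g = min g1 (min g2 g3) := ⟨_, rfl⟩
  have hg0 : 0 < g := by rw [hg]; exact lt_min hg1 (lt_min hg2 hg3)
  have l1 : g ≤ g1 := by rw [hg]; exact min_le_left _ _
  have l2 : g ≤ g2 := by rw [hg]; exact (min_le_right _ _).trans (min_le_left _ _)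
  have l3 : g ≤ g3 := by rw [hg]; exact (min_le_right _ _).trans (min_le_right _ _)
  obtain ⟨σ, hσ⟩ : ∃ σ, σ = min (σ1 / 2) (g / 8) := ⟨_, rfl⟩
  have hσ0 : 0 < σ := by rw [hσ]; exact lt_min (by positivity) (by positivity)
  have m1 : σ ≤ σ1 / 2 := by rw [hσ]; exact min_le_left _ _
  have m2 : σ ≤ g / 8 := by rw [hσ]; exact min_le_right _ _
  obtain ⟨δ1, hδ1, N1⟩ := M1 σ hσ0 (by linarith)
  obtain ⟨δ2, hδ2, N2⟩ := M2 σ hσ0 (by linarith)
  obtain ⟨κ', hκ'⟩ : ∃ κ', κ' = min (min (κ / 8) (g / 8)) (min (min δ1 δ2 / 4) σ1) := ⟨_, rfl⟩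
  have hκ0 : 0 < κ' := by
    rw [hκ']
    exact lt_min (lt_min (by positivity) (by positivity))
      (lt_min (by have := lt_min hδ1 hδ2; positivity) hσ1)
  have n1 : κ' ≤ κ / 8 := by rw [hκ']; exact (min_le_left _ _).trans (min_le_left _ _)
  have n2 : κ' ≤ g / 8 := by rw [hκ']; exact (min_le_left _ _).trans (min_le_right _ _)
  have n3 : κ' ≤ min δ1 δ2 / 4 := by rw [hκ']; exact (min_le_right _ _).trans (min_le_left _ _)
  have n4 : κ' ≤ σ1 := by rw [hκ']; exact (min_le_right _ _).trans (min_le_right _ _)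
  have n5 := min_le_left δ1 δ2
  have n6 := min_le_right δ1 δ2
  have n7 := lt_min hδ1 hδ2
  obtain ⟨R, r, τ, q, s1, s2, s3, s4, hqη⟩ := exists_par4 h hκ0
  have hτκ := s1.τκ
  have hτ := s1.τ0
  have hετ := Fine.ετ h s1
  have hε := s1.ε0
  obtain ⟨lo, Lb, B⟩ := exists_bot h s1 s2 he hp.min (N1.le l1 (le_refl δ1)) (by linarith)
    (by linarith) hσ0 (by linarith)
  obtain ⟨up, Lt, T⟩ := exists_top h s3 s4 he hp'.min (N2.le l2 (le_refl δ2)) (by linarith)
    (by linarith) hσ0 (by linarith)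
  refine ⟨R, r, τ, κ', g, σ + 3 * q.ε, κ / 2, q, s1, by linarith, by linarith, ?_,
    ⟨⟨lo, Lb, up, Lt, B, T⟩⟩, ?_, by positivity, by positivity, by linarith⟩
  · exact ⟨G.mono, fun k => l3.trans (hC.gap k), l3.trans hC.g0, l3.trans hC.gT, G.cT⟩
  · intro u v a1 a2 a3 a4 a5
    exact O u v a1 a2 a3 a4 (by linarith)

end Pool.Agent.H5.FM
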