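import Mathlib
import Pool.Agent.H5.FM.Hv10

set_option autoImplicit false
open Set

/-! # Approximation of a convex domain by shapes with intervals as rows and columns -/

namespace Pool.Agent.H5.FM

open Pool.Agent.Q1.M4 (Cell rect Reg Om mem_Om)
open Pool.Agent.H21.FM
open Pool.Agent.H19.Rado (CA)

variable {D : Set ℂ} {c : Fin 4 → ℝ}

/-- parity of the labels of the outer arcs -/
def eo (j : Fin 4) (o : ℕ) : ℤ := if o = 1 then ((4 - j.val : ℕ) : ℤ) % 2 else (((4 - j.val : ℕ) : ℤ) + 1) % 2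

/-- **Approximating shapes exist**, with rows and columns which are intervals. -/
theorem exists_appV (h : CD D) (j : Fin 4) {o : ℕ} (ho : o = 0 ∨ o = 1) (G : Gd D c (eo j o))
    {P : Fin 4 → Set ℂ} (hP : ∀ k, P k = CA D c (k - j)) {κ : ℝ}
    (hκ : 0 < κ) : ∃ (S : Shape) (ε ρ η : ℝ), HVC S.P.Q ∧ AppP D P o κ S ε ρ η := by
  have hc := G.mono
  obtain ⟨R, r, τ, κ', g, σ', ω, q, s, hqη, hg, hC, ⟨V⟩, O, hω, hσ', hK⟩ := exists_hv h (by
    unfold eo; split_ifs <;> omega) G hκ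
  -- labels
  obtain ⟨k, hk⟩ : ∃ k : ℕ, k = 4 - j.val := ⟨_, rfl⟩
  have hj := j.isLt
  obtain ⟨e, he⟩ : ∃ e : ℤ, e = if o = 1 then (k : ℤ) % 2 else ((k : ℤ) + 1) % 2 := ⟨_, rfl⟩
  have heo : eo j o = e := by rw [he, hk]; rfl
  rw [heo] at V G
  have he01 : e = 0 ∨ e = 1 := by
    rw [he]; split_ifs <;> omega
  set p := V.mk' h s e he01 hg hC with hp
  obtain ⟨S, hQ, L1, L2, L3, L4⟩ := p.exists_shape p.toProf.good k (by omega)
  have hQ' : S.P.Q = (V.mk' h s e he01 hg hC).Q := hQ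
  have hε := s.ε0
  have hετ := Fine.ετ h s
  have hτκ := s.τκ
  -- nearness in terms of `P`
  have hNP : ∀ {m : ℤ} {z : ℂ}, Nr D c (4 * κ' + ω) m z → (0 ≤ m ∧ m ≤ 4) ∧
      ∃ w ∈ P (ci m + j), ‖z - w‖ ≤ κ := by
    intro m z hN
    obtain ⟨hm, w, hw, hd⟩ := hN.ca hc
    refine ⟨hm, w, ?_, by linarith⟩
    rw [hP, add_sub_cancel_right]
    exact hw
  have hside : ∀ {sd : Cell × ℤ} {m : ℤ} {z : ℂ}, p.LabE sd m → OnS q.ε sd z →
      ∃ m' : ℤ, (∃ t : ℤ, m' = m - 4 * t) ∧ (0 ≤ m' ∧ m' ≤ 4) ∧ ∃ w ∈ P (ci m' + j), ‖z - w‖ ≤ κ := by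
    rintro sd m z ⟨t, hL⟩ hz
    obtain ⟨a, b⟩ := hNP (near_sideV h s e he01 hg hC V O hω hL ((onS_four t).2 hz))
    exact ⟨m - 4 * t, ⟨t, rfl⟩, a, b⟩
  have houtE : ∀ {sd : Cell × ℤ} {m : ℤ} {z : ℂ}, p.LabE sd m → m % 2 = e → OnS q.ε sd z →
      z ∉ th q.θ D := by
    rintro sd m z ⟨t, hL⟩ hm hz
    exact out_sideV h s e he01 hg hC V hL (by omega) ((onS_four t).2 hz)
  have hfar : ∀ {z : ℂ}, z ∉ th q.θ D → ∀ w ∈ D, min (q.η * r / 2) q.θ ≤ ‖z - w‖ := by
    intro z hz w hw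
    by_contra hcon
    have h5 : ‖z - w‖ < q.θ := (not_le.1 hcon).trans_le (min_le_right _ _)
    refine hz ⟨w, hw, ?_, ?_⟩
    · have := Complex.abs_re_le_norm (z - w)
      rw [Complex.sub_re] at this
      linarith
    · have := Complex.abs_im_le_norm (z - w)
      rw [Complex.sub_im] at this
      linarith
  refine ⟨S, q.ε, min (q.η * r / 2) q.θ, q.η, by rw [hQ']; exact hvc h s e he01 hg hC V G.nv, ?_⟩
  have hρ0 : 0 < min (q.η * r / 2) q.θ :=
    lt_min (by have := mul_pos s.η0 s.r0; linarith) s.θ0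
  have idx : ∀ {m' : ℤ} (a : ℕ) (i : Fin 4), (∃ t : ℤ, m' = (k : ℤ) + a - 4 * t) →
      (0 ≤ m' ∧ m' ≤ 4) → i.val = (a + 3) % 4 → ci m' + j = i := by
    rintro m' a i ⟨t, ht⟩ hm hi
    apply Fin.ext
    rw [Fin.val_add, hi]
    have hcv : ((ci m' : Fin 4).val : ℤ) = (m' + 3) % 4 := by
      unfold ci
      split_ifs with h1 h2 h3
      · rw [h1]; decide
      · rw [h2]; decide
      · rw [h3]; decide
      · have : m' = 0 ∨ m' = 4 := by omega
        rcases this with h | h <;> rw [h] <;> decide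
    omega
  constructor
  · exact hε
  · exact hρ0
  · exact s.η0
  · exact s.η1
  · linarith
  · linarith [s.κ0]
  · intro i hi z hz
    obtain ⟨m', h1, h2, h3⟩ := hside (L1 i hi) hz
    rwa [idx 0 3 (by simpa using h1) h2 (by decide)] at h3
  · intro i hi hi' z hz
    obtain ⟨m', h1, h2, h3⟩ := hside (L2 i hi hi') hz
    rwa [idx 1 0 (by simpa using h1) h2 (by decide)] at h3
  · intro i hi hi' z hz
    obtain ⟨m', h1, h2, h3⟩ := hside (L3 i hi hi') hz
    rwa [idx 2 1 (by simpa using h1) h2 (by decide)] at h3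
  · intro i hi hi' z hz
    obtain ⟨m', h1, h2, h3⟩ := hside (L4 i hi hi') hz
    rwa [idx 3 2 (by simpa using h1) h2 (by decide)] at h3
  · intro ho1 i hFr z hz
    rw [if_pos ho1] at he
    rcases hFr with h1 | ⟨h1, h2⟩
    · exact hfar (houtE (L1 i h1) he.symm hz)
    · exact hfar (houtE (L3 i h1 h2) (by omega) hz)
  · intro ho0 i hW z hz
    rw [if_neg (by omega)] at he
    rcases hW with ⟨h1, h2⟩ | ⟨h1, h2⟩
    · exact hfar (houtE (L2 i h1 h2) he.symm hz)
    · exact hfar (houtE (L4 i h1 h2) (by omega) hz)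
  · intro z hz
    rw [hQ'] at hz
    rcases region1V h s e he01 hg hC V O hω hσ' hz with h1 | ⟨m, hm, hN⟩
    · exact Or.inl fun w hw => h1 w (hw.trans_le (min_le_left _ _))
    · right
      obtain ⟨hm', h2⟩ := hNP hN
      refine ⟨ci m + j, ?_, h2⟩
      have hcv : ((ci m : Fin 4).val : ℤ) = (m + 3) % 4 := by
        unfold ci
        split_ifs with h1 h2 h3
        · rw [h1]; decide
        · rw [h2]; decide
        · rw [h3]; decide
        · have : m = 0 ∨ m = 4 := by omega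
          rcases this with h | h <;> rw [h] <;> decide
      rw [Fin.val_add]
      rcases ho with ho | ho
      · rw [if_neg (by omega)] at he; omega
      · rw [if_pos ho] at he; omega
  · intro z w hw hd hz
    rw [hQ'] at hz
    have hth : z ∈ th q.θ D := by
      refine ⟨w, hw, ?_, ?_⟩
      · have := Complex.abs_re_le_norm (z - w)
        rw [Complex.sub_re] at this
        exact this.trans_lt (hd.trans_le (min_le_right _ _))
      · have := Complex.abs_im_le_norm (z - w)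
        rw [Complex.sub_im] at this
        exact this.trans_lt (hd.trans_le (min_le_right _ _))
    obtain ⟨m, hm, hN⟩ := region2V h s e he01 hg hC V O hω hz hth
    obtain ⟨hm', h2⟩ := hNP hN
    refine ⟨ci m + j, ?_, h2⟩
    have hcv : ((ci m : Fin 4).val : ℤ) = (m + 3) % 4 := by
      unfold ci
      split_ifs with h1 h2 h3
      · rw [h1]; decide
      · rw [h2]; decide
      · rw [h3]; decide
      · have : m = 0 ∨ m = 4 := by omega
        rcases this with h | h <;> rw [h] <;> decide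
    rw [Fin.val_add]
    rcases ho with ho | ho
    · rw [if_neg (by omega)] at he; omega
    · rw [if_pos ho] at he; omega
  · intro z hz
    rw [hQ']
    exact sc_OmV h s e he01 hg hC V hz
  · intro z hz
    rw [hQ'] at hz ⊢
    obtain ⟨w, hw, J⟩ := exists_joinV h s e he01 hg hC V hz
    refine ⟨w, hw, J.mono ?_⟩
    exact inter_subset_inter_right _ (Metric.ball_subset_ball (by linarith))

end Pool.Agent.H5.FM
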