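import Mathlib
import Pool.Agent.H5.FM.Hv11

set_option autoImplicit false
open Set

/-! # Cuts of a convex domain which allow monotone polygons -/

namespace Pool.Agent.H5.FM

open Pool.Agent.H19.Rado (CA gam_b gam_r gam_t gam_l Gam_frontier)

variable {D : Set ℂ} {p : ℝ} {e : ℤ} {c : Fin 4 → ℝ}

lemma IsMin.eq {a b : ℝ} (ha : IsMin D a) (hb : IsMin D b) : flo D a = flo D b :=
  le_antisymm (ha.2 b hb.1.1 hb.1.2) (hb.2 a ha.1.1 ha.1.2)

lemma IsMin.between (h : CD D) {a b x : ℝ} (ha : IsMin D a) (hb : IsMin D b) (h1 : a ≤ x)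
    (h2 : x ≤ b) : IsMin D x := by
  have hx : xL D ≤ x ∧ x ≤ xR D := ⟨ha.1.1.trans h1, h2.trans hb.1.2⟩
  refine ⟨hx, fun y h3 h4 => ?_⟩
  exact (hb.anti h ha.1.1 h1 h2).trans (ha.2 y h3 h4)

lemma isMin_of_le {x : ℝ} (hp : IsMin D p) (h1 : xL D ≤ x) (h2 : x ≤ xR D)
    (h3 : flo D x ≤ flo D p) : IsMin D x :=
  ⟨⟨h1, h2⟩, fun y h4 h5 => h3.trans (hp.2 y h4 h5)⟩

/-- gaps of strictly monotone cuts -/
lemma exists_gap4 (hc : StrictMono c) : ∃ g > 0, (∀ k : Fin 3, g ≤ c k.succ - c k.castSucc) ∧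
    ∀ j k : Fin 4, j < k → g ≤ c k - c j := by
  have h01 : c 0 < c 1 := hc (by decide)
  have h12 : c 1 < c 2 := hc (by decide)
  have h23 : c 2 < c 3 := hc (by decide)
  obtain ⟨g, hg⟩ : ∃ g, g = min (c 1 - c 0) (min (c 2 - c 1) (c 3 - c 2)) := ⟨_, rfl⟩
  have l1 : g ≤ c 1 - c 0 := by rw [hg]; exact min_le_left _ _
  have l2 : g ≤ c 2 - c 1 := by rw [hg]; exact (min_le_right _ _).trans (min_le_left _ _)
  have l3 : g ≤ c 3 - c 2 := by rw [hg]; exact (min_le_right _ _).trans (min_le_right _ _)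
  have hg0 : 0 < g := by rw [hg]; exact lt_min (by linarith) (lt_min (by linarith) (by linarith))
  refine ⟨g, hg0, ?_, ?_⟩
  · intro k
    match k with
    | 0 => exact l1
    | 1 => exact l2
    | 2 => exact l3
  · intro j k hjk
    fin_cases j <;> fin_cases k <;> simp at hjk ⊢ <;> linarith

/-- a column just before a cut -/
lemma before_cut (hc : StrictMono c) (k : Fin 4) {a u : ℝ} (ha : a < c k + u) :
    ∃ x, a < x ∧ x < c k + u ∧ (∀ j, c j + u ≠ x) ∧ cnt c (x - u) = (k.val : ℤ) := by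
  obtain ⟨g, hg, hg1, hg2⟩ := exists_gap4 hc
  obtain ⟨t, ht1, ht2⟩ := exists_between (show 0 < min g (c k + u - a) from lt_min hg (by linarith))
  rw [lt_min_iff] at ht2
  refine ⟨c k + u - t, by linarith, by linarith, ?_, ?_⟩
  · intro j hj
    rcases lt_trichotomy j k with h1 | h1 | h1
    · have := hg2 j k h1
      linarith
    · rw [h1] at hj; linarith
    · have := hg2 k j h1
      linarith
  · exact cnt_before hc hg1 k (by linarith) (by linarith)

/-- a column just after a cut -/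
lemma after_cut (hc : StrictMono c) (k : Fin 4) {b u : ℝ} (hb : c k + u < b) :
    ∃ x, c k + u < x ∧ x < b ∧ (∀ j, c j + u ≠ x) ∧ cnt c (x - u) = (k.val : ℤ) + 1 := by
  obtain ⟨g, hg, hg1, hg2⟩ := exists_gap4 hc
  obtain ⟨t, ht1, ht2⟩ := exists_between (show 0 < min g (b - (c k + u)) from lt_min hg (by linarith))
  rw [lt_min_iff] at ht2
  refine ⟨c k + u + t, by linarith, by linarith, ?_, ?_⟩
  · intro j hj
    rcases lt_trichotomy j k with h1 | h1 | h1
    · have := hg2 j k h1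
      linarith
    · rw [h1] at hj; linarith
    · have := hg2 k j h1
      linarith
  · exact cnt_after hc hg1 k (by linarith) (by linarith)

lemma cnt_gt (hc : StrictMono c) {k : Fin 4} {s : ℝ} (h : (k.val : ℤ) < cnt c s) : c k ≤ s := by
  by_contra hcon
  rw [not_le] at hcon
  have := cnt_mono hc hcon.le
  obtain ⟨g, hg, hg1, hg2⟩ := exists_gap4 hc
  rcases lt_or_ge s (c k - g) with h1 | h1
  · have h2 := cnt_mono hc h1.le
    have h3 := cnt_before hc hg1 k (s := c k - g) (by linarith) (by linarith)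
    omega
  · have h3 := cnt_before hc hg1 k (s := s) h1 hcon
    omega

lemma cnt_le' (hc : StrictMono c) {k : Fin 4} {s : ℝ} (h : cnt c s ≤ (k.val : ℤ)) : s < c k := by
  by_contra hcon
  rw [not_lt] at hcon
  obtain ⟨g, hg, hg1, hg2⟩ := exists_gap4 hc
  have h3 := cnt_after hc hg1 k (s := c k) le_rfl (by linarith)
  have h2 := cnt_mono hc hcon
  omega

/-- **A pivot exists.** -/
theorem exists_pv (h : CD D) (he : e = 0 ∨ e = 1) (hc : StrictMono c) (n0 : ∀ k, c k ≠ 0)
    (nw : ∀ k, c k ≠ wd D)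
    (gen : ∀ k, IsMin D (c k + xL D) → ∃ a b, a < c k + xL D ∧ c k + xL D < b ∧ IsMin D a ∧
      IsMin D b)
    (nb : ∀ k : Fin 3, (k.val : ℤ) % 2 = e →
      ¬ (IsMin D (c k.castSucc + xL D) ∧ IsMin D (c k.succ + xL D))) : ∃ p, Pv D c e p := by
  by_cases hA : ∃ x, IsMin D x ∧ (∀ k, c k + xL D ≠ x) ∧ cnt c (x - xL D) % 2 = e
  · obtain ⟨p, hp, hn, hl⟩ := hA
    refine ⟨p, hp, n0, nw, hn, ?_, ?_⟩
    · intro k k1 k2 k3
      by_contra hcon
      rw [not_lt] at hcon
      have hm := isMin_of_le hp (x := c k + xL D) (by linarith) (by linarith [hp.1.2]) hcon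
      have h1 : (k.val : ℤ) + 1 ≤ cnt c (p - xL D) := by
        obtain ⟨g, hg, hg1, hg2⟩ := exists_gap4 hc
        have h3 := cnt_after hc hg1 k (s := c k) le_rfl (by linarith)
        have h2 := cnt_mono hc (show c k ≤ p - xL D by linarith)
        omega
      have hk4 : cnt c (p - xL D) ≤ 4 := by
        rcases cnt_eq hc (p - xL D) with ⟨a1, a2⟩ | ⟨a1, a2, a3⟩ | ⟨a1, a2, a3⟩ | ⟨a1, a2, a3⟩ |
          ⟨a1, a2⟩ <;> omega
      have hk3 : k.val < 3 := by omega
      obtain ⟨k', hk'⟩ : ∃ k' : Fin 3, k'.castSucc = k := ⟨⟨k.val, hk3⟩, rfl⟩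
      have hv : (k'.val : ℤ) = (k.val : ℤ) := by rw [← hk']; rfl
      have hs : ((k'.succ : Fin 4).val : ℤ) = (k.val : ℤ) + 1 := by rw [Fin.val_succ]; push_cast; omega
      refine nb k' (by omega) ⟨by rw [hk']; exact hm, ?_⟩
      have h5 := cnt_gt hc (k := k'.succ) (s := p - xL D) (by omega)
      refine hm.between h hp ?_ (by linarith)
      rw [← hk']
      have : c k'.castSucc < c k'.succ := hc (Fin.castSucc_lt_succ)
      linarith
    · intro k k1 k2 k3
      by_contra hcon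
      rw [not_lt] at hcon
      have hwd : wd D = xR D - xL D := rfl
      have hm := isMin_of_le hp (x := c k + xL D) (by linarith [hp.1.1]) (by linarith) hcon
      have h1 : cnt c (p - xL D) ≤ (k.val : ℤ) := by
        by_contra hcc
        have := cnt_gt hc (k := k) (s := p - xL D) (by omega)
        linarith
      have hk0 : 0 ≤ cnt c (p - xL D) := by
        rcases cnt_eq hc (p - xL D) with ⟨a1, a2⟩ | ⟨a1, a2, a3⟩ | ⟨a1, a2, a3⟩ | ⟨a1, a2, a3⟩ |
          ⟨a1, a2⟩ <;> omega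
      have hk1 : 1 ≤ k.val := by omega
      have hklt := k.isLt
      obtain ⟨k', hk'⟩ : ∃ k' : Fin 3, k'.succ = k :=
        ⟨⟨k.val - 1, by omega⟩, by apply Fin.ext; simp; omega⟩
      have hs : (k.val : ℤ) = (k'.val : ℤ) + 1 := by rw [← hk', Fin.val_succ]; push_cast; ring
      have hs' : ((k'.castSucc : Fin 4).val : ℤ) = (k'.val : ℤ) := rfl
      refine nb k' (by omega) ⟨?_, by rw [hk']; exact hm⟩
      have h5 := cnt_le' hc (k := k'.castSucc) (s := p - xL D) (by omega)
      refine hp.between h hm (by linarith) ?_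
      rw [← hk']
      have : c k'.castSucc < c k'.succ := hc (Fin.castSucc_lt_succ)
      linarith
  · push Not at hA
    have hex : ∃ p, IsMin D p ∧ ∀ k, c k + xL D ≠ p := by
      obtain ⟨x0, hx0⟩ := exists_isMin h
      by_cases hcut : ∃ k, c k + xL D = x0
      · obtain ⟨k, rfl⟩ := hcut
        obtain ⟨a, b, g1, g2, g3, g4⟩ := gen k hx0
        obtain ⟨x, x1, x2, x3, -⟩ := after_cut hc k (u := xL D) g2
        exact ⟨x, hx0.between h g4 x1.le x2.le, x3⟩
      · push Not at hcut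
        exact ⟨x0, hx0, hcut⟩
    obtain ⟨p, hp, hn⟩ := hex
    refine ⟨p, hp, n0, nw, hn, ?_, ?_⟩
    · intro k k1 k2 k3
      by_contra hcon
      rw [not_lt] at hcon
      have hm := isMin_of_le hp (x := c k + xL D) (by linarith) (by linarith [hp.1.2]) hcon
      obtain ⟨a, b, g1, g2, g3, g4⟩ := gen k hm
      obtain ⟨x, x1, x2, x3, x4⟩ := before_cut hc k (u := xL D) g1
      exact hA x (g3.between h hm x1.le x2.le) x3 (by rw [x4]; exact k3)
    · intro k k1 k2 k3
      by_contra hcon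
      rw [not_lt] at hcon
      have hwd : wd D = xR D - xL D := rfl
      have hm := isMin_of_le hp (x := c k + xL D) (by linarith [hp.1.1]) (by linarith) hcon
      obtain ⟨a, b, g1, g2, g3, g4⟩ := gen k hm
      obtain ⟨x, x1, x2, x3, x4⟩ := after_cut hc k (u := xL D) g2
      exact hA x (hm.between h g4 x1.le x2.le) x3 (by rw [x4]; omega)

end Pool.Agent.H5.FM
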