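import Mathlib
import Pool.Agent.H5.FM.Hv12

set_option autoImplicit false
open Set

/-! # Generic cuts without an arc inside a side parallel to an axis -/

namespace Pool.Agent.H5.FM

open Pool.Agent.H19.Rado (CA gam_b gam_r gam_t gam_l Gam_frontier)

variable {D : Set ℂ} {p : ℝ} {e : ℤ} {c : Fin 4 → ℝ}

/-- `K` is not inside an open horizontal or vertical segment of the frontier -/
def NoArc (D K : Set ℂ) : Prop := ∀ x y : ℂ, (x.re = y.re ∨ x.im = y.im) →
  openSegment ℝ x y ⊆ frontier D → ¬ K ⊆ openSegment ℝ x y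

lemma NoArc.mono {K K' : Set ℂ} (hN : NoArc D K) (hK : K ⊆ K') : NoArc D K' :=
  fun x y h1 h2 h3 => hN x y h1 h2 (hK.trans h3)

lemma openSeg_h {a b m x : ℝ} (h1 : a < x) (h2 : x < b) :
    (⟨x, m⟩ : ℂ) ∈ openSegment ℝ (⟨a, m⟩ : ℂ) ⟨b, m⟩ := by
  have hne : b - a ≠ 0 := by linarith
  refine ⟨(b - x) / (b - a), (x - a) / (b - a), div_pos (by linarith) (by linarith),
    div_pos (by linarith) (by linarith), ?_, ?_⟩
  · rw [← add_div, show b - x + (x - a) = b - a by ring, div_self hne]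
  · apply Complex.ext
    · simp only [Complex.add_re, Complex.smul_re, smul_eq_mul]
      field_simp
      ring
    · simp only [Complex.add_im, Complex.smul_im, smul_eq_mul]
      field_simp
      ring

lemma openSeg_h' {a b m : ℝ} (hab : a < b) {z : ℂ}
    (hz : z ∈ openSegment ℝ (⟨a, m⟩ : ℂ) ⟨b, m⟩) : ∃ x, a < x ∧ x < b ∧ z = ⟨x, m⟩ := by
  obtain ⟨s, t, hs, ht, hst, rfl⟩ := hz
  refine ⟨s * a + t * b, ?_, ?_, ?_⟩
  · have : s = 1 - t := by linarith
    rw [this]; nlinarith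
  · have : t = 1 - s := by linarith
    rw [this]; nlinarith
  · apply Complex.ext
    · simp only [Complex.add_re, Complex.smul_re, smul_eq_mul]
    · simp only [Complex.add_im, Complex.smul_im, smul_eq_mul]
      rw [← add_mul, hst, one_mul]

lemma openSeg_v {a b m y : ℝ} (h1 : a < y) (h2 : y < b) :
    (⟨m, y⟩ : ℂ) ∈ openSegment ℝ (⟨m, a⟩ : ℂ) ⟨m, b⟩ := by
  have hne : b - a ≠ 0 := by linarith
  refine ⟨(b - y) / (b - a), (y - a) / (b - a), div_pos (by linarith) (by linarith),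
    div_pos (by linarith) (by linarith), ?_, ?_⟩
  · rw [← add_div, show b - y + (y - a) = b - a by ring, div_self hne]
  · apply Complex.ext
    · simp only [Complex.add_re, Complex.smul_re, smul_eq_mul]
      field_simp
      ring
    · simp only [Complex.add_im, Complex.smul_im, smul_eq_mul]
      field_simp
      ring

lemma openSeg_v' {a b m : ℝ} (hab : a < b) {z : ℂ}
    (hz : z ∈ openSegment ℝ (⟨m, a⟩ : ℂ) ⟨m, b⟩) : ∃ y, a < y ∧ y < b ∧ z = ⟨m, y⟩ := by
  obtain ⟨s, t, hs, ht, hst, rfl⟩ := hz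
  refine ⟨s * a + t * b, ?_, ?_, ?_⟩
  · have : s = 1 - t := by linarith
    rw [this]; nlinarith
  · have : t = 1 - s := by linarith
    rw [this]; nlinarith
  · apply Complex.ext
    · simp only [Complex.add_re, Complex.smul_re, smul_eq_mul]
      rw [← add_mul, hst, one_mul]
    · simp only [Complex.add_im, Complex.smul_im, smul_eq_mul]

/-- the parameters of the ends of the sides which are parallel to an axis -/
noncomputable def bad (D : Set ℂ) : Set ℝ :=
  {wd D, wd D + tr D, 2 * wd D + tr D, TD D, sInf {x | IsMin D x} - xL D,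
    sSup {x | IsMin D x} - xL D, wd D + tr D + (sInf {x | IsMin (ro D) x} - xL (ro D)),
    wd D + tr D + (sSup {x | IsMin (ro D) x} - xL (ro D))}

lemma bad_finite (D : Set ℂ) : (bad D).Finite := by
  unfold bad
  exact Set.toFinite _

/-- minima which are not extreme -/
lemma isMin_inner {x : ℝ} (hx : IsMin D x) (h1 : x ≠ sInf {x | IsMin D x})
    (h2 : x ≠ sSup {x | IsMin D x}) : ∃ a b, a < x ∧ x < b ∧ IsMin D a ∧ IsMin D b := by
  have hne : {x | IsMin D x}.Nonempty := ⟨x, hx⟩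
  have hb : BddBelow {x | IsMin D x} := ⟨xL D, fun y hy => hy.1.1⟩
  have hb' : BddAbove {x | IsMin D x} := ⟨xR D, fun y hy => hy.1.2⟩
  have g1 : sInf {x | IsMin D x} < x := lt_of_le_of_ne (csInf_le hb hx) h1.symm
  have g2 : x < sSup {x | IsMin D x} := lt_of_le_of_ne (le_csSup hb' hx) h2
  obtain ⟨a, ha, ha'⟩ := exists_lt_of_csInf_lt hne g1
  obtain ⟨b, hb, hb'⟩ := exists_lt_of_lt_csSup hne g2
  exact ⟨a, b, ha', hb', ha, hb⟩

lemma ca_castSucc (c : Fin 4 → ℝ) (k : Fin 3) :
    CA D c k.castSucc = Gam D '' Icc (c k.castSucc) (c k.succ) := by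
  unfold CA
  match k with
  | 0 => exact if_neg (by decide)
  | 1 => exact if_neg (by decide)
  | 2 => exact if_neg (by decide)

/-- **Generic cuts without an arc of the inner type inside a side** -/
theorem gd_of (h : CD D) (he : e = 0 ∨ e = 1) (hc : StrictMono c) (h0 : 0 < c 0)
    (hT : c 3 ≤ TD D) (gen : ∀ k, ∀ s ∈ bad D, c k ≠ s)
    (na : ∀ k : Fin 3, (k.val : ℤ) % 2 = e → NoArc D (CA D c k.castSucc)) : Gd D c e := by
  have hwd : wd D = xR D - xL D := rfl
  have hw := h.wd_pos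
  have ht := h.tr_nonneg
  have htl := h.tl_nonneg
  have hTD : TD D = 2 * wd D + tr D + tl D := rfl
  have hpos : ∀ k, 0 < c k := fun k => h0.trans_le (hc.monotone (Fin.zero_le k))
  have g1 : ∀ k, c k ≠ wd D := fun k => gen k _ (by unfold bad; simp)
  have g2 : ∀ k, c k ≠ wd D + tr D := fun k => gen k _ (by unfold bad; simp)
  have g3 : ∀ k, c k ≠ 2 * wd D + tr D := fun k => gen k _ (by unfold bad; simp)
  have g4 : ∀ k, c k ≠ TD D := fun k => gen k _ (by unfold bad; simp)
  have g5 : ∀ k, c k ≠ sInf {x | IsMin D x} - xL D := fun k => gen k _ (by unfold bad; simp)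
  have g6 : ∀ k, c k ≠ sSup {x | IsMin D x} - xL D := fun k => gen k _ (by unfold bad; simp)
  have g7 : ∀ k, c k ≠ wd D + tr D + (sInf {x | IsMin (ro D) x} - xL (ro D)) :=
    fun k => gen k _ (by unfold bad; simp)
  have g8 : ∀ k, c k ≠ wd D + tr D + (sSup {x | IsMin (ro D) x} - xL (ro D)) :=
    fun k => gen k _ (by unfold bad; simp)
  refine ⟨hc, h0, hT, ?_, ?_, ?_, ?_⟩
  · -- bottom
    have gen' : ∀ k, IsMin D (c k + xL D) → ∃ a b, a < c k + xL D ∧ c k + xL D < b ∧ IsMin D a ∧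
        IsMin D b := fun k hk => isMin_inner hk (fun hh => g5 k (by rw [← hh]; ring))
          (fun hh => g6 k (by rw [← hh]; ring))
    refine exists_pv h he hc (fun k => (hpos k).ne') g1 gen' ?_
    rintro k hk ⟨m1, m2⟩
    obtain ⟨a, -, a1, -, a2, -⟩ := gen' _ m1
    obtain ⟨-, b, -, b1, -, b2⟩ := gen' _ m2
    have hlt : c k.castSucc < c k.succ := hc (Fin.castSucc_lt_succ)
    have hfr : ∀ x, a < x → x < b → (⟨x, flo D a⟩ : ℂ) = Gam D (x - xL D) ∧ xL D < x ∧ x < xR D := by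
      intro x x1 x2
      have hx := a2.between h b2 x1.le x2.le
      refine ⟨?_, by linarith [a2.1.1], by linarith [b2.1.2]⟩
      rw [Gam_b hx.1.2, a2.eq hx]
    refine na k hk ⟨a, flo D a⟩ ⟨b, flo D a⟩ (Or.inr rfl) ?_ ?_
    · intro z hz
      obtain ⟨x, x1, x2, rfl⟩ := openSeg_h' (by linarith) hz
      obtain ⟨e1, e2, e3⟩ := hfr x x1 x2
      rw [e1, Gam_frontier h]
      exact ⟨x - xL D, ⟨by linarith, by linarith⟩, rfl⟩
    · rw [ca_castSucc]
      rintro _ ⟨s, hs, rfl⟩
      have e1 := (hfr (s + xL D) (by linarith [hs.1]) (by linarith [hs.2])).1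
      rw [add_sub_cancel_right] at e1
      rw [← e1]
      exact openSeg_h (by linarith [hs.1]) (by linarith [hs.2])
  · -- top
    have gen' : ∀ k, IsMin (ro D) (c k - (wd D + tr D) + xL (ro D)) →
        ∃ a b, a < c k - (wd D + tr D) + xL (ro D) ∧ c k - (wd D + tr D) + xL (ro D) < b ∧
        IsMin (ro D) a ∧ IsMin (ro D) b :=
      fun k hk => isMin_inner hk (fun hh => g7 k (by rw [← hh]; ring))
          (fun hh => g8 k (by rw [← hh]; ring))
    refine exists_pv h.ro he (fun a b hab => sub_lt_sub_right (hc hab) _)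
      (fun k => sub_ne_zero.2 (g2 k)) (fun k hh => g3 k (by rw [wd_ro] at hh; linarith)) gen' ?_
    rintro k hk ⟨m1, m2⟩
    obtain ⟨a, -, a1, -, a2, -⟩ := gen' _ m1
    obtain ⟨-, b, -, b1, -, b2⟩ := gen' _ m2
    have hlt : c k.castSucc < c k.succ := hc (Fin.castSucc_lt_succ)
    rw [xL_ro] at a1 b1
    have hfr : ∀ x, a < -x → -x < b → (⟨x, -flo (ro D) a⟩ : ℂ) = Gam D (wd D + tr D + (xR D - x)) ∧
        xL D < x ∧ x < xR D := by
      intro x x1 x2
      have hx := a2.between h.ro b2 x1.le x2.le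
      have r1 := a2.1.1
      have r2 := b2.1.2
      rw [xL_ro] at r1
      rw [xR_ro] at r2
      refine ⟨?_, by linarith, by linarith⟩
      rw [Gam_t h (by linarith) (by linarith), a2.eq hx, flo_ro, neg_neg, neg_neg]
    refine na k hk ⟨-b, -flo (ro D) a⟩ ⟨-a, -flo (ro D) a⟩ (Or.inr rfl) ?_ ?_
    · intro z hz
      obtain ⟨x, x1, x2, rfl⟩ := openSeg_h' (by linarith) hz
      obtain ⟨e1, e2, e3⟩ := hfr x (by linarith) (by linarith)
      rw [e1, Gam_frontier h]
      exact ⟨_, ⟨by linarith, by linarith⟩, rfl⟩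
    · rw [ca_castSucc]
      rintro _ ⟨s, hs, rfl⟩
      have e1 := (hfr (xR D - (s - (wd D + tr D))) (by linarith [hs.1]) (by linarith [hs.2])).1
      rw [show wd D + tr D + (xR D - (xR D - (s - (wd D + tr D)))) = s by ring] at e1
      rw [← e1]
      exact openSeg_h (by linarith [hs.2]) (by linarith [hs.1])
  · -- right side
    rintro k hk ⟨m1, m2⟩
    have m3 := lt_of_le_of_ne m2 (g2 _)
    have hlt : c k.castSucc < c k.succ := hc (Fin.castSucc_lt_succ)
    have htr : tr D = cei D (xR D) - flo D (xR D) := rfl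
    refine na k hk ⟨xR D, flo D (xR D)⟩ ⟨xR D, cei D (xR D)⟩ (Or.inl rfl) ?_ ?_
    · intro z hz
      obtain ⟨y, y1, y2, rfl⟩ := openSeg_v' (by linarith) hz
      rw [← Gam_r y1.le y2.le, Gam_frontier h]
      exact ⟨_, ⟨by linarith, by linarith⟩, rfl⟩
    · rw [ca_castSucc]
      rintro _ ⟨s, hs, rfl⟩
      rw [gam_r (by linarith [hs.1]) (by linarith [hs.2])]
      exact openSeg_v (by linarith [hs.1]) (by linarith [hs.2])
  · -- left side
    rintro k hk ⟨m1, m2⟩
    have m3 := lt_of_le_of_ne m2 (g4 _)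
    have hlt : c k.castSucc < c k.succ := hc (Fin.castSucc_lt_succ)
    have htr : tl D = cei D (xL D) - flo D (xL D) := rfl
    refine na k hk ⟨xL D, flo D (xL D)⟩ ⟨xL D, cei D (xL D)⟩ (Or.inl rfl) ?_ ?_
    · intro z hz
      obtain ⟨y, y1, y2, rfl⟩ := openSeg_v' (by linarith) hz
      rw [← Gam_l h y2.le, Gam_frontier h]
      exact ⟨_, ⟨by linarith, by linarith⟩, rfl⟩
    · rw [ca_castSucc]
      rintro _ ⟨s, hs, rfl⟩
      rw [gam_l h (by linarith [hs.1])]
      exact openSeg_v (by linarith [hs.2]) (by linarith [hs.1])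

end Pool.Agent.H5.FM
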