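import Mathlib
import Pool.Agent.H5.FM.Hv13
import Pool.Agent.H5.FM.Apx

set_option autoImplicit false
open Set Filter Topology

/-! # Approximating shapes whose rows and columns are intervals -/

namespace Pool.Agent.H5.FM

open Pool.Agent.Q1.M4 (Cell rect Reg Om)
open Pool.Agent.H21.FM
open Pool.Agent.H19.Rado (CA cr affC affC_apply half_preim_rot one_add_I_ne)
open Pool.Agent.H19.RH (Cht lam exists_cht)
open Pool.Agent.H69.Car (IsHalf HC HO)
open Pool.Agent.H14.FM (ic)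

variable {D : Set ℂ}

section

variable {a b : ℂ} {φ : ℂ → ℂ} {t : Fin 4 → ℝ}

/-- a common point of two consecutive arcs is a mark -/
lemma pa_mark (hφ : IsHalf D a b φ) (ht : StrictMono t) {z : ℂ} (i : Fin 4) (h1 : z ∈ PA φ b t i)
    (h2 : z ∈ PA φ b t (i + 1)) : ∃ m, z = φ (t m) := by
  obtain ⟨i1, i2, i3, i4⟩ := pa_inter hφ ht
  match i, h1, h2 with
  | 0, h1, h2 => exact ⟨1, i2 z h1 h2⟩
  | 1, h1, h2 => exact ⟨2, i3 z h1 h2⟩
  | 2, h1, h2 => exact ⟨3, i4 z h1 h2⟩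
  | 3, h1, h2 => exact ⟨0, i1 z h1 h2⟩

/-- cuts are common points of consecutive arcs -/
lemma cut_mem {c : Fin 4 → ℝ} (hc : StrictMono c) (h0 : 0 < c 0) (hT : c 3 ≤ TD D) (k : Fin 4) :
    Gam D (c k) ∈ CA D c (k - 1) ∧ Gam D (c k) ∈ CA D c k := by
  have h01 : c 0 < c 1 := hc (by decide)
  have h12 : c 1 < c 2 := hc (by decide)
  have h23 : c 2 < c 3 := hc (by decide)
  unfold CA
  match k with
  | 0 =>
    refine ⟨?_, ?_⟩
    · rw [if_pos (by decide)]
      exact ⟨c 0, Or.inr ⟨h0.le, le_rfl⟩, rfl⟩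
    · rw [if_neg (by decide)]
      exact ⟨c 0, ⟨le_rfl, h01.le⟩, rfl⟩
  | 1 =>
    refine ⟨?_, ?_⟩
    · rw [if_neg (by decide)]
      exact ⟨c 1, ⟨h01.le, le_rfl⟩, rfl⟩
    · rw [if_neg (by decide)]
      exact ⟨c 1, ⟨le_rfl, h12.le⟩, rfl⟩
  | 2 =>
    refine ⟨?_, ?_⟩
    · rw [if_neg (by decide)]
      exact ⟨c 2, ⟨h12.le, le_rfl⟩, rfl⟩
    · rw [if_neg (by decide)]
      exact ⟨c 2, ⟨le_rfl, h23.le⟩, rfl⟩
  | 3 =>
    refine ⟨?_, ?_⟩
    · rw [if_neg (by decide)]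
      exact ⟨c 3, ⟨h23.le, le_rfl⟩, rfl⟩
    · rw [if_pos rfl]
      exact ⟨c 3, Or.inl ⟨le_rfl, hT⟩, rfl⟩

/-- **The cuts of generic marks** -/
theorem exists_gd (h : CD D) (hφ : IsHalf D a b φ) (ht : StrictMono t) {o : ℕ}
    (ho : o = 0 ∨ o = 1) (gen : ∀ m, ∀ s ∈ bad D, φ (t m) ≠ Gam D s)
    (na : ∀ i : Fin 4, i.val % 2 ≠ o → NoArc D (PA φ b t i)) :
    ∃ (c : Fin 4 → ℝ) (j : Fin 4), (∀ i, PA φ b t i = CA D c (i - j)) ∧ Gd D c (eo j o) := by
  obtain ⟨c, c1, c2, c3, j, c4⟩ := pa_ca h hφ ht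
  refine ⟨c, j, c4, gd_of h (by unfold eo; split_ifs <;> omega) c1 c2 c3 ?_ ?_⟩
  · intro k s hs hcs
    obtain ⟨m1, m2⟩ := cut_mem (D := D) c1 c2 c3 k
    have e1 := c4 (k + j)
    rw [add_sub_cancel_right] at e1
    have e2 := c4 (k - 1 + j)
    rw [add_sub_cancel_right] at e2
    rw [← e1] at m2
    rw [← e2] at m1
    obtain ⟨m, hm⟩ := pa_mark hφ ht (k - 1 + j) m1 (by
      rw [add_right_comm, sub_add_cancel]; exact m2)
    exact gen m s hs (by rw [← hm, hcs])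
  · intro k hk
    have e1 := c4 (k.castSucc + j)
    rw [add_sub_cancel_right] at e1
    rw [← e1]
    apply na
    have hj := j.isLt
    have hk3 := k.isLt
    have hv : (k.castSucc + j).val = (k.val + j.val) % 4 := by rw [Fin.val_add]; rfl
    rw [hv]
    unfold eo at hk
    rcases ho with ho | ho
    · rw [if_neg (by omega)] at hk; omega
    · rw [if_pos ho] at hk; omega

/-- generic shifts -/
lemma exists_shift (hφ : IsHalf D a b φ) (t : Fin 4 → ℝ) {δ : ℝ} (hδ : 0 < δ) :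
    ∃ u, 0 < u ∧ u < δ ∧ ∀ m, ∀ s ∈ bad D, φ ((t m + u : ℝ) : ℂ) ≠ Gam D s := by
  have hf : (⋃ m : Fin 4, ⋃ s ∈ bad D, {u : ℝ | φ ((t m + u : ℝ) : ℂ) = Gam D s}).Finite := by
    apply Set.finite_iUnion
    intro m
    apply (bad_finite D).biUnion
    intro s _
    apply Set.Subsingleton.finite
    intro u hu v hv
    have := pa_pt hφ hu hv
    linarith
  obtain ⟨u, hu, hu'⟩ := (Set.Ioo_infinite hδ).exists_notMem_finite hf
  refine ⟨u, hu.1, hu.2, fun m s hs hh => hu' ?_⟩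
  rw [mem_iUnion]
  exact ⟨m, mem_biUnion hs hh⟩

end

/-- `K` is not inside an open segment of the frontier of a diagonal direction -/
def NoDiag (D K : Set ℂ) : Prop := ∀ x y : ℂ, ((y - x).re = (y - x).im ∨ (y - x).re = -(y - x).im) →
  openSegment ℝ x y ⊆ frontier D → ¬ K ⊆ openSegment ℝ x y

lemma noArc_preimage {z1 : ℂ} {K : Set ℂ} (hN : NoDiag D (Af z1 '' K)) :
    NoArc ((fun z => (1 + Complex.I) * z + z1) ⁻¹' D) K := by
  intro x y hxy hs hK
  have himg : Af z1 '' openSegment ℝ x y = openSegment ℝ (Af z1 x) (Af z1 y) := by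
    ext w
    constructor
    · rintro ⟨_, ⟨s, t, hs, ht, hst, rfl⟩, rfl⟩
      refine ⟨s, t, hs, ht, hst, ?_⟩
      unfold Af
      simp only [Complex.real_smul]
      have e : ((s : ℂ) + t) = 1 := by exact_mod_cast hst
      linear_combination z1 * e
    · rintro ⟨s, t, hs, ht, hst, rfl⟩
      refine ⟨_, ⟨s, t, hs, ht, hst, rfl⟩, ?_⟩
      unfold Af
      simp only [Complex.real_smul]
      have e : ((s : ℂ) + t) = 1 := by exact_mod_cast hst
      linear_combination (-z1) * e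
  have hfr : Af z1 '' frontier ((fun z => (1 + Complex.I) * z + z1) ⁻¹' D) = frontier D := by
    have h1 := (affC (1 + Complex.I) one_add_I_ne z1).image_frontier
      ((fun z => (1 + Complex.I) * z + z1) ⁻¹' D)
    have h2 : (affC (1 + Complex.I) one_add_I_ne z1) '' ((fun z => (1 + Complex.I) * z + z1) ⁻¹' D) = D :=
      Af_preimage z1 D
    rw [h2] at h1
    exact h1
  refine hN (Af z1 x) (Af z1 y) ?_ ?_ ?_
  · have e : Af z1 y - Af z1 x = (1 + Complex.I) * (y - x) := by unfold Af; ring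
    rw [e]
    rcases hxy with g | g
    · right
      simp [g]
    · left
      simp [g]
  · rw [← himg, ← hfr]
    exact image_mono hs
  · rw [← himg]
    exact image_mono hK

section

variable (hc : Convex ℝ D) (ho : IsOpen D) (hb : Bornology.IsBounded D) {z1 : ℂ} (hz : z1 ∈ D)
  {a b : ℂ} {φ : ℂ → ℂ} (hφ : IsHalf D a b φ) {t t' : Fin 4 → ℝ} (ht : StrictMono t)
  (ht' : StrictMono t')
include hc ho hb hz hφ ht ht'

/-- **Upper bound** with polygons whose rows and columns are intervals. -/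
theorem apxU_hvc (na : ∀ i, NoDiag D (PA φ b t i)) (h0 : t' 0 < t 0) (h1 : t 1 < t' 1)
    (h2 : t' 2 < t 2) (h3 : t 3 < t' 3) :
    ApxU (fun S => HVC S.P.Q) z1 D ((fun x : ℝ => φ x) '' Icc (t 0) (t 1))
      ((fun x : ℝ => φ x) '' Icc (t 2) (t 3)) (1 - cr (t' 0) (t' 1) (t' 2) (t' 3)) := by
  have h := cd_preimage hc ho hb hz
  have hφ' := half_preim_rot hφ z1
  have hδ : 0 < min (t 0 - t' 0) (t 2 - t' 2) := lt_min (by linarith) (by linarith)
  obtain ⟨u, u0, u1, gen⟩ := exists_shift hφ' t' hδ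
  rw [lt_min_iff] at u1
  obtain ⟨t'', ht2⟩ : ∃ t'' : Fin 4 → ℝ, t'' = fun m => t' m + u := ⟨_, rfl⟩
  have hm : ∀ m, t'' m = t' m + u := fun m => by rw [ht2]
  have ht'' : StrictMono t'' := fun i j hij => by rw [hm, hm]; linarith [ht' hij]
  have k0 : t'' 0 < t 0 := by rw [hm]; linarith
  have k1 : t 1 < t'' 1 := by rw [hm]; linarith
  have k2 : t'' 2 < t 2 := by rw [hm]; linarith
  have k3 : t 3 < t'' 3 := by rw [hm]; linarith
  have hcr : cr (t' 0) (t' 1) (t' 2) (t' 3) = cr (t'' 0) (t'' 1) (t'' 2) (t'' 3) := by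
    rw [hm, hm, hm, hm]
    unfold cr
    congr 1
    · ring
    · ring
  rw [hcr]
  have na' : ∀ i : Fin 4, i.val % 2 ≠ 1 → NoArc ((fun z => (1 + Complex.I) * z + z1) ⁻¹' D)
      (PA (fun z => (φ z - z1) / (1 + Complex.I)) ((b - z1) / (1 + Complex.I)) t'' i) := by
    intro i hi
    have hN := noArc_preimage (z1 := z1)
      (K := PA (fun z => (φ z - z1) / (1 + Complex.I)) ((b - z1) / (1 + Complex.I)) t i)
      (by rw [Af_PA]; exact na i)
    apply hN.mono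
    rcases even_fin i (by omega) with rfl | rfl
    · rw [PA0, PA0]
      exact image_mono (Icc_subset_Icc k0.le k1.le)
    · rw [PA2, PA2]
      exact image_mono (Icc_subset_Icc k2.le k3.le)
  obtain ⟨κ0, hκ0, H⟩ := upG_of_app h hφ' ht ht'' k0 k1 k2 k3 z1
  obtain ⟨c, j, c4, G⟩ := exists_gd h hφ' ht'' (Or.inr rfl) (by
    intro m s hs
    rw [hm]
    exact gen m s hs) na'
  have hA : ∀ n : ℕ, ∃ (S : Shape) (ε ρ η : ℝ), HVC S.P.Q ∧
      AppP ((fun z => (1 + Complex.I) * z + z1) ⁻¹' D)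
      (PA (fun z => (φ z - z1) / (1 + Complex.I)) ((b - z1) / (1 + Complex.I)) t'') 1
      (κ0 / (n + 1)) S ε ρ η := fun n => exists_appV h j (Or.inr rfl) G c4 (by positivity)
  choose S ε ρ η hV A using hA
  have hκ : Tendsto (fun n : ℕ => κ0 / ((n : ℝ) + 1)) atTop (𝓝 0) := by
    have := (tendsto_one_div_add_atTop_nhds_zero_nat (𝕜 := ℝ)).const_mul κ0
    simpa [div_eq_mul_inv] using this
  choose ψ hψ using fun n => exists_cht (x := ic) (y := ic) (S n).P ic_mono ic_mono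
  refine ⟨S, ε, ψ, fun n => ⟨hV n, hψ n, ?_⟩, lam_limit h hφ' ht'' hκ A hψ⟩
  have hle : κ0 / ((n : ℝ) + 1) ≤ κ0 := div_le_self hκ0.le (by
    have := Nat.cast_nonneg (α := ℝ) n
    linarith)
  have := H _ _ _ _ _ hle (A n)
  rw [Af_preimage, Af_PA, Af_PA, PA0, PA2] at this
  exact this

/-- **Lower bound** with polygons whose rows and columns are intervals. -/
theorem apxL_hvc (na : ∀ i, NoDiag D (PA φ b t i)) (h0 : t 0 < t' 0) (h1 : t' 1 < t 1)
    (h2 : t 2 < t' 2) (h3 : t' 3 < t 3) :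
    ApxL (fun S => HVC S.P.Q) z1 D ((fun x : ℝ => φ x) '' Icc (t 0) (t 1))
      ((fun x : ℝ => φ x) '' Icc (t 2) (t 3)) (1 - cr (t' 0) (t' 1) (t' 2) (t' 3)) := by
  have h := cd_preimage hc ho hb hz
  have hφ' := half_preim_rot hφ z1
  have hδ : 0 < min (t 1 - t' 1) (t 3 - t' 3) := lt_min (by linarith) (by linarith)
  obtain ⟨u, u0, u1, gen⟩ := exists_shift hφ' t' hδ
  rw [lt_min_iff] at u1
  obtain ⟨t'', ht2⟩ : ∃ t'' : Fin 4 → ℝ, t'' = fun m => t' m + u := ⟨_, rfl⟩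
  have hm : ∀ m, t'' m = t' m + u := fun m => by rw [ht2]
  have ht'' : StrictMono t'' := fun i j hij => by rw [hm, hm]; linarith [ht' hij]
  have k0 : t 0 < t'' 0 := by rw [hm]; linarith
  have k1 : t'' 1 < t 1 := by rw [hm]; linarith
  have k2 : t 2 < t'' 2 := by rw [hm]; linarith
  have k3 : t'' 3 < t 3 := by rw [hm]; linarith
  have hcr : cr (t' 0) (t' 1) (t' 2) (t' 3) = cr (t'' 0) (t'' 1) (t'' 2) (t'' 3) := by
    rw [hm, hm, hm, hm]
    unfold cr
    congr 1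
    · ring
    · ring
  rw [hcr]
  have na' : ∀ i : Fin 4, i.val % 2 ≠ 0 → NoArc ((fun z => (1 + Complex.I) * z + z1) ⁻¹' D)
      (PA (fun z => (φ z - z1) / (1 + Complex.I)) ((b - z1) / (1 + Complex.I)) t'' i) := by
    intro i hi
    have hN := noArc_preimage (z1 := z1)
      (K := PA (fun z => (φ z - z1) / (1 + Complex.I)) ((b - z1) / (1 + Complex.I)) t i)
      (by rw [Af_PA]; exact na i)
    apply hN.mono
    rcases odd_fin i (by omega) with rfl | rfl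
    · rw [PA1, PA1]
      exact image_mono (Icc_subset_Icc k1.le k2.le)
    · rw [PA3, PA3]
      exact union_subset_union_left _ (image_mono (union_subset_union (Iic_subset_Iic.2 k0.le)
        (Ici_subset_Ici.2 k3.le)))
  obtain ⟨κ0, hκ0, H⟩ := loG_of_app h hφ' ht ht'' k0 k1 k2 k3 z1
  obtain ⟨c, j, c4, G⟩ := exists_gd h hφ' ht'' (Or.inl rfl) (by
    intro m s hs
    rw [hm]
    exact gen m s hs) na'
  have hA : ∀ n : ℕ, ∃ (S : Shape) (ε ρ η : ℝ), HVC S.P.Q ∧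
      AppP ((fun z => (1 + Complex.I) * z + z1) ⁻¹' D)
      (PA (fun z => (φ z - z1) / (1 + Complex.I)) ((b - z1) / (1 + Complex.I)) t'') 0
      (κ0 / (n + 1)) S ε ρ η := fun n => exists_appV h j (Or.inl rfl) G c4 (by positivity)
  choose S ε ρ η hV A using hA
  have hκ : Tendsto (fun n : ℕ => κ0 / ((n : ℝ) + 1)) atTop (𝓝 0) := by
    have := (tendsto_one_div_add_atTop_nhds_zero_nat (𝕜 := ℝ)).const_mul κ0
    simpa [div_eq_mul_inv] using this
  choose ψ hψ using fun n => exists_cht (x := ic) (y := ic) (S n).P ic_mono ic_mono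
  refine ⟨S, ε, ψ, fun n => ⟨hV n, hψ n, ?_⟩, lam_limit h hφ' ht'' hκ A hψ⟩
  have hle : κ0 / ((n : ℝ) + 1) ≤ κ0 := div_le_self hκ0.le (by
    have := Nat.cast_nonneg (α := ℝ) n
    linarith)
  have := H _ _ _ _ _ hle (A n)
  rw [Af_preimage, Af_PA, Af_PA, PA0, PA2] at this
  exact this

omit hc ho hb hz ht' in
/-- domains without diagonal sides -/
lemma noDiag_of (hs : ∀ x y : ℂ, x ≠ y → ((y - x).re = (y - x).im ∨ (y - x).re = -(y - x).im) →
    ¬ openSegment ℝ x y ⊆ frontier D) (i : Fin 4) : NoDiag D (PA φ b t i) := by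
  intro x y h1 h2 h3
  have hxy : x = y := by
    by_contra hne
    exact hs x y hne h1 h2
  rw [hxy, openSegment_same] at h3
  have h01 : t 0 < t 1 := ht (by decide)
  have h12 : t 1 < t 2 := ht (by decide)
  have h23 : t 2 < t 3 := ht (by decide)
  have key : ∀ {s s' : ℝ}, s < s' → φ s ∈ PA φ b t i → φ s' ∈ PA φ b t i → False := by
    intro s s' hs m1 m2
    have := pa_pt hφ (h3 m1) (h3 m2)
    linarith
  have hi : ∀ i : Fin 4, i = 0 ∨ i = 1 ∨ i = 2 ∨ i = 3 := by decide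
  rcases hi i with rfl | rfl | rfl | rfl
  · exact key h01 (by rw [PA0]; exact ⟨t 0, ⟨le_rfl, h01.le⟩, rfl⟩)
      (by rw [PA0]; exact ⟨t 1, ⟨h01.le, le_rfl⟩, rfl⟩)
  · exact key h12 (by rw [PA1]; exact ⟨t 1, ⟨le_rfl, h12.le⟩, rfl⟩)
      (by rw [PA1]; exact ⟨t 2, ⟨h12.le, le_rfl⟩, rfl⟩)
  · exact key h23 (by rw [PA2]; exact ⟨t 2, ⟨le_rfl, h23.le⟩, rfl⟩)
      (by rw [PA2]; exact ⟨t 3, ⟨h23.le, le_rfl⟩, rfl⟩)
  · exact key (h01.trans (h12.trans h23))
      (by rw [PA3]; exact Or.inl ⟨t 0, Or.inl (mem_Iic.2 le_rfl), rfl⟩)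
      (by rw [PA3]; exact Or.inl ⟨t 3, Or.inr (mem_Ici.2 le_rfl), rfl⟩)

end

end Pool.Agent.H5.FM
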