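import Mathlib
import Pool.Agent.H5.FM.Hv14
import Pool.Agent.H5.FM.Ring3

set_option autoImplicit false
open Set Filter Topology Pool.Agent.Q1

/-! # Vertical sides in every arc

If the frontier of `D` (tile frame) contains no horizontal segment, then every arc of a fine approximation
contains a vertical side. -/

namespace Pool.Agent.H5.FM

open Pool.Agent.Q1.M4 (Cell rect Reg Om head tail pt PType)
open Pool.Agent.H21.FM
open Pool.Agent.H19.Rado (CA cr affC affC_apply half_preim_rot one_add_I_ne)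
open Pool.Agent.H19.RH (Cht lam exists_cht)
open Pool.Agent.H69.Car (IsHalf HC HO)
open Pool.Agent.H14.FM (ic)

variable {D : Set ℂ}

/-- discrete intermediate values -/
lemma ivt_up {x : ℕ → ℝ} {τ : ℝ} {n1 n2 : ℕ} (h12 : n1 < n2) (h1 : x n1 ≤ τ) (h2 : τ ≤ x n2) :
    ∃ i, n1 ≤ i ∧ i < n2 ∧ x i ≤ τ ∧ τ ≤ x (i + 1) := by
  obtain ⟨d, rfl⟩ := Nat.exists_eq_add_of_lt h12
  induction d with
  | zero => exact ⟨n1, le_rfl, by omega, h1, h2⟩
  | succ d ih =>
    rcases le_total τ (x (n1 + d + 1)) with h | h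
    · obtain ⟨i, a1, a2, a3⟩ := ih (by omega) h
      exact ⟨i, a1, by omega, a3⟩
    · exact ⟨n1 + d + 1, by omega, by omega, h, h2⟩

lemma ivt_abs {x : ℕ → ℝ} {τ e : ℝ} {n1 n2 : ℕ} (h12 : n1 < n2)
    (hs : ∀ i, n1 ≤ i → i < n2 → |x (i + 1) - x i| ≤ e)
    (h : (x n1 ≤ τ ∧ τ ≤ x n2) ∨ (x n2 ≤ τ ∧ τ ≤ x n1)) :
    ∃ i, n1 ≤ i ∧ i < n2 ∧ |x i - τ| ≤ e := by
  rcases h with ⟨h1, h2⟩ | ⟨h1, h2⟩
  · obtain ⟨i, a1, a2, a3, a4⟩ := ivt_up h12 h1 h2
    refine ⟨i, a1, a2, ?_⟩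
    have := hs i a1 a2
    rw [abs_le] at this ⊢
    constructor <;> linarith
  · obtain ⟨i, a1, a2, a3, a4⟩ := ivt_up (x := fun i => -x i) (τ := -τ) h12 (by linarith) (by linarith)
    refine ⟨i, a1, a2, ?_⟩
    have := hs i a1 a2
    rw [abs_le] at this ⊢
    constructor <;> linarith

lemma vert_diff (P : PType) (i : ℕ) : P.vert (i + 1) = P.vert i + Pool.Agent.H75.Perc.dir (P.side i).2 := by
  rw [vert_succ]; rfl

lemma vert_step1 (P : PType) (i : ℕ) {ε : ℝ} (hε : 0 < ε) :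
    |(pt (gr ε) (gr ε) (P.vert (i + 1))).re - (pt (gr ε) (gr ε) (P.vert i)).re| ≤ ε := by
  rw [vert_diff]
  unfold pt gr
  simp only [Prod.fst_add]
  rcases Pool.Agent.H75.Perc.dir_cases (P.side i).2 with ⟨-, e⟩ | ⟨-, e⟩ | ⟨-, e⟩ | ⟨-, e⟩ <;>
    rw [e, abs_le] <;> push_cast <;> constructor <;> nlinarith

lemma vert_hor (P : PType) {n1 n2 : ℕ} (h : ∀ i, n1 ≤ i → i < n2 → (P.side i).2 % 2 = 0) :
    ∀ d, n1 + d ≤ n2 → (P.vert (n1 + d)).2 = (P.vert n1).2 := by
  intro d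
  induction d with
  | zero => intro _; rfl
  | succ d ih =>
    intro hd
    rw [← ih (by omega), ← add_assoc, vert_diff]
    have := h (n1 + d) (by omega) (by omega)
    rcases Pool.Agent.H75.Perc.dir_cases (P.side (n1 + d)).2 with ⟨g, e⟩ | ⟨g, e⟩ | ⟨g, e⟩ | ⟨g, e⟩
    · rw [e]; simp
    · omega
    · rw [e]; simp
    · omega

/-- an arc with two given ends contains a vertical side -/
lemma vert_key (hc : Convex ℝ D) (ho : IsOpen D)
    (nh : ∀ x y : ℂ, x ≠ y → x.im = y.im → ¬ openSegment ℝ x y ⊆ frontier D) {p q : ℂ} (hpq : p ≠ q)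
    (hp : p ∈ frontier D) (hq : q ∈ frontier D) : ∃ δ > 0, ∀ (P : PType) (ε κ : ℝ) (n1 n2 : ℕ),
    0 < ε → ε ≤ κ → κ < δ → n1 < n2 → ‖pt (gr ε) (gr ε) (P.vert n1) - p‖ < δ →
    ‖pt (gr ε) (gr ε) (P.vert n2) - q‖ < δ →
    (∀ i, n1 ≤ i → i < n2 → ∃ w ∈ frontier D, ‖pt (gr ε) (gr ε) (P.vert i) - w‖ ≤ κ) →
    ∃ i, n1 ≤ i ∧ i < n2 ∧ (P.side i).2 % 2 = 1 := by
  by_cases him : p.im = q.im
  · have h1 := nh p q hpq him
    rw [not_subset] at h1
    obtain ⟨w, hw, hwf⟩ := h1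
    have hwc : w ∈ closure D := by
      have := hc.closure.openSegment_subset (frontier_subset_closure hp) (frontier_subset_closure hq) hw
      exact this
    have hwD : w ∈ D := by
      by_contra h2
      exact hwf ⟨hwc, by rwa [ho.interior_eq]⟩
    obtain ⟨r, hr, hb⟩ := Metric.isOpen_iff.1 ho w hwD
    obtain ⟨s, s', hs, hs', hss, rfl⟩ := hw
    refine ⟨r / 8, by positivity, fun P ε κ n1 n2 hε hεκ hκ h12 hv1 hv2 hn => ?_⟩
    by_contra hno
    push Not at hno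
    have hh : ∀ i, n1 ≤ i → i < n2 → (P.side i).2 % 2 = 0 := fun i a1 a2 => by
      have := hno i a1 a2
      omega
    set v1 := pt (gr ε) (gr ε) (P.vert n1) with hv1d
    set v2 := pt (gr ε) (gr ε) (P.vert n2) with hv2d
    have hre1 := (Complex.abs_re_le_norm (v1 - p)).trans_lt hv1
    have him1 := (Complex.abs_im_le_norm (v1 - p)).trans_lt hv1
    have hre2 := (Complex.abs_re_le_norm (v2 - q)).trans_lt hv2
    rw [Complex.sub_re, abs_lt] at hre1 hre2
    rw [Complex.sub_im, abs_lt] at him1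
    have hbt : ((v1.re ≤ s * v1.re + s' * v2.re ∧ s * v1.re + s' * v2.re ≤ v2.re) ∨
        (v2.re ≤ s * v1.re + s' * v2.re ∧ s * v1.re + s' * v2.re ≤ v1.re)) := by
      have e : s = 1 - s' := by linarith
      subst e
      rcases le_total v1.re v2.re with g | g
      · left
        constructor <;> nlinarith
      · right
        constructor <;> nlinarith
    obtain ⟨i, i1, i2, i3⟩ := ivt_abs (x := fun i => (pt (gr ε) (gr ε) (P.vert i)).re)
      (τ := s * v1.re + s' * v2.re) h12 (fun i _ _ => vert_step1 P i hε) hbt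
    obtain ⟨w', hw', hd⟩ := hn i i1 i2
    set u := pt (gr ε) (gr ε) (P.vert i) with hu
    have hui : u.im = v1.im := by
      have := vert_hor P hh (i - n1) (by omega)
      rw [show n1 + (i - n1) = i by omega] at this
      rw [hu, hv1d]
      unfold pt gr
      simp only
      rw [this]
    have hw'D : w' ∉ D := by
      have := hw'.2
      rwa [ho.interior_eq] at this
    apply hw'D
    apply hb
    rw [Metric.mem_ball, dist_eq_norm]
    have e1 : w' - (s • p + s' • q) = (w' - u) + (u - (s • p + s' • q)) := by ring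
    rw [e1]
    refine (norm_add_le _ _).trans_lt ?_
    rw [norm_sub_rev w' u]
    have e2 : ‖u - (s • p + s' • q)‖ ≤ 5 * (r / 8) := by
      refine (Complex.norm_le_abs_re_add_abs_im _).trans ?_
      have r1 : (u - (s • p + s' • q)).re = u.re - (s * p.re + s' * q.re) := by simp
      have r2 : (u - (s • p + s' • q)).im = u.im - (s * p.im + s' * q.im) := by simp
      rw [r1, r2, hui, ← him]
      have b1 : |u.re - (s * p.re + s' * q.re)| ≤ 2 * (r / 8) := by
        have b2 : |(s * v1.re + s' * v2.re) - (s * p.re + s' * q.re)| ≤ r / 8 := by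
          rw [abs_le]
          constructor <;> nlinarith
        have i3' : |u.re - (s * v1.re + s' * v2.re)| ≤ ε := i3
        rw [abs_le] at b2 i3' ⊢
        constructor <;> linarith
      have b3 : |v1.im - (s * p.im + s' * p.im)| ≤ r / 8 := by
        rw [show s * p.im + s' * p.im = p.im by rw [← add_mul, hss, one_mul], abs_le]
        constructor <;> linarith
      linarith
    linarith
  · refine ⟨|p.im - q.im| / 2, by
      have : 0 < |p.im - q.im| := abs_pos.2 (sub_ne_zero.2 him)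
      positivity, fun P ε κ n1 n2 hε hεκ hκ h12 hv1 hv2 hn => ?_⟩
    by_contra hno
    push Not at hno
    have hh : ∀ i, n1 ≤ i → i < n2 → (P.side i).2 % 2 = 0 := fun i a1 a2 => by
      have := hno i a1 a2
      omega
    have him1 := (Complex.abs_im_le_norm _).trans_lt hv1
    have him2 := (Complex.abs_im_le_norm _).trans_lt hv2
    rw [Complex.sub_im] at him1 him2
    have hui : (pt (gr ε) (gr ε) (P.vert n2)).im = (pt (gr ε) (gr ε) (P.vert n1)).im := by
      have := vert_hor P hh (n2 - n1) (by omega)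
      rw [show n1 + (n2 - n1) = n2 by omega] at this
      unfold pt gr
      simp only
      rw [this]
    rw [hui] at him2
    have : |p.im - q.im| ≤ |(pt (gr ε) (gr ε) (P.vert n1)).im - p.im| +
        |(pt (gr ε) (gr ε) (P.vert n1)).im - q.im| := by
      have e : p.im - q.im = -((pt (gr ε) (gr ε) (P.vert n1)).im - p.im) +
        ((pt (gr ε) (gr ε) (P.vert n1)).im - q.im) := by ring
      rw [e]
      refine (abs_add_le _ _).trans ?_
      rw [abs_neg]
    linarith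

/-- every arc of the shape contains a vertical side -/
def VArc (S : Shape) : Prop := ∀ v ≤ 3, ∃ i < S.N, arc S i = v ∧ (S.P.side i).2 % 2 = 1

theorem vert_side (h : CD D) {a b : ℂ} {φ : ℂ → ℂ} (hφ : IsHalf D a b φ) {t : Fin 4 → ℝ}
    (ht : StrictMono t)
    (nh : ∀ x y : ℂ, x ≠ y → x.im = y.im → ¬ openSegment ℝ x y ⊆ frontier D) {o : ℕ} {κ : ℕ → ℝ}
    (hκ : Tendsto κ atTop (𝓝 0)) {S : ℕ → Shape} {ε ρ η : ℕ → ℝ}
    (A : ∀ n, AppP D (PA φ b t) o (κ n) (S n) (ε n) (ρ n) (η n)) : ∀ᶠ n in atTop, VArc (S n) := by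
  have hc := fun i => pa_compact h hφ ht i
  have hf := fun i => pa_frontier h hφ ht i
  obtain ⟨i1, i2, i3, i4⟩ := pa_inter hφ ht
  have m0 := tendsto_mark (hc 2) (hc 3) i4 hκ (fun n => (mark_near (A n)).1.1)
    fun n => (mark_near (A n)).1.2
  have m2 := tendsto_mark (hc 3) (hc 0) i1 hκ (fun n => (mark_near (A n)).2.1.1)
    fun n => (mark_near (A n)).2.1.2
  have m3 := tendsto_mark (hc 0) (hc 1) i2 hκ (fun n => (mark_near (A n)).2.2.1.1)
    fun n => (mark_near (A n)).2.2.1.2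
  have m4 := tendsto_mark (hc 1) (hc 2) i3 hκ (fun n => (mark_near (A n)).2.2.2.1)
    fun n => (mark_near (A n)).2.2.2.2
  have h01 : t 0 < t 1 := ht (by decide)
  have h12 : t 1 < t 2 := ht (by decide)
  have h23 : t 2 < t 3 := ht (by decide)
  have f0 : φ (t 0) ∈ frontier D := hf 0 (by rw [PA0]; exact ⟨t 0, ⟨le_rfl, h01.le⟩, rfl⟩)
  have f1 : φ (t 1) ∈ frontier D := hf 1 (by rw [PA1]; exact ⟨t 1, ⟨le_rfl, h12.le⟩, rfl⟩)
  have f2 : φ (t 2) ∈ frontier D := hf 2 (by rw [PA2]; exact ⟨t 2, ⟨le_rfl, h23.le⟩, rfl⟩)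
  have f3 : φ (t 3) ∈ frontier D := hf 2 (by rw [PA2]; exact ⟨t 3, ⟨h23.le, le_rfl⟩, rfl⟩)
  have ne : ∀ {s s' : ℝ}, s < s' → φ s ≠ φ s' := fun hs e => hs.ne (real_inj hφ e)
  obtain ⟨δ0, d0, H0⟩ := vert_key h.conv h.op nh (ne (h01.trans (h12.trans h23))).symm f3 f0
  obtain ⟨δ1, d1, H1⟩ := vert_key h.conv h.op nh (ne h01) f0 f1
  obtain ⟨δ2, d2, H2⟩ := vert_key h.conv h.op nh (ne h12) f1 f2
  obtain ⟨δ3, d3, H3⟩ := vert_key h.conv h.op nh (ne h23) f2 f3
  have hmin : 0 < min (min δ0 δ1) (min δ2 δ3) := lt_min (lt_min d0 d1) (lt_min d2 d3)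
  rw [Metric.tendsto_nhds] at m0 m2 m3 m4
  filter_upwards [hκ.eventually_lt_const hmin, m0 _ hmin, m2 _ hmin, m3 _ hmin, m4 _ hmin] with n k g0 g2 g3 g4
  rw [dist_eq_norm] at g0 g2 g3 g4
  simp only [lt_min_iff] at k g0 g2 g3 g4
  have q2 := (S n).h02
  have q3 := (S n).h23
  have q4 := (S n).h34
  have q5 := (S n).P.hmN
  have hN : (S n).N = (S n).P.N := rfl
  have hm4 : (S n).m4 = (S n).P.m := rfl
  intro v hv
  have hv' : v = 0 ∨ v = 1 ∨ v = 2 ∨ v = 3 := by omega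
  have hOn : ∀ i, OnS (ε n) ((S n).P.side i) (pt (gr (ε n)) (gr (ε n)) ((S n).P.vert i)) :=
    fun i => onS_tail (A n).ε0 _
  rcases hv' with rfl | rfl | rfl | rfl
  · obtain ⟨i, a1, a2, a3⟩ := H0 (S n).P (ε n) (κ n) 0 (S n).m2 (A n).ε0 (A n).εκ k.1.1 q2 g0.1.1 g2.1.1
      (fun i _ hi => by
        obtain ⟨w, hw, hd⟩ := (A n).s1 i hi _ (hOn i)
        exact ⟨w, hf 3 hw, hd⟩)
    exact ⟨i, by omega, by unfold arc; rw [if_pos a2], a3⟩
  · obtain ⟨i, a1, a2, a3⟩ := H1 (S n).P (ε n) (κ n) (S n).m2 (S n).m3 (A n).ε0 (A n).εκ k.1.2 q3 g2.1.2 g3.1.2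
      (fun i hi' hi => by
        obtain ⟨w, hw, hd⟩ := (A n).s2 i hi' hi _ (hOn i)
        exact ⟨w, hf 0 hw, hd⟩)
    exact ⟨i, by omega, by unfold arc; rw [if_neg (by omega), if_pos a2], a3⟩
  · obtain ⟨i, a1, a2, a3⟩ := H2 (S n).P (ε n) (κ n) (S n).m3 (S n).m4 (A n).ε0 (A n).εκ k.2.1
      (by rw [hm4]; exact q4) g3.2.1 g4.2.1
      (fun i hi' hi => by
        obtain ⟨w, hw, hd⟩ := (A n).s3 i hi' hi _ (hOn i)
        exact ⟨w, hf 1 hw, hd⟩)
    exact ⟨i, by omega, by unfold arc; rw [if_neg (by omega), if_neg (by omega), if_pos (by omega)], a3⟩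
  · obtain ⟨i, a1, a2, a3⟩ := H3 (S n).P (ε n) (κ n) (S n).m4 (S n).P.N (A n).ε0 (A n).εκ k.2.2
      (by rw [hm4]; exact q5) g4.2.2 (by rw [vert_N]; exact g0.2.2)
      (fun i hi' hi => by
        obtain ⟨w, hw, hd⟩ := (A n).s4 i hi' hi _ (hOn i)
        exact ⟨w, hf 2 hw, hd⟩)
    exact ⟨i, by omega, by unfold arc; rw [if_neg (by omega), if_neg (by omega), if_neg (by omega)], a3⟩

end Pool.Agent.H5.FM
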