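import Mathlib
import Pool.Agent.H5.FM.Hvr

set_option autoImplicit false
open Set Filter Topology

/-! # Approximating shapes whose rows and columns are intervals, with vertical sides in every arc

For convex domains without diagonal sides. -/

namespace Pool.Agent.H5.FM

open Pool.Agent.Q1.M4 (Cell rect Reg Om)
open Pool.Agent.H21.FM
open Pool.Agent.H19.Rado (CA cr affC affC_apply half_preim_rot one_add_I_ne)
open Pool.Agent.H19.RH (Cht lam exists_cht)
open Pool.Agent.H69.Car (IsHalf HC HO)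
open Pool.Agent.H14.FM (ic)

variable {D : Set ℂ}

/-- no diagonal segment in the frontier: no horizontal segment in the tile frame -/
lemma noHor_preimage {z1 : ℂ}
    (hs : ∀ x y : ℂ, x ≠ y → ((y - x).re = (y - x).im ∨ (y - x).re = -(y - x).im) →
      ¬ openSegment ℝ x y ⊆ frontier D) :
    ∀ x y : ℂ, x ≠ y → x.im = y.im →
      ¬ openSegment ℝ x y ⊆ frontier ((fun z => (1 + Complex.I) * z + z1) ⁻¹' D) := by
  intro x y hne hxy hsub
  have himg : Af z1 '' openSegment ℝ x y = openSegment ℝ (Af z1 x) (Af z1 y) := by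
    ext w
    constructor
    · rintro ⟨_, ⟨s, t, hs, ht, hst, rfl⟩, rfl⟩
      refine ⟨s, t, hs, ht, hst, ?_⟩
      unfold Af
      simp only [Complex.real_smul]
      have e : ((s : ℂ) + t) = 1 := by exact_mod_cast hst
      linear_combination z1 * e
    · rintro ⟨s, t, hs, ht, hst, rfl⟩
      refine ⟨_, ⟨s, t, hs, ht, hst, rfl⟩, ?_⟩
      unfold Af
      simp only [Complex.real_smul]
      have e : ((s : ℂ) + t) = 1 := by exact_mod_cast hst
      linear_combination (-z1) * e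
  have hfr : Af z1 '' frontier ((fun z => (1 + Complex.I) * z + z1) ⁻¹' D) = frontier D := by
    have h1 := (affC (1 + Complex.I) one_add_I_ne z1).image_frontier
      ((fun z => (1 + Complex.I) * z + z1) ⁻¹' D)
    have h2 : (affC (1 + Complex.I) one_add_I_ne z1) '' ((fun z => (1 + Complex.I) * z + z1) ⁻¹' D) = D :=
      Af_preimage z1 D
    rw [h2] at h1
    exact h1
  refine hs (Af z1 x) (Af z1 y) (fun e => hne (Af_inj z1 e)) ?_ ?_
  · have e : Af z1 y - Af z1 x = (1 + Complex.I) * (y - x) := by unfold Af; ring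
    rw [e]
    left
    simp [hxy]
  · rw [← himg, ← hfr]
    exact image_mono hsub

section

variable (hc : Convex ℝ D) (ho : IsOpen D) (hb : Bornology.IsBounded D) {z1 : ℂ} (hz : z1 ∈ D)
  {a b : ℂ} {φ : ℂ → ℂ} (hφ : IsHalf D a b φ) {t t' : Fin 4 → ℝ} (ht : StrictMono t)
  (ht' : StrictMono t')
include hc ho hb hz hφ ht ht'

/-- **Upper bound** with polygons whose rows and columns are intervals, with rows in every arc. -/
theorem apxU_hvr (hs : ∀ x y : ℂ, x ≠ y → ((y - x).re = (y - x).im ∨ (y - x).re = -(y - x).im) →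
      ¬ openSegment ℝ x y ⊆ frontier D) (h0 : t' 0 < t 0) (h1 : t 1 < t' 1)
    (h2 : t' 2 < t 2) (h3 : t 3 < t' 3) :
    ApxU (fun S => HVC S.P.Q ∧ VArc S) z1 D ((fun x : ℝ => φ x) '' Icc (t 0) (t 1))
      ((fun x : ℝ => φ x) '' Icc (t 2) (t 3)) (1 - cr (t' 0) (t' 1) (t' 2) (t' 3)) := by
  have na : ∀ i, NoDiag D (PA φ b t i) := noDiag_of hφ ht hs
  have h := cd_preimage hc ho hb hz
  have hφ' := half_preim_rot hφ z1
  have hδ : 0 < min (t 0 - t' 0) (t 2 - t' 2) := lt_min (by linarith) (by linarith)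
  obtain ⟨u, u0, u1, gen⟩ := exists_shift hφ' t' hδ
  rw [lt_min_iff] at u1
  obtain ⟨t'', ht2⟩ : ∃ t'' : Fin 4 → ℝ, t'' = fun m => t' m + u := ⟨_, rfl⟩
  have hm : ∀ m, t'' m = t' m + u := fun m => by rw [ht2]
  have ht'' : StrictMono t'' := fun i j hij => by rw [hm, hm]; linarith [ht' hij]
  have k0 : t'' 0 < t 0 := by rw [hm]; linarith
  have k1 : t 1 < t'' 1 := by rw [hm]; linarith
  have k2 : t'' 2 < t 2 := by rw [hm]; linarith
  have k3 : t 3 < t'' 3 := by rw [hm]; linarith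
  have hcr : cr (t' 0) (t' 1) (t' 2) (t' 3) = cr (t'' 0) (t'' 1) (t'' 2) (t'' 3) := by
    rw [hm, hm, hm, hm]
    unfold cr
    congr 1
    · ring
    · ring
  rw [hcr]
  have na' : ∀ i : Fin 4, i.val % 2 ≠ 1 → NoArc ((fun z => (1 + Complex.I) * z + z1) ⁻¹' D)
      (PA (fun z => (φ z - z1) / (1 + Complex.I)) ((b - z1) / (1 + Complex.I)) t'' i) := by
    intro i hi
    have hN := noArc_preimage (z1 := z1)
      (K := PA (fun z => (φ z - z1) / (1 + Complex.I)) ((b - z1) / (1 + Complex.I)) t i)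
      (by rw [Af_PA]; exact na i)
    apply hN.mono
    rcases even_fin i (by omega) with rfl | rfl
    · rw [PA0, PA0]
      exact image_mono (Icc_subset_Icc k0.le k1.le)
    · rw [PA2, PA2]
      exact image_mono (Icc_subset_Icc k2.le k3.le)
  obtain ⟨κ0, hκ0, H⟩ := upG_of_app h hφ' ht ht'' k0 k1 k2 k3 z1
  obtain ⟨c, j, c4, G⟩ := exists_gd h hφ' ht'' (Or.inr rfl) (by
    intro m s hs
    rw [hm]
    exact gen m s hs) na'
  have hA : ∀ n : ℕ, ∃ (S : Shape) (ε ρ η : ℝ), HVC S.P.Q ∧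
      AppP ((fun z => (1 + Complex.I) * z + z1) ⁻¹' D)
      (PA (fun z => (φ z - z1) / (1 + Complex.I)) ((b - z1) / (1 + Complex.I)) t'') 1
      (κ0 / (n + 1)) S ε ρ η := fun n => exists_appV h j (Or.inr rfl) G c4 (by positivity)
  choose S ε ρ η hV A using hA
  have hκ : Tendsto (fun n : ℕ => κ0 / ((n : ℝ) + 1)) atTop (𝓝 0) := by
    have := (tendsto_one_div_add_atTop_nhds_zero_nat (𝕜 := ℝ)).const_mul κ0
    simpa [div_eq_mul_inv] using this
  obtain ⟨n0, hn0⟩ := eventually_atTop.1 (vert_side h hφ' ht'' (noHor_preimage hs) hκ A)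
  choose ψ hψ using fun n => exists_cht (x := ic) (y := ic) (S n).P ic_mono ic_mono
  have hl := lam_limit h hφ' ht'' hκ A hψ
  refine ⟨fun n => S (n + n0), fun n => ε (n + n0), fun n => ψ (n + n0),
    fun n => ⟨⟨hV _, hn0 _ (by omega)⟩, hψ _, ?_⟩, hl.comp (tendsto_add_atTop_nat n0)⟩
  have hle : κ0 / (((n + n0 : ℕ) : ℝ) + 1) ≤ κ0 := div_le_self hκ0.le (by
    have := Nat.cast_nonneg (α := ℝ) (n + n0)
    linarith)
  have := H _ _ _ _ _ hle (A (n + n0))
  rw [Af_preimage, Af_PA, Af_PA, PA0, PA2] at this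
  exact this

/-- **Lower bound** with polygons whose rows and columns are intervals, with rows in every arc. -/
theorem apxL_hvr (hs : ∀ x y : ℂ, x ≠ y → ((y - x).re = (y - x).im ∨ (y - x).re = -(y - x).im) →
      ¬ openSegment ℝ x y ⊆ frontier D) (h0 : t 0 < t' 0) (h1 : t' 1 < t 1)
    (h2 : t 2 < t' 2) (h3 : t' 3 < t 3) :
    ApxL (fun S => HVC S.P.Q ∧ VArc S) z1 D ((fun x : ℝ => φ x) '' Icc (t 0) (t 1))
      ((fun x : ℝ => φ x) '' Icc (t 2) (t 3)) (1 - cr (t' 0) (t' 1) (t' 2) (t' 3)) := by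
  have na : ∀ i, NoDiag D (PA φ b t i) := noDiag_of hφ ht hs
  have h := cd_preimage hc ho hb hz
  have hφ' := half_preim_rot hφ z1
  have hδ : 0 < min (t 1 - t' 1) (t 3 - t' 3) := lt_min (by linarith) (by linarith)
  obtain ⟨u, u0, u1, gen⟩ := exists_shift hφ' t' hδ
  rw [lt_min_iff] at u1
  obtain ⟨t'', ht2⟩ : ∃ t'' : Fin 4 → ℝ, t'' = fun m => t' m + u := ⟨_, rfl⟩
  have hm : ∀ m, t'' m = t' m + u := fun m => by rw [ht2]
  have ht'' : StrictMono t'' := fun i j hij => by rw [hm, hm]; linarith [ht' hij]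
  have k0 : t 0 < t'' 0 := by rw [hm]; linarith
  have k1 : t'' 1 < t 1 := by rw [hm]; linarith
  have k2 : t 2 < t'' 2 := by rw [hm]; linarith
  have k3 : t'' 3 < t 3 := by rw [hm]; linarith
  have hcr : cr (t' 0) (t' 1) (t' 2) (t' 3) = cr (t'' 0) (t'' 1) (t'' 2) (t'' 3) := by
    rw [hm, hm, hm, hm]
    unfold cr
    congr 1
    · ring
    · ring
  rw [hcr]
  have na' : ∀ i : Fin 4, i.val % 2 ≠ 0 → NoArc ((fun z => (1 + Complex.I) * z + z1) ⁻¹' D)
      (PA (fun z => (φ z - z1) / (1 + Complex.I)) ((b - z1) / (1 + Complex.I)) t'' i) := by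
    intro i hi
    have hN := noArc_preimage (z1 := z1)
      (K := PA (fun z => (φ z - z1) / (1 + Complex.I)) ((b - z1) / (1 + Complex.I)) t i)
      (by rw [Af_PA]; exact na i)
    apply hN.mono
    rcases odd_fin i (by omega) with rfl | rfl
    · rw [PA1, PA1]
      exact image_mono (Icc_subset_Icc k1.le k2.le)
    · rw [PA3, PA3]
      exact union_subset_union_left _ (image_mono (union_subset_union (Iic_subset_Iic.2 k0.le)
        (Ici_subset_Ici.2 k3.le)))
  obtain ⟨κ0, hκ0, H⟩ := loG_of_app h hφ' ht ht'' k0 k1 k2 k3 z1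
  obtain ⟨c, j, c4, G⟩ := exists_gd h hφ' ht'' (Or.inl rfl) (by
    intro m s hs
    rw [hm]
    exact gen m s hs) na'
  have hA : ∀ n : ℕ, ∃ (S : Shape) (ε ρ η : ℝ), HVC S.P.Q ∧
      AppP ((fun z => (1 + Complex.I) * z + z1) ⁻¹' D)
      (PA (fun z => (φ z - z1) / (1 + Complex.I)) ((b - z1) / (1 + Complex.I)) t'') 0
      (κ0 / (n + 1)) S ε ρ η := fun n => exists_appV h j (Or.inl rfl) G c4 (by positivity)
  choose S ε ρ η hV A using hA
  have hκ : Tendsto (fun n : ℕ => κ0 / ((n : ℝ) + 1)) atTop (𝓝 0) := by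
    have := (tendsto_one_div_add_atTop_nhds_zero_nat (𝕜 := ℝ)).const_mul κ0
    simpa [div_eq_mul_inv] using this
  obtain ⟨n0, hn0⟩ := eventually_atTop.1 (vert_side h hφ' ht'' (noHor_preimage hs) hκ A)
  choose ψ hψ using fun n => exists_cht (x := ic) (y := ic) (S n).P ic_mono ic_mono
  have hl := lam_limit h hφ' ht'' hκ A hψ
  refine ⟨fun n => S (n + n0), fun n => ε (n + n0), fun n => ψ (n + n0),
    fun n => ⟨⟨hV _, hn0 _ (by omega)⟩, hψ _, ?_⟩, hl.comp (tendsto_add_atTop_nat n0)⟩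
  have hle : κ0 / (((n + n0 : ℕ) : ℝ) + 1) ≤ κ0 := div_le_self hκ0.le (by
    have := Nat.cast_nonneg (α := ℝ) (n + n0)
    linarith)
  have := H _ _ _ _ _ hle (A (n + n0))
  rw [Af_preimage, Af_PA, Af_PA, PA0, PA2] at this
  exact this

end

/-- on the ring, every arc has a row -/
theorem RowF.ring_row {S : Shape} {y0 y1 : ℤ} {a b : ℤ → ℤ} {yP yQ : ℤ}
    (F : RowF S.P.Q y0 y1 a b yP yQ) (hV : VArc S) {v : ℕ} (hv : v ≤ 3) :
    ∃ Y, (y0 ≤ Y ∧ Y < y1) ∧ (ar S (a Y, Y) 3 = v ∨ ar S (b Y - 1, Y) 1 = v) := by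
  obtain ⟨i, hi, h1, h2⟩ := hV v hv
  have hs := isSide_side (S := S) i
  have hix := ix_side (S := S) hi
  rcases hp : S.P.side i with ⟨⟨X, Y⟩, k⟩
  rw [hp] at hs hix h2
  have hQ : (X, Y) ∈ S.P.Q := hs.1
  have hQ' := (F.mem X Y).1 hQ
  simp only at h2
  refine ⟨Y, hQ'.1, ?_⟩
  have hk : k % 4 = 1 ∨ k % 4 = 3 := by omega
  rcases hk with hk | hk
  · right
    have h3 := ((isSide1 hk).1 hs).2
    rw [F.mem] at h3
    rw [show b Y - 1 = X by omega, ← h1]
    unfold ar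
    rw [ix_congr (k := 1) (k' := k) (by omega), hix]
  · left
    have h3 := ((isSide3 hk).1 hs).2
    rw [F.mem] at h3
    rw [show a Y = X by omega, ← h1]
    unfold ar
    rw [ix_congr (k := 3) (k' := k) (by omega), hix]

end Pool.Agent.H5.FM
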