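import Mathlib
import Pool.Agent.H5.FM.Rfn2
import Pool.Agent.H5.FM.Join

set_option autoImplicit false
open Set

/-! # The refined polygon in the plane

At mesh `e` the refined polygon is within `e` of the polygon at mesh `k e`. -/

namespace Pool.Agent.H5.FM

open Pool.Agent.H75.Perc (dir dir_cases)
open Pool.Agent.Q1.M4 (Cell rect Reg Om mem_Om IsSide)

variable {k y0 y1 : ℤ} {a b : ℤ → ℤ} {x j d : ℤ} {e : ℝ} {z : ℂ}

/-- a cell of the refined grid is in a cell of the grid -/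
lemma div_bd (hk : 0 < k) (x : ℤ) : k * (x / k) ≤ x ∧ x + 1 ≤ k * (x / k) + k := by
  have h1 := Int.mul_ediv_self_le (x := x) (k := k) hk.ne'
  have h2 := Int.lt_mul_ediv_self_add (x := x) (k := k) hk
  omega

lemma div_bdR (hk : 0 < k) (he : 0 < e) (x : ℤ) :
    (k * e) * ((x / k : ℤ) : ℝ) ≤ e * x ∧ e * (x + 1) ≤ (k * e) * (((x / k : ℤ) : ℝ) + 1) := by
  obtain ⟨h1, h2⟩ := div_bd hk x
  have h1' : (k : ℝ) * ((x / k : ℤ) : ℝ) ≤ x := by exact_mod_cast h1
  have h2' : (x : ℝ) + 1 ≤ k * ((x / k : ℤ) : ℝ) + k := by exact_mod_cast h2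
  have e1 := mul_le_mul_of_nonneg_left h1' he.le
  have e2 := mul_le_mul_of_nonneg_left h2' he.le
  constructor <;> nlinarith

lemma rect_up (hk : 0 < k) (he : 0 < e) (h : z ∈ rect (gr e) (gr e) (x, j)) :
    z ∈ rect (gr (k * e)) (gr (k * e)) (x / k, j / k) := by
  rw [mem_rect'] at h ⊢
  obtain ⟨a1, a2⟩ := div_bdR hk he x
  obtain ⟨b1, b2⟩ := div_bdR hk he j
  obtain ⟨⟨h1, h2⟩, h3, h4⟩ := h
  exact ⟨⟨by linarith, by linarith⟩, by linarith, by linarith⟩

variable {Q : Finset Cell} {yP yQ : ℤ}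

/-- a cell of the refined polygon is in a cell of the polygon, or above one -/
lemma sub_cell (F : RowF Q y0 y1 a b yP yQ) (hk : 2 ≤ k) (h : (x, j) ∈ Rf k y0 y1 a b) :
    (x / k, j / k) ∈ Q ∨ (j = k * (j / k) ∧ (x / k, j / k - 1) ∈ Q ∧ x / k < a (j / k)) := by
  have h0 : 0 < k := by omega
  rw [mem_Rf' h0] at h
  obtain ⟨⟨j0, j1⟩, h3, h4⟩ := h
  rcases r3_cases hk j0 with e | ⟨e, e1, e2⟩
  · rw [e] at h3
    exact Or.inl ((F.mem _ _).2 ⟨⟨j0, j1⟩, h3, h4⟩)
  · rw [e] at h3
    rcases lt_or_ge (x / k) (a (j / k)) with g | g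
    · right
      have o2 := F.ov2 _ e2 (by omega)
      rw [sub_add_cancel] at o2
      refine ⟨?_, (F.mem _ _).2 ⟨⟨e2, by omega⟩, h3, by omega⟩, g⟩
      have := div_bd h0 j
      have := div_bd h0 (j - 1)
      rw [e1] at this
      have e3 : k * (j / k - 1) = k * (j / k) - k := by ring
      omega
    · exact Or.inl ((F.mem _ _).2 ⟨⟨j0, j1⟩, g, h4⟩)

/-- a cell of the refined grid in a cell of the polygon belongs to the refined polygon, or it is on the
bottom side -/
lemma cell_sub (F : RowF Q y0 y1 a b yP yQ) (hk : 2 ≤ k) (h : (x / k, j / k) ∈ Q) :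
    (x, j) ∈ Rf k y0 y1 a b ∨ (j = k * (j / k) ∧ (x / k, j / k - 1) ∉ Q) := by
  have h0 : 0 < k := by omega
  rw [mem_Rf' h0]
  rw [F.mem] at h
  obtain ⟨⟨j0, j1⟩, h3, h4⟩ := h
  rcases r3_cases hk j0 with e | ⟨e, e1, e2⟩
  · rw [e]
    exact Or.inl ⟨⟨j0, j1⟩, h3, h4⟩
  · rw [e]
    rcases lt_or_ge (x / k) (a (j / k - 1)) with g | g
    · right
      refine ⟨?_, fun h => ?_⟩
      · have := div_bd h0 j
        have := div_bd h0 (j - 1)
        rw [e1] at this
        have e3 : k * (j / k - 1) = k * (j / k) - k := by ring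
        omega
      · rw [F.mem] at h; omega
    · exact Or.inl ⟨⟨j0, j1⟩, g, h4⟩

/-- points of the closed refined region are close to the region -/
theorem reg_near (F : RowF Q y0 y1 a b yP yQ) (hk : 2 ≤ k) (he : 0 < e)
    (hz : z ∈ Reg (Rf k y0 y1 a b) (gr e) (gr e)) :
    ∃ z0 ∈ Reg Q (gr (k * e)) (gr (k * e)), ‖z - z0‖ ≤ e := by
  have h0 : 0 < k := by omega
  obtain ⟨⟨x, j⟩, hc, hr⟩ := hz
  rcases sub_cell F hk hc with g | ⟨g1, g2, -⟩
  · exact ⟨z, ⟨_, g, rect_up h0 he hr⟩, by simp [he.le]⟩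
  · have hu := mem_rect'.1 (rect_up h0 he hr)
    have hr' := mem_rect'.1 hr
    have e3 : (k : ℝ) * ((j / k : ℤ) : ℝ) = j := by exact_mod_cast g1.symm
    have e4 : (k * e) * ((j / k : ℤ) : ℝ) = e * j := by rw [← e3]; ring
    refine ⟨⟨z.re, (k * e) * ((j / k : ℤ) : ℝ)⟩, ⟨_, g2, ?_⟩, ?_⟩
    · rw [mem_rect']
      refine ⟨hu.1, ?_, ?_⟩
      · push_cast
        have : 0 < (k : ℝ) := by exact_mod_cast h0
        have := mul_pos this he
        nlinarith
      · push_cast
        rw [sub_add_cancel]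
    · have h5 := Complex.norm_le_abs_re_add_abs_im (z - ⟨z.re, (k * e) * ((j / k : ℤ) : ℝ)⟩)
      simp only [Complex.sub_re, Complex.sub_im, sub_self, abs_zero, zero_add, e4] at h5
      have h6 : |z.im - e * j| ≤ e := by
        rw [abs_le]
        constructor <;> linarith [hr'.2.1, hr'.2.2]
      rw [e4]
      linarith

/-- points outside of the open refined region are close to the outside of the region -/
theorem out_near (F : RowF Q y0 y1 a b yP yQ) (hk : 2 ≤ k) (he : 0 < e)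
    (hz : z ∉ Om (Rf k y0 y1 a b) (gr e) (gr e)) :
    ∃ z0, z0 ∉ Om Q (gr (k * e)) (gr (k * e)) ∧ ‖z - z0‖ ≤ e := by
  have h0 : 0 < k := by omega
  have hkr : (0:ℝ) < k := by exact_mod_cast h0
  have hke : 0 < (k : ℝ) * e := mul_pos hkr he
  obtain ⟨⟨x, j⟩, hr, hc⟩ := not_Om he hz
  by_cases hQ : (x / k, j / k) ∈ Q
  · rcases cell_sub F hk hQ with g | ⟨g1, g2⟩
    · exact absurd g hc
    · have hu := mem_rect'.1 (rect_up h0 he hr)
      have hr' := mem_rect'.1 hr
      have e3 : (k : ℝ) * ((j / k : ℤ) : ℝ) = j := by exact_mod_cast g1.symm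
      have e4 : (k * e) * ((j / k : ℤ) : ℝ) = e * j := by rw [← e3]; ring
      refine ⟨⟨z.re, (k * e) * ((j / k : ℤ) : ℝ)⟩, fun h => ?_, ?_⟩
      · apply g2
        refine ((mem_Om (gr_mono hke) (gr_mono hke)).1 h).2 _ ?_
        rw [mem_rect']
        refine ⟨hu.1, ?_, ?_⟩
        · push_cast
          nlinarith
        · push_cast
          rw [sub_add_cancel]
      · have h5 := Complex.norm_le_abs_re_add_abs_im (z - ⟨z.re, (k * e) * ((j / k : ℤ) : ℝ)⟩)
        simp only [Complex.sub_re, Complex.sub_im, sub_self, abs_zero, zero_add, e4] at h5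
        have h6 : |z.im - e * j| ≤ e := by
          rw [abs_le]
          constructor <;> linarith [hr'.2.1, hr'.2.2]
        rw [e4]
        linarith
  · refine ⟨z, fun h => hQ ?_, by simp [he.le]⟩
    exact ((mem_Om (gr_mono hke) (gr_mono hke)).1 h).2 _ (rect_up h0 he hr)

/-- **Sides of the refined polygon are close to sides.** -/
theorem side_near (hk : 2 ≤ k) (he : 0 < e) {s : Cell × ℤ}
    (hs : IsSide (Rf k y0 y1 a b) s) (hz : OnS e s z) :
    ∃ z0, OnS (k * e) (rpj k y0 s) z0 ∧ ‖z - z0‖ ≤ e := by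
  have h0 : 0 < k := by omega
  have hkr : (0:ℝ) < k := by exact_mod_cast h0
  have hke : 0 < (k : ℝ) * e := mul_pos hkr he
  obtain ⟨⟨x, j⟩, d⟩ := s
  have rr := rel hk j
  obtain ⟨x1, x2⟩ := div_bdR h0 he x
  have bx := div_bd h0 x
  have bj := div_bd h0 j
  rcases dir_cases d with ⟨h, -⟩ | ⟨h, -⟩ | ⟨h, -⟩ | ⟨h, -⟩
  · rw [isSide0 h, mem_Rf' h0, mem_Rf' h0] at hs
    obtain ⟨⟨⟨j0, j1⟩, h3, h4⟩, h2⟩ := hs
    have hj : j ≤ k * (j / k) + 1 := by
      by_contra g
      have b2 := div_bd h0 (j - 2)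
      have e1 : (j - 2) / k = j / k := by
        have : j / k ≤ (j - 2) / k := by rw [← row_lo h0]; omega
        omega
      have e2 : r3 k y0 (j - 1) = j / k := by rw [r3_pred]; omega
      have e3 : (j - 1) / k = j / k := by omega
      apply h2
      rw [e2, e3]
      rcases r3_cases hk j0 with e | ⟨e, e', -⟩
      · rw [e] at h3; exact ⟨⟨j0, j1⟩, h3, h4⟩
      · omega
    rcases hz with ⟨-, z1, z2, z3⟩ | ⟨g, -⟩ | ⟨g, -⟩ | ⟨g, -⟩
    · simp only at z1 z2 z3
      rw [rpj01 (Or.inl h)]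
      have c1 : (j : ℝ) ≤ k * ((j / k : ℤ) : ℝ) + 1 := by exact_mod_cast hj
      have c2 : (k : ℝ) * ((j / k : ℤ) : ℝ) ≤ j := by exact_mod_cast bj.1
      refine ⟨⟨z.re, (k * e) * ((j / k : ℤ) : ℝ)⟩, Or.inl ⟨h, rfl, ?_, ?_⟩, ?_⟩
      · simp only; linarith
      · simp only; linarith
      · have h5 := Complex.norm_le_abs_re_add_abs_im (z - ⟨z.re, (k * e) * ((j / k : ℤ) : ℝ)⟩)
        simp only [Complex.sub_re, Complex.sub_im, sub_self, abs_zero, zero_add] at h5
        have h6 : |z.im - (k * e) * ((j / k : ℤ) : ℝ)| ≤ e := by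
          have m1 := mul_le_mul_of_nonneg_left c1 he.le
          have m2 := mul_le_mul_of_nonneg_left c2 he.le
          rw [z1, abs_le]
          constructor <;> nlinarith
        linarith
    all_goals (simp only at g; omega)
  · rw [isSide1 h, mem_Rf' h0, mem_Rf' h0] at hs
    obtain ⟨⟨⟨j0, j1⟩, h3, h4⟩, h2⟩ := hs
    have rx := relx (show 1 ≤ k by omega) x
    have e1 : (x + 1) / k = x / k + 1 := by omega
    have e2 : x + 1 = k * (x / k) + k := by
      have := div_bd h0 (x + 1)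
      rw [e1] at this
      have e3 : k * (x / k + 1) = k * (x / k) + k := by ring
      omega
    have e3 : (x : ℝ) + 1 = k * ((x / k : ℤ) : ℝ) + k := by exact_mod_cast e2
    obtain ⟨y1', y2'⟩ := div_bdR h0 he j
    rcases hz with ⟨g, -⟩ | ⟨-, z1, z2, z3⟩ | ⟨g, -⟩ | ⟨g, -⟩
    · simp only at g; omega
    · simp only at z1 z2 z3
      rw [rpj01 (Or.inr h)]
      refine ⟨z, Or.inr (Or.inl ⟨h, ?_, ?_, ?_⟩), by simp [he.le]⟩
      · simp only; rw [z1, e3]; ring
      · simp only; linarith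
      · simp only; linarith
    all_goals (simp only at g; omega)
  · rw [isSide2 h, mem_Rf' h0, mem_Rf' h0] at hs
    obtain ⟨⟨⟨j0, j1⟩, h3, h4⟩, h2⟩ := hs
    rw [r3_succ j0] at h2
    have hj : k * (r3 k y0 j) + k ≤ j + 1 ∧ j ≤ k * (r3 k y0 j) + k := by
      rcases r3_cases hk j0 with e | ⟨e, e', e2⟩
      · rw [e]
        refine ⟨?_, by omega⟩
        by_contra g
        have e1 : (j + 1) / k = j / k := by
          have : (j + 1) / k < j / k + 1 := by
            rw [← row_hi h0]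
            have : k * (j / k + 1) = k * (j / k) + k := by ring
            omega
          omega
        rw [e] at h3
        rw [e1] at h2
        exact h2 ⟨⟨j0, j1⟩, h3, h4⟩
      · rw [e]
        have := div_bd h0 (j - 1)
        rw [e'] at this
        have e3 : k * (j / k - 1) = k * (j / k) - k := by ring
        omega
    rcases hz with ⟨g, -⟩ | ⟨g, -⟩ | ⟨-, z1, z2, z3⟩ | ⟨g, -⟩
    · simp only at g; omega
    · simp only at g; omega
    · simp only at z1 z2 z3
      rw [rpj23 (Or.inl h)]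
      have c1 : (k : ℝ) * (r3 k y0 j : ℝ) + k ≤ j + 1 := by exact_mod_cast hj.1
      have c2 : (j : ℝ) ≤ (k : ℝ) * (r3 k y0 j : ℝ) + k := by exact_mod_cast hj.2
      refine ⟨⟨z.re, (k * e) * ((r3 k y0 j : ℝ) + 1)⟩, Or.inr (Or.inr (Or.inl ⟨h, rfl, ?_, ?_⟩)), ?_⟩
      · simp only; linarith
      · simp only; linarith
      · have h5 := Complex.norm_le_abs_re_add_abs_im (z - ⟨z.re, (k * e) * ((r3 k y0 j : ℝ) + 1)⟩)
        simp only [Complex.sub_re, Complex.sub_im, sub_self, abs_zero, zero_add] at h5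
        have h6 : |z.im - (k * e) * ((r3 k y0 j : ℝ) + 1)| ≤ e := by
          have m1 := mul_le_mul_of_nonneg_left c1 he.le
          have m2 := mul_le_mul_of_nonneg_left c2 he.le
          rw [z1, abs_le]
          constructor <;> nlinarith
        linarith
    · simp only at g; omega
  · rw [isSide3 h, mem_Rf' h0, mem_Rf' h0] at hs
    obtain ⟨⟨⟨j0, j1⟩, h3, h4⟩, h2⟩ := hs
    have rx := relx (show 1 ≤ k by omega) x
    have e1 : (x - 1) / k = x / k - 1 := by omega
    have e2 : x = k * (x / k) := by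
      have := div_bd h0 (x - 1)
      rw [e1] at this
      have e3 : k * (x / k - 1) = k * (x / k) - k := by ring
      omega
    have e3 : (x : ℝ) = k * ((x / k : ℤ) : ℝ) := by exact_mod_cast e2
    have hj : k * (r3 k y0 j) ≤ j ∧ j ≤ k * (r3 k y0 j) + k := by
      rcases r3_cases hk j0 with e | ⟨e, e', e2⟩
      · rw [e]; omega
      · rw [e]
        have := div_bd h0 (j - 1)
        rw [e'] at this
        have e3 : k * (j / k - 1) = k * (j / k) - k := by ring
        omega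
    rcases hz with ⟨g, -⟩ | ⟨g, -⟩ | ⟨g, -⟩ | ⟨-, z1, z2, z3⟩
    · simp only at g; omega
    · simp only at g; omega
    · simp only at g; omega
    · simp only at z1 z2 z3
      rw [rpj23 (Or.inr h)]
      have c1 : (k : ℝ) * (r3 k y0 j : ℝ) ≤ j := by exact_mod_cast hj.1
      have c2 : (j : ℝ) ≤ (k : ℝ) * (r3 k y0 j : ℝ) + k := by exact_mod_cast hj.2
      have m1 := mul_le_mul_of_nonneg_left c1 he.le
      have m2 := mul_le_mul_of_nonneg_left c2 he.le
      refine ⟨⟨z.re, min z.im ((k * e) * ((r3 k y0 j : ℝ) + 1))⟩,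
        Or.inr (Or.inr (Or.inr ⟨h, ?_, ?_, min_le_right _ _⟩)), ?_⟩
      · simp only; rw [z1, e3]; ring
      · simp only
        apply le_min
        · nlinarith
        · nlinarith
      · have h5 := Complex.norm_le_abs_re_add_abs_im
          (z - ⟨z.re, min z.im ((k * e) * ((r3 k y0 j : ℝ) + 1))⟩)
        simp only [Complex.sub_re, Complex.sub_im, sub_self, abs_zero, zero_add] at h5
        have h6 : |z.im - min z.im ((k * e) * ((r3 k y0 j : ℝ) + 1))| ≤ e := by
          rcases le_total z.im ((k * e) * ((r3 k y0 j : ℝ) + 1)) with g | g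
          · rw [min_eq_left g, sub_self, abs_zero]; exact he.le
          · rw [min_eq_right g, abs_le]
            constructor <;> nlinarith
        linarith

end Pool.Agent.H5.FM
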