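import Mathlib
import Pool.Agent.H5.FM.Rfn4

set_option autoImplicit false
open Set

/-! # Paths in the refined polygon

Every cell of the polygon has a home point in the refined polygon; paths in the polygon give paths between
homes in the refined polygon. -/

namespace Pool.Agent.H5.FM

open Pool.Agent.Q1.M4 (Cell rect Reg Om mem_Om)

/-- cells near a point contain the point -/
lemma loc1 {ε : ℝ} (hε : 0 < ε) (x0 : ℝ) : ∃ δ > 0, ∀ x', |x' - x0| < δ → ∀ i : ℤ, ε * i ≤ x' →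
    x' ≤ ε * (i + 1) → ε * i ≤ x0 ∧ x0 ≤ ε * (i + 1) := by
  have f1 := Int.lt_floor_add_one (x0 / ε)
  have f2 := Int.ceil_lt_add_one (x0 / ε)
  have f3 := Int.floor_le (x0 / ε)
  have f4 := Int.le_ceil (x0 / ε)
  have e0 : ε * (x0 / ε) = x0 := mul_div_cancel₀ x0 hε.ne'
  have g1 := mul_lt_mul_of_pos_left f1 hε
  have g2 := mul_lt_mul_of_pos_left f2 hε
  have g3 := mul_le_mul_of_nonneg_left f3 hε.le
  have g4 := mul_le_mul_of_nonneg_left f4 hε.le
  rw [e0] at g1 g3 g4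
  rw [mul_add, e0, mul_one] at g2
  rw [mul_add, mul_one] at g1
  refine ⟨min (ε * ⌊x0 / ε⌋ + ε - x0) (x0 - (ε * ⌈x0 / ε⌉ - ε)), lt_min (by linarith) (by linarith), ?_⟩
  intro x' hx i h1 h2
  rw [lt_min_iff, abs_lt, abs_lt] at hx
  have c1 : (i : ℝ) < ⌊x0 / ε⌋ + 1 := lt_of_mul_lt_mul_left (by linarith [hx.1.2]) hε.le
  have c2 : (⌈x0 / ε⌉ : ℝ) < i + 2 := lt_of_mul_lt_mul_left (by linarith [hx.2.1]) hε.le
  have c1' : i < ⌊x0 / ε⌋ + 1 := by exact_mod_cast c1
  have c2' : ⌈x0 / ε⌉ < i + 2 := by exact_mod_cast c2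
  have d1 : (i : ℝ) ≤ ⌊x0 / ε⌋ := by exact_mod_cast (show i ≤ ⌊x0 / ε⌋ by omega)
  have d2 : (⌈x0 / ε⌉ : ℝ) ≤ i + 1 := by exact_mod_cast (show ⌈x0 / ε⌉ ≤ i + 1 by omega)
  have e1 := mul_le_mul_of_nonneg_left d1 hε.le
  have e2 := mul_le_mul_of_nonneg_left d2 hε.le
  exact ⟨by linarith, by linarith⟩

lemma loc2 {ε : ℝ} (hε : 0 < ε) (z : ℂ) : ∃ δ > 0, ∀ z', ‖z' - z‖ < δ → ∀ c : Cell,
    z' ∈ rect (gr ε) (gr ε) c → z ∈ rect (gr ε) (gr ε) c := by
  obtain ⟨δ1, d1, H1⟩ := loc1 hε z.re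
  obtain ⟨δ2, d2, H2⟩ := loc1 hε z.im
  refine ⟨min δ1 δ2, lt_min d1 d2, ?_⟩
  rintro z' hz ⟨i, j⟩ hr
  rw [lt_min_iff] at hz
  rw [mem_rect'] at hr ⊢
  have a1 := Complex.abs_re_le_norm (z' - z)
  have a2 := Complex.abs_im_le_norm (z' - z)
  rw [Complex.sub_re] at a1
  rw [Complex.sub_im] at a2
  exact ⟨H1 z'.re (a1.trans_lt hz.1) i hr.1.1 hr.1.2, H2 z'.im (a2.trans_lt hz.2) j hr.2.1 hr.2.2⟩

lemma rect_dist {ε : ℝ} {c : Cell} {z w : ℂ} (hz : z ∈ rect (gr ε) (gr ε) c)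
    (hw : w ∈ rect (gr ε) (gr ε) c) : ‖z - w‖ ≤ 2 * ε := by
  obtain ⟨i, j⟩ := c
  rw [mem_rect'] at hz hw
  obtain ⟨⟨a1, a2⟩, a3, a4⟩ := hz
  obtain ⟨⟨b1, b2⟩, b3, b4⟩ := hw
  have h := Complex.norm_le_abs_re_add_abs_im (z - w)
  rw [Complex.sub_re, Complex.sub_im] at h
  have h1 : |z.re - w.re| ≤ ε := by rw [abs_le]; constructor <;> linarith
  have h2 : |z.im - w.im| ≤ ε := by rw [abs_le]; constructor <;> linarith
  linarith

/-- the home of a cell -/
noncomputable def home (k : ℤ) (e : ℝ) (c : Cell) : ℂ := cnr e (k * c.1) (k * c.2 + 1)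

variable {k y0 y1 : ℤ} {a b : ℤ → ℤ} {e : ℝ} {z : ℂ}

lemma home_rect (hk : 2 ≤ k) (he : 0 < e) (c : Cell) :
    home k e c ∈ rect (gr (k * e)) (gr (k * e)) c := by
  obtain ⟨X, J⟩ := c
  have hk' : (2:ℝ) ≤ k := by exact_mod_cast hk
  have h2 := mul_le_mul_of_nonneg_right hk' he.le
  rw [mem_rect']
  unfold home
  rw [cnr_re, cnr_im]
  push_cast
  constructor <;> constructor <;> nlinarith

lemma ediv_of (hk : 0 < k) {X i : ℤ} (h1 : k * X ≤ i) (h2 : i < k * X + k) : i / k = X := by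
  have a1 := (row_lo hk).1 h1
  have a2 := (row_hi hk).1 (show i < k * (X + 1) by rw [mul_add, mul_one]; exact h2)
  omega

variable {Q : Finset Cell} {yP yQ : ℤ} (F : RowF Q y0 y1 a b yP yQ) (hk : 2 ≤ k) (he : 0 < e)
include F hk

lemma sub_mem {X J i j : ℤ} (hQ : (X, J) ∈ Q) (h1 : k * X ≤ i) (h2 : i < k * X + k)
    (h3 : k * J + 1 ≤ j) (h4 : j < k * J + k) : (i, j) ∈ Rf k y0 y1 a b := by
  have h0 : 0 < k := by omega
  have e1 := ediv_of h0 h1 h2
  have e2 := ediv_of h0 (show k * J ≤ j by omega) h4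
  rcases cell_sub F hk (x := i) (j := j) (by rw [e1, e2]; exact hQ) with g | ⟨g, -⟩
  · exact g
  · rw [e2] at g; omega

include he

lemma home_row {X X' J : ℤ} (h1 : (X, J) ∈ Q) (h2 : (X', J) ∈ Q) (h3 : X ≤ X' + 1) (h4 : X' ≤ X + 1)
    {p : ℂ} {ρ : ℝ} (b1 : home k e (X, J) ∈ Metric.ball p ρ) (b2 : home k e (X', J) ∈ Metric.ball p ρ) :
    JoinedIn (Om (Rf k y0 y1 a b) (gr e) (gr e) ∩ Metric.ball p ρ) (home k e (X, J))
      (home k e (X', J)) := by
  have h0 : 0 < k := by omega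
  have ml : ∀ {u v : ℤ}, u ≤ v → k * u ≤ k * v := fun h => mul_le_mul_of_nonneg_left h h0.le
  apply join_box he (i0 := k * min X X') (i1 := k * max X X') (j0 := k * J + 1) (j1 := k * J + 1) ?_
    (ml (min_le_left _ _)) (ml (le_max_left _ _)) le_rfl le_rfl (ml (min_le_right _ _))
    (ml (le_max_right _ _)) le_rfl le_rfl b1 b2
  intro i j a1 a2 a3 a4
  obtain rfl : j = k * J + 1 := by omega
  have e2 := ediv_of h0 (show k * J ≤ k * J + 1 by omega) (show k * J + 1 < k * J + k by omega)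
  have e3 : i / k = X ∨ i / k = X' := by
    have c1 := (row_lo h0).1 a1
    have c2 := Int.ediv_le_ediv h0 a2
    rw [Int.mul_ediv_cancel_left _ h0.ne'] at c2
    omega
  rcases cell_sub F hk (x := i) (j := k * J + 1) (by
    rw [e2]; rcases e3 with e3 | e3 <;> rw [e3] <;> assumption) with g | ⟨g, -⟩
  · exact g
  · rw [e2] at g; omega

lemma home_col {X J J' : ℤ} (h1 : (X, J) ∈ Q) (h2 : (X, J') ∈ Q) (h3 : J ≤ J' + 1) (h4 : J' ≤ J + 1)
    {p : ℂ} {ρ : ℝ} (b1 : home k e (X, J) ∈ Metric.ball p ρ) (b2 : home k e (X, J') ∈ Metric.ball p ρ) :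
    JoinedIn (Om (Rf k y0 y1 a b) (gr e) (gr e) ∩ Metric.ball p ρ) (home k e (X, J))
      (home k e (X, J')) := by
  have h0 : 0 < k := by omega
  have ml : ∀ {u v : ℤ}, u ≤ v → k * u + 1 ≤ k * v + 1 := fun h => by
    have := mul_le_mul_of_nonneg_left h h0.le
    omega
  apply join_box he (i0 := k * X) (i1 := k * X) (j0 := k * min J J' + 1) (j1 := k * max J J' + 1) ?_
    le_rfl le_rfl (ml (min_le_left _ _)) (ml (le_max_left _ _)) le_rfl le_rfl (ml (min_le_right _ _))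
    (ml (le_max_right _ _)) b1 b2
  intro i j a1 a2 a3 a4
  obtain rfl : i = k * X := by omega
  have e2 : k * X / k = X := Int.mul_ediv_cancel_left _ h0.ne'
  have c1 := (row_lo h0).1 (show k * min J J' ≤ j by omega)
  have c2 : j / k ≤ max J J' := by
    have := Int.ediv_le_ediv h0 a4
    rwa [ediv_of h0 (show k * max J J' ≤ k * max J J' + 1 by omega) (by omega)] at this
  rcases cell_sub F hk (x := k * X) (j := j) (by
    rw [e2]
    rcases (show j / k = J ∨ j / k = J' by omega) with e3 | e3 <;> rw [e3] <;> assumption)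
    with g | ⟨g1, g2⟩
  · exact g
  · exfalso
    rw [e2] at g2
    have c3 : min J J' ≠ j / k := fun h => by rw [h] at a3; omega
    apply g2
    rcases (show j / k - 1 = J ∨ j / k - 1 = J' by omega) with e3 | e3 <;> rw [e3] <;> assumption

omit F in
lemma home_ball {c : Cell} {p y : ℂ} {ρ : ℝ} (hy : y ∈ Metric.ball p ρ)
    (hc : y ∈ rect (gr (k * e)) (gr (k * e)) c) : home k e c ∈ Metric.ball p (ρ + 2 * (k * e)) := by
  have h1 := rect_dist (home_rect hk he c) hc
  rw [Metric.mem_ball, dist_eq_norm] at hy ⊢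
  have := norm_sub_le_norm_sub_add_norm_sub (home k e c) y p
  linarith

/-- homes of the cells at a point are joined -/
lemma home_pt {y : ℂ} (hy : y ∈ Om Q (gr (k * e)) (gr (k * e))) {c c' : Cell}
    (hc : y ∈ rect (gr (k * e)) (gr (k * e)) c) (hc' : y ∈ rect (gr (k * e)) (gr (k * e)) c') {p : ℂ}
    {ρ : ℝ} (hb : y ∈ Metric.ball p ρ) :
    JoinedIn (Om (Rf k y0 y1 a b) (gr e) (gr e) ∩ Metric.ball p (ρ + 2 * (k * e))) (home k e c)
      (home k e c') := by
  have hkr : (0:ℝ) < k := by exact_mod_cast (show 0 < k by omega)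
  have hke : 0 < (k : ℝ) * e := mul_pos hkr he
  obtain ⟨X, J⟩ := c
  obtain ⟨X', J'⟩ := c'
  have g := ((mem_Om (gr_mono hke) (gr_mono hke)).1 hy).2
  have h1 := mem_rect'.1 hc
  have h2 := mem_rect'.1 hc'
  have hm : y ∈ rect (gr (k * e)) (gr (k * e)) (X', J) := mem_rect'.2 ⟨h2.1, h1.2⟩
  have key : ∀ {i i' : ℤ} {x : ℝ}, (k * e) * i ≤ x → x ≤ (k * e) * (i' + 1) → i ≤ i' + 1 := by
    intro i i' x l1 l2
    have := le_of_mul_le_mul_left (l1.trans l2) hke
    exact_mod_cast this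
  have b0 := home_ball hk he hb hc
  have b1 := home_ball hk he hb hm
  have b2 := home_ball hk he hb hc'
  exact (home_row F hk he (g _ hc) (g _ hm) (key h1.1.1 h2.1.2) (key h2.1.1 h1.1.2) b0 b1).trans
    (home_col F hk he (g _ hm) (g _ hc') (key h1.2.1 h2.2.2) (key h2.2.1 h1.2.2) b1 b2)

/-- **Paths in the polygon give paths between homes.** -/
theorem home_join {p z w : ℂ} {ρ : ℝ}
    (H : JoinedIn (Om Q (gr (k * e)) (gr (k * e)) ∩ Metric.ball p ρ) z w) {c c' : Cell}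
    (hc : z ∈ rect (gr (k * e)) (gr (k * e)) c) (hc' : w ∈ rect (gr (k * e)) (gr (k * e)) c') :
    JoinedIn (Om (Rf k y0 y1 a b) (gr e) (gr e) ∩ Metric.ball p (ρ + 2 * (k * e))) (home k e c)
      (home k e c') := by
  have hkr : (0:ℝ) < k := by exact_mod_cast (show 0 < k by omega)
  have hke : 0 < (k : ℝ) * e := mul_pos hkr he
  obtain ⟨γ, hγ⟩ := H
  set T : Set unitInterval := {t | ∀ c', γ t ∈ rect (gr (k * e)) (gr (k * e)) c' →
    JoinedIn (Om (Rf k y0 y1 a b) (gr e) (gr e) ∩ Metric.ball p (ρ + 2 * (k * e))) (home k e c)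
      (home k e c')} with hT
  have hnear : ∀ t : unitInterval, ∃ V ∈ nhds t, ∀ s ∈ V, ∀ c : Cell,
      γ s ∈ rect (gr (k * e)) (gr (k * e)) c → γ t ∈ rect (gr (k * e)) (gr (k * e)) c := by
    intro t
    obtain ⟨δ, hδ, H⟩ := loc2 hke (γ t)
    refine ⟨γ ⁻¹' Metric.ball (γ t) δ, γ.continuous.continuousAt.preimage_mem_nhds
      (Metric.ball_mem_nhds _ hδ), fun s hs c hc => H _ ?_ c hc⟩
    rw [← dist_eq_norm]
    exact hs
  have hop : IsOpen T := by
    rw [isOpen_iff_mem_nhds]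
    intro t ht
    obtain ⟨V, hV, H⟩ := hnear t
    exact Filter.mem_of_superset hV fun s hs c' hc' => ht c' (H s hs c' hc')
  have hcl : IsClosed T := by
    rw [← isOpen_compl_iff, isOpen_iff_mem_nhds]
    intro t ht
    obtain ⟨V, hV, H⟩ := hnear t
    refine Filter.mem_of_superset hV fun s hs hsT => ht fun c' hc' => ?_
    obtain ⟨c'', hc''⟩ := exists_rect hke (γ s)
    exact (hsT c'' hc'').trans (home_pt F hk he (hγ t).1 (H s hs c'' hc'') hc' (hγ t).2)
  have h0 : (0 : unitInterval) ∈ T := by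
    intro c' hc'
    rw [γ.source] at hc'
    have := hγ 0
    rw [γ.source] at this
    exact home_pt F hk he this.1 hc hc' this.2
  have hu : T = univ := IsClopen.eq_univ ⟨hcl, hop⟩ ⟨0, h0⟩
  have h1 : (1 : unitInterval) ∈ T := by rw [hu]; trivial
  exact h1 c' (by rw [γ.target]; exact hc')

/-- **Points of the refined polygon are joined to a home.** -/
theorem to_home (hz : z ∈ Om (Rf k y0 y1 a b) (gr e) (gr e)) : ∃ c ∈ Q, ‖home k e c - z‖ ≤ 3 * (k * e) ∧
    (∀ p ρ, ‖z - p‖ + 4 * (k * e) ≤ ρ →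
      JoinedIn (Om (Rf k y0 y1 a b) (gr e) (gr e) ∩ Metric.ball p ρ) z (home k e c)) ∧
    (z ∈ Om Q (gr (k * e)) (gr (k * e)) → z ∈ rect (gr (k * e)) (gr (k * e)) c) := by
  have h0 : 0 < k := by omega
  have hkr : (0:ℝ) < k := by exact_mod_cast h0
  have hk2 : (2:ℝ) ≤ k := by exact_mod_cast hk
  have hke : 0 < (k : ℝ) * e := mul_pos hkr he
  have he2 : 2 * e ≤ k * e := mul_le_mul_of_nonneg_right hk2 he.le
  obtain ⟨⟨⟨x, j⟩, hQ, hr⟩, -⟩ := (mem_Om (gr_mono he) (gr_mono he)).1 hz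
  have hr' := mem_rect'.1 hr
  have hu' := rect_up h0 he hr
  have hu := mem_rect'.1 hu'
  have dx := div_bd h0 x
  have dj := div_bd h0 j
  -- balls
  have ball : ∀ {x' j' : ℤ} {p : ℂ} {ρ : ℝ}, ‖z - p‖ + 4 * (k * e) ≤ ρ → x' / k = x / k →
      j' < k * (j / k) + k → k * (j / k) - k ≤ j' → cnr e x' j' ∈ Metric.ball p ρ := by
    intro x' j' p ρ h1 h2 h3 h4
    rw [Metric.mem_ball, dist_eq_norm]
    have t := norm_sub_le_norm_sub_add_norm_sub (cnr e x' j') z p
    have n1 := Complex.norm_le_abs_re_add_abs_im (cnr e x' j' - z)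
    rw [Complex.sub_re, Complex.sub_im, cnr_re, cnr_im] at n1
    have m := div_bdR h0 he x'
    rw [h2] at m
    have r1 : |e * ((x' : ℝ) + 1 / 2) - z.re| ≤ k * e := by
      rw [abs_le]; constructor <;> linarith [hu.1.1, hu.1.2]
    have q1 : (j' : ℝ) + 1 ≤ k * ((j / k : ℤ) : ℝ) + k := by exact_mod_cast (show j' + 1 ≤ _ by omega)
    have q2 : (k : ℝ) * ((j / k : ℤ) : ℝ) - k ≤ j' := by exact_mod_cast h4
    have q1' := mul_le_mul_of_nonneg_left q1 he.le
    have q2' := mul_le_mul_of_nonneg_left q2 he.le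
    have r2 : |e * ((j' : ℝ) + 1 / 2) - z.im| ≤ 2 * (k * e) := by
      rw [abs_le]; constructor <;> nlinarith [hu.2.1, hu.2.2]
    linarith
  have hself : ∀ {p : ℂ} {ρ : ℝ}, ‖z - p‖ + 4 * (k * e) ≤ ρ → z ∈ Metric.ball p ρ := by
    intro p ρ h1
    rw [Metric.mem_ball, dist_eq_norm]; linarith
  have eX : k * (x / k) / k = x / k := Int.mul_ediv_cancel_left _ h0.ne'
  -- inside of a cell
  have inn : ∀ {J j' : ℤ} {p : ℂ} {ρ : ℝ}, ‖z - p‖ + 4 * (k * e) ≤ ρ → (x / k, J) ∈ Q →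
      (J = j / k ∨ J = j / k - 1) → k * J + 1 ≤ j' → j' < k * J + k →
      JoinedIn (Om (Rf k y0 y1 a b) (gr e) (gr e) ∩ Metric.ball p ρ) (cnr e x j')
        (home k e (x / k, J)) := by
    intro J j' p ρ h1 h2 h3 h4 h5
    have e3 : k * J ≤ k * (j / k) ∧ k * (j / k) - k ≤ k * J := by
      rcases h3 with rfl | rfl
      · omega
      · have : k * (j / k - 1) = k * (j / k) - k := by ring
        omega
    refine join_box he (i0 := k * (x / k)) (i1 := k * (x / k) + k - 1) (j0 := k * J + 1)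
      (j1 := k * J + k - 1) (fun i'' j'' a1 a2 a3 a4 => sub_mem F hk h2 a1 (by omega) a3 (by omega))
      (by omega) (by omega) h4 (by omega) le_rfl (by omega) le_rfl (by omega) ?_ ?_
    · exact ball h1 rfl (by omega) (by omega)
    · exact ball h1 eX (by show k * J + 1 < _; omega) (by show _ ≤ k * J + 1; omega)
  rcases sub_cell F hk hQ with g | ⟨g1, g2, g3⟩
  · refine ⟨_, g, ?_, ?_, fun _ => hu'⟩
    · have := rect_dist (home_rect hk he (x / k, j / k)) hu'
      linarith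
    · intro p ρ hp
      have b1 := ball (x' := x) (j' := j) hp rfl (by omega) (by omega)
      have J0 := join_cnr he hQ hz hr (hself hp) b1
      rcases eq_or_lt_of_le dj.1 with g1 | g1
      · have hm : (x, j + 1) ∈ Rf k y0 y1 a b := sub_mem F hk g dx.1 (by omega) (by omega) (by omega)
        have J1 : JoinedIn (Om (Rf k y0 y1 a b) (gr e) (gr e) ∩ Metric.ball p ρ) (cnr e x j)
            (cnr e x (j + 1)) := by
          refine join_box he (i0 := x) (i1 := x) (j0 := j) (j1 := j + 1) ?_ le_rfl le_rfl le_rfl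
            (by omega) le_rfl le_rfl (by omega) le_rfl b1 (ball hp rfl (by omega) (by omega))
          intro i'' j'' a1 a2 a3 a4
          obtain rfl : i'' = x := by omega
          rcases (show j'' = j ∨ j'' = j + 1 by omega) with rfl | rfl
          · exact hQ
          · exact hm
        exact (J0.trans J1).trans (inn hp g (Or.inl rfl) (by omega) (by omega))
      · exact J0.trans (inn hp g (Or.inl rfl) (by omega) (by omega))
  · have e4 : k * (j / k - 1) = k * (j / k) - k := by ring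
    refine ⟨_, g2, ?_, ?_, fun hO => ?_⟩
    · have hh := mem_rect'.1 (home_rect hk he (x / k, j / k - 1))
      have n1 := Complex.norm_le_abs_re_add_abs_im (home k e (x / k, j / k - 1) - z)
      rw [Complex.sub_re, Complex.sub_im] at n1
      have r1 : |(home k e (x / k, j / k - 1)).re - z.re| ≤ k * e := by
        rw [abs_le]; constructor <;> linarith [hu.1.1, hu.1.2, hh.1.1, hh.1.2]
      have hh2 := hh.2
      push_cast at hh2
      have r2 : |(home k e (x / k, j / k - 1)).im - z.im| ≤ 2 * (k * e) := by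
        rw [abs_le]; constructor <;> nlinarith [hu.2.1, hu.2.2, hh2.1, hh2.2]
      linarith
    · intro p ρ hp
      have b1 := ball (x' := x) (j' := j) hp rfl (by omega) (by omega)
      have J0 := join_cnr he hQ hz hr (hself hp) b1
      have hm : (x, j - 1) ∈ Rf k y0 y1 a b := sub_mem F hk g2 dx.1 (by omega) (by omega) (by omega)
      have J1 : JoinedIn (Om (Rf k y0 y1 a b) (gr e) (gr e) ∩ Metric.ball p ρ) (cnr e x j)
          (cnr e x (j - 1)) := by
        refine join_box he (i0 := x) (i1 := x) (j0 := j - 1) (j1 := j) ?_ le_rfl le_rfl (by omega)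
          le_rfl le_rfl le_rfl le_rfl (by omega) b1 (ball hp rfl (by omega) (by omega))
        intro i'' j'' a1 a2 a3 a4
        obtain rfl : i'' = x := by omega
        rcases (show j'' = j ∨ j'' = j - 1 by omega) with rfl | rfl
        · exact hQ
        · exact hm
      exact (J0.trans J1).trans (inn hp g2 (Or.inr rfl) (by omega) (by omega))
    · exfalso
      have := ((mem_Om (gr_mono hke) (gr_mono hke)).1 hO).2 _ hu'
      rw [F.mem] at this
      omega

end Pool.Agent.H5.FM
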