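import Mathlib
import Pool.Agent.H5.FM.Rfn3
import Pool.Agent.H5.FM.Rfn5
import Pool.Agent.H5.FM.Hvr2

set_option autoImplicit false
open Set Filter Topology

/-! # Approximating shapes in the class `Dis` -/

namespace Pool.Agent.H5.FM

open Pool.Agent.Q1.M4 (Cell rect Reg Om mem_Om)
open Pool.Agent.H21.FM
open Pool.Agent.H19.Rado (CA cr)

lemma onS_congr {ε : ℝ} {s s' : Cell × ℤ} {z : ℂ} (h1 : s.1 = s'.1) (h2 : (s.2 - s'.2) % 4 = 0)
    (h : OnS ε s z) : OnS ε s' z := by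
  obtain ⟨c, d⟩ := s
  obtain ⟨c', d'⟩ := s'
  obtain rfl : c = c' := h1
  simp only at h2
  rcases h with ⟨g, h⟩ | ⟨g, h⟩ | ⟨g, h⟩ | ⟨g, h⟩
  · exact Or.inl ⟨by simp only at g ⊢; omega, h⟩
  · exact Or.inr (Or.inl ⟨by simp only at g ⊢; omega, h⟩)
  · exact Or.inr (Or.inr (Or.inl ⟨by simp only at g ⊢; omega, h⟩))
  · exact Or.inr (Or.inr (Or.inr ⟨by simp only at g ⊢; omega, h⟩))

variable {D : Set ℂ}

/-- **Refinement of an approximating shape.** -/
theorem dis_app (h : CD D) {P : Fin 4 → Set ℂ} {o : ℕ} {κ : ℝ} (hκ : κ ≤ 1 / 4) {S : Shape}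
    {ε ρ η : ℝ} (A : AppP D P o κ S ε ρ η) (hV : HVC S.P.Q) :
    ∃ (S' : Shape) (ε' ρ' η' : ℝ), (HVC S'.P.Q ∧ Dis S'.P.Q) ∧ AppP D P o (5 * κ) S' ε' ρ' η' := by
  obtain ⟨R, hR0, hR⟩ := h.exists_R
  obtain ⟨r, hr0, hr⟩ := h.exists_r
  have hκ0 : 0 < κ := A.η0.trans_le A.ηκ
  have hη1 := A.η1
  have hη0 := A.η0
  -- parameters
  obtain ⟨θ, hθ⟩ : ∃ θ, θ = κ / (R + 1) := ⟨_, rfl⟩
  have hθ0 : 0 < θ := by rw [hθ]; positivity
  have hθR : θ * (R + 1) = κ := by rw [hθ]; field_simp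
  have hθκ : θ ≤ κ := by nlinarith
  have hmin : 0 < min (ρ / 2) (θ * r / 4) := lt_min (by linarith [A.ρ0]) (by positivity)
  obtain ⟨n, hn⟩ := exists_nat_gt (ε / min (ρ / 2) (θ * r / 4))
  obtain ⟨k, hk⟩ : ∃ k : ℤ, k = n + 2 := ⟨_, rfl⟩
  have hk2 : 2 ≤ k := by omega
  have hkr : (0:ℝ) < k := by exact_mod_cast (show 0 < k by omega)
  have hkn : (n : ℝ) ≤ k := by exact_mod_cast (show (n : ℤ) ≤ k by omega)
  obtain ⟨e, he⟩ : ∃ e : ℝ, e = ε / k := ⟨_, rfl⟩
  have he0 : 0 < e := by rw [he]; exact div_pos A.ε0 hkr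
  have hke : (k : ℝ) * e = ε := by rw [he]; field_simp
  have hes : e < min (ρ / 2) (θ * r / 4) := by
    rw [div_lt_iff₀ hmin] at hn
    rw [he, div_lt_iff₀ hkr]
    nlinarith
  rw [lt_min_iff] at hes
  have heε : 2 * e ≤ ε := by
    rw [← hke]
    exact mul_le_mul_of_nonneg_right (by exact_mod_cast hk2) he0.le
  -- the shape
  obtain ⟨y0, y1, a, b, yP, yQ, F⟩ := exists_rowF S.P.good hV
  obtain ⟨S', hQ', hS'⟩ := exists_refined F hk2
  have hεκ := A.εκ
  have q2 := S.h02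
  have q3 := S.h23
  have q4 := S.h34
  have q5 := S.P.hmN
  have q2' := S'.h02
  have q3' := S'.h23
  have q4' := S'.h34
  have q5' := S'.P.hmN
  have hN : S.N = S.P.N := rfl
  have hN' : S'.N = S'.P.N := rfl
  have hm4 : S.m4 = S.P.m := rfl
  have hm4' : S'.m4 = S'.P.m := rfl
  -- sides
  have side : ∀ i < S'.N, ∀ z, OnS e (S'.P.side i) z → ∃ q < S.N, arc S' i = arc S q ∧
      ∃ z0, OnS ε (S.P.side q) z0 ∧ ‖z - z0‖ ≤ e := by
    intro i hi z hz
    obtain ⟨q, hq, h1, h2, h3⟩ := hS' i hi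
    have hs := isSide_side (S := S') i
    rw [hQ'] at hs
    obtain ⟨z0, g1, g2⟩ := side_near (a := a) (b := b) (y0 := y0) (y1 := y1) hk2 he0 hs hz
    rw [hke] at g1
    refine ⟨q, hq, h1, z0, onS_congr h2 ?_ g1, g2⟩
    have : (rpj k y0 (S'.P.side i)).2 = (S'.P.side i).2 := rpj_snd _
    rw [this]
    exact h3
  have near : ∀ {K : Set ℂ} {z z0 : ℂ}, ‖z - z0‖ ≤ e → (∃ w ∈ K, ‖z0 - w‖ ≤ κ) →
      ∃ w ∈ K, ‖z - w‖ ≤ 5 * κ := by
    rintro K z z0 h1 ⟨w, hw, h2⟩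
    refine ⟨w, hw, ?_⟩
    have := norm_sub_le_norm_sub_add_norm_sub z z0 w
    linarith
  have far : ∀ {z z0 : ℂ}, ‖z - z0‖ ≤ e → (∀ w ∈ D, ρ ≤ ‖z0 - w‖) → ∀ w ∈ D, ρ / 2 ≤ ‖z - w‖ := by
    intro z z0 h1 h2 w hw
    have := norm_sub_le_norm_sub_add_norm_sub z0 z w
    rw [norm_sub_rev] at h1
    linarith [h2 w hw]
  -- the smaller copies
  have hη' : η + θ ≤ 1 / 2 := by linarith [A.ηκ]
  have hsub : ∀ z ∈ sc (η + θ) D, ∀ z0, ‖z - z0‖ ≤ e → z0 ∈ sc η D := by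
    rintro z ⟨w, hw, rfl⟩ z0 hz
    have hne : (1 - η : ℝ) ≠ 0 := by linarith
    have hne' : ((1 - η : ℝ) : ℂ) ≠ 0 := by exact_mod_cast hne
    have h10 : 0 < 1 - η := by linarith
    have t0 : 0 < θ / (1 - η) := div_pos hθ0 h10
    have t1 : θ / (1 - η) ≤ 1 := by rw [div_le_one h10]; linarith
    have t2 : θ ≤ θ / (1 - η) := by rw [le_div_iff₀ h10]; nlinarith
    have e1 : (1 - η) * (1 - θ / (1 - η)) = 1 - (η + θ) := by field_simp; ring
    have e1' : ((1 - η : ℝ) : ℂ) * ((1 - θ / (1 - η) : ℝ) : ℂ) = ((1 - (η + θ) : ℝ) : ℂ) := by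
      rw [← Complex.ofReal_mul, e1]
    refine ⟨((1 - θ / (1 - η) : ℝ) : ℂ) * w +
      ((1 - η : ℝ) : ℂ)⁻¹ * (z0 - ((1 - (η + θ) : ℝ) : ℂ) * w), ?_, ?_⟩
    · refine h.scale_add hr0 hr t0 t1 hw ?_
      rw [norm_mul, norm_inv, Complex.norm_real, Real.norm_eq_abs, abs_of_pos h10,
        inv_mul_lt_iff₀ h10]
      rw [norm_sub_rev] at hz
      have k1 := mul_le_mul_of_nonneg_right t2 hr0.le
      have k2 : 0 < θ * r := mul_pos hθ0 hr0
      nlinarith
    · rw [mul_add, ← mul_assoc, e1', ← mul_assoc, mul_inv_cancel₀ hne', one_mul]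
      ring
  have hOm' : ∀ z ∈ sc (η + θ) D, z ∈ Om S'.P.Q (gr e) (gr e) := by
    intro z hz
    rw [hQ']
    by_contra hcon
    obtain ⟨z0, g1, g2⟩ := out_near F hk2 he0 hcon
    rw [hke] at g1
    exact g1 (A.sub z0 (hsub z hz z0 g2))
  refine ⟨S', e, ρ / 2, η + θ, ⟨by rw [hQ']; exact (rowF_Rf F hk2).hvc, by rw [hQ']; exact dis_Rf hk2⟩, ?_⟩
  constructor
  · exact he0
  · linarith [A.ρ0]
  · linarith
  · exact hη'
  · linarith [A.ηκ]
  · linarith
  · intro i hi z hz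
    obtain ⟨q, hq, h1, z0, h2, h3⟩ := side i (by omega) z hz
    refine near h3 (A.s1 q ?_ z0 h2)
    unfold arc at h1
    split_ifs at h1 <;> omega
  · intro i hi hi' z hz
    obtain ⟨q, hq, h1, z0, h2, h3⟩ := side i (by omega) z hz
    refine near h3 (A.s2 q ?_ ?_ z0 h2)
    · unfold arc at h1
      split_ifs at h1 <;> omega
    · unfold arc at h1
      split_ifs at h1 <;> omega
  · intro i hi hi' z hz
    obtain ⟨q, hq, h1, z0, h2, h3⟩ := side i (by omega) z hz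
    refine near h3 (A.s3 q ?_ ?_ z0 h2)
    · unfold arc at h1
      split_ifs at h1 <;> omega
    · unfold arc at h1
      split_ifs at h1 <;> omega
  · intro i hi hi' z hz
    obtain ⟨q, hq, h1, z0, h2, h3⟩ := side i (by omega) z hz
    refine near h3 (A.s4 q ?_ ?_ z0 h2)
    · unfold arc at h1
      split_ifs at h1 <;> omega
    · unfold arc at h1
      split_ifs at h1 <;> omega
  · intro ho i hi z hz
    unfold Shape.Fr at hi
    obtain ⟨q, hq, h1, z0, h2, h3⟩ := side i (by omega) z hz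
    refine far h3 (A.o1 ho q ?_ z0 h2)
    unfold Shape.Fr
    unfold arc at h1
    split_ifs at h1 <;> omega
  · intro ho i hi z hz
    unfold Shape.Wd at hi
    obtain ⟨q, hq, h1, z0, h2, h3⟩ := side i (by omega) z hz
    refine far h3 (A.o0 ho q ?_ z0 h2)
    unfold Shape.Wd
    unfold arc at h1
    split_ifs at h1 <;> omega
  · intro z hz
    rw [hQ'] at hz
    obtain ⟨z0, g1, g2⟩ := reg_near F hk2 he0 hz
    rw [hke] at g1
    rcases A.r1 z0 g1 with g | ⟨i, hi, g⟩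
    · left
      intro w hw
      apply g
      have := norm_sub_le_norm_sub_add_norm_sub w z z0
      linarith
    · exact Or.inr ⟨i, hi, near g2 g⟩
  · intro z w hw hd hz
    rw [hQ'] at hz
    obtain ⟨z0, g1, g2⟩ := out_near F hk2 he0 hz
    rw [hke] at g1
    have : ‖z0 - w‖ < ρ := by
      have := norm_sub_le_norm_sub_add_norm_sub z0 z w
      rw [norm_sub_rev z0 z] at this
      linarith
    obtain ⟨i, hi, g⟩ := A.r2 z0 w hw this g1
    exact ⟨i, hi, near g2 g⟩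
  · exact hOm'
  · intro z hz
    have hz' := hz
    rw [hQ'] at hz'
    obtain ⟨c1, hc1, d1, j1, -⟩ := to_home F hk2 he0 hz'
    rw [hke] at d1 j1
    have hr1 := home_rect hk2 he0 c1
    rw [hke] at hr1
    -- the home is in the polygon
    have hin : home k e c1 ∈ Om S.P.Q (gr ε) (gr ε) := by
      obtain ⟨X, J⟩ := c1
      have hk' : (2:ℝ) ≤ k := by exact_mod_cast hk2
      have h2 := mul_le_mul_of_nonneg_right hk' he0.le
      apply box_Om A.ε0 (i0 := X) (i1 := X) (j0 := J) (j1 := J)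
      · intro i j a1 a2 a3 a4
        obtain rfl : i = X := by omega
        obtain rfl : j = J := by omega
        exact hc1
      all_goals
        unfold home
        first | rw [cnr_re] | rw [cnr_im]
        rw [← hke]
        push_cast
        nlinarith
    obtain ⟨w, hw, J⟩ := A.jn _ hin
    -- the smaller copy of the point
    obtain ⟨v, hv, rfl⟩ := hw
    have hvR := hR v (subset_closure hv)
    have hw' : ((1 - (η + θ) : ℝ) : ℂ) * v ∈ sc (η + θ) D := ⟨v, hv, rfl⟩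
    have hd : ‖((1 - (η + θ) : ℝ) : ℂ) * v - ((1 - η : ℝ) : ℂ) * v‖ < κ := by
      rw [← sub_mul, ← Complex.ofReal_sub, norm_mul, Complex.norm_real, Real.norm_eq_abs,
        show (1 - (η + θ)) - (1 - η) = -θ by ring, abs_neg, abs_of_pos hθ0]
      nlinarith
    have cdη := h.cd_sc hη0.le (show η < 1 by linarith)
    have hws : ((1 - η : ℝ) : ℂ) * v ∈ sc η D := ⟨v, hv, rfl⟩
    have hw's : ((1 - (η + θ) : ℝ) : ℂ) * v ∈ sc η D := by
      exact hsub _ hw' _ (by rw [sub_self, norm_zero]; exact he0.le)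
    have J2 : JoinedIn (Om S.P.Q (gr ε) (gr ε) ∩ Metric.ball z (3 * κ + 3 * ε))
        (((1 - η : ℝ) : ℂ) * v) (((1 - (η + θ) : ℝ) : ℂ) * v) := by
      apply JoinedIn.of_segment_subset
      intro u hu
      refine ⟨A.sub u (cdη.conv.segment_subset hws hw's hu), ?_⟩
      have t := J.target_mem.2
      refine (convex_ball z (3 * κ + 3 * ε)).segment_subset ?_ ?_ hu
      · rw [Metric.mem_ball, dist_eq_norm] at t ⊢
        have := norm_sub_le_norm_sub_add_norm_sub (((1 - η : ℝ) : ℂ) * v) (home k e c1) z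
        linarith
      · rw [Metric.mem_ball, dist_eq_norm] at t ⊢
        have h1 := norm_sub_le_norm_sub_add_norm_sub (((1 - η : ℝ) : ℂ) * v) (home k e c1) z
        have h2 := norm_sub_le_norm_sub_add_norm_sub (((1 - (η + θ) : ℝ) : ℂ) * v)
          (((1 - η : ℝ) : ℂ) * v) z
        linarith
    have J1 : JoinedIn (Om S.P.Q (gr ε) (gr ε) ∩ Metric.ball z (3 * κ + 3 * ε))
        (home k e c1) (((1 - η : ℝ) : ℂ) * v) := by
      refine J.mono (inter_subset_inter_right _ (fun u hu => ?_))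
      rw [Metric.mem_ball, dist_eq_norm] at hu ⊢
      have := norm_sub_le_norm_sub_add_norm_sub u (home k e c1) z
      linarith
    have hO2 := hOm' _ hw'
    rw [hQ'] at hO2
    obtain ⟨c2, hc2, d2, j2, m2⟩ := to_home F hk2 he0 hO2
    rw [hke] at d2 j2 m2
    have hr2 := m2 (A.sub _ hw's)
    have J12 := J1.trans J2
    rw [← hke] at J12 hr1 hr2
    have J3 := home_join F hk2 he0 J12 hr1 hr2
    rw [hke] at J3
    refine ⟨((1 - (η + θ) : ℝ) : ℂ) * v, hw', ?_⟩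
    rw [hQ']
    have hb : 3 * κ + 3 * ε + 2 * ε ≤ 2 * (5 * κ) := by linarith
    refine ((j1 z (2 * (5 * κ)) (by rw [sub_self, norm_zero]; linarith)).trans
      (J3.mono (inter_subset_inter_right _ (Metric.ball_subset_ball hb)))).trans
      (j2 z (2 * (5 * κ)) ?_).symm
    have t := J2.target_mem.2
    rw [Metric.mem_ball, dist_eq_norm] at t
    linarith

end Pool.Agent.H5.FM
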