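import Mathlib
import Pool.Agent.H5.FM.Rfn6

set_option autoImplicit false
open Set Filter Topology

/-! # Approximation by shapes of the class `Dis`

No level of the polygon has a reflex corner at both ends. -/

namespace Pool.Agent.H5.FM

open Pool.Agent.Q1.M4 (Cell rect Reg Om)
open Pool.Agent.H21.FM
open Pool.Agent.H19.Rado (CA cr affC affC_apply half_preim_rot one_add_I_ne)
open Pool.Agent.H19.RH (Cht lam exists_cht)
open Pool.Agent.H69.Car (IsHalf HC HO)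
open Pool.Agent.H14.FM (ic)

variable {D : Set ℂ} {c : Fin 4 → ℝ}

/-- **Approximating shapes of the class `Dis` exist.** -/
theorem exists_appD (h : CD D) (j : Fin 4) {o : ℕ} (ho : o = 0 ∨ o = 1) (G : Gd D c (eo j o))
    {P : Fin 4 → Set ℂ} (hP : ∀ k, P k = CA D c (k - j)) {κ : ℝ} (hκ : 0 < κ) (hκ1 : κ ≤ 1) :
    ∃ (S : Shape) (ε ρ η : ℝ), (HVC S.P.Q ∧ Dis S.P.Q) ∧ AppP D P o κ S ε ρ η := by
  obtain ⟨S, ε, ρ, η, hV, A⟩ := exists_appV h j ho G hP (show 0 < κ / 5 by positivity)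
  obtain ⟨S', ε', ρ', η', hV', A'⟩ := dis_app h (by linarith) A hV
  rw [mul_div_cancel₀ κ (by norm_num)] at A'
  exact ⟨S', ε', ρ', η', hV', A'⟩

section

variable (hc : Convex ℝ D) (ho : IsOpen D) (hb : Bornology.IsBounded D) {z1 : ℂ} (hz : z1 ∈ D)
  {a b : ℂ} {φ : ℂ → ℂ} (hφ : IsHalf D a b φ) {t t' : Fin 4 → ℝ} (ht : StrictMono t)
  (ht' : StrictMono t')
include hc ho hb hz hφ ht ht'

/-- **Upper bound** with polygons of the class `Dis`, with rows in every arc. -/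
theorem apxU_dis (hs : ∀ x y : ℂ, x ≠ y → ((y - x).re = (y - x).im ∨ (y - x).re = -(y - x).im) →
      ¬ openSegment ℝ x y ⊆ frontier D) (h0 : t' 0 < t 0) (h1 : t 1 < t' 1)
    (h2 : t' 2 < t 2) (h3 : t 3 < t' 3) :
    ApxU (fun S => HVC S.P.Q ∧ VArc S ∧ Dis S.P.Q) z1 D ((fun x : ℝ => φ x) '' Icc (t 0) (t 1))
      ((fun x : ℝ => φ x) '' Icc (t 2) (t 3)) (1 - cr (t' 0) (t' 1) (t' 2) (t' 3)) := by
  have na : ∀ i, NoDiag D (PA φ b t i) := noDiag_of hφ ht hs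
  have h := cd_preimage hc ho hb hz
  have hφ' := half_preim_rot hφ z1
  have hδ : 0 < min (t 0 - t' 0) (t 2 - t' 2) := lt_min (by linarith) (by linarith)
  obtain ⟨u, u0, u1, gen⟩ := exists_shift hφ' t' hδ
  rw [lt_min_iff] at u1
  obtain ⟨t'', ht2⟩ : ∃ t'' : Fin 4 → ℝ, t'' = fun m => t' m + u := ⟨_, rfl⟩
  have hm : ∀ m, t'' m = t' m + u := fun m => by rw [ht2]
  have ht'' : StrictMono t'' := fun i j hij => by rw [hm, hm]; linarith [ht' hij]
  have k0 : t'' 0 < t 0 := by rw [hm]; linarith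
  have k1 : t 1 < t'' 1 := by rw [hm]; linarith
  have k2 : t'' 2 < t 2 := by rw [hm]; linarith
  have k3 : t 3 < t'' 3 := by rw [hm]; linarith
  have hcr : cr (t' 0) (t' 1) (t' 2) (t' 3) = cr (t'' 0) (t'' 1) (t'' 2) (t'' 3) := by
    rw [hm, hm, hm, hm]
    unfold cr
    congr 1
    · ring
    · ring
  rw [hcr]
  have na' : ∀ i : Fin 4, i.val % 2 ≠ 1 → NoArc ((fun z => (1 + Complex.I) * z + z1) ⁻¹' D)
      (PA (fun z => (φ z - z1) / (1 + Complex.I)) ((b - z1) / (1 + Complex.I)) t'' i) := by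
    intro i hi
    have hN := noArc_preimage (z1 := z1)
      (K := PA (fun z => (φ z - z1) / (1 + Complex.I)) ((b - z1) / (1 + Complex.I)) t i)
      (by rw [Af_PA]; exact na i)
    apply hN.mono
    rcases even_fin i (by omega) with rfl | rfl
    · rw [PA0, PA0]
      exact image_mono (Icc_subset_Icc k0.le k1.le)
    · rw [PA2, PA2]
      exact image_mono (Icc_subset_Icc k2.le k3.le)
  obtain ⟨κ1, hκ1, H⟩ := upG_of_app h hφ' ht ht'' k0 k1 k2 k3 z1
  obtain ⟨κ0, hκ0, h01, h02⟩ : ∃ κ0 > 0, κ0 ≤ κ1 ∧ κ0 ≤ 1 :=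
    ⟨min κ1 1, lt_min hκ1 one_pos, min_le_left _ _, min_le_right _ _⟩
  obtain ⟨c, j, c4, G⟩ := exists_gd h hφ' ht'' (Or.inr rfl) (by
    intro m s hs
    rw [hm]
    exact gen m s hs) na'
  have hle0 : ∀ n : ℕ, κ0 / ((n : ℝ) + 1) ≤ κ0 := fun n => div_le_self hκ0.le (by
    have := Nat.cast_nonneg (α := ℝ) n
    linarith)
  have hA : ∀ n : ℕ, ∃ (S : Shape) (ε ρ η : ℝ), (HVC S.P.Q ∧ Dis S.P.Q) ∧
      AppP ((fun z => (1 + Complex.I) * z + z1) ⁻¹' D)
      (PA (fun z => (φ z - z1) / (1 + Complex.I)) ((b - z1) / (1 + Complex.I)) t'') 1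
      (κ0 / (n + 1)) S ε ρ η := fun n =>
    exists_appD h j (Or.inr rfl) G c4 (by positivity) ((hle0 n).trans h02)
  choose S ε ρ η hV A using hA
  have hκ : Tendsto (fun n : ℕ => κ0 / ((n : ℝ) + 1)) atTop (𝓝 0) := by
    have := (tendsto_one_div_add_atTop_nhds_zero_nat (𝕜 := ℝ)).const_mul κ0
    simpa [div_eq_mul_inv] using this
  obtain ⟨n0, hn0⟩ := eventually_atTop.1 (vert_side h hφ' ht'' (noHor_preimage hs) hκ A)
  choose ψ hψ using fun n => exists_cht (x := ic) (y := ic) (S n).P ic_mono ic_mono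
  have hl := lam_limit h hφ' ht'' hκ A hψ
  refine ⟨fun n => S (n + n0), fun n => ε (n + n0), fun n => ψ (n + n0),
    fun n => ⟨⟨(hV _).1, hn0 _ (by omega), (hV _).2⟩, hψ _, ?_⟩, hl.comp (tendsto_add_atTop_nat n0)⟩
  have := H _ _ _ _ _ ((hle0 (n + n0)).trans h01) (A (n + n0))
  rw [Af_preimage, Af_PA, Af_PA, PA0, PA2] at this
  exact this

/-- **Lower bound** with polygons of the class `Dis`, with rows in every arc. -/
theorem apxL_dis (hs : ∀ x y : ℂ, x ≠ y → ((y - x).re = (y - x).im ∨ (y - x).re = -(y - x).im) →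
      ¬ openSegment ℝ x y ⊆ frontier D) (h0 : t 0 < t' 0) (h1 : t' 1 < t 1)
    (h2 : t 2 < t' 2) (h3 : t' 3 < t 3) :
    ApxL (fun S => HVC S.P.Q ∧ VArc S ∧ Dis S.P.Q) z1 D ((fun x : ℝ => φ x) '' Icc (t 0) (t 1))
      ((fun x : ℝ => φ x) '' Icc (t 2) (t 3)) (1 - cr (t' 0) (t' 1) (t' 2) (t' 3)) := by
  have na : ∀ i, NoDiag D (PA φ b t i) := noDiag_of hφ ht hs
  have h := cd_preimage hc ho hb hz
  have hφ' := half_preim_rot hφ z1
  have hδ : 0 < min (t 1 - t' 1) (t 3 - t' 3) := lt_min (by linarith) (by linarith)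
  obtain ⟨u, u0, u1, gen⟩ := exists_shift hφ' t' hδ
  rw [lt_min_iff] at u1
  obtain ⟨t'', ht2⟩ : ∃ t'' : Fin 4 → ℝ, t'' = fun m => t' m + u := ⟨_, rfl⟩
  have hm : ∀ m, t'' m = t' m + u := fun m => by rw [ht2]
  have ht'' : StrictMono t'' := fun i j hij => by rw [hm, hm]; linarith [ht' hij]
  have k0 : t 0 < t'' 0 := by rw [hm]; linarith
  have k1 : t'' 1 < t 1 := by rw [hm]; linarith
  have k2 : t 2 < t'' 2 := by rw [hm]; linarith
  have k3 : t'' 3 < t 3 := by rw [hm]; linarith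
  have hcr : cr (t' 0) (t' 1) (t' 2) (t' 3) = cr (t'' 0) (t'' 1) (t'' 2) (t'' 3) := by
    rw [hm, hm, hm, hm]
    unfold cr
    congr 1
    · ring
    · ring
  rw [hcr]
  have na' : ∀ i : Fin 4, i.val % 2 ≠ 0 → NoArc ((fun z => (1 + Complex.I) * z + z1) ⁻¹' D)
      (PA (fun z => (φ z - z1) / (1 + Complex.I)) ((b - z1) / (1 + Complex.I)) t'' i) := by
    intro i hi
    have hN := noArc_preimage (z1 := z1)
      (K := PA (fun z => (φ z - z1) / (1 + Complex.I)) ((b - z1) / (1 + Complex.I)) t i)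
      (by rw [Af_PA]; exact na i)
    apply hN.mono
    rcases odd_fin i (by omega) with rfl | rfl
    · rw [PA1, PA1]
      exact image_mono (Icc_subset_Icc k1.le k2.le)
    · rw [PA3, PA3]
      exact union_subset_union_left _ (image_mono (union_subset_union (Iic_subset_Iic.2 k0.le)
        (Ici_subset_Ici.2 k3.le)))
  obtain ⟨κ1, hκ1, H⟩ := loG_of_app h hφ' ht ht'' k0 k1 k2 k3 z1
  obtain ⟨κ0, hκ0, h01, h02⟩ : ∃ κ0 > 0, κ0 ≤ κ1 ∧ κ0 ≤ 1 :=
    ⟨min κ1 1, lt_min hκ1 one_pos, min_le_left _ _, min_le_right _ _⟩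
  obtain ⟨c, j, c4, G⟩ := exists_gd h hφ' ht'' (Or.inl rfl) (by
    intro m s hs
    rw [hm]
    exact gen m s hs) na'
  have hle0 : ∀ n : ℕ, κ0 / ((n : ℝ) + 1) ≤ κ0 := fun n => div_le_self hκ0.le (by
    have := Nat.cast_nonneg (α := ℝ) n
    linarith)
  have hA : ∀ n : ℕ, ∃ (S : Shape) (ε ρ η : ℝ), (HVC S.P.Q ∧ Dis S.P.Q) ∧
      AppP ((fun z => (1 + Complex.I) * z + z1) ⁻¹' D)
      (PA (fun z => (φ z - z1) / (1 + Complex.I)) ((b - z1) / (1 + Complex.I)) t'') 0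
      (κ0 / (n + 1)) S ε ρ η := fun n =>
    exists_appD h j (Or.inl rfl) G c4 (by positivity) ((hle0 n).trans h02)
  choose S ε ρ η hV A using hA
  have hκ : Tendsto (fun n : ℕ => κ0 / ((n : ℝ) + 1)) atTop (𝓝 0) := by
    have := (tendsto_one_div_add_atTop_nhds_zero_nat (𝕜 := ℝ)).const_mul κ0
    simpa [div_eq_mul_inv] using this
  obtain ⟨n0, hn0⟩ := eventually_atTop.1 (vert_side h hφ' ht'' (noHor_preimage hs) hκ A)
  choose ψ hψ using fun n => exists_cht (x := ic) (y := ic) (S n).P ic_mono ic_mono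
  have hl := lam_limit h hφ' ht'' hκ A hψ
  refine ⟨fun n => S (n + n0), fun n => ε (n + n0), fun n => ψ (n + n0),
    fun n => ⟨⟨(hV _).1, hn0 _ (by omega), (hV _).2⟩, hψ _, ?_⟩, hl.comp (tendsto_add_atTop_nat n0)⟩
  have := H _ _ _ _ _ ((hle0 (n + n0)).trans h01) (A (n + n0))
  rw [Af_preimage, Af_PA, Af_PA, PA0, PA2] at this
  exact this

end


end Pool.Agent.H5.FM
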