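import Mathlib
import Pool.Agent.H66.FM.Final
import Pool.Agent.H5.FM.Rfn7
import Pool.Agent.H57.FM.AllMarks
import Pool.Agent.H57.FM.Wrap
import Pool.Agent.H19.Rado.Convex

set_option autoImplicit false
open Set Filter Topology MeasureTheory

/-! # Cardy's formula in all convex domains from the windows in the class `Dis` -/

namespace Pool.Agent.H5.FMD

open Pool.Agent.H5.FM (HVC VArc Dis apxU_dis apxL_dis)
open Pool.Agent.H66.FM (cardy_of_apx smono4)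
open Pool.Agent.H57.FM (PC Arc NoSide cardy_all wrap)
open Pool.Agent.H21.FM
open Pool.Agent.H69.Car (IsHalf HC HO exists_half)
open Pool.Agent.H19.Rado (cr isJordan_of_convex)
open Pool.Agent.H13.Q1.Four (cardy)

/-- convex domains without diagonal sides -/
theorem cardy_noSideD (hHol : ∀ S : Shape, HVC S.P.Q → VArc S → Dis S.P.Q → Hol3 S) {D : Set ℂ}
    (hc : Convex ℝ D) (ho : IsOpen D) (hb : Bornology.IsBounded D) (hne : D.Nonempty)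
    (hs : NoSide D) {a b : ℂ} {φ : ℂ → ℂ} (hφ : IsHalf D a b φ) {t : Fin 4 → ℝ}
    (ht : StrictMono t) :
    Tendsto (PC D (Arc φ (t 0) (t 1)) (Arc φ (t 2) (t 3))) (𝓝[>] 0)
      (𝓝 (cardy (cr (t 0) (t 1) (t 2) (t 3)))) := by
  obtain ⟨z1, hz⟩ := hne
  exact cardy_of_apx (Cl := fun S => HVC S.P.Q ∧ VArc S ∧ Dis S.P.Q)
    (fun S hS => hHol S hS.1 hS.2.1 hS.2.2) hb ht
    one_pos
    (fun t' h1 _ g0 g1 g2 g3 => apxU_dis hc ho hb hz hφ ht h1 hs g0 g1 g2 g3)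
    (fun t' h1 _ g0 g1 g2 g3 => apxL_dis hc ho hb hz hφ ht h1 hs g0 g1 g2 g3)

/-- **Cardy's formula in all bounded convex domains with four boundary points**, from the holomorphy of
the limits on the shapes whose rows and columns are intervals. -/
theorem cardy_convexD (hHol : ∀ S : Shape, HVC S.P.Q → VArc S → Dis S.P.Q → Hol3 S) {D : Set ℂ}
    (hc : Convex ℝ D) (ho : IsOpen D) (hb : Bornology.IsBounded D) (hne : D.Nonempty)
    {a b : ℂ} {φ : ℂ → ℂ} (hφ : IsHalf D a b φ) {t : Fin 4 → ℝ} (ht : StrictMono t) :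
    Tendsto (PC D (Arc φ (t 0) (t 1)) (Arc φ (t 2) (t 3))) (𝓝[>] 0)
      (𝓝 (cardy (cr (t 0) (t 1) (t 2) (t 3)))) :=
  cardy_all (F := fun t => cardy (cr (t 0) (t 1) (t 2) (t 3)))
    (fun _ h1 h2 h3 h4 h5 _ _ _ h6 _ h7 => cardy_noSideD hHol h1 h2 h3 h4 h5 h6 h7)
    hc ho hb hne hφ ht

/-- **The self-contained form.** -/
theorem convex_stateD (hHol : ∀ S : Shape, HVC S.P.Q → VArc S → Dis S.P.Q → Hol3 S)
    (μ : Measure ((ℤ × ℤ) × Bool → Bool))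
    (hμ : μ = Measure.infinitePi (fun _ => (PMF.uniformOfFintype Bool).toMeasure))
    (pos : ℝ → ℤ × ℤ → ℂ)
    (hpos : ∀ δ v, pos δ v = (δ : ℂ) * ((v.1 : ℂ) + (v.2 : ℂ) * Complex.I))
    (G : Set ℂ → ℝ → ((ℤ × ℤ) × Bool → Bool) → SimpleGraph (ℤ × ℤ))
    (hG : ∀ D δ ω, G D δ ω = SimpleGraph.fromRel (fun u v => pos δ u ∈ D ∧ pos δ v ∈ D ∧
      ((v = (u.1 + 1, u.2) ∧ ω (u, true) = true) ∨
        (v = (u.1, u.2 + 1) ∧ ω (u, false) = true))))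
    (P : Set ℂ → Set ℂ → Set ℂ → ℝ → ℝ)
    (hP : ∀ D A B δ, P D A B δ = (μ {ω | ∃ u v : ℤ × ℤ, pos δ u ∈ D ∧ pos δ v ∈ D ∧
      (∃ a ∈ A, dist (pos δ u) a ≤ δ) ∧ (∃ b ∈ B, dist (pos δ v) b ≤ δ) ∧
      (G D δ ω).Reachable u v}).toReal)
    (F : ℝ → ℝ)
    (hF : ∀ x, F x = Real.Gamma (2 / 3) / Real.Gamma (1 / 3) ^ 2 *
      ∫ s in (0 : ℝ)..x, s ^ (-(2 / 3) : ℝ) * (1 - s) ^ (-(2 / 3) : ℝ))
    (Conf : Set ℂ → ℂ → ℂ → (ℂ → ℂ) → Prop)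
    (hConf : ∀ D a b f, Conf D a b f ↔ ContinuousOn f {z | 0 ≤ z.im} ∧ Set.InjOn f {z | 0 ≤ z.im} ∧
      DifferentiableOn ℂ f {z | 0 < z.im} ∧ f '' {z | 0 < z.im} = D ∧ f 0 = a ∧
      Tendsto f (Bornology.cobounded ℂ ⊓ 𝓟 {z | 0 ≤ z.im}) (𝓝 b) ∧
      f '' {z | 0 ≤ z.im} = closure D \ {b})
    (D : Set ℂ) (hDo : IsOpen D) (hDc : Convex ℝ D) (hDb : Bornology.IsBounded D)
    (hDn : D.Nonempty)
    (a b : ℂ) (ha : a ∈ frontier D) (hb : b ∈ frontier D) (hab : a ≠ b) :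
    (∃ f : ℂ → ℂ, Conf D a b f) ∧
    ∀ f : ℂ → ℂ, Conf D a b f → ∀ t0 t1 t2 t3 : ℝ, t0 < t1 → t1 < t2 → t2 < t3 →
      Tendsto (fun δ => P D ((fun s : ℝ => f s) '' Set.Icc t0 t1) ((fun s : ℝ => f s) '' Set.Icc t2 t3) δ)
        (𝓝[>] 0) (𝓝 (F ((t1 - t0) * (t3 - t2) / ((t2 - t0) * (t3 - t1))))) := by
  have hiff : ∀ f : ℂ → ℂ, Conf D a b f ↔ IsHalf D a b f := by
    intro f
    rw [hConf]
    constructor
    · rintro ⟨h1, h2, h3, h4, h5, h6, h7⟩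
      exact ⟨h1, h2, h3, h4, h5, h6, h7⟩
    · rintro ⟨h1, h2, h3, h4, h5, h6, h7⟩
      exact ⟨h1, h2, h3, h4, h5, h6, h7⟩
  constructor
  · obtain ⟨f, hf⟩ := exists_half (isJordan_of_convex hDc hDo hDb hDn) ha hb hab
    exact ⟨f, (hiff f).2 hf⟩
  · intro f hf t0 t1 t2 t3 h01 h12 h23
    have h := cardy_convexD hHol hDc hDo hDb hDn ((hiff f).1 hf) (smono4 h01 h12 h23)
    exact wrap μ hμ pos hpos G hG P hP F hF hDb h

end Pool.Agent.H5.FMD
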